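import Pool.Agent.NP2.ArcE

/-!
# NP2 / Arc : major arcs; the two gain inequalities

`mm Q i ξ = ∑_{q ≤ Q} ∑_{p mod q, (p,q)=1} Ph (4^i) (ξ - p/q)` is the multiplier of `sm Q i`.

Assume `16 Q^4 16^j ≤ 2^k`, `j ≤ k`, `Q ≥ 1`; put `N = 2^k`, `i = k - j`, `L = 4^i`.

* `arc_end` : Dirichlet (`Real.exists_int_int_abs_mul_sub_le` or
  `Real.exists_nat_abs_mul_sub_round_le`) gives `q ≤ 2N`, `(p,q) = 1`, `|ξ - p/q| ≤ 1/(2qN)`.
  All fractions with denominator `≤ Q` other than the nearest one are at distance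
  `≥ 1/(2Q^2)` mod 1, so their total contribution to `mm` is at most `Q^2 Q^4/L^2 ≤ (3/4)^j`.
  If `q > Q`: `|1 - mm| ≤ 2` and `gN_bound1`.  If `q ≤ Q`: `mm = Ph L η + small` and
  `(1 - Ph L η) sqrt(gN)` is bounded with `Ph_small`, `gN_bound2` for `L|η| ≤ 1`
  (`(Lη)^2 (N^2 η)^(-1/4) ≤ 2^(-j/2)`), with `gN_bound2` alone for `L|η| > 1`.
* `arc_band` : for each fraction `p/q`, `q ≤ Q`, with `η = ξ - p/q` reduced mod 1 to
  `[-1/2,1/2]`: `(Ph (4^i) η - Ph (4^(i+1)) η) sqrt(gN N ξ) ≤ C (3/4)^j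
  min(x^(1/2), x^(-1/2))`, `x = 4^i |η|`, then `Bb_lower`.  For `|η| ≤ 1/(2qN)` use
  `gN_bound2` (`sqrt gN ≤ 5 ((N^2|η|)^(-1/4) + N^(-1/4))`, `(N^2|η|)^(-1/4) = 2^(-j/2) x^(-1/4)`)
  and `Ph_band_small`, `Ph_band_large`; for `|η| > 1/(2qN)` use `gN ≤ 1` and
  `Ph_band_large`: `x^(-2) = x^(-1/2) x^(-3/2)`, `x ≥ N 4^(-j)/(2Q)`.
-/

namespace NP2
open Finset

noncomputable section

/-- the multiplier of `sm Q i` -/
def mm (Q i : ℕ) (ξ : ℝ) : ℝ :=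
  ∑ q ∈ Icc 1 Q, ∑ p ∈ (range q).filter (fun p => Nat.Coprime p q), Ph (4 ^ i) (ξ - (p : ℝ) / q)

theorem mm_nonneg (Q i : ℕ) (ξ : ℝ) : 0 ≤ mm Q i ξ := by
  unfold mm
  exact Finset.sum_nonneg fun q _ => Finset.sum_nonneg fun p _ => Ph_nonneg _ _

private theorem Arc_four (i : ℕ) (η : ℝ) : Ph (4 ^ (i + 1)) η ≤ Ph (4 ^ i) η := by
  have h := Ph_four (4 ^ i) η
  have e : 4 * 4 ^ i = 4 ^ (i + 1) := by ring
  rwa [e] at h

theorem mm_mono (Q i : ℕ) (ξ : ℝ) : mm Q (i + 1) ξ ≤ mm Q i ξ := by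
  unfold mm
  exact Finset.sum_le_sum fun q _ => Finset.sum_le_sum fun p _ => Arc_four _ _

private theorem Arc_sqrt_le (b g c x : ℝ) (hb : 0 ≤ b) (hc : 0 ≤ c)
    (h : b ^ 2 * g ≤ c ^ 2 * x) : b * Real.sqrt g ≤ c * Real.sqrt x := by
  have e1 : b * Real.sqrt g = Real.sqrt (b ^ 2 * g) := by
    rw [Real.sqrt_mul (sq_nonneg b), Real.sqrt_sq hb]
  have e2 : c * Real.sqrt x = Real.sqrt (c ^ 2 * x) := by
    rw [Real.sqrt_mul (sq_nonneg c), Real.sqrt_sq hc]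
  rw [e1, e2]
  exact Real.sqrt_le_sqrt h

private theorem Arc_scal (b g s u : ℝ) (hb : 0 ≤ b) (hs : 0 < s) (hu : 0 ≤ u)
    (h1 : b ≤ 320 * s ^ 4) (h2 : b ≤ 1 / (4 * s ^ 4)) (hg0 : 0 ≤ g)
    (hg : g ≤ 20 * u * (1 / s + 1 / 4)) :
    b ^ 2 * g ≤ 1600 ^ 2 * u * s ^ 2 ∧ b ^ 2 * g ≤ 1600 ^ 2 * u * (1 / s ^ 2) := by
  rcases le_or_gt s 1 with h | h
  · have hs1 : 1 ≤ 1 / s := by rw [le_div_iff₀ hs]; linarith
    have hg' : g ≤ 25 * u * (1 / s) := by nlinarith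
    have hb2 : b ^ 2 ≤ (320 * s ^ 4) ^ 2 := pow_le_pow_left₀ hb h1 2
    have h3 : b ^ 2 * g ≤ (320 * s ^ 4) ^ 2 * (25 * u * (1 / s)) :=
      mul_le_mul hb2 hg' hg0 (by positivity)
    have e : (320 * s ^ 4) ^ 2 * (25 * u * (1 / s)) = 1600 ^ 2 * u * s ^ 7 := by
      field_simp
      ring
    rw [e] at h3
    have h7 : s ^ 7 ≤ s ^ 2 := pow_le_pow_of_le_one hs.le h (by norm_num)
    have h8 : s ^ 2 ≤ 1 := pow_le_one₀ hs.le h
    have h9 : 1 ≤ 1 / s ^ 2 := by rw [le_div_iff₀ (by positivity)]; linarith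
    have hu' : 0 ≤ 1600 ^ 2 * u := by positivity
    constructor
    · exact h3.trans (mul_le_mul_of_nonneg_left h7 hu')
    · exact h3.trans (mul_le_mul_of_nonneg_left (h7.trans (h8.trans h9)) hu')
  · have hs1 : 1 / s ≤ 1 := by rw [div_le_iff₀ hs]; linarith
    have hg' : g ≤ 25 * u := by nlinarith
    have hb2 : b ^ 2 ≤ (1 / (4 * s ^ 4)) ^ 2 := pow_le_pow_left₀ hb h2 2
    have h3 : b ^ 2 * g ≤ (1 / (4 * s ^ 4)) ^ 2 * (25 * u) :=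
      mul_le_mul hb2 hg' hg0 (by positivity)
    have hinv : (1 / (4 * s ^ 4)) ^ 2 ≤ 1 / s ^ 2 := by
      rw [div_pow, div_le_div_iff₀ (by positivity) (by positivity)]
      have : s ^ 2 ≤ s ^ 8 := pow_le_pow_right₀ h.le (by norm_num)
      nlinarith [pow_pos hs 8]
    have h9 : 1 / s ^ 2 ≤ s ^ 2 := by
      rw [div_le_iff₀ (by positivity)]
      have : 1 ≤ s ^ 4 := one_le_pow₀ h.le
      nlinarith
    have h10 : b ^ 2 * g ≤ 1600 ^ 2 * u * (1 / s ^ 2) := by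
      refine h3.trans ?_
      have h11 : (1 / (4 * s ^ 4)) ^ 2 * (25 * u) ≤ 1 / s ^ 2 * (25 * u) :=
        mul_le_mul_of_nonneg_right hinv (by positivity)
      refine h11.trans ?_
      have h12 : 0 ≤ u * (1 / s ^ 2) := by positivity
      nlinarith
    refine ⟨h10.trans ?_, h10⟩
    exact mul_le_mul_of_nonneg_left h9 (by positivity)

private theorem Arc_scalB (b g x u : ℝ) (hb0 : 0 ≤ b) (hb2 : b ≤ 1 / (4 * x ^ 2)) (hg1 : g ≤ 1)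
    (hx1 : 1 ≤ x) (hxu : 1 / x ≤ u) :
    b ^ 2 * g ≤ 1600 ^ 2 * u * x ∧ b ^ 2 * g ≤ 1600 ^ 2 * u * (1 / x) := by
  have hxp : 0 < x := by linarith
  have hx0 : 0 < 1 / x := by positivity
  have hu : 0 < u := lt_of_lt_of_le hx0 hxu
  have hb3 : b ^ 2 * g ≤ 1 / x * (1 / x) := by
    have c1 : b ^ 2 ≤ (1 / (4 * x ^ 2)) ^ 2 := pow_le_pow_left₀ hb0 hb2 2
    have c2 : b ^ 2 * g ≤ b ^ 2 * 1 := mul_le_mul_of_nonneg_left hg1 (sq_nonneg b)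
    have c3 : (1 / (4 * x ^ 2)) ^ 2 ≤ 1 / x * (1 / x) := by
      have c5 : x ^ 2 ≤ x ^ 4 := pow_le_pow_right₀ hx1 (by norm_num)
      have c6 : 1 / x * (1 / x) = 1 / x ^ 2 := by rw [div_mul_div_comm, one_mul, sq]
      have c7 : (1 / (4 * x ^ 2)) ^ 2 = 1 / (16 * x ^ 4) := by
        rw [div_pow, one_pow, mul_pow, ← pow_mul]; norm_num
      rw [c6, c7]
      refine one_div_le_one_div_of_le (by positivity) ?_
      have c8 : 0 < x ^ 4 := by positivity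
      linarith
    linarith
  have hxx : 1 / x ≤ x := by
    rw [div_le_iff₀ hxp]; nlinarith
  have h4 : b ^ 2 * g ≤ 1600 ^ 2 * u * (1 / x) := by
    refine hb3.trans (mul_le_mul_of_nonneg_right ?_ hx0.le)
    linarith
  exact ⟨h4.trans (mul_le_mul_of_nonneg_left hxx (by positivity)), h4⟩

/-- conclusion for one fraction from the scalar bounds -/
private theorem Arc_fin (b g x : ℝ) (j : ℕ) (hb : 0 ≤ b)
    (h1 : b ^ 2 * g ≤ 1600 ^ 2 * (1 / 2 : ℝ) ^ j * x)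
    (h2 : b ^ 2 * g ≤ 1600 ^ 2 * (1 / 2 : ℝ) ^ j * (1 / x)) (hx : 0 < x) :
    b * Real.sqrt g ≤ 1600 * (3 / 4 : ℝ) ^ j * min (Real.sqrt x) (1 / Real.sqrt x) := by
  have hc : (0 : ℝ) ≤ 1600 * (3 / 4 : ℝ) ^ j := by positivity
  have hu : 1600 ^ 2 * (1 / 2 : ℝ) ^ j ≤ (1600 * (3 / 4 : ℝ) ^ j) ^ 2 := by
    rw [mul_pow, ← pow_mul, mul_comm j 2, pow_mul]
    have : (1 / 2 : ℝ) ^ j ≤ ((3 / 4 : ℝ) ^ 2) ^ j := pow_le_pow_left₀ (by norm_num) (by norm_num) j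
    nlinarith
  have hx' : 0 < 1 / x := by positivity
  rw [mul_min_of_nonneg _ _ hc]
  refine le_min ?_ ?_
  · exact Arc_sqrt_le b g _ x hb hc (h1.trans (mul_le_mul_of_nonneg_right hu hx.le))
  · have h3 := Arc_sqrt_le b g _ (1 / x) hb hc (h2.trans (mul_le_mul_of_nonneg_right hu hx'.le))
    rwa [Real.sqrt_div zero_le_one, Real.sqrt_one] at h3

private theorem Arc_band_pt (q i j : ℕ) (hq : 1 ≤ q) (hk : 16 * q ^ 4 * 16 ^ j ≤ 2 ^ (i + j))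
    (p : ℤ) (hc : IsCoprime p (q : ℤ)) (ξ η : ℝ) (hη : ξ - (p : ℝ) / q = η) (h2 : |η| ≤ 1 / 2) :
    (Ph (4 ^ i) η - Ph (4 ^ (i + 1)) η) * Real.sqrt (gN (2 ^ (i + j)) ξ) ≤
      1600 * (3 / 4 : ℝ) ^ j *
        min (Real.sqrt ((4 : ℝ) ^ i * |η|)) (1 / Real.sqrt ((4 : ℝ) ^ i * |η|)) := by
  have hb0 : 0 ≤ Ph (4 ^ i) η - Ph (4 ^ (i + 1)) η := by linarith [Arc_four i η]
  have hb1 := Ph_band_small i η
  rcases eq_or_ne η 0 with h0 | h0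
  · have : Ph (4 ^ i) η - Ph (4 ^ (i + 1)) η = 0 := by
      refine le_antisymm ?_ hb0
      rw [h0] at hb1 ⊢
      simpa using hb1
    rw [this, zero_mul]
    positivity
  have hb2 := Ph_band_large i η h0 h2
  have hηp : 0 < |η| := abs_pos.mpr h0
  set b := Ph (4 ^ i) η - Ph (4 ^ (i + 1)) η with hbdef
  set g := gN (2 ^ (i + j)) ξ with hgdef
  have hg0 : 0 ≤ g := gN_nonneg _ _
  set x := (4 : ℝ) ^ i * |η| with hx
  have hxp : 0 < x := by positivity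
  have hqr : (1 : ℝ) ≤ q := by exact_mod_cast hq
  have hkr : (16 : ℝ) * q ^ 4 * 16 ^ j ≤ 2 ^ (i + j) := by exact_mod_cast hk
  have hq4 : (1 : ℝ) ≤ (q : ℝ) ^ 4 := one_le_pow₀ hqr
  have hq3 : (1 : ℝ) ≤ (q : ℝ) ^ 3 := one_le_pow₀ hqr
  have h16 : (16 : ℝ) * 16 ^ j ≤ 2 ^ (i + j) := by
    refine le_trans ?_ hkr
    have : (0 : ℝ) < 16 ^ j := by positivity
    nlinarith
  have hN : 1 ≤ 2 ^ (i + j) := Nat.one_le_two_pow
  have h1N : ((2 ^ (i + j) : ℕ) : ℝ) = (2 : ℝ) ^ (i + j) := by push_cast; rfl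
  have hqN : q ≤ 2 * 2 ^ (i + j) := by
    have a1 : q ≤ q ^ 4 := Nat.le_self_pow (by norm_num) q
    have a2 : q ^ 4 ≤ 16 * q ^ 4 * 16 ^ j := by
      have : 1 ≤ 16 ^ j := Nat.one_le_pow _ _ (by norm_num)
      nlinarith [Nat.zero_le (q ^ 4)]
    omega
  by_cases hcase : |η| ≤ 1 / (2 * (q : ℝ) * ((2 ^ (i + j) : ℕ) : ℝ))
  · have hgb := gN_bound2 (2 ^ (i + j)) q hN hq hqN p hc ξ (by rw [hη]; exact hcase)
      (by rw [hη]; exact h0)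
    rw [hη, h1N] at hgb
    set s := Real.sqrt x with hs
    have hsp : 0 < s := Real.sqrt_pos.mpr hxp
    have hss : s ^ 2 = x := Real.sq_sqrt hxp.le
    have e1 : Real.sqrt (((2 : ℝ) ^ (i + j)) ^ 2 * |η|) = 2 ^ j * s := by
      have h4 : (4 : ℝ) ^ i = (2 ^ i) ^ 2 := by
        rw [← pow_mul, mul_comm i 2, pow_mul]; norm_num
      have : ((2 : ℝ) ^ (i + j)) ^ 2 * |η| = ((2 : ℝ) ^ j) ^ 2 * x := by
        rw [hx, h4]
        ring
      rw [this, Real.sqrt_mul (by positivity), Real.sqrt_sq (by positivity)]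
    have e2 : 4 * 2 ^ j ≤ Real.sqrt ((2 : ℝ) ^ (i + j)) := by
      refine Real.le_sqrt_of_sq_le ?_
      refine le_trans ?_ h16
      have : (2 : ℝ) ^ j * 2 ^ j ≤ 16 ^ j := by
        rw [← mul_pow]
        exact pow_le_pow_left₀ (by norm_num) (by norm_num) j
      nlinarith
    have hgb' : g ≤ 20 * (1 / 2 : ℝ) ^ j * (1 / s + 1 / 4) := by
      refine hgb.trans ?_
      rw [e1]
      have hu : (1 / 2 : ℝ) ^ j = 1 / 2 ^ j := by rw [div_pow, one_pow]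
      have hA : 1 / ((q : ℝ) * (2 ^ j * s)) ≤ (1 / 2 : ℝ) ^ j * (1 / s) := by
        rw [hu, ← one_div_mul_one_div_rev, ← one_div_mul_one_div_rev]
        have hq1 : 1 / (q : ℝ) ≤ 1 := by rw [div_le_iff₀ (by linarith)]; linarith
        have : 0 ≤ 1 / s * (1 / 2 ^ j) := by positivity
        nlinarith
      have hB : 1 / Real.sqrt ((2 : ℝ) ^ (i + j)) ≤ (1 / 2 : ℝ) ^ j * (1 / 4) := by
        rw [hu]
        have : 1 / Real.sqrt ((2 : ℝ) ^ (i + j)) ≤ 1 / (4 * 2 ^ j) :=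
          one_div_le_one_div_of_le (by positivity) e2
        refine this.trans (le_of_eq ?_)
        field_simp
      nlinarith
    have hb1' : b ≤ 320 * s ^ 4 := by
      rw [show s ^ 4 = (s ^ 2) ^ 2 by ring, hss]; exact hb1
    have hb2' : b ≤ 1 / (4 * s ^ 4) := by
      rw [show s ^ 4 = (s ^ 2) ^ 2 by ring, hss]; exact hb2
    obtain ⟨h3, h4⟩ := Arc_scal b g s _ hb0 hsp (by positivity) hb1' hb2' hg0 hgb'
    rw [hss] at h3 h4
    exact Arc_fin b g x j hb0 h3 h4 hxp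
  · rw [not_le] at hcase
    rw [h1N] at hcase
    have hx8 : 4 ^ j ≤ x := by
      have a1 : (4 : ℝ) ^ i * (1 / (2 * (q : ℝ) * 2 ^ (i + j))) ≤ x := by
        rw [hx]
        exact mul_le_mul_of_nonneg_left hcase.le (by positivity)
      refine le_trans ?_ a1
      rw [mul_one_div, le_div_iff₀ (by positivity)]
      have a2 : (4 : ℝ) ^ i * 4 ^ j = 2 ^ (i + j) * 2 ^ (i + j) := by
        rw [← pow_add, ← mul_pow]; norm_num
      have a3 : (4 : ℝ) ^ j * (2 * q * 2 ^ (i + j)) * 4 ^ j ≤ 4 ^ i * 4 ^ j := by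
        rw [a2]
        have a4 : (4 : ℝ) ^ j * 4 ^ j = 16 ^ j := by rw [← mul_pow]; norm_num
        have a5 : (4 : ℝ) ^ j * (2 * q * 2 ^ (i + j)) * 4 ^ j =
            (2 * q * 16 ^ j) * 2 ^ (i + j) := by rw [← a4]; ring
        rw [a5]
        refine mul_le_mul_of_nonneg_right (le_trans ?_ hkr) (by positivity)
        have a6 : (q : ℝ) ≤ q ^ 4 := by
          calc (q : ℝ) = q ^ 1 := (pow_one _).symm
            _ ≤ q ^ 4 := pow_le_pow_right₀ hqr (by norm_num)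
        have : (0 : ℝ) < 16 ^ j := by positivity
        nlinarith
      exact le_of_mul_le_mul_right a3 (by positivity)
    have h4j : (1 : ℝ) ≤ 4 ^ j := one_le_pow₀ (by norm_num)
    have hx1 : 1 ≤ x := h4j.trans hx8
    have hg1 : g ≤ 1 := gN_le_one _ _
    have hu : (1 / 2 : ℝ) ^ j = 1 / 2 ^ j := by rw [div_pow, one_pow]
    have hxu : 1 / x ≤ (1 / 2 : ℝ) ^ j := by
      rw [hu]
      refine one_div_le_one_div_of_le (by positivity) (le_trans ?_ hx8)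
      exact pow_le_pow_left₀ (by norm_num) (by norm_num) j
    obtain ⟨h3, h4⟩ := Arc_scalB b g x _ hb0 hb2 hg1 hx1 hxu
    exact Arc_fin b g x j hb0 h3 h4 hxp

private theorem Arc_band_Bb (Q q i j H : ℕ) (hq : 1 ≤ q) (hqQ : q ≤ Q)
    (hk : 16 * Q ^ 4 * 16 ^ j ≤ 2 ^ (i + j)) (hH : i ≤ H)
    (p : ℕ) (hc : Nat.Coprime p q) (ξ : ℝ) :
    (Ph (4 ^ i) (ξ - (p : ℝ) / q) - Ph (4 ^ (i + 1)) (ξ - (p : ℝ) / q)) *
        Real.sqrt (gN (2 ^ (i + j)) ξ) ≤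
      100000 * (3 / 4 : ℝ) ^ j * Bb H i (ξ - (p : ℝ) / q) := by
  set n := round (ξ - (p : ℝ) / q) with hn
  set η := ξ - (p : ℝ) / q - n with hηd
  have h2 : |η| ≤ 1 / 2 := abs_sub_round _
  have e : ξ - (p : ℝ) / q = η + n := by rw [hηd]; ring
  have hqr : (q : ℝ) ≠ 0 := by
    have : (1 : ℝ) ≤ q := by exact_mod_cast hq
    linarith
  have hη : ξ - (((p : ℤ) + n * q : ℤ) : ℝ) / q = η := by
    rw [hηd]
    push_cast
    field_simp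
    ring
  have hc' : IsCoprime ((p : ℤ) + n * q) (q : ℤ) := by
    have h := Nat.isCoprime_iff_coprime.mpr hc
    exact (IsCoprime.add_mul_right_left_iff).mpr h
  have hk' : 16 * q ^ 4 * 16 ^ j ≤ 2 ^ (i + j) := by
    refine le_trans ?_ hk
    have : q ^ 4 ≤ Q ^ 4 := Nat.pow_le_pow_left hqQ 4
    exact Nat.mul_le_mul_right _ (Nat.mul_le_mul_left _ this)
  rw [e, Ph_period, Ph_period, Bb_period]
  have h3 := Arc_band_pt q i j hq hk' _ hc' ξ η hη h2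
  have h4 := Bb_lower H i hH η h2
  refine h3.trans ?_
  have h5 : 0 ≤ (3 / 4 : ℝ) ^ j := by positivity
  have h6 := Bb_nonneg H i η
  have h7 := mul_le_mul_of_nonneg_left h4 (by positivity : (0 : ℝ) ≤ 1600 * (3 / 4 : ℝ) ^ j)
  refine h7.trans ?_
  have h8 : 0 ≤ (3 / 4 : ℝ) ^ j * Bb H i η := mul_nonneg h5 h6
  nlinarith

theorem arc_end (Q k j : ℕ) (hQ : 1 ≤ Q) (hj : j ≤ k) (hk : 16 * Q ^ 4 * 16 ^ j ≤ 2 ^ k)
    (ξ : ℝ) :
    |1 - mm Q (k - j) ξ| * Real.sqrt (gN (2 ^ k) ξ) ≤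
      1000 * (1 / Real.sqrt Q + (3 / 4 : ℝ) ^ j) := by
  unfold mm
  rw [arc_sum_eq]
  exact arcE_end Q k j hQ hj hk ξ

theorem arc_band (Q k j H : ℕ) (hQ : 1 ≤ Q) (hj : j ≤ k) (hk : 16 * Q ^ 4 * 16 ^ j ≤ 2 ^ k)
    (hH : k ≤ H) (ξ : ℝ) :
    (mm Q (k - j) ξ - mm Q (k - j + 1) ξ) * Real.sqrt (gN (2 ^ k) ξ) ≤
      100000 * (3 / 4 : ℝ) ^ j *
        (∑ i' ∈ range (H + 1), (1 / 2 : ℝ) ^ (((i' : ℤ) - ((k - j : ℕ) : ℤ)).natAbs) *
            (mm Q i' ξ - mm Q (i' + 1) ξ)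
          + (1 / 2 : ℝ) ^ (H + 1 - (k - j)) * mm Q (H + 1) ξ) := by
  obtain ⟨i, rfl⟩ : ∃ i, k = i + j := ⟨k - j, by omega⟩
  rw [Nat.add_sub_cancel]
  have hR : ∑ q ∈ Icc 1 Q, ∑ p ∈ (range q).filter (fun p => Nat.Coprime p q),
      Bb H i (ξ - (p : ℝ) / q) =
      ∑ i' ∈ range (H + 1), (1 / 2 : ℝ) ^ (((i' : ℤ) - ((i : ℕ) : ℤ)).natAbs) *
            (mm Q i' ξ - mm Q (i' + 1) ξ)
          + (1 / 2 : ℝ) ^ (H + 1 - i) * mm Q (H + 1) ξ := by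
    unfold Bb mm
    simp only [Finset.sum_sigma']
    rw [Finset.sum_add_distrib, Finset.sum_comm, ← Finset.mul_sum]
    congr 1
    refine Finset.sum_congr rfl fun i' _ => ?_
    rw [← Finset.sum_sub_distrib, Finset.mul_sum]
  rw [← hR]
  unfold mm
  rw [← Finset.sum_sub_distrib, Finset.sum_mul, Finset.mul_sum]
  refine Finset.sum_le_sum fun q hq => ?_
  rw [← Finset.sum_sub_distrib, Finset.sum_mul, Finset.mul_sum]
  refine Finset.sum_le_sum fun p hp => ?_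
  rw [Finset.mem_Icc] at hq
  rw [Finset.mem_filter] at hp
  exact Arc_band_Bb Q q i j H hq.1 hq.2 hk (by omega) p hp.2 ξ

end

end NP2
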