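import Pool.Agent.NP2.Fej

/-!
# NP2 / ArcE : the first gain inequality (used in Arc)
-/

namespace NP2
open Finset

noncomputable section

/-- the fractions with denominator at most `Q` -/
def arcI (Q : ℕ) : Finset (Σ _ : ℕ, ℕ) :=
  (Icc 1 Q).sigma fun q => (range q).filter fun p => Nat.Coprime p q

theorem arcI_mem {Q : ℕ} {x : Σ _ : ℕ, ℕ} :
    x ∈ arcI Q ↔ (1 ≤ x.1 ∧ x.1 ≤ Q) ∧ x.2 < x.1 ∧ Nat.Coprime x.2 x.1 := by
  unfold arcI
  rw [mem_sigma, mem_Icc, mem_filter, mem_range]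

theorem arcI_card (Q : ℕ) : ((arcI Q).card : ℝ) ≤ (Q : ℝ) ^ 2 := by
  unfold arcI
  rw [card_sigma]
  have h : ∑ q ∈ Icc 1 Q, ((range q).filter fun p => Nat.Coprime p q).card ≤ ∑ _q ∈ Icc 1 Q, Q := by
    refine sum_le_sum fun q hq => ?_
    rw [mem_Icc] at hq
    exact (card_filter_le _ _).trans (by rw [card_range]; exact hq.2)
  have h2 : ∑ _q ∈ Icc 1 Q, Q = Q ^ 2 := by
    rw [sum_const, Nat.card_Icc, smul_eq_mul, Nat.add_sub_cancel, sq]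
  rw [h2] at h
  exact_mod_cast h

theorem arc_sum_eq (Q L : ℕ) (ξ : ℝ) :
    ∑ q ∈ Icc 1 Q, ∑ p ∈ (range q).filter (fun p => Nat.Coprime p q), Ph L (ξ - (p : ℝ) / q) =
      ∑ x ∈ arcI Q, Ph L (ξ - (x.2 : ℝ) / x.1) := by
  unfold arcI
  rw [sum_sigma]

/-- two different fractions differ by at least `1/Q^2` modulo one -/
theorem arc_sep {Q : ℕ} {x y : Σ _ : ℕ, ℕ} (hx : x ∈ arcI Q) (hy : y ∈ arcI Q) (hne : x ≠ y)
    (m : ℤ) : 1 / (Q : ℝ) ^ 2 ≤ |(x.2 : ℝ) / x.1 - (y.2 : ℝ) / y.1 - m| := by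
  obtain ⟨q1, p1⟩ := x
  obtain ⟨q2, p2⟩ := y
  rw [arcI_mem] at hx hy
  obtain ⟨⟨a1, a2⟩, a3, a4⟩ := hx
  obtain ⟨⟨b1, b2⟩, b3, b4⟩ := hy
  simp only at a1 a2 a3 a4 b1 b2 b3 b4 ⊢
  have hq1 : (0 : ℝ) < q1 := by exact_mod_cast a1
  have hq2 : (0 : ℝ) < q2 := by exact_mod_cast b1
  have hQ : (0 : ℝ) < Q := lt_of_lt_of_le hq1 (by exact_mod_cast a2)
  have hne' : (p1 : ℤ) * q2 - p2 * q1 - m * (q1 * q2) ≠ 0 := by
    intro h0
    have h1 : (p1 : ℤ) * q2 = q1 * (p2 + m * q2) := by linarith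
    have h2 : (q1 : ℤ) ∣ p1 * q2 := ⟨_, h1⟩
    have h3 : q1 ∣ q2 := by
      have h4 : q1 ∣ p1 * q2 := by exact_mod_cast h2
      exact (Nat.Coprime.dvd_of_dvd_mul_left a4.symm h4)
    have h5 : (p2 : ℤ) * q1 = q2 * (p1 - m * q1) := by linarith
    have h6 : (q2 : ℤ) ∣ p2 * q1 := ⟨_, h5⟩
    have h7 : q2 ∣ q1 := by
      have h4 : q2 ∣ p2 * q1 := by exact_mod_cast h6
      exact (Nat.Coprime.dvd_of_dvd_mul_left b4.symm h4)
    have h8 : q1 = q2 := Nat.dvd_antisymm h3 h7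
    subst h8
    have hq1' : (q1 : ℤ) ≠ 0 := by exact_mod_cast (by omega : q1 ≠ 0)
    have h9 : (p1 : ℤ) = p2 + m * q1 := by
      have := h1
      rw [mul_comm] at this
      exact mul_left_cancel₀ hq1' this
    have h10 : m = 0 := by
      by_contra hm
      rcases lt_or_gt_of_ne hm with hm | hm
      · have : m ≤ -1 := by omega
        nlinarith
      · have : 1 ≤ m := by omega
        nlinarith
    rw [h10, zero_mul, add_zero] at h9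
    apply hne
    have : p1 = p2 := by exact_mod_cast h9
    rw [this]
  have h1 : (1 : ℝ) ≤ |((p1 : ℝ) * q2 - p2 * q1 - m * (q1 * q2))| := by
    have h2 : (1 : ℤ) ≤ |(p1 : ℤ) * q2 - p2 * q1 - m * (q1 * q2)| := Int.one_le_abs hne'
    exact_mod_cast h2
  have h3 : (p1 : ℝ) / q1 - (p2 : ℝ) / q2 - m =
      ((p1 : ℝ) * q2 - p2 * q1 - m * (q1 * q2)) / (q1 * q2) := by
    field_simp
  rw [h3, abs_div, abs_of_pos (mul_pos hq1 hq2)]
  have h4 : (q1 : ℝ) * q2 ≤ (Q : ℝ) ^ 2 := by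
    rw [sq]
    exact mul_le_mul (by exact_mod_cast a2) (by exact_mod_cast b2) hq2.le hQ.le
  exact div_le_div₀ (by linarith) h1 (mul_pos hq1 hq2) h4

/-- a fraction which is not near contributes little -/
theorem arc_far (Q L : ℕ) (hQ : 1 ≤ Q) (hL : 1 ≤ L) (y : ℝ)
    (h : 1 / (2 * (Q : ℝ) ^ 2) ≤ |y - round y|) : Ph L y ≤ (Q : ℝ) ^ 4 / (L : ℝ) ^ 2 := by
  have hQ' : (0 : ℝ) < Q := by exact_mod_cast hQ
  have hL' : (0 : ℝ) < L := by exact_mod_cast hL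
  have h1 : Ph L y = Ph L (y - round y) := by
    have := Ph_period L (y - round y) (round y)
    rwa [sub_add_cancel] at this
  have h0 : y - round y ≠ 0 := by
    intro h2
    rw [h2, abs_zero] at h
    have : 0 < 1 / (2 * (Q : ℝ) ^ 2) := by positivity
    linarith
  rw [h1]
  refine (Ph_large L hL _ h0 (abs_sub_round y)).trans ?_
  have h2 : (1 / (2 * (Q : ℝ) ^ 2)) ^ 2 ≤ (y - round y) ^ 2 := by
    rw [← sq_abs (y - round y)]
    exact pow_le_pow_left₀ (by positivity) h 2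
  have h3 : 4 * (L : ℝ) ^ 2 * (1 / (2 * (Q : ℝ) ^ 2)) ^ 2 = (L : ℝ) ^ 2 / (Q : ℝ) ^ 4 := by
    field_simp
    ring
  calc 1 / (4 * (L : ℝ) ^ 2 * (y - round y) ^ 2)
      ≤ 1 / ((L : ℝ) ^ 2 / (Q : ℝ) ^ 4) := by
        refine one_div_le_one_div_of_le (by positivity) ?_
        rw [← h3]
        exact mul_le_mul_of_nonneg_left h2 (by positivity)
    _ = (Q : ℝ) ^ 4 / (L : ℝ) ^ 2 := by rw [one_div_div]

/-- all the fractions except one are far -/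
theorem arc_rest (Q L : ℕ) (hQ : 1 ≤ Q) (hL : 1 ≤ L) (ξ : ℝ) (s : Finset (Σ _ : ℕ, ℕ))
    (hs : s ⊆ arcI Q)
    (h : ∀ x ∈ s, 1 / (2 * (Q : ℝ) ^ 2) ≤
      |(ξ - (x.2 : ℝ) / x.1) - round (ξ - (x.2 : ℝ) / x.1)|) :
    ∑ x ∈ s, Ph L (ξ - (x.2 : ℝ) / x.1) ≤ (Q : ℝ) ^ 6 / (L : ℝ) ^ 2 := by
  have h1 : ∑ x ∈ s, Ph L (ξ - (x.2 : ℝ) / x.1) ≤ ∑ _x ∈ s, (Q : ℝ) ^ 4 / (L : ℝ) ^ 2 :=
    sum_le_sum fun x hx => arc_far Q L hQ hL _ (h x hx)
  refine h1.trans ?_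
  rw [sum_const, nsmul_eq_mul]
  have h2 : (s.card : ℝ) ≤ (Q : ℝ) ^ 2 :=
    le_trans (by exact_mod_cast card_le_card hs) (arcI_card Q)
  calc (s.card : ℝ) * ((Q : ℝ) ^ 4 / (L : ℝ) ^ 2) ≤ (Q : ℝ) ^ 2 * ((Q : ℝ) ^ 4 / (L : ℝ) ^ 2) :=
        mul_le_mul_of_nonneg_right h2 (by positivity)
    _ = _ := by ring

/-- if one fraction is near, the others are far -/
theorem arc_near_far {Q : ℕ} (hQ : 1 ≤ Q) {x y : Σ _ : ℕ, ℕ} (hx : x ∈ arcI Q)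
    (hy : y ∈ arcI Q) (hne : x ≠ y) (ξ : ℝ)
    (h : |(ξ - (x.2 : ℝ) / x.1) - round (ξ - (x.2 : ℝ) / x.1)| ≤ 1 / (2 * (Q : ℝ) ^ 2)) :
    1 / (2 * (Q : ℝ) ^ 2) ≤ |(ξ - (y.2 : ℝ) / y.1) - round (ξ - (y.2 : ℝ) / y.1)| := by
  have h1 := arc_sep hx hy hne (round (ξ - (y.2 : ℝ) / y.1) - round (ξ - (x.2 : ℝ) / x.1))
  have hQ' : (0 : ℝ) < Q := by exact_mod_cast hQ
  have h2 : (x.2 : ℝ) / x.1 - (y.2 : ℝ) / y.1 -
      ((round (ξ - (y.2 : ℝ) / y.1) - round (ξ - (x.2 : ℝ) / x.1) : ℤ) : ℝ) =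
      ((ξ - (y.2 : ℝ) / y.1) - round (ξ - (y.2 : ℝ) / y.1)) -
      ((ξ - (x.2 : ℝ) / x.1) - round (ξ - (x.2 : ℝ) / x.1)) := by
    push_cast
    ring
  rw [h2] at h1
  have h3 := abs_sub ((ξ - (y.2 : ℝ) / y.1) - round (ξ - (y.2 : ℝ) / y.1))
    ((ξ - (x.2 : ℝ) / x.1) - round (ξ - (x.2 : ℝ) / x.1))
  have h4 : 1 / (Q : ℝ) ^ 2 = 1 / (2 * (Q : ℝ) ^ 2) + 1 / (2 * (Q : ℝ) ^ 2) := by
    field_simp
    ring
  linarith

theorem arc_nonneg (Q L : ℕ) (ξ : ℝ) : 0 ≤ ∑ x ∈ arcI Q, Ph L (ξ - (x.2 : ℝ) / x.1) :=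
  sum_nonneg fun _ _ => Ph_nonneg _ _

/-- the sum is at most `1 + Q^6/L^2` -/
theorem arc_le (Q L : ℕ) (hQ : 1 ≤ Q) (hL : 1 ≤ L) (ξ : ℝ) :
    ∑ x ∈ arcI Q, Ph L (ξ - (x.2 : ℝ) / x.1) ≤ 1 + (Q : ℝ) ^ 6 / (L : ℝ) ^ 2 := by
  by_cases hn : ∃ x ∈ arcI Q, |(ξ - (x.2 : ℝ) / x.1) - round (ξ - (x.2 : ℝ) / x.1)| ≤
      1 / (2 * (Q : ℝ) ^ 2)
  · obtain ⟨x, hx, hx1⟩ := hn
    rw [← add_sum_erase _ _ hx]
    refine add_le_add (Ph_le_one _ _) (arc_rest Q L hQ hL ξ _ (erase_subset _ _) fun y hy => ?_)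
    rw [mem_erase] at hy
    exact arc_near_far hQ hx hy.2 (Ne.symm hy.1) ξ hx1
  · push Not at hn
    have := arc_rest Q L hQ hL ξ (arcI Q) (Subset.refl _) fun x hx => (hn x hx).le
    linarith

/-- if `p/q` with `q ≤ Q` is near, the sum is its term up to `Q^6/L^2` -/
theorem arc_one (Q L : ℕ) (hQ : 1 ≤ Q) (hL : 1 ≤ L) (ξ : ℝ) (r : ℚ) (hr : r.den ≤ Q)
    (hξ : |ξ - r| ≤ 1 / (2 * (Q : ℝ) ^ 2)) :
    |∑ x ∈ arcI Q, Ph L (ξ - (x.2 : ℝ) / x.1) - Ph L (ξ - r)| ≤ (Q : ℝ) ^ 6 / (L : ℝ) ^ 2 := by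
  have hQ' : (1 : ℝ) ≤ Q := by exact_mod_cast hQ
  have hden : 0 < r.den := r.den_pos
  obtain ⟨p, hp⟩ : ∃ p : ℕ, (p : ℤ) = r.num % (r.den : ℤ) :=
    ⟨(r.num % (r.den : ℤ)).toNat, Int.toNat_of_nonneg (Int.emod_nonneg _ (by exact_mod_cast hden.ne'))⟩
  have hp1 : p < r.den := by
    have := Int.emod_lt_of_pos r.num (show (0 : ℤ) < r.den by exact_mod_cast hden)
    rw [← hp] at this
    exact_mod_cast this
  have hcop : Nat.Coprime p r.den := by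
    have h1 : IsCoprime r.num (r.den : ℤ) := by
      rw [Int.isCoprime_iff_nat_coprime]
      exact r.reduced
    have h2 : IsCoprime (p : ℤ) (r.den : ℤ) := by
      rw [hp]
      have h3 := h1.add_mul_right_left (-(r.num / (r.den : ℤ)))
      have e : r.num + -(r.num / (r.den : ℤ)) * (r.den : ℤ) = r.num % (r.den : ℤ) := by
        have := Int.emod_add_mul_ediv r.num (r.den : ℤ)
        linarith
      rwa [e] at h3
    exact_mod_cast Nat.isCoprime_iff_coprime.1 h2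
  have hx : (⟨r.den, p⟩ : Σ _ : ℕ, ℕ) ∈ arcI Q := by
    rw [arcI_mem]
    exact ⟨⟨hden, hr⟩, hp1, hcop⟩
  have hdenR : (r.den : ℝ) ≠ 0 := by exact_mod_cast hden.ne'
  -- the term of `x`
  have hr' : (r : ℝ) = (p : ℝ) / r.den + ((r.num / (r.den : ℤ) : ℤ) : ℝ) := by
    have h4 : (r : ℝ) = (r.num : ℝ) / r.den := by exact_mod_cast (Rat.num_div_den r).symm
    have h5 : (r.num : ℝ) = p + r.den * ((r.num / (r.den : ℤ) : ℤ) : ℝ) := by
      have := Int.emod_add_mul_ediv r.num (r.den : ℤ)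
      rw [← hp] at this
      exact_mod_cast this.symm
    rw [h4]
    field_simp
    linarith
  have e1 : ξ - (p : ℝ) / r.den = (ξ - r) + ((r.num / (r.den : ℤ) : ℤ) : ℝ) := by
    rw [hr']; ring
  have hPh : Ph L (ξ - (p : ℝ) / r.den) = Ph L (ξ - r) := by rw [e1, Ph_period]
  have hnear : |(ξ - (p : ℝ) / r.den) - round (ξ - (p : ℝ) / r.den)| ≤ 1 / (2 * (Q : ℝ) ^ 2) := by
    refine le_trans ?_ hξ
    have h6 := round_le (ξ - (p : ℝ) / r.den) (r.num / (r.den : ℤ))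
    have e2 : ξ - (p : ℝ) / r.den - ((r.num / (r.den : ℤ) : ℤ) : ℝ) = ξ - r := by
      rw [e1]; ring
    rwa [e2] at h6
  have h7 := add_sum_erase (arcI Q) (fun x => Ph L (ξ - (x.2 : ℝ) / x.1)) hx
  simp only at h7
  rw [← h7, hPh, add_sub_cancel_left,
    abs_of_nonneg (sum_nonneg fun _ _ => Ph_nonneg _ _)]
  refine arc_rest Q L hQ hL ξ _ (erase_subset _ _) fun y hy => ?_
  rw [mem_erase] at hy
  exact arc_near_far hQ hx hy.2 (Ne.symm hy.1) ξ hnear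

theorem arcE_end (Q k j : ℕ) (hQ : 1 ≤ Q) (hj : j ≤ k) (hk : 16 * Q ^ 4 * 16 ^ j ≤ 2 ^ k)
    (ξ : ℝ) :
    |1 - ∑ x ∈ arcI Q, Ph (4 ^ (k - j)) (ξ - (x.2 : ℝ) / x.1)| * Real.sqrt (gN (2 ^ k) ξ) ≤
      1000 * (1 / Real.sqrt Q + (3 / 4 : ℝ) ^ j) := by
  have hQ' : (1 : ℝ) ≤ Q := by exact_mod_cast hQ
  have hQ0 : (0 : ℝ) < Q := by linarith
  obtain ⟨Y, hY⟩ : ∃ Y : ℝ, Y = ∑ x ∈ arcI Q, Ph (4 ^ (k - j)) (ξ - (x.2 : ℝ) / x.1) := ⟨_, rfl⟩
  rw [← hY]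
  obtain ⟨N, hN⟩ : ∃ N : ℝ, N = (2 : ℝ) ^ k := ⟨_, rfl⟩
  obtain ⟨L, hL⟩ : ∃ L : ℝ, L = (4 : ℝ) ^ (k - j) := ⟨_, rfl⟩
  have hL1 : (1 : ℝ) ≤ L := by rw [hL]; exact one_le_pow₀ (by norm_num)
  have hkR : 16 * (Q : ℝ) ^ 4 * 16 ^ j ≤ N := by rw [hN]; exact_mod_cast hk
  have hN1 : (1 : ℝ) ≤ N := by rw [hN]; exact one_le_pow₀ (by norm_num)
  have hLN : L * 4 ^ j = N ^ 2 := by
    rw [hL, hN, ← pow_add, Nat.sub_add_cancel hj, ← pow_mul, mul_comm k 2, pow_mul]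
    norm_num
  have h16 : (16 : ℝ) * 16 ^ j ≤ N := by
    refine le_trans ?_ hkR
    have : (1 : ℝ) ≤ (Q : ℝ) ^ 4 := one_le_pow₀ hQ'
    have h0 : (0 : ℝ) < 16 ^ j := by positivity
    nlinarith
  have hsN : (4 : ℝ) * 4 ^ j ≤ Real.sqrt N := by
    apply Real.le_sqrt_of_sq_le
    calc ((4 : ℝ) * 4 ^ j) ^ 2 = 16 * 16 ^ j := by
          rw [mul_pow, ← pow_mul, mul_comm j 2, pow_mul]; norm_num
      _ ≤ N := h16
  have hisN : 1 / Real.sqrt N ≤ (1 / 4) * (1 / 4) ^ j := by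
    calc 1 / Real.sqrt N ≤ 1 / (4 * 4 ^ j) := one_div_le_one_div_of_le (by positivity) hsN
      _ = (1 / 4) * (1 / 4) ^ j := by rw [one_div_pow]; field_simp
  -- the error term
  have hE : (Q : ℝ) ^ 6 / L ^ 2 ≤ (3 / 4 : ℝ) ^ j := by
    have h1 : (Q : ℝ) ^ 4 * 4 ^ j ≤ L := by
      have h4j : (0 : ℝ) < 4 ^ j := by positivity
      have h2 : (Q : ℝ) ^ 4 * 4 ^ j * 4 ^ j ≤ L * 4 ^ j := by
        rw [hLN]
        have h3 : (4 : ℝ) ^ j * 4 ^ j = 16 ^ j := by rw [← mul_pow]; norm_num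
        calc (Q : ℝ) ^ 4 * 4 ^ j * 4 ^ j = (Q : ℝ) ^ 4 * 16 ^ j := by rw [mul_assoc, h3]
          _ ≤ N * 1 := by
            have : 0 ≤ (Q : ℝ) ^ 4 * 16 ^ j := by positivity
            linarith
          _ ≤ N ^ 2 := by rw [sq]; exact mul_le_mul_of_nonneg_left hN1 (by linarith)
      exact le_of_mul_le_mul_right h2 h4j
    have hL0 : 0 < L := by linarith
    rw [div_le_iff₀ (by positivity)]
    have h5 : (Q : ℝ) ^ 6 ≤ (Q : ℝ) ^ 8 := pow_le_pow_right₀ hQ' (by norm_num)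
    have h6 : ((Q : ℝ) ^ 4 * 4 ^ j) ^ 2 ≤ L ^ 2 := pow_le_pow_left₀ (by positivity) h1 2
    have h7 : (1 : ℝ) ≤ (3 / 4 : ℝ) ^ j * (4 ^ j) ^ 2 := by
      rw [← pow_mul, mul_comm j 2, pow_mul, ← mul_pow]
      exact one_le_pow₀ (by norm_num)
    calc (Q : ℝ) ^ 6 ≤ (Q : ℝ) ^ 8 * ((3 / 4 : ℝ) ^ j * (4 ^ j) ^ 2) := by
          have : 0 ≤ (Q : ℝ) ^ 8 := by positivity
          nlinarith
      _ = (3 / 4 : ℝ) ^ j * ((Q : ℝ) ^ 4 * 4 ^ j) ^ 2 := by ring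
      _ ≤ (3 / 4 : ℝ) ^ j * L ^ 2 := mul_le_mul_of_nonneg_left h6 (by positivity)
  have h34 : (3 / 4 : ℝ) ^ j ≤ 1 := pow_le_one₀ (by norm_num) (by norm_num)
  have h340 : (0 : ℝ) < (3 / 4 : ℝ) ^ j := by positivity
  have h2j : (1 / 2 : ℝ) ^ j ≤ ((3 / 4 : ℝ) ^ j) ^ 2 := by
    rw [← pow_mul, mul_comm j 2, pow_mul]
    exact pow_le_pow_left₀ (by norm_num) (by norm_num) j
  have h4j : (1 / 4 : ℝ) ^ j ≤ (1 / 2 : ℝ) ^ j := pow_le_pow_left₀ (by norm_num) (by norm_num) j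
  have hcastL : (((4 ^ (k - j) : ℕ)) : ℝ) = L := by rw [hL]; push_cast; rfl
  have hcastN : (((2 ^ k : ℕ)) : ℝ) = N := by rw [hN]; push_cast; rfl
  have hLnat : 1 ≤ 4 ^ (k - j) := Nat.one_le_pow _ _ (by norm_num)
  have hNnat : 1 ≤ 2 ^ k := Nat.one_le_pow _ _ (by norm_num)
  have hY0 : 0 ≤ Y := by rw [hY]; exact arc_nonneg _ _ _
  have hY1 : Y ≤ 2 := by
    have := arc_le Q (4 ^ (k - j)) hQ hLnat ξ
    rw [hcastL] at this
    rw [hY]
    linarith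
  have hg0 := gN_nonneg (2 ^ k) ξ
  have hg1 := gN_le_one (2 ^ k) ξ
  have hsg1 : Real.sqrt (gN (2 ^ k) ξ) ≤ 1 := by
    rw [show (1 : ℝ) = Real.sqrt 1 by simp]
    exact Real.sqrt_le_sqrt hg1
  have hsg0 := Real.sqrt_nonneg (gN (2 ^ k) ξ)
  have hsQ0 : 0 < 1 / Real.sqrt Q := by
    have := Real.sqrt_pos.2 hQ0
    positivity
  -- Dirichlet
  obtain ⟨r, hr1, hr2⟩ := Real.exists_rat_abs_sub_le_and_den_le ξ
    (show 0 < 2 * 2 ^ k by positivity)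
  have hden : 0 < r.den := r.den_pos
  have hdenR : (0 : ℝ) < r.den := by exact_mod_cast hden
  have hden1 : (1 : ℝ) ≤ r.den := by exact_mod_cast hden
  have hrc : (r : ℝ) = (r.num : ℝ) / r.den := by exact_mod_cast (Rat.num_div_den r).symm
  have hcop : IsCoprime r.num (r.den : ℤ) := by
    rw [Int.isCoprime_iff_nat_coprime]
    exact r.reduced
  have hη : |ξ - (r.num : ℝ) / r.den| ≤ 1 / (2 * r.den * ((2 ^ k : ℕ) : ℝ)) := by
    rw [← hrc]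
    refine hr1.trans (one_div_le_one_div_of_le (by positivity) ?_)
    push_cast
    nlinarith [show (0 : ℝ) < 2 ^ k by positivity]
  rcases lt_or_ge Q r.den with hqQ | hqQ
  · -- large denominator
    have hb := gN_bound1 (2 ^ k) r.den hNnat hden hr2 r.num hcop ξ hη
    rw [hcastN] at hb
    have h1 : (1 : ℝ) / r.den ≤ 1 / Q :=
      one_div_le_one_div_of_le hQ0 (by exact_mod_cast hqQ.le)
    have h2 : gN (2 ^ k) ξ ≤ (5 * (1 / Real.sqrt Q) + 3 * (3 / 4 : ℝ) ^ j) ^ 2 := by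
      have h3 : (1 / Real.sqrt Q) ^ 2 = 1 / (Q : ℝ) := by
        rw [div_pow, one_pow, Real.sq_sqrt hQ0.le]
      nlinarith [mul_pos hsQ0 h340]
    have h4 : Real.sqrt (gN (2 ^ k) ξ) ≤ 5 * (1 / Real.sqrt Q) + 3 * (3 / 4 : ℝ) ^ j := by
      rw [Real.sqrt_le_left (by positivity)]
      exact h2
    have h5 : |1 - Y| ≤ 1 := by
      rw [abs_le]
      constructor <;> linarith
    calc |1 - Y| * Real.sqrt (gN (2 ^ k) ξ)
        ≤ 1 * (5 * (1 / Real.sqrt Q) + 3 * (3 / 4 : ℝ) ^ j) :=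
          mul_le_mul h5 h4 hsg0 (by norm_num)
      _ ≤ _ := by linarith
  · -- small denominator
    have hnear : |ξ - r| ≤ 1 / (2 * (Q : ℝ) ^ 2) := by
      rw [hrc]
      refine hη.trans (one_div_le_one_div_of_le (by positivity) ?_)
      rw [hcastN]
      have h1 : (Q : ℝ) ^ 2 ≤ N := by
        refine le_trans ?_ hkR
        have h2 : (Q : ℝ) ^ 2 ≤ (Q : ℝ) ^ 4 := pow_le_pow_right₀ hQ' (by norm_num)
        have h3 : (1 : ℝ) ≤ 16 ^ j := one_le_pow₀ (by norm_num)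
        have h0 : (0 : ℝ) ≤ (Q : ℝ) ^ 4 := by positivity
        nlinarith
      nlinarith
    have h1 := arc_one Q (4 ^ (k - j)) hQ hLnat ξ r hqQ hnear
    rw [← hY, hcastL] at h1
    obtain ⟨η, hηdef⟩ : ∃ η : ℝ, η = ξ - r := ⟨_, rfl⟩
    rw [← hηdef] at h1
    obtain ⟨P, hP⟩ : ∃ P : ℝ, P = Ph (4 ^ (k - j)) η := ⟨_, rfl⟩
    rw [← hP] at h1
    have hP1 : P ≤ 1 := by rw [hP]; exact Ph_le_one _ _
    have h2 : |1 - Y| ≤ (1 - P) + (3 / 4 : ℝ) ^ j := by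
      have h3 := abs_le.1 (h1.trans hE)
      rw [abs_le]
      constructor <;> linarith [h3.1, h3.2]
    -- main term
    have hmain : (1 - P) * Real.sqrt (gN (2 ^ k) ξ) ≤ 200 * (3 / 4 : ℝ) ^ j := by
      rcases eq_or_ne η 0 with h0 | h0
      · have h3 := Ph_small (4 ^ (k - j)) hLnat η
        rw [← hP, h0] at h3
        have h4 : 1 - P ≤ 0 := by simpa using h3
        have h5 : (1 - P) * Real.sqrt (gN (2 ^ k) ξ) ≤ 0 :=
          mul_nonpos_of_nonpos_of_nonneg h4 hsg0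
        have : 0 ≤ 200 * (3 / 4 : ℝ) ^ j := by positivity
        linarith
      · have hη0 : 0 < |η| := abs_pos.2 h0
        obtain ⟨s, hs⟩ : ∃ s : ℝ, s = Real.sqrt (L * |η|) := ⟨_, rfl⟩
        have hs0 : 0 < s := by rw [hs]; exact Real.sqrt_pos.2 (by positivity)
        have hs2 : s ^ 2 = L * |η| := by rw [hs]; exact Real.sq_sqrt (by positivity)
        have hne : ξ - (r.num : ℝ) / r.den ≠ 0 := by rw [← hrc, ← hηdef]; exact h0
        have hb := gN_bound2 (2 ^ k) r.den hNnat hden hr2 r.num hcop ξ hη hne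
        rw [hcastN, ← hrc, ← hηdef] at hb
        have e1 : Real.sqrt (N ^ 2 * |η|) = 2 ^ j * s := by
          rw [← hLN, show L * 4 ^ j * |η| = (2 ^ j) ^ 2 * (L * |η|) by
            rw [← pow_mul, mul_comm j 2, pow_mul]; norm_num; ring,
            Real.sqrt_mul (by positivity), Real.sqrt_sq (by positivity), hs]
        rw [e1] at hb
        have h2js : (0 : ℝ) < 2 ^ j * s := by positivity
        have e2 : 1 / ((r.den : ℝ) * (2 ^ j * s)) ≤ (1 / 2) ^ j * (1 / s) := by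
          have e3 : (1 / 2 : ℝ) ^ j * (1 / s) = 1 / (2 ^ j * s) := by
            rw [one_div_pow]; field_simp
          rw [e3]
          refine one_div_le_one_div_of_le h2js ?_
          nlinarith
        have hb' : gN (2 ^ k) ξ ≤ 20 * ((1 / 2) ^ j * (1 / s) + 1 / 4 * (1 / 2) ^ j) := by
          have := hisN
          nlinarith
        rcases le_or_gt s 1 with hs1 | hs1
        · have h3 := Ph_small (4 ^ (k - j)) hLnat η
          rw [← hP, hcastL] at h3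
          have h4 : 1 - P ≤ 20 * s ^ 4 := by
            calc 1 - P ≤ 20 * L ^ 2 * η ^ 2 := h3
              _ = 20 * (s ^ 2) ^ 2 := by rw [hs2, mul_pow, sq_abs]; ring
              _ = 20 * s ^ 4 := by ring
          have h5 : s ^ 4 * Real.sqrt (gN (2 ^ k) ξ) ≤ 5 * (3 / 4 : ℝ) ^ j := by
            have h6 : s ^ 4 * Real.sqrt (gN (2 ^ k) ξ) = Real.sqrt (s ^ 8 * gN (2 ^ k) ξ) := by
              rw [Real.sqrt_mul (by positivity), show s ^ 8 = (s ^ 4) ^ 2 by ring,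
                Real.sqrt_sq (by positivity)]
            rw [h6, Real.sqrt_le_left (by positivity)]
            have h7 : s ^ 8 * gN (2 ^ k) ξ ≤ s ^ 8 *
                (20 * ((1 / 2) ^ j * (1 / s) + 1 / 4 * (1 / 2) ^ j)) :=
              mul_le_mul_of_nonneg_left hb' (by positivity)
            have h8 : s ^ 8 * (20 * ((1 / 2) ^ j * (1 / s) + 1 / 4 * (1 / 2) ^ j)) =
                20 * (1 / 2) ^ j * (s ^ 7 + 1 / 4 * s ^ 8) := by
              field_simp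
            have h9 : s ^ 7 + 1 / 4 * s ^ 8 ≤ 5 / 4 := by
              have a1 : s ^ 7 ≤ 1 := pow_le_one₀ hs0.le hs1
              have a2 : s ^ 8 ≤ 1 := pow_le_one₀ hs0.le hs1
              linarith
            have h10 : (0 : ℝ) < (1 / 2) ^ j := by positivity
            calc s ^ 8 * gN (2 ^ k) ξ ≤ 20 * (1 / 2) ^ j * (s ^ 7 + 1 / 4 * s ^ 8) := by
                  rw [← h8]; exact h7
              _ ≤ 20 * (1 / 2) ^ j * (5 / 4) := mul_le_mul_of_nonneg_left h9 (by positivity)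
              _ = 25 * (1 / 2) ^ j := by ring
              _ ≤ 25 * ((3 / 4 : ℝ) ^ j) ^ 2 := by linarith
              _ = (5 * (3 / 4 : ℝ) ^ j) ^ 2 := by ring
          calc (1 - P) * Real.sqrt (gN (2 ^ k) ξ) ≤ 20 * s ^ 4 * Real.sqrt (gN (2 ^ k) ξ) :=
                mul_le_mul_of_nonneg_right h4 hsg0
            _ = 20 * (s ^ 4 * Real.sqrt (gN (2 ^ k) ξ)) := by ring
            _ ≤ 20 * (5 * (3 / 4 : ℝ) ^ j) := by linarith
            _ ≤ _ := by linarith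
        · have hP0 : 0 ≤ P := by rw [hP]; exact Ph_nonneg _ _
          have h5 : Real.sqrt (gN (2 ^ k) ξ) ≤ 5 * (3 / 4 : ℝ) ^ j := by
            rw [Real.sqrt_le_left (by positivity)]
            have h11 : 1 / s ≤ 1 := by
              rw [div_le_one hs0]; exact hs1.le
            have h10 : (0 : ℝ) < (1 / 2) ^ j := by positivity
            calc gN (2 ^ k) ξ ≤ 20 * ((1 / 2) ^ j * (1 / s) + 1 / 4 * (1 / 2) ^ j) := hb'
              _ ≤ 20 * ((1 / 2) ^ j * 1 + 1 / 4 * (1 / 2) ^ j) := by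
                  have := mul_le_mul_of_nonneg_left h11 h10.le
                  linarith
              _ = 25 * (1 / 2) ^ j := by ring
              _ ≤ 25 * ((3 / 4 : ℝ) ^ j) ^ 2 := by linarith
              _ = (5 * (3 / 4 : ℝ) ^ j) ^ 2 := by ring
          calc (1 - P) * Real.sqrt (gN (2 ^ k) ξ) ≤ 1 * (5 * (3 / 4 : ℝ) ^ j) :=
                mul_le_mul (by linarith) h5 hsg0 (by norm_num)
            _ ≤ _ := by linarith
    calc |1 - Y| * Real.sqrt (gN (2 ^ k) ξ)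
        ≤ ((1 - P) + (3 / 4 : ℝ) ^ j) * Real.sqrt (gN (2 ^ k) ξ) :=
          mul_le_mul_of_nonneg_right h2 hsg0
      _ = (1 - P) * Real.sqrt (gN (2 ^ k) ξ) + (3 / 4 : ℝ) ^ j * Real.sqrt (gN (2 ^ k) ξ) := by
          ring
      _ ≤ 200 * (3 / 4 : ℝ) ^ j + (3 / 4 : ℝ) ^ j * 1 :=
          add_le_add hmain (mul_le_mul_of_nonneg_left hsg1 h340.le)
      _ ≤ _ := by linarith

end

end NP2
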