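import Mathlib

/-!
# NP2 / Rid : ridge regression in a block (algebra)

`ip J f g` is the normalised inner product over the finite set `J` of times; `W : ι → ℕ → ℝ` are the
columns; `rid J W μ f` is the unique `ξ : ι → ℝ` with the normal equation
`μ ξ_x = ip J (W_x) (f - ∑ ξ_y W_y)`; it minimises
`cst J W μ f ξ = |f - ∑ ξ_x W_x|_J^2 + μ |ξ|^2`.

* existence: the linear map `ξ ↦ (μ ξ_x + ip J (W_x) (comb W ξ))_x` is injective (pair it with `ξ`),
  hence surjective.  Uniqueness: the same.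
* `cst_split` : expand `f - comb W η = res - comb W (η - ξ)` and use the normal equation.
* `mcs_cons_drop` : test vector `(s, rid)` with `s = ip w0 res / (ip w0 w0 + μ)`.
* `rid_cons_zero` : a column which vanishes on `J` gets coefficient `0` and changes nothing.
-/

namespace NP2
open Finset

noncomputable section

/-- normalised inner product over `J` -/
def ip (J : Finset ℕ) (f g : ℕ → ℝ) : ℝ := (∑ t ∈ J, f t * g t) / J.card

/-- the block of level `k` and index `b` -/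
def blk (k b : ℕ) : Finset ℕ := Ico (b * 2 ^ k) ((b + 1) * 2 ^ k)

section general
variable {ι : Type*} [Fintype ι]

/-- linear combination of the columns -/
def comb (W : ι → ℕ → ℝ) (ξ : ι → ℝ) : ℕ → ℝ := fun t => ∑ x, ξ x * W x t

/-- the cost -/
def cst (J : Finset ℕ) (W : ι → ℕ → ℝ) (μ : ℝ) (f : ℕ → ℝ) (ξ : ι → ℝ) : ℝ :=
  ip J (fun t => f t - comb W ξ t) (fun t => f t - comb W ξ t) + μ * ∑ x, ξ x ^ 2

private theorem ip_comm0 (J : Finset ℕ) (f g : ℕ → ℝ) : ip J f g = ip J g f := by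
  unfold ip
  congr 1
  exact sum_congr rfl fun t _ => mul_comm _ _

private theorem ip_self_nonneg0 (J : Finset ℕ) (f : ℕ → ℝ) : 0 ≤ ip J f f := by
  unfold ip
  exact div_nonneg (sum_nonneg fun t _ => mul_self_nonneg _) (Nat.cast_nonneg _)

private theorem ip_add_left0 (J : Finset ℕ) (f f' g : ℕ → ℝ) :
    ip J (fun t => f t + f' t) g = ip J f g + ip J f' g := by
  unfold ip
  rw [← add_div, ← sum_add_distrib]
  congr 1
  exact sum_congr rfl fun t _ => by ring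

private theorem ip_smul_left0 (J : Finset ℕ) (a : ℝ) (f g : ℕ → ℝ) :
    ip J (fun t => a * f t) g = a * ip J f g := by
  unfold ip
  rw [← mul_div_assoc, mul_sum]
  congr 1
  exact sum_congr rfl fun t _ => by ring

private theorem ip_comb_left0 (J : Finset ℕ) (W : ι → ℕ → ℝ) (ξ : ι → ℝ) (g : ℕ → ℝ) :
    ip J (comb W ξ) g = ∑ x, ξ x * ip J (W x) g := by
  unfold ip comb
  have h : ∑ x, ξ x * ((∑ t ∈ J, W x t * g t) / (J.card : ℝ))
      = (∑ x, ∑ t ∈ J, ξ x * (W x t * g t)) / (J.card : ℝ) := by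
    rw [sum_div]
    exact sum_congr rfl fun x _ => by rw [← mul_div_assoc, mul_sum]
  rw [h, sum_comm]
  congr 1
  refine sum_congr rfl fun t _ => ?_
  rw [sum_mul]
  exact sum_congr rfl fun x _ => by ring

private theorem ip_sub_right0 (J : Finset ℕ) (f g g' : ℕ → ℝ) :
    ip J f (fun t => g t - g' t) = ip J f g - ip J f g' := by
  unfold ip
  rw [← sub_div, ← sum_sub_distrib]
  congr 1
  exact sum_congr rfl fun t _ => by ring

private theorem comb_add0 (W : ι → ℕ → ℝ) (ξ η : ι → ℝ) (t : ℕ) :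
    comb W (fun x => ξ x + η x) t = comb W ξ t + comb W η t := by
  unfold comb
  rw [← sum_add_distrib]
  exact sum_congr rfl fun x _ => by ring

private theorem comb_sub0 (W : ι → ℕ → ℝ) (ξ η : ι → ℝ) (t : ℕ) :
    comb W (fun x => ξ x - η x) t = comb W ξ t - comb W η t := by
  unfold comb
  rw [← sum_sub_distrib]
  exact sum_congr rfl fun x _ => by ring

private theorem comb_smul0 (W : ι → ℕ → ℝ) (a : ℝ) (ξ : ι → ℝ) (t : ℕ) :
    comb W (fun x => a * ξ x) t = a * comb W ξ t := by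
  unfold comb
  rw [mul_sum]
  exact sum_congr rfl fun x _ => by ring

/-- the only vector with `μ ξ_x + ip J (W_x) (comb W ξ) = 0` is zero -/
private theorem inj0 (J : Finset ℕ) (W : ι → ℕ → ℝ) (μ : ℝ) (hμ : 0 < μ) (ξ : ι → ℝ)
    (h : ∀ x, μ * ξ x + ip J (W x) (comb W ξ) = 0) : ξ = 0 := by
  have h1 : ∑ x, ξ x * (μ * ξ x + ip J (W x) (comb W ξ)) = 0 :=
    sum_eq_zero fun x _ => by rw [h x, mul_zero]
  have h2 : ∑ x, ξ x * (μ * ξ x + ip J (W x) (comb W ξ))
      = μ * ∑ x, ξ x ^ 2 + ip J (comb W ξ) (comb W ξ) := by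
    rw [ip_comb_left0, mul_sum, ← sum_add_distrib]
    exact sum_congr rfl fun x _ => by ring
  have h3 := ip_self_nonneg0 J (comb W ξ)
  have h4 : 0 ≤ ∑ x, ξ x ^ 2 := sum_nonneg fun x _ => sq_nonneg _
  have h5 : ∑ x, ξ x ^ 2 = 0 := by nlinarith
  funext x
  have h6 := (sum_eq_zero_iff_of_nonneg (fun x _ => sq_nonneg (ξ x))).1 h5 x (mem_univ x)
  simpa using h6

theorem rid_exists (J : Finset ℕ) (W : ι → ℕ → ℝ) (μ : ℝ) (hμ : 0 < μ) (f : ℕ → ℝ) :
    ∃ ξ : ι → ℝ, ∀ x, μ * ξ x = ip J (W x) (fun t => f t - comb W ξ t) := by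
  classical
  let T : (ι → ℝ) →ₗ[ℝ] (ι → ℝ) :=
    { toFun := fun ξ x => μ * ξ x + ip J (W x) (comb W ξ)
      map_add' := by
        intro ξ η
        funext x
        have e : comb W (ξ + η) = fun t => comb W ξ t + comb W η t := by
          funext t
          exact comb_add0 W ξ η t
        show μ * (ξ x + η x) + ip J (W x) (comb W (ξ + η))
          = (μ * ξ x + ip J (W x) (comb W ξ)) + (μ * η x + ip J (W x) (comb W η))
        rw [e, ip_comm0 J (W x) (fun t => comb W ξ t + comb W η t), ip_add_left0,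
          ip_comm0 J (comb W ξ), ip_comm0 J (comb W η)]
        ring
      map_smul' := by
        intro a ξ
        funext x
        have e : comb W (a • ξ) = fun t => a * comb W ξ t := by
          funext t
          exact comb_smul0 W a ξ t
        show μ * (a * ξ x) + ip J (W x) (comb W (a • ξ))
          = a * (μ * ξ x + ip J (W x) (comb W ξ))
        rw [e, ip_comm0 J (W x) (fun t => a * comb W ξ t), ip_smul_left0,
          ip_comm0 J (comb W ξ)]
        ring }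
  have hT : Function.Injective T := by
    rw [← LinearMap.ker_eq_bot, LinearMap.ker_eq_bot']
    intro ξ hξ
    exact inj0 J W μ hμ ξ fun x => congrFun hξ x
  have hS : Function.Surjective T := LinearMap.injective_iff_surjective.1 hT
  obtain ⟨ξ, hξ⟩ := hS fun x => ip J (W x) f
  refine ⟨ξ, fun x => ?_⟩
  have h1 : μ * ξ x + ip J (W x) (comb W ξ) = ip J (W x) f := congrFun hξ x
  rw [ip_sub_right0]
  linarith

open Classical in
/-- the ridge coefficients -/
def rid (J : Finset ℕ) (W : ι → ℕ → ℝ) (μ : ℝ) (f : ℕ → ℝ) : ι → ℝ :=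
  if h : 0 < μ then Classical.choose (rid_exists J W μ h f) else 0

/-- the residual -/
def res (J : Finset ℕ) (W : ι → ℕ → ℝ) (μ : ℝ) (f : ℕ → ℝ) : ℕ → ℝ :=
  fun t => f t - comb W (rid J W μ f) t

/-- the minimal cost -/
def mcs (J : Finset ℕ) (W : ι → ℕ → ℝ) (μ : ℝ) (f : ℕ → ℝ) : ℝ := cst J W μ f (rid J W μ f)

theorem ip_comm (J : Finset ℕ) (f g : ℕ → ℝ) : ip J f g = ip J g f := ip_comm0 J f g

theorem ip_self_nonneg (J : Finset ℕ) (f : ℕ → ℝ) : 0 ≤ ip J f f := ip_self_nonneg0 J f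

theorem ip_cs (J : Finset ℕ) (f g : ℕ → ℝ) : ip J f g ^ 2 ≤ ip J f f * ip J g g := by
  have h := sum_mul_sq_le_sq_mul_sq J f g
  unfold ip
  rw [div_pow, div_mul_div_comm, ← sq]
  have e : (∑ t ∈ J, f t * f t) * (∑ t ∈ J, g t * g t)
      = (∑ t ∈ J, f t ^ 2) * (∑ t ∈ J, g t ^ 2) := by
    simp only [sq]
  rw [e]
  exact div_le_div_of_nonneg_right h (sq_nonneg _)

theorem ip_le_one (J : Finset ℕ) (f : ℕ → ℝ) (hf : ∀ t, |f t| ≤ 1) : ip J f f ≤ 1 := by
  unfold ip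
  have h : ∑ t ∈ J, f t * f t ≤ J.card := by
    calc ∑ t ∈ J, f t * f t ≤ ∑ t ∈ J, (1 : ℝ) := by
          refine sum_le_sum fun t _ => ?_
          have h1 := abs_le.1 (hf t)
          nlinarith [h1.1, h1.2]
      _ = J.card := by simp
  exact div_le_one_of_le₀ h (Nat.cast_nonneg _)

theorem ip_add_left (J : Finset ℕ) (f f' g : ℕ → ℝ) :
    ip J (fun t => f t + f' t) g = ip J f g + ip J f' g := ip_add_left0 J f f' g

theorem ip_smul_left (J : Finset ℕ) (a : ℝ) (f g : ℕ → ℝ) :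
    ip J (fun t => a * f t) g = a * ip J f g := ip_smul_left0 J a f g

theorem ip_congr (J : Finset ℕ) (f f' g g' : ℕ → ℝ) (h : ∀ t ∈ J, f t = f' t)
    (h' : ∀ t ∈ J, g t = g' t) : ip J f g = ip J f' g' := by
  unfold ip
  congr 1
  exact sum_congr rfl fun t ht => by rw [h t ht, h' t ht]

theorem ip_comb_left (J : Finset ℕ) (W : ι → ℕ → ℝ) (ξ : ι → ℝ) (g : ℕ → ℝ) :
    ip J (comb W ξ) g = ∑ x, ξ x * ip J (W x) g := ip_comb_left0 J W ξ g

theorem rid_normal (J : Finset ℕ) (W : ι → ℕ → ℝ) (μ : ℝ) (hμ : 0 < μ) (f : ℕ → ℝ) (x : ι) :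
    μ * rid J W μ f x = ip J (W x) (res J W μ f) := by
  have h := Classical.choose_spec (rid_exists J W μ hμ f) x
  have e : rid J W μ f = Classical.choose (rid_exists J W μ hμ f) := by
    unfold rid
    rw [dif_pos hμ]
  unfold res
  rw [e]
  exact h

theorem rid_unique (J : Finset ℕ) (W : ι → ℕ → ℝ) (μ : ℝ) (hμ : 0 < μ) (f : ℕ → ℝ) (ξ : ι → ℝ)
    (h : ∀ x, μ * ξ x = ip J (W x) (fun t => f t - comb W ξ t)) : ξ = rid J W μ f := by
  have h0 : (fun x => ξ x - rid J W μ f x) = 0 := by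
    refine inj0 J W μ hμ _ fun x => ?_
    have h1 := h x
    have h2 := rid_normal J W μ hμ f x
    unfold res at h2
    rw [ip_sub_right0] at h1 h2
    have e : comb W (fun x => ξ x - rid J W μ f x)
        = fun t => comb W ξ t - comb W (rid J W μ f) t := by
      funext t
      exact comb_sub0 W ξ _ t
    rw [e, ip_sub_right0]
    linarith
  funext x
  have h1 := congrFun h0 x
  simp only [Pi.zero_apply] at h1
  linarith

private theorem ip_sub_self0 (J : Finset ℕ) (u v : ℕ → ℝ) :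
    ip J (fun t => u t - v t) (fun t => u t - v t) = ip J u u - 2 * ip J u v + ip J v v := by
  rw [ip_sub_right0, ip_comm0 J (fun t => u t - v t) u, ip_comm0 J (fun t => u t - v t) v,
    ip_sub_right0, ip_sub_right0, ip_comm0 J v u]
  ring

theorem cst_split (J : Finset ℕ) (W : ι → ℕ → ℝ) (μ : ℝ) (hμ : 0 < μ) (f : ℕ → ℝ)
    (η : ι → ℝ) :
    cst J W μ f η = mcs J W μ f
      + (ip J (comb W (fun x => η x - rid J W μ f x)) (comb W (fun x => η x - rid J W μ f x))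
        + μ * ∑ x, (η x - rid J W μ f x) ^ 2) := by
  set ξ := rid J W μ f with hξ
  have e1 : (fun t => f t - comb W η t)
      = fun t => res J W μ f t - comb W (fun x => η x - ξ x) t := by
    funext t
    rw [comb_sub0]
    unfold res
    rw [← hξ]
    ring
  have e2 : ip J (res J W μ f) (comb W (fun x => η x - ξ x))
      = ∑ x, (η x - ξ x) * (μ * ξ x) := by
    rw [ip_comm0, ip_comb_left0]
    refine sum_congr rfl fun x _ => ?_
    rw [hξ, rid_normal J W μ hμ f x]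
  have e3 : ∑ x, η x ^ 2 = ∑ x, ξ x ^ 2 + 2 * ∑ x, (η x - ξ x) * ξ x + ∑ x, (η x - ξ x) ^ 2 := by
    rw [mul_sum, ← sum_add_distrib, ← sum_add_distrib]
    exact sum_congr rfl fun x _ => by ring
  have e4 : ∑ x, (η x - ξ x) * (μ * ξ x) = μ * ∑ x, (η x - ξ x) * ξ x := by
    rw [mul_sum]
    exact sum_congr rfl fun x _ => by ring
  have e5 : mcs J W μ f = ip J (res J W μ f) (res J W μ f) + μ * ∑ x, ξ x ^ 2 := rfl
  unfold cst
  rw [e1, ip_sub_self0, e2, e3, e4, e5]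
  ring

theorem mcs_le_cst (J : Finset ℕ) (W : ι → ℕ → ℝ) (μ : ℝ) (hμ : 0 < μ) (f : ℕ → ℝ)
    (η : ι → ℝ) : mcs J W μ f ≤ cst J W μ f η := by
  rw [cst_split J W μ hμ f η]
  have h1 := ip_self_nonneg J (comb W (fun x => η x - rid J W μ f x))
  have h2 : 0 ≤ μ * ∑ x, (η x - rid J W μ f x) ^ 2 :=
    mul_nonneg hμ.le (sum_nonneg fun x _ => sq_nonneg _)
  linarith

theorem mcs_nonneg (J : Finset ℕ) (W : ι → ℕ → ℝ) (μ : ℝ) (hμ : 0 < μ) (f : ℕ → ℝ) :
    0 ≤ mcs J W μ f := by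
  unfold mcs cst
  have h1 := ip_self_nonneg J (fun t => f t - comb W (rid J W μ f) t)
  have h2 : 0 ≤ μ * ∑ x, rid J W μ f x ^ 2 :=
    mul_nonneg hμ.le (sum_nonneg fun x _ => sq_nonneg _)
  linarith

theorem mcs_le (J : Finset ℕ) (W : ι → ℕ → ℝ) (μ : ℝ) (hμ : 0 < μ) (f : ℕ → ℝ) :
    mcs J W μ f ≤ ip J f f := by
  have h := mcs_le_cst J W μ hμ f (fun _ => 0)
  have e : cst J W μ f (fun _ => 0) = ip J f f := by
    unfold cst comb
    simp
  rw [e] at h
  exact h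

theorem rid_sq_le (J : Finset ℕ) (W : ι → ℕ → ℝ) (μ : ℝ) (hμ : 0 < μ) (f : ℕ → ℝ) :
    μ * ∑ x, rid J W μ f x ^ 2 ≤ ip J f f := by
  have h := mcs_le J W μ hμ f
  unfold mcs cst at h
  have h1 := ip_self_nonneg J (fun t => f t - comb W (rid J W μ f) t)
  linarith

theorem res_sq_le (J : Finset ℕ) (W : ι → ℕ → ℝ) (μ : ℝ) (hμ : 0 < μ) (f : ℕ → ℝ) :
    ip J (res J W μ f) (res J W μ f) ≤ ip J f f := by
  have h := mcs_le J W μ hμ f
  unfold mcs cst at h
  have h2 : 0 ≤ μ * ∑ x, rid J W μ f x ^ 2 :=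
    mul_nonneg hμ.le (sum_nonneg fun x _ => sq_nonneg _)
  unfold res
  linarith

end general

section cons
variable {n : ℕ}

private theorem comb_cons0 (W : Fin n → ℕ → ℝ) (w0 : ℕ → ℝ) (s : ℝ) (ξ : Fin n → ℝ) (t : ℕ) :
    comb (Fin.cons w0 W : Fin (n + 1) → ℕ → ℝ) (Fin.cons s ξ : Fin (n + 1) → ℝ) t
      = s * w0 t + comb W ξ t := by
  unfold comb
  rw [Fin.sum_univ_succ]
  simp only [Fin.cons_zero, Fin.cons_succ]

theorem rid_cons_zero (J : Finset ℕ) (W : Fin n → ℕ → ℝ) (w0 : ℕ → ℝ) (hw : ∀ t ∈ J, w0 t = 0)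
    (μ : ℝ) (hμ : 0 < μ) (f : ℕ → ℝ) :
    rid J (Fin.cons w0 W : Fin (n + 1) → ℕ → ℝ) μ f =
      (Fin.cons 0 (rid J W μ f) : Fin (n + 1) → ℝ) := by
  symm
  refine rid_unique J _ μ hμ f _ fun x => ?_
  have e : (fun t => f t - comb (Fin.cons w0 W : Fin (n + 1) → ℕ → ℝ)
      (Fin.cons 0 (rid J W μ f) : Fin (n + 1) → ℝ) t) = res J W μ f := by
    funext t
    rw [comb_cons0]
    unfold res
    ring
  rw [e]
  refine Fin.cases ?_ (fun i => ?_) x
  · simp only [Fin.cons_zero, mul_zero]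
    unfold ip
    rw [sum_eq_zero fun t ht => by rw [hw t ht, zero_mul], zero_div]
  · simp only [Fin.cons_succ]
    exact rid_normal J W μ hμ f i

theorem res_cons_zero (J : Finset ℕ) (W : Fin n → ℕ → ℝ) (w0 : ℕ → ℝ) (hw : ∀ t ∈ J, w0 t = 0)
    (μ : ℝ) (hμ : 0 < μ) (f : ℕ → ℝ) :
    res J (Fin.cons w0 W : Fin (n + 1) → ℕ → ℝ) μ f = res J W μ f := by
  funext t
  unfold res
  rw [rid_cons_zero J W w0 hw μ hμ f, comb_cons0]
  ring

private theorem cst_cons0 (J : Finset ℕ) (W : Fin n → ℕ → ℝ) (w0 : ℕ → ℝ)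
    (μ : ℝ) (f : ℕ → ℝ) (s : ℝ) :
    cst J (Fin.cons w0 W : Fin (n + 1) → ℕ → ℝ) μ f
        (Fin.cons s (rid J W μ f) : Fin (n + 1) → ℝ)
      = mcs J W μ f - 2 * s * ip J w0 (res J W μ f) + s ^ 2 * (ip J w0 w0 + μ) := by
  have e1 : (fun t => f t - comb (Fin.cons w0 W : Fin (n + 1) → ℕ → ℝ)
      (Fin.cons s (rid J W μ f) : Fin (n + 1) → ℝ) t)
      = fun t => res J W μ f t - s * w0 t := by
    funext t
    rw [comb_cons0]
    unfold res
    ring
  have e2 : ∑ x : Fin (n + 1), (Fin.cons s (rid J W μ f) : Fin (n + 1) → ℝ) x ^ 2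
      = s ^ 2 + ∑ x, rid J W μ f x ^ 2 := by
    rw [Fin.sum_univ_succ]
    simp only [Fin.cons_zero, Fin.cons_succ]
  have e3 : ip J (res J W μ f) (fun t => s * w0 t) = s * ip J w0 (res J W μ f) := by
    rw [ip_comm0, ip_smul_left0]
  have e4 : ip J (fun t => s * w0 t) (fun t => s * w0 t) = s ^ 2 * ip J w0 w0 := by
    rw [ip_smul_left0, ip_comm0, ip_smul_left0]
    ring
  have e5 : mcs J W μ f = ip J (res J W μ f) (res J W μ f) + μ * ∑ x, rid J W μ f x ^ 2 := rfl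
  unfold cst
  rw [e1, ip_sub_self0, e2, e3, e4, e5]
  ring

theorem mcs_cons_le (J : Finset ℕ) (W : Fin n → ℕ → ℝ) (w0 : ℕ → ℝ)
    (μ : ℝ) (hμ : 0 < μ) (f : ℕ → ℝ) :
    mcs J (Fin.cons w0 W : Fin (n + 1) → ℕ → ℝ) μ f ≤ mcs J W μ f := by
  have h := mcs_le_cst J (Fin.cons w0 W : Fin (n + 1) → ℕ → ℝ) μ hμ f
    (Fin.cons 0 (rid J W μ f) : Fin (n + 1) → ℝ)
  rw [cst_cons0] at h
  linarith

theorem mcs_cons_drop (J : Finset ℕ) (W : Fin n → ℕ → ℝ) (w0 : ℕ → ℝ)
    (μ : ℝ) (hμ : 0 < μ) (f : ℕ → ℝ) :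
    mcs J (Fin.cons w0 W : Fin (n + 1) → ℕ → ℝ) μ f ≤
      mcs J W μ f - ip J w0 (res J W μ f) ^ 2 / (ip J w0 w0 + μ) := by
  have h := mcs_le_cst J (Fin.cons w0 W : Fin (n + 1) → ℕ → ℝ) μ hμ f
    (Fin.cons (ip J w0 (res J W μ f) / (ip J w0 w0 + μ)) (rid J W μ f) : Fin (n + 1) → ℝ)
  rw [cst_cons0] at h
  have hp : 0 < ip J w0 w0 + μ := add_pos_of_nonneg_of_pos (ip_self_nonneg J w0) hμ
  refine h.trans (le_of_eq ?_)
  field_simp
  ring

end cons

end

end NP2
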