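import Pool.Agent.NP2.Ker
import Pool.Agent.NP2.Rid

/-!
# NP2 / Dic : dictionaries with locations

An element `x` is born at the block `(lev, blk)`, has a location `loc` (coordinates of that block)
and a function `psi`.  An object is given by its position function `y : ℕ → A M` (coordinates
as a function of the left end of a block: `pT u l = co l u`, `pS v l = co l (v - th l)`) and its
function `f : ℕ → ℝ`.  Its column for `x` at the block `(k,b)` is
`exp(-τ/2 dist) psi` if `(k,b)` is contained in the block of `x`, and `0` otherwise.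

* `cst_children` : for coefficients supported on the elements active at `(k+1,b)` the cost at
  `(k+1,b)` is the mean of the costs at the two children.
* `tr_children` : the trace is a submartingale.
* `tr_expect` : `∑_u exp(-τ dist_x(u)) = ∑_y exp(-τ(|y_1|/2^lev + |y_2|/4^lev)) ≤ (3·2^lev/τ)(3·4^lev/τ)`
  (`∑_{x : ZMod M} exp(-|x|/a) ≤ 3a` for `a ≥ 1`).
* `tr_doob` : first level (from the top) at which `tr ≥ Γ`; submartingale.
* `dist_close` : tied objects, also after a central shift `|z| ≤ 4^k`: for `x` active at the block of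
  `c`, `l = blk x 2^(lev x)`: `pS v l - pT u l = th (c-l) + (0,z)`.
-/

namespace NP2
open Finset

noncomputable section

variable {M : ℕ}

/-- dictionary element -/
structure Elem (M : ℕ) where
  lev : ℕ
  blk : ℕ
  loc : A M
  psi : ℕ → ℝ

/-- dictionary -/
structure Dict (M : ℕ) where
  n : ℕ
  el : Fin n → Elem M

/-- the block `(k,b)` is contained in the block of `x` -/
def Elem.act (x : Elem M) (k b : ℕ) : Prop := k ≤ x.lev ∧ b / 2 ^ (x.lev - k) = x.blk

/-- distance of the object with position function `y` to the element -/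
def Elem.dist (x : Elem M) (y : ℕ → A M) : ℝ :=
  az (y (x.blk * 2 ^ x.lev) - x.loc).1 / 2 ^ x.lev + az (y (x.blk * 2 ^ x.lev) - x.loc).2 / 4 ^ x.lev

open Classical in
/-- column of one element -/
def colE (τ : ℝ) (x : Elem M) (k b : ℕ) (y : ℕ → A M) : ℕ → ℝ :=
  fun t => if x.act k b then Real.exp (-(τ / 2) * x.dist y) * x.psi t else 0

/-- columns of a dictionary -/
def col (τ : ℝ) (D : Dict M) (k b : ℕ) (y : ℕ → A M) : Fin D.n → ℕ → ℝ :=
  fun i => colE τ (D.el i) k b y

/-- position function of a `T`-object -/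
def pT (u : A M) : ℕ → A M := fun l => co M l u

/-- position function of an `S`-object -/
def pS (v : A M) : ℕ → A M := fun l => co M l (v - th M l)

/-- ridge coefficients of an object at a block -/
def xi (τ : ℝ) (D : Dict M) (μ : ℝ) (k b : ℕ) (y : ℕ → A M) (f : ℕ → ℝ) : Fin D.n → ℝ :=
  rid (blk k b) (col τ D k b y) μ f

/-- residual -/
def rsd (τ : ℝ) (D : Dict M) (μ : ℝ) (k b : ℕ) (y : ℕ → A M) (f : ℕ → ℝ) : ℕ → ℝ :=
  res (blk k b) (col τ D k b y) μ f

/-- minimal cost -/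
def mc (τ : ℝ) (D : Dict M) (μ : ℝ) (k b : ℕ) (y : ℕ → A M) (f : ℕ → ℝ) : ℝ :=
  mcs (blk k b) (col τ D k b y) μ f

/-- trace -/
def tr (τ : ℝ) (D : Dict M) (k b : ℕ) (y : ℕ → A M) : ℝ :=
  ∑ i, ip (blk k b) (col τ D k b y i) (col τ D k b y i)

/-- cell of a coordinate vector at level `k` -/
def cell (k : ℕ) (y : A M) : ℕ × ℕ := (y.1.val / 2 ^ k, y.2.val / 4 ^ k)

theorem card_blk (k b : ℕ) : (blk k b).card = 2 ^ k := by
  unfold blk
  rw [Nat.card_Ico]
  have : (b + 1) * 2 ^ k = b * 2 ^ k + 2 ^ k := by ring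
  rw [this, Nat.add_sub_cancel_left]

private theorem dic_blk_union (k b : ℕ) (F : ℕ → ℝ) :
    ∑ t ∈ blk k (2 * b), F t + ∑ t ∈ blk k (2 * b + 1), F t = ∑ t ∈ blk (k + 1) b, F t := by
  unfold blk
  have e1 : (b + 1) * 2 ^ (k + 1) = (2 * b + 1 + 1) * 2 ^ k := by rw [pow_succ]; ring
  have e2 : b * 2 ^ (k + 1) = 2 * b * 2 ^ k := by rw [pow_succ]; ring
  rw [e1, e2]
  have hp : 0 < 2 ^ k := Nat.pos_of_ne_zero (by positivity)
  exact sum_Ico_consecutive F (Nat.mul_le_mul_right _ (by omega))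
    (Nat.mul_le_mul_right _ (by omega))

/-- mean over the two children -/
theorem ip_children (k b : ℕ) (f g : ℕ → ℝ) :
    (ip (blk k (2 * b)) f g + ip (blk k (2 * b + 1)) f g) / 2 = ip (blk (k + 1) b) f g := by
  unfold ip
  rw [card_blk, card_blk, card_blk, ← add_div, dic_blk_union, div_div]
  congr 1
  push_cast
  ring

theorem act_child (x : Elem M) (k b : ℕ) (h : x.act (k + 1) (b / 2)) : x.act k b := by
  obtain ⟨h1, h2⟩ := h
  refine ⟨by omega, ?_⟩
  rw [Nat.div_div_eq_div_mul] at h2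
  rw [← h2]
  congr 1
  have : x.lev - k = (x.lev - (k + 1)) + 1 := by omega
  rw [this, pow_succ, mul_comm]

private theorem dic_ip_zero (J : Finset ℕ) (f g : ℕ → ℝ) (h : ∀ t, f t = 0) : ip J f g = 0 := by
  unfold ip
  rw [sum_eq_zero fun t _ => by rw [h t, zero_mul], zero_div]

private theorem dic_col_inact (τ : ℝ) (D : Dict M) (k b : ℕ) (y : ℕ → A M) (i : Fin D.n)
    (h : ¬ (D.el i).act k b) (t : ℕ) : col τ D k b y i t = 0 := by
  unfold col colE
  rw [if_neg h]

private theorem dic_col_act (τ : ℝ) (D : Dict M) (k b : ℕ) (y : ℕ → A M) (i : Fin D.n)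
    (h : (D.el i).act k b) (t : ℕ) :
    col τ D k b y i t = Real.exp (-(τ / 2) * (D.el i).dist y) * (D.el i).psi t := by
  unfold col colE
  rw [if_pos h]

theorem xi_supp (τ : ℝ) (D : Dict M) (μ : ℝ) (hμ : 0 < μ) (k b : ℕ) (y : ℕ → A M) (f : ℕ → ℝ)
    (i : Fin D.n) (h : ¬ (D.el i).act k b) : xi τ D μ k b y f i = 0 := by
  have h1 := rid_normal (blk k b) (col τ D k b y) μ hμ f i
  rw [dic_ip_zero _ _ _ (dic_col_inact τ D k b y i h)] at h1
  rcases mul_eq_zero.1 h1 with h2 | h2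
  · exact absurd h2 hμ.ne'
  · exact h2

private theorem dic_comb_child (τ : ℝ) (D : Dict M) (k b b' : ℕ) (hb : b' / 2 = b) (y : ℕ → A M)
    (ξ : Fin D.n → ℝ) (hξ : ∀ i, ¬ (D.el i).act (k + 1) b → ξ i = 0) :
    comb (col τ D k b' y) ξ = comb (col τ D (k + 1) b y) ξ := by
  funext t
  unfold comb
  refine sum_congr rfl fun i _ => ?_
  by_cases h : (D.el i).act (k + 1) b
  · have h' : (D.el i).act k b' := act_child _ _ _ (by rw [hb]; exact h)
    rw [dic_col_act τ D k b' y i h', dic_col_act τ D (k + 1) b y i h]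
  · rw [hξ i h, zero_mul, zero_mul]

theorem cst_children (τ : ℝ) (D : Dict M) (μ : ℝ) (k b : ℕ) (y : ℕ → A M) (f : ℕ → ℝ)
    (ξ : Fin D.n → ℝ) (hξ : ∀ i, ¬ (D.el i).act (k + 1) b → ξ i = 0) :
    (cst (blk k (2 * b)) (col τ D k (2 * b) y) μ f ξ
      + cst (blk k (2 * b + 1)) (col τ D k (2 * b + 1) y) μ f ξ) / 2
      = cst (blk (k + 1) b) (col τ D (k + 1) b y) μ f ξ := by
  unfold cst
  rw [dic_comb_child τ D k b (2 * b) (by omega) y ξ hξ,
    dic_comb_child τ D k b (2 * b + 1) (by omega) y ξ hξ,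
    ← ip_children k b]
  ring

theorem tr_nonneg (τ : ℝ) (D : Dict M) (k b : ℕ) (y : ℕ → A M) : 0 ≤ tr τ D k b y :=
  sum_nonneg fun _ _ => ip_self_nonneg _ _

private theorem dic_ip_child (τ : ℝ) (D : Dict M) (k b b' : ℕ) (hb : b' / 2 = b) (y : ℕ → A M)
    (i : Fin D.n) (J : Finset ℕ) :
    ip J (col τ D (k + 1) b y i) (col τ D (k + 1) b y i)
      ≤ ip J (col τ D k b' y i) (col τ D k b' y i) := by
  by_cases h : (D.el i).act (k + 1) b
  · have h' : (D.el i).act k b' := act_child _ _ _ (by rw [hb]; exact h)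
    have e : col τ D (k + 1) b y i = col τ D k b' y i := by
      funext t
      rw [dic_col_act τ D k b' y i h', dic_col_act τ D (k + 1) b y i h]
    rw [e]
  · rw [dic_ip_zero _ _ _ (dic_col_inact τ D (k + 1) b y i h)]
    exact ip_self_nonneg _ _

theorem tr_children (τ : ℝ) (D : Dict M) (k b : ℕ) (y : ℕ → A M) :
    tr τ D (k + 1) b y ≤ (tr τ D k (2 * b) y + tr τ D k (2 * b + 1) y) / 2 := by
  unfold tr
  rw [← sum_add_distrib, sum_div]
  refine sum_le_sum fun i _ => ?_
  rw [← ip_children k b]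
  have h1 := dic_ip_child τ D k b (2 * b) (by omega) y i (blk k (2 * b))
  have h2 := dic_ip_child τ D k b (2 * b + 1) (by omega) y i (blk k (2 * b + 1))
  linarith

section
variable [NeZero M]

/-- the budget of a dictionary -/
def budget (K : ℕ) (D : Dict M) : ℝ :=
  ∑ i, 8 ^ (D.el i).lev * 2 ^ (D.el i).lev / ((M : ℝ) ^ 2 * 2 ^ K)

private theorem dic_S_le (a : ℝ) (ha : 1 ≤ a) : ker_S M a ≤ 3 * a := by
  classical
  have ha0 : 0 < a := by linarith
  set r : ℝ := Real.exp (-(1 / a)) with hr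
  have hr0 : 0 < r := Real.exp_pos _
  have hr1 : r < 1 := by
    rw [hr, Real.exp_lt_one_iff]
    have : 0 < 1 / a := by positivity
    linarith
  have hterm : ∀ x : ZMod M, Real.exp (-(az x / a)) = r ^ (x.valMinAbs.natAbs) := by
    intro x
    rw [hr, ← Real.exp_nat_mul]
    congr 1
    unfold az
    ring
  have h1 : ker_S M a = ∑ n ∈ range (M + 1),
      ∑ x ∈ (univ : Finset (ZMod M)).filter (fun x => x.valMinAbs.natAbs = n), r ^ n := by
    unfold ker_S
    rw [Finset.sum_congr rfl (fun x _ => hterm x)]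
    rw [← Finset.sum_fiberwise_of_maps_to (s := univ) (t := range (M + 1))
      (g := fun x : ZMod M => x.valMinAbs.natAbs)]
    · refine Finset.sum_congr rfl fun n _ => Finset.sum_congr rfl fun x hx => ?_
      rw [(mem_filter.1 hx).2]
    · intro x _
      rw [mem_range]
      have := ZMod.natAbs_valMinAbs_le x
      omega
  have h0 : ((univ : Finset (ZMod M)).filter (fun x => x.valMinAbs.natAbs = 0)).card ≤ 1 := by
    refine card_le_one.2 fun x hx y hy => ?_
    rw [mem_filter] at hx hy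
    have hx' : x.valMinAbs = 0 := by simpa using hx.2
    have hy' : y.valMinAbs = 0 := by simpa using hy.2
    rw [ZMod.valMinAbs_eq_zero] at hx' hy'
    rw [hx', hy']
  have h2 : ker_S M a + 1 ≤ ∑ n ∈ range (M + 1), 2 * r ^ n := by
    rw [h1, sum_range_succ', sum_range_succ']
    have h3 : ∑ n ∈ range M,
        ∑ x ∈ (univ : Finset (ZMod M)).filter (fun x => x.valMinAbs.natAbs = n + 1), r ^ (n + 1)
        ≤ ∑ n ∈ range M, 2 * r ^ (n + 1) := by
      refine Finset.sum_le_sum fun n _ => ?_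
      rw [Finset.sum_const, nsmul_eq_mul]
      refine mul_le_mul_of_nonneg_right ?_ (by positivity)
      exact_mod_cast ker_fib (M := M) (n + 1)
    have h4 : ∑ x ∈ (univ : Finset (ZMod M)).filter (fun x => x.valMinAbs.natAbs = 0), r ^ 0
        ≤ 1 := by
      rw [Finset.sum_const, nsmul_eq_mul, pow_zero, mul_one]
      exact_mod_cast h0
    have h5 : (2 : ℝ) * r ^ 0 = 2 := by norm_num
    linarith
  have h3 : ∑ n ∈ range (M + 1), 2 * r ^ n ≤ 2 * (1 + a) := by
    rw [← Finset.mul_sum]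
    have hgeo : ∑ n ∈ range (M + 1), r ^ n ≤ (1 - r)⁻¹ := by
      have hs := Summable.sum_le_tsum (range (M + 1)) (fun n _ => (by positivity : 0 ≤ r ^ n))
        (summable_geometric_of_lt_one hr0.le hr1)
      rwa [tsum_geometric_of_lt_one hr0.le hr1] at hs
    have hinv : (1 - r)⁻¹ ≤ 1 + a := by
      have hexp : 1 + 1 / a ≤ Real.exp (1 / a) := by
        have := Real.add_one_le_exp (1 / a)
        linarith
      have hrr : r ≤ (1 + 1 / a)⁻¹ := by
        rw [hr, Real.exp_neg]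
        exact inv_anti₀ (by positivity) hexp
      have hra : r ≤ a / (1 + a) := by
        refine hrr.trans (le_of_eq ?_)
        field_simp
        ring
      have h1r : 1 / (1 + a) ≤ 1 - r := by
        have : 1 / (1 + a) = 1 - a / (1 + a) := by
          field_simp
          ring
        rw [this]; linarith
      have := one_div_le_one_div_of_le (by positivity : (0:ℝ) < 1 / (1 + a)) h1r
      rw [one_div_one_div] at this
      rw [← one_div]
      exact this
    nlinarith [hgeo.trans hinv]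
  linarith

/-- the total weight of one element -/
private theorem dic_weight (τ : ℝ) (h0 : 0 < τ) (h1 : τ ≤ 1) (x : Elem M)
    (y : A M → ℕ → A M) (hy : ∀ l, Function.Bijective (fun u => y u l)) :
    ∑ u : A M, Real.exp (-τ * x.dist (y u)) ≤ 9 / τ ^ 2 * 8 ^ x.lev := by
  have e1 : ∑ u : A M, Real.exp (-τ * x.dist (y u))
      = ∑ w : A M, Real.exp (-τ * (az (w - x.loc).1 / 2 ^ x.lev + az (w - x.loc).2 / 4 ^ x.lev)) := by
    unfold Elem.dist
    exact Function.Bijective.sum_comp (hy (x.blk * 2 ^ x.lev))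
      (fun w : A M => Real.exp (-τ * (az (w - x.loc).1 / 2 ^ x.lev + az (w - x.loc).2 / 4 ^ x.lev)))
  have e2 : ∑ w : A M, Real.exp (-τ * (az (w - x.loc).1 / 2 ^ x.lev + az (w - x.loc).2 / 4 ^ x.lev))
      = ∑ w : A M, Real.exp (-τ * (az w.1 / 2 ^ x.lev + az w.2 / 4 ^ x.lev)) :=
    Equiv.sum_comp (Equiv.subRight x.loc)
      (fun w : A M => Real.exp (-τ * (az w.1 / 2 ^ x.lev + az w.2 / 4 ^ x.lev)))
  have e3 : ∑ w : A M, Real.exp (-τ * (az w.1 / 2 ^ x.lev + az w.2 / 4 ^ x.lev))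
      = ker_S M (2 ^ x.lev / τ) * ker_S M (4 ^ x.lev / τ) := by
    unfold ker_S
    rw [Finset.sum_mul_sum, Fintype.sum_prod_type]
    refine Finset.sum_congr rfl fun a _ => Finset.sum_congr rfl fun b _ => ?_
    rw [← Real.exp_add]
    congr 1
    have : τ ≠ 0 := h0.ne'
    field_simp
    ring
  have p2 : (1 : ℝ) ≤ 2 ^ x.lev := one_le_pow₀ (by norm_num)
  have p4 : (1 : ℝ) ≤ 4 ^ x.lev := one_le_pow₀ (by norm_num)
  have a2 : (1 : ℝ) ≤ 2 ^ x.lev / τ := by
    rw [le_div_iff₀ h0]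
    linarith
  have a4 : (1 : ℝ) ≤ 4 ^ x.lev / τ := by
    rw [le_div_iff₀ h0]
    linarith
  rw [e1, e2, e3]
  have h5 : ker_S M (2 ^ x.lev / τ) * ker_S M (4 ^ x.lev / τ)
      ≤ (3 * (2 ^ x.lev / τ)) * (3 * (4 ^ x.lev / τ)) :=
    mul_le_mul (dic_S_le _ a2) (dic_S_le _ a4) (ker_S_nonneg _) (by positivity)
  refine h5.trans (le_of_eq ?_)
  have h8 : (8 : ℝ) ^ x.lev = 2 ^ x.lev * 4 ^ x.lev := by
    rw [← mul_pow]; norm_num
  rw [h8]
  have : τ ≠ 0 := h0.ne'
  field_simp
  ring

/-- one element at level zero, summed over the times -/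
private theorem dic_times (K : ℕ) (x : Elem M) (hlev : x.lev ≤ K)
    (hblk : x.blk < 2 ^ (K - x.lev))
    (hunit : ip (blk x.lev x.blk) x.psi x.psi ≤ 1) (F : ℝ) (hF : 0 ≤ F) (G : ℕ → ℝ)
    (hG : ∀ c, x.act 0 c → G c = F * (x.psi c * x.psi c)) (hG' : ∀ c, ¬ x.act 0 c → G c = 0) :
    ∑ c ∈ range (2 ^ K), G c ≤ F * 2 ^ x.lev := by
  classical
  have hp : 0 < 2 ^ x.lev := Nat.pos_of_ne_zero (by positivity)
  have hact : ∀ c, x.act 0 c ↔ c ∈ blk x.lev x.blk := by
    intro c
    unfold Elem.act blk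
    rw [Nat.sub_zero, mem_Ico]
    constructor
    · rintro ⟨-, h⟩
      have h1 := Nat.div_add_mod c (2 ^ x.lev)
      have h2 := Nat.mod_lt c hp
      rw [h] at h1
      constructor
      · rw [mul_comm]; omega
      · have : (x.blk + 1) * 2 ^ x.lev = 2 ^ x.lev * x.blk + 2 ^ x.lev := by ring
        omega
    · rintro ⟨ha, hb⟩
      refine ⟨Nat.zero_le _, ?_⟩
      exact Nat.div_eq_of_lt_le ha hb
  have hsub : blk x.lev x.blk ⊆ range (2 ^ K) := by
    intro c hc
    unfold blk at hc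
    rw [mem_Ico] at hc
    rw [mem_range]
    refine lt_of_lt_of_le hc.2 ?_
    have e : 2 ^ K = 2 ^ (K - x.lev) * 2 ^ x.lev := by
      rw [← pow_add]; congr 1; omega
    rw [e]
    exact Nat.mul_le_mul_right _ (by omega)
  have e1 : ∑ c ∈ range (2 ^ K), G c = ∑ c ∈ blk x.lev x.blk, F * (x.psi c * x.psi c) := by
    rw [← sum_subset hsub]
    · exact sum_congr rfl fun c hc => hG c ((hact c).2 hc)
    · intro c _ hc
      exact hG' c fun h => hc ((hact c).1 h)
  rw [e1, ← mul_sum]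
  refine mul_le_mul_of_nonneg_left ?_ hF
  unfold ip at hunit
  rw [card_blk] at hunit
  have hp' : (0 : ℝ) < ((2 ^ x.lev : ℕ) : ℝ) := by exact_mod_cast hp
  rw [div_le_one hp'] at hunit
  simpa using hunit

/-- iterated submartingale inequality and maximal inequality on one block -/
private theorem dic_doob (F : ℕ → ℕ → ℝ) (hF : ∀ k b, 0 ≤ F k b)
    (hs : ∀ k b, F (k + 1) b ≤ (F k (2 * b) + F k (2 * b + 1)) / 2) (k b : ℕ) :
    2 ^ k * F k b ≤ ∑ c ∈ blk k b, F 0 c := by
  induction k generalizing b with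
  | zero => simp [blk]
  | succ k ih =>
    rw [← dic_blk_union]
    have h1 := ih (2 * b)
    have h2 := ih (2 * b + 1)
    have h3 := hs k b
    have h4 : (0 : ℝ) < 2 ^ k := by positivity
    rw [pow_succ]
    nlinarith

open Classical in
private theorem dic_doob2 (F : ℕ → ℕ → ℝ) (hF : ∀ k b, 0 ≤ F k b)
    (hs : ∀ k b, F (k + 1) b ≤ (F k (2 * b) + F k (2 * b + 1)) / 2) (Γ : ℝ) (hΓ : 0 < Γ)
    (k b : ℕ) :
    Γ * ∑ c ∈ blk k b, (if ∃ j ≤ k, Γ ≤ F j (c / 2 ^ j) then (1 : ℝ) else 0)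
      ≤ ∑ c ∈ blk k b, F 0 c := by
  induction k generalizing b with
  | zero =>
    rw [mul_sum]
    refine sum_le_sum fun c _ => ?_
    split_ifs with h
    · obtain ⟨j, hj, h⟩ := h
      obtain rfl : j = 0 := by omega
      rw [pow_zero, Nat.div_one] at h
      linarith
    · rw [mul_zero]
      exact hF 0 c
  | succ k ih =>
    by_cases hb : Γ ≤ F (k + 1) b
    · refine le_trans ?_ (dic_doob F hF hs (k + 1) b)
      have h1 : ∑ c ∈ blk (k + 1) b, (if ∃ j ≤ k + 1, Γ ≤ F j (c / 2 ^ j) then (1 : ℝ) else 0)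
          ≤ 2 ^ (k + 1) := by
        calc ∑ c ∈ blk (k + 1) b, (if ∃ j ≤ k + 1, Γ ≤ F j (c / 2 ^ j) then (1 : ℝ) else 0)
            ≤ ∑ c ∈ blk (k + 1) b, (1 : ℝ) := by
              refine sum_le_sum fun c _ => ?_
              split_ifs <;> norm_num
          _ = 2 ^ (k + 1) := by
              rw [sum_const, card_blk, nsmul_eq_mul, mul_one]
              push_cast
              rfl
      have h2 : (0 : ℝ) < 2 ^ (k + 1) := by positivity
      calc Γ * ∑ c ∈ blk (k + 1) b, (if ∃ j ≤ k + 1, Γ ≤ F j (c / 2 ^ j) then (1 : ℝ) else 0)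
          ≤ Γ * 2 ^ (k + 1) := mul_le_mul_of_nonneg_left h1 hΓ.le
        _ ≤ 2 ^ (k + 1) * F (k + 1) b := by nlinarith
    · have key : ∀ b', (b' = 2 * b ∨ b' = 2 * b + 1) →
          Γ * ∑ c ∈ blk k b', (if ∃ j ≤ k + 1, Γ ≤ F j (c / 2 ^ j) then (1 : ℝ) else 0)
            ≤ ∑ c ∈ blk k b', F 0 c := by
        intro b' hb'
        refine le_trans (le_of_eq ?_) (ih b')
        congr 1
        refine sum_congr rfl fun c hc => ?_
        have hc1 : c / 2 ^ k = b' := by
          unfold blk at hc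
          rw [mem_Ico] at hc
          exact Nat.div_eq_of_lt_le hc.1 hc.2
        have hc2 : c / 2 ^ (k + 1) = b := by
          rw [pow_succ, ← Nat.div_div_eq_div_mul, hc1]
          omega
        have hiff : (∃ j ≤ k + 1, Γ ≤ F j (c / 2 ^ j)) ↔ (∃ j ≤ k, Γ ≤ F j (c / 2 ^ j)) := by
          constructor
          · rintro ⟨j, hj, h⟩
            rcases Nat.lt_or_ge k j with hk | hk
            · obtain rfl : j = k + 1 := by omega
              rw [hc2] at h
              exact absurd h hb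
            · exact ⟨j, hk, h⟩
          · rintro ⟨j, hj, h⟩
            exact ⟨j, by omega, h⟩
        rw [if_congr hiff rfl rfl]
      rw [← dic_blk_union, ← dic_blk_union, mul_add]
      exact add_le_add (key _ (Or.inl rfl)) (key _ (Or.inr rfl))

/-- `y` is a family of position functions such that `u ↦ y u l` is a bijection for each `l` -/
theorem tr_expect (K : ℕ) (τ : ℝ) (h0 : 0 < τ) (h1 : τ ≤ 1) (D : Dict M)
    (hlev : ∀ i, (D.el i).lev ≤ K)
    (hblk : ∀ i, (D.el i).blk < 2 ^ (K - (D.el i).lev))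
    (hunit : ∀ i, ip (blk (D.el i).lev (D.el i).blk) (D.el i).psi (D.el i).psi ≤ 1)
    (y : A M → ℕ → A M) (hy : ∀ l, Function.Bijective (fun u => y u l)) :
    (∑ c ∈ range (2 ^ K), ∑ u : A M, tr τ D 0 c (y u)) / (2 ^ K * (M : ℝ) ^ 2) ≤
      9 / τ ^ 2 * budget K D := by
  classical
  have hM : (0 : ℝ) < M := by exact_mod_cast NeZero.pos M
  have e1 : ∑ c ∈ range (2 ^ K), ∑ u : A M, tr τ D 0 c (y u)
      = ∑ i, ∑ u : A M, ∑ c ∈ range (2 ^ K),
          ip (blk 0 c) (col τ D 0 c (y u) i) (col τ D 0 c (y u) i) := by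
    unfold tr
    rw [sum_comm]
    rw [sum_congr rfl fun u _ => sum_comm]
    rw [sum_comm]
  have e2 : ∀ i : Fin D.n, ∑ u : A M, ∑ c ∈ range (2 ^ K),
      ip (blk 0 c) (col τ D 0 c (y u) i) (col τ D 0 c (y u) i)
      ≤ 9 / τ ^ 2 * (8 ^ (D.el i).lev * 2 ^ (D.el i).lev) := by
    intro i
    have h3 : ∀ u : A M, ∑ c ∈ range (2 ^ K),
        ip (blk 0 c) (col τ D 0 c (y u) i) (col τ D 0 c (y u) i)
        ≤ Real.exp (-τ * (D.el i).dist (y u)) * 2 ^ (D.el i).lev := by
      intro u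
      have hip : ∀ c, ip (blk 0 c) (col τ D 0 c (y u) i) (col τ D 0 c (y u) i)
          = col τ D 0 c (y u) i c * col τ D 0 c (y u) i c := by
        intro c
        unfold ip
        have hb : blk 0 c = {c} := by
          unfold blk
          simp
        rw [hb]
        simp
      refine dic_times K (D.el i) (hlev i) (hblk i) (hunit i) _ (Real.exp_pos _).le _ ?_ ?_
      · intro c hc
        show ip (blk 0 c) (col τ D 0 c (y u) i) (col τ D 0 c (y u) i) = _
        rw [hip, dic_col_act τ D 0 c (y u) i hc]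
        have : Real.exp (-τ * (D.el i).dist (y u))
            = Real.exp (-(τ / 2) * (D.el i).dist (y u)) * Real.exp (-(τ / 2) * (D.el i).dist (y u)) := by
          rw [← Real.exp_add]
          congr 1
          ring
        rw [this]
        ring
      · intro c hc
        show ip (blk 0 c) (col τ D 0 c (y u) i) (col τ D 0 c (y u) i) = _
        rw [hip, dic_col_inact τ D 0 c (y u) i hc, mul_zero]
    calc ∑ u : A M, ∑ c ∈ range (2 ^ K),
          ip (blk 0 c) (col τ D 0 c (y u) i) (col τ D 0 c (y u) i)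
        ≤ ∑ u : A M, Real.exp (-τ * (D.el i).dist (y u)) * 2 ^ (D.el i).lev :=
          sum_le_sum fun u _ => h3 u
      _ = (∑ u : A M, Real.exp (-τ * (D.el i).dist (y u))) * 2 ^ (D.el i).lev := by
          rw [sum_mul]
      _ ≤ (9 / τ ^ 2 * 8 ^ (D.el i).lev) * 2 ^ (D.el i).lev :=
          mul_le_mul_of_nonneg_right (dic_weight τ h0 h1 (D.el i) y hy) (by positivity)
      _ = _ := by ring
  rw [div_le_iff₀ (by positivity), e1]
  refine (sum_le_sum fun i _ => e2 i).trans (le_of_eq ?_)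
  unfold budget
  rw [← mul_sum, mul_assoc]
  congr 1
  rw [sum_mul]
  refine sum_congr rfl fun i _ => ?_
  have h2 : (2 : ℝ) ^ K ≠ 0 := by positivity
  have h3 : (M : ℝ) ≠ 0 := hM.ne'
  field_simp

theorem tr_doob (K : ℕ) (τ : ℝ) (h0 : 0 < τ) (h1 : τ ≤ 1) (D : Dict M)
    (hlev : ∀ i, (D.el i).lev ≤ K)
    (hblk : ∀ i, (D.el i).blk < 2 ^ (K - (D.el i).lev))
    (hunit : ∀ i, ip (blk (D.el i).lev (D.el i).blk) (D.el i).psi (D.el i).psi ≤ 1)
    (y : A M → ℕ → A M) (hy : ∀ l, Function.Bijective (fun u => y u l)) (Γ : ℝ) (hΓ : 0 < Γ) :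
    (∑ c ∈ range (2 ^ K), ∑ u : A M,
        (if ∃ k ≤ K, Γ ≤ tr τ D k (c / 2 ^ k) (y u) then (1 : ℝ) else 0)) /
      (2 ^ K * (M : ℝ) ^ 2) ≤ 9 / τ ^ 2 * budget K D / Γ := by
  classical
  have hM : (0 : ℝ) < M := by exact_mod_cast NeZero.pos M
  have h1' := tr_expect K τ h0 h1 D hlev hblk hunit y hy
  rw [le_div_iff₀ hΓ]
  refine le_trans ?_ h1'
  rw [div_mul_eq_mul_div]
  refine div_le_div_of_nonneg_right ?_ (by positivity)
  rw [sum_comm, mul_comm, mul_sum]
  rw [sum_comm (s := range (2 ^ K)) (t := (univ : Finset (A M)))]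
  refine sum_le_sum fun u _ => ?_
  have h := dic_doob2 (fun k b => tr τ D k b (y u)) (fun k b => tr_nonneg τ D k b (y u))
    (fun k b => tr_children τ D k b (y u)) Γ hΓ K 0
  have hb : blk K 0 = range (2 ^ K) := by
    unfold blk
    rw [zero_mul, zero_add, one_mul, range_eq_Ico]
  rw [hb] at h
  convert h using 3

theorem pT_bij (l : ℕ) : Function.Bijective (fun u : A M => pT u l) :=
  (ker_coE M l).bijective

theorem pS_bij (l : ℕ) : Function.Bijective (fun v : A M => pS v l) :=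
  ((Equiv.subRight (th M l)).trans (ker_coE M l)).bijective

private theorem dic_az_sub (x d : ZMod M) : |az (x + d) - az x| ≤ az d := by
  rw [abs_le]
  constructor
  · have h := az_add_le (x + d) (-d)
    rw [az_neg, add_neg_cancel_right] at h
    linarith
  · have h := az_add_le x d
    linarith

private theorem dic_choose_le (n : ℕ) : (n.choose 2 : ℝ) ≤ (n : ℝ) ^ 2 := by
  rw [Nat.cast_choose_two]
  have : (0 : ℝ) ≤ n := Nat.cast_nonneg _
  nlinarith

theorem dist_close (x : Elem M) (k c : ℕ) (h : x.act k (c / 2 ^ k)) (u : A M) (z : ℤ)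
    (hz : |z| ≤ 4 ^ k) :
    |x.dist (pS (u + th M c + cs M z)) - x.dist (pT u)| ≤ 3 := by
  obtain ⟨hk, hb⟩ := h
  have hp : 0 < 2 ^ x.lev := Nat.pos_of_ne_zero (by positivity)
  have hcb : c / 2 ^ x.lev = x.blk := by
    rw [← hb, Nat.div_div_eq_div_mul, ← pow_add]
    congr 2
    omega
  have h1 := Nat.div_add_mod c (2 ^ x.lev)
  have h2 := Nat.mod_lt c hp
  rw [hcb] at h1
  set d := c % 2 ^ x.lev with hd
  set l := x.blk * 2 ^ x.lev with hl
  have hc : c = l + d := by rw [hl, mul_comm]; omega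
  have e : pS (u + th M c + cs M z) l = pT u l + (th M d + cs M z) := by
    unfold pS pT
    have e1 : u + th M c + cs M z - th M l = u + (th M (l + d) - th M l) + cs M z := by
      rw [hc]; abel
    rw [e1, co_add, co_add, co_th, co_cs]
    abel
  have hdist : x.dist (pS (u + th M c + cs M z)) - x.dist (pT u)
      = (az ((pT u l - x.loc).1 + (th M d + cs M z).1) - az (pT u l - x.loc).1) / 2 ^ x.lev
        + (az ((pT u l - x.loc).2 + (th M d + cs M z).2) - az (pT u l - x.loc).2) / 4 ^ x.lev := by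
    unfold Elem.dist
    rw [← hl, e]
    have e2 : pT u l + (th M d + cs M z) - x.loc = (pT u l - x.loc) + (th M d + cs M z) := by abel
    rw [e2, Prod.fst_add, Prod.snd_add]
    ring
  have hd1 : (d : ℝ) ≤ 2 ^ x.lev := by exact_mod_cast h2.le
  have hd0 : (0 : ℝ) ≤ d := Nat.cast_nonneg _
  have h4 : (4 : ℝ) ^ x.lev = (2 ^ x.lev) ^ 2 := by
    rw [← pow_mul, mul_comm, pow_mul]; norm_num
  have hz' : |(z : ℝ)| ≤ 4 ^ x.lev := by
    have hz1 : |(z : ℝ)| ≤ 4 ^ k := by exact_mod_cast hz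
    exact hz1.trans (pow_le_pow_right₀ (by norm_num) hk)
  have b1 : az (th M d + cs M z).1 ≤ 2 ^ x.lev := by
    have : (th M d + cs M z).1 = ((d : ℕ) : ZMod M) := by
      unfold th cs
      simp
    rw [this]
    exact (az_nat_le d).trans hd1
  have b2 : az (th M d + cs M z).2 ≤ 2 * 4 ^ x.lev := by
    have : (th M d + cs M z).2 = ((d.choose 2 : ℕ) : ZMod M) + ((z : ℤ) : ZMod M) := by
      unfold th cs
      simp
    rw [this]
    have c1 := az_add_le (((d.choose 2 : ℕ) : ZMod M)) ((z : ℤ) : ZMod M)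
    have c2 := az_nat_le (M := M) (d.choose 2)
    have c3 := az_int_le (M := M) z
    have c4 := dic_choose_le d
    have c5 : (d : ℝ) ^ 2 ≤ 4 ^ x.lev := by
      rw [h4]
      exact pow_le_pow_left₀ hd0 hd1 2
    linarith
  have a1 := dic_az_sub (pT u l - x.loc).1 (th M d + cs M z).1
  have a2 := dic_az_sub (pT u l - x.loc).2 (th M d + cs M z).2
  have q2 : (0 : ℝ) < 2 ^ x.lev := by positivity
  have q4 : (0 : ℝ) < 4 ^ x.lev := by positivity
  rw [hdist]
  refine (abs_add_le _ _).trans ?_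
  rw [abs_div, abs_div, abs_of_pos q2, abs_of_pos q4]
  have r1 : |az ((pT u l - x.loc).1 + (th M d + cs M z).1) - az (pT u l - x.loc).1| / 2 ^ x.lev
      ≤ 1 := by
    rw [div_le_one q2]
    exact a1.trans b1
  have r2 : |az ((pT u l - x.loc).2 + (th M d + cs M z).2) - az (pT u l - x.loc).2| / 4 ^ x.lev
      ≤ 2 := by
    rw [div_le_iff₀ q4]
    exact a2.trans b2
  linarith

/-- ratio of the columns of tied objects -/
theorem col_ratio (τ : ℝ) (h0 : 0 ≤ τ) (h1 : τ ≤ 1 / 10) (D : Dict M) (k c : ℕ) (u : A M) (z : ℤ)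
    (hz : |z| ≤ 4 ^ k) :
    ∃ ρ : Fin D.n → ℝ, (∀ i, |ρ i - 1| ≤ 2 * τ) ∧
      ∀ i t, col τ D k (c / 2 ^ k) (pS (u + th M c + cs M z)) i t =
        ρ i * col τ D k (c / 2 ^ k) (pT u) i t := by
  classical
  refine ⟨fun i => if (D.el i).act k (c / 2 ^ k) then
    Real.exp (-(τ / 2) * ((D.el i).dist (pS (u + th M c + cs M z)) - (D.el i).dist (pT u)))
    else 1, ?_, ?_⟩
  · intro i
    show |(if (D.el i).act k (c / 2 ^ k) then
      Real.exp (-(τ / 2) * ((D.el i).dist (pS (u + th M c + cs M z)) - (D.el i).dist (pT u)))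
      else 1) - 1| ≤ 2 * τ
    split_ifs with h
    · have hd := dist_close (D.el i) k c h u z hz
      set s := (D.el i).dist (pS (u + th M c + cs M z)) - (D.el i).dist (pT u) with hs
      have hx : |-(τ / 2) * s| ≤ 3 / 2 * τ := by
        rw [abs_mul, abs_neg, abs_of_nonneg (by linarith : (0 : ℝ) ≤ τ / 2)]
        nlinarith
      have hx1 : |-(τ / 2) * s| ≤ 1 := by linarith
      have hq := Real.abs_exp_sub_one_sub_id_le hx1
      have hq2 : |Real.exp (-(τ / 2) * s) - 1| ≤ |-(τ / 2) * s| + (-(τ / 2) * s) ^ 2 := by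
        have := abs_add_le (Real.exp (-(τ / 2) * s) - 1 - (-(τ / 2) * s)) (-(τ / 2) * s)
        rw [sub_add_cancel] at this
        linarith
      have hq3 : (-(τ / 2) * s) ^ 2 ≤ (3 / 2 * τ) ^ 2 := by
        rw [← sq_abs]
        exact pow_le_pow_left₀ (abs_nonneg _) hx 2
      nlinarith
    · rw [sub_self, abs_zero]
      linarith
  · intro i t
    show _ = (if (D.el i).act k (c / 2 ^ k) then
      Real.exp (-(τ / 2) * ((D.el i).dist (pS (u + th M c + cs M z)) - (D.el i).dist (pT u)))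
      else 1) * _
    by_cases h : (D.el i).act k (c / 2 ^ k)
    · rw [if_pos h, dic_col_act τ D k _ _ i h, dic_col_act τ D k _ _ i h, ← mul_assoc,
        ← Real.exp_add]
      congr 2
      ring
    · rw [if_neg h, dic_col_inact τ D k _ _ i h, dic_col_inact τ D k _ _ i h, mul_zero]

end

end

end NP2
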