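import Pool.Agent.NP2.Win
import Pool.Agent.NP2.Dic

/-!
# NP2 / Cel : region averages are controlled by cells

`4^K ∣ M`, `k ≤ K`, `i < k`.  The region of `u` at the block `(k,b)`: `v = u + th(l+c) + cs z`,
`l = b 2^k`, `c < 2^k`, `|z| < 4^i`; `pS v l = co l u + (c, c(c-1)/2 + z)`.  The map `(c,z) ↦ v` is
injective (`2^k ≤ M`, `2·4^i ≤ 4^k ≤ M`).  The first coordinates lie in an interval of `2^k`
consecutive residues: at most two cells; the second ones in an interval of length `3·4^k`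
around: at most four cells (`2^k ∣ M`, `4^k ∣ M`, so there are no short cells).  Each `v` has weight at
most `1/(2^k 4^i)` in the average.  Mirror version for `locS` with `pT`.
-/

namespace NP2
open Finset

noncomputable section

variable {M : ℕ} [NeZero M]

/-- the cell coordinate of `a + s`, `s < n`, takes at most two values -/
private theorem cel_val (n : ℕ) (hn : 0 < n) (hd : n ∣ M) (a : ZMod M) (s : ℕ) (hs : s < n) :
    (a + (s : ZMod M)).val / n = (a.val / n) % (M / n) ∨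
      (a + (s : ZMod M)).val / n = (a.val / n + 1) % (M / n) := by
  obtain ⟨m, hm⟩ := hd
  have h1 : (a + (s : ZMod M)).val = (a.val + s) % M := by
    rw [ZMod.val_add, ZMod.val_natCast, Nat.add_mod_mod]
  have h2 : M / n = m := by
    rw [hm]; exact Nat.mul_div_cancel_left m hn
  rw [h1, h2]
  have h3 : ∀ x : ℕ, x % M / n = (x / n) % m := by
    intro x
    rw [hm]; exact Nat.mod_mul_right_div_self _ _ _
  rw [h3]
  have h4 : (a.val + s) / n = a.val / n ∨ (a.val + s) / n = a.val / n + 1 := by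
    have h5 : a.val / n ≤ (a.val + s) / n := Nat.div_le_div_right (Nat.le_add_right _ _)
    have h6 : (a.val + s) / n ≤ a.val / n + 1 := by
      calc (a.val + s) / n ≤ (a.val + n) / n := Nat.div_le_div_right (by omega)
        _ = a.val / n + 1 := Nat.add_div_right _ hn
    omega
  rcases h4 with h | h
  · left; rw [h]
  · right; rw [h]

open Classical in
/-- abstract form: an injective family whose positions lie in a box of one cell size meets at most
four cells -/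
private theorem cel_abs {ι : Type*} (K k : ℕ) (hM : 4 ^ K ∣ M) (hk : k ≤ K)
    (h : A M → ℝ) (h0 : ∀ v, 0 ≤ h v) (X : ℝ) (P : A M → A M)
    (hX : ∀ q : ℕ × ℕ, ∑ v : A M, (if cell k (P v) = q then h v else 0) ≤ X)
    (S : Finset ι) (g : ι → A M) (hg : ∀ x ∈ S, ∀ y ∈ S, g x = g y → x = y)
    (a1 a2 : ZMod M) (s t : ι → ℕ) (hs : ∀ x ∈ S, s x < 2 ^ k) (ht : ∀ x ∈ S, t x < 4 ^ k)
    (hp : ∀ x ∈ S, P (g x) = (a1 + (s x : ZMod M), a2 + (t x : ZMod M))) :
    ∑ x ∈ S, h (g x) ≤ 4 * X := by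
  have hX0 : 0 ≤ X := by
    refine le_trans (Finset.sum_nonneg fun v _ => ?_) (hX (0, 0))
    split_ifs
    · exact h0 v
    · exact le_rfl
  have hd4 : 4 ^ k ∣ M := dvd_trans (pow_dvd_pow 4 hk) hM
  have hd2 : 2 ^ k ∣ M := by
    refine dvd_trans ?_ hd4
    have : (4 : ℕ) ^ k = 2 ^ k * 2 ^ k := by
      rw [← mul_pow]; norm_num
    rw [this]; exact dvd_mul_right _ _
  set Q1 : Finset ℕ := {(a1.val / 2 ^ k) % (M / 2 ^ k), (a1.val / 2 ^ k + 1) % (M / 2 ^ k)} with hQ1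
  set Q2 : Finset ℕ := {(a2.val / 4 ^ k) % (M / 4 ^ k), (a2.val / 4 ^ k + 1) % (M / 4 ^ k)} with hQ2
  have hc1 : Q1.card ≤ 2 := Finset.card_le_two
  have hc2 : Q2.card ≤ 2 := Finset.card_le_two
  have hcell : ∀ x ∈ S, cell k (P (g x)) ∈ Q1 ×ˢ Q2 := by
    intro x hx
    rw [hp x hx, Finset.mem_product]
    unfold cell
    constructor
    · rw [hQ1, Finset.mem_insert, Finset.mem_singleton]
      exact cel_val (2 ^ k) (by positivity) hd2 a1 (s x) (hs x hx)
    · rw [hQ2, Finset.mem_insert, Finset.mem_singleton]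
      exact cel_val (4 ^ k) (by positivity) hd4 a2 (t x) (ht x hx)
  calc ∑ x ∈ S, h (g x)
      = ∑ v ∈ S.image g, h v := by
        rw [Finset.sum_image hg]
    _ ≤ ∑ v ∈ S.image g, ∑ q ∈ Q1 ×ˢ Q2, (if cell k (P v) = q then h v else 0) := by
        refine Finset.sum_le_sum fun v hv => ?_
        obtain ⟨x, hx, rfl⟩ := Finset.mem_image.1 hv
        rw [Finset.sum_ite_eq, if_pos (hcell x hx)]
    _ ≤ ∑ v : A M, ∑ q ∈ Q1 ×ˢ Q2, (if cell k (P v) = q then h v else 0) := by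
        refine Finset.sum_le_sum_of_subset_of_nonneg (Finset.subset_univ _) fun v _ _ => ?_
        refine Finset.sum_nonneg fun q _ => ?_
        split_ifs
        · exact h0 v
        · exact le_rfl
    _ = ∑ q ∈ Q1 ×ˢ Q2, ∑ v : A M, (if cell k (P v) = q then h v else 0) := Finset.sum_comm
    _ ≤ ∑ q ∈ Q1 ×ˢ Q2, X := Finset.sum_le_sum fun q _ => hX q
    _ = ((Q1.card * Q2.card : ℕ) : ℝ) * X := by
        rw [Finset.sum_const, Finset.card_product, nsmul_eq_mul]
    _ ≤ 4 * X := by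
        refine mul_le_mul_of_nonneg_right ?_ hX0
        have : Q1.card * Q2.card ≤ 2 * 2 := Nat.mul_le_mul hc1 hc2
        exact_mod_cast this

omit [NeZero M] in
private theorem cel_choose (l c : ℕ) :
    (((l + c).choose 2 : ℕ) : ZMod M) = ((l.choose 2 : ℕ) : ZMod M) + ((c.choose 2 : ℕ) : ZMod M)
      + (l : ZMod M) * (c : ZMod M) := by
  have h : (l + c).choose 2 = l.choose 2 + c.choose 2 + l * c := by
    induction c with
    | zero => simp
    | succ c ih =>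
      have h1 : (l + (c + 1)).choose 2 = (l + c).choose 2 + (l + c) := by
        have := Nat.choose_succ_succ (l + c) 1
        rw [Nat.choose_one_right] at this
        rw [← add_assoc, this]; ring
      have h2 : (c + 1).choose 2 = c.choose 2 + c := by
        have := Nat.choose_succ_succ c 1
        rw [Nat.choose_one_right] at this
        rw [this]; ring
      rw [h1, h2, ih]; ring
  rw [h]; push_cast; ring

private theorem cel_choose_lt (k i c j : ℕ) (hi : i < k) (hc : c < 2 ^ k) (hj : j < 4 ^ i) :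
    c.choose 2 + j < 4 ^ k := by
  have h1 : 2 * c.choose 2 ≤ c * c := by
    rw [Nat.choose_two_right]
    calc 2 * (c * (c - 1) / 2) ≤ c * (c - 1) := Nat.mul_div_le _ _
      _ ≤ c * c := Nat.mul_le_mul_left _ (Nat.sub_le _ _)
  have h2 : c * c < 4 ^ k := by
    have : (4 : ℕ) ^ k = 2 ^ k * 2 ^ k := by rw [← mul_pow]; norm_num
    rw [this]
    exact Nat.mul_lt_mul'' hc hc
  have h3 : 4 * 4 ^ i ≤ 4 ^ k := by
    rw [← pow_succ']
    exact Nat.pow_le_pow_right (by norm_num) hi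
  omega

omit [NeZero M] in
private theorem cel_inj_nat (n : ℕ) (hn : n ≤ M) (x y : ℕ) (hx : x < n) (hy : y < n)
    (h : (x : ZMod M) = (y : ZMod M)) : x = y := by
  rw [ZMod.natCast_eq_natCast_iff'] at h
  rwa [Nat.mod_eq_of_lt (by omega), Nat.mod_eq_of_lt (by omega)] at h

private theorem cel_pS (l c : ℕ) (u : A M) (j j' : ℕ) :
    pS (u + th M (l + c) + cs M ((j : ℤ) - j')) l
      = ((co M l u).1 + (c : ZMod M),
          ((co M l u).2 - (j' : ZMod M)) + ((c.choose 2 + j : ℕ) : ZMod M)) := by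
  unfold pS co th cs
  ext
  · simp only [Prod.fst_add, Prod.fst_sub]
    push_cast
    ring
  · simp only [Prod.fst_add, Prod.fst_sub, Prod.snd_add, Prod.snd_sub]
    rw [cel_choose]
    push_cast
    ring

private theorem cel_pT (l c : ℕ) (v : A M) (j j' : ℕ) :
    pT (v - th M (l + c) - cs M ((j : ℤ) - j')) l
      = ((pS v l).1 - (c : ZMod M),
          ((pS v l).2 + (j' : ZMod M)) - ((c.choose 2 + j : ℕ) : ZMod M)) := by
  unfold pT pS co th cs
  ext
  · simp only [Prod.fst_sub]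
    push_cast
    ring
  · simp only [Prod.fst_sub, Prod.snd_sub]
    rw [cel_choose]
    push_cast
    ring

private theorem cel_M (K k : ℕ) (hM : 4 ^ K ∣ M) (hk : k ≤ K) : 4 ^ k ≤ M :=
  le_trans (Nat.pow_le_pow_right (by norm_num) hk)
    (Nat.le_of_dvd (Nat.pos_of_ne_zero (NeZero.ne M)) hM)

private theorem cel_24 (k : ℕ) : (2 : ℕ) ^ k ≤ 4 ^ k :=
  Nat.pow_le_pow_left (by norm_num) k

private theorem cel_fin (k i : ℕ) (X B : ℝ) (hX0 : 0 ≤ X) (hB : B ≤ (4 : ℝ) ^ i * (4 * X)) :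
    B / (2 ^ k * ((4 : ℝ) ^ i) ^ 2) ≤ 8 * X / (2 ^ k * 4 ^ i) := by
  have h2 : (0 : ℝ) < 2 ^ k := by positivity
  have h4 : (0 : ℝ) < 4 ^ i := by positivity
  rw [div_le_div_iff₀ (by positivity) (by positivity)]
  calc B * (2 ^ k * 4 ^ i) ≤ ((4 : ℝ) ^ i * (4 * X)) * (2 ^ k * 4 ^ i) :=
        mul_le_mul_of_nonneg_right hB (by positivity)
    _ = 4 * (X * (2 ^ k * ((4 : ℝ) ^ i) ^ 2)) := by ring
    _ ≤ 8 * (X * (2 ^ k * ((4 : ℝ) ^ i) ^ 2)) := by
        have : 0 ≤ X * (2 ^ k * ((4 : ℝ) ^ i) ^ 2) := by positivity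
        linarith
    _ = 8 * X * (2 ^ k * ((4 : ℝ) ^ i) ^ 2) := by ring

open Classical in
private theorem cel_X0 (k : ℕ) (h : A M → ℝ) (h0 : ∀ v, 0 ≤ h v) (X : ℝ) (P : A M → A M)
    (hX : ∀ q : ℕ × ℕ, ∑ v : A M, (if cell k (P v) = q then h v else 0) ≤ X) : 0 ≤ X := by
  refine le_trans (Finset.sum_nonneg fun v _ => ?_) (hX (0, 0))
  split_ifs
  · exact h0 v
  · exact le_rfl

/-- the sum over `c, j, j'` from the sums over `c, j` -/
private theorem cel_sum (k i : ℕ) (F : ℕ → ℕ → ℕ → ℝ) (Y : ℝ)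
    (hF : ∀ j' ∈ range (4 ^ i), ∑ p ∈ range (2 ^ k) ×ˢ range (4 ^ i), F p.1 p.2 j' ≤ Y) :
    ∑ c ∈ range (2 ^ k), ∑ j ∈ range (4 ^ i), ∑ j' ∈ range (4 ^ i), F c j j' ≤
      (4 : ℝ) ^ i * Y := by
  have h1 : ∑ c ∈ range (2 ^ k), ∑ j ∈ range (4 ^ i), ∑ j' ∈ range (4 ^ i), F c j j'
      = ∑ j' ∈ range (4 ^ i), ∑ p ∈ range (2 ^ k) ×ˢ range (4 ^ i), F p.1 p.2 j' := by
    have h2 : ∀ j' ∈ range (4 ^ i), ∑ p ∈ range (2 ^ k) ×ˢ range (4 ^ i), F p.1 p.2 j'
        = ∑ c ∈ range (2 ^ k), ∑ j ∈ range (4 ^ i), F c j j' := fun j' _ =>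
      Finset.sum_product _ _ _
    have h3 : ∀ c ∈ range (2 ^ k), ∑ j ∈ range (4 ^ i), ∑ j' ∈ range (4 ^ i), F c j j'
        = ∑ j' ∈ range (4 ^ i), ∑ j ∈ range (4 ^ i), F c j j' := fun c _ => Finset.sum_comm
    rw [Finset.sum_congr rfl h2, Finset.sum_congr rfl h3]
    exact Finset.sum_comm
  rw [h1]
  refine le_trans (Finset.sum_le_sum hF) ?_
  rw [Finset.sum_const, Finset.card_range, nsmul_eq_mul]
  push_cast
  exact le_rfl

open Classical in
theorem locT_le_cells (K k i b : ℕ) (hM : 4 ^ K ∣ M) (hk : k ≤ K) (hi : i < k)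
    (h : A M → ℝ) (h0 : ∀ v, 0 ≤ h v) (X : ℝ)
    (hX : ∀ q : ℕ × ℕ, ∑ v : A M, (if cell k (pS v (b * 2 ^ k)) = q then h v else 0) ≤ X)
    (u : A M) : locT k i b h u ≤ 8 * X / (2 ^ k * 4 ^ i) := by
  have hM4 := cel_M K k hM hk
  unfold locT
  refine cel_fin k i X _ (cel_X0 k h h0 X (fun v => pS v (b * 2 ^ k)) hX) ?_
  refine cel_sum k i (fun c j j' => h (u + th M (b * 2 ^ k + c) + cs M ((j : ℤ) - j'))) _ ?_
  intro j' _
  refine cel_abs K k hM hk h h0 X (fun v => pS v (b * 2 ^ k)) hX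
    (range (2 ^ k) ×ˢ range (4 ^ i))
    (fun p => u + th M (b * 2 ^ k + p.1) + cs M ((p.2 : ℤ) - j')) ?_
    (co M (b * 2 ^ k) u).1 ((co M (b * 2 ^ k) u).2 - (j' : ZMod M))
    (fun p => p.1) (fun p => p.1.choose 2 + p.2) ?_ ?_ ?_
  · intro x hx y hy hxy
    rw [Finset.mem_product, Finset.mem_range, Finset.mem_range] at hx hy
    have h1 := congrArg (fun v => pS v (b * 2 ^ k)) hxy
    simp only [cel_pS, Prod.mk.injEq, add_right_inj] at h1
    obtain ⟨h1, h2⟩ := h1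
    have e1 : x.1 = y.1 := cel_inj_nat (2 ^ k) (le_trans (cel_24 k) hM4) _ _ hx.1 hy.1 h1
    have e2 := cel_inj_nat (4 ^ k) hM4 _ _ (cel_choose_lt k i _ _ hi hx.1 hx.2)
      (cel_choose_lt k i _ _ hi hy.1 hy.2) h2
    rw [e1] at e2
    exact Prod.ext e1 (by omega)
  · intro x hx
    rw [Finset.mem_product, Finset.mem_range, Finset.mem_range] at hx
    exact hx.1
  · intro x hx
    rw [Finset.mem_product, Finset.mem_range, Finset.mem_range] at hx
    exact cel_choose_lt k i _ _ hi hx.1 hx.2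
  · intro x _
    exact cel_pS _ _ _ _ _

open Classical in
theorem locS_le_cells (K k i b : ℕ) (hM : 4 ^ K ∣ M) (hk : k ≤ K) (hi : i < k)
    (h : A M → ℝ) (h0 : ∀ v, 0 ≤ h v) (X : ℝ)
    (hX : ∀ q : ℕ × ℕ, ∑ u : A M, (if cell k (pT u (b * 2 ^ k)) = q then h u else 0) ≤ X)
    (v : A M) : locS k i b h v ≤ 8 * X / (2 ^ k * 4 ^ i) := by
  have hM4 := cel_M K k hM hk
  unfold locS
  refine cel_fin k i X _ (cel_X0 k h h0 X (fun v => pT v (b * 2 ^ k)) hX) ?_
  refine cel_sum k i (fun c j j' => h (v - th M (b * 2 ^ k + c) - cs M ((j : ℤ) - j'))) _ ?_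
  intro j' _
  refine cel_abs K k hM hk h h0 X (fun v => pT v (b * 2 ^ k)) hX
    (range (2 ^ k) ×ˢ range (4 ^ i))
    (fun p => v - th M (b * 2 ^ k + p.1) - cs M ((p.2 : ℤ) - j')) ?_
    ((pS v (b * 2 ^ k)).1 - ((2 ^ k - 1 : ℕ) : ZMod M))
    ((pS v (b * 2 ^ k)).2 + (j' : ZMod M) - ((4 ^ k - 1 : ℕ) : ZMod M))
    (fun p => 2 ^ k - 1 - p.1) (fun p => 4 ^ k - 1 - (p.1.choose 2 + p.2)) ?_ ?_ ?_
  · intro x hx y hy hxy
    rw [Finset.mem_product, Finset.mem_range, Finset.mem_range] at hx hy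
    have h1 := congrArg (fun v => pT v (b * 2 ^ k)) hxy
    simp only [cel_pT, Prod.mk.injEq, sub_right_inj] at h1
    obtain ⟨h1, h2⟩ := h1
    have e1 : x.1 = y.1 := cel_inj_nat (2 ^ k) (le_trans (cel_24 k) hM4) _ _ hx.1 hy.1 h1
    have e2 := cel_inj_nat (4 ^ k) hM4 _ _ (cel_choose_lt k i _ _ hi hx.1 hx.2)
      (cel_choose_lt k i _ _ hi hy.1 hy.2) h2
    rw [e1] at e2
    exact Prod.ext e1 (by omega)
  · intro x _
    have : 0 < 2 ^ k := by positivity
    show 2 ^ k - 1 - x.1 < 2 ^ k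
    omega
  · intro x _
    have : 0 < 4 ^ k := by positivity
    show 4 ^ k - 1 - (x.1.choose 2 + x.2) < 4 ^ k
    omega
  · intro x hx
    rw [Finset.mem_product, Finset.mem_range, Finset.mem_range] at hx
    show pT (v - th M (b * 2 ^ k + x.1) - cs M ((x.2 : ℤ) - j')) (b * 2 ^ k) = _
    rw [cel_pT]
    have hlt := cel_choose_lt k i _ _ hi hx.1 hx.2
    have h1 : ((2 ^ k - 1 : ℕ) : ZMod M) = ((2 ^ k - 1 - x.1 : ℕ) : ZMod M) + (x.1 : ZMod M) := by
      rw [← Nat.cast_add]; congr 1; omega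
    have h2 : ((4 ^ k - 1 : ℕ) : ZMod M)
        = ((4 ^ k - 1 - (x.1.choose 2 + x.2) : ℕ) : ZMod M)
          + ((x.1.choose 2 + x.2 : ℕ) : ZMod M) := by
      rw [← Nat.cast_add]; congr 1; omega
    rw [h1, h2]
    ext
    · show _ = _
      ring
    · show _ = _
      ring

private theorem cel_abs_lt (i j j' : ℕ) (hj : j ∈ range (4 ^ i)) (hj' : j' ∈ range (4 ^ i)) :
    |(j : ℤ) - j'| < 4 ^ i := by
  rw [Finset.mem_range] at hj hj'
  have h1 : (j : ℤ) < 4 ^ i := by exact_mod_cast hj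
  have h2 : (j' : ℤ) < 4 ^ i := by exact_mod_cast hj'
  rw [abs_lt]
  constructor
  · have : (0 : ℤ) ≤ j := Int.natCast_nonneg j
    linarith
  · have : (0 : ℤ) ≤ j' := Int.natCast_nonneg j'
    linarith

/-- `locT` is a probability average -/
theorem locT_mono (k i b : ℕ) (h h' : A M → ℝ) (u : A M)
    (hh : ∀ c < 2 ^ k, ∀ z : ℤ, |z| < 4 ^ i →
      h (u + th M (b * 2 ^ k + c) + cs M z) ≤ h' (u + th M (b * 2 ^ k + c) + cs M z)) :
    locT k i b h u ≤ locT k i b h' u := by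
  unfold locT
  refine div_le_div_of_nonneg_right ?_ (by positivity)
  refine Finset.sum_le_sum fun c hc => Finset.sum_le_sum fun j hj =>
    Finset.sum_le_sum fun j' hj' => ?_
  exact hh c (Finset.mem_range.1 hc) _ (cel_abs_lt i j j' hj hj')

theorem locS_mono (k i b : ℕ) (h h' : A M → ℝ) (v : A M)
    (hh : ∀ c < 2 ^ k, ∀ z : ℤ, |z| < 4 ^ i →
      h (v - th M (b * 2 ^ k + c) - cs M z) ≤ h' (v - th M (b * 2 ^ k + c) - cs M z)) :
    locS k i b h v ≤ locS k i b h' v := by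
  unfold locS
  refine div_le_div_of_nonneg_right ?_ (by positivity)
  refine Finset.sum_le_sum fun c hc => Finset.sum_le_sum fun j hj =>
    Finset.sum_le_sum fun j' hj' => ?_
  exact hh c (Finset.mem_range.1 hc) _ (cel_abs_lt i j j' hj hj')

private theorem cel_const (k i : ℕ) (a : ℝ) :
    (∑ _c ∈ range (2 ^ k), ∑ _j ∈ range (4 ^ i), ∑ _j' ∈ range (4 ^ i), a)
      / (2 ^ k * ((4 : ℝ) ^ i) ^ 2) = a := by
  simp only [Finset.sum_const, Finset.card_range, nsmul_eq_mul]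
  push_cast
  have h2 : (2 : ℝ) ^ k ≠ 0 := by positivity
  have h4 : (4 : ℝ) ^ i ≠ 0 := by positivity
  field_simp

theorem locT_const (k i b : ℕ) (a : ℝ) (u : A M) : locT k i b (fun _ => a) u = a := by
  unfold locT
  exact cel_const k i a

theorem locT_add (k i b : ℕ) (h h' : A M → ℝ) (u : A M) :
    locT k i b (fun v => h v + h' v) u = locT k i b h u + locT k i b h' u := by
  unfold locT
  simp only [Finset.sum_add_distrib]
  exact add_div _ _ _

theorem locS_const (k i b : ℕ) (a : ℝ) (v : A M) : locS k i b (fun _ => a) v = a := by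
  unfold locS
  exact cel_const k i a

theorem locS_add (k i b : ℕ) (h h' : A M → ℝ) (v : A M) :
    locS k i b (fun v => h v + h' v) v = locS k i b h v + locS k i b h' v := by
  unfold locS
  simp only [Finset.sum_add_distrib]
  exact add_div _ _ _

end

end NP2
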