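import Pool.Agent.NP2.Defs

/-!
# NP2 / Proc : processes, accumulation, fluxes (definitions and elementary lemmas)

A process: `ℕ → ℕ → A M → E` (level, block index, object).  `acc K p k b u` is the sum of the
values of `p` at the levels `w ∈ [k, K]` at the ancestors `b / 2^(w-k)` of the block `(k,b)`.
-/

namespace NP2
open Finset

noncomputable section

variable {M : ℕ} [NeZero M] {E : Type*} [NormedAddCommGroup E] [InnerProductSpace ℝ E]

/-- accumulation from the top level `K` down to level `k` -/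
def acc {F : Type*} [AddCommMonoid F] (K : ℕ) (p : ℕ → ℕ → A M → F) : ℕ → ℕ → A M → F :=
  fun k b u => ∑ w ∈ Icc k K, p w (b / 2 ^ (w - k)) u

/-- rough part of a function at one level -/
def ro (Q i : ℕ) (g : ℕ → A M → E) : ℕ → A M → E := fun b v => g b v - sm Q i (g b) v

/-- flux of `p` against the process `V` (rough part) -/
def FT (K k1 Q j0 : ℕ) (p V : ℕ → ℕ → A M → E) : ℝ :=
  ∑ k ∈ Icc k1 K, tp K k (p k) (ro Q (k - j0) (V k))

/-- flux of the increments `q` against the process `S`, taken one level above (rough part) -/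
def FS (K k1 Q j0 : ℕ) (S q : ℕ → ℕ → A M → E) : ℝ :=
  ∑ k ∈ Icc k1 K, tp K k (up (S (k + 1))) (ro Q (k - j0) (q k))

/-- average norm at level `k` -/
def nv (K k : ℕ) (V : ℕ → ℕ → A M → E) : ℝ := ex K (fun c u => ‖V k (c / 2 ^ k) u‖)

/-- total mass of a process over the levels `[k1, K]` -/
def tot (K k1 : ℕ) (p : ℕ → ℕ → A M → E) : ℝ := ∑ k ∈ Icc k1 K, nv K k p

theorem ex_nonneg (K : ℕ) (f : ℕ → A M → ℝ) (h : ∀ c u, 0 ≤ f c u) : 0 ≤ ex K f :=
  div_nonneg (sum_nonneg fun c _ => sum_nonneg fun u _ => h c u) (by positivity)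

theorem ex_mono (K : ℕ) (f g : ℕ → A M → ℝ) (h : ∀ c < 2 ^ K, ∀ u, f c u ≤ g c u) :
    ex K f ≤ ex K g :=
  div_le_div_of_nonneg_right
    (sum_le_sum fun c hc => sum_le_sum fun u _ => h c (mem_range.1 hc) u) (by positivity)

theorem ex_add (K : ℕ) (f g : ℕ → A M → ℝ) :
    ex K (fun c u => f c u + g c u) = ex K f + ex K g := by
  unfold ex
  rw [← add_div]
  congr 1
  rw [← sum_add_distrib]
  exact sum_congr rfl fun c _ => sum_add_distrib

theorem ex_smul (K : ℕ) (a : ℝ) (f : ℕ → A M → ℝ) :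
    ex K (fun c u => a * f c u) = a * ex K f := by
  unfold ex
  rw [← mul_div_assoc]
  congr 1
  rw [mul_sum]
  exact sum_congr rfl fun c _ => by rw [mul_sum]

theorem ex_const (K : ℕ) (a : ℝ) : ex K (fun _ (_ : A M) => a) = a := by
  have hM : (M : ℝ) ≠ 0 := Nat.cast_ne_zero.2 (NeZero.ne M)
  unfold ex
  rw [sum_const, sum_const, card_univ, card_range, Fintype.card_prod, ZMod.card]
  simp only [nsmul_eq_mul]
  push_cast
  field_simp

theorem ex_sum {ι : Type*} (s : Finset ι) (K : ℕ) (f : ι → ℕ → A M → ℝ) :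
    ex K (fun c u => ∑ i ∈ s, f i c u) = ∑ i ∈ s, ex K (f i) := by
  unfold ex
  rw [← sum_div]
  congr 1
  have h : ∀ c ∈ range (2 ^ K), ∑ u : A M, ∑ i ∈ s, f i c u = ∑ i ∈ s, ∑ u : A M, f i c u :=
    fun c _ => sum_comm
  rw [sum_congr rfl h, sum_comm]

/-- the object may be shifted, by a shift depending on the time -/
theorem ex_shift (K : ℕ) (f : ℕ → A M → ℝ) (a : ℕ → A M) :
    ex K (fun c u => f c (u + a c)) = ex K f := by
  unfold ex
  congr 1
  exact sum_congr rfl fun c _ => Fintype.sum_equiv (Equiv.addRight (a c)) _ _ fun u => rfl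

/-- Cauchy-Schwarz -/
theorem ex_cs (K : ℕ) (f g : ℕ → A M → ℝ) :
    |ex K (fun c u => f c u * g c u)| ≤
      Real.sqrt (ex K (fun c u => f c u ^ 2)) * Real.sqrt (ex K (fun c u => g c u ^ 2)) := by
  have hM : (0 : ℝ) < M := by exact_mod_cast Nat.pos_of_ne_zero (NeZero.ne M)
  have hpos : (0 : ℝ) < 2 ^ K * (M : ℝ) ^ 2 := by positivity
  rw [← Real.sqrt_mul (ex_nonneg K _ fun c u => sq_nonneg _)]
  refine Real.abs_le_sqrt ?_
  unfold ex
  rw [div_mul_div_comm, div_pow, pow_two (2 ^ K * (M : ℝ) ^ 2)]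
  refine div_le_div_of_nonneg_right ?_ (by positivity)
  have h := sum_mul_sq_le_sq_mul_sq (range (2 ^ K) ×ˢ (univ : Finset (A M)))
    (fun p => f p.1 p.2) (fun p => g p.1 p.2)
  rw [sum_product, sum_product, sum_product] at h
  exact h

theorem acc_top {F : Type*} [AddCommMonoid F] (K : ℕ) (p : ℕ → ℕ → A M → F) (b : ℕ) (u : A M) :
    acc K p (K + 1) b u = 0 := by
  unfold acc
  rw [Icc_eq_empty (by omega), sum_empty]

theorem acc_step {F : Type*} [AddCommMonoid F] (K k : ℕ) (hk : k ≤ K) (p : ℕ → ℕ → A M → F)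
    (b : ℕ) (u : A M) : acc K p k b u = p k b u + acc K p (k + 1) (b / 2) u := by
  unfold acc
  have h : Icc k K = insert k (Icc (k + 1) K) := by
    ext w
    simp only [mem_Icc, mem_insert]
    omega
  rw [h, sum_insert (by simp)]
  congr 1
  · simp
  · refine sum_congr rfl fun w hw => ?_
    rw [mem_Icc] at hw
    congr 1
    rw [Nat.div_div_eq_div_mul, ← pow_succ', show w - k = w - (k + 1) + 1 by omega]

/-- on the path of `c` -/
theorem acc_path {F : Type*} [AddCommMonoid F] (K k : ℕ) (p : ℕ → ℕ → A M → F) (c : ℕ)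
    (u : A M) : acc K p k (c / 2 ^ k) u = ∑ w ∈ Icc k K, p w (c / 2 ^ w) u := by
  unfold acc
  refine sum_congr rfl fun w hw => ?_
  rw [mem_Icc] at hw
  congr 1
  rw [Nat.div_div_eq_div_mul, ← pow_add, show k + (w - k) = w by omega]

theorem acc_add {F : Type*} [AddCommMonoid F] (K : ℕ) (p q : ℕ → ℕ → A M → F) (k b : ℕ)
    (u : A M) :
    acc K (fun k b u => p k b u + q k b u) k b u = acc K p k b u + acc K q k b u := by
  unfold acc
  exact sum_add_distrib

/-- a process is the accumulation of its increments -/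
theorem acc_incr (K : ℕ) (V : ℕ → ℕ → A M → E) (hV : ∀ b u, V (K + 1) b u = 0) (k : ℕ)
    (hk : k ≤ K) (b : ℕ) (u : A M) :
    acc K (fun k b u => V k b u - V (k + 1) (b / 2) u) k b u = V k b u := by
  induction' hn : K - k with n ih generalizing k b
  · obtain rfl : k = K := by omega
    rw [acc_step k k le_rfl, acc_top, hV, sub_zero, add_zero]
  · rw [acc_step K k hk, ih (k + 1) (by omega) (b / 2) (by omega)]
    abel

theorem up_path (f : ℕ → A M → E) (k c : ℕ) (u : A M) :
    up f (c / 2 ^ k) u = f (c / 2 ^ (k + 1)) u := by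
  unfold up
  rw [Nat.div_div_eq_div_mul, ← pow_succ]

theorem tp_up (K k : ℕ) (f g : ℕ → A M → E) : tp K k (up f) (up g) = tp K (k + 1) f g := by
  unfold tp
  simp only [up_path]

theorem tp_add_left (K k : ℕ) (f f' g : ℕ → A M → E) :
    tp K k (fun b u => f b u + f' b u) g = tp K k f g + tp K k f' g := by
  unfold tp
  rw [← ex_add]
  simp only [inner_add_left]

theorem tp_add_right (K k : ℕ) (f g g' : ℕ → A M → E) :
    tp K k f (fun b u => g b u + g' b u) = tp K k f g + tp K k f g' := by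
  unfold tp
  rw [← ex_add]
  simp only [inner_add_right]

theorem tp_sub_right (K k : ℕ) (f g g' : ℕ → A M → E) :
    tp K k f (fun b u => g b u - g' b u) = tp K k f g - tp K k f g' := by
  have h := tp_add_right K k f (fun b u => g b u - g' b u) g'
  simp only [sub_add_cancel] at h
  rw [show tp K k f g = tp K k f (fun b u => g b u) from rfl, h]
  ring

/-- a process at level `k` is bounded on average by the total mass of its increments -/
theorem nv_acc_le (K k k1 : ℕ) (hk : k1 ≤ k) (p : ℕ → ℕ → A M → E) :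
    nv K k (acc K p) ≤ tot K k1 p := by
  unfold nv tot
  have h1 : ex K (fun c u => ‖acc K p k (c / 2 ^ k) u‖) ≤
      ex K (fun c u => ∑ w ∈ Icc k K, ‖p w (c / 2 ^ w) u‖) := by
    refine ex_mono K _ _ fun c _ u => ?_
    rw [acc_path]
    exact norm_sum_le _ _
  refine h1.trans ?_
  rw [ex_sum]
  exact sum_le_sum_of_subset_of_nonneg (Icc_subset_Icc_left hk) fun w _ _ =>
    ex_nonneg K _ fun c u => norm_nonneg _

end

end NP2
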