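import Pool.Agent.NP2.Ker
import Pool.Agent.NP2.Proc

/-!
# NP2 / Clk : the local clock, definition, existence, monotonicity

`mT, mS` are the (real valued, in `[0,1]`) move indicators of the `T`- and `S`-objects.
The clock `D k b u` (of `T`-objects) is defined downwards in the level `k`; the clock of an
`S`-object `v` at the block `(k,b)` is `DS D k b v = D k b (v - th (b 2^k))`.

`rT, rS` : recent moves (all moves at level `k`, and the moves at levels `w > k` since which the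
clock has advanced by at most `4` at level `k+1`); `bb` : recent moves of `u` and of the
`S`-objects tied to `u` in the block; `LL` its average; `cc = min 1 (LL/κ - 1)^+`.

Existence: by induction on `n` there is `D` with `D (K+1) = 0` satisfying the step equation for
all `k ≤ K` with `K < k + n`; the right side at level `k` only involves `D` at levels `> k`, so the
next level is obtained by overriding `D` at one level.
-/

namespace NP2
open Finset

noncomputable section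

variable {M : ℕ} [NeZero M]

/-- recent moves of a `T`-object -/
def rT (K : ℕ) (mT D : ℕ → ℕ → A M → ℝ) (k b : ℕ) (u : A M) : ℝ :=
  mT k b u + ∑ w ∈ Icc (k + 1) K,
    if D (k + 1) (b / 2) u - D w (b / 2 ^ (w - k)) u ≤ 4 then mT w (b / 2 ^ (w - k)) u else 0

/-- the clock of an `S`-object -/
def DS (D : ℕ → ℕ → A M → ℝ) (k b : ℕ) (v : A M) : ℝ := D k b (v - th M (b * 2 ^ k))

/-- recent moves of an `S`-object -/
def rS (K : ℕ) (mS D : ℕ → ℕ → A M → ℝ) (k b : ℕ) (v : A M) : ℝ :=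
  mS k b v + ∑ w ∈ Icc (k + 1) K,
    if DS D (k + 1) (b / 2) v - DS D w (b / 2 ^ (w - k)) v ≤ 4 then mS w (b / 2 ^ (w - k)) v else 0

/-- recent moves of `u` and of the objects tied to `u` in the block -/
def bb (K : ℕ) (mT mS D : ℕ → ℕ → A M → ℝ) (k b : ℕ) (u : A M) : ℝ :=
  rT K mT D k b u + (∑ c ∈ range (2 ^ k), rS K mS D k b (u + th M (b * 2 ^ k + c))) / 2 ^ k

/-- local density of recent moves -/
def LL (K : ℕ) (mT mS D : ℕ → ℕ → A M → ℝ) (k b : ℕ) (u : A M) : ℝ :=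
  av k (b * 2 ^ k) (bb K mT mS D k b) u

/-- busy function -/
def cc (K : ℕ) (κ : ℝ) (mT mS D : ℕ → ℕ → A M → ℝ) (k b : ℕ) (u : A M) : ℝ :=
  min 1 (max 0 (LL K mT mS D k b u / κ - 1))

/-- the clock equation -/
structure IsClock (K : ℕ) (κ : ℝ) (mT mS D : ℕ → ℕ → A M → ℝ) : Prop where
  top : ∀ b u, D (K + 1) b u = 0
  step : ∀ k ≤ K, ∀ b u, D k b u =
    D (k + 1) (b / 2) u + D0 * av k (b * 2 ^ k) (cc K κ mT mS D k b) u

omit [NeZero M] in
private theorem clk_rT_congr (K : ℕ) (mT D D' : ℕ → ℕ → A M → ℝ) (k b : ℕ) (u : A M)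
    (h : ∀ w, k < w → D w = D' w) : rT K mT D k b u = rT K mT D' k b u := by
  unfold rT
  congr 1
  refine Finset.sum_congr rfl fun w hw => ?_
  have hw' : k < w := by
    have := (Finset.mem_Icc.mp hw).1
    omega
  rw [h w hw', h (k + 1) (Nat.lt_succ_self k)]

omit [NeZero M] in
private theorem clk_DS_congr (D D' : ℕ → ℕ → A M → ℝ) (k b : ℕ) (v : A M)
    (h : D k = D' k) : DS D k b v = DS D' k b v := by
  unfold DS
  rw [h]

omit [NeZero M] in
private theorem clk_rS_congr (K : ℕ) (mS D D' : ℕ → ℕ → A M → ℝ) (k b : ℕ) (v : A M)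
    (h : ∀ w, k < w → D w = D' w) : rS K mS D k b v = rS K mS D' k b v := by
  unfold rS
  congr 1
  refine Finset.sum_congr rfl fun w hw => ?_
  have hw' : k < w := by
    have := (Finset.mem_Icc.mp hw).1
    omega
  rw [clk_DS_congr D D' w _ _ (h w hw'), clk_DS_congr D D' (k + 1) _ _ (h (k + 1) (Nat.lt_succ_self k))]

private theorem clk_bb_congr (K : ℕ) (mT mS D D' : ℕ → ℕ → A M → ℝ) (k b : ℕ)
    (h : ∀ w, k < w → D w = D' w) : bb K mT mS D k b = bb K mT mS D' k b := by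
  funext u
  unfold bb
  rw [clk_rT_congr K mT D D' k b u h]
  congr 2
  exact Finset.sum_congr rfl fun c _ => clk_rS_congr K mS D D' k b _ h

private theorem clk_cc_congr (K : ℕ) (κ : ℝ) (mT mS D D' : ℕ → ℕ → A M → ℝ) (k b : ℕ)
    (h : ∀ w, k < w → D w = D' w) : cc K κ mT mS D k b = cc K κ mT mS D' k b := by
  funext u
  unfold cc LL
  rw [clk_bb_congr K mT mS D D' k b h]

private theorem clk_exists_aux (K : ℕ) (κ : ℝ) (mT mS : ℕ → ℕ → A M → ℝ) (n : ℕ) :
    ∃ D : ℕ → ℕ → A M → ℝ, (∀ b u, D (K + 1) b u = 0) ∧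
      ∀ k ≤ K, K < k + n → ∀ b u, D k b u =
        D (k + 1) (b / 2) u + D0 * av k (b * 2 ^ k) (cc K κ mT mS D k b) u := by
  induction n with
  | zero =>
    refine ⟨fun _ _ _ => 0, fun _ _ => rfl, fun k hk hk' => ?_⟩
    omega
  | succ n ih =>
    obtain ⟨D, hD0, hD⟩ := ih
    by_cases hn : K < n
    · refine ⟨D, hD0, fun k hk _ => hD k hk (by omega)⟩
    · set k0 := K - n with hk0
      let D' : ℕ → ℕ → A M → ℝ := Function.update D k0 (fun b u =>
        D (k0 + 1) (b / 2) u + D0 * av k0 (b * 2 ^ k0) (cc K κ mT mS D k0 b) u)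
      have hne : ∀ w, w ≠ k0 → D' w = D w := fun w hw => Function.update_of_ne hw _ _
      have hcg : ∀ k, k0 ≤ k → ∀ b, cc K κ mT mS D' k b = cc K κ mT mS D k b := by
        intro k hk b
        exact clk_cc_congr K κ mT mS D' D k b fun w hw => hne w (by omega)
      refine ⟨D', ?_, ?_⟩
      · intro b u
        rw [hne (K + 1) (by omega)]
        exact hD0 b u
      · intro k hk hk' b u
        by_cases hkk : k = k0
        · subst hkk
          rw [hcg _ le_rfl b, hne (k0 + 1) (by omega)]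
          show Function.update D k0 _ k0 b u = _
          rw [Function.update_self]
        · rw [hcg k (by omega) b, hne (k + 1) (by omega), hne k hkk]
          exact hD k hk (by omega) b u

theorem clock_exists (K : ℕ) (κ : ℝ) (mT mS : ℕ → ℕ → A M → ℝ) :
    ∃ D, IsClock K κ mT mS D := by
  obtain ⟨D, h0, h1⟩ := clk_exists_aux K κ mT mS (K + 1)
  exact ⟨D, ⟨h0, fun k hk b u => h1 k hk (by omega) b u⟩⟩

theorem cc_nonneg (K : ℕ) (κ : ℝ) (mT mS D : ℕ → ℕ → A M → ℝ) (k b : ℕ) (u : A M) :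
    0 ≤ cc K κ mT mS D k b u :=
  le_min zero_le_one (le_max_left _ _)

theorem cc_le_one (K : ℕ) (κ : ℝ) (mT mS D : ℕ → ℕ → A M → ℝ) (k b : ℕ) (u : A M) :
    cc K κ mT mS D k b u ≤ 1 :=
  min_le_left _ _

theorem clk_step_le {K : ℕ} {κ : ℝ} {mT mS D : ℕ → ℕ → A M → ℝ} (h : IsClock K κ mT mS D)
    (k : ℕ) (hk : k ≤ K) (b : ℕ) (u : A M) :
    D (k + 1) (b / 2) u ≤ D k b u ∧ D k b u ≤ D (k + 1) (b / 2) u + D0 := by
  have h0 : 0 ≤ av k (b * 2 ^ k) (cc K κ mT mS D k b) u :=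
    av_nonneg k _ _ (fun u => cc_nonneg K κ mT mS D k b u) u
  have h1 : av k (b * 2 ^ k) (cc K κ mT mS D k b) u ≤ 1 := by
    have := av_mono k (b * 2 ^ k) (cc K κ mT mS D k b) (fun _ => 1)
      (fun u => cc_le_one K κ mT mS D k b u) u
    rwa [av_const] at this
  have hD0 : (0 : ℝ) ≤ D0 := by unfold D0; norm_num
  rw [h.step k hk b u]
  constructor
  · linarith [mul_nonneg hD0 h0]
  · linarith [mul_le_mul_of_nonneg_left h1 hD0]

theorem clk_nonneg {K : ℕ} {κ : ℝ} {mT mS D : ℕ → ℕ → A M → ℝ} (h : IsClock K κ mT mS D)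
    (k : ℕ) (hk : k ≤ K + 1) (b : ℕ) (u : A M) : 0 ≤ D k b u := by
  have key : ∀ n k b, k + n = K + 1 → 0 ≤ D k b u := by
    intro n
    induction n with
    | zero =>
      intro k b hk
      have : k = K + 1 := by omega
      subst this
      exact (h.top b u).ge
    | succ n ih =>
      intro k b hk
      exact (ih (k + 1) (b / 2) (by omega)).trans (clk_step_le h k (by omega) b u).1
  exact key (K + 1 - k) k b (by omega)

/-- monotone along the path of `c` -/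
theorem clk_mono {K : ℕ} {κ : ℝ} {mT mS D : ℕ → ℕ → A M → ℝ} (h : IsClock K κ mT mS D)
    (k w : ℕ) (hkw : k ≤ w) (hw : w ≤ K + 1) (c : ℕ) (u : A M) :
    D w (c / 2 ^ w) u ≤ D k (c / 2 ^ k) u := by
  induction w, hkw using Nat.le_induction with
  | base => exact le_rfl
  | succ w hkw ih =>
    refine le_trans ?_ (ih (by omega))
    have h1 := (clk_step_le h w (by omega) (c / 2 ^ w) u).1
    rwa [Nat.div_div_eq_div_mul, ← pow_succ] at h1

omit [NeZero M] in
private theorem clk_co_shift (k w b : ℕ) (δ : A M) :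
    (co M (b * 2 ^ k) δ).1 = (co M (b / 2 ^ (w - k) * 2 ^ w) δ).1 ∧
    (k ≤ w → (co M (b / 2 ^ (w - k) * 2 ^ w) δ).2 =
      (co M (b * 2 ^ k) δ).2 + ((b % 2 ^ (w - k) * 2 ^ k : ℕ) : ZMod M) * (co M (b * 2 ^ k) δ).1) := by
  refine ⟨rfl, fun hkw => ?_⟩
  have h1 : b * 2 ^ k = b / 2 ^ (w - k) * 2 ^ w + b % 2 ^ (w - k) * 2 ^ k := by
    have h2 : 2 ^ w = 2 ^ (w - k) * 2 ^ k := by
      rw [← pow_add]
      congr 1
      omega
    have h3 := Nat.div_add_mod b (2 ^ (w - k))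
    calc b * 2 ^ k = (2 ^ (w - k) * (b / 2 ^ (w - k)) + b % 2 ^ (w - k)) * 2 ^ k := by rw [h3]
      _ = _ := by rw [h2]; ring
  unfold co
  simp only
  have h4 : ((b * 2 ^ k : ℕ) : ZMod M) = ((b / 2 ^ (w - k) * 2 ^ w : ℕ) : ZMod M) +
      ((b % 2 ^ (w - k) * 2 ^ k : ℕ) : ZMod M) := by
    rw [h1, Nat.cast_add]
  rw [h4]
  ring

private theorem clk_nm_le (k w b : ℕ) (hkw : k ≤ w) (δ : A M)
    (h1 : az (co M (b * 2 ^ k) δ).1 ≤ 2 ^ k) (h2 : az (co M (b * 2 ^ k) δ).2 ≤ 2 * 4 ^ k) :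
    nm w (co M (b / 2 ^ (w - k) * 2 ^ w) δ) ≤ (1 / 2) ^ (w - k) * (2 / Lam) := by
  obtain ⟨e1, e2⟩ := clk_co_shift k w b δ
  have e2 := e2 hkw
  obtain ⟨n, rfl⟩ := Nat.exists_eq_add_of_le hkw
  have hsub : k + n - k = n := by omega
  rw [hsub] at e1 e2 ⊢
  have ha : az (co M (b / 2 ^ n * 2 ^ (k + n)) δ).1 ≤ 2 ^ k := by rw [← e1]; exact h1
  have hb : az (co M (b / 2 ^ n * 2 ^ (k + n)) δ).2 ≤ 3 * (4 ^ k * 2 ^ n) := by
    rw [e2]
    refine (az_add_le _ _).trans ?_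
    have h3 : az (((b % 2 ^ n * 2 ^ k : ℕ) : ZMod M) * (co M (b * 2 ^ k) δ).1) ≤
        ((b % 2 ^ n * 2 ^ k : ℕ) : ℝ) * 2 ^ k :=
      (az_mul_le _ _).trans (mul_le_mul_of_nonneg_left h1 (Nat.cast_nonneg _))
    have h4 : ((b % 2 ^ n * 2 ^ k : ℕ) : ℝ) ≤ 2 ^ n * 2 ^ k := by
      have : b % 2 ^ n * 2 ^ k ≤ 2 ^ n * 2 ^ k :=
        Nat.mul_le_mul_right _ (Nat.mod_lt _ (by positivity)).le
      exact_mod_cast this
    have h5 : (4 : ℝ) ^ k = 2 ^ k * 2 ^ k := by
      rw [← mul_pow]; norm_num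
    have h6 : ((b % 2 ^ n * 2 ^ k : ℕ) : ℝ) * 2 ^ k ≤ 4 ^ k * 2 ^ n := by
      calc ((b % 2 ^ n * 2 ^ k : ℕ) : ℝ) * 2 ^ k ≤ (2 ^ n * 2 ^ k) * 2 ^ k :=
            mul_le_mul_of_nonneg_right h4 (by positivity)
        _ = 4 ^ k * 2 ^ n := by rw [h5]; ring
    have h7 : (4 : ℝ) ^ k ≤ 4 ^ k * 2 ^ n :=
      le_mul_of_one_le_right (by positivity) (one_le_pow₀ (by norm_num))
    linarith
  have hL : (0 : ℝ) < Lam := by unfold Lam; norm_num
  unfold nm
  have hc : az (co M (b / 2 ^ n * 2 ^ (k + n)) δ).1 / (Lam * 2 ^ (k + n)) ≤ (1 / 2) ^ n * (1 / Lam) := by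
    rw [div_le_iff₀ (by positivity)]
    refine ha.trans (le_of_eq ?_)
    rw [pow_add]
    have h8 : ((1 : ℝ) / 2) ^ n * 2 ^ n = 1 := by
      rw [← mul_pow]; norm_num
    field_simp
    calc (1 : ℝ) = ((1 : ℝ) / 2) ^ n * 2 ^ n := h8.symm
      _ = _ := by ring
  have hd : az (co M (b / 2 ^ n * 2 ^ (k + n)) δ).2 / (Lam * 2 ^ (k + n)) ^ 2 ≤
      (1 / 2) ^ n * (1 / Lam) := by
    rw [div_le_iff₀ (by positivity)]
    refine hb.trans ?_
    have h8 : ((1 : ℝ) / 2) ^ n * 2 ^ n = 1 := by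
      rw [← mul_pow]; norm_num
    have h5 : (4 : ℝ) ^ k = 2 ^ k * 2 ^ k := by
      rw [← mul_pow]; norm_num
    have h9 : (1 / 2 : ℝ) ^ n * (1 / Lam) * (Lam * 2 ^ (k + n)) ^ 2 = Lam * (4 ^ k * 2 ^ n) := by
      rw [pow_add, h5]
      have : (1 / 2 : ℝ) ^ n * (1 / Lam) * (Lam * (2 ^ k * 2 ^ n)) ^ 2 =
          ((1 / 2 : ℝ) ^ n * 2 ^ n) * (Lam * (1 / Lam)) * Lam * (2 ^ k * 2 ^ k * 2 ^ n) := by ring
      rw [this, h8, mul_one_div_cancel hL.ne']
      ring
    rw [h9]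
    refine mul_le_mul_of_nonneg_right ?_ (by positivity)
    unfold Lam
    norm_num
  calc _ ≤ (1 / 2 : ℝ) ^ n * (1 / Lam) + (1 / 2) ^ n * (1 / Lam) := add_le_add hc hd
    _ = _ := by ring

/-- mismatch for nearby objects: `D k b (u+δ) - D k b u` is at most
`D0 ∑_{w ≥ k} (exp (nm w (co (l_w) δ)) - 1)` (`av_lip`) with
`co (l_w) δ = (n, m + (l_k - l_w) n)`, `0 ≤ l_k - l_w < 2^w`, so
`nm w ≤ 2^(k-w) (1/Lam + 3/Lam^2)`. -/
theorem clk_mismatch {K : ℕ} {κ : ℝ} {mT mS D : ℕ → ℕ → A M → ℝ} (h : IsClock K κ mT mS D)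
    (k : ℕ) (hk : k ≤ K + 1) (b : ℕ) (u δ : A M)
    (h1 : az (co M (b * 2 ^ k) δ).1 ≤ 2 ^ k) (h2 : az (co M (b * 2 ^ k) δ).2 ≤ 2 * 4 ^ k) :
    |D k b (u + δ) - D k b u| ≤ 1 / 4 := by
  have hD0 : D0 = 2000 := rfl
  have hL : Lam = 131072 := rfl
  -- one level
  have step : ∀ w, k ≤ w → w ≤ K →
      |D w (b / 2 ^ (w - k)) (u + δ) - D w (b / 2 ^ (w - k)) u| ≤
      |D (w + 1) (b / 2 ^ (w + 1 - k)) (u + δ) - D (w + 1) (b / 2 ^ (w + 1 - k)) u| +
        (1 / 2) ^ (w - k) * (1 / 16) := by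
    intro w hkw hwK
    have e1 : b / 2 ^ (w - k) / 2 = b / 2 ^ (w + 1 - k) := by
      rw [Nat.div_div_eq_div_mul, ← pow_succ]
      congr 2
      omega
    rw [h.step w hwK _ (u + δ), h.step w hwK _ u, e1]
    have hx := clk_nm_le k w b hkw δ h1 h2
    have hlip := av_lip w (b / 2 ^ (w - k) * 2 ^ w) (cc K κ mT mS D w (b / 2 ^ (w - k)))
      (fun u => cc_nonneg K κ mT mS D w _ u) (fun u => cc_le_one K κ mT mS D w _ u) u δ
    set x := nm w (co M (b / 2 ^ (w - k) * 2 ^ w) δ) with hxdef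
    set y : ℝ := (1 / 2 : ℝ) ^ (w - k) with hy
    have hy0 : 0 < y := by positivity
    have hy1 : y ≤ 1 := pow_le_one₀ (by norm_num) (by norm_num)
    have hx0 : 0 ≤ x := nm_nonneg _ _
    have hx1 : x ≤ 1 := by
      refine hx.trans ?_
      rw [hL]
      nlinarith
    have hexp : Real.exp x - 1 ≤ 2 * x := by
      have := Real.abs_exp_sub_one_le (x := x) (by rw [abs_of_nonneg hx0]; exact hx1)
      rw [abs_of_nonneg hx0] at this
      exact (le_abs_self _).trans this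
    have hbd : D0 * |av w (b / 2 ^ (w - k) * 2 ^ w) (cc K κ mT mS D w (b / 2 ^ (w - k))) (u + δ) -
        av w (b / 2 ^ (w - k) * 2 ^ w) (cc K κ mT mS D w (b / 2 ^ (w - k))) u| ≤ y * (1 / 16) := by
      rw [hD0]
      have : x ≤ y * (2 / 131072) := by rw [← hL]; exact hx
      nlinarith
    have htri : ∀ p q s t : ℝ, |p + D0 * s - (q + D0 * t)| ≤ |p - q| + D0 * |s - t| := by
      intro p q s t
      have : p + D0 * s - (q + D0 * t) = (p - q) + D0 * (s - t) := by ring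
      rw [this]
      refine (abs_add_le _ _).trans ?_
      rw [abs_mul, abs_of_nonneg (by rw [hD0]; norm_num : (0 : ℝ) ≤ D0)]
    exact (htri _ _ _ _).trans (by linarith)
  have key : ∀ n w, w + n = K + 1 → k ≤ w →
      |D w (b / 2 ^ (w - k)) (u + δ) - D w (b / 2 ^ (w - k)) u| ≤ (1 / 2) ^ (w - k) * (1 / 8) := by
    intro n
    induction n with
    | zero =>
      intro w hw hkw
      have : w = K + 1 := by omega
      subst this
      rw [h.top, h.top, sub_self, abs_zero]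
      positivity
    | succ n ih =>
      intro w hw hkw
      have hs := step w hkw (by omega)
      have hi := ih (w + 1) (by omega) (by omega)
      have e2 : (1 / 2 : ℝ) ^ (w + 1 - k) = (1 / 2) ^ (w - k) * (1 / 2) := by
        rw [← pow_succ]
        congr 1
        omega
      rw [e2] at hi
      linarith
  have hfin := key (K + 1 - k) k (by omega) le_rfl
  simp only [Nat.sub_self, pow_zero, Nat.div_one] at hfin
  linarith

/-- mismatch for tied objects, also after a central shift -/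
theorem clk_tied {K : ℕ} {κ : ℝ} {mT mS D : ℕ → ℕ → A M → ℝ} (h : IsClock K κ mT mS D)
    (k : ℕ) (hk : k ≤ K + 1) (c : ℕ) (u : A M) (z : ℤ) (hz : |z| ≤ 4 ^ k) :
    |DS D k (c / 2 ^ k) (u + th M c + cs M z) - D k (c / 2 ^ k) u| ≤ 1 / 4 := by
  set l := c / 2 ^ k * 2 ^ k with hl
  have hc : l + c % 2 ^ k = c := by
    rw [hl, Nat.mul_comm]
    exact Nat.div_add_mod c (2 ^ k)
  have hm : c % 2 ^ k < 2 ^ k := Nat.mod_lt _ (by positivity)
  have e1 : u + th M c + cs M z - th M l = u + (th M (l + c % 2 ^ k) - th M l + cs M z) := by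
    rw [hc]; abel
  have e2 : co M l (th M (l + c % 2 ^ k) - th M l + cs M z) = th M (c % 2 ^ k) + cs M z := by
    rw [co_add, co_th, co_cs]
  have hm' : ((c % 2 ^ k : ℕ) : ℝ) ≤ 2 ^ k := by exact_mod_cast hm.le
  unfold DS
  rw [← hl, e1]
  refine clk_mismatch h k hk (c / 2 ^ k) u _ ?_ ?_
  · rw [← hl, e2]
    show az (((c % 2 ^ k : ℕ) : ZMod M) + 0) ≤ 2 ^ k
    rw [add_zero]
    exact (az_nat_le _).trans hm'
  · rw [← hl, e2]
    show az ((((c % 2 ^ k).choose 2 : ℕ) : ZMod M) + ((z : ℤ) : ZMod M)) ≤ 2 * 4 ^ k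
    refine (az_add_le _ _).trans ?_
    have h3 : az ((z : ℤ) : ZMod M) ≤ 4 ^ k := by
      refine (az_int_le z).trans ?_
      exact_mod_cast hz
    have h4 : az (((c % 2 ^ k).choose 2 : ℕ) : ZMod M) ≤ 4 ^ k := by
      refine (az_nat_le _).trans ?_
      have h5 : (c % 2 ^ k).choose 2 ≤ (c % 2 ^ k) ^ 2 := Nat.choose_le_pow _ _
      have h6 : (c % 2 ^ k) ^ 2 ≤ 4 ^ k := by
        calc (c % 2 ^ k) ^ 2 ≤ (2 ^ k) ^ 2 := Nat.pow_le_pow_left hm.le 2
          _ = 4 ^ k := by rw [← pow_mul, mul_comm, pow_mul]; norm_num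
      exact_mod_cast h5.trans h6
    linarith

/-- a busy place moves the clock by at least `8` (`av_harnack`, `av_mass`) -/
theorem clk_busy {K : ℕ} {κ : ℝ} {mT mS D : ℕ → ℕ → A M → ℝ} (h : IsClock K κ mT mS D)
    (hκ : 0 < κ) (hT : ∀ k b u, 0 ≤ mT k b u) (hS : ∀ k b u, 0 ≤ mS k b u)
    (k : ℕ) (hk : k ≤ K) (b : ℕ) (u : A M) (hL : 4 * κ ≤ LL K mT mS D k b u) :
    D (k + 1) (b / 2) u + 8 ≤ D k b u := by
  have hrT : ∀ u, 0 ≤ rT K mT D k b u := by
    intro u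
    unfold rT
    refine add_nonneg (hT _ _ _) (Finset.sum_nonneg fun w _ => ?_)
    split_ifs
    · exact hT _ _ _
    · exact le_rfl
  have hrS : ∀ v, 0 ≤ rS K mS D k b v := by
    intro v
    unfold rS
    refine add_nonneg (hS _ _ _) (Finset.sum_nonneg fun w _ => ?_)
    split_ifs
    · exact hS _ _ _
    · exact le_rfl
  have hbb : ∀ u, 0 ≤ bb K mT mS D k b u := by
    intro u
    unfold bb
    exact add_nonneg (hrT u) (div_nonneg (Finset.sum_nonneg fun c _ => hrS _) (by positivity))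
  have hmass : 1 / 250 ≤ av k (b * 2 ^ k) (cc K κ mT mS D k b) u := by
    refine av_mass k (b * 2 ^ k) _ (fun u => cc_nonneg K κ mT mS D k b u) u ?_
    intro δ hδ
    have hH := av_harnack k (b * 2 ^ k) (bb K mT mS D k b) hbb (u + δ) (-δ)
    rw [add_neg_cancel_right, co_neg, nm_neg] at hH
    have hL0 : 0 ≤ LL K mT mS D k b (u + δ) := av_nonneg k _ _ hbb _
    have hexp : Real.exp (nm k (co M (b * 2 ^ k) δ)) ≤ 2 := by
      refine (Real.exp_le_exp.mpr hδ).trans ?_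
      have h1 : Real.exp (1 / 2) ^ 2 ≤ 2 ^ 2 := by
        rw [← Real.exp_nat_mul]
        norm_num
        linarith [Real.exp_one_lt_d9]
      exact le_of_sq_le_sq h1 (by norm_num)
    have h2 : 4 * κ ≤ 2 * LL K mT mS D k b (u + δ) := by
      refine hL.trans (hH.trans ?_)
      exact mul_le_mul_of_nonneg_right hexp hL0
    have h3 : 2 ≤ LL K mT mS D k b (u + δ) / κ := by
      rw [le_div_iff₀ hκ]
      linarith
    unfold cc
    refine le_min le_rfl (le_max_of_le_right ?_)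
    linarith
  rw [h.step k hk b u]
  have hD0 : D0 = 2000 := rfl
  rw [hD0]
  linarith

end

end NP2
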