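import Pool.Agent.NP2.EndC2
import Pool.Agent.PWZ.NilClo

/-!
# NP2 / Tr3 : transference with a phase

If along the points `e c n m x` the function `t ↦ φ (e c n m x) (t - c)` is
`θ(c,n,m) F(n,m,t) G(n + c, m + c(c-1)/2, t)` with arbitrary bounded `θ`, `F`, `G`, then the
averages of `φ x` converge for almost every `x`, by Theorem A.
-/

namespace NP2
open Finset Filter MeasureTheory
open scoped Topology
open Pool.PWZ (cav)

noncomputable section

/-- pigeonhole for jumps -/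
lemma NJ_pigeon {ι : Type} [Fintype ι] [DecidableEq ι] [Nonempty ι] {δ δ' : ℝ} {x : ℕ → ℝ}
    {y : ι → ℕ → ℝ} (h : ∀ k l, δ ≤ |x l - x k| → ∃ i, δ' ≤ |y i l - y i k|) :
    ∀ (n : ℕ) (a : ι → ℕ) (K : ℕ), ∑ i, a i ≤ n → NJ δ x n K → ∃ i, NJ δ' (y i) (a i) K
  | 0, a, K, hs, _ => by
    obtain ⟨i⟩ := ‹Nonempty ι›
    have h0 : a i ≤ 0 := (single_le_sum (fun _ _ => Nat.zero_le _) (mem_univ i)).trans hs
    refine ⟨i, ?_⟩
    rw [Nat.le_zero.1 h0]
    trivial
  | n + 1, a, K, hs, hn => by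
    obtain ⟨k, l, hkl, hlK, hj, hn'⟩ := hn
    obtain ⟨i, hi⟩ := h k l hj
    rcases Nat.eq_zero_or_pos (a i) with h0 | h0
    · refine ⟨i, ?_⟩
      rw [h0]
      trivial
    · have hsum : ∑ j, Function.update a i (a i - 1) j ≤ n := by
        have h1 := sum_update_of_mem (mem_univ i) a (a i - 1)
        have h2 := add_sum_erase univ a (mem_univ i)
        rw [h1, sdiff_singleton_eq_erase]
        omega
      obtain ⟨j, hj'⟩ := NJ_pigeon h n (Function.update a i (a i - 1)) k hsum hn'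
      by_cases hij : j = i
      · subst hij
        rw [Function.update_self] at hj'
        refine ⟨j, ?_⟩
        obtain ⟨b, hb⟩ : ∃ b, a j = b + 1 := ⟨a j - 1, by omega⟩
        rw [hb] at hj' ⊢
        exact ⟨k, l, hkl, hlK, hi, hj'⟩
      · rw [Function.update_of_ne hij] at hj'
        exact ⟨j, NJ_mono (by omega) hj'⟩

/-- jumps of a combination of four sequences -/
lemma NJ_comb {δ : ℝ} {x : ℕ → ℝ} (κ : Fin 4 → ℝ) (hκ : ∀ i, |κ i| ≤ 1) (y : Fin 4 → ℕ → ℝ)
    (hx : ∀ k, x k = ∑ i, κ i * y i k) (R K : ℕ) (hn : NJ δ x (4 * R) K) :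
    ∃ i, NJ (δ / 4) (y i) R K := by
  refine NJ_pigeon (δ := δ) (δ' := δ / 4) (x := x) (y := y) ?_ (4 * R) (fun _ => R) K
    (by simp) hn
  intro k l hkl
  by_contra hcon
  push Not at hcon
  have h1 : |x l - x k| ≤ ∑ i, |y i l - y i k| := by
    rw [hx, hx, ← sum_sub_distrib]
    refine (abs_sum_le_sum_abs _ _).trans (sum_le_sum fun i _ => ?_)
    rw [← mul_sub, abs_mul]
    exact mul_le_of_le_one_left (abs_nonneg _) (hκ i)
  have h2 : ∑ i : Fin 4, |y i l - y i k| < ∑ _i : Fin 4, δ / 4 :=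
    sum_lt_sum_of_nonempty univ_nonempty fun i _ => hcon i
  rw [sum_const, card_univ, Fintype.card_fin, nsmul_eq_mul] at h2
  push_cast at h2
  linarith

lemma limit_arg {J e : ℝ} (hJ0 : 0 ≤ J) (he : 0 < e)
    (key : ∀ L : ℕ, 1 ≤ L → ((L : ℝ) - 1) ^ 2 * J ≤ e * (L : ℝ) ^ 2) : J ≤ e := by
  by_contra hcon
  push Not at hcon
  obtain ⟨L, hL⟩ := exists_nat_gt (2 * J / (J - e))
  have hpos : 0 < J - e := by linarith
  rw [div_lt_iff₀ hpos] at hL
  have hL1 : 1 ≤ L := by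
    rcases Nat.eq_zero_or_pos L with h0 | h0
    · exfalso; rw [h0] at hL; simp at hL; linarith
    · exact h0
  have h9 := key L hL1
  have hL0 : (1 : ℝ) ≤ L := by exact_mod_cast hL1
  have hJpos : 0 < J := by linarith
  nlinarith

variable {X : Type} [MeasurableSpace X] {μ : Measure X}

/-- the real version -/
theorem endC_split (hA : ThmA) [IsProbabilityMeasure μ] (e : ℕ → ℕ → ℕ → Equiv.Perm X)
    (he : ∀ c n m, MI μ (e c n m)) (φ : X → ℤ → ℝ) (hφm : ∀ n, Measurable fun x => φ x n)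
    (hsplit : ∀ x, ∃ θ F G : ℕ → ℕ → ℕ → ℂ, (∀ c n m, ‖θ c n m‖ ≤ 1) ∧
      (∀ n m t, ‖F n m t‖ ≤ 1) ∧ (∀ n m t, ‖G n m t‖ ≤ 1) ∧
      ∀ c n m t : ℕ, φ (e c n m x) ((t : ℤ) - c) =
        (θ c n m * F n m t * G (n + c) (m + c.choose 2) t).re) :
    ∀ δ : ℝ, 0 < δ → ∀ η : ℝ, 0 < η → ∃ R : ℕ, ∀ K : ℕ,
      ∫ x, jc (φ x) δ R K ∂μ ≤ η * 2 ^ K := by
  classical
  intro δ hδ η hη
  obtain ⟨R, hR⟩ := hA (δ / 4) (by positivity) (η / 4) (by positivity)
  refine ⟨4 * R, fun K => ?_⟩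
  obtain ⟨J, hJ⟩ : ∃ J : ℝ, J = ∫ x, jc (φ x) δ (4 * R) K ∂μ := ⟨_, rfl⟩
  rw [← hJ]
  have hJ0 : 0 ≤ J := by
    rw [hJ]; exact integral_nonneg fun x => jc_nonneg _ _ _ _
  refine limit_arg hJ0 (by positivity) fun L hL => ?_
  obtain ⟨M, hM⟩ : ∃ M, M = 4 ^ K * L := ⟨_, rfl⟩
  have hM0 : NeZero M := ⟨by rw [hM]; positivity⟩
  obtain ⟨M', hM'⟩ : ∃ M', M' = M - 4 ^ K := ⟨_, rfl⟩
  have hM'' : (M' : ℝ) = 4 ^ K * ((L : ℝ) - 1) := by
    rw [hM', Nat.cast_sub (by rw [hM]; exact Nat.le_mul_of_pos_right _ hL), hM]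
    push_cast; ring
  have hMpos : (0 : ℝ) < M := by exact_mod_cast Nat.pos_of_ne_zero hM0.ne
  -- pointwise
  have hpt : ∀ x : X, ∑ c ∈ range (2 ^ K), ∑ p ∈ range M' ×ˢ range M',
      jn (φ (e c p.1 p.2 x)) δ (4 * R) K c ≤ η * (2 ^ K * (M : ℝ) ^ 2) := by
    intro x
    obtain ⟨θ, F, G, hθ, hF, hG, hs⟩ := hsplit x
    obtain ⟨Fi, hFi⟩ : ∃ Fi : Fin 4 → A M → ℕ → ℝ, Fi =
        ![fun u t => (F u.1.val u.2.val t).re, fun u t => (F u.1.val u.2.val t).im,
          fun u t => (F u.1.val u.2.val t).re, fun u t => (F u.1.val u.2.val t).im] := ⟨_, rfl⟩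
    obtain ⟨Gi, hGi⟩ : ∃ Gi : Fin 4 → A M → ℕ → ℝ, Gi =
        ![fun u t => (G u.1.val u.2.val t).re, fun u t => (G u.1.val u.2.val t).im,
          fun u t => (G u.1.val u.2.val t).im, fun u t => (G u.1.val u.2.val t).re] := ⟨_, rfl⟩
    have hFi1 : ∀ i u t, |Fi i u t| ≤ 1 := by
      intro i u t
      rw [hFi]
      fin_cases i
      · exact (Complex.abs_re_le_norm _).trans (hF _ _ _)
      · exact (Complex.abs_im_le_norm _).trans (hF _ _ _)
      · exact (Complex.abs_re_le_norm _).trans (hF _ _ _)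
      · exact (Complex.abs_im_le_norm _).trans (hF _ _ _)
    have hGi1 : ∀ i u t, |Gi i u t| ≤ 1 := by
      intro i u t
      rw [hGi]
      fin_cases i
      · exact (Complex.abs_re_le_norm _).trans (hG _ _ _)
      · exact (Complex.abs_im_le_norm _).trans (hG _ _ _)
      · exact (Complex.abs_im_le_norm _).trans (hG _ _ _)
      · exact (Complex.abs_re_le_norm _).trans (hG _ _ _)
    obtain ⟨W, hW⟩ : ∃ W : Fin 4 → ℕ → A M → ℝ, ∀ i c u, W i c u =
        @ite ℝ (NJ (δ / 4) (fun k => XX (Fi i) (Gi i) k c u) R K)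
          (Classical.propDecidable _) 1 0 := ⟨_, fun _ _ _ => rfl⟩
    have hW0 : ∀ i c u, 0 ≤ W i c u := by
      intro i c u
      rw [hW]
      split_ifs <;> norm_num
    have h3 : ∀ i, ∑ c ∈ range (2 ^ K), ∑ u : A M, W i c u ≤ η / 4 * (2 ^ K * (M : ℝ) ^ 2) := by
      intro i
      have h3 := hR K M ⟨L, hM⟩ (Fi i) (Gi i) (hFi1 i) (hGi1 i)
      unfold ex at h3
      rw [div_le_iff₀ (by positivity)] at h3
      refine le_trans (le_of_eq ?_) h3
      exact sum_congr rfl fun c _ => sum_congr rfl fun u _ => hW i c u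
    have hinj : Set.InjOn (fun p : ℕ × ℕ => (((p.1 : ZMod M), (p.2 : ZMod M)) : A M))
        (range M' ×ˢ range M' : Finset (ℕ × ℕ)) := by
      rintro ⟨a, b⟩ hab ⟨a', b'⟩ hab' heq
      have h4K : 0 < 4 ^ K := by positivity
      simp only [coe_product, Set.mem_prod, mem_coe, mem_range] at hab hab'
      simp only [Prod.mk.injEq] at heq
      obtain ⟨e1, e2⟩ := heq
      have f1 := congrArg ZMod.val e1
      have f2 := congrArg ZMod.val e2
      rw [ZMod.val_cast_of_lt (by omega), ZMod.val_cast_of_lt (by omega)] at f1 f2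
      rw [f1, f2]
    have hstep : ∀ c ∈ range (2 ^ K), ∀ p ∈ range M' ×ˢ range M',
        jn (φ (e c p.1 p.2 x)) δ (4 * R) K c ≤
          ∑ i, W i c (((p.1 : ZMod M), (p.2 : ZMod M)) : A M) := by
      intro c hc p hp
      rw [mem_product, mem_range, mem_range] at hp
      rw [mem_range] at hc
      by_cases hn : NJ δ (fun k => bt (φ (e c p.1 p.2 x)) k (c % 2 ^ k)) (4 * R) K
      swap
      · rw [jn_not hn]
        exact sum_nonneg fun i _ => hW0 _ _ _
      rw [jn_of hn]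
      obtain ⟨κ, hκ⟩ : ∃ κ : Fin 4 → ℝ, κ = ![(θ c p.1 p.2).re, -(θ c p.1 p.2).re,
        -(θ c p.1 p.2).im, -(θ c p.1 p.2).im] := ⟨_, rfl⟩
      have hκ1 : ∀ i, |κ i| ≤ 1 := by
        intro i
        have hre := (Complex.abs_re_le_norm (θ c p.1 p.2)).trans (hθ _ _ _)
        have him := (Complex.abs_im_le_norm (θ c p.1 p.2)).trans (hθ _ _ _)
        rw [hκ]
        fin_cases i
        · exact hre
        · show |-(θ c p.1 p.2).re| ≤ 1
          rwa [abs_neg]
        · show |-(θ c p.1 p.2).im| ≤ 1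
          rwa [abs_neg]
        · show |-(θ c p.1 p.2).im| ≤ 1
          rwa [abs_neg]
      have hcomb : ∀ k, bt (φ (e c p.1 p.2 x)) k (c % 2 ^ k) =
          ∑ i, κ i * XX (Fi i) (Gi i) k c (((p.1 : ZMod M), (p.2 : ZMod M)) : A M) := by
        intro k
        have h4K : 0 < 4 ^ K := by positivity
        have hch := choose_two_lt hc
        have h24 := two_pow_le_four_pow K
        have va : ((p.1 : ZMod M)).val = p.1 := ZMod.val_cast_of_lt (by omega)
        have vb : ((p.2 : ZMod M)).val = p.2 := ZMod.val_cast_of_lt (by omega)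
        have va' : ((p.1 : ZMod M) + (c : ZMod M)).val = p.1 + c := by
          rw [← Nat.cast_add]; exact ZMod.val_cast_of_lt (by omega)
        have vb' : ((p.2 : ZMod M) + ((c.choose 2 : ℕ) : ZMod M)).val = p.2 + c.choose 2 := by
          rw [← Nat.cast_add]; exact ZMod.val_cast_of_lt (by omega)
        unfold XX bt
        simp only [← mul_div_assoc]
        rw [← sum_div]
        congr 1
        simp only [mul_sum]
        rw [sum_comm]
        refine sum_congr rfl fun s _ => ?_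
        have hdm := Nat.div_add_mod c (2 ^ k)
        have ht : (s : ℤ) - ((c % 2 ^ k : ℕ) : ℤ) = ((c / 2 ^ k * 2 ^ k + s : ℕ) : ℤ) - c := by
          have : ((c : ℕ) : ℤ) = 2 ^ k * ((c / 2 ^ k : ℕ) : ℤ) + ((c % 2 ^ k : ℕ) : ℤ) := by
            exact_mod_cast hdm.symm
          push_cast at this ⊢
          linarith
        rw [ht, hs c p.1 p.2 (c / 2 ^ k * 2 ^ k + s)]
        have hu : (((p.1 : ZMod M), (p.2 : ZMod M)) : A M) + th M c =
            ((p.1 : ZMod M) + (c : ZMod M), (p.2 : ZMod M) + ((c.choose 2 : ℕ) : ZMod M)) := rfl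
        rw [hu, hκ, hFi, hGi]
        simp only [Fin.sum_univ_four, Matrix.cons_val]
        rw [va, vb, va', vb']
        simp only [Complex.mul_re, Complex.mul_im]
        ring
      obtain ⟨i, hi⟩ := NJ_comb κ hκ1
        (fun i k => XX (Fi i) (Gi i) k c (((p.1 : ZMod M), (p.2 : ZMod M)) : A M)) hcomb R K hn
      have hWi : W i c (((p.1 : ZMod M), (p.2 : ZMod M)) : A M) = 1 := by
        rw [hW, if_pos hi]
      rw [← hWi]
      exact single_le_sum (f := fun i => W i c (((p.1 : ZMod M), (p.2 : ZMod M)) : A M))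
        (fun i _ => hW0 i c _) (mem_univ i)
    calc ∑ c ∈ range (2 ^ K), ∑ p ∈ range M' ×ˢ range M', jn (φ (e c p.1 p.2 x)) δ (4 * R) K c
        ≤ ∑ c ∈ range (2 ^ K), ∑ u : A M, ∑ i, W i c u := by
          refine sum_le_sum fun c hc => (sum_le_sum fun p hp => hstep c hc p hp).trans ?_
          rw [← sum_image (f := fun u : A M => ∑ i, W i c u) hinj]
          exact sum_le_sum_of_subset_of_nonneg (subset_univ _) fun u _ _ =>
            sum_nonneg fun i _ => hW0 i c u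
      _ = ∑ i, ∑ c ∈ range (2 ^ K), ∑ u : A M, W i c u := by
          have h5 : ∀ c ∈ range (2 ^ K), ∑ u : A M, ∑ i, W i c u = ∑ i, ∑ u : A M, W i c u :=
            fun c _ => sum_comm
          rw [sum_congr rfl h5, sum_comm]
      _ ≤ ∑ _i : Fin 4, η / 4 * (2 ^ K * (M : ℝ) ^ 2) := sum_le_sum fun i _ => h3 i
      _ = η * (2 ^ K * (M : ℝ) ^ 2) := by
          rw [sum_const, card_univ, Fintype.card_fin, nsmul_eq_mul]
          push_cast; ring
  -- integrate
  have hint : ∀ (c n m : ℕ), Integrable (fun x => jn (φ (e c n m x)) δ (4 * R) K c) μ ∧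
      ∫ x, jn (φ (e c n m x)) δ (4 * R) K c ∂μ = ∫ x, jn (φ x) δ (4 * R) K c ∂μ := by
    intro c n m
    have hmi := he c n m
    have hm := meas_jn hφm δ (4 * R) K c
    constructor
    · refine Integrable.of_bound (hm.comp hmi.1.measurable).aestronglyMeasurable 1 ?_
      refine Filter.Eventually.of_forall fun x => ?_
      show ‖jn (φ (e c n m x)) δ (4 * R) K c‖ ≤ 1
      rw [Real.norm_eq_abs, abs_of_nonneg (jn_nonneg _ _ _ _ _)]
      exact jn_le_one _ _ _ _ _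
    · have h4 := hmi.1.map_eq
      have h5 := integral_map (μ := μ) hmi.1.measurable.aemeasurable
        (f := fun x => jn (φ x) δ (4 * R) K c) (by
          rw [h4]; exact hm.aestronglyMeasurable)
      rw [h4] at h5
      exact h5.symm
  have hI : ∫ x, (∑ c ∈ range (2 ^ K), ∑ p ∈ range M' ×ˢ range M',
      jn (φ (e c p.1 p.2 x)) δ (4 * R) K c) ∂μ = (M' : ℝ) ^ 2 * J := by
    rw [integral_finsetSum _ fun c _ => integrable_finsetSum _ fun p _ => (hint c _ _).1]
    have e1 : ∀ c ∈ range (2 ^ K), ∫ x, (∑ p ∈ range M' ×ˢ range M',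
        jn (φ (e c p.1 p.2 x)) δ (4 * R) K c) ∂μ =
        (M' : ℝ) ^ 2 * ∫ x, jn (φ x) δ (4 * R) K c ∂μ := by
      intro c _
      rw [integral_finsetSum _ fun p _ => (hint c _ _).1,
        sum_congr rfl fun p _ => (hint c p.1 p.2).2, sum_const, card_product,
        card_range, nsmul_eq_mul]
      push_cast; ring
    rw [sum_congr rfl e1, ← mul_sum, hJ]
    congr 1
    unfold jc
    rw [integral_finsetSum]
    intro c _
    refine Integrable.of_bound (meas_jn hφm δ (4 * R) K c).aestronglyMeasurable 1 ?_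
    refine Filter.Eventually.of_forall fun x => ?_
    rw [Real.norm_eq_abs, abs_of_nonneg (jn_nonneg _ _ _ _ _)]
    exact jn_le_one _ _ _ _ _
  have hle : (M' : ℝ) ^ 2 * J ≤ η * (2 ^ K * (M : ℝ) ^ 2) := by
    rw [← hI]
    have h6 := integral_mono (μ := μ) (integrable_finsetSum _ fun c _ =>
      integrable_finsetSum _ fun p _ => (hint c _ _).1)
      (integrable_const (η * (2 ^ K * (M : ℝ) ^ 2))) hpt
    refine h6.trans (le_of_eq ?_)
    simp
  rw [hM'', hM] at hle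
  push_cast at hle
  have h7 : (0 : ℝ) < (4 : ℝ) ^ K := by positivity
  have h8 : ((4 : ℝ) ^ K) ^ 2 * (((L : ℝ) - 1) ^ 2 * J) ≤
      ((4 : ℝ) ^ K) ^ 2 * (η * 2 ^ K * (L : ℝ) ^ 2) := by
    calc ((4 : ℝ) ^ K) ^ 2 * (((L : ℝ) - 1) ^ 2 * J) = (4 ^ K * ((L : ℝ) - 1)) ^ 2 * J := by ring
      _ ≤ η * (2 ^ K * (4 ^ K * (L : ℝ)) ^ 2) := hle
      _ = _ := by ring
  exact le_of_mul_le_mul_left h8 (by positivity)

/-- the complex version -/
theorem ae_split2 (hA : ThmA) (μ : Measure X) [IsProbabilityMeasure μ]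
    (e : ℕ → ℕ → ℕ → Equiv.Perm X) (he : ∀ c n m, MI μ (e c n m)) (φ : X → ℤ → ℂ)
    (hφm : ∀ n, Measurable fun x => φ x n) (hφ : ∀ x n, ‖φ x n‖ ≤ 1)
    (hsplit : ∀ x, ∃ θ F G : ℕ → ℕ → ℕ → ℂ, (∀ c n m, ‖θ c n m‖ ≤ 1) ∧
      (∀ n m t, ‖F n m t‖ ≤ 1) ∧ (∀ n m t, ‖G n m t‖ ≤ 1) ∧
      ∀ c n m t : ℕ, φ (e c n m x) ((t : ℤ) - c) =
        θ c n m * F n m t * G (n + c) (m + c.choose 2) t) :
    ∀ᵐ x ∂μ, ∃ L : ℂ, Tendsto (fun N : ℕ => cav (φ x) N) atTop (𝓝 L) := by
  have hreal : ∀ φ' : X → ℤ → ℝ, (∀ n, Measurable fun x => φ' x n) → (∀ x n, |φ' x n| ≤ 1) →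
      (∀ x, ∃ θ F G : ℕ → ℕ → ℕ → ℂ, (∀ c n m, ‖θ c n m‖ ≤ 1) ∧
      (∀ n m t, ‖F n m t‖ ≤ 1) ∧ (∀ n m t, ‖G n m t‖ ≤ 1) ∧
      ∀ c n m t : ℕ, φ' (e c n m x) ((t : ℤ) - c) =
        (θ c n m * F n m t * G (n + c) (m + c.choose 2) t).re) →
      ∀ᵐ x ∂μ, ∃ β : ℝ, Tendsto (fun N : ℕ => (((2 * N + 1 : ℕ) : ℝ))⁻¹ *
        ∑ n ∈ Icc (-(N : ℤ)) N, φ' x n) atTop (nhds β) := by
    intro φ' hm hb hsp
    have hC := endC_split (μ := μ) hA e he φ' hm hsp
    have hB := endB hm μ hC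
    filter_upwards [hB] with x hx
    exact endA (fun n => hb x n) hx
  have hre := hreal (fun x n => (φ x n).re) (fun n => Complex.measurable_re.comp (hφm n))
    (fun x n => (Complex.abs_re_le_norm _).trans (hφ x n)) (fun x => by
      obtain ⟨θ, F, G, h1, h2, h3, h4⟩ := hsplit x
      exact ⟨θ, F, G, h1, h2, h3, fun c n m t => by rw [h4]⟩)
  have him := hreal (fun x n => (φ x n).im) (fun n => Complex.measurable_im.comp (hφm n))
    (fun x n => (Complex.abs_im_le_norm _).trans (hφ x n)) (fun x => by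
      obtain ⟨θ, F, G, h1, h2, h3, h4⟩ := hsplit x
      refine ⟨fun c n m => -Complex.I * θ c n m, F, G, fun c n m => ?_, h2, h3,
        fun c n m t => ?_⟩
      · rw [norm_mul, norm_neg, Complex.norm_I, one_mul]; exact h1 c n m
      · rw [h4]
        have e : -Complex.I * θ c n m * F n m t * G (n + c) (m + c.choose 2) t =
          -Complex.I * (θ c n m * F n m t * G (n + c) (m + c.choose 2) t) := by ring
        rw [e]
        generalize θ c n m * F n m t * G (n + c) (m + c.choose 2) t = w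
        simp [Complex.mul_re])
  filter_upwards [hre, him] with x h1 h2
  obtain ⟨L1, h1⟩ := h1
  obtain ⟨L2, h2⟩ := h2
  refine ⟨(L1 : ℂ) + (L2 : ℂ) * Complex.I, ?_⟩
  have h1' := (Complex.continuous_ofReal.tendsto _).comp h1
  have h2' := (Complex.continuous_ofReal.tendsto _).comp h2
  refine (h1'.add (h2'.mul_const Complex.I)).congr fun N => ?_
  unfold cav
  simp only [Function.comp_apply]
  push_cast
  rw [mul_assoc, ← mul_add, Finset.sum_mul, ← Finset.sum_add_distrib]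
  congr 1
  refine Finset.sum_congr rfl fun n _ => ?_
  exact Complex.re_add_im _

end

end NP2
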