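import Pool.Agent.NP2.GrpE3
import Pool.Agent.NP2.Tr3

/-!
# NP2 / Clo3 : everywhere versions and closures for the eigenfunctions of a normal subgroup
-/

set_option autoImplicit false

open Finset MeasureTheory Filter Topology
open scoped ENNReal commutatorElement

namespace NP2
open Pool.PWZ

variable {X : Type}

/-- `h` is bounded and the subgroup `N` of `G` acts on `h` by a unimodular function which is
invariant under conjugation by `G` -/
def EigN [MeasurableSpace X] (μ : Measure X) (G : Subgroup (Equiv.Perm X)) (N : Subgroup G)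
    (h : X → ℂ) : Prop :=
  MemLp h ∞ μ ∧ ∃ χ : G → ℂ, (∀ ν ∈ N, ‖χ ν‖ = 1) ∧
    (∀ γ : G, ∀ ν ∈ N, χ (γ * ν * γ⁻¹) = χ ν) ∧
    ∀ ν ∈ N, ∀ᵐ x ∂μ, h ((ν : Equiv.Perm X) x) = χ ν * h x

/-- `f` lies in the closed span (in `L²`) of the functions with `EigN` -/
def InN [MeasurableSpace X] (μ : Measure X) (G : Subgroup (Equiv.Perm X)) (N : Subgroup G)
    (f : X → ℂ) : Prop :=
  ∀ ε : ℝ, 0 < ε → ∃ (k : ℕ) (h : Fin k → X → ℂ), (∀ i, EigN μ G N (h i)) ∧
    eLpNorm (fun x => f x - ∑ i, h i x) 2 μ ≤ ENNReal.ofReal ε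

/-- everywhere version of an eigenfunction -/
theorem EigN.exists_everywhere [MeasurableSpace X] {μ : Measure X}
    {G : Subgroup (Equiv.Perm X)} [Countable G] (hG : ∀ γ ∈ G, MP2 μ γ) {N : Subgroup G}
    (hn : N.Normal) {h : X → ℂ} (H : EigN μ G N h) :
    ∃ (M : ℝ) (h' : X → ℂ) (χ : G → ℂ), 0 < M ∧ Measurable h' ∧ (∀ x, ‖h' x‖ ≤ 1) ∧
      EigL G N h' χ ∧ ∀ᵐ x ∂μ, h x = M * h' x := by
  classical
  obtain ⟨hm, χ, hχ1, hχ2, hχ3⟩ := H
  obtain ⟨M, f, hM, hfm, hfe, hfb⟩ := exists_bdd μ h hm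
  have hMc : (M : ℂ) ≠ 0 := by
    exact_mod_cast hM.ne'
  set E : Set X := {x | ∀ γ : G, ‖f ((γ : Equiv.Perm X) x)‖ ≤ M ∧
    ∀ ν : G, ν ∈ N → f (((γ * ν : G) : Equiv.Perm X) x) =
      χ ν * f ((γ : Equiv.Perm X) x)} with hE
  have hmeasG : ∀ γ : G, Measurable ⇑(γ : Equiv.Perm X) := fun γ => (hG γ γ.2).1.measurable
  have hEm : MeasurableSet E := by
    rw [hE, Set.ofPred_forall]
    refine MeasurableSet.iInter fun γ => ?_
    rw [Set.ofPred_and]
    refine MeasurableSet.inter ?_ ?_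
    · exact measurableSet_le (hfm.comp (hmeasG γ)).norm measurable_const
    · rw [Set.ofPred_forall]
      refine MeasurableSet.iInter fun ν => ?_
      by_cases hν : ν ∈ N
      · simp only [hν, forall_true_left]
        exact measurableSet_eq_fun (hfm.comp (hmeasG (γ * ν)))
          (measurable_const.mul (hfm.comp (hmeasG γ)))
      · simp only [hν, false_imp_iff, Set.ofPred_true]
        exact MeasurableSet.univ
  have hEae : ∀ᵐ x ∂μ, x ∈ E := by
    rw [hE]
    simp only [Set.mem_ofPred_eq]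
    rw [ae_all_iff]
    intro γ
    rw [eventually_and]
    constructor
    · exact (hG γ γ.2).1.quasiMeasurePreserving.ae hfb
    · rw [ae_all_iff]
      intro ν
      by_cases hν : ν ∈ N
      · simp only [hν, forall_true_left]
        -- `f (γ ν x) = f ((γ ν γ⁻¹) (γ x))`
        have hν' : γ * ν * γ⁻¹ ∈ N := hn.conj_mem ν hν γ
        have h1 : ∀ᵐ x ∂μ, f (((γ * ν * γ⁻¹ : G) : Equiv.Perm X) x) = χ (γ * ν * γ⁻¹) * f x := by
          have h2 := hχ3 _ hν'
          have h3 := (hG _ (γ * ν * γ⁻¹).2).1.quasiMeasurePreserving.ae hfe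
          filter_upwards [h2, h3, hfe] with x a1 a2 a3
          rw [← a2, a1, a3]
        have h4 := (hG γ γ.2).1.quasiMeasurePreserving.ae h1
        filter_upwards [h4] with x hx
        rw [hχ2 γ ν hν, ← Equiv.Perm.mul_apply, ← Subgroup.coe_mul, inv_mul_cancel_right] at hx
        exact hx
      · simp [hν]
  have hEinv : ∀ (δ : G) (x : X), x ∈ E → (δ : Equiv.Perm X) x ∈ E := by
    intro δ x hx
    rw [hE] at hx ⊢
    intro γ
    constructor
    · have := (hx (γ * δ)).1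
      rwa [Subgroup.coe_mul, Equiv.Perm.mul_apply] at this
    · intro ν hν
      have hν' : δ⁻¹ * ν * δ ∈ N := by
        have := hn.conj_mem ν hν δ⁻¹
        rwa [inv_inv] at this
      have h1 := (hx (γ * δ)).2 _ hν'
      have h2 : χ (δ⁻¹ * ν * δ) = χ ν := by
        have := hχ2 δ⁻¹ ν hν
        rwa [inv_inv] at this
      rw [h2] at h1
      have e1 : γ * δ * (δ⁻¹ * ν * δ) = γ * ν * δ := by group
      rw [e1] at h1
      exact h1
  have hEiff : ∀ (δ : G) (x : X), (δ : Equiv.Perm X) x ∈ E ↔ x ∈ E := by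
    intro δ x
    constructor
    · intro h1
      have := hEinv δ⁻¹ _ h1
      rwa [← Equiv.Perm.mul_apply, ← Subgroup.coe_mul, inv_mul_cancel, Subgroup.coe_one,
        Equiv.Perm.one_apply] at this
    · exact hEinv δ x
  refine ⟨M, E.indicator fun x => (M : ℂ)⁻¹ * f x, χ, hM,
    (measurable_const.mul hfm).indicator hEm, ?_, ⟨fun ν hν => (hχ1 ν hν).le, ?_⟩, ?_⟩
  · intro x
    by_cases hx : x ∈ E
    · rw [Set.indicator_of_mem hx, norm_mul, norm_inv, Complex.norm_real, Real.norm_eq_abs,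
        abs_of_pos hM, inv_mul_le_iff₀ hM, mul_one]
      have := (hx 1).1
      rwa [Subgroup.coe_one, Equiv.Perm.one_apply] at this
    · rw [Set.indicator_of_notMem hx, norm_zero]
      norm_num
  · intro γ ν hν y
    by_cases hy : y ∈ E
    · rw [Set.indicator_of_mem ((hEiff (γ * ν) y).2 hy), Set.indicator_of_mem ((hEiff γ y).2 hy),
        (hy γ).2 ν hν]
      ring
    · rw [Set.indicator_of_notMem (fun h1 => hy ((hEiff (γ * ν) y).1 h1)),
        Set.indicator_of_notMem (fun h1 => hy ((hEiff γ y).1 h1)), mul_zero]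
  · filter_upwards [hEae, hfe] with x hx he
    rw [Set.indicator_of_mem hx, he, mul_inv_cancel_left₀ hMc]

/-- passing to the closed span -/
theorem Cv_of_InN [MeasurableSpace X] {μ : Measure X} [IsProbabilityMeasure μ]
    {G : Subgroup (Equiv.Perm X)} [Countable G] (hG : ∀ γ ∈ G, MP2 μ γ) {N₀ : Subgroup G}
    (hn : N₀.Normal)
    {s₁ s₂ : ℤ → Equiv.Perm X} (hs₁ : ∀ n, MeasurePreserving ⇑(s₁ n) μ μ)
    (hs₂ : ∀ n, MeasurePreserving ⇑(s₂ n) μ μ) (hS : Sg μ s₁) {f g : X → ℂ}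
    (hf : MemLp f ∞ μ) (hg : MemLp g ∞ μ) (hE : InN μ G N₀ f)
    (H : ∀ h, EigN μ G N₀ h → Cv μ s₁ s₂ h g) : Cv μ s₁ s₂ f g := by
  obtain ⟨M, f', hM, fm, fb, fe⟩ := exists_bdd' μ f hf
  obtain ⟨N, g', hN, gm, gb, ge⟩ := exists_bdd' μ g hg
  have fe' : ∀ᵐ x ∂μ, f x = (fun x => (M : ℂ) * f' x) x := fe
  have ge' : ∀ᵐ x ∂μ, g x = (fun x => (N : ℂ) * g' x) x := ge
  have ge'' : ∀ᵐ x ∂μ, (fun x => (N : ℂ) * g' x) x = g x := by
    filter_upwards [ge] with x hx
    exact hx.symm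
  refine Cv.congr hs₁ hs₂ (f := fun x => (M : ℂ) * f' x) (g := fun x => (N : ℂ) * g' x)
    ?_ fe' ge'
  refine Cv.closure hs₁ hS (measurable_const.mul fm) ⟨M, fun x => ?_⟩ ⟨N, fun x => ?_⟩ ?_
  · rw [norm_mul, Complex.norm_real, Real.norm_eq_abs, abs_of_pos hM]
    exact mul_le_of_le_one_right hM.le (fb x)
  · rw [norm_mul, Complex.norm_real, Real.norm_eq_abs, abs_of_pos hN]
    exact mul_le_of_le_one_right hN.le (gb x)
  intro ε hε
  obtain ⟨δ, hδ, hδε⟩ : ∃ δ : ℝ, 0 < δ ∧ ENNReal.ofReal δ ≤ ε := by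
    rcases eq_or_ne ε ⊤ with rfl | htop
    · exact ⟨1, one_pos, le_top⟩
    · exact ⟨ε.toReal, ENNReal.toReal_pos hε htop, ENNReal.ofReal_toReal_le⟩
  obtain ⟨k, h, hh, hhn⟩ := hE δ hδ
  choose M' h' χ' hM' hm' hb' _ he' using fun i => (hh i).exists_everywhere hG hn
  refine ⟨fun x => ∑ i, (M' i : ℂ) * h' i x, ?_, ⟨∑ i, M' i, fun x => ?_⟩, ?_, ?_⟩
  · exact Finset.measurable_fun_sum _ fun i _ => measurable_const.mul (hm' i)
  · refine (norm_sum_le _ _).trans (Finset.sum_le_sum fun i _ => ?_)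
    rw [norm_mul, Complex.norm_real, Real.norm_eq_abs, abs_of_pos (hM' i)]
    exact mul_le_of_le_one_right (hM' i).le (hb' i x)
  · have he'' : ∀ᵐ x ∂μ, ∀ i, h i x = (M' i : ℂ) * h' i x := by
      rw [ae_all_iff]; exact he'
    have h1 : ∫⁻ x, ‖(M : ℂ) * f' x - ∑ i, (M' i : ℂ) * h' i x‖ₑ ∂μ =
        ∫⁻ x, ‖f x - ∑ i, h i x‖ₑ ∂μ := by
      apply lintegral_congr_ae
      filter_upwards [fe, he''] with x e1 e2
      simp only [e1, e2]
    rw [h1, ← eLpNorm_one_eq_lintegral_enorm]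
    have hmeas : AEStronglyMeasurable (fun x => f x - ∑ i, h i x) μ :=
      hf.aestronglyMeasurable.sub
        (Finset.aestronglyMeasurable_fun_sum _ fun i _ => (hh i).1.aestronglyMeasurable)
    exact (eLpNorm_le_eLpNorm_of_exponent_le (by norm_num) hmeas).trans (hhn.trans hδε)
  · have h2 : Cv μ s₁ s₂ (fun x => ∑ i, (M' i : ℂ) * h' i x)
        (fun x => ∑ _j : Fin 1, (N : ℂ) * g' x) := by
      refine Cv.sum (fun i x => (M' i : ℂ) * h' i x) (fun _ x => (N : ℂ) * g' x) fun i _ => ?_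
      refine (H (h i) (hh i)).congr hs₁ hs₂ ?_ ge''
      filter_upwards [he' i] with x hx
      exact hx.symm
    simpa only [Finset.univ_unique, Finset.sum_const, Finset.card_singleton, one_smul] using h2


end NP2
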