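import Pool.Agent.NP2.Clk

/-!
# NP2 / Cnt : counting the advance of the clock

`κ E D_{k1} ≤ 5000 (total number of moves)`.

`κ cc_k ≤ cc_k LL_k`, so `κ E av cc_k = κ E cc_k ≤ E cc_k av(bb_k) = E (av cc_k) bb_k` (`av_sum`,
`av_symm`); with `d_k = D0 av cc_k = D_k - D_{k+1}` in `[0, D0]`:
`κ E D_{k1} = κ ∑_k E d_k ≤ ∑_k E d_k(u) rT_k(u) + ∑_k E d_k(u) rS_k(u + th c)`.
For a move of `u` at level `w`: `d_w ≤ D0` and the sum over `k < w` of `d_k(u)` with
`D_{k+1}(u) - D_w(u) ≤ 4` is at most `4 + D0`.  For a move of `v = u + th c` at `w`: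
`DS_{k+1}(v) - DS_w(v) ≤ 4` implies `D_{k+1}(u) - D_w(u) ≤ 4.5` (`clk_tied` with `z = 0`).
-/

namespace NP2
open Finset

noncomputable section

variable {M : ℕ} [NeZero M]

private theorem cnt_inner (a : ℕ → ℝ) (B t : ℝ) (hB : 0 ≤ B) (ht : 0 ≤ t) (w : ℕ)
    (hs : ∀ k < w, a (k + 1) ≤ a k ∧ a k ≤ a (k + 1) + B) (n : ℕ) :
    ∀ j, j + n = w →
      (∑ k ∈ Ico j w, if a (k + 1) - a w ≤ t then a k - a (k + 1) else 0) ≤ a j - a w ∧
      (∑ k ∈ Ico j w, if a (k + 1) - a w ≤ t then a k - a (k + 1) else 0) ≤ B + t := by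
  induction n with
  | zero =>
    intro j hj
    have hjw : j = w := by omega
    subst hjw
    simp only [Ico_self, sum_empty, sub_self, le_refl, true_and]
    linarith
  | succ n ih =>
    intro j hj
    obtain ⟨h1, h2⟩ := ih (j + 1) (by omega)
    have hjw : j < w := by omega
    rw [Finset.sum_eq_sum_Ico_succ_bot hjw]
    obtain ⟨s1, s2⟩ := hs j hjw
    split_ifs with hc
    · constructor <;> linarith
    · constructor <;> linarith

private theorem cnt_core (a m : ℕ → ℝ) (B t : ℝ) (hB : 0 ≤ B) (ht : 0 ≤ t) (k1 K : ℕ)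
    (hm : ∀ k, 0 ≤ m k) (hs : ∀ k ≤ K, a (k + 1) ≤ a k ∧ a k ≤ a (k + 1) + B) :
    ∑ k ∈ Icc k1 K, (a k - a (k + 1)) *
        (m k + ∑ w ∈ Icc (k + 1) K, if a (k + 1) - a w ≤ t then m w else 0)
      ≤ (2 * B + t) * ∑ k ∈ Icc k1 K, m k := by
  have e1 : ∑ k ∈ Icc k1 K, (a k - a (k + 1)) *
        (m k + ∑ w ∈ Icc (k + 1) K, if a (k + 1) - a w ≤ t then m w else 0) =
      ∑ k ∈ Icc k1 K, (a k - a (k + 1)) * m k +
        ∑ k ∈ Icc k1 K, ∑ w ∈ Icc (k + 1) K,
          (if a (k + 1) - a w ≤ t then a k - a (k + 1) else 0) * m w := by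
    rw [← Finset.sum_add_distrib]
    refine Finset.sum_congr rfl fun k _ => ?_
    rw [mul_add, Finset.mul_sum]
    congr 1
    refine Finset.sum_congr rfl fun w _ => ?_
    split_ifs <;> ring
  have e2 : ∑ k ∈ Icc k1 K, ∑ w ∈ Icc (k + 1) K,
          (if a (k + 1) - a w ≤ t then a k - a (k + 1) else 0) * m w =
      ∑ w ∈ Icc k1 K, ∑ k ∈ Ico k1 w,
          (if a (k + 1) - a w ≤ t then a k - a (k + 1) else 0) * m w := by
    apply Finset.sum_comm'
    intro k w
    simp only [mem_Icc, mem_Ico]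
    omega
  rw [e1, e2, ← Finset.sum_add_distrib, Finset.mul_sum]
  refine Finset.sum_le_sum fun w hw => ?_
  rw [mem_Icc] at hw
  rw [← Finset.sum_mul, ← add_mul]
  refine mul_le_mul_of_nonneg_right ?_ (hm w)
  have h1 := (cnt_inner a B t hB ht w (fun k hk => hs k (by omega)) (w - k1) k1 (by omega)).2
  have h2 := (hs w hw.2).2
  linarith

private theorem cnt_blocks (f : ℕ → ℝ) (m n : ℕ) :
    ∑ c ∈ range (n * m), f c = ∑ b ∈ range n, ∑ c' ∈ range m, f (b * m + c') := by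
  induction n with
  | zero => simp
  | succ n ih => rw [Finset.sum_range_succ, ← ih, Nat.succ_mul, Finset.sum_range_add]

private theorem cnt_avg (G : ℕ → ℕ → ℝ) (K k : ℕ) (hk : k ≤ K) :
    ∑ c ∈ range (2 ^ K), (∑ c' ∈ range (2 ^ k), G (c / 2 ^ k) (c / 2 ^ k * 2 ^ k + c')) / 2 ^ k =
      ∑ c ∈ range (2 ^ K), G (c / 2 ^ k) c := by
  have hK : 2 ^ K = 2 ^ (K - k) * 2 ^ k := by
    rw [← pow_add]
    congr 1
    omega
  have hpos : 0 < 2 ^ k := by positivity
  rw [hK, cnt_blocks, cnt_blocks]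
  refine Finset.sum_congr rfl fun b _ => ?_
  have hdiv : ∀ c' ∈ range (2 ^ k), (b * 2 ^ k + c') / 2 ^ k = b := by
    intro c' hc'
    rw [mem_range] at hc'
    rw [mul_comm, Nat.mul_add_div hpos, Nat.div_eq_of_lt hc', add_zero]
  have e1 : ∑ c'' ∈ range (2 ^ k), (∑ c' ∈ range (2 ^ k),
        G ((b * 2 ^ k + c'') / 2 ^ k) ((b * 2 ^ k + c'') / 2 ^ k * 2 ^ k + c')) / 2 ^ k =
      ∑ _c'' ∈ range (2 ^ k), (∑ c' ∈ range (2 ^ k), G b (b * 2 ^ k + c')) / 2 ^ k := by
    refine Finset.sum_congr rfl fun c'' hc'' => ?_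
    rw [hdiv c'' hc'']
  have e2 : ∑ c' ∈ range (2 ^ k), G ((b * 2 ^ k + c') / 2 ^ k) (b * 2 ^ k + c') =
      ∑ c' ∈ range (2 ^ k), G b (b * 2 ^ k + c') := by
    refine Finset.sum_congr rfl fun c' hc' => ?_
    rw [hdiv c' hc']
  rw [e1, e2, Finset.sum_const, card_range, nsmul_eq_mul]
  push_cast
  field_simp

private theorem cnt_ex_avg (F : ℕ → ℕ → A M → ℝ) (K k : ℕ) (hk : k ≤ K) :
    ex K (fun c u => (∑ c' ∈ range (2 ^ k), F (c / 2 ^ k) (c / 2 ^ k * 2 ^ k + c') u) / 2 ^ k) =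
      ex K (fun c u => F (c / 2 ^ k) c u) := by
  unfold ex
  congr 1
  have h := cnt_avg (fun b c => ∑ u : A M, F b c u) K k hk
  rw [← h]
  refine Finset.sum_congr rfl fun c _ => ?_
  rw [← Finset.sum_div, Finset.sum_comm]

private theorem cnt_tel (a : ℕ → ℝ) (k1 K : ℕ) (hk : k1 ≤ K) :
    ∑ k ∈ Icc k1 K, (a k - a (k + 1)) = a k1 - a (K + 1) := by
  induction K, hk using Nat.le_induction with
  | base => simp
  | succ n hn ih =>
    rw [← Finset.insert_Icc_right_eq_Icc_add_one (by omega), Finset.sum_insert (by simp), ih]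
    ring

private theorem cnt_level {K : ℕ} {κ : ℝ} {mT mS D : ℕ → ℕ → A M → ℝ}
    (hκ : 0 < κ) (k : ℕ) :
    κ * ex K (fun c u => D0 * av k (c / 2 ^ k * 2 ^ k) (cc K κ mT mS D k (c / 2 ^ k)) u) ≤
      ex K (fun c u => D0 * av k (c / 2 ^ k * 2 ^ k) (cc K κ mT mS D k (c / 2 ^ k)) u *
        bb K mT mS D k (c / 2 ^ k) u) := by
  unfold ex
  rw [← mul_div_assoc]
  have hM : 0 < (M : ℝ) := by
    have := NeZero.pos M
    exact_mod_cast this
  refine div_le_div_of_nonneg_right ?_ (by positivity)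
  rw [Finset.mul_sum]
  refine Finset.sum_le_sum fun c _ => ?_
  set b := c / 2 ^ k
  have h0 : (0 : ℝ) ≤ D0 := by unfold D0; norm_num
  have key : ∀ u : A M, κ * cc K κ mT mS D k b u ≤ cc K κ mT mS D k b u * LL K mT mS D k b u := by
    intro u
    rcases le_or_gt (LL K mT mS D k b u) κ with hL | hL
    · have hz : cc K κ mT mS D k b u = 0 := by
        unfold cc
        have : LL K mT mS D k b u / κ - 1 ≤ 0 := by
          rw [sub_nonpos, div_le_one hκ]
          exact hL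
        rw [max_eq_left this]
        norm_num
      rw [hz]
      simp
    · have := cc_nonneg K κ mT mS D k b u
      nlinarith
  calc κ * ∑ u : A M, D0 * av k (b * 2 ^ k) (cc K κ mT mS D k b) u
      = D0 * (κ * ∑ u : A M, av k (b * 2 ^ k) (cc K κ mT mS D k b) u) := by
        rw [← Finset.mul_sum]; ring
    _ = D0 * (∑ u : A M, κ * cc K κ mT mS D k b u) := by
        rw [av_sum, Finset.mul_sum]
    _ ≤ D0 * (∑ u : A M, cc K κ mT mS D k b u * LL K mT mS D k b u) := by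
        refine mul_le_mul_of_nonneg_left ?_ h0
        exact Finset.sum_le_sum fun u _ => key u
    _ = D0 * (∑ u : A M, av k (b * 2 ^ k) (cc K κ mT mS D k b) u * bb K mT mS D k b u) := by
        congr 1
        exact av_symm k (b * 2 ^ k) (cc K κ mT mS D k b) (bb K mT mS D k b)
    _ = ∑ u : A M, D0 * av k (b * 2 ^ k) (cc K κ mT mS D k b) u * bb K mT mS D k b u := by
        rw [Finset.mul_sum]
        refine Finset.sum_congr rfl fun u _ => ?_
        ring

private theorem cnt_pow (c k : ℕ) : c / 2 ^ k / 2 = c / 2 ^ (k + 1) := by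
  rw [Nat.div_div_eq_div_mul, ← pow_succ]

private theorem cnt_pow' (c k w : ℕ) (hw : k ≤ w) : c / 2 ^ k / 2 ^ (w - k) = c / 2 ^ w := by
  rw [Nat.div_div_eq_div_mul, ← pow_add]
  congr 2
  omega

/-- total mass of a nonnegative real process over the levels `[k1, K]` -/
def totr (K k1 : ℕ) (m : ℕ → ℕ → A M → ℝ) : ℝ :=
  ∑ k ∈ Icc k1 K, ex K (fun c u => m k (c / 2 ^ k) u)

theorem clk_count {K : ℕ} {κ : ℝ} {mT mS D : ℕ → ℕ → A M → ℝ} (h : IsClock K κ mT mS D)
    (hκ : 0 < κ) (hT : ∀ k b u, 0 ≤ mT k b u) (hS : ∀ k b u, 0 ≤ mS k b u)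
    (k1 : ℕ) (hk1 : k1 ≤ K) :
    κ * ex K (fun c u => D k1 (c / 2 ^ k1) u) ≤ 5000 * (totr K k1 mT + totr K k1 mS) := by
  have hD0 : D0 = 2000 := rfl
  -- the increments along the path
  have hd : ∀ k ≤ K, ∀ (c : ℕ) (u : A M),
      D0 * av k (c / 2 ^ k * 2 ^ k) (cc K κ mT mS D k (c / 2 ^ k)) u =
        D k (c / 2 ^ k) u - D (k + 1) (c / 2 ^ (k + 1)) u := by
    intro k hk c u
    have h1 := h.step k hk (c / 2 ^ k) u
    rw [cnt_pow] at h1
    linarith
  have hstep : ∀ k ≤ K, ∀ (c : ℕ) (u : A M),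
      D (k + 1) (c / 2 ^ (k + 1)) u ≤ D k (c / 2 ^ k) u ∧
        D k (c / 2 ^ k) u ≤ D (k + 1) (c / 2 ^ (k + 1)) u + 2000 := by
    intro k hk c u
    have h1 := clk_step_le h k hk (c / 2 ^ k) u
    rw [cnt_pow, hD0] at h1
    exact h1
  have htel : ∀ (c : ℕ) (u : A M), D k1 (c / 2 ^ k1) u =
      ∑ k ∈ Icc k1 K, D0 * av k (c / 2 ^ k * 2 ^ k) (cc K κ mT mS D k (c / 2 ^ k)) u := by
    intro c u
    have h1 := cnt_tel (fun k => D k (c / 2 ^ k) u) k1 K hk1
    rw [h.top, sub_zero] at h1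
    rw [← h1]
    refine Finset.sum_congr rfl fun k hk => ?_
    rw [mem_Icc] at hk
    exact (hd k hk.2 c u).symm
  -- the bound of one level
  have hlev : ∀ k ∈ Icc k1 K,
      κ * ex K (fun c u => D0 * av k (c / 2 ^ k * 2 ^ k) (cc K κ mT mS D k (c / 2 ^ k)) u) ≤
      ex K (fun c u => (D k (c / 2 ^ k) u - D (k + 1) (c / 2 ^ (k + 1)) u) *
          rT K mT D k (c / 2 ^ k) u) +
      ex K (fun c u => (D k (c / 2 ^ k) u - D (k + 1) (c / 2 ^ (k + 1)) u) *
          rS K mS D k (c / 2 ^ k) (u + th M c)) := by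
    intro k hk
    rw [mem_Icc] at hk
    refine (cnt_level hκ k).trans (le_of_eq ?_)
    have e1 : ex K (fun c u => D0 * av k (c / 2 ^ k * 2 ^ k) (cc K κ mT mS D k (c / 2 ^ k)) u *
          bb K mT mS D k (c / 2 ^ k) u) =
        ex K (fun c u => (fun c u => D0 * av k (c / 2 ^ k * 2 ^ k)
            (cc K κ mT mS D k (c / 2 ^ k)) u * rT K mT D k (c / 2 ^ k) u) c u +
          (fun c u => (∑ c' ∈ range (2 ^ k),
            (fun (b a : ℕ) (u : A M) => D0 * av k (b * 2 ^ k) (cc K κ mT mS D k b) u *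
              rS K mS D k b (u + th M a)) (c / 2 ^ k) (c / 2 ^ k * 2 ^ k + c') u) / 2 ^ k) c u) := by
      congr 1
      funext c u
      simp only [bb]
      rw [mul_add, ← mul_div_assoc, Finset.mul_sum]
    have e2 := cnt_ex_avg (fun (b a : ℕ) (u : A M) =>
      D0 * av k (b * 2 ^ k) (cc K κ mT mS D k b) u * rS K mS D k b (u + th M a)) K k hk.2
    rw [e1, ex_add]
    refine (congrArg (fun x => ex K (fun c u => D0 * av k (c / 2 ^ k * 2 ^ k)
            (cc K κ mT mS D k (c / 2 ^ k)) u * rT K mT D k (c / 2 ^ k) u) + x) e2).trans ?_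
    simp only [hd k hk.2]
  -- the sums over the levels, pointwise
  have hTsum : ∀ (c : ℕ) (u : A M), ∑ k ∈ Icc k1 K,
      (D k (c / 2 ^ k) u - D (k + 1) (c / 2 ^ (k + 1)) u) * rT K mT D k (c / 2 ^ k) u ≤
      5000 * ∑ k ∈ Icc k1 K, mT k (c / 2 ^ k) u := by
    intro c u
    have h1 := cnt_core (fun k => D k (c / 2 ^ k) u) (fun k => mT k (c / 2 ^ k) u) 2000 4
      (by norm_num) (by norm_num) k1 K (fun k => hT _ _ _) (fun k hk => hstep k hk c u)
    have h2 : 0 ≤ ∑ k ∈ Icc k1 K, mT k (c / 2 ^ k) u := Finset.sum_nonneg fun k _ => hT _ _ _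
    have h3 : ∑ k ∈ Icc k1 K,
      (D k (c / 2 ^ k) u - D (k + 1) (c / 2 ^ (k + 1)) u) * rT K mT D k (c / 2 ^ k) u =
      ∑ k ∈ Icc k1 K, (D k (c / 2 ^ k) u - D (k + 1) (c / 2 ^ (k + 1)) u) *
        (mT k (c / 2 ^ k) u + ∑ w ∈ Icc (k + 1) K,
          if D (k + 1) (c / 2 ^ (k + 1)) u - D w (c / 2 ^ w) u ≤ 4 then mT w (c / 2 ^ w) u
            else 0) := by
      refine Finset.sum_congr rfl fun k _ => ?_
      congr 1
      unfold rT
      congr 1
      refine Finset.sum_congr rfl fun w hw => ?_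
      rw [mem_Icc] at hw
      rw [cnt_pow, cnt_pow' c k w (by omega)]
    rw [h3]
    linarith
  have hSsum : ∀ (c : ℕ) (u : A M), ∑ k ∈ Icc k1 K,
      (D k (c / 2 ^ k) u - D (k + 1) (c / 2 ^ (k + 1)) u) *
        rS K mS D k (c / 2 ^ k) (u + th M c) ≤
      5000 * ∑ k ∈ Icc k1 K, mS k (c / 2 ^ k) (u + th M c) := by
    intro c u
    have htied : ∀ k ≤ K + 1, |DS D k (c / 2 ^ k) (u + th M c) - D k (c / 2 ^ k) u| ≤ 1 / 4 := by
      intro k hk
      have h1 := clk_tied h k hk c u 0 (by simp)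
      have h2 : u + th M c + cs M 0 = u + th M c := by
        unfold cs
        simp
      rw [h2] at h1
      exact h1
    have h1 := cnt_core (fun k => D k (c / 2 ^ k) u) (fun k => mS k (c / 2 ^ k) (u + th M c))
      2000 (9 / 2) (by norm_num) (by norm_num) k1 K (fun k => hS _ _ _)
      (fun k hk => hstep k hk c u)
    have h2 : 0 ≤ ∑ k ∈ Icc k1 K, mS k (c / 2 ^ k) (u + th M c) :=
      Finset.sum_nonneg fun k _ => hS _ _ _
    have h3 : ∑ k ∈ Icc k1 K,
      (D k (c / 2 ^ k) u - D (k + 1) (c / 2 ^ (k + 1)) u) *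
        rS K mS D k (c / 2 ^ k) (u + th M c) ≤
      ∑ k ∈ Icc k1 K, (D k (c / 2 ^ k) u - D (k + 1) (c / 2 ^ (k + 1)) u) *
        (mS k (c / 2 ^ k) (u + th M c) + ∑ w ∈ Icc (k + 1) K,
          if D (k + 1) (c / 2 ^ (k + 1)) u - D w (c / 2 ^ w) u ≤ 9 / 2 then
            mS w (c / 2 ^ w) (u + th M c) else 0) := by
      refine Finset.sum_le_sum fun k hk => ?_
      rw [mem_Icc] at hk
      refine mul_le_mul_of_nonneg_left ?_ (by linarith [(hstep k hk.2 c u).1])
      unfold rS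
      refine add_le_add le_rfl ?_
      refine Finset.sum_le_sum fun w hw => ?_
      rw [mem_Icc] at hw
      rw [cnt_pow, cnt_pow' c k w (by omega)]
      have t1 := htied (k + 1) (by omega)
      have t2 := htied w (by omega)
      rw [abs_le] at t1 t2
      have hm := hS w (c / 2 ^ w) (u + th M c)
      split_ifs with c1 c2
      · exact le_rfl
      · exfalso
        apply c2
        linarith [t1.1, t1.2, t2.1, t2.2]
      · exact hm
      · exact le_rfl
    refine h3.trans ?_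
    linarith
  -- conclusion
  have hexs : ∀ (f : ℕ → ℕ → A M → ℝ),
      ex K (fun c u => 5000 * ∑ k ∈ Icc k1 K, f k c u) =
        5000 * ∑ k ∈ Icc k1 K, ex K (f k) := by
    intro f
    rw [ex_smul, ex_sum]
  calc κ * ex K (fun c u => D k1 (c / 2 ^ k1) u)
      = κ * ∑ k ∈ Icc k1 K,
          ex K (fun c u => D0 * av k (c / 2 ^ k * 2 ^ k) (cc K κ mT mS D k (c / 2 ^ k)) u) := by
        rw [← ex_sum]
        congr 2
        funext c u
        exact htel c u
    _ ≤ ∑ k ∈ Icc k1 K,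
        (ex K (fun c u => (D k (c / 2 ^ k) u - D (k + 1) (c / 2 ^ (k + 1)) u) *
          rT K mT D k (c / 2 ^ k) u) +
        ex K (fun c u => (D k (c / 2 ^ k) u - D (k + 1) (c / 2 ^ (k + 1)) u) *
          rS K mS D k (c / 2 ^ k) (u + th M c))) := by
        rw [Finset.mul_sum]
        exact Finset.sum_le_sum hlev
    _ = ex K (fun c u => ∑ k ∈ Icc k1 K,
          (D k (c / 2 ^ k) u - D (k + 1) (c / 2 ^ (k + 1)) u) * rT K mT D k (c / 2 ^ k) u) +
        ex K (fun c u => ∑ k ∈ Icc k1 K,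
          (D k (c / 2 ^ k) u - D (k + 1) (c / 2 ^ (k + 1)) u) *
            rS K mS D k (c / 2 ^ k) (u + th M c)) := by
        rw [Finset.sum_add_distrib, ex_sum, ex_sum]
    _ ≤ ex K (fun c u => 5000 * ∑ k ∈ Icc k1 K, mT k (c / 2 ^ k) u) +
        ex K (fun c u => 5000 * ∑ k ∈ Icc k1 K, mS k (c / 2 ^ k) (u + th M c)) :=
        add_le_add (ex_mono K _ _ fun c _ u => hTsum c u) (ex_mono K _ _ fun c _ u => hSsum c u)
    _ = 5000 * (totr K k1 mT + totr K k1 mS) := by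
        rw [hexs (fun k c u => mT k (c / 2 ^ k) u),
          hexs (fun k c u => mS k (c / 2 ^ k) (u + th M c)), mul_add]
        congr 2
        unfold totr
        refine Finset.sum_congr rfl fun k _ => ?_
        exact ex_shift K (fun c u => mS k (c / 2 ^ k) u) (fun c => th M c)

end

end NP2
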