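import Mathlib

/-!
# NP2 / Defs

Two transformations `T, S` generating a nilpotent group of step at most two: definitions of the
finite model.  Paper proof: notes 3378 (helper35).

* `A M` : the group of objects `(ZMod M)^2`.  A `T`-object is `u : A M`, an `S`-object is
  `v : A M`; at time `c` the objects `u` and `v = u + th M c` are tied.
* time `c` runs over `range (2^K)`; the block of `c` at level `k` has index `c / 2^k`,
  it is the interval `[b 2^k, (b+1) 2^k)`, `b = c / 2^k`.
* a process with values in `E` is a function `ℕ → ℕ → A M → E` (level, block index, object).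
* `ex K f` : the average of `f c u` over `c ∈ range (2^K)`, `u : A M`.
* `tp K k f g` : the average over tied pairs of the inner product of two functions of
  (block index at level `k`, object).
* `sm Q i V` : smoothing in the central direction with the signed kernel
  `C_Q(j-j')`, `j, j' < 4^i`.
-/

namespace NP2
open Finset

noncomputable section

/-- the group of objects -/
abbrev A (M : ℕ) : Type := ZMod M × ZMod M

/-- the quadratic curve `(c, c(c-1)/2)` -/
def th (M c : ℕ) : A M := ((c : ZMod M), ((c.choose 2 : ℕ) : ZMod M))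

/-- coordinates at a block with left end `l` -/
def co (M l : ℕ) (u : A M) : A M := (u.1, u.2 - (l : ZMod M) * u.1)

/-- central shift by the integer `z` -/
def cs (M : ℕ) (z : ℤ) : A M := (0, (z : ZMod M))

/-- average over times `c < 2^K` and objects -/
def ex {M : ℕ} [NeZero M] (K : ℕ) (f : ℕ → A M → ℝ) : ℝ :=
  (∑ c ∈ range (2 ^ K), ∑ u : A M, f c u) / (2 ^ K * (M : ℝ) ^ 2)

section inner
variable {E : Type*} [NormedAddCommGroup E] [InnerProductSpace ℝ E]

/-- average over tied pairs of the inner product of two functions at level `k` -/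
def tp {M : ℕ} [NeZero M] (K k : ℕ) (f g : ℕ → A M → E) : ℝ :=
  ex K (fun c u => inner ℝ (f (c / 2 ^ k) u) (g (c / 2 ^ k) (u + th M c)))

/-- sum of Ramanujan sums with denominators at most `Q` -/
def CQ (Q : ℕ) (z : ℤ) : ℝ :=
  ∑ q ∈ Icc 1 Q, ∑ p ∈ (range q).filter (fun p => Nat.Coprime p q),
    Real.cos (2 * Real.pi * p * z / q)

/-- central smoothing at scale `4^i` -/
def sm {M : ℕ} (Q i : ℕ) (V : A M → E) (v : A M) : E :=
  ((1 : ℝ) / ((4 : ℝ) ^ i) ^ 2) • ∑ j ∈ range (4 ^ i), ∑ j' ∈ range (4 ^ i),
    CQ Q ((j : ℤ) - j') • V (v + cs M ((j : ℤ) - j'))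

/-- `f` at level `k+1` seen as a function at level `k` -/
def up {M : ℕ} (f : ℕ → A M → E) : ℕ → A M → E := fun b u => f (b / 2) u

/-- the quadratic form of the smoothing -/
def qf {M : ℕ} [NeZero M] (Q i : ℕ) (V : A M → E) : ℝ :=
  ∑ v : A M, inner ℝ (V v) (sm Q i V v)

/-- the band form: weighted sum over all bands `i' ≤ H` and the top term -/
def bf {M : ℕ} [NeZero M] (Q H i : ℕ) (V : A M → E) : ℝ :=
  ∑ i' ∈ range (H + 1), (1 / 2 : ℝ) ^ (((i' : ℤ) - i).natAbs) * (qf Q i' V - qf Q (i' + 1) V)
    + (1 / 2 : ℝ) ^ (H + 1 - i) * qf Q (H + 1) V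

end inner

end

end NP2
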