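import Mathlib

/-!
# NP2 / Dya : dyadic decomposition of a triangular sum

Every pair `m' < m < 2^n` belongs to exactly one product `I_+ × I_-`, where for `i < n`,
`j < 2^(n-1-i)`: `I_- = [2j 2^i, (2j+1) 2^i)`, `I_+ = [(2j+1) 2^i, (2j+2) 2^i)`.
-/

namespace NP2
open Finset

/-- left half of the dyadic interval of level `i+1` with index `j` -/
def dL (i j : ℕ) : Finset ℕ := Ico (2 * j * 2 ^ i) ((2 * j + 1) * 2 ^ i)

/-- right half -/
def dR (i j : ℕ) : Finset ℕ := Ico ((2 * j + 1) * 2 ^ i) ((2 * j + 2) * 2 ^ i)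

private theorem Dya_pow (n i : ℕ) (hi : i < n) : 2 * 2 ^ (n - 1 - i) * 2 ^ i = 2 ^ n := by
  rw [show 2 * 2 ^ (n - 1 - i) * 2 ^ i = 2 ^ (1 + (n - 1 - i) + i) by ring]
  congr 1
  omega

private theorem Dya_split (n i : ℕ) (hi : i < n) (f : ℕ → ℝ) :
    ∑ j ∈ range (2 ^ (n + 1 - 1 - i)), f j =
      ∑ j ∈ range (2 ^ (n - 1 - i)), f j +
        ∑ j ∈ range (2 ^ (n - 1 - i)), f (2 ^ (n - 1 - i) + j) := by
  have h : (2 : ℕ) ^ (n + 1 - 1 - i) = 2 ^ (n - 1 - i) + 2 ^ (n - 1 - i) := by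
    rw [show n + 1 - 1 - i = (n - 1 - i) + 1 by omega]
    ring
  rw [h, Finset.sum_range_add]

private theorem Dya_dR (n i j : ℕ) (hi : i < n) (f : ℕ → ℝ) :
    ∑ m ∈ dR i (2 ^ (n - 1 - i) + j), f m = ∑ m ∈ dR i j, f (m + 2 ^ n) := by
  unfold dR
  rw [Finset.sum_Ico_add', ← Dya_pow n i hi]
  congr 2 <;> ring

private theorem Dya_dL (n i j : ℕ) (hi : i < n) (f : ℕ → ℝ) :
    ∑ m ∈ dL i (2 ^ (n - 1 - i) + j), f m = ∑ m ∈ dL i j, f (m + 2 ^ n) := by
  unfold dL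
  rw [Finset.sum_Ico_add', ← Dya_pow n i hi]
  congr 2 <;> ring

theorem dyadic_tri (n : ℕ) (a : ℕ → ℕ → ℝ) :
    ∑ m ∈ range (2 ^ n), ∑ m' ∈ range m, a m m' =
      ∑ i ∈ range n, ∑ j ∈ range (2 ^ (n - 1 - i)), ∑ m ∈ dR i j, ∑ m' ∈ dL i j, a m m' := by
  induction n generalizing a with
  | zero => simp
  | succ n ih =>
    have hL : ∑ m ∈ range (2 ^ (n + 1)), ∑ m' ∈ range m, a m m' =
        ∑ m ∈ range (2 ^ n), ∑ m' ∈ range m, a m m' +
        (∑ m ∈ range (2 ^ n), ∑ m' ∈ range m, a (m + 2 ^ n) (m' + 2 ^ n) +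
          ∑ m ∈ range (2 ^ n), ∑ m' ∈ range (2 ^ n), a (m + 2 ^ n) m') := by
      rw [show (2 : ℕ) ^ (n + 1) = 2 ^ n + 2 ^ n by ring, Finset.sum_range_add]
      congr 1
      rw [← Finset.sum_add_distrib]
      refine Finset.sum_congr rfl fun m _ => ?_
      rw [Finset.sum_range_add, add_comm, add_comm (2 ^ n) m]
      refine congrArg₂ (· + ·) (Finset.sum_congr rfl fun m' _ => ?_) rfl
      rw [add_comm (2 ^ n) m']
    rw [hL, ih a, ih (fun m m' => a (m + 2 ^ n) (m' + 2 ^ n)), Finset.sum_range_succ, ← add_assoc]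
    congr 1
    · rw [← Finset.sum_add_distrib]
      refine Finset.sum_congr rfl fun i hi => ?_
      rw [Finset.mem_range] at hi
      rw [Dya_split n i hi]
      congr 1
      refine Finset.sum_congr rfl fun j _ => ?_
      rw [Dya_dR n i j hi]
      refine Finset.sum_congr rfl fun m _ => ?_
      rw [Dya_dL n i j hi]
    · rw [show n + 1 - 1 - n = 0 by omega]
      simp only [pow_zero, Finset.range_one, Finset.sum_singleton]
      have h1 : dR n 0 = Ico (0 + 2 ^ n) (2 ^ n + 2 ^ n) := by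
        unfold dR
        congr 1 <;> ring
      have h2 : dL n 0 = range (2 ^ n) := by
        unfold dL
        rw [Finset.range_eq_Ico]
        congr 1 <;> ring
      have h3 := Finset.sum_Ico_add' (fun m => ∑ m' ∈ range (2 ^ n), a m m') 0 (2 ^ n) (2 ^ n)
      rw [h1, h2, ← h3, ← Finset.range_eq_Ico]

/-- the midpoints `(2j+1) 2^i` run over `1, …, 2^n - 1` exactly once -/
theorem dyadic_mid (n : ℕ) (f : ℕ → ℝ) :
    ∑ i ∈ range n, ∑ j ∈ range (2 ^ (n - 1 - i)), f ((2 * j + 1) * 2 ^ i) =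
      ∑ m ∈ Ico 1 (2 ^ n), f m := by
  induction n generalizing f with
  | zero => simp
  | succ n ih =>
    have hpos : 1 ≤ 2 ^ n := Nat.one_le_two_pow
    have h1 : ∑ m ∈ Ico 1 (2 ^ (n + 1)), f m = ∑ m ∈ Ico 1 (2 ^ n), f m +
        (∑ m ∈ Ico 1 (2 ^ n), f (m + 2 ^ n) + f (2 ^ n)) := by
      rw [← Finset.sum_Ico_consecutive f hpos
        (show 2 ^ n ≤ 2 ^ (n + 1) from Nat.pow_le_pow_right (by norm_num) (by omega))]
      congr 1
      rw [← Finset.sum_Ico_consecutive f (show 2 ^ n ≤ 2 ^ n + 1 by omega)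
        (show 2 ^ n + 1 ≤ 2 ^ (n + 1) by rw [pow_succ]; omega), Finset.sum_Ico_add',
        add_comm]
      congr 1
      · congr 2 <;> ring
      · simp
    rw [h1, ← ih f, ← ih (fun m => f (m + 2 ^ n)), Finset.sum_range_succ, ← add_assoc]
    congr 1
    · rw [← Finset.sum_add_distrib]
      refine Finset.sum_congr rfl fun i hi => ?_
      rw [Finset.mem_range] at hi
      rw [Dya_split n i hi]
      congr 1
      refine Finset.sum_congr rfl fun j _ => ?_
      congr 1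
      have := Dya_pow n i hi
      calc (2 * (2 ^ (n - 1 - i) + j) + 1) * 2 ^ i =
          (2 * j + 1) * 2 ^ i + 2 * 2 ^ (n - 1 - i) * 2 ^ i := by ring
        _ = _ := by rw [this]
    · rw [show n + 1 - 1 - n = 0 by omega]
      simp

private theorem Dya_all (i k : ℕ) (f : ℕ → ℝ) :
    ∑ j ∈ range k, (∑ m ∈ dL i j, f m + ∑ m ∈ dR i j, f m) = ∑ m ∈ range (2 * k * 2 ^ i), f m := by
  induction k with
  | zero => simp
  | succ k ih =>
    rw [Finset.sum_range_succ, ih]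
    unfold dL dR
    rw [Finset.sum_Ico_consecutive f (Nat.mul_le_mul_right _ (by omega))
      (Nat.mul_le_mul_right _ (by omega)), Finset.sum_range_add_sum_Ico _
      (Nat.mul_le_mul_right _ (by omega))]
    congr 2

/-- disjointness and masses: for each level the right halves are disjoint subsets of
`range (2^n)` -/
theorem dyadic_sum_R (n i : ℕ) (hi : i < n) (f : ℕ → ℝ) (hf : ∀ m, 0 ≤ f m) :
    ∑ j ∈ range (2 ^ (n - 1 - i)), ∑ m ∈ dR i j, f m ≤ ∑ m ∈ range (2 ^ n), f m := by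
  have h := Dya_all i (2 ^ (n - 1 - i)) f
  rw [Dya_pow n i hi] at h
  rw [← h]
  refine Finset.sum_le_sum fun j _ => ?_
  have : 0 ≤ ∑ m ∈ dL i j, f m := Finset.sum_nonneg fun m _ => hf m
  linarith

theorem dyadic_sum_L (n i : ℕ) (hi : i < n) (f : ℕ → ℝ) (hf : ∀ m, 0 ≤ f m) :
    ∑ j ∈ range (2 ^ (n - 1 - i)), ∑ m ∈ dL i j, f m ≤ ∑ m ∈ range (2 ^ n), f m := by
  have h := Dya_all i (2 ^ (n - 1 - i)) f
  rw [Dya_pow n i hi] at h
  rw [← h]
  refine Finset.sum_le_sum fun j _ => ?_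
  have : 0 ≤ ∑ m ∈ dR i j, f m := Finset.sum_nonneg fun m _ => hf m
  linarith

end NP2
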