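import Pool.Agent.NP2.EndDef

/-!
# NP2 / EndA : one sequence. From few jumps along random dyadic blocks to convergence of the
centred averages.

`bt h k r` is the average of `h` over the window `[-r, 2^k - r)`.  If for all `δ, ε` there is `R`
such that for all `K` at most `ε 2^K` of the `c < 2^K` have `R` jumps `≥ δ` of
`k ↦ bt h k (c mod 2^k)`, `k ≤ K`, then `bt h k r` is uniformly Cauchy, and the averages over
`[-N, N]` converge.
-/

namespace NP2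
open Finset Filter

noncomputable section

/-- average of `h` over the window `[-r, 2^k - r)` -/
def bt (h : ℤ → ℝ) (k r : ℕ) : ℝ := (∑ s ∈ range (2 ^ k), h ((s : ℤ) - r)) / 2 ^ k

lemma NJ_mono {δ : ℝ} {x : ℕ → ℝ} : ∀ {R K K' : ℕ}, K ≤ K' → NJ δ x R K → NJ δ x R K'
  | 0, _, _, _, _ => trivial
  | _ + 1, _, _, h, ⟨k, l, h1, h2, h3, h4⟩ => ⟨k, l, h1, h2.trans h, h3, h4⟩

lemma NJ_congr {δ : ℝ} {x y : ℕ → ℝ} : ∀ {R K : ℕ}, (∀ k ≤ K, x k = y k) →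
    NJ δ x R K → NJ δ y R K
  | 0, _, _, _ => trivial
  | _ + 1, K, h, ⟨k, l, h1, h2, h3, h4⟩ => by
    refine ⟨k, l, h1, h2, ?_, NJ_congr (fun i hi => h i (by omega)) h4⟩
    rw [← h k (by omega), ← h l h2]; exact h3

lemma NJ_pred {δ : ℝ} {x : ℕ → ℝ} : ∀ {R K : ℕ}, NJ δ x (R + 1) K → NJ δ x R K
  | _, _, ⟨_, _, h1, h2, _, h4⟩ => NJ_mono (by omega) h4

lemma NJ_anti {δ : ℝ} {x : ℕ → ℝ} {R R' K : ℕ} (h : R ≤ R') (h' : NJ δ x R' K) :
    NJ δ x R K := by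
  induction R' with
  | zero =>
    have : R = 0 := by omega
    subst this; exact h'
  | succ n ih =>
    rcases Nat.lt_or_ge R (n + 1) with hlt | hge
    · exact ih (by omega) (NJ_pred h')
    · have : R = n + 1 := by omega
      subst this; exact h'

lemma NJ_delta {δ δ' : ℝ} (hd : δ' ≤ δ) {x : ℕ → ℝ} : ∀ {R K : ℕ},
    NJ δ x R K → NJ δ' x R K
  | 0, _, _ => trivial
  | _ + 1, _, ⟨k, l, h1, h2, h3, h4⟩ => ⟨k, l, h1, h2, hd.trans h3, NJ_delta hd h4⟩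

/-- indicator of `NJ` for the path of `c` -/
def jn (h : ℤ → ℝ) (δ : ℝ) (R K c : ℕ) : ℝ :=
  @ite ℝ (NJ δ (fun k => bt h k (c % 2 ^ k)) R K) (Classical.propDecidable _) 1 0

lemma jn_of {h : ℤ → ℝ} {δ : ℝ} {R K c : ℕ} (hn : NJ δ (fun k => bt h k (c % 2 ^ k)) R K) :
    jn h δ R K c = 1 := by
  unfold jn; exact @if_pos _ (Classical.propDecidable _) hn ℝ 1 0

lemma jn_not {h : ℤ → ℝ} {δ : ℝ} {R K c : ℕ} (hn : ¬ NJ δ (fun k => bt h k (c % 2 ^ k)) R K) :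
    jn h δ R K c = 0 := by
  unfold jn; exact @if_neg _ (Classical.propDecidable _) hn ℝ 1 0

lemma jn_nonneg (h : ℤ → ℝ) (δ : ℝ) (R K c : ℕ) : 0 ≤ jn h δ R K c := by
  by_cases hn : NJ δ (fun k => bt h k (c % 2 ^ k)) R K
  · rw [jn_of hn]; norm_num
  · rw [jn_not hn]

lemma jn_le_one (h : ℤ → ℝ) (δ : ℝ) (R K c : ℕ) : jn h δ R K c ≤ 1 := by
  by_cases hn : NJ δ (fun k => bt h k (c % 2 ^ k)) R K
  · rw [jn_of hn]
  · rw [jn_not hn]; norm_num

lemma jn_mono (h : ℤ → ℝ) (δ : ℝ) (R c : ℕ) {K K' : ℕ} (hK : K ≤ K') :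
    jn h δ R K c ≤ jn h δ R K' c := by
  by_cases hn : NJ δ (fun k => bt h k (c % 2 ^ k)) R K
  · rw [jn_of hn, jn_of (NJ_mono hK hn)]
  · rw [jn_not hn]; exact jn_nonneg _ _ _ _ _

lemma mod_pow_mod (c : ℕ) {k K : ℕ} (hk : k ≤ K) : c % 2 ^ K % 2 ^ k = c % 2 ^ k :=
  Nat.mod_mod_of_dvd c (pow_dvd_pow 2 hk)

lemma jn_mod (h : ℤ → ℝ) (δ : ℝ) (R c : ℕ) {K K' : ℕ} (hK : K ≤ K') :
    jn h δ R K (c % 2 ^ K') = jn h δ R K c := by
  by_cases hn : NJ δ (fun k => bt h k (c % 2 ^ k)) R K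
  · rw [jn_of hn, jn_of]
    exact NJ_congr (fun k hk => by rw [mod_pow_mod c (hk.trans hK)]) hn
  · rw [jn_not hn, jn_not]
    intro hn'
    exact hn (NJ_congr (fun k hk => by
      show bt h k (c % 2 ^ K' % 2 ^ k) = bt h k (c % 2 ^ k)
      rw [mod_pow_mod c (hk.trans hK)]) hn')

lemma sum_mod (a b : ℕ) (φ : ℕ → ℝ) :
    ∑ c ∈ range (a * b), φ (c % a) = b * ∑ s ∈ range a, φ s := by
  induction b with
  | zero => simp
  | succ b ih =>
    rw [Nat.mul_succ, Finset.sum_range_add, ih]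
    have : ∀ x ∈ range a, φ ((a * b + x) % a) = φ x := by
      intro x hx
      rw [Nat.mul_add_mod, Nat.mod_eq_of_lt (mem_range.1 hx)]
    rw [sum_congr rfl this]
    push_cast
    ring

/-- the number of `c < 2^K` with `R` jumps -/
def jc (h : ℤ → ℝ) (δ : ℝ) (R K : ℕ) : ℝ := ∑ c ∈ range (2 ^ K), jn h δ R K c

lemma jc_nonneg (h : ℤ → ℝ) (δ : ℝ) (R K : ℕ) : 0 ≤ jc h δ R K :=
  sum_nonneg fun _ _ => jn_nonneg _ _ _ _ _

lemma jc_le (h : ℤ → ℝ) (δ : ℝ) (R K : ℕ) : jc h δ R K ≤ 2 ^ K := by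
  have := Finset.sum_le_sum (s := range (2 ^ K)) fun c _ => jn_le_one h δ R K c
  simpa [jc] using this

/-- the same count over a longer range of times -/
lemma sum_jn (h : ℤ → ℝ) (δ : ℝ) (R : ℕ) {K K' : ℕ} (hK : K ≤ K') :
    ∑ c ∈ range (2 ^ K'), jn h δ R K c = 2 ^ (K' - K) * jc h δ R K := by
  have h1 : (2 : ℕ) ^ K' = 2 ^ K * 2 ^ (K' - K) := by
    rw [← pow_add]; congr 1; omega
  have h2 : ∀ c ∈ range (2 ^ K'), jn h δ R K c = jn h δ R K (c % 2 ^ K) := by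
    intro c _; rw [jn_mod h δ R c le_rfl]
  rw [sum_congr rfl h2, h1, sum_mod]
  push_cast
  rfl

lemma jc_mono (h : ℤ → ℝ) (δ : ℝ) (R : ℕ) {K K' : ℕ} (hK : K ≤ K') :
    2 ^ (K' - K) * jc h δ R K ≤ jc h δ R K' := by
  rw [← sum_jn h δ R hK]
  exact sum_le_sum fun c _ => jn_mono h δ R c hK

/-- the hypothesis -/
def Star (h : ℤ → ℝ) : Prop :=
  ∀ δ : ℝ, 0 < δ → ∀ ε : ℝ, 0 < ε → ∃ R : ℕ, ∀ K : ℕ, jc h δ R K ≤ ε * 2 ^ K

/-- the set of `c < 2^K` with an oscillation `≥ δ` on the levels `[K0, K]` -/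
def Os (h : ℤ → ℝ) (δ : ℝ) (K0 K : ℕ) : Finset ℕ :=
  @Finset.filter ℕ (fun c => ∃ k l, K0 ≤ k ∧ k < l ∧ l ≤ K ∧
    δ ≤ |bt h l (c % 2 ^ l) - bt h k (c % 2 ^ k)|) (Classical.decPred _) (range (2 ^ K))

lemma os_small {h : ℤ → ℝ} (hs : Star h) {δ : ℝ} (hδ : 0 < δ) {ε : ℝ} (hε : 0 < ε) :
    ∃ K0 : ℕ, ∀ K, K0 ≤ K → ((Os h δ K0 K).card : ℝ) ≤ ε * 2 ^ K := by
  obtain ⟨R, hR⟩ := hs δ hδ (ε / 2) (by positivity)
  -- the truncated mean number of jumps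
  obtain ⟨S, hS⟩ : ∃ S : ℕ → ℝ, ∀ K, S K = (∑ r ∈ Icc 1 R, jc h δ r K) / 2 ^ K := ⟨_, fun _ => rfl⟩
  have hmono : Monotone S := by
    refine monotone_nat_of_le_succ fun K => ?_
    rw [hS, hS, div_le_div_iff₀ (by positivity) (by positivity), sum_mul, sum_mul]
    refine sum_le_sum fun r _ => ?_
    have := jc_mono h δ r (Nat.le_succ K)
    have h2 : K.succ - K = 1 := by omega
    rw [h2, pow_one] at this
    have h3 : (0 : ℝ) < 2 ^ K := by positivity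
    rw [pow_succ]
    nlinarith
  have hbdd : ∀ K, S K ≤ R := by
    intro K
    rw [hS, div_le_iff₀ (by positivity)]
    calc ∑ r ∈ Icc 1 R, jc h δ r K ≤ ∑ _r ∈ Icc 1 R, (2 : ℝ) ^ K := sum_le_sum fun r _ => jc_le _ _ _ _
      _ = R * 2 ^ K := by simp
  have hconv : Tendsto S atTop (nhds (⨆ K, S K)) :=
    tendsto_atTop_ciSup hmono ⟨R, by rintro _ ⟨K, rfl⟩; exact hbdd K⟩
  have hsup : ∀ K, S K ≤ ⨆ K, S K := fun K =>
    le_ciSup (f := S) ⟨R, by rintro _ ⟨K, rfl⟩; exact hbdd K⟩ K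
  obtain ⟨K0, hK0⟩ : ∃ K0, (⨆ K, S K) - ε / 2 < S K0 := by
    by_contra hcon
    push Not at hcon
    have := le_of_tendsto' hconv hcon
    linarith
  refine ⟨K0, fun K hK => ?_⟩
  have hdiff : S K - S K0 ≤ ε / 2 := by have := hsup K; linarith
  -- pointwise inequality
  have hpt : ∀ c ∈ Os h δ K0 K, (1 : ℝ) ≤ jn h δ R K0 c +
      ∑ r ∈ Icc 1 R, (jn h δ r K c - jn h δ r K0 c) := by
    intro c hc
    have hnn : ∀ r ∈ Icc 1 R, 0 ≤ jn h δ r K c - jn h δ r K0 c := fun r _ =>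
      sub_nonneg.2 (jn_mono h δ r c hK)
    have hc' := hc
    unfold Os at hc'
    rw [@Finset.mem_filter] at hc'
    obtain ⟨_, k, l, hk, hkl, hl, hj⟩ := hc'
    by_cases hRR : NJ δ (fun k => bt h k (c % 2 ^ k)) R K0
    · rw [jn_of hRR]
      have := sum_nonneg hnn
      linarith
    · -- the first r which fails
      have hex : ∃ r, ¬ NJ δ (fun k => bt h k (c % 2 ^ k)) r K0 := ⟨R, hRR⟩
      obtain ⟨r, hr, hmin⟩ : ∃ r, ¬ NJ δ (fun k => bt h k (c % 2 ^ k)) r K0 ∧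
          ∀ r' < r, NJ δ (fun k => bt h k (c % 2 ^ k)) r' K0 := by
        classical
        refine ⟨Nat.find hex, Nat.find_spec hex, fun r' hr' => ?_⟩
        by_contra hcon
        exact Nat.find_min hex hr' hcon
      have hrR : r ≤ R := by
        by_contra hcon
        push Not at hcon
        exact hRR (hmin R hcon)
      have hr0 : r ≠ 0 := by
        rintro rfl; exact hr trivial
      obtain ⟨q, rfl⟩ := Nat.exists_eq_succ_of_ne_zero hr0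
      have hq : NJ δ (fun k => bt h k (c % 2 ^ k)) (q + 1) K :=
        ⟨k, l, hkl, hl, hj, NJ_mono hk (hmin q (Nat.lt_succ_self q))⟩
      have hone : jn h δ (q + 1) K c - jn h δ (q + 1) K0 c = 1 := by
        rw [jn_of hq, jn_not hr]; norm_num
      have := single_le_sum hnn (mem_Icc.2 ⟨by omega, hrR⟩ : q.succ ∈ Icc 1 R)
      have h0 := jn_nonneg h δ R K0 c
      have h1 : (1 : ℝ) ≤ ∑ r ∈ Icc 1 R, (jn h δ r K c - jn h δ r K0 c) := by
        refine le_trans (le_of_eq ?_) this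
        exact hone.symm
      linarith
  have hnn2 : ∀ c ∈ range (2 ^ K), 0 ≤ jn h δ R K0 c +
      ∑ r ∈ Icc 1 R, (jn h δ r K c - jn h δ r K0 c) := fun c _ =>
    add_nonneg (jn_nonneg _ _ _ _ _)
      (sum_nonneg fun r _ => sub_nonneg.2 (jn_mono h δ r c hK))
  have hsub : Os h δ K0 K ⊆ range (2 ^ K) := by
    unfold Os; exact @Finset.filter_subset _ _ (Classical.decPred _) _
  calc ((Os h δ K0 K).card : ℝ) = ∑ c ∈ Os h δ K0 K, (1 : ℝ) := by simp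
    _ ≤ ∑ c ∈ Os h δ K0 K, (jn h δ R K0 c + ∑ r ∈ Icc 1 R, (jn h δ r K c - jn h δ r K0 c)) :=
        sum_le_sum hpt
    _ ≤ ∑ c ∈ range (2 ^ K), (jn h δ R K0 c + ∑ r ∈ Icc 1 R, (jn h δ r K c - jn h δ r K0 c)) :=
        sum_le_sum_of_subset_of_nonneg hsub fun c hc _ => hnn2 c hc
    _ = 2 ^ (K - K0) * jc h δ R K0 + ∑ r ∈ Icc 1 R, (jc h δ r K - 2 ^ (K - K0) * jc h δ r K0) := by
        rw [sum_add_distrib, sum_jn h δ R hK, sum_comm]
        congr 1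
        refine sum_congr rfl fun r _ => ?_
        rw [sum_sub_distrib, sum_jn h δ r hK]
        rfl
    _ ≤ ε * 2 ^ K := by
        have e1 : (2 : ℝ) ^ K = 2 ^ (K - K0) * 2 ^ K0 := by
          rw [← pow_add]; congr 1; omega
        have e2 : (2 : ℝ) ^ (K - K0) * jc h δ R K0 ≤ ε / 2 * 2 ^ K := by
          have := hR K0
          rw [e1]
          have h3 : (0 : ℝ) < 2 ^ (K - K0) := by positivity
          nlinarith
        have e3 : ∑ r ∈ Icc 1 R, (jc h δ r K - 2 ^ (K - K0) * jc h δ r K0) =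
            (S K - S K0) * 2 ^ K := by
          rw [sum_sub_distrib, ← mul_sum, hS, hS, sub_mul, div_mul_cancel₀ _ (by positivity), e1]
          have h3 : (2 : ℝ) ^ K0 ≠ 0 := by positivity
          field_simp
        rw [e3]
        have h3 : (0 : ℝ) < 2 ^ K := by positivity
        nlinarith

end

end NP2
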