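import Pool.Agent.NP2.EndA

/-!
# NP2 / EndA2 : uniform Cauchy property of the block averages and the centred averages
-/

namespace NP2
open Finset Filter

noncomputable section

lemma bt_step (h : ℤ → ℝ) (k r : ℕ) :
    bt h k (r + 1) - bt h k r = (h (-(r : ℤ) - 1) - h ((2 : ℤ) ^ k - 1 - r)) / 2 ^ k := by
  unfold bt
  rw [← sub_div]
  congr 1
  obtain ⟨n, hn⟩ : ∃ n, 2 ^ k = n + 1 := ⟨2 ^ k - 1, by have := Nat.one_le_two_pow (n := k); omega⟩
  have hn' : ((2 : ℤ) ^ k) = n + 1 := by exact_mod_cast hn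
  rw [hn, sum_range_succ' (fun s : ℕ => h ((s : ℤ) - ((r + 1 : ℕ) : ℤ))) n,
    sum_range_succ (fun s : ℕ => h ((s : ℤ) - (r : ℤ))) n, hn']
  have : ∀ s ∈ range n, h (((s + 1 : ℕ) : ℤ) - ((r + 1 : ℕ) : ℤ)) = h ((s : ℤ) - r) := by
    intro s _; congr 1; push_cast; ring
  rw [sum_congr rfl this]
  push_cast
  have e1 : (0 : ℤ) - (r + 1) = -(r : ℤ) - 1 := by ring
  have e2 : (n : ℤ) + 1 - 1 - r = n - r := by ring
  rw [e1, e2]
  ring

lemma bt_lip_le {h : ℤ → ℝ} (hh : ∀ n, |h n| ≤ 1) (k r d : ℕ) :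
    |bt h k (r + d) - bt h k r| ≤ 2 * d / 2 ^ k := by
  induction d with
  | zero => simp
  | succ d ih =>
    have h1 : |bt h k (r + d + 1) - bt h k (r + d)| ≤ 2 / 2 ^ k := by
      rw [bt_step, abs_div, abs_of_pos (by positivity : (0 : ℝ) < 2 ^ k)]
      refine div_le_div_of_nonneg_right ?_ (by positivity)
      calc |h (-((r + d : ℕ) : ℤ) - 1) - h ((2 : ℤ) ^ k - 1 - ((r + d : ℕ) : ℤ))|
          ≤ |h (-((r + d : ℕ) : ℤ) - 1)| + |h ((2 : ℤ) ^ k - 1 - ((r + d : ℕ) : ℤ))| := abs_sub _ _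
        _ ≤ 1 + 1 := add_le_add (hh _) (hh _)
        _ = 2 := by norm_num
    calc |bt h k (r + (d + 1)) - bt h k r|
        = |(bt h k (r + d + 1) - bt h k (r + d)) + (bt h k (r + d) - bt h k r)| := by
          rw [← add_assoc]; congr 1; ring
      _ ≤ 2 / 2 ^ k + 2 * d / 2 ^ k := (abs_add_le _ _).trans (add_le_add h1 ih)
      _ = 2 * ((d + 1 : ℕ) : ℝ) / 2 ^ k := by push_cast; ring

lemma bt_lip {h : ℤ → ℝ} (hh : ∀ n, |h n| ≤ 1) (k r r' D : ℕ) (h1 : r ≤ r' + D)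
    (h2 : r' ≤ r + D) : |bt h k r - bt h k r'| ≤ 2 * D / 2 ^ k := by
  rcases le_total r r' with hle | hle
  · obtain ⟨d, rfl⟩ := Nat.exists_eq_add_of_le hle
    rw [abs_sub_comm]
    refine (bt_lip_le hh k r d).trans (div_le_div_of_nonneg_right ?_ (by positivity))
    have : (d : ℝ) ≤ D := by exact_mod_cast (by omega : d ≤ D)
    linarith
  · obtain ⟨d, rfl⟩ := Nat.exists_eq_add_of_le hle
    refine (bt_lip_le hh k r' d).trans (div_le_div_of_nonneg_right ?_ (by positivity))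
    have : (d : ℝ) ≤ D := by exact_mod_cast (by omega : d ≤ D)
    linarith

/-- the digits: if for all `s` in `Sg` all `c` with low digits `s` and digits `p` at
`[k-j, k)` are bad, then there are many bad `c` -/
lemma pattern (O : Finset ℕ) (K0 j k K p : ℕ) (hk : K0 + j ≤ k) (hK : k ≤ K) (hp : p < 2 ^ j)
    (Sg : Finset ℕ) (hSg : ∀ s ∈ Sg, s < 2 ^ K0 ∧ ∀ c < 2 ^ K, c % 2 ^ K0 = s →
      c / 2 ^ (k - j) % 2 ^ j = p → c ∈ O) :
    Sg.card * 2 ^ (K - K0 - j) ≤ O.card := by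
  have hcard : (Sg ×ˢ (range (2 ^ (k - j - K0)) ×ˢ range (2 ^ (K - k)))).card =
      Sg.card * 2 ^ (K - K0 - j) := by
    rw [card_product, card_product, card_range, card_range, ← pow_add]
    congr 2; omega
  rw [← hcard]
  refine card_le_card_of_injOn
    (fun q => q.1 + 2 ^ K0 * (q.2.1 + 2 ^ (k - j - K0) * (p + 2 ^ j * q.2.2))) ?_ ?_
  · rintro ⟨s, a, b⟩ hq
    simp only [coe_product, Set.mem_prod, mem_coe, mem_range] at hq
    obtain ⟨hs, ha, hb⟩ := hq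
    obtain ⟨hs1, hs2⟩ := hSg s hs
    show s + 2 ^ K0 * (a + 2 ^ (k - j - K0) * (p + 2 ^ j * b)) ∈ O
    have e1 : 2 ^ (k - j) = 2 ^ K0 * 2 ^ (k - j - K0) := by rw [← pow_add]; congr 1; omega
    have e2 : 2 ^ K = 2 ^ K0 * (2 ^ (k - j - K0) * (2 ^ j * 2 ^ (K - k))) := by
      rw [← pow_add, ← pow_add, ← pow_add]; congr 1; omega
    refine hs2 _ ?_ ?_ ?_
    · rw [e2]
      have h3 : p + 2 ^ j * b < 2 ^ j * 2 ^ (K - k) := by
        calc p + 2 ^ j * b < 2 ^ j + 2 ^ j * b := by omega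
          _ = 2 ^ j * (b + 1) := by ring
          _ ≤ 2 ^ j * 2 ^ (K - k) := Nat.mul_le_mul_left _ hb
      have h4 : a + 2 ^ (k - j - K0) * (p + 2 ^ j * b) <
          2 ^ (k - j - K0) * (2 ^ j * 2 ^ (K - k)) := by
        calc a + 2 ^ (k - j - K0) * (p + 2 ^ j * b) <
            2 ^ (k - j - K0) + 2 ^ (k - j - K0) * (p + 2 ^ j * b) := by omega
          _ = 2 ^ (k - j - K0) * (p + 2 ^ j * b + 1) := by ring
          _ ≤ _ := Nat.mul_le_mul_left _ h3
      calc s + 2 ^ K0 * (a + 2 ^ (k - j - K0) * (p + 2 ^ j * b)) <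
          2 ^ K0 + 2 ^ K0 * (a + 2 ^ (k - j - K0) * (p + 2 ^ j * b)) := by omega
        _ = 2 ^ K0 * (a + 2 ^ (k - j - K0) * (p + 2 ^ j * b) + 1) := by ring
        _ ≤ _ := Nat.mul_le_mul_left _ h4
    · rw [Nat.add_mul_mod_self_left, Nat.mod_eq_of_lt hs1]
    · rw [e1, ← Nat.div_div_eq_div_mul, Nat.add_mul_div_left _ _ (by positivity),
        Nat.div_eq_of_lt hs1, zero_add, Nat.add_mul_div_left _ _ (by positivity),
        Nat.div_eq_of_lt ha, zero_add, Nat.add_mul_mod_self_left, Nat.mod_eq_of_lt hp]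
  · rintro ⟨s, a, b⟩ hq ⟨s', a', b'⟩ hq' heq
    simp only [coe_product, Set.mem_prod, mem_coe, mem_range] at hq hq'
    obtain ⟨hs, ha, hb⟩ := hq
    obtain ⟨hs', ha', hb'⟩ := hq'
    have hs1 := (hSg s hs).1
    have hs1' := (hSg s' hs').1
    simp only at heq
    have h1 := congrArg (fun n => n % 2 ^ K0) heq
    simp only [Nat.add_mul_mod_self_left, Nat.mod_eq_of_lt hs1, Nat.mod_eq_of_lt hs1'] at h1
    have h2 := congrArg (fun n => n / 2 ^ K0) heq
    simp only [Nat.add_mul_div_left _ _ (show 0 < 2 ^ K0 by positivity), Nat.div_eq_of_lt hs1,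
      Nat.div_eq_of_lt hs1', zero_add] at h2
    have h3 := congrArg (fun n => n % 2 ^ (k - j - K0)) h2
    simp only [Nat.add_mul_mod_self_left, Nat.mod_eq_of_lt ha, Nat.mod_eq_of_lt ha'] at h3
    have h4 := congrArg (fun n => n / 2 ^ (k - j - K0)) h2
    simp only [Nat.add_mul_div_left _ _ (show 0 < 2 ^ (k - j - K0) by positivity),
      Nat.div_eq_of_lt ha, Nat.div_eq_of_lt ha', zero_add] at h4
    have h5 := congrArg (fun n => n / 2 ^ j) h4
    simp only [Nat.add_mul_div_left _ _ (show 0 < 2 ^ j by positivity),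
      Nat.div_eq_of_lt hp, zero_add] at h5
    rw [h1, h3, h5]

/-- uniform Cauchy property -/
theorem bt_cauchy {h : ℤ → ℝ} (hh : ∀ n, |h n| ≤ 1) (hs : Star h) {ε : ℝ} (hε : 0 < ε) :
    ∃ k1 : ℕ, ∀ k l r r', k1 ≤ k → k1 ≤ l → r < 2 ^ k → r' < 2 ^ l →
      |bt h k r - bt h l r'| ≤ ε := by
  obtain ⟨j, hj⟩ : ∃ j : ℕ, 8 / ε < 2 ^ j := pow_unbounded_of_one_lt _ (by norm_num)
  have hj' : 8 < ε * 2 ^ j := by rwa [div_lt_iff₀ hε, mul_comm] at hj
  obtain ⟨K0, hK0⟩ := os_small hs (δ := ε / 4) (by positivity)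
    (ε := 1 / (4 * 2 ^ j)) (by positivity)
  refine ⟨K0 + j, fun k l r r' hk hl hr hr' => ?_⟩
  obtain ⟨K, hKdef⟩ : ∃ K, K = max k l := ⟨_, rfl⟩
  have hkK : k ≤ K := by rw [hKdef]; exact le_max_left _ _
  have hlK : l ≤ K := by rw [hKdef]; exact le_max_right _ _
  obtain ⟨O, hO⟩ : ∃ O, O = Os h (ε / 4) K0 K := ⟨_, rfl⟩
  have hOc : ((O.card : ℕ) : ℝ) ≤ 1 / (4 * 2 ^ j) * 2 ^ K := by
    rw [hO]; exact hK0 K (by omega)
  -- for a level `k` and a pattern `p` the set of low digits all of whose extensions are bad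
  obtain ⟨Sg, hSgdef⟩ : ∃ Sg : ℕ → ℕ → Finset ℕ, ∀ k p, Sg k p =
      @Finset.filter ℕ (fun s => ∀ c < 2 ^ K, c % 2 ^ K0 = s →
        c / 2 ^ (k - j) % 2 ^ j = p → c ∈ O) (Classical.decPred _) (range (2 ^ K0)) :=
    ⟨_, fun _ _ => rfl⟩
  have hSgc : ∀ k p, K0 + j ≤ k → k ≤ K → p < 2 ^ j → 4 * (Sg k p).card ≤ 2 ^ K0 := by
    intro k p h1 h2 h3
    have h4 := pattern O K0 j k K p h1 h2 h3 (Sg k p) (by
      intro s hs'
      rw [hSgdef, @Finset.mem_filter] at hs'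
      exact ⟨mem_range.1 hs'.1, hs'.2⟩)
    have h5 : (((Sg k p).card * 2 ^ (K - K0 - j) : ℕ) : ℝ) ≤ 1 / (4 * 2 ^ j) * 2 ^ K :=
      le_trans (by exact_mod_cast h4) hOc
    have e1 : (2 : ℝ) ^ K = 2 ^ K0 * 2 ^ j * 2 ^ (K - K0 - j) := by
      rw [← pow_add, ← pow_add]; congr 1; omega
    rw [e1] at h5
    push_cast at h5
    have e2 : 1 / (4 * (2 : ℝ) ^ j) * (2 ^ K0 * 2 ^ j * 2 ^ (K - K0 - j)) =
        (2 ^ K0 / 4) * 2 ^ (K - K0 - j) := by
      have : (2 : ℝ) ^ j ≠ 0 := by positivity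
      field_simp
    rw [e2] at h5
    have h6 : ((Sg k p).card : ℝ) ≤ 2 ^ K0 / 4 := le_of_mul_le_mul_right h5 (by positivity)
    have h7 : (4 : ℝ) * (Sg k p).card ≤ 2 ^ K0 := by linarith
    exact_mod_cast h7
  -- patterns of r and r'
  have hpat : ∀ k r, K0 + j ≤ k → r < 2 ^ k → r / 2 ^ (k - j) < 2 ^ j := by
    intro k r h1 h2
    rw [Nat.div_lt_iff_lt_mul (by positivity), ← pow_add]
    have : j + (k - j) = k := by omega
    rw [this]; exact h2
  have hA := hSgc k (r / 2 ^ (k - j)) hk hkK (hpat k r hk hr)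
  have hB := hSgc l (r' / 2 ^ (l - j)) hl hlK (hpat l r' hl hr')
  -- a common good s
  obtain ⟨s, hs0, hsA, hsB⟩ : ∃ s < 2 ^ K0, s ∉ Sg k (r / 2 ^ (k - j)) ∧
      s ∉ Sg l (r' / 2 ^ (l - j)) := by
    by_contra hcon
    push Not at hcon
    have hsub : range (2 ^ K0) ⊆ Sg k (r / 2 ^ (k - j)) ∪ Sg l (r' / 2 ^ (l - j)) := by
      intro s hs'
      rw [mem_union]
      by_cases h1 : s ∈ Sg k (r / 2 ^ (k - j))
      · exact Or.inl h1
      · exact Or.inr (hcon s (mem_range.1 hs') h1)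
    have h1 := card_le_card hsub
    rw [card_range] at h1
    have h2 := h1.trans (card_union_le _ _)
    have h3 : 0 < 2 ^ K0 := by positivity
    omega
  have key : ∀ k r, K0 + j ≤ k → k ≤ K → r < 2 ^ k → s ∉ Sg k (r / 2 ^ (k - j)) →
      |bt h k r - bt h K0 s| ≤ ε / 4 + 2 / 2 ^ j := by
    intro k r h1 h2 h3 h4
    rw [hSgdef, @Finset.mem_filter] at h4
    push Not at h4
    obtain ⟨c, hc1, hc2, hc3, hc4⟩ := h4 (mem_range.2 hs0)
    have hclose : |bt h k r - bt h k (c % 2 ^ k)| ≤ 2 / 2 ^ j := by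
      have e1 : c % 2 ^ k / 2 ^ (k - j) = r / 2 ^ (k - j) := by
        have : 2 ^ k = 2 ^ (k - j) * 2 ^ j := by rw [← pow_add]; congr 1; omega
        rw [this, Nat.mod_mul_right_div_self, hc3]
      have e2 := Nat.div_add_mod (c % 2 ^ k) (2 ^ (k - j))
      have e3 := Nat.div_add_mod r (2 ^ (k - j))
      have e4 := Nat.mod_lt (c % 2 ^ k) (show 0 < 2 ^ (k - j) by positivity)
      have e5 := Nat.mod_lt r (show 0 < 2 ^ (k - j) by positivity)
      rw [e1] at e2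
      have := bt_lip hh k r (c % 2 ^ k) (2 ^ (k - j)) (by omega) (by omega)
      refine this.trans (le_of_eq ?_)
      have e6 : (2 : ℝ) ^ k = 2 ^ (k - j) * 2 ^ j := by rw [← pow_add]; congr 1; omega
      rw [e6]
      push_cast
      have : (2 : ℝ) ^ (k - j) ≠ 0 := by positivity
      field_simp
    have hosc : |bt h k (c % 2 ^ k) - bt h K0 s| ≤ ε / 4 := by
      by_contra hcon
      push Not at hcon
      apply hc4
      rw [hO]
      unfold Os
      rw [@Finset.mem_filter]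
      refine ⟨mem_range.2 hc1, K0, k, le_rfl, ?_, h2, ?_⟩
      · rcases Nat.lt_or_ge K0 k with hlt | hge
        · exact hlt
        · exfalso
          have : k = K0 := by omega
          subst this
          rw [hc2] at hcon
          simp at hcon
          linarith
      · rw [hc2]; exact hcon.le
    calc |bt h k r - bt h K0 s| = |(bt h k r - bt h k (c % 2 ^ k)) +
        (bt h k (c % 2 ^ k) - bt h K0 s)| := by congr 1; ring
      _ ≤ 2 / 2 ^ j + ε / 4 := (abs_add_le _ _).trans (add_le_add hclose hosc)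
      _ = ε / 4 + 2 / 2 ^ j := by ring
  have h1 := key k r hk hkK hr hsA
  have h2 := key l r' hl hlK hr' hsB
  have h3 : 2 / (2 : ℝ) ^ j ≤ ε / 4 := by
    rw [div_le_iff₀ (by positivity)]; linarith
  calc |bt h k r - bt h l r'| = |(bt h k r - bt h K0 s) - (bt h l r' - bt h K0 s)| := by
        congr 1; ring
    _ ≤ |bt h k r - bt h K0 s| + |bt h l r' - bt h K0 s| := abs_sub _ _
    _ ≤ ε := by linarith

end

end NP2
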