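import Pool.Agent.NP2.EndA2

/-!
# NP2 / EndA3 : convergence of the centred averages of one sequence
-/

namespace NP2
open Finset Filter

noncomputable section

/-- sum over `[0, t)` -/
def SP (h : ℤ → ℝ) (t : ℕ) : ℝ := ∑ s ∈ range t, h (s : ℤ)

/-- sum over `[-t, 0)` -/
def SM (h : ℤ → ℝ) (t : ℕ) : ℝ := ∑ s ∈ range t, h (-(s : ℤ) - 1)

lemma bt_eq (h : ℤ → ℝ) (k r : ℕ) (hr : r ≤ 2 ^ k) :
    bt h k r * 2 ^ k = SM h r + SP h (2 ^ k - r) := by
  unfold bt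
  rw [div_mul_cancel₀ _ (by positivity)]
  obtain ⟨m, hm⟩ := Nat.exists_eq_add_of_le hr
  have e : 2 ^ k - r = m := by omega
  rw [e, hm, Finset.sum_range_add]
  congr 1
  · unfold SM
    rw [← Finset.sum_range_reflect]
    refine sum_congr rfl fun s hs => ?_
    have := mem_range.1 hs
    congr 1
    omega
  · unfold SP
    refine sum_congr rfl fun s _ => ?_
    congr 1
    push_cast; ring

lemma abs_SP {h : ℤ → ℝ} (hh : ∀ n, |h n| ≤ 1) (t : ℕ) : |SP h t| ≤ t := by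
  unfold SP
  refine (abs_sum_le_sum_abs _ _).trans ((sum_le_sum fun s _ => hh _).trans ?_)
  simp

lemma icc_eq (h : ℤ → ℝ) (N : ℕ) :
    ∑ n ∈ Icc (-(N : ℤ)) (N : ℤ), h n = SP h (N + 1) + SM h N := by
  induction N with
  | zero => simp [SP, SM]
  | succ N ih =>
    have e : Icc (-((N + 1 : ℕ) : ℤ)) ((N + 1 : ℕ) : ℤ) =
        insert (-((N + 1 : ℕ) : ℤ)) (insert ((N + 1 : ℕ) : ℤ) (Icc (-(N : ℤ)) (N : ℤ))) := by
      ext x
      simp only [mem_Icc, mem_insert]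
      push_cast
      omega
    rw [e, sum_insert, sum_insert, ih]
    · unfold SP SM
      rw [sum_range_succ (fun s : ℕ => h (s : ℤ)) (N + 1),
        sum_range_succ (fun s : ℕ => h (-(s : ℤ) - 1)) N]
      have e2 : -((N + 1 : ℕ) : ℤ) = -(N : ℤ) - 1 := by push_cast; ring
      rw [e2]
      ring
    · simp only [mem_Icc]; push_cast; omega
    · simp only [mem_insert, mem_Icc]; push_cast; omega

/-- the theorem on one sequence -/
theorem endA {h : ℤ → ℝ} (hh : ∀ n, |h n| ≤ 1) (hs : Star h) :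
    ∃ β : ℝ, Tendsto (fun N : ℕ => (((2 * N + 1 : ℕ) : ℝ))⁻¹ *
      ∑ n ∈ Icc (-(N : ℤ)) (N : ℤ), h n) atTop (nhds β) := by
  -- the limit of the block averages
  have hc : CauchySeq (fun k => bt h k 0) := by
    rw [Metric.cauchySeq_iff]
    intro ε hε
    obtain ⟨k1, hk1⟩ := bt_cauchy hh hs (ε := ε / 2) (by positivity)
    refine ⟨k1, fun m hm n hn => ?_⟩
    rw [Real.dist_eq]
    have := hk1 m n 0 0 hm hn (by positivity) (by positivity)
    linarith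
  obtain ⟨β, hβ⟩ := cauchySeq_tendsto_of_complete hc
  have hbt1 : ∀ k r, |bt h k r| ≤ 1 := by
    intro k r
    unfold bt
    rw [abs_div, abs_of_pos (by positivity : (0 : ℝ) < 2 ^ k), div_le_one (by positivity)]
    refine (abs_sum_le_sum_abs _ _).trans ((sum_le_sum fun s _ => hh _).trans ?_)
    simp
  have hβ1 : |β| ≤ 1 := le_of_tendsto' hβ.abs fun k => hbt1 k 0
  have hunif : ∀ ε : ℝ, 0 < ε → ∃ k1 : ℕ, ∀ k r, k1 ≤ k → r < 2 ^ k → |bt h k r - β| ≤ ε := by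
    intro ε hε
    obtain ⟨k1, hk1⟩ := bt_cauchy hh hs hε
    refine ⟨k1, fun k r hk hr => ?_⟩
    have h1 : Tendsto (fun l => |bt h k r - bt h l 0|) atTop (nhds |bt h k r - β|) :=
      (tendsto_const_nhds.sub hβ).abs
    refine le_of_tendsto h1 ?_
    filter_upwards [eventually_ge_atTop k1] with l hl
    exact hk1 k l r 0 hk hl hr (by positivity)
  refine ⟨β, ?_⟩
  rw [Metric.tendsto_atTop]
  intro ε0 hε0
  obtain ⟨ε, hεdef⟩ : ∃ ε, ε = ε0 / 42 := ⟨_, rfl⟩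
  have hε : 0 < ε := by rw [hεdef]; positivity
  obtain ⟨k1, hk1⟩ := hunif ε hε
  obtain ⟨φ, hφ⟩ : ∃ φ : ℕ → ℝ, ∀ t, φ t = SP h t - β * t := ⟨_, fun _ => rfl⟩
  obtain ⟨ψ, hψ⟩ : ∃ ψ : ℕ → ℝ, ∀ t, ψ t = SM h t - β * t := ⟨_, fun _ => rfl⟩
  have h1 : ∀ k r, k1 ≤ k → r < 2 ^ k → |ψ r + φ (2 ^ k - r)| ≤ ε * 2 ^ k := by
    intro k r hk hr
    have e := bt_eq h k r hr.le
    have e2 : ψ r + φ (2 ^ k - r) = (bt h k r - β) * 2 ^ k := by
      rw [hψ, hφ, sub_mul, e, Nat.cast_sub hr.le]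
      push_cast; ring
    rw [e2, abs_mul, abs_of_pos (by positivity : (0 : ℝ) < 2 ^ k)]
    exact mul_le_mul_of_nonneg_right (hk1 k r hk hr) (by positivity)
  have h2 : ∀ k r, k1 ≤ k → r < 2 ^ k →
      |φ (2 ^ (k + 1) - r) - φ (2 ^ k - r)| ≤ 3 * ε * 2 ^ k := by
    intro k r hk hr
    have a1 := h1 k r hk hr
    have a2 := h1 (k + 1) r (by omega) (by rw [pow_succ]; omega)
    calc |φ (2 ^ (k + 1) - r) - φ (2 ^ k - r)| =
        |(ψ r + φ (2 ^ (k + 1) - r)) - (ψ r + φ (2 ^ k - r))| := by congr 1; ring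
      _ ≤ |ψ r + φ (2 ^ (k + 1) - r)| + |ψ r + φ (2 ^ k - r)| := abs_sub _ _
      _ ≤ ε * 2 ^ (k + 1) + ε * 2 ^ k := add_le_add a2 a1
      _ = 3 * ε * 2 ^ k := by ring
  have h3 : ∀ t, |φ t| ≤ 6 * ε * t + 2 * 2 ^ k1 := by
    intro t
    induction t using Nat.strong_induction_on with
    | _ t ih =>
      rcases Nat.lt_or_ge (2 ^ k1) t with hlt | hge
      · obtain ⟨k, hk⟩ : ∃ k, k = Nat.log 2 (t - 1) := ⟨_, rfl⟩
        have ht1 : t - 1 ≠ 0 := by have := Nat.one_le_two_pow (n := k1); omega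
        have b1 : 2 ^ k ≤ t - 1 := by rw [hk]; exact Nat.pow_log_le_self 2 ht1
        have b2 : t - 1 < 2 ^ (k + 1) := by rw [hk]; exact Nat.lt_pow_succ_log_self (by norm_num) _
        have hkk : k1 ≤ k := by
          by_contra hcon
          push Not at hcon
          have : 2 ^ (k + 1) ≤ 2 ^ k1 := Nat.pow_le_pow_right (by norm_num) hcon
          omega
        have b3 := h2 k (2 ^ (k + 1) - t) hkk (by rw [pow_succ] at b2 ⊢; omega)
        have e1 : 2 ^ (k + 1) - (2 ^ (k + 1) - t) = t := by omega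
        have e2 : 2 ^ k - (2 ^ (k + 1) - t) = t - 2 ^ k := by rw [pow_succ] at b2 ⊢; omega
        rw [e1, e2] at b3
        have b4 := ih (t - 2 ^ k) (by have := Nat.one_le_two_pow (n := k); omega)
        rw [Nat.cast_sub (by omega)] at b4
        push_cast at b4
        have b5 : |φ t| ≤ |φ t - φ (t - 2 ^ k)| + |φ (t - 2 ^ k)| := by
          calc |φ t| = |(φ t - φ (t - 2 ^ k)) + φ (t - 2 ^ k)| := by congr 1; ring
            _ ≤ _ := abs_add_le _ _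
        have b6 : (0 : ℝ) < ε * 2 ^ k := by positivity
        nlinarith
      · have c1 : |φ t| ≤ t + t := by
          rw [hφ]
          refine (abs_sub _ _).trans (add_le_add (abs_SP hh t) ?_)
          rw [abs_mul, Nat.abs_cast]
          have : (0 : ℝ) ≤ t := Nat.cast_nonneg t
          nlinarith
        have c2 : (t : ℝ) ≤ 2 ^ k1 := by exact_mod_cast hge
        have c3 : (0 : ℝ) ≤ 6 * ε * t := by positivity
        linarith
  have h4 : ∀ r, |ψ r| ≤ 7 * ε * (2 * r + 2 ^ k1 + 1) + 2 * 2 ^ k1 := by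
    intro r
    obtain ⟨k, hk, hr, hle⟩ : ∃ k, k1 ≤ k ∧ r < 2 ^ k ∧ (2 : ℝ) ^ k ≤ 2 * r + 2 ^ k1 + 1 := by
      rcases Nat.lt_or_ge r (2 ^ k1) with hlt | hge
      · exact ⟨k1, le_rfl, hlt, by have : (0 : ℝ) ≤ r := Nat.cast_nonneg r; linarith⟩
      · have hr0 : r ≠ 0 := by have := Nat.one_le_two_pow (n := k1); omega
        refine ⟨Nat.log 2 r + 1, ?_, Nat.lt_pow_succ_log_self (by norm_num) _, ?_⟩
        · have : k1 ≤ Nat.log 2 r := (Nat.le_log_iff_pow_le (by norm_num) hr0).2 hge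
          omega
        · have h5 : 2 ^ Nat.log 2 r ≤ r := Nat.pow_log_le_self 2 hr0
          have h6 : ((2 : ℝ) ^ Nat.log 2 r) ≤ r := by exact_mod_cast h5
          have h7 : (0 : ℝ) < 2 ^ k1 := by positivity
          rw [pow_succ]
          linarith
    have a1 := h1 k r hk hr
    have a2 := h3 (2 ^ k - r)
    have a3 : ((2 ^ k - r : ℕ) : ℝ) ≤ 2 ^ k := by
      have : 2 ^ k - r ≤ 2 ^ k := Nat.sub_le _ _
      exact_mod_cast this
    have a4 : |ψ r| ≤ |ψ r + φ (2 ^ k - r)| + |φ (2 ^ k - r)| := by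
      calc |ψ r| = |(ψ r + φ (2 ^ k - r)) - φ (2 ^ k - r)| := by congr 1; ring
        _ ≤ _ := abs_sub _ _
    have a5 : 6 * ε * ((2 ^ k - r : ℕ) : ℝ) ≤ 6 * ε * 2 ^ k := by
      have : 0 ≤ 6 * ε := by positivity
      exact mul_le_mul_of_nonneg_left a3 this
    have a6 : 7 * ε * 2 ^ k ≤ 7 * ε * (2 * r + 2 ^ k1 + 1) :=
      mul_le_mul_of_nonneg_left hle (by positivity)
    linarith
  -- conclusion
  obtain ⟨C, hC⟩ : ∃ C : ℝ, C = 7 * ε * (2 ^ k1 + 1) + 4 * 2 ^ k1 + 6 * ε := ⟨_, rfl⟩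
  have hC0 : 0 < C := by rw [hC]; positivity
  obtain ⟨N0, hN0⟩ := exists_nat_gt (C / ε)
  refine ⟨N0, fun N hN => ?_⟩
  have hN1 : C < ε * N := by
    rw [div_lt_iff₀ hε] at hN0
    have : (N0 : ℝ) ≤ N := by exact_mod_cast hN
    nlinarith
  rw [Real.dist_eq, icc_eq]
  have hpos : (0 : ℝ) < ((2 * N + 1 : ℕ) : ℝ) := by positivity
  have e3 : (((2 * N + 1 : ℕ) : ℝ))⁻¹ * (SP h (N + 1) + SM h N) - β =
      (φ (N + 1) + ψ N) / ((2 * N + 1 : ℕ) : ℝ) := by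
    rw [hφ, hψ]
    field_simp
    push_cast
    ring
  rw [e3, abs_div, abs_of_pos hpos, div_lt_iff₀ hpos]
  have a1 := h3 (N + 1)
  have a2 := h4 N
  have a3 := abs_add_le (φ (N + 1)) (ψ N)
  push_cast at a1 ⊢
  have a4 : ε0 = 42 * ε := by rw [hεdef]; ring
  rw [a4]
  have a5 : (0 : ℝ) ≤ N := Nat.cast_nonneg N
  nlinarith

end

end NP2
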