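import Pool.Agent.NP2.EndA3

/-!
# NP2 / EndB : from the mean number of jumps to almost every point
-/

namespace NP2
open Finset Filter MeasureTheory

noncomputable section

variable {X : Type} [MeasurableSpace X]

lemma meas_NJ {x : X → ℕ → ℝ} (hx : ∀ k, Measurable fun z => x z k) (δ : ℝ) :
    ∀ R K : ℕ, MeasurableSet {z | NJ δ (x z) R K}
  | 0, K => by
    have : {z : X | NJ δ (x z) 0 K} = Set.univ := by ext z; simp [NJ]
    rw [this]; exact MeasurableSet.univ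
  | R + 1, K => by
    have : {z : X | NJ δ (x z) (R + 1) K} =
        ⋃ k : ℕ, ⋃ l : ℕ, ({_z : X | k < l ∧ l ≤ K} ∩ ({z : X | δ ≤ |x z l - x z k|} ∩
          {z : X | NJ δ (x z) R k})) := by
      ext z
      simp only [NJ, Set.mem_ofPred_eq, Set.mem_iUnion, Set.mem_inter_iff]
      constructor
      · rintro ⟨k, l, h1, h2, h3, h4⟩; exact ⟨k, l, ⟨h1, h2⟩, h3, h4⟩
      · rintro ⟨k, l, ⟨h1, h2⟩, h3, h4⟩; exact ⟨k, l, h1, h2, h3, h4⟩
    rw [this]
    refine MeasurableSet.iUnion fun k => MeasurableSet.iUnion fun l => ?_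
    refine MeasurableSet.inter (MeasurableSet.const _) (MeasurableSet.inter ?_ (meas_NJ hx δ R k))
    exact measurableSet_le measurable_const ((hx l).sub (hx k)).norm

lemma meas_bt {φ : X → ℤ → ℝ} (hφ : ∀ n, Measurable fun z => φ z n) (k r : ℕ) :
    Measurable fun z => bt (φ z) k r := by
  unfold bt
  exact (Finset.measurable_sum _ fun s _ => hφ _).div_const _

lemma meas_jn {φ : X → ℤ → ℝ} (hφ : ∀ n, Measurable fun z => φ z n) (δ : ℝ) (R K c : ℕ) :
    Measurable fun z => jn (φ z) δ R K c := by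
  have h := meas_NJ (x := fun z k => bt (φ z) k (c % 2 ^ k)) (fun k => meas_bt hφ k _) δ R K
  have e : (fun z => jn (φ z) δ R K c) =
      Set.indicator {z | NJ δ (fun k => bt (φ z) k (c % 2 ^ k)) R K} fun _ => (1 : ℝ) := by
    funext z
    by_cases hz : NJ δ (fun k => bt (φ z) k (c % 2 ^ k)) R K
    · rw [jn_of hz, Set.indicator_of_mem]; exact hz
    · rw [jn_not hz, Set.indicator_of_notMem]; exact hz
  rw [e]
  exact measurable_const.indicator h

lemma meas_jc {φ : X → ℤ → ℝ} (hφ : ∀ n, Measurable fun z => φ z n) (δ : ℝ) (R K : ℕ) :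
    Measurable fun z => jc (φ z) δ R K :=
  Finset.measurable_sum _ fun c _ => meas_jn hφ δ R K c

lemma int_jc {φ : X → ℤ → ℝ} (hφ : ∀ n, Measurable fun z => φ z n) (μ : Measure X)
    [IsProbabilityMeasure μ] (δ : ℝ) (R K : ℕ) : Integrable (fun z => jc (φ z) δ R K) μ := by
  refine Integrable.of_bound (meas_jc hφ δ R K).aestronglyMeasurable (2 ^ K) ?_
  refine Filter.Eventually.of_forall fun z => ?_
  rw [Real.norm_eq_abs, abs_of_nonneg (jc_nonneg _ _ _ _)]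
  exact jc_le _ _ _ _

lemma jc_delta (h : ℤ → ℝ) {δ δ' : ℝ} (hd : δ' ≤ δ) (R K : ℕ) : jc h δ R K ≤ jc h δ' R K := by
  refine sum_le_sum fun c _ => ?_
  by_cases hn : NJ δ (fun k => bt h k (c % 2 ^ k)) R K
  · rw [jn_of hn, jn_of (NJ_delta hd hn)]
  · rw [jn_not hn]; exact jn_nonneg _ _ _ _ _

theorem endB {φ : X → ℤ → ℝ} (hφ : ∀ n, Measurable fun z => φ z n) (μ : Measure X)
    [IsProbabilityMeasure μ]
    (hstar : ∀ δ : ℝ, 0 < δ → ∀ η : ℝ, 0 < η → ∃ R : ℕ, ∀ K : ℕ,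
      ∫ z, jc (φ z) δ R K ∂μ ≤ η * 2 ^ K) :
    ∀ᵐ z ∂μ, Star (φ z) := by
  have key : ∀ δ : ℝ, 0 < δ → ∀ ε : ℝ, 0 < ε →
      ∀ᵐ z ∂μ, ∃ R : ℕ, ∀ K : ℕ, jc (φ z) δ R K ≤ ε * 2 ^ K := by
    intro δ hδ ε hε
    rw [ae_iff]
    have hle : ∀ θ : ℝ, 0 < θ →
        μ {z | ¬ ∃ R : ℕ, ∀ K : ℕ, jc (φ z) δ R K ≤ ε * 2 ^ K} ≤ ENNReal.ofReal θ := by
      intro θ hθ
      obtain ⟨R, hR⟩ := hstar δ hδ (ε * θ) (by positivity)
      obtain ⟨B, hB⟩ : ∃ B : ℕ → Set X, ∀ K, B K = {z | ε * 2 ^ K < jc (φ z) δ R K} :=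
        ⟨_, fun _ => rfl⟩
      have hmono : Monotone B := by
        refine monotone_nat_of_le_succ fun K => ?_
        intro z hz
        rw [hB, Set.mem_ofPred_eq] at hz ⊢
        have h1 := jc_mono (φ z) δ R (Nat.le_succ K)
        have h2 : K.succ - K = 1 := by omega
        rw [h2, pow_one] at h1
        rw [pow_succ]
        calc ε * (2 ^ K * 2) = 2 * (ε * 2 ^ K) := by ring
          _ < 2 * jc (φ z) δ R K := by linarith
          _ ≤ jc (φ z) δ R (K + 1) := h1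
      have hsub : {z | ¬ ∃ R : ℕ, ∀ K : ℕ, jc (φ z) δ R K ≤ ε * 2 ^ K} ⊆ ⋃ K, B K := by
        intro z hz
        rw [Set.mem_ofPred_eq] at hz
        push Not at hz
        obtain ⟨K, hK⟩ := hz R
        rw [Set.mem_iUnion]
        exact ⟨K, by rw [hB]; exact hK⟩
      have hBK : ∀ K, μ (B K) ≤ ENNReal.ofReal θ := by
        intro K
        have h1 := mul_meas_ge_le_integral_of_nonneg (μ := μ) (f := fun z => jc (φ z) δ R K)
          (Filter.Eventually.of_forall fun z => jc_nonneg _ _ _ _) (int_jc hφ μ δ R K) (ε * 2 ^ K)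
        have h2 : ε * 2 ^ K * μ.real {z | ε * 2 ^ K ≤ jc (φ z) δ R K} ≤ ε * θ * 2 ^ K :=
          h1.trans (hR K)
        have h3 : μ.real {z | ε * 2 ^ K ≤ jc (φ z) δ R K} ≤ θ := by
          have : 0 < ε * 2 ^ K := by positivity
          have h4 : ε * 2 ^ K * μ.real {z | ε * 2 ^ K ≤ jc (φ z) δ R K} ≤ ε * 2 ^ K * θ := by
            calc _ ≤ ε * θ * 2 ^ K := h2
              _ = ε * 2 ^ K * θ := by ring
          exact le_of_mul_le_mul_left h4 this
        have h4 : μ (B K) ≤ μ {z | ε * 2 ^ K ≤ jc (φ z) δ R K} := by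
          refine measure_mono fun z hz => ?_
          rw [hB, Set.mem_ofPred_eq] at hz
          exact hz.le
        refine h4.trans ?_
        rw [← ENNReal.ofReal_toReal (measure_ne_top μ {z | ε * 2 ^ K ≤ jc (φ z) δ R K})]
        exact ENNReal.ofReal_le_ofReal h3
      calc _ ≤ μ (⋃ K, B K) := measure_mono hsub
        _ = ⨆ K, μ (B K) := hmono.measure_iUnion
        _ ≤ _ := iSup_le hBK
    refine le_antisymm (le_of_forall_gt fun b hb => ?_) bot_le
    rcases eq_or_ne b ⊤ with rfl | hbt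
    · exact measure_lt_top μ _
    · have hb' : 0 < b.toReal := ENNReal.toReal_pos hb.ne' hbt
      refine (hle (b.toReal / 2) (by positivity)).trans_lt ?_
      rw [ENNReal.ofReal_lt_iff_lt_toReal (by positivity) hbt]
      linarith
  have h2 : ∀ᵐ z ∂μ, ∀ a b : ℕ, ∃ R : ℕ, ∀ K : ℕ,
      jc (φ z) (1 / ((a : ℝ) + 1)) R K ≤ 1 / ((b : ℝ) + 1) * 2 ^ K := by
    rw [ae_all_iff]; intro a
    rw [ae_all_iff]; intro b
    exact key _ (by positivity) _ (by positivity)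
  filter_upwards [h2] with z hz
  intro δ hδ ε hε
  obtain ⟨a, ha⟩ := exists_nat_one_div_lt hδ
  obtain ⟨b, hb⟩ := exists_nat_one_div_lt hε
  obtain ⟨R, hR⟩ := hz a b
  refine ⟨R, fun K => ?_⟩
  calc jc (φ z) δ R K ≤ jc (φ z) (1 / ((a : ℝ) + 1)) R K := jc_delta _ ha.le _ _
    _ ≤ 1 / ((b : ℝ) + 1) * 2 ^ K := hR K
    _ ≤ ε * 2 ^ K := mul_le_mul_of_nonneg_right hb.le (by positivity)

end

end NP2
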