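import Pool.Agent.NP2.EndB

/-!
# NP2 / EndC : transference, from Theorem A to the mean number of jumps in a dynamical system

`S T = z T S` with `z` central; `U = T⁻¹ S`; `S^c = T^c U^c z^(c choose 2)`.
Objects: `p_u = U^(-n) z^(-m)`, `u = (n, m)`; then `S^c p_(u + th c) = T^c p_u`.
-/

namespace NP2
open Finset Filter MeasureTheory

noncomputable section

section grp

variable {G : Type} [Group G] {T S z : G}

lemma grp_UT (h : S * T = z * (T * S)) (h1 : Commute z T) (h2 : Commute z S) :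
    (T⁻¹ * S) * T = T * (T⁻¹ * S) * z := by
  have e1 : (T⁻¹ * S) * T = T⁻¹ * z * (T * S) := by rw [mul_assoc, h, mul_assoc]
  have e2 : T⁻¹ * z = z * T⁻¹ := (h1.inv_right).eq.symm
  rw [e1, e2]
  have e3 : z * T⁻¹ * (T * S) = z * S := by group
  rw [e3, h2.eq]
  group

lemma grp_zU (h1 : Commute z T) (h2 : Commute z S) : Commute z (T⁻¹ * S) :=
  h1.inv_right.mul_right h2

lemma grp_UcT (h : S * T = z * (T * S)) (h1 : Commute z T) (h2 : Commute z S) (c : ℕ) :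
    (T⁻¹ * S) ^ c * T = T * (T⁻¹ * S) ^ c * z ^ c := by
  have hzU := grp_zU h1 h2
  induction c with
  | zero => simp
  | succ c ih =>
    calc (T⁻¹ * S) ^ (c + 1) * T = (T⁻¹ * S) ^ c * ((T⁻¹ * S) * T) := by rw [pow_succ, mul_assoc]
      _ = (T⁻¹ * S) ^ c * T * (T⁻¹ * S) * z := by rw [grp_UT h h1 h2]; group
      _ = T * (T⁻¹ * S) ^ c * (z ^ c * (T⁻¹ * S)) * z := by rw [ih]; group
      _ = T * (T⁻¹ * S) ^ c * ((T⁻¹ * S) * z ^ c) * z := by rw [(hzU.pow_left c).eq]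
      _ = T * (T⁻¹ * S) ^ (c + 1) * z ^ (c + 1) := by rw [pow_succ, pow_succ]; group

lemma grp_pow (h : S * T = z * (T * S)) (h1 : Commute z T) (h2 : Commute z S) (c : ℕ) :
    S ^ c = T ^ c * (T⁻¹ * S) ^ c * z ^ (c.choose 2) := by
  have hzU := grp_zU h1 h2
  induction c with
  | zero => simp
  | succ c ih =>
    have e1 : (c + 1).choose 2 = c + c.choose 2 := by
      rw [Nat.choose_succ_succ' c 1, Nat.choose_one_right]
    have e2 : z ^ (c.choose 2) * (T * (T⁻¹ * S)) = T * (T⁻¹ * S) * z ^ (c.choose 2) :=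
      ((h1.pow_left _).mul_right (hzU.pow_left _)).eq
    calc S ^ (c + 1) = S ^ c * (T * (T⁻¹ * S)) := by rw [pow_succ]; group
      _ = T ^ c * (T⁻¹ * S) ^ c * (z ^ (c.choose 2) * (T * (T⁻¹ * S))) := by rw [ih]; group
      _ = T ^ c * ((T⁻¹ * S) ^ c * T) * (T⁻¹ * S) * z ^ (c.choose 2) := by rw [e2]; group
      _ = T ^ c * (T * (T⁻¹ * S) ^ c * z ^ c) * (T⁻¹ * S) * z ^ (c.choose 2) := by
        rw [grp_UcT h h1 h2]
      _ = T ^ c * T * (T⁻¹ * S) ^ c * (z ^ c * (T⁻¹ * S)) * z ^ (c.choose 2) := by group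
      _ = T ^ c * T * (T⁻¹ * S) ^ c * ((T⁻¹ * S) * z ^ c) * z ^ (c.choose 2) := by
        rw [(hzU.pow_left c).eq]
      _ = T ^ (c + 1) * (T⁻¹ * S) ^ (c + 1) * z ^ ((c + 1).choose 2) := by
        rw [e1, pow_add, pow_succ, pow_succ]; group

/-- the element attached to the object `(n, m)` -/
def pe (T S z : G) (n m : ℤ) : G := (T⁻¹ * S) ^ (-n) * z ^ (-m)

lemma grp_key (h : S * T = z * (T * S)) (h1 : Commute z T) (h2 : Commute z S) (c : ℕ)
    (n m : ℤ) : S ^ c * pe T S z (n + c) (m + c.choose 2) = T ^ c * pe T S z n m := by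
  have hzU := grp_zU h1 h2
  unfold pe
  rw [grp_pow h h1 h2 c]
  have e1 : z ^ (c.choose 2) * (T⁻¹ * S) ^ (-(n + (c : ℤ))) =
      (T⁻¹ * S) ^ (-(n + (c : ℤ))) * z ^ (c.choose 2) :=
    ((hzU.pow_left _).zpow_right _).eq
  calc T ^ c * (T⁻¹ * S) ^ c * z ^ (c.choose 2) *
        ((T⁻¹ * S) ^ (-(n + (c : ℤ))) * z ^ (-(m + (c.choose 2 : ℤ))))
      = T ^ c * (T⁻¹ * S) ^ c * (z ^ (c.choose 2) * (T⁻¹ * S) ^ (-(n + (c : ℤ)))) *
        z ^ (-(m + (c.choose 2 : ℤ))) := by simp only [mul_assoc]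
    _ = T ^ c * ((T⁻¹ * S) ^ c * (T⁻¹ * S) ^ (-(n + (c : ℤ)))) *
        (z ^ (c.choose 2) * z ^ (-(m + (c.choose 2 : ℤ)))) := by rw [e1]; simp only [mul_assoc]
    _ = T ^ c * ((T⁻¹ * S) ^ (-n) * z ^ (-m)) := by
        rw [← zpow_natCast (T⁻¹ * S) c, ← zpow_add, ← zpow_natCast z (c.choose 2), ← zpow_add,
          mul_assoc]
        congr 3 <;> ring_nf

end grp

end

end NP2
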