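import Pool.Agent.NP2.EndC

/-!
# NP2 / EndC2 : transference, the integrated statement
-/

namespace NP2
open Finset Filter MeasureTheory

noncomputable section

section mi
variable {X : Type} [MeasurableSpace X] {μ : Measure X}

/-- measure preserving together with the inverse -/
def MI (μ : Measure X) (g : Equiv.Perm X) : Prop :=
  MeasurePreserving ⇑g μ μ ∧ MeasurePreserving ⇑g⁻¹ μ μ

lemma MI.of {g : Equiv.Perm X} (h1 : Measurable ⇑g.symm) (h2 : MeasurePreserving ⇑g μ μ) :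
    MI μ g := by
  refine ⟨h2, ?_⟩
  let e : X ≃ᵐ X := ⟨g, h2.measurable, h1⟩
  have h3 : MeasurePreserving ⇑e μ μ := h2
  exact h3.symm e

lemma MI.one : MI μ (1 : Equiv.Perm X) := ⟨MeasurePreserving.id μ, MeasurePreserving.id μ⟩

lemma MI.mul {g h : Equiv.Perm X} (hg : MI μ g) (hh : MI μ h) : MI μ (g * h) := by
  refine ⟨hg.1.comp hh.1, ?_⟩
  rw [mul_inv_rev]
  exact hh.2.comp hg.2

lemma MI.inv {g : Equiv.Perm X} (hg : MI μ g) : MI μ g⁻¹ := by
  refine ⟨hg.2, ?_⟩
  rw [inv_inv]; exact hg.1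

lemma MI.npow {g : Equiv.Perm X} (hg : MI μ g) (n : ℕ) : MI μ (g ^ n) := by
  induction n with
  | zero => rw [pow_zero]; exact MI.one
  | succ n ih => rw [pow_succ]; exact ih.mul hg

lemma MI.zpow {g : Equiv.Perm X} (hg : MI μ g) (n : ℤ) : MI μ (g ^ n) := by
  cases n with
  | ofNat n => rw [Int.ofNat_eq_natCast, zpow_natCast]; exact hg.npow n
  | negSucc n => rw [zpow_negSucc]; exact (hg.npow _).inv

end mi

variable {X : Type}

/-- the product along the two orbits -/
def ph (T S : Equiv.Perm X) (f g : X → ℝ) (x : X) (n : ℤ) : ℝ := f ((T ^ n) x) * g ((S ^ n) x)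

/-- values of a function along the orbits of the objects -/
def FF (W T S z : Equiv.Perm X) (f : X → ℝ) (M : ℕ) (x : X) (u : A M) (t : ℕ) : ℝ :=
  f ((W ^ t * pe T S z (u.1.val : ℤ) (u.2.val : ℤ)) x)

lemma choose_two_lt {c K : ℕ} (hc : c < 2 ^ K) : c.choose 2 < 4 ^ K := by
  rw [Nat.choose_two_right]
  have h1 : c * (c - 1) / 2 ≤ c * (c - 1) := Nat.div_le_self _ _
  have h2 : c * (c - 1) ≤ c * c := Nat.mul_le_mul_left _ (Nat.sub_le _ _)
  have h3 : c * c < 2 ^ K * 2 ^ K := Nat.mul_self_lt_mul_self hc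
  have h4 : 2 ^ K * 2 ^ K = 4 ^ K := by rw [← mul_pow]; norm_num
  omega

lemma two_pow_le_four_pow (K : ℕ) : 2 ^ K ≤ 4 ^ K := Nat.pow_le_pow_left (by norm_num) K

lemma XX_eq {T S z : Equiv.Perm X} (h : S * T = z * (T * S)) (h1 : Commute z T)
    (h2 : Commute z S) (f g : X → ℝ) {M K a b c : ℕ} (ha : a < M - 4 ^ K)
    (hb : b < M - 4 ^ K) (hc : c < 2 ^ K) (x : X) (k : ℕ) :
    XX (FF T T S z f M x) (FF S T S z g M x) k c ((a : ZMod M), (b : ZMod M)) =
      bt (ph T S f g ((T ^ c * pe T S z a b) x)) k (c % 2 ^ k) := by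
  have h4K : 0 < 4 ^ K := by positivity
  have hM : NeZero M := ⟨by omega⟩
  have hch := choose_two_lt hc
  have h24 := two_pow_le_four_pow K
  have va : ((a : ZMod M)).val = a := ZMod.val_cast_of_lt (by omega)
  have vb : ((b : ZMod M)).val = b := ZMod.val_cast_of_lt (by omega)
  have va' : ((a : ZMod M) + (c : ZMod M)).val = a + c := by
    rw [← Nat.cast_add]; exact ZMod.val_cast_of_lt (by omega)
  have vb' : ((b : ZMod M) + ((c.choose 2 : ℕ) : ZMod M)).val = b + c.choose 2 := by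
    rw [← Nat.cast_add]; exact ZMod.val_cast_of_lt (by omega)
  unfold XX bt
  congr 1
  refine sum_congr rfl fun s _ => ?_
  have hdm := Nat.div_add_mod c (2 ^ k)
  have ht : ∀ W : Equiv.Perm X, W ^ (c / 2 ^ k * 2 ^ k + s) =
      W ^ ((s : ℤ) - ((c % 2 ^ k : ℕ) : ℤ)) * W ^ c := by
    intro W
    rw [← zpow_natCast W c, ← zpow_add, ← zpow_natCast]
    congr 1
    have : ((c : ℕ) : ℤ) = 2 ^ k * ((c / 2 ^ k : ℕ) : ℤ) + ((c % 2 ^ k : ℕ) : ℤ) := by
      exact_mod_cast hdm.symm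
    push_cast at this ⊢
    linarith
  unfold FF ph th
  simp only [Prod.mk_add_mk, va, vb, va', vb', Nat.cast_add]
  have hk := grp_key h h1 h2 c (a : ℤ) (b : ℤ)
  rw [ht T, ht S, mul_assoc, mul_assoc, hk]
  rfl

variable [MeasurableSpace X] {μ : Measure X}

lemma meas_ph {T S : Equiv.Perm X} (hT : MI μ T) (hS : MI μ S) {f g : X → ℝ}
    (hf : Measurable f) (hg : Measurable g) (n : ℤ) : Measurable fun x => ph T S f g x n := by
  unfold ph
  exact (hf.comp (hT.zpow n).1.measurable).mul (hg.comp (hS.zpow n).1.measurable)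

theorem endC (hA : ThmA) [IsProbabilityMeasure μ] {T S z : Equiv.Perm X}
    (h : S * T = z * (T * S)) (h1 : Commute z T) (h2 : Commute z S) (hT : MI μ T) (hS : MI μ S)
    (hz : MI μ z) {f g : X → ℝ} (hf : Measurable f) (hg : Measurable g)
    (hf1 : ∀ x, |f x| ≤ 1) (hg1 : ∀ x, |g x| ≤ 1) :
    ∀ δ : ℝ, 0 < δ → ∀ η : ℝ, 0 < η → ∃ R : ℕ, ∀ K : ℕ,
      ∫ x, jc (ph T S f g x) δ R K ∂μ ≤ η * 2 ^ K := by
  intro δ hδ η hη
  obtain ⟨R, hR⟩ := hA δ hδ η hη
  refine ⟨R, fun K => ?_⟩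
  obtain ⟨J, hJ⟩ : ∃ J : ℝ, J = ∫ x, jc (ph T S f g x) δ R K ∂μ := ⟨_, rfl⟩
  rw [← hJ]
  have hphm := fun n => meas_ph (μ := μ) hT hS hf hg n
  -- the main inequality for M = 4^K L
  have key : ∀ L : ℕ, 1 ≤ L → ((L : ℝ) - 1) ^ 2 * J ≤ η * 2 ^ K * (L : ℝ) ^ 2 := by
    intro L hL
    obtain ⟨M, hM⟩ : ∃ M, M = 4 ^ K * L := ⟨_, rfl⟩
    have hM0 : NeZero M := ⟨by rw [hM]; positivity⟩
    obtain ⟨M', hM'⟩ : ∃ M', M' = M - 4 ^ K := ⟨_, rfl⟩
    have hM'' : (M' : ℝ) = 4 ^ K * ((L : ℝ) - 1) := by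
      rw [hM', Nat.cast_sub (by rw [hM]; exact Nat.le_mul_of_pos_right _ hL), hM]
      push_cast; ring
    -- pointwise
    have hpt : ∀ x : X, ∑ c ∈ range (2 ^ K), ∑ p ∈ range M' ×ˢ range M',
        jn (ph T S f g ((T ^ c * pe T S z (p.1 : ℤ) (p.2 : ℤ)) x)) δ R K c ≤
          η * (2 ^ K * (M : ℝ) ^ 2) := by
      intro x
      have h3 := hR K M ⟨L, hM⟩ (FF T T S z f M x) (FF S T S z g M x) (fun u t => hf1 _)
        (fun v t => hg1 _)
      unfold ex at h3
      have hMpos : (0 : ℝ) < M := by exact_mod_cast Nat.pos_of_ne_zero hM0.ne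
      rw [div_le_iff₀ (by positivity)] at h3
      refine le_trans (sum_le_sum fun c hc => ?_) h3
      have hc' := mem_range.1 hc
      have hinj : Set.InjOn (fun p : ℕ × ℕ => (((p.1 : ZMod M), (p.2 : ZMod M)) : A M))
          (range M' ×ˢ range M' : Finset (ℕ × ℕ)) := by
        rintro ⟨a, b⟩ hab ⟨a', b'⟩ hab' heq
        have h4K : 0 < 4 ^ K := by positivity
        simp only [coe_product, Set.mem_prod, mem_coe, mem_range] at hab hab'
        simp only [Prod.mk.injEq] at heq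
        obtain ⟨e1, e2⟩ := heq
        have f1 := congrArg ZMod.val e1
        have f2 := congrArg ZMod.val e2
        rw [ZMod.val_cast_of_lt (by omega), ZMod.val_cast_of_lt (by omega)] at f1 f2
        rw [f1, f2]
      have hstep : ∀ p ∈ range M' ×ˢ range M',
          jn (ph T S f g ((T ^ c * pe T S z (p.1 : ℤ) (p.2 : ℤ)) x)) δ R K c =
          @ite ℝ (NJ δ (fun k => XX (FF T T S z f M x) (FF S T S z g M x) k c
            (((p.1 : ZMod M), (p.2 : ZMod M)) : A M)) R K) (Classical.propDecidable _) 1 0 := by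
        intro p hp
        rw [mem_product, mem_range, mem_range] at hp
        unfold jn
        have e : (fun k => XX (FF T T S z f M x) (FF S T S z g M x) k c
            (((p.1 : ZMod M), (p.2 : ZMod M)) : A M)) =
            fun k => bt (ph T S f g ((T ^ c * pe T S z (p.1 : ℤ) (p.2 : ℤ)) x)) k (c % 2 ^ k) := by
          funext k
          exact XX_eq h h1 h2 f g (hM' ▸ hp.1) (hM' ▸ hp.2) hc' x k
        rw [e]
      rw [sum_congr rfl hstep,
        ← sum_image (f := fun u : A M => @ite ℝ (NJ δ (fun k => XX (FF T T S z f M x)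
          (FF S T S z g M x) k c u) R K) (Classical.propDecidable _) 1 0) hinj]
      refine sum_le_sum_of_subset_of_nonneg (subset_univ _) fun u _ _ => ?_
      split_ifs <;> norm_num
    -- integrate
    have hint : ∀ (c : ℕ) (n m : ℤ), Integrable
        (fun x => jn (ph T S f g ((T ^ c * pe T S z n m) x)) δ R K c) μ ∧
        ∫ x, jn (ph T S f g ((T ^ c * pe T S z n m) x)) δ R K c ∂μ =
          ∫ x, jn (ph T S f g x) δ R K c ∂μ := by
      intro c n m
      have hmi : MI μ (T ^ c * pe T S z n m) := by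
        unfold pe
        exact (hT.npow c).mul ((((hT.inv).mul hS).zpow _).mul (hz.zpow _))
      have hm := meas_jn hphm δ R K c
      constructor
      · refine Integrable.of_bound (hm.comp hmi.1.measurable).aestronglyMeasurable 1 ?_
        refine Filter.Eventually.of_forall fun x => ?_
        show ‖jn (ph T S f g ((T ^ c * pe T S z n m) x)) δ R K c‖ ≤ 1
        rw [Real.norm_eq_abs, abs_of_nonneg (jn_nonneg _ _ _ _ _)]
        exact jn_le_one _ _ _ _ _
      · have h4 := hmi.1.map_eq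
        have h5 := integral_map (μ := μ) hmi.1.measurable.aemeasurable
          (f := fun x => jn (ph T S f g x) δ R K c) (by
            rw [h4]; exact hm.aestronglyMeasurable)
        rw [h4] at h5
        exact h5.symm
    have hI : ∫ x, (∑ c ∈ range (2 ^ K), ∑ p ∈ range M' ×ˢ range M',
        jn (ph T S f g ((T ^ c * pe T S z (p.1 : ℤ) (p.2 : ℤ)) x)) δ R K c) ∂μ =
        (M' : ℝ) ^ 2 * J := by
      rw [integral_finsetSum _ fun c _ => integrable_finsetSum _ fun p _ => (hint c _ _).1]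
      have e1 : ∀ c ∈ range (2 ^ K), ∫ x, (∑ p ∈ range M' ×ˢ range M',
          jn (ph T S f g ((T ^ c * pe T S z (p.1 : ℤ) (p.2 : ℤ)) x)) δ R K c) ∂μ =
          (M' : ℝ) ^ 2 * ∫ x, jn (ph T S f g x) δ R K c ∂μ := by
        intro c _
        rw [integral_finsetSum _ fun p _ => (hint c _ _).1,
          sum_congr rfl fun p _ => (hint c (p.1 : ℤ) (p.2 : ℤ)).2, sum_const, card_product,
          card_range, nsmul_eq_mul]
        push_cast; ring
      rw [sum_congr rfl e1, ← mul_sum, hJ]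
      congr 1
      unfold jc
      rw [integral_finsetSum]
      intro c _
      have := (hint c 0 0).1
      refine Integrable.of_bound (meas_jn hphm δ R K c).aestronglyMeasurable 1 ?_
      refine Filter.Eventually.of_forall fun x => ?_
      rw [Real.norm_eq_abs, abs_of_nonneg (jn_nonneg _ _ _ _ _)]
      exact jn_le_one _ _ _ _ _
    have hle : (M' : ℝ) ^ 2 * J ≤ η * (2 ^ K * (M : ℝ) ^ 2) := by
      rw [← hI]
      have h6 := integral_mono (μ := μ) (integrable_finsetSum _ fun c _ =>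
        integrable_finsetSum _ fun p _ => (hint c _ _).1)
        (integrable_const (η * (2 ^ K * (M : ℝ) ^ 2))) hpt
      refine h6.trans (le_of_eq ?_)
      simp
    rw [hM'', hM] at hle
    push_cast at hle
    have h7 : (0 : ℝ) < (4 : ℝ) ^ K := by positivity
    have h8 : ((4 : ℝ) ^ K) ^ 2 * (((L : ℝ) - 1) ^ 2 * J) ≤
        ((4 : ℝ) ^ K) ^ 2 * (η * 2 ^ K * (L : ℝ) ^ 2) := by
      calc ((4 : ℝ) ^ K) ^ 2 * (((L : ℝ) - 1) ^ 2 * J) = (4 ^ K * ((L : ℝ) - 1)) ^ 2 * J := by ring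
        _ ≤ η * (2 ^ K * (4 ^ K * (L : ℝ)) ^ 2) := hle
        _ = _ := by ring
    exact le_of_mul_le_mul_left h8 (by positivity)
  by_contra hcon
  push Not at hcon
  obtain ⟨e, he⟩ : ∃ e : ℝ, e = η * 2 ^ K := ⟨_, rfl⟩
  rw [← he] at hcon
  have hJ0 : 0 ≤ J := by
    rw [hJ]; exact integral_nonneg fun x => jc_nonneg _ _ _ _
  obtain ⟨L, hL⟩ := exists_nat_gt (2 * J / (J - e))
  have hpos : 0 < J - e := by linarith
  rw [div_lt_iff₀ hpos] at hL
  have hL1 : 1 ≤ L := by
    rcases Nat.eq_zero_or_pos L with h0 | h0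
    · exfalso; rw [h0] at hL; simp at hL; linarith
    · exact h0
  have h9 := key L hL1
  rw [← he] at h9
  have hL0 : (1 : ℝ) ≤ L := by exact_mod_cast hL1
  have h10 : 2 * J * L ≤ L * (J - e) * L := by nlinarith
  have hJpos : 0 < J := by
    have : 0 < e := by rw [he]; positivity
    linarith
  nlinarith

end

end NP2
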