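import Pool.Agent.NP2.Defs

/-!
# NP2 / EndDef : the statement of Theorem A (finite theorem, nilpotent `m = 2`)

* `NJ δ x R K` : the sequence `x` has `R` successive jumps of size at least `δ` inside `[0, K]`
  (defined from the last one backwards: `k < l ≤ K`, `|x l - x k| ≥ δ` and the other `R - 1` jumps
  lie in `[0, k]`).
* `XX F G k c u` : mean over the times `t` in the dyadic block of `c` at level `k` of
  `F u t * G (u + th M c) t`.
* `ThmA` : Theorem A.
-/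

namespace NP2
open Finset

noncomputable section

/-- `x` has `R` successive jumps of size `≥ δ` inside `[0, K]` -/
def NJ (δ : ℝ) (x : ℕ → ℝ) : ℕ → ℕ → Prop
  | 0, _ => True
  | R + 1, K => ∃ k l, k < l ∧ l ≤ K ∧ δ ≤ |x l - x k| ∧ NJ δ x R k

/-- the average over the block of `c` at level `k` -/
def XX {M : ℕ} (F G : A M → ℕ → ℝ) (k c : ℕ) (u : A M) : ℝ :=
  (∑ s ∈ range (2 ^ k), F u (c / 2 ^ k * 2 ^ k + s) * G (u + th M c) (c / 2 ^ k * 2 ^ k + s)) / 2 ^ k

/-- Theorem A -/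
def ThmA : Prop :=
  ∀ δ : ℝ, 0 < δ → ∀ η : ℝ, 0 < η → ∃ R : ℕ, ∀ (K M : ℕ) [NeZero M], 4 ^ K ∣ M →
    ∀ F G : A M → ℕ → ℝ, (∀ u t, |F u t| ≤ 1) → (∀ v t, |G v t| ≤ 1) →
      ex K (fun c u => @ite ℝ (NJ δ (fun k => XX F G k c u) R K) (Classical.propDecidable _) 1 0) ≤ η

end

end NP2
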