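import Pool.Agent.NP2.EndC2

/-!
# NP2 / EndFin : Theorem A implies almost everywhere convergence

`fin_nil2` : for every probability space, invertible measure preserving `T_1, …, T_d` and
polynomials `P_ij` such that `T_1^(P_1j n) ⋯ T_d^(P_dj n) = V_j ^ n` for all `n`, where the
commutator of `V_1`, `V_2` commutes with `V_1` and `V_2`, the averages
`(2N+1)⁻¹ ∑_{|n| ≤ N} f_1(V_1^n x) f_2(V_2^n x)` converge almost everywhere, for all bounded
`f_1`, `f_2`.

`fin_plain` : two maps `T`, `S`, averages of `f(T^n x) g(S^n x)`.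
`fin_comm` : commuting `T_1, …, T_d` and linear `P_ij`.
-/

namespace NP2
open Finset Filter MeasureTheory
open scoped ENNReal Topology commutatorElement

noncomputable section

section grp2

variable {G : Type} [Group G]

lemma comm_inv_eq (T S : G) : S * T = ⁅T, S⁆⁻¹ * (T * S) := by
  rw [commutatorElement_def]; group

lemma ofFn_zpow : ∀ (d : ℕ) (T : Fin d → G),
    (∀ i j, Commute (T i) (T j)) → ∀ (a : Fin d → ℤ) (n : ℤ),
    (List.ofFn fun i => T i ^ (a i * n)).prod = (List.ofFn fun i => T i ^ a i).prod ^ n := by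
  intro d
  induction d with
  | zero => intro T _ a n; simp
  | succ d ih =>
    intro T hT a n
    rw [List.ofFn_succ, List.prod_cons, List.ofFn_succ, List.prod_cons,
      ih (fun i => T i.succ) (fun i j => hT _ _) (fun i => a i.succ) n, zpow_mul]
    refine (Commute.mul_zpow ?_ n).symm
    refine Commute.list_prod_right _ _ ?_
    intro x hx
    rw [List.mem_ofFn] at hx
    obtain ⟨i, rfl⟩ := hx
    exact ((hT _ _).zpow_left _).zpow_right _

lemma ofFn_commute {d : ℕ} {T : Fin d → G} (hT : ∀ i j, Commute (T i) (T j))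
    (a b : Fin d → ℤ) :
    Commute (List.ofFn fun i => T i ^ a i).prod (List.ofFn fun i => T i ^ b i).prod := by
  refine Commute.list_prod_right _ _ fun x hx => ?_
  rw [List.mem_ofFn] at hx
  obtain ⟨i, rfl⟩ := hx
  refine (Commute.list_prod_right _ _ fun y hy => ?_).symm
  rw [List.mem_ofFn] at hy
  obtain ⟨j, rfl⟩ := hy
  exact ((hT _ _).zpow_left _).zpow_right _

end grp2

section clamp

lemma clampE {r M : ℝ} (hM : 0 < M) (h : |r| ≤ M) :
    M * max (-1) (min 1 (r / M)) = r := by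
  obtain ⟨h1, h2⟩ := abs_le.1 h
  have h3 : r / M ≤ 1 := (div_le_one hM).2 h2
  have h4 : -1 ≤ r / M := by rw [le_div_iff₀ hM]; linarith
  rw [min_eq_right h3, max_eq_right h4]
  field_simp

lemma clampA (r : ℝ) : |max (-1) (min 1 r)| ≤ 1 := by
  rw [abs_le]
  exact ⟨le_max_left _ _, max_le (by norm_num) (min_le_left _ _)⟩

end clamp

variable {X : Type} [MeasurableSpace X] {μ : Measure X}

lemma MI.lprod : ∀ l : List (Equiv.Perm X), (∀ g ∈ l, MI μ g) → MI μ l.prod := by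
  intro l
  induction l with
  | nil => intro _; rw [List.prod_nil]; exact MI.one
  | cons a l ih =>
    intro h
    rw [List.prod_cons]
    exact (h a (by simp)).mul (ih fun g hg => h g (by simp [hg]))

omit [MeasurableSpace X] in
lemma ph_abs {T S : Equiv.Perm X} {f g : X → ℝ} (hf1 : ∀ x, |f x| ≤ 1) (hg1 : ∀ x, |g x| ≤ 1)
    (x : X) (n : ℤ) : |ph T S f g x n| ≤ 1 := by
  unfold ph
  rw [abs_mul]
  exact mul_le_one₀ (hf1 _) (abs_nonneg _) (hg1 _)

/-- real functions bounded by one -/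
theorem fin_real (hA : ThmA) [IsProbabilityMeasure μ] {T S : Equiv.Perm X}
    (h1 : Commute ⁅T, S⁆ T) (h2 : Commute ⁅T, S⁆ S) (hT : MI μ T) (hS : MI μ S)
    {f g : X → ℝ} (hf : Measurable f) (hg : Measurable g)
    (hf1 : ∀ x, |f x| ≤ 1) (hg1 : ∀ x, |g x| ≤ 1) :
    ∀ᵐ x ∂μ, ∃ β : ℝ, Tendsto (fun N : ℕ => (((2 * N + 1 : ℕ) : ℝ))⁻¹ *
      ∑ n ∈ Icc (-(N : ℤ)) N, ph T S f g x n) atTop (nhds β) := by
  have hz : MI μ ⁅T, S⁆⁻¹ := by
    rw [commutatorElement_def]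
    exact (((hT.mul hS).mul hT.inv).mul hS.inv).inv
  have hC := endC (μ := μ) hA (comm_inv_eq T S) h1.inv_left h2.inv_left hT hS hz hf hg hf1 hg1
  have hB := endB (fun n => meas_ph (μ := μ) hT hS hf hg n) μ hC
  filter_upwards [hB] with x hx
  exact endA (fun n => ph_abs hf1 hg1 x n) hx

/-- Theorem A implies convergence: general form -/
theorem fin_nil2 (hA : ThmA) (μ : Measure X) [IsProbabilityMeasure μ]
    (d : ℕ) (T : Fin d → Equiv.Perm X)
    (hTs : ∀ i, Measurable ⇑(T i).symm)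
    (hT : ∀ i, MeasurePreserving (⇑(T i)) μ μ)
    (P : Fin d → Fin 2 → Polynomial ℤ)
    (V : Fin 2 → Equiv.Perm X)
    (hV : ∀ j, ∀ n : ℤ, (List.ofFn fun i : Fin d => T i ^ (P i j).eval n).prod = V j ^ n)
    (hVc : ∀ j, Commute ⁅V 0, V 1⁆ (V j))
    (f : Fin 2 → X → ℂ) (hf : ∀ j, MemLp (f j) ∞ μ) :
    ∀ᵐ x ∂μ, ∃ L : ℂ, Filter.Tendsto
      (fun N : ℕ => ((2 * N + 1 : ℕ) : ℂ)⁻¹ *
        ∑ n ∈ Finset.Icc (-(N : ℤ)) (N : ℤ),
          ∏ j : Fin 2, f j ((List.ofFn fun i : Fin d => T i ^ (P i j).eval n).prod x))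
      Filter.atTop (nhds L) := by
  have hU : ∀ j, MI μ (V j) := by
    intro j
    have h := hV j 1
    rw [zpow_one] at h
    rw [← h]
    refine MI.lprod _ fun g hg => ?_
    rw [List.mem_ofFn] at hg
    obtain ⟨i, rfl⟩ := hg
    exact (MI.of (hTs i) (hT i)).zpow _
  -- bounded representatives
  have hrep : ∀ j, ∃ (f' : X → ℂ) (M : ℝ), Measurable f' ∧ 0 < M ∧
      ∀ᵐ x ∂μ, f j x = f' x ∧ ‖f j x‖ ≤ M := by
    intro j
    refine ⟨(hf j).1.mk (f j), (eLpNorm (f j) ∞ μ).toReal + 1,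
      (hf j).1.stronglyMeasurable_mk.measurable, by positivity, ?_⟩
    have h1 := (hf j).1.ae_eq_mk
    have h2 : ∀ᵐ x ∂μ, ‖f j x‖ₑ ≤ eLpNorm (f j) ∞ μ := by
      rw [eLpNorm_exponent_top]
      exact ae_le_eLpNormEssSup
    filter_upwards [h1, h2] with x hx1 hx2
    refine ⟨hx1, ?_⟩
    have h3 : (‖f j x‖ₑ).toReal ≤ (eLpNorm (f j) ∞ μ).toReal :=
      ENNReal.toReal_mono (hf j).2.ne hx2
    rw [toReal_enorm] at h3
    linarith
  choose f' M hf'm hM hae using hrep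
  let w : Fin 2 → Fin 2 → X → ℝ := fun j e x =>
    max (-1) (min 1 ((if e = 0 then (f' j x).re else (f' j x).im) / M j))
  have hwm : ∀ j e, Measurable (w j e) := by
    intro j e
    refine measurable_const.max (measurable_const.min (Measurable.div_const ?_ _))
    by_cases he : e = 0
    · simp only [he, if_true]; exact Complex.measurable_re.comp (hf'm j)
    · simp only [he, if_false]; exact Complex.measurable_im.comp (hf'm j)
  have hw1 : ∀ j e x, |w j e x| ≤ 1 := fun j e x => clampA _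
  let κ : Fin 2 → ℂ := fun e => if e = 0 then 1 else Complex.I
  have hval : ∀ j, ∀ᵐ x ∂μ, f j x = ∑ e : Fin 2, (M j : ℂ) * κ e * (w j e x : ℂ) := by
    intro j
    filter_upwards [hae j] with x hx
    obtain ⟨hx1, hx2⟩ := hx
    rw [hx1] at hx2 ⊢
    have e1 : M j * w j 0 x = (f' j x).re := by
      have := clampE (hM j) ((Complex.abs_re_le_norm _).trans hx2)
      simpa [w] using this
    have e2 : M j * w j 1 x = (f' j x).im := by
      have := clampE (hM j) ((Complex.abs_im_le_norm _).trans hx2)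
      simpa [w] using this
    rw [Fin.sum_univ_two]
    have e3 : (M j : ℂ) * κ 0 * (w j 0 x : ℂ) + (M j : ℂ) * κ 1 * (w j 1 x : ℂ) =
        ((M j * w j 0 x : ℝ) : ℂ) + ((M j * w j 1 x : ℝ) : ℂ) * Complex.I := by
      have k0 : κ 0 = 1 := rfl
      have k1 : κ 1 = Complex.I := rfl
      rw [k0, k1]
      push_cast; ring
    rw [e3, e1, e2, Complex.re_add_im]
  have hall : ∀ᵐ x ∂μ, ∀ j, ∀ n : ℤ, f j ((V j ^ n) x) =
      ∑ e : Fin 2, (M j : ℂ) * κ e * (w j e ((V j ^ n) x) : ℂ) := by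
    rw [ae_all_iff]
    intro j
    rw [ae_all_iff]
    intro n
    exact ((hU j).zpow n).1.quasiMeasurePreserving.ae (hval j)
  have hcore : ∀ᵐ x ∂μ, ∀ ε : Fin 2 → Fin 2, ∃ L : ℝ,
      Tendsto (fun N : ℕ => (((2 * N + 1 : ℕ) : ℝ))⁻¹ * ∑ n ∈ Icc (-(N : ℤ)) N,
        ph (V 0) (V 1) (w 0 (ε 0)) (w 1 (ε 1)) x n) atTop (𝓝 L) := by
    rw [ae_all_iff]
    intro ε
    exact fin_real hA (hVc 0) (hVc 1) (hU 0) (hU 1) (hwm _ _) (hwm _ _) (hw1 _ _) (hw1 _ _)
  filter_upwards [hall, hcore] with x hx hL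
  choose L hL using hL
  refine ⟨∑ ε : Fin 2 → Fin 2, (∏ j, (M j : ℂ) * κ (ε j)) * (L ε : ℂ), ?_⟩
  have k : Tendsto (fun N : ℕ => ∑ ε : Fin 2 → Fin 2, (∏ j, (M j : ℂ) * κ (ε j)) *
      (((((2 * N + 1 : ℕ) : ℝ))⁻¹ * ∑ n ∈ Icc (-(N : ℤ)) N,
        ph (V 0) (V 1) (w 0 (ε 0)) (w 1 (ε 1)) x n : ℝ) : ℂ)) atTop
      (𝓝 (∑ ε : Fin 2 → Fin 2, (∏ j, (M j : ℂ) * κ (ε j)) * (L ε : ℂ))) := by
    refine tendsto_finsetSum _ fun ε _ => ?_
    exact ((Complex.continuous_ofReal.tendsto (L ε)).comp (hL ε)).const_mul _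
  refine k.congr ?_
  intro N
  simp only [hV]
  have e : ∀ n : ℤ, ∏ j : Fin 2, f j ((V j ^ n) x) = ∑ ε : Fin 2 → Fin 2,
      (∏ j, (M j : ℂ) * κ (ε j)) * ((ph (V 0) (V 1) (w 0 (ε 0)) (w 1 (ε 1)) x n : ℝ) : ℂ) := by
    intro n
    rw [Finset.prod_congr rfl fun j _ => hx j n, Finset.prod_univ_sum, Fintype.piFinset_univ]
    refine Finset.sum_congr rfl fun ε _ => ?_
    rw [Finset.prod_mul_distrib]
    congr 1
    unfold ph
    rw [Fin.prod_univ_two, Complex.ofReal_mul]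
  rw [Finset.sum_congr rfl fun n _ => e n, Finset.sum_comm, Finset.mul_sum]
  refine Finset.sum_congr rfl fun ε _ => ?_
  rw [← Finset.mul_sum]
  push_cast
  ring

/-- the plain case: `f (T^n x) g (S^n x)` -/
theorem fin_plain (hA : ThmA) (μ : Measure X) [IsProbabilityMeasure μ]
    (T S : Equiv.Perm X) (hTs : Measurable ⇑T.symm) (hSs : Measurable ⇑S.symm)
    (hT : MeasurePreserving ⇑T μ μ) (hS : MeasurePreserving ⇑S μ μ)
    (h1 : Commute ⁅T, S⁆ T) (h2 : Commute ⁅T, S⁆ S)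
    (f g : X → ℂ) (hf : MemLp f ∞ μ) (hg : MemLp g ∞ μ) :
    ∀ᵐ x ∂μ, ∃ L : ℂ, Tendsto (fun N : ℕ => ((2 * N + 1 : ℕ) : ℂ)⁻¹ *
      ∑ n ∈ Icc (-(N : ℤ)) (N : ℤ), f ((T ^ n) x) * g ((S ^ n) x)) atTop (nhds L) := by
  have h := fin_nil2 hA μ 2 ![T, S] (by
    intro i
    fin_cases i
    · exact hTs
    · exact hSs) (by
    intro i
    fin_cases i
    · exact hT
    · exact hS) (fun i j => if i = j then Polynomial.X else 0) ![T, S] (by
    intro j n
    fin_cases j <;> simp [List.ofFn_succ]) (by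
    intro j
    fin_cases j
    · exact h1
    · exact h2) ![f, g] (by
    intro j
    fin_cases j
    · exact hf
    · exact hg)
  filter_upwards [h] with x hx
  obtain ⟨L, hL⟩ := hx
  refine ⟨L, hL.congr fun N => ?_⟩
  congr 1
  refine sum_congr rfl fun n _ => ?_
  rw [Fin.prod_univ_two]
  simp [List.ofFn_succ]

/-- the commuting case: commuting `T_1, …, T_d` and linear `P_ij` -/
theorem fin_comm (hA : ThmA) (μ : Measure X) [IsProbabilityMeasure μ]
    (d : ℕ) (T : Fin d → Equiv.Perm X)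
    (hTs : ∀ i, Measurable ⇑(T i).symm)
    (hT : ∀ i, MeasurePreserving (⇑(T i)) μ μ)
    (hc : ∀ i i', Commute (T i) (T i'))
    (P : Fin d → Fin 2 → Polynomial ℤ) (hP0 : ∀ i j, (P i j).eval 0 = 0)
    (hP1 : ∀ i j, (P i j).natDegree ≤ 1)
    (f : Fin 2 → X → ℂ) (hf : ∀ j, MemLp (f j) ∞ μ) :
    ∀ᵐ x ∂μ, ∃ L : ℂ, Filter.Tendsto
      (fun N : ℕ => ((2 * N + 1 : ℕ) : ℂ)⁻¹ *
        ∑ n ∈ Finset.Icc (-(N : ℤ)) (N : ℤ),
          ∏ j : Fin 2, f j ((List.ofFn fun i : Fin d => T i ^ (P i j).eval n).prod x))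
      Filter.atTop (nhds L) := by
  have heval : ∀ i j (n : ℤ), (P i j).eval n = (P i j).coeff 1 * n := by
    intro i j n
    have h := Polynomial.eq_X_add_C_of_natDegree_le_one (hP1 i j)
    have h0 : (P i j).coeff 0 = 0 := by
      rw [Polynomial.coeff_zero_eq_eval_zero]; exact hP0 i j
    conv_lhs => rw [h]
    simp [h0]
  refine fin_nil2 hA μ d T hTs hT P
    (fun j => (List.ofFn fun i => T i ^ (P i j).coeff 1).prod) (fun j n => ?_) (fun j => ?_) f hf
  · simp only [heval]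
    exact ofFn_zpow d T hc (fun i => (P i j).coeff 1) n
  · have h1 := ofFn_commute hc (fun i => (P i 0).coeff 1) (fun i => (P i 1).coeff 1)
    rw [commutatorElement_eq_one_iff_commute.2 h1]
    exact Commute.one_left _

end

end NP2
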