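import Pool.Agent.NP2.Geo

/-!
# NP2 / Fej : the Fejer multipliers `Ph L η = |D_L(η)|^2 / L^2`

* `Ph_four` : `D_{2L}(η) = D_L(η) (1 + e(Lη))`, so `Ph (2L) η = Ph L η * cos^2(π L η)`.
* `Ph_small` : `1 - Ph L η = L^-2 ∑_{j,j'} (1 - cos 2π(j-j')η) ≤ 2 π^2 L^2 η^2`.
* `Ph_large` : from `norm_Dk_le`.
* `Bb_lower` : let `i*` be the least `i' ≥ 0` with `4^(i'+1) |η| ≥ 1`.  If `i* ≤ H` put
  `a = i* - 2` (truncated); the bands `a..i*` telescope to `Ph (4^a) η - Ph (4^(i*+1)) η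
  ≥ (1 - 20/256) - 1/4 ≥ 1/2` (if `a = 0` then `Ph 1 η = 1`), and their weights are at least
  `2^(-|i*-i|-2)`; as `4^(i*) |η|` lies in `[1/4, 1)` this gives the claim.  If `i* > H` then
  the bands `H-1, H` and the top term sum to `Ph (4^(H-1)) η ≥ 1 - 20/256` (or `Ph 1 η = 1`), with
  weights at least `2^-(H+1-i)`-ish, and `4^i |η| < 4^(i-H-1)`.
-/

namespace NP2
open Finset

noncomputable section

/-- Fejer multiplier -/
def Ph (L : ℕ) (η : ℝ) : ℝ := ‖Dk L η‖ ^ 2 / (L : ℝ) ^ 2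

/-- scalar band function -/
def Bb (H i : ℕ) (η : ℝ) : ℝ :=
  ∑ i' ∈ range (H + 1), (1 / 2 : ℝ) ^ (((i' : ℤ) - i).natAbs) *
      (Ph (4 ^ i') η - Ph (4 ^ (i' + 1)) η)
    + (1 / 2 : ℝ) ^ (H + 1 - i) * Ph (4 ^ (H + 1)) η

theorem Ph_nonneg (L : ℕ) (η : ℝ) : 0 ≤ Ph L η := by
  unfold Ph
  positivity

theorem Ph_le_one (L : ℕ) (η : ℝ) : Ph L η ≤ 1 := by
  unfold Ph
  have h := norm_Dk_le_card L η
  have h2 : ‖Dk L η‖ ^ 2 ≤ (L : ℝ) ^ 2 := pow_le_pow_left₀ (norm_nonneg _) h 2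
  exact div_le_one_of_le₀ h2 (by positivity)

theorem Ph_one (η : ℝ) : Ph 1 η = 1 := by
  unfold Ph Dk
  rw [Finset.sum_range_one, norm_ec]
  norm_num

theorem Ph_period (L : ℕ) (η : ℝ) (n : ℤ) : Ph L (η + n) = Ph L η := by
  have h : Dk L (η + n) = Dk L η := by
    unfold Dk
    refine Finset.sum_congr rfl fun j _ => ?_
    have e : (j : ℝ) * (η + n) = (j : ℝ) * η + (((j : ℤ) * n : ℤ) : ℝ) := by
      push_cast
      ring
    rw [e, ec_add, ec_int, mul_one]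
  unfold Ph
  rw [h]

private theorem Fej_Dk_add (L m : ℕ) (η : ℝ) :
    Dk (L + m) η = Dk L η + ec (L * η) * Dk m η := by
  unfold Dk
  rw [Finset.sum_range_add, Finset.mul_sum]
  congr 1
  refine Finset.sum_congr rfl fun j _ => ?_
  rw [← ec_add]
  congr 1
  push_cast
  ring

private theorem Fej_Dk_add_norm (L m : ℕ) (η : ℝ) :
    ‖Dk (L + m) η‖ ≤ ‖Dk L η‖ + ‖Dk m η‖ := by
  rw [Fej_Dk_add]
  refine (norm_add_le _ _).trans ?_
  rw [norm_mul, norm_ec, one_mul]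

theorem Ph_four (L : ℕ) (η : ℝ) : Ph (4 * L) η ≤ Ph L η := by
  rcases Nat.eq_zero_or_pos L with h0 | h0
  · subst h0
    rfl
  · have h1 : ‖Dk (4 * L) η‖ ≤ 4 * ‖Dk L η‖ := by
      have e : 4 * L = L + (L + (L + L)) := by ring
      rw [e]
      have a1 := Fej_Dk_add_norm L (L + (L + L)) η
      have a2 := Fej_Dk_add_norm L (L + L) η
      have a3 := Fej_Dk_add_norm L L η
      linarith
    have h2 : ‖Dk (4 * L) η‖ ^ 2 ≤ (4 * ‖Dk L η‖) ^ 2 :=
      pow_le_pow_left₀ (norm_nonneg _) h1 2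
    have hL : (0 : ℝ) < (L : ℝ) := by exact_mod_cast h0
    unfold Ph
    push_cast
    rw [div_le_div_iff₀ (by positivity) (by positivity)]
    have h3 : (0 : ℝ) ≤ (L : ℝ) ^ 2 := by positivity
    nlinarith [mul_le_mul_of_nonneg_right h2 h3]

private theorem Fej_normsq (L : ℕ) (η : ℝ) :
    ‖Dk L η‖ ^ 2 = ∑ j ∈ range L, ∑ j' ∈ range L,
      Real.cos (2 * Real.pi * (((j : ℝ) - j') * η)) := by
  have hre : ∀ x : ℝ, (ec x).re = Real.cos (2 * Real.pi * x) := by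
    intro x
    unfold ec
    have e : (2 * (Real.pi : ℂ) * Complex.I * (x : ℂ)) =
        ((2 * Real.pi * x : ℝ) : ℂ) * Complex.I := by
      push_cast
      ring
    rw [e, Complex.exp_ofReal_mul_I_re]
  have hconj : ∀ x : ℝ, (starRingEnd ℂ) (ec x) = ec (-x) := by
    intro x
    unfold ec
    rw [← Complex.exp_conj]
    congr 1
    have h2 : (starRingEnd ℂ) (2 : ℂ) = 2 := Complex.conj_ofNat 2
    rw [map_mul, map_mul, map_mul, h2, Complex.conj_ofReal, Complex.conj_ofReal, Complex.conj_I]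
    push_cast
    ring
  have h1 : ((‖Dk L η‖ ^ 2 : ℝ) : ℂ) = Dk L η * (starRingEnd ℂ) (Dk L η) := by
    rw [Complex.mul_conj, Complex.normSq_eq_norm_sq]
  have h2 : Dk L η * (starRingEnd ℂ) (Dk L η) =
      ∑ j ∈ range L, ∑ j' ∈ range L, ec (((j : ℝ) - j') * η) := by
    unfold Dk
    rw [map_sum, Finset.sum_mul_sum]
    refine Finset.sum_congr rfl fun j _ => Finset.sum_congr rfl fun j' _ => ?_
    rw [hconj, ← ec_add]
    congr 1
    ring
  have h3 : (‖Dk L η‖ ^ 2 : ℝ) = (((‖Dk L η‖ ^ 2 : ℝ) : ℂ)).re := by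
    rw [Complex.ofReal_re]
  rw [h3, h1, h2, Complex.re_sum]
  refine Finset.sum_congr rfl fun j _ => ?_
  rw [Complex.re_sum]
  exact Finset.sum_congr rfl fun j' _ => hre _

theorem Ph_small (L : ℕ) (hL : 1 ≤ L) (η : ℝ) : 1 - Ph L η ≤ 20 * (L : ℝ) ^ 2 * η ^ 2 := by
  have hLp : (0 : ℝ) < (L : ℝ) := by exact_mod_cast hL
  have hpi : Real.pi ^ 2 ≤ 10 := by
    have h1 := Real.pi_lt_d2
    have h0 := Real.pi_pos
    nlinarith
  have h1 : (L : ℝ) ^ 2 - 20 * (L : ℝ) ^ 2 * η ^ 2 * (L : ℝ) ^ 2 ≤ ‖Dk L η‖ ^ 2 := by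
    rw [Fej_normsq]
    have h2 : ∀ j ∈ range L, ∀ j' ∈ range L,
        (1 - 20 * (L : ℝ) ^ 2 * η ^ 2) ≤ Real.cos (2 * Real.pi * (((j : ℝ) - j') * η)) := by
      intro j hj j' hj'
      have hjl : (j : ℝ) ≤ L := by exact_mod_cast (Finset.mem_range.mp hj).le
      have hjl' : (j' : ℝ) ≤ L := by exact_mod_cast (Finset.mem_range.mp hj').le
      have hj0 : (0 : ℝ) ≤ (j : ℝ) := Nat.cast_nonneg j
      have hj0' : (0 : ℝ) ≤ (j' : ℝ) := Nat.cast_nonneg j'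
      have hd : ((j : ℝ) - j') ^ 2 ≤ (L : ℝ) ^ 2 := by
        have : |(j : ℝ) - j'| ≤ L := by
          rw [abs_le]
          constructor <;> linarith
        rw [← sq_abs ((j : ℝ) - j')]
        exact pow_le_pow_left₀ (abs_nonneg _) this 2
      have hc := Real.one_sub_sq_div_two_le_cos (x := 2 * Real.pi * (((j : ℝ) - j') * η))
      have he : (2 * Real.pi * (((j : ℝ) - j') * η)) ^ 2 / 2 =
          2 * Real.pi ^ 2 * (((j : ℝ) - j') ^ 2 * η ^ 2) := by ring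
      rw [he] at hc
      have hb : ((j : ℝ) - j') ^ 2 * η ^ 2 ≤ (L : ℝ) ^ 2 * η ^ 2 :=
        mul_le_mul_of_nonneg_right hd (sq_nonneg η)
      have hb2 : 2 * Real.pi ^ 2 * (((j : ℝ) - j') ^ 2 * η ^ 2) ≤
          20 * ((L : ℝ) ^ 2 * η ^ 2) := by
        refine mul_le_mul (by linarith) hb (by positivity) (by norm_num)
      linarith
    have h3 : ∑ j ∈ range L, ∑ j' ∈ range L, (1 - 20 * (L : ℝ) ^ 2 * η ^ 2) ≤
        ∑ j ∈ range L, ∑ j' ∈ range L, Real.cos (2 * Real.pi * (((j : ℝ) - j') * η)) :=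
      Finset.sum_le_sum fun j hj => Finset.sum_le_sum fun j' hj' => h2 j hj j' hj'
    refine le_trans (le_of_eq ?_) h3
    simp only [Finset.sum_const, Finset.card_range, nsmul_eq_mul]
    ring
  unfold Ph
  have h4 : (1 - 20 * (L : ℝ) ^ 2 * η ^ 2) ≤ ‖Dk L η‖ ^ 2 / (L : ℝ) ^ 2 := by
    rw [le_div_iff₀ (by positivity)]
    linarith
  linarith

private theorem Fej_round (η : ℝ) (h : |η| ≤ 1 / 2) : |η| ≤ |η - round η| := by
  by_cases hr : round η = 0
  · rw [hr]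
    simp
  · have h1 : (1 : ℝ) ≤ |((round η : ℤ) : ℝ)| := by
      have : (1 : ℤ) ≤ |round η| := Int.one_le_abs hr
      exact_mod_cast this
    have h2 : |((round η : ℤ) : ℝ)| ≤ |η| + |η - round η| := by
      have e : ((round η : ℤ) : ℝ) = η - (η - round η) := by ring
      calc |((round η : ℤ) : ℝ)| = |η - (η - round η)| := by rw [← e]
        _ ≤ |η| + |η - round η| := abs_sub _ _
    linarith

theorem Ph_large (L : ℕ) (hL : 1 ≤ L) (η : ℝ) (h0 : η ≠ 0) (h : |η| ≤ 1 / 2) :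
    Ph L η ≤ 1 / (4 * (L : ℝ) ^ 2 * η ^ 2) := by
  have hLp : (0 : ℝ) < (L : ℝ) := by exact_mod_cast hL
  have hpos : 0 < |η| := abs_pos.mpr h0
  have hr := Fej_round η h
  have hne : η - round η ≠ 0 := by
    intro e
    rw [e, abs_zero] at hr
    linarith
  have h1 := norm_Dk_le L η hne
  have h2 : ‖Dk L η‖ ≤ 1 / (2 * |η|) := by
    refine h1.trans ?_
    exact one_div_le_one_div_of_le (by positivity) (by linarith)
  have h3 : ‖Dk L η‖ ^ 2 ≤ (1 / (2 * |η|)) ^ 2 := pow_le_pow_left₀ (norm_nonneg _) h2 2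
  have h4 : (1 / (2 * |η|)) ^ 2 = 1 / (4 * η ^ 2) := by
    rw [div_pow, mul_pow, sq_abs]
    norm_num
  rw [h4] at h3
  unfold Ph
  calc ‖Dk L η‖ ^ 2 / (L : ℝ) ^ 2 ≤ (1 / (4 * η ^ 2)) / (L : ℝ) ^ 2 :=
        div_le_div_of_nonneg_right h3 (by positivity)
    _ = 1 / (4 * (L : ℝ) ^ 2 * η ^ 2) := by
        rw [div_div]
        congr 1
        ring

/-- the band from `4^i` to `4^(i+1)`: at most `320 x^2` and at most `1/(4 x^2)`, `x = 4^i |η|` -/
theorem Ph_band_small (i : ℕ) (η : ℝ) :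
    Ph (4 ^ i) η - Ph (4 ^ (i + 1)) η ≤ 320 * ((4 : ℝ) ^ i * |η|) ^ 2 := by
  have h1 := Ph_le_one (4 ^ i) η
  have h2 := Ph_small (4 ^ (i + 1)) (Nat.one_le_pow _ _ (by norm_num)) η
  have e : 20 * (((4 ^ (i + 1) : ℕ) : ℝ)) ^ 2 * η ^ 2 = 320 * ((4 : ℝ) ^ i * |η|) ^ 2 := by
    rw [mul_pow, sq_abs]
    push_cast
    ring
  rw [e] at h2
  linarith

theorem Ph_band_large (i : ℕ) (η : ℝ) (h0 : η ≠ 0) (h : |η| ≤ 1 / 2) :
    Ph (4 ^ i) η - Ph (4 ^ (i + 1)) η ≤ 1 / (4 * ((4 : ℝ) ^ i * |η|) ^ 2) := by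
  have h1 := Ph_nonneg (4 ^ (i + 1)) η
  have h2 := Ph_large (4 ^ i) (Nat.one_le_pow _ _ (by norm_num)) η h0 h
  have e : 1 / (4 * (((4 ^ i : ℕ) : ℝ)) ^ 2 * η ^ 2) = 1 / (4 * ((4 : ℝ) ^ i * |η|) ^ 2) := by
    rw [mul_pow, sq_abs]
    push_cast
    congr 1
    ring
  rw [e] at h2
  linarith

private theorem Fej_band_nonneg (i : ℕ) (η : ℝ) : 0 ≤ Ph (4 ^ i) η - Ph (4 ^ (i + 1)) η := by
  have h := Ph_four (4 ^ i) η
  have e : 4 * 4 ^ i = 4 ^ (i + 1) := by ring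
  rw [e] at h
  linarith

theorem Bb_nonneg (H i : ℕ) (η : ℝ) : 0 ≤ Bb H i η := by
  unfold Bb
  have h1 : 0 ≤ ∑ i' ∈ range (H + 1), (1 / 2 : ℝ) ^ (((i' : ℤ) - i).natAbs) *
      (Ph (4 ^ i') η - Ph (4 ^ (i' + 1)) η) :=
    Finset.sum_nonneg fun i' _ => mul_nonneg (by positivity) (Fej_band_nonneg i' η)
  have h2 : 0 ≤ (1 / 2 : ℝ) ^ (H + 1 - i) * Ph (4 ^ (H + 1)) η :=
    mul_nonneg (by positivity) (Ph_nonneg _ _)
  linarith

theorem Bb_period (H i : ℕ) (η : ℝ) (n : ℤ) : Bb H i (η + n) = Bb H i η := by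
  unfold Bb
  simp only [Ph_period]

private theorem Fej_tele (η : ℝ) (a b : ℕ) (hab : a ≤ b) :
    ∑ i' ∈ Finset.Ico a b, (Ph (4 ^ i') η - Ph (4 ^ (i' + 1)) η) =
      Ph (4 ^ a) η - Ph (4 ^ b) η := by
  induction b, hab using Nat.le_induction with
  | base => simp
  | succ b hb ih =>
    rw [Finset.sum_Ico_succ_top hb, ih]
    ring

private theorem Fej_sum_lower (H i : ℕ) (η : ℝ) (a b : ℕ) (hab : a ≤ b) (hb : b ≤ H + 1)
    (w : ℕ) (hw : ∀ i' : ℕ, a ≤ i' → i' < b → (((i' : ℤ) - i).natAbs) ≤ w) :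
    (1 / 2 : ℝ) ^ w * (Ph (4 ^ a) η - Ph (4 ^ b) η) ≤
      ∑ i' ∈ range (H + 1), (1 / 2 : ℝ) ^ (((i' : ℤ) - i).natAbs) *
        (Ph (4 ^ i') η - Ph (4 ^ (i' + 1)) η) := by
  have hsub : Finset.Ico a b ⊆ range (H + 1) := by
    intro k hk
    rw [Finset.mem_Ico] at hk
    rw [Finset.mem_range]
    omega
  calc (1 / 2 : ℝ) ^ w * (Ph (4 ^ a) η - Ph (4 ^ b) η)
      = ∑ i' ∈ Finset.Ico a b, (1 / 2 : ℝ) ^ w *
          (Ph (4 ^ i') η - Ph (4 ^ (i' + 1)) η) := by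
        rw [← Fej_tele η a b hab, Finset.mul_sum]
    _ ≤ ∑ i' ∈ Finset.Ico a b, (1 / 2 : ℝ) ^ (((i' : ℤ) - i).natAbs) *
          (Ph (4 ^ i') η - Ph (4 ^ (i' + 1)) η) := by
        refine Finset.sum_le_sum fun i' hi' => ?_
        rw [Finset.mem_Ico] at hi'
        refine mul_le_mul_of_nonneg_right ?_ (Fej_band_nonneg i' η)
        exact pow_le_pow_of_le_one (by norm_num) (by norm_num) (hw i' hi'.1 hi'.2)
    _ ≤ _ := by
        refine Finset.sum_le_sum_of_subset_of_nonneg hsub fun i' _ _ => ?_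
        exact mul_nonneg (by positivity) (Fej_band_nonneg i' η)

/-- `Ph` is near one well below the scale -/
private theorem Fej_low (m : ℕ) (η : ℝ) (ht : (4 : ℝ) ^ m * |η| < 1) :
    59 / 64 ≤ Ph (4 ^ (m - 2)) η := by
  rcases le_or_gt m 2 with hm | hm
  · have e : m - 2 = 0 := by omega
    rw [e, pow_zero, Ph_one]
    norm_num
  · have h1 := Ph_small (4 ^ (m - 2)) (Nat.one_le_pow _ _ (by norm_num)) η
    have e : m = (m - 2) + 2 := by omega
    have h2 : (4 : ℝ) ^ (m - 2) * |η| ≤ 1 / 16 := by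
      rw [e, pow_add] at ht
      norm_num at ht
      linarith
    have h3 : 0 ≤ (4 : ℝ) ^ (m - 2) * |η| := by positivity
    have h4 : ((4 : ℝ) ^ (m - 2) * |η|) ^ 2 ≤ (1 / 16) ^ 2 := pow_le_pow_left₀ h3 h2 2
    rw [mul_pow, sq_abs] at h4
    push_cast at h1
    norm_num at h4
    linarith

theorem Bb_lower (H i : ℕ) (hi : i ≤ H) (η : ℝ) (h : |η| ≤ 1 / 2) :
    min (Real.sqrt ((4 : ℝ) ^ i * |η|)) (1 / Real.sqrt ((4 : ℝ) ^ i * |η|)) ≤
      16 * Bb H i η := by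
  rcases eq_or_ne η 0 with h0 | h0
  · subst h0
    have := Bb_nonneg H i 0
    simp only [abs_zero, mul_zero, Real.sqrt_zero]
    refine (min_le_left _ _).trans ?_
    linarith
  have hpos : 0 < |η| := abs_pos.mpr h0
  rcases lt_or_ge ((4 : ℝ) ^ (H + 1) * |η|) 1 with hH | hH
  · -- top case
    have hlow := Fej_low (H + 1) η hH
    have hs := Fej_sum_lower H i η (H + 1 - 2) (H + 1) (by omega) le_rfl (H + 1 - i)
      (by intro k hk1 hk2; omega)
    have hB : (1 / 2 : ℝ) ^ (H + 1 - i) * Ph (4 ^ (H + 1 - 2)) η ≤ Bb H i η := by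
      unfold Bb
      linarith
    have hw : (0 : ℝ) ≤ (1 / 2 : ℝ) ^ (H + 1 - i) := by positivity
    have hB2 : (1 / 2 : ℝ) ^ (H + 1 - i) * (59 / 64) ≤ Bb H i η :=
      (mul_le_mul_of_nonneg_left hlow hw).trans hB
    have hx : Real.sqrt ((4 : ℝ) ^ i * |η|) ≤ (1 / 2 : ℝ) ^ (H + 1 - i) := by
      rw [Real.sqrt_le_left hw, ← pow_mul, mul_comm (H + 1 - i) 2, pow_mul]
      have e : (4 : ℝ) ^ (H + 1) = 4 ^ i * 4 ^ (H + 1 - i) := by
        rw [← pow_add]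
        congr 1
        omega
      rw [e] at hH
      have e2 : ((1 / 2 : ℝ) ^ 2) ^ (H + 1 - i) = 1 / 4 ^ (H + 1 - i) := by
        rw [← one_div_pow]
        norm_num
      rw [e2, le_div_iff₀ (by positivity)]
      nlinarith
    refine (min_le_left _ _).trans (hx.trans ?_)
    linarith
  · -- interior case
    have hex : ∃ n : ℕ, 1 ≤ (4 : ℝ) ^ (n + 1) * |η| := ⟨H, hH⟩
    classical
    obtain ⟨n, hn1, hnmin⟩ : ∃ n : ℕ, 1 ≤ (4 : ℝ) ^ (n + 1) * |η| ∧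
        ∀ k < n, ¬ (1 ≤ (4 : ℝ) ^ (k + 1) * |η|) :=
      ⟨Nat.find hex, Nat.find_spec hex, fun k hk => Nat.find_min hex hk⟩
    have hnH : n ≤ H := by
      by_contra hc
      exact hnmin H (by omega) hH
    have hlt : (4 : ℝ) ^ n * |η| < 1 := by
      rcases Nat.eq_zero_or_pos n with hz | hz
      · rw [hz, pow_zero, one_mul]
        linarith
      · have := hnmin (n - 1) (by omega)
        have e : n - 1 + 1 = n := by omega
        rw [e] at this
        exact not_le.mp this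
    have hlow := Fej_low n η hlt
    have hup : Ph (4 ^ (n + 1)) η ≤ 1 / 4 := by
      have h1 := Ph_large (4 ^ (n + 1)) (Nat.one_le_pow _ _ (by norm_num)) η h0 h
      have h2 : (1 : ℝ) ≤ ((4 : ℝ) ^ (n + 1) * |η|) ^ 2 := one_le_pow₀ hn1
      rw [mul_pow, sq_abs] at h2
      refine h1.trans ?_
      push_cast
      refine one_div_le_one_div_of_le (by norm_num) ?_
      nlinarith
    have hs := Fej_sum_lower H i η (n - 2) (n + 1) (by omega) (by omega)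
      (((n : ℤ) - i).natAbs + 2) (by intro k hk1 hk2; omega)
    have htop : 0 ≤ (1 / 2 : ℝ) ^ (H + 1 - i) * Ph (4 ^ (H + 1)) η :=
      mul_nonneg (by positivity) (Ph_nonneg _ _)
    have hw : (0 : ℝ) ≤ (1 / 2 : ℝ) ^ (((n : ℤ) - i).natAbs) := by positivity
    have hB : (1 / 2 : ℝ) ^ (((n : ℤ) - i).natAbs) * (1 / 8) ≤ Bb H i η := by
      have h1 : (1 / 2 : ℝ) ^ (((n : ℤ) - i).natAbs + 2) * (1 / 2) ≤
          (1 / 2 : ℝ) ^ (((n : ℤ) - i).natAbs + 2) *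
            (Ph (4 ^ (n - 2)) η - Ph (4 ^ (n + 1)) η) :=
        mul_le_mul_of_nonneg_left (by linarith) (by positivity)
      have e : (1 / 2 : ℝ) ^ (((n : ℤ) - i).natAbs + 2) * (1 / 2) =
          (1 / 2 : ℝ) ^ (((n : ℤ) - i).natAbs) * (1 / 8) := by
        rw [pow_add]
        ring
      rw [e] at h1
      unfold Bb
      linarith
    rcases le_total i n with hin | hin
    · have en : ((n : ℤ) - i).natAbs = n - i := by omega
      rw [en] at hB hw
      have hx : Real.sqrt ((4 : ℝ) ^ i * |η|) ≤ (1 / 2 : ℝ) ^ (n - i) := by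
        rw [Real.sqrt_le_left hw, ← pow_mul, mul_comm (n - i) 2, pow_mul]
        have e : (4 : ℝ) ^ n = 4 ^ i * 4 ^ (n - i) := by
          rw [← pow_add]
          congr 1
          omega
        rw [e] at hlt
        have e2 : ((1 / 2 : ℝ) ^ 2) ^ (n - i) = 1 / 4 ^ (n - i) := by
          rw [← one_div_pow]
          norm_num
        rw [e2, le_div_iff₀ (by positivity)]
        nlinarith
      refine (min_le_left _ _).trans (hx.trans ?_)
      linarith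
    · have en : ((n : ℤ) - i).natAbs = i - n := by omega
      rw [en] at hB hw
      have hp : 0 < (4 : ℝ) ^ i * |η| := by positivity
      have hx : 1 / Real.sqrt ((4 : ℝ) ^ i * |η|) ≤ 2 * (1 / 2 : ℝ) ^ (i - n) := by
        have e2 : (1 / 2 : ℝ) ^ (i - n) = 1 / 2 ^ (i - n) := by
          rw [one_div_pow]
        have hk : (2 : ℝ) ^ (i - n) / 2 ≤ Real.sqrt ((4 : ℝ) ^ i * |η|) := by
          refine Real.le_sqrt_of_sq_le ?_
          have e : (4 : ℝ) ^ i = 4 ^ n * 4 ^ (i - n) := by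
            rw [← pow_add]
            congr 1
            omega
          have e3 : ((2 : ℝ) ^ (i - n) / 2) ^ 2 = 4 ^ (i - n) / 4 := by
            rw [div_pow, ← pow_mul, mul_comm (i - n) 2, pow_mul]
            norm_num
          rw [e3, e]
          rw [pow_succ] at hn1
          have hq : (0 : ℝ) ≤ 4 ^ (i - n) := by positivity
          nlinarith [mul_le_mul_of_nonneg_left hn1 hq]
        have hk2 : 0 < (2 : ℝ) ^ (i - n) / 2 := by positivity
        refine (one_div_le_one_div_of_le hk2 hk).trans (le_of_eq ?_)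
        rw [e2]
        field_simp
      refine (min_le_right _ _).trans (hx.trans ?_)
      linarith

end

end NP2
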