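import Pool.Agent.NP2.Clo3

/-!
# NP2 / Fin3 : the final statement, conditional on Theorem A

`EigK μ G k h`: the function `h` is bounded and the `k`-th term `G_k` of the lower central series
of `G` (`k = 1`: `⁅G, G⁆`, `k = 2`: `⁅⁅G, G⁆, G⁆`) acts on `h` by a unimodular function which is
invariant under conjugation by `G`.  `InEK μ G k f`: `f` lies in the closed span of these functions.

`fin_A`: `V_0`, `V_1` arbitrary, `H` the group generated by them, `f_0` or `f_1` in `InEK μ H 2`.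
`fin3`: the final theorem.  `fin3_step2`, `fin3_comm`: the plain cases.
-/

set_option autoImplicit false

open Finset MeasureTheory Filter Topology
open scoped ENNReal commutatorElement

namespace NP2
open Pool.PWZ

variable {X : Type}

/-- `h` is bounded and the `k`-th term of the lower central series of `G` acts on `h` by a
unimodular function which is invariant under conjugation by `G` -/
def EigK [MeasurableSpace X] (μ : Measure X) (G : Subgroup (Equiv.Perm X)) (k : ℕ)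
    (h : X → ℂ) : Prop :=
  MemLp h ∞ μ ∧ ∃ χ : Equiv.Perm X → ℂ, (∀ ν ∈ G.lowerCentralSeries k, ‖χ ν‖ = 1) ∧
    (∀ γ ∈ G, ∀ ν ∈ G.lowerCentralSeries k, χ (γ * ν * γ⁻¹) = χ ν) ∧
    ∀ ν ∈ G.lowerCentralSeries k, ∀ᵐ x ∂μ, h (ν x) = χ ν * h x

/-- `f` lies in the closure in `L²` of the finite sums of functions `h` with `EigK μ G k h` -/
def InEK [MeasurableSpace X] (μ : Measure X) (G : Subgroup (Equiv.Perm X)) (k : ℕ)
    (f : X → ℂ) : Prop :=
  ∀ ε : ℝ, 0 < ε → ∃ (l : ℕ) (h : Fin l → X → ℂ), (∀ i, EigK μ G k (h i)) ∧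
    eLpNorm (fun x => f x - ∑ i, h i x) 2 μ ≤ ENNReal.ofReal ε

lemma coe_mem_lcs {G : Subgroup (Equiv.Perm X)} {k : ℕ} {ν : G}
    (hν : ν ∈ (⊤ : Subgroup G).lowerCentralSeries k) :
    (ν : Equiv.Perm X) ∈ G.lowerCentralSeries k := by
  rw [← Subgroup.top_subtype_lowerCentralSeries]
  exact Subgroup.mem_map_of_mem G.subtype hν

lemma low3_eq (G : Type) [Group G] : low3 G = (⊤ : Subgroup G).lowerCentralSeries 2 := by
  unfold low3
  rw [Subgroup.commutator_comm]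
  rfl

lemma EigK.eigN [MeasurableSpace X] {μ : Measure X} {G : Subgroup (Equiv.Perm X)} {k : ℕ}
    {h : X → ℂ} (H : EigK μ G k h) : EigN μ G ((⊤ : Subgroup G).lowerCentralSeries k) h := by
  obtain ⟨hm, χ, h1, h2, h3⟩ := H
  refine ⟨hm, fun g => χ (g : Equiv.Perm X), fun ν hν => h1 _ (coe_mem_lcs hν),
    fun γ ν hν => ?_, fun ν hν => h3 _ (coe_mem_lcs hν)⟩
  exact h2 _ γ.2 _ (coe_mem_lcs hν)

lemma InEK.inN [MeasurableSpace X] {μ : Measure X} {G : Subgroup (Equiv.Perm X)} {k : ℕ}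
    {f : X → ℂ} (H : InEK μ G k f) : InN μ G ((⊤ : Subgroup G).lowerCentralSeries k) f := by
  intro ε hε
  obtain ⟨l, h, h1, h2⟩ := H ε hε
  exact ⟨l, h, fun i => (h1 i).eigN, h2⟩

lemma InEK.inE [MeasurableSpace X] {μ : Measure X} {G : Subgroup (Equiv.Perm X)}
    {f : X → ℂ} (H : InEK μ G 1 f) : InE μ G f := H.inN

/-- if the `k`-th term is trivial, every bounded function belongs to the span -/
lemma InEK_of_bot [MeasurableSpace X] {μ : Measure X} {G : Subgroup (Equiv.Perm X)} {k : ℕ}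
    (hG : G.lowerCentralSeries k = ⊥) (f : X → ℂ) (hf : MemLp f ∞ μ) : InEK μ G k f := by
  intro ε hε
  refine ⟨1, fun _ => f, fun _ => ⟨hf, fun _ => 1, fun _ _ => by simp, fun _ _ _ _ => rfl, ?_⟩,
    ?_⟩
  · intro ν hν
    rw [hG, Subgroup.mem_bot] at hν
    subst hν
    refine Eventually.of_forall fun x => ?_
    simp
  · simp

/-- generators commuting with their commutator generate a group of step at most two -/
lemma lcs_two_eq_bot {G : Type} [Group G] (V : Fin 2 → G) (h : ∀ j, Commute ⁅V 0, V 1⁆ (V j)) :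
    (Subgroup.closure (Set.range V)).lowerCentralSeries 2 = ⊥ := by
  obtain ⟨H, hH⟩ : ∃ H, H = Subgroup.closure (Set.range V) := ⟨_, rfl⟩
  obtain ⟨Z, hZ⟩ : ∃ Z, Z = Subgroup.centralizer (H : Set G) := ⟨_, rfl⟩
  have hz : ⁅V 0, V 1⁆ ∈ Z := by
    rw [hZ, hH, Subgroup.centralizer_closure, Subgroup.mem_centralizer_iff]
    rintro _ ⟨j, rfl⟩
    exact (h j).eq.symm
  have hgen : ∀ i j, ⁅V i, V j⁆ ∈ Z := by
    intro i j
    fin_cases i <;> fin_cases j
    · simp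
    · exact hz
    · have : ⁅V 1, V 0⁆ = ⁅V 0, V 1⁆⁻¹ := (commutatorElement_inv _ _).symm
      show ⁅V 1, V 0⁆ ∈ Z
      rw [this]
      exact Subgroup.inv_mem _ hz
    · simp
  -- `⁅x, y⁆ ∈ Z` for all `x`, `y` in `H`
  have hmul : ∀ {x x' y : G}, x ∈ H → ⁅x, y⁆ ∈ Z → ⁅x', y⁆ ∈ Z → ⁅x * x', y⁆ ∈ Z := by
    intro x x' y hx h1 h2
    have hc : x * ⁅x', y⁆ = ⁅x', y⁆ * x := by
      rw [hZ, Subgroup.mem_centralizer_iff] at h2
      exact h2 x hx
    have e : ⁅x * x', y⁆ = ⁅x', y⁆ * ⁅x, y⁆ := by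
      have e1 : ⁅x * x', y⁆ = x * ⁅x', y⁆ * (y * x⁻¹ * y⁻¹) := by
        simp only [commutatorElement_def]; group
      rw [e1, hc, commutatorElement_def x y]
      group
    rw [e]
    exact Subgroup.mul_mem _ h2 h1
  have hinv : ∀ {x y : G}, x ∈ H → ⁅x, y⁆ ∈ Z → ⁅x⁻¹, y⁆ ∈ Z := by
    intro x y hx h1
    have hc : x⁻¹ * ⁅x, y⁆⁻¹ = ⁅x, y⁆⁻¹ * x⁻¹ := by
      have h2 := Subgroup.inv_mem _ h1
      rw [hZ, Subgroup.mem_centralizer_iff] at h2
      exact h2 _ (Subgroup.inv_mem _ hx)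
    have e : ⁅x⁻¹, y⁆ = ⁅x, y⁆⁻¹ := by
      have e1 : ⁅x⁻¹, y⁆ = x⁻¹ * ⁅x, y⁆⁻¹ * x := by
        simp only [commutatorElement_def]; group
      rw [e1, hc, inv_mul_cancel_right]
    rw [e]
    exact Subgroup.inv_mem _ h1
  have hsymm : ∀ {x y : G}, ⁅x, y⁆ ∈ Z → ⁅y, x⁆ ∈ Z := by
    intro x y h1
    rw [← commutatorElement_inv]
    exact Subgroup.inv_mem _ h1
  have hV : ∀ j, V j ∈ H := fun j => hH ▸ Subgroup.subset_closure ⟨j, rfl⟩
  have step1 : ∀ x ∈ H, ∀ j, ⁅x, V j⁆ ∈ Z := by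
    intro x hx j
    rw [hH] at hx
    induction hx using Subgroup.closure_induction with
    | mem x hx =>
      obtain ⟨i, rfl⟩ := hx
      exact hgen i j
    | one => simp
    | mul a b ha hb iha ihb => exact hmul (hH ▸ ha) iha ihb
    | inv a ha iha => exact hinv (hH ▸ ha) iha
  have step2 : ∀ y ∈ H, ∀ x ∈ H, ⁅y, x⁆ ∈ Z := by
    intro y hy x hx
    have hy' := hy
    rw [hH] at hy
    induction hy using Subgroup.closure_induction with
    | mem y hy =>
      obtain ⟨j, rfl⟩ := hy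
      exact hsymm (step1 x hx j)
    | one => simp
    | mul a b ha hb iha ihb => exact hmul (hH ▸ ha) (iha (hH ▸ ha)) (ihb (hH ▸ hb))
    | inv a ha iha => exact hinv (hH ▸ ha) (iha (hH ▸ ha))
  rw [← hH]
  show ⁅⁅H, H⁆, H⁆ = ⊥
  rw [Subgroup.commutator_eq_bot_iff_le_centralizer, ← hZ]
  exact Subgroup.commutator_le.2 fun y hy x hx => step2 y hy x hx

/-- single averages along the powers of one map -/
lemma Sg_pow [MeasurableSpace X] {μ : Measure X} [IsProbabilityMeasure μ] {V : Equiv.Perm X}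
    (hV : MP2 μ V) : Sg μ fun n => V ^ n := by
  intro u hu hub
  have hnil : Group.IsNilpotent (Subgroup.closure (Set.range fun _ : Fin 1 => V)) := by
    rw [Subgroup.isNilpotent_iff_lowerCentralSeries]
    refine ⟨1, ?_⟩
    show ⁅Subgroup.closure (Set.range fun _ : Fin 1 => V),
      Subgroup.closure (Set.range fun _ : Fin 1 => V)⁆ = ⊥
    rw [Subgroup.commutator_eq_bot_iff_le_centralizer, Subgroup.closure_le]
    rintro _ ⟨_, rfl⟩
    rw [Subgroup.centralizer_closure, SetLike.mem_coe, Subgroup.mem_centralizer_iff]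
    rintro _ ⟨_, rfl⟩
    rfl
  have hu2 : MemLp u 2 μ := by
    obtain ⟨M, hM⟩ := hub
    exact MemLp.of_bound hu.aestronglyMeasurable M (Eventually.of_forall hM)
  have h := Pool.Nil.orb_conv (fun _ : Fin 1 => V) (fun _ => hV.1) (fun _ => hV.2) hnil
    (fun _ => Polynomial.X) u hu2
  filter_upwards [h] with x hx
  obtain ⟨L, hL⟩ := hx
  refine ⟨L, hL.congr fun N => ?_⟩
  unfold cav Pool.Nil.orb
  push_cast
  congr 1
  refine Finset.sum_congr rfl fun n _ => ?_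
  simp

/-- the basic case -/
theorem Cv3_split (hA : ThmA) [MeasurableSpace X] {μ : Measure X} [IsProbabilityMeasure μ]
    {G : Subgroup (Equiv.Perm X)} (hG : ∀ γ ∈ G, MP2 μ γ) {f₁ f₂ : X → ℂ} {χ : G → ℂ}
    (H : EigL G (low3 G) f₂ χ) (T S : G) {s₁ s₂ : ℤ → Equiv.Perm X}
    (h₁ : LinSeq s₁ f₁ (T : Equiv.Perm X)) (h₂ : LinSeq s₂ f₂ (S : Equiv.Perm X))
    (hf₁ : ∀ x, ‖f₁ x‖ ≤ 1) (hf₂ : ∀ x, ‖f₂ x‖ ≤ 1) (hm₁ : Measurable f₁) (hm₂ : Measurable f₂)
    (hs₁ : ∀ n, Measurable ⇑(s₁ n)) (hs₂ : ∀ n, Measurable ⇑(s₂ n)) : Cv μ s₁ s₂ f₁ f₂ := by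
  refine ae_split2 hA μ
    (fun c n m => ((T ^ c * pe T S ⁅T, S⁆⁻¹ (n : ℤ) (m : ℤ) : G) : Equiv.Perm X))
    (fun c n m => hG _ (Subtype.coe_prop _)) (fun x n => f₁ (s₁ n x) * f₂ (s₂ n x))
    (fun n => (hm₁.comp (hs₁ n)).mul (hm₂.comp (hs₂ n))) (fun x n => ?_) (fun x => ?_)
  · rw [norm_mul]
    exact mul_le_one₀ (hf₁ _) (norm_nonneg _) (hf₂ _)
  · obtain ⟨θ, F, K, h1, h2, h3, h4⟩ := split3_of_eig H T S h₁ h₂ hf₁ hf₂ x
    refine ⟨fun c n m => θ n m c, fun n m t => F n m t, fun n m t => K n m t,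
      fun c n m => h1 _ _ _, fun n m t => h2 _ _ _, fun n m t => h3 _ _ _, fun c n m t => ?_⟩
    have h5 := h4 (n : ℤ) (m : ℤ) c ((t : ℤ) - c)
    rw [add_sub_cancel] at h5
    push_cast
    exact h5

/-- powers of two maps, an arbitrary function and an eigenfunction -/
theorem Cv3_pow (hA : ThmA) [MeasurableSpace X] {μ : Measure X} [IsProbabilityMeasure μ]
    {G : Subgroup (Equiv.Perm X)} [Countable G] (hG : ∀ γ ∈ G, MP2 μ γ) (T S : G)
    {f₁ f₂ : X → ℂ} (hf₁ : MemLp f₁ ∞ μ) (hf₂ : EigN μ G (low3 G) f₂) :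
    Cv μ (fun n => (T : Equiv.Perm X) ^ n) (fun n => (S : Equiv.Perm X) ^ n) f₁ f₂ := by
  obtain ⟨M₁, h₁, _, m₁, b₁, a₁⟩ := exists_bdd' μ f₁ hf₁
  obtain ⟨M₂, h₂, χ₂, _, m₂, b₂, e₂, a₂⟩ := hf₂.exists_everywhere hG (low3_normal G)
  have hs : ∀ (A : G) (n : ℤ), MeasurePreserving ⇑((A : Equiv.Perm X) ^ n) μ μ := fun A n =>
    (hG _ (Subgroup.zpow_mem _ A.2 n)).1
  have h := Cv3_split (μ := μ) hA hG e₂ T S (LinSeq.pow h₁ (T : Equiv.Perm X))
    (LinSeq.pow h₂ (S : Equiv.Perm X)) b₁ b₂ m₁ m₂ (fun n => (hs T n).measurable)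
    (fun n => (hs S n).measurable)
  exact (h.const_mul (M₁ : ℂ) (M₂ : ℂ)).congr (hs T) (hs S) a₁ a₂

lemma countable_closure {d : ℕ} (T : Fin d → Equiv.Perm X) :
    Countable (Subgroup.closure (Set.range T)) := by
  have h1 : Function.Surjective (FreeGroup.lift T).rangeRestrict :=
    MonoidHom.rangeRestrict_surjective _
  have h2 : (FreeGroup.lift T).range = Subgroup.closure (Set.range T) := by
    rw [FreeGroup.range_lift_eq_closure]
  rw [← h2]
  have : Countable (FreeGroup (Fin d)) := by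
    unfold FreeGroup
    infer_instance
  exact h1.countable

lemma mp2_closure [MeasurableSpace X] {μ : Measure X} {d : ℕ} (T : Fin d → Equiv.Perm X)
    (hT : ∀ i, MP2 μ (T i)) : ∀ γ ∈ Subgroup.closure (Set.range T), MP2 μ γ := by
  intro γ hγ
  induction hγ using Subgroup.closure_induction with
  | mem γ h =>
    obtain ⟨i, rfl⟩ := h
    exact hT i
  | one => exact MP2.one
  | mul a b _ _ ha hb => exact ha.mul hb
  | inv a _ ha => exact ha.inv

/-- powers of two arbitrary maps `V 0`, `V 1`, one of the functions in the closed span of the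
functions on which the third term of the lower central series of the group generated by `V 0`,
`V 1` acts by an invariant character -/
theorem fin_A (hA : ThmA) [MeasurableSpace X] (μ : Measure X) [IsProbabilityMeasure μ]
    (V : Fin 2 → Equiv.Perm X) (hV : ∀ j, MP2 μ (V j)) (f : Fin 2 → X → ℂ)
    (hf : ∀ j, MemLp (f j) ∞ μ) (j : Fin 2)
    (hj : InEK μ (Subgroup.closure (Set.range V)) 2 (f j)) :
    Cv μ (fun n => V 0 ^ n) (fun n => V 1 ^ n) (f 0) (f 1) := by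
  obtain ⟨G, hGdef⟩ : ∃ G, G = Subgroup.closure (Set.range V) := ⟨_, rfl⟩
  rw [← hGdef] at hj
  have hcount : Countable G := hGdef ▸ countable_closure V
  have hG : ∀ γ ∈ G, MP2 μ γ := hGdef ▸ mp2_closure V hV
  have hVG : ∀ i, V i ∈ G := fun i => hGdef ▸ Subgroup.subset_closure ⟨i, rfl⟩
  have hmp : ∀ i (n : ℤ), MeasurePreserving ⇑(V i ^ n) μ μ := fun i n =>
    (hG _ (Subgroup.zpow_mem _ (hVG i) n)).1
  have hj' : InN μ G (low3 G) (f j) := by
    rw [low3_eq]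
    exact hj.inN
  have key : ∀ i, Cv μ (fun n => V i ^ n) (fun n => V j ^ n) (f i) (f j) := by
    intro i
    refine Cv.swap (Cv_of_InN hG (low3_normal G) (hmp j) (hmp i) (Sg_pow (hV j)) (hf j) (hf i) hj'
      fun h hh => ?_)
    have h1 := Cv3_pow hA hG (⟨V i, hVG i⟩ : G) (⟨V j, hVG j⟩ : G) (hf i) hh
    exact h1.swap
  fin_cases j
  · exact (key 1).swap
  · exact key 0

/-- **the final theorem**, conditional on Theorem A -/
theorem fin3 (hA : ThmA) (X : Type) [MeasurableSpace X] (μ : Measure X) [IsProbabilityMeasure μ]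
    (d : ℕ) (T : Fin d → Equiv.Perm X)
    (hs : ∀ i, Measurable ⇑(T i).symm)
    (hT : ∀ i, MeasurePreserving (⇑(T i)) μ μ)
    (P : Fin d → Fin 2 → Polynomial ℤ) (hP0 : ∀ i j, (P i j).eval 0 = 0)
    (f : Fin 2 → X → ℂ) (hf : ∀ j, MemLp (f j) ∞ μ)
    (h : (∃ V : Fin 2 → Equiv.Perm X,
          (∀ j, ∀ n : ℤ, (List.ofFn fun i : Fin d => T i ^ (P i j).eval n).prod = V j ^ n) ∧
          ∃ j, InEK μ (Subgroup.closure (Set.range V)) 2 (f j)) ∨
        (Group.IsNilpotent (Subgroup.closure (Set.range T)) ∧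
          (∀ i j, (P i j).natDegree ≤ 1) ∧
          ∃ j : Fin 2, InEK μ (Subgroup.closure (Set.range T)) 1 (f j) ∧
            ∀ i, i ≠ j → InEK μ (Subgroup.closure (Set.range T)) 1 (f i) ∨
              ∃ V : Equiv.Perm X, ∀ n : ℤ,
                (List.ofFn fun l : Fin d => T l ^ (P l i).eval n).prod = V ^ n)) :
    ∀ᵐ x ∂μ, ∃ L : ℂ, Filter.Tendsto
      (fun N : ℕ => ((2 * N + 1 : ℕ) : ℂ)⁻¹ *
        ∑ n ∈ Finset.Icc (-(N : ℤ)) (N : ℤ),
          ∏ j : Fin 2, f j ((List.ofFn fun i : Fin d => T i ^ (P i j).eval n).prod x))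
      Filter.atTop (nhds L) := by
  rcases h with ⟨V, hV, j, hj⟩ | ⟨hnil, hP1, j, hj, hi⟩
  · have hTm : ∀ i, MP2 μ (T i) := fun i => MP2.of (hs i) (hT i)
    have hVm : ∀ j, MP2 μ (V j) := by
      intro j
      have h1 := hV j 1
      rw [zpow_one] at h1
      rw [← h1]
      refine mp2_closure T hTm _ (Subgroup.list_prod_mem _ fun g hg => ?_)
      rw [List.mem_ofFn] at hg
      obtain ⟨i, rfl⟩ := hg
      have hTi : T i ∈ Subgroup.closure (Set.range T) := Subgroup.subset_closure ⟨i, rfl⟩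
      exact Subgroup.zpow_mem _ hTi _
    have h := fin_A hA μ V hVm f hf j hj
    unfold Cv at h
    filter_upwards [h] with x hx
    obtain ⟨L, hL⟩ := hx
    refine ⟨L, hL.congr fun N => ?_⟩
    unfold cav
    simp only [Fin.prod_univ_two, hV]
  · exact nil_final X μ d T hs hT hnil P hP0 hP1 f hf j hj.inE fun i hij =>
      (hi i hij).imp (fun h => h.inE) id

/-- the plain case: the commutator of `V 0`, `V 1` commutes with both -/
theorem fin3_step2 (hA : ThmA) (X : Type) [MeasurableSpace X] (μ : Measure X)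
    [IsProbabilityMeasure μ] (V : Fin 2 → Equiv.Perm X)
    (hs : ∀ i, Measurable ⇑(V i).symm) (hV : ∀ i, MeasurePreserving (⇑(V i)) μ μ)
    (hc : ∀ j, Commute ⁅V 0, V 1⁆ (V j)) (f : Fin 2 → X → ℂ) (hf : ∀ j, MemLp (f j) ∞ μ) :
    ∀ᵐ x ∂μ, ∃ L : ℂ, Filter.Tendsto
      (fun N : ℕ => ((2 * N + 1 : ℕ) : ℂ)⁻¹ *
        ∑ n ∈ Finset.Icc (-(N : ℤ)) (N : ℤ), f 0 ((V 0 ^ n) x) * f 1 ((V 1 ^ n) x))
      Filter.atTop (nhds L) :=
  fin_A hA μ V (fun j => MP2.of (hs j) (hV j)) f hf 0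
    (InEK_of_bot (lcs_two_eq_bot V hc) (f 0) (hf 0))

/-- the commuting case with linear polynomials satisfies the hypothesis of `fin3` -/
theorem fin3_comm [MeasurableSpace X] (μ : Measure X) {d : ℕ} (T : Fin d → Equiv.Perm X)
    (hc : ∀ i i', Commute (T i) (T i')) (P : Fin d → Fin 2 → Polynomial ℤ)
    (hP0 : ∀ i j, (P i j).eval 0 = 0) (hP1 : ∀ i j, (P i j).natDegree ≤ 1)
    (f : Fin 2 → X → ℂ) (hf : ∀ j, MemLp (f j) ∞ μ) :
    ∃ V : Fin 2 → Equiv.Perm X,
      (∀ j, ∀ n : ℤ, (List.ofFn fun i : Fin d => T i ^ (P i j).eval n).prod = V j ^ n) ∧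
      ∃ j, InEK μ (Subgroup.closure (Set.range V)) 2 (f j) := by
  have heval : ∀ i j (n : ℤ), (P i j).eval n = (P i j).coeff 1 * n := by
    intro i j n
    have h := Polynomial.eq_X_add_C_of_natDegree_le_one (hP1 i j)
    have h0 : (P i j).coeff 0 = 0 := by
      rw [Polynomial.coeff_zero_eq_eval_zero]; exact hP0 i j
    conv_lhs => rw [h]
    simp [h0]
  refine ⟨fun j => (List.ofFn fun i => T i ^ (P i j).coeff 1).prod, fun j n => ?_, 0,
    InEK_of_bot (lcs_two_eq_bot _ fun j => ?_) (f 0) (hf 0)⟩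
  · simp only [heval]
    exact ofFn_zpow d T hc (fun i => (P i j).coeff 1) n
  · have h1 := ofFn_commute hc (fun i => (P i 0).coeff 1) (fun i => (P i 1).coeff 1)
    rw [commutatorElement_eq_one_iff_commute.2 h1]
    exact Commute.one_left _

end NP2
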