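import Pool.Agent.NP2.Fin3

/-!
# NP2 / Fin4 : the final statement in one piece, conditional on Theorem A

`G` nilpotent, linear sequences, two functions; for each `j` the sequence `g_j` is `V ^ n` or
`f_j` belongs to the closed span for `k = 1`; one of the functions belongs to the closed span for
`k = 2` (automatic if `G` has step at most two).
-/

set_option autoImplicit false

open Finset MeasureTheory Filter Topology
open scoped ENNReal commutatorElement

namespace NP2
open Pool.PWZ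

variable {X : Type}

lemma EigK.mono [MeasurableSpace X] {μ : Measure X} {G H : Subgroup (Equiv.Perm X)} {k l : ℕ}
    (hHG : H ≤ G) (hkl : H.lowerCentralSeries l ≤ G.lowerCentralSeries k) {h : X → ℂ}
    (h1 : EigK μ G k h) : EigK μ H l h := by
  obtain ⟨hm, χ, e1, e2, e3⟩ := h1
  exact ⟨hm, χ, fun ν hν => e1 ν (hkl hν), fun γ hγ ν hν => e2 γ (hHG hγ) ν (hkl hν),
    fun ν hν => e3 ν (hkl hν)⟩

lemma InEK.mono [MeasurableSpace X] {μ : Measure X} {G H : Subgroup (Equiv.Perm X)} {k l : ℕ}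
    (hHG : H ≤ G) (hkl : H.lowerCentralSeries l ≤ G.lowerCentralSeries k) {f : X → ℂ}
    (h1 : InEK μ G k f) : InEK μ H l f := by
  intro ε hε
  obtain ⟨n, h, e1, e2⟩ := h1 ε hε
  exact ⟨n, h, fun i => (e1 i).mono hHG hkl, e2⟩

lemma lcs_mono {G H : Subgroup (Equiv.Perm X)} (hHG : H ≤ G) :
    H.lowerCentralSeries 2 ≤ G.lowerCentralSeries 2 :=
  Subgroup.commutator_mono (Subgroup.commutator_mono hHG hHG) hHG

/-- **the final theorem in one piece**, conditional on Theorem A -/
theorem fin4 (hA : ThmA) (X : Type) [MeasurableSpace X] (μ : Measure X) [IsProbabilityMeasure μ]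
    (d : ℕ) (T : Fin d → Equiv.Perm X)
    (hs : ∀ i, Measurable ⇑(T i).symm)
    (hT : ∀ i, MeasurePreserving (⇑(T i)) μ μ)
    (hnil : Group.IsNilpotent (Subgroup.closure (Set.range T)))
    (P : Fin d → Fin 2 → Polynomial ℤ) (hP0 : ∀ i j, (P i j).eval 0 = 0)
    (hP1 : ∀ i j, (P i j).natDegree ≤ 1)
    (f : Fin 2 → X → ℂ) (hf : ∀ j, MemLp (f j) ∞ μ)
    (h1 : ∀ j, InEK μ (Subgroup.closure (Set.range T)) 1 (f j) ∨
      ∃ V : Equiv.Perm X, ∀ n : ℤ,
        (List.ofFn fun l : Fin d => T l ^ (P l j).eval n).prod = V ^ n)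
    (h2 : ∃ j, InEK μ (Subgroup.closure (Set.range T)) 2 (f j)) :
    ∀ᵐ x ∂μ, ∃ L : ℂ, Filter.Tendsto
      (fun N : ℕ => ((2 * N + 1 : ℕ) : ℂ)⁻¹ *
        ∑ n ∈ Finset.Icc (-(N : ℤ)) (N : ℤ),
          ∏ j : Fin 2, f j ((List.ofFn fun i : Fin d => T i ^ (P i j).eval n).prod x))
      Filter.atTop (nhds L) := by
  refine fin3 hA X μ d T hs hT P hP0 f hf ?_
  by_cases hE : ∃ j, InEK μ (Subgroup.closure (Set.range T)) 1 (f j)
  · obtain ⟨j, hj⟩ := hE
    exact Or.inr ⟨hnil, hP1, j, hj, fun i _ => h1 i⟩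
  · left
    have h3 : ∀ j, ∃ V : Equiv.Perm X, ∀ n : ℤ,
        (List.ofFn fun l : Fin d => T l ^ (P l j).eval n).prod = V ^ n := by
      intro j
      rcases h1 j with h4 | h4
      · exact (hE ⟨j, h4⟩).elim
      · exact h4
    choose V hV using h3
    obtain ⟨j, hj⟩ := h2
    have hle : Subgroup.closure (Set.range V) ≤ Subgroup.closure (Set.range T) := by
      rw [Subgroup.closure_le]
      rintro _ ⟨i, rfl⟩
      have h5 := hV i 1
      rw [zpow_one] at h5
      rw [← h5]
      refine Subgroup.list_prod_mem _ fun g hg => ?_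
      rw [List.mem_ofFn] at hg
      obtain ⟨l, rfl⟩ := hg
      have hTl : T l ∈ Subgroup.closure (Set.range T) := Subgroup.subset_closure ⟨l, rfl⟩
      exact Subgroup.zpow_mem _ hTl _
    exact ⟨V, hV, j, hj.mono hle (lcs_mono hle)⟩

/-- the hypotheses hold in the commuting case -/
theorem fin4_comm [MeasurableSpace X] (μ : Measure X) {d : ℕ} (T : Fin d → Equiv.Perm X)
    (hc : ∀ i i', Commute (T i) (T i')) (k : ℕ) (hk : 1 ≤ k) (f : X → ℂ) (hf : MemLp f ∞ μ) :
    InEK μ (Subgroup.closure (Set.range T)) k f := by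
  refine InEK_of_bot ?_ f hf
  have h1 : (Subgroup.closure (Set.range T)).lowerCentralSeries 1 = ⊥ := by
    show ⁅Subgroup.closure (Set.range T), Subgroup.closure (Set.range T)⁆ = ⊥
    rw [Subgroup.commutator_eq_bot_iff_le_centralizer, Subgroup.closure_le]
    rintro _ ⟨i, rfl⟩
    rw [Subgroup.centralizer_closure, SetLike.mem_coe, Subgroup.mem_centralizer_iff]
    rintro _ ⟨j, rfl⟩
    exact (hc j i).eq
  induction k, hk using Nat.le_induction with
  | base => exact h1
  | succ k _ ih =>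
    show ⁅(Subgroup.closure (Set.range T)).lowerCentralSeries k, Subgroup.closure (Set.range T)⁆ = ⊥
    rw [ih]
    exact Subgroup.commutator_bot_left _

end NP2
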