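import Pool.Agent.NP2.Far

/-!
# NP2 / Flux : the flux lemma

`Q = 2^a`, `j0 = 8a`, `κ = 2^(-19a)`, `n = 22a`:  `(3/4)^8 ≤ 1/8`, so
`gn Q j0 ≤ 2/sqrt Q`; `Q^2 4^j0 κ = 1/Q`; `Q^2/(κ 2^n) = 1/Q`; `16 Q^4 16^(j0+1) = 2^(36a+8) ≤ 2^k1`.
`q k b v = V k b v - V (k+1) (b/2) v`, `acc K q = V` (`acc_incr`), `‖q‖ ≤ 2 BV mS`.
`FT p V = FT (rs wT (range 2^n) p) V + FT (rest) V`; rest: `‖p‖ ≤ Bp mT` and `wT k ≥ 2^n` implies
`wT k1 ≥ 2^n` (`mono`), `|ro V| ≤ (1+Q^2) BV`, `∑_k mT ≤ R` on every path, `count` with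
`totr ≤ R`: at most `(1+Q^2) Bp BV R 10^4 R/(κ 2^n)`.
-/

namespace NP2
open Finset

noncomputable section

variable {M : ℕ} [NeZero M] {E : Type*} [NormedAddCommGroup E] [InnerProductSpace ℝ E]

private theorem fx_div_lt {K k c : ℕ} (hk : k ≤ K) (hc : c < 2 ^ K) :
    c / 2 ^ k < 2 ^ (K - k) := by
  rw [Nat.div_lt_iff_lt_mul (by positivity), ← pow_add, Nat.sub_add_cancel hk]
  exact hc

/-- the total mass is at most the bound of the accumulation -/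
private theorem fx_totr (K k1 : ℕ) (hk1 : k1 ≤ K) (m : ℕ → ℕ → A M → ℝ) (R : ℝ)
    (h : ∀ k, k1 ≤ k → k ≤ K → ∀ b < 2 ^ (K - k), ∀ u, acc K m k b u ≤ R) :
    totr K k1 m ≤ R := by
  unfold totr
  rw [← ex_sum]
  calc ex K (fun c (u : A M) => ∑ i ∈ Icc k1 K, m i (c / 2 ^ i) u)
      ≤ ex K (fun _ (_ : A M) => R) := by
        apply ex_mono
        intro c hc u
        rw [← acc_path]
        exact h k1 le_rfl hk1 _ (fx_div_lt hk1 hc) u
    _ = R := ex_const K R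

private theorem fx_totr_nonneg (K k1 : ℕ) (m : ℕ → ℕ → A M → ℝ) (h : ∀ k b u, 0 ≤ m k b u) :
    0 ≤ totr K k1 m := by
  unfold totr
  exact sum_nonneg fun k _ => ex_nonneg K _ fun c u => h _ _ _

/-- absolute value of an average -/
private theorem fx_ex_abs (K : ℕ) (f g : ℕ → A M → ℝ) (h : ∀ c < 2 ^ K, ∀ u, |f c u| ≤ g c u) :
    |ex K f| ≤ ex K g := by
  rw [abs_le]
  constructor
  · have h1 : ex K (fun c u => (-1 : ℝ) * g c u) ≤ ex K f := by
      apply ex_mono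
      intro c hc u
      have := (abs_le.1 (h c hc u)).1
      linarith
    rw [ex_smul] at h1
    linarith
  · apply ex_mono
    intro c hc u
    exact (abs_le.1 (h c hc u)).2

private theorem fx_gn (a : ℕ) : gn (2 ^ a) (8 * a) ≤ 2 / Real.sqrt (2 ^ a) := by
  unfold gn
  have h2 : (0 : ℝ) < 2 ^ a := by positivity
  have hs : Real.sqrt (2 ^ a) ≤ 2 ^ a := by
    rw [Real.sqrt_le_left (by positivity)]
    have : (1 : ℝ) ≤ 2 ^ a := one_le_pow₀ (by norm_num)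
    nlinarith
  have hs0 : 0 < Real.sqrt ((2 : ℝ) ^ a) := Real.sqrt_pos.2 h2
  have h3 : ((3 : ℝ) / 4) ^ (8 * a) ≤ (1 / 8) ^ a := by
    rw [pow_mul]
    exact pow_le_pow_left₀ (by positivity) (by norm_num) a
  have h4 : ((2 : ℝ) ^ a) ^ 2 * (1 / 8) ^ a = 1 / 2 ^ a := by
    rw [← pow_mul, mul_comm a 2, pow_mul, ← mul_pow, ← one_div_pow]
    norm_num
  have h5 : ((2 : ℝ) ^ a) ^ 2 * (3 / 4) ^ (8 * a) ≤ 1 / Real.sqrt (2 ^ a) := by
    calc ((2 : ℝ) ^ a) ^ 2 * (3 / 4) ^ (8 * a) ≤ ((2 : ℝ) ^ a) ^ 2 * (1 / 8) ^ a := by gcongr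
      _ = 1 / 2 ^ a := h4
      _ ≤ 1 / Real.sqrt (2 ^ a) := by
          exact one_div_le_one_div_of_le hs0 hs
  push_cast
  calc 1 / Real.sqrt (2 ^ a) + ((2 : ℝ) ^ a) ^ 2 * (3 / 4) ^ (8 * a)
      ≤ 1 / Real.sqrt (2 ^ a) + 1 / Real.sqrt (2 ^ a) := by linarith
    _ = 2 / Real.sqrt (2 ^ a) := by ring

private theorem fx_gn_nonneg (Q j0 : ℕ) : 0 ≤ gn Q j0 := by
  unfold gn
  positivity

theorem flux_main (K k1 a : ℕ) (ha : 1 ≤ a) (hak : 50 * a ≤ k1) (hk1 : k1 ≤ K)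
    (hM : 4 ^ K ≤ M) (mT mS : ℕ → ℕ → A M → ℝ) (p V : ℕ → ℕ → A M → E) (Bp BV R : ℝ)
    (hR : 1 ≤ R) (hBp : 0 ≤ Bp) (hBV : 0 ≤ BV)
    (mT0 : ∀ k b u, 0 ≤ mT k b u) (mS0 : ∀ k b u, 0 ≤ mS k b u)
    (mT1 : ∀ k b u, mT k b u ≤ 1) (mS1 : ∀ k b u, mS k b u ≤ 1)
    (accT : ∀ k, k1 ≤ k → k ≤ K → ∀ b < 2 ^ (K - k), ∀ u, acc K mT k b u ≤ R)
    (accS : ∀ k, k1 ≤ k → k ≤ K → ∀ b < 2 ^ (K - k), ∀ u, acc K mS k b u ≤ R)
    (hp : ∀ k, k1 ≤ k → k ≤ K → ∀ b < 2 ^ (K - k), ∀ u, ‖p k b u‖ ≤ Bp * mT k b u)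
    (hV : ∀ k, k1 ≤ k → k ≤ K → ∀ b < 2 ^ (K - k), ∀ u, ‖V k b u‖ ≤ BV)
    (hVt : ∀ b u, V (K + 1) b u = 0)
    (hq : ∀ k, k1 ≤ k → k ≤ K → ∀ b < 2 ^ (K - k), ∀ u,
      ‖V k b u - V (k + 1) (b / 2) u‖ ≤ 2 * BV * mS k b u) :
    |FT K k1 (2 ^ a) (8 * a) p V| ≤
      10 ^ 20 * Bp * BV * R ^ 2 * (a + 1) / Real.sqrt (2 ^ a) := by
  classical
  set q : ℕ → ℕ → A M → E := fun k b u => V k b u - V (k + 1) (b / 2) u with hqdef
  obtain ⟨wT, wS, hw⟩ := windows_exist (M := M) K k1 hk1 hM ((1 / 2 : ℝ) ^ (19 * a)) (by positivity)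
    mT mS mT0 mS0
  have hκ : (0 : ℝ) < (1 / 2 : ℝ) ^ (19 * a) := by positivity
  -- the hypotheses of `far_main`
  have hF : FluxHyp M K k1 (2 ^ a) (8 * a) E mT mS p q Bp (2 * BV) R :=
    { k1K := hk1
      Qpos := Nat.one_le_two_pow
      j0pos := by omega
      big := by
        have e : 16 * (2 ^ a) ^ 4 * 16 ^ (8 * a + 1) = 2 ^ (36 * a + 8) := by
          rw [show (16 : ℕ) = 2 ^ 4 by norm_num, ← pow_mul, ← pow_mul, ← pow_add, ← pow_add]
          congr 1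
          ring
        rw [e]
        exact Nat.pow_le_pow_right (by norm_num) (by omega)
      Rpos := hR
      Bp0 := hBp
      Bq0 := by positivity
      mT0 := mT0
      mS0 := mS0
      mT1 := mT1
      mS1 := mS1
      accT := accT
      accS := accS
      hp := hp
      hq := hq }
  have hfar := far_main hF hw hκ (22 * a)
  have htT := fx_totr K k1 hk1 mT R accT
  have htS := fx_totr K k1 hk1 mS R accS
  have htT0 := fx_totr_nonneg K k1 mT mT0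
  have htS0 := fx_totr_nonneg K k1 mS mS0
  -- the rest
  set rest : ℕ → ℕ → A M → E := fun k b u => if wT k b u ∈ range (2 ^ (22 * a)) then 0 else p k b u
    with hrest
  have hsplit : FT K k1 (2 ^ a) (8 * a) p V =
      FT K k1 (2 ^ a) (8 * a) (rs wT (range (2 ^ (22 * a))) p) (acc K q)
        + FT K k1 (2 ^ a) (8 * a) rest V := by
    unfold FT
    rw [← sum_add_distrib]
    apply sum_congr rfl
    intro k hk
    have hkK : k ≤ K := (mem_Icc.1 hk).2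
    have e1 : acc K q k = V k := by
      funext b u
      exact acc_incr K V hVt k hkK b u
    rw [e1, ← tp_add_left]
    congr 1
    funext b u
    simp only [rs, hrest]
    split_ifs <;> simp
  have hs0 : 0 < Real.sqrt ((2 : ℝ) ^ a) := Real.sqrt_pos.2 (by positivity)
  have hs1 : Real.sqrt ((2 : ℝ) ^ a) ≤ 2 ^ a := by
    rw [Real.sqrt_le_left (by positivity)]
    have : (1 : ℝ) ≤ 2 ^ a := one_le_pow₀ (by norm_num)
    nlinarith
  have hinv : 1 / (2 : ℝ) ^ a ≤ 1 / Real.sqrt (2 ^ a) := one_div_le_one_div_of_le hs0 hs1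
  have ha1 : (1 : ℝ) ≤ a := by exact_mod_cast ha
  -- first part
  have hA : |FT K k1 (2 ^ a) (8 * a) (rs wT (range (2 ^ (22 * a))) p) (acc K q)| ≤
      Bp * BV * R ^ 2 * (5 * 10 ^ 19 * (a + 1) / Real.sqrt (2 ^ a)) := by
    refine hfar.trans ?_
    have hg := fx_gn a
    have hg0 := fx_gn_nonneg (2 ^ a) (8 * a)
    have hk4 : ((2 : ℝ) ^ a) ^ 2 * (4 ^ (8 * a) * (1 / 2 : ℝ) ^ (19 * a)) = 1 / 2 ^ a := by
      rw [← pow_mul, mul_comm a 2, pow_mul, pow_mul, pow_mul, ← mul_pow, ← mul_pow,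
        ← one_div_pow]
      norm_num
    have hsq : Real.sqrt (totr K k1 mT) * Real.sqrt (totr K k1 mS) ≤ R := by
      calc Real.sqrt (totr K k1 mT) * Real.sqrt (totr K k1 mS)
          ≤ Real.sqrt R * Real.sqrt R := by gcongr
        _ = R := Real.mul_self_sqrt (by linarith)
    have hsq0 : 0 ≤ Real.sqrt (totr K k1 mT) * Real.sqrt (totr K k1 mS) := by positivity
    have hR2 : R ≤ R ^ 2 := by nlinarith
    have h1 : (2000000 * ((22 * a : ℕ) : ℝ) + 30000000) * gn (2 ^ a) (8 * a) * R *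
          (Real.sqrt (totr K k1 mT) * Real.sqrt (totr K k1 mS)) ≤
        44000000 * (a + 1) * (2 / Real.sqrt (2 ^ a)) * R * R := by
      have hc : (2000000 * ((22 * a : ℕ) : ℝ) + 30000000) ≤ 44000000 * (a + 1) := by
        push_cast
        linarith
      gcongr
    have h2 : 12 * (((2 ^ a : ℕ) : ℝ)) ^ 2 *
          (200 * Lam ^ 3 * 4 ^ (8 * a) * (1 / 2 : ℝ) ^ (19 * a)) *
          (totr K k1 mT + totr K k1 mS) ≤
        10808639105689190400 * (1 / Real.sqrt (2 ^ a)) * R := by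
      have e : 12 * (((2 ^ a : ℕ) : ℝ)) ^ 2 *
          (200 * Lam ^ 3 * 4 ^ (8 * a) * (1 / 2 : ℝ) ^ (19 * a)) =
          5404319552844595200 * (1 / 2 ^ a) := by
        push_cast
        rw [← hk4]
        unfold Lam
        ring
      rw [e]
      calc 5404319552844595200 * (1 / (2 : ℝ) ^ a) * (totr K k1 mT + totr K k1 mS)
          ≤ 5404319552844595200 * (1 / Real.sqrt (2 ^ a)) * (R + R) := by gcongr
        _ = 10808639105689190400 * (1 / Real.sqrt (2 ^ a)) * R := by ring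
    have h3 : 44000000 * (a + 1) * (2 / Real.sqrt (2 ^ a)) * R * R
        + 10808639105689190400 * (1 / Real.sqrt (2 ^ a)) * R ≤
        R ^ 2 * (25 * 10 ^ 18 * (a + 1) / Real.sqrt (2 ^ a)) := by
      set s := 1 / Real.sqrt ((2 : ℝ) ^ a) with hs
      have hspos : 0 ≤ s := by positivity
      have e1 : 44000000 * ((a : ℝ) + 1) * (2 / Real.sqrt (2 ^ a)) * R * R =
          88000000 * (a + 1) * s * R ^ 2 := by rw [hs]; ring
      have e2 : R ^ 2 * (25 * 10 ^ 18 * ((a : ℝ) + 1) / Real.sqrt (2 ^ a)) =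
          25 * 10 ^ 18 * (a + 1) * s * R ^ 2 := by rw [hs]; ring
      rw [e1, e2]
      have e3 : 10808639105689190400 * s * R ≤ 5404319552844595200 * (a + 1) * s * R ^ 2 := by
        have : s * R ≤ s * R ^ 2 := by gcongr
        have h5 : 2 * (s * R ^ 2) ≤ (a + 1) * (s * R ^ 2) := by
          apply mul_le_mul_of_nonneg_right (by linarith) (by positivity)
        nlinarith
      have e4 : 0 ≤ (a + 1) * s * R ^ 2 := by positivity
      nlinarith
    calc Bp * (2 * BV) * ((2000000 * ((22 * a : ℕ) : ℝ) + 30000000) * gn (2 ^ a) (8 * a) * R *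
          (Real.sqrt (totr K k1 mT) * Real.sqrt (totr K k1 mS))
        + 12 * (((2 ^ a : ℕ) : ℝ)) ^ 2 *
          (200 * Lam ^ 3 * 4 ^ (8 * a) * (1 / 2 : ℝ) ^ (19 * a)) *
          (totr K k1 mT + totr K k1 mS))
        ≤ Bp * (2 * BV) * (R ^ 2 * (25 * 10 ^ 18 * (a + 1) / Real.sqrt (2 ^ a))) := by
          gcongr
          linarith
      _ = Bp * BV * R ^ 2 * (5 * 10 ^ 19 * (a + 1) / Real.sqrt (2 ^ a)) := by ring
  -- second part
  have hB : |FT K k1 (2 ^ a) (8 * a) rest V| ≤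
      Bp * BV * R ^ 2 * (20000 * (1 / Real.sqrt (2 ^ a))) := by
    set ind : ℕ → A M → ℝ := fun c u => if 2 ^ (22 * a) ≤ wT k1 (c / 2 ^ k1) u then (1 : ℝ) else 0
      with hind
    have hind0 : ∀ c u, 0 ≤ ind c u := by
      intro c u
      simp only [hind]
      split_ifs <;> norm_num
    have hro : ∀ k, k1 ≤ k → k ≤ K → ∀ b < 2 ^ (K - k), ∀ v : A M,
        ‖ro (2 ^ a) (k - 8 * a) (V k) b v‖ ≤ (1 + ((2 : ℝ) ^ a) ^ 2) * BV := by
      intro k hk hkK b hb v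
      unfold ro
      have h1 := hV k hk hkK b hb v
      have h2 := norm_sm_le (2 ^ a) (k - 8 * a) (V k b) BV (fun v => hV k hk hkK b hb v) v
      push_cast at h2
      calc ‖V k b v - sm (2 ^ a) (k - 8 * a) (V k b) v‖
          ≤ ‖V k b v‖ + ‖sm (2 ^ a) (k - 8 * a) (V k b) v‖ := norm_sub_le _ _
        _ ≤ BV + ((2 : ℝ) ^ a) ^ 2 * BV := add_le_add h1 h2
        _ = (1 + ((2 : ℝ) ^ a) ^ 2) * BV := by ring
    have hterm : ∀ k ∈ Icc k1 K, |tp K k (rest k) (ro (2 ^ a) (k - 8 * a) (V k))| ≤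
        ex K (fun c u => (Bp * ((1 + ((2 : ℝ) ^ a) ^ 2) * BV)) * (mT k (c / 2 ^ k) u * ind c u)) := by
      intro k hk
      obtain ⟨hk1k, hkK⟩ := mem_Icc.1 hk
      unfold tp
      apply fx_ex_abs
      intro c hc u
      have hb := fx_div_lt hkK hc
      refine (abs_real_inner_le_norm _ _).trans ?_
      have h1 : ‖rest k (c / 2 ^ k) u‖ ≤ Bp * (mT k (c / 2 ^ k) u * ind c u) := by
        simp only [hrest]
        split_ifs with hm
        · rw [norm_zero]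
          exact mul_nonneg hBp (mul_nonneg (mT0 _ _ _) (hind0 _ _))
        · have h2 : ind c u = 1 := by
            simp only [hind]
            rw [if_pos]
            rw [mem_range, not_lt] at hm
            exact hm.trans (hw.mono k1 k hk1k hkK c u)
          rw [h2, mul_one]
          exact hp k hk1k hkK _ hb u
      have h2 := hro k hk1k hkK _ hb (u + th M c)
      calc ‖rest k (c / 2 ^ k) u‖ * ‖ro (2 ^ a) (k - 8 * a) (V k) (c / 2 ^ k) (u + th M c)‖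
          ≤ (Bp * (mT k (c / 2 ^ k) u * ind c u)) * ((1 + ((2 : ℝ) ^ a) ^ 2) * BV) := by
            have h3 : 0 ≤ Bp * (mT k (c / 2 ^ k) u * ind c u) :=
              mul_nonneg hBp (mul_nonneg (mT0 _ _ _) (hind0 _ _))
            gcongr
        _ = (Bp * ((1 + ((2 : ℝ) ^ a) ^ 2) * BV)) * (mT k (c / 2 ^ k) u * ind c u) := by ring
    have hcount := hw.count (2 ^ (22 * a)) Nat.one_le_two_pow
    have hsum : ∑ k ∈ Icc k1 K,
        ex K (fun c u => (Bp * ((1 + ((2 : ℝ) ^ a) ^ 2) * BV)) * (mT k (c / 2 ^ k) u * ind c u)) ≤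
        (Bp * ((1 + ((2 : ℝ) ^ a) ^ 2) * BV)) * (R * ex K ind) := by
      calc ∑ k ∈ Icc k1 K,
          ex K (fun c u => (Bp * ((1 + ((2 : ℝ) ^ a) ^ 2) * BV)) *
            (mT k (c / 2 ^ k) u * ind c u))
          = (Bp * ((1 + ((2 : ℝ) ^ a) ^ 2) * BV)) *
            ex K (fun c u => ∑ k ∈ Icc k1 K, mT k (c / 2 ^ k) u * ind c u) := by
            rw [ex_sum, mul_sum]
            apply sum_congr rfl
            intro k _
            rw [ex_smul]
        _ ≤ (Bp * ((1 + ((2 : ℝ) ^ a) ^ 2) * BV)) * (R * ex K ind) := by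
            have h1 : ex K (fun c u => ∑ k ∈ Icc k1 K, mT k (c / 2 ^ k) u * ind c u) ≤
                ex K (fun c u => R * ind c u) := by
              apply ex_mono
              intro c hc u
              rw [← sum_mul, ← acc_path]
              have := accT k1 le_rfl hk1 _ (fx_div_lt hk1 hc) u
              exact mul_le_mul_of_nonneg_right this (hind0 c u)
            rw [ex_smul] at h1
            have h2 : 0 ≤ Bp * ((1 + ((2 : ℝ) ^ a) ^ 2) * BV) := by positivity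
            exact mul_le_mul_of_nonneg_left h1 h2
    have hex : ex K ind ≤ 10000 * R / ((2 : ℝ) ^ a) ^ 3 := by
      refine hcount.trans ?_
      have e : (1 / 2 : ℝ) ^ (19 * a) * ((2 ^ (22 * a) : ℕ) : ℝ) = ((2 : ℝ) ^ a) ^ 3 := by
        rw [Nat.cast_pow, Nat.cast_ofNat, pow_mul, pow_mul, ← pow_mul 2 a 3, mul_comm a 3,
          pow_mul, ← mul_pow]
        norm_num
      rw [e]
      have h1 : 5000 * (totr K k1 mT + totr K k1 mS) ≤ 10000 * R := by linarith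
      exact div_le_div_of_nonneg_right h1 (by positivity)
    have hfin : (1 + ((2 : ℝ) ^ a) ^ 2) * (10000 * R / ((2 : ℝ) ^ a) ^ 3) ≤
        20000 * R * (1 / Real.sqrt (2 ^ a)) := by
      have h1 : (1 : ℝ) ≤ 2 ^ a := one_le_pow₀ (by norm_num)
      have h2 : (1 + ((2 : ℝ) ^ a) ^ 2) ≤ 2 * ((2 : ℝ) ^ a) ^ 2 := by nlinarith
      calc (1 + ((2 : ℝ) ^ a) ^ 2) * (10000 * R / ((2 : ℝ) ^ a) ^ 3)
          ≤ (2 * ((2 : ℝ) ^ a) ^ 2) * (10000 * R / ((2 : ℝ) ^ a) ^ 3) := by gcongr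
        _ = 20000 * R * (1 / 2 ^ a) := by
            field_simp
            ring
        _ ≤ 20000 * R * (1 / Real.sqrt (2 ^ a)) := by gcongr
    calc |FT K k1 (2 ^ a) (8 * a) rest V|
        ≤ ∑ k ∈ Icc k1 K, |tp K k (rest k) (ro (2 ^ a) (k - 8 * a) (V k))| := by
          unfold FT
          exact abs_sum_le_sum_abs _ _
      _ ≤ ∑ k ∈ Icc k1 K, ex K (fun c u =>
            (Bp * ((1 + ((2 : ℝ) ^ a) ^ 2) * BV)) * (mT k (c / 2 ^ k) u * ind c u)) :=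
          sum_le_sum hterm
      _ ≤ (Bp * ((1 + ((2 : ℝ) ^ a) ^ 2) * BV)) * (R * ex K ind) := hsum
      _ ≤ (Bp * ((1 + ((2 : ℝ) ^ a) ^ 2) * BV)) * (R * (10000 * R / ((2 : ℝ) ^ a) ^ 3)) := by
          gcongr
      _ = Bp * BV * R * ((1 + ((2 : ℝ) ^ a) ^ 2) * (10000 * R / ((2 : ℝ) ^ a) ^ 3)) := by ring
      _ ≤ Bp * BV * R * (20000 * R * (1 / Real.sqrt (2 ^ a))) := by gcongr
      _ = Bp * BV * R ^ 2 * (20000 * (1 / Real.sqrt (2 ^ a))) := by ring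
  rw [hsplit]
  refine (abs_add_le _ _).trans ?_
  have hC : 0 ≤ Bp * BV * R ^ 2 * (1 / Real.sqrt (2 ^ a)) := by positivity
  calc |FT K k1 (2 ^ a) (8 * a) (rs wT (range (2 ^ (22 * a))) p) (acc K q)|
        + |FT K k1 (2 ^ a) (8 * a) rest V|
      ≤ Bp * BV * R ^ 2 * (5 * 10 ^ 19 * (a + 1) / Real.sqrt (2 ^ a))
        + Bp * BV * R ^ 2 * (20000 * (1 / Real.sqrt (2 ^ a))) := add_le_add hA hB
    _ = (Bp * BV * R ^ 2 * (1 / Real.sqrt (2 ^ a))) * (5 * 10 ^ 19 * (a + 1) + 20000) := by ring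
    _ ≤ (Bp * BV * R ^ 2 * (1 / Real.sqrt (2 ^ a))) * (10 ^ 20 * (a + 1)) := by
        apply mul_le_mul_of_nonneg_left _ hC
        nlinarith
    _ = 10 ^ 20 * Bp * BV * R ^ 2 * (a + 1) / Real.sqrt (2 ^ a) := by ring

end

end NP2
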