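import Pool.Agent.NP2.Dic

/-!
# NP2 / Frz : frozen coefficients and counting of the moves

For an object with position function `y` and function `f`, `|f| ≤ 1`.  `fzn n b` is the frozen
coefficient vector at level `K - n`: at the top it is `xi`; one level below it stays if the
excess cost `dd` of the old vector is `< ε^2`, otherwise it is replaced by `xi`.

* `fz_close` : the excess cost of the frozen vector is always `≤ ε^2`.
* `fz_norm` : the frozen vector is `xi` at some ancestor block (`rid_sq_le`).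
* `fz_count` : `C_k(c) = cst at (k, c/2^k) of fz k`.  Average over `c`: `cst_children` (the frozen
  vector at `(k+1,b)` is supported on the elements active at `(k+1,b)`) gives
  `E cst_k (fz (k+1)) = E C_(k+1)`; at a move `C_k = mcs ≤ cst_k (fz (k+1)) - ε^2` (`cst_split`), so
  `ε^2 E #moves ≤ E C_K ≤ 1`.
-/

namespace NP2
open Finset

noncomputable section

variable {M : ℕ}

/-- excess cost of the coefficient vector `ξ` over the minimiser, at the block `(k,b)` -/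
def dd (τ : ℝ) (D : Dict M) (μ : ℝ) (k b : ℕ) (y : ℕ → A M) (f : ℕ → ℝ) (ξ : Fin D.n → ℝ) : ℝ :=
  ip (blk k b) (comb (col τ D k b y) (fun i => ξ i - xi τ D μ k b y f i))
      (comb (col τ D k b y) (fun i => ξ i - xi τ D μ k b y f i))
    + μ * ∑ i, (ξ i - xi τ D μ k b y f i) ^ 2

open Classical in
/-- frozen coefficients at level `K - n` -/
def fzn (τ : ℝ) (D : Dict M) (μ ε : ℝ) (K : ℕ) (y : ℕ → A M) (f : ℕ → ℝ) :
    ℕ → ℕ → (Fin D.n → ℝ)
  | 0, b => xi τ D μ K b y f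
  | n + 1, b =>
    if ε ^ 2 ≤ dd τ D μ (K - (n + 1)) b y f (fzn τ D μ ε K y f n (b / 2)) then
      xi τ D μ (K - (n + 1)) b y f
    else fzn τ D μ ε K y f n (b / 2)

/-- frozen coefficients at level `k` -/
def fz (τ : ℝ) (D : Dict M) (μ ε : ℝ) (K : ℕ) (y : ℕ → A M) (f : ℕ → ℝ) (k b : ℕ) :
    Fin D.n → ℝ := fzn τ D μ ε K y f (K - k) b

open Classical in
/-- move indicator at a level `k < K` -/
def mvf (τ : ℝ) (D : Dict M) (μ ε : ℝ) (K : ℕ) (y : ℕ → A M) (f : ℕ → ℝ) (k b : ℕ) : ℝ :=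
  if k < K ∧ ε ^ 2 ≤ dd τ D μ k b y f (fz τ D μ ε K y f (k + 1) (b / 2)) then 1 else 0

theorem fz_top (τ : ℝ) (D : Dict M) (μ ε : ℝ) (K : ℕ) (y : ℕ → A M) (f : ℕ → ℝ) (b : ℕ) :
    fz τ D μ ε K y f K b = xi τ D μ K b y f := by
  unfold fz
  rw [Nat.sub_self]
  rfl

open Classical in
private theorem fz_succ (τ : ℝ) (D : Dict M) (μ ε : ℝ) (K : ℕ) (y : ℕ → A M) (f : ℕ → ℝ)
    (k b : ℕ) (hk : k < K) : fz τ D μ ε K y f k b =
      if ε ^ 2 ≤ dd τ D μ k b y f (fz τ D μ ε K y f (k + 1) (b / 2)) then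
        xi τ D μ k b y f
      else fz τ D μ ε K y f (k + 1) (b / 2) := by
  obtain ⟨n, hn⟩ : ∃ n, K - k = n + 1 := ⟨K - k - 1, by omega⟩
  have h1 : K - (k + 1) = n := by omega
  have h2 : K - (n + 1) = k := by omega
  unfold fz
  rw [hn, h1, fzn, h2]

private theorem fz_move (τ : ℝ) (D : Dict M) (μ ε : ℝ) (K : ℕ) (y : ℕ → A M) (f : ℕ → ℝ)
    (k b : ℕ) (hk : k < K) (h : ε ^ 2 ≤ dd τ D μ k b y f (fz τ D μ ε K y f (k + 1) (b / 2))) :
    fz τ D μ ε K y f k b = xi τ D μ k b y f := by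
  rw [fz_succ τ D μ ε K y f k b hk, if_pos h]

private theorem fz_stay (τ : ℝ) (D : Dict M) (μ ε : ℝ) (K : ℕ) (y : ℕ → A M) (f : ℕ → ℝ)
    (k b : ℕ) (hk : k < K) (h : ¬ ε ^ 2 ≤ dd τ D μ k b y f (fz τ D μ ε K y f (k + 1) (b / 2))) :
    fz τ D μ ε K y f k b = fz τ D μ ε K y f (k + 1) (b / 2) := by
  rw [fz_succ τ D μ ε K y f k b hk, if_neg h]

theorem fz_step (τ : ℝ) (D : Dict M) (μ ε : ℝ) (K : ℕ) (y : ℕ → A M) (f : ℕ → ℝ) (k b : ℕ)
    (hk : k < K) (h : mvf τ D μ ε K y f k b = 0) :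
    fz τ D μ ε K y f k b = fz τ D μ ε K y f (k + 1) (b / 2) := by
  refine fz_stay τ D μ ε K y f k b hk fun h1 => ?_
  unfold mvf at h
  rw [if_pos ⟨hk, h1⟩] at h
  exact one_ne_zero h

/-- downward induction on the level -/
private theorem fz_ind {P : ℕ → ℕ → Prop} (K : ℕ) (h0 : ∀ b, P K b)
    (h1 : ∀ k b, k < K → P (k + 1) (b / 2) → P k b) (k b : ℕ) (hk : k ≤ K) : P k b := by
  obtain ⟨n, rfl⟩ := Nat.exists_eq_add_of_le hk
  induction n generalizing k b with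
  | zero => exact h0 b
  | succ n ih =>
    refine h1 k b (by omega) ?_
    have e : k + (n + 1) = (k + 1) + n := by omega
    refine ih (k + 1) (b / 2) ?_ ?_ (by omega)
    · intro b'
      rw [← e]
      exact h0 b'
    · intro k' b' hk' h
      exact h1 k' b' (by omega) h

theorem fz_supp (τ : ℝ) (D : Dict M) (μ ε : ℝ) (hμ : 0 < μ) (K : ℕ) (y : ℕ → A M) (f : ℕ → ℝ)
    (k b : ℕ) (hk : k ≤ K) (i : Fin D.n) (h : ¬ (D.el i).act k b) :
    fz τ D μ ε K y f k b i = 0 := by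
  revert h
  refine fz_ind (P := fun k b => ¬ (D.el i).act k b → fz τ D μ ε K y f k b i = 0) K ?_ ?_ k b hk
  · intro b h
    rw [fz_top]
    exact xi_supp τ D μ hμ K b y f i h
  · intro k b hk ih h
    by_cases hm : ε ^ 2 ≤ dd τ D μ k b y f (fz τ D μ ε K y f (k + 1) (b / 2))
    · rw [fz_move τ D μ ε K y f k b hk hm]
      exact xi_supp τ D μ hμ k b y f i h
    · rw [fz_stay τ D μ ε K y f k b hk hm]
      exact ih fun h2 => h (act_child _ k b h2)

theorem fz_close (τ : ℝ) (D : Dict M) (μ ε : ℝ) (hμ : 0 < μ) (K : ℕ) (y : ℕ → A M) (f : ℕ → ℝ)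
    (k b : ℕ) (hk : k ≤ K) :
    μ * ∑ i, (fz τ D μ ε K y f k b i - xi τ D μ k b y f i) ^ 2 ≤ ε ^ 2 := by
  have h0 : fz τ D μ ε K y f k b = xi τ D μ k b y f →
      μ * ∑ i, (fz τ D μ ε K y f k b i - xi τ D μ k b y f i) ^ 2 ≤ ε ^ 2 := by
    intro h
    rw [h]
    simp only [sub_self]
    rw [sum_eq_zero fun i _ => by norm_num, mul_zero]
    exact sq_nonneg ε
  rcases Nat.lt_or_ge k K with hlt | hge
  · by_cases hm : ε ^ 2 ≤ dd τ D μ k b y f (fz τ D μ ε K y f (k + 1) (b / 2))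
    · exact h0 (fz_move τ D μ ε K y f k b hlt hm)
    · rw [fz_stay τ D μ ε K y f k b hlt hm]
      have h2 := (not_le.1 hm).le
      unfold dd at h2
      have h3 := ip_self_nonneg (blk k b) (comb (col τ D k b y)
        (fun i => fz τ D μ ε K y f (k + 1) (b / 2) i - xi τ D μ k b y f i))
      linarith
  · have e : k = K := le_antisymm hk hge
    subst e
    exact h0 (fz_top τ D μ ε k y f b)

private theorem xi_norm (τ : ℝ) (D : Dict M) (μ : ℝ) (hμ : 0 < μ) (y : ℕ → A M) (f : ℕ → ℝ)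
    (hf : ∀ t, |f t| ≤ 1) (k b : ℕ) : μ * ∑ i, xi τ D μ k b y f i ^ 2 ≤ 1 :=
  (rid_sq_le (blk k b) (col τ D k b y) μ hμ f).trans (ip_le_one _ f hf)

theorem fz_norm (τ : ℝ) (D : Dict M) (μ ε : ℝ) (hμ : 0 < μ) (K : ℕ) (y : ℕ → A M) (f : ℕ → ℝ)
    (hf : ∀ t, |f t| ≤ 1) (k b : ℕ) (hk : k ≤ K) :
    μ * ∑ i, fz τ D μ ε K y f k b i ^ 2 ≤ 1 := by
  refine fz_ind (P := fun k b => μ * ∑ i, fz τ D μ ε K y f k b i ^ 2 ≤ 1) K ?_ ?_ k b hk
  · intro b
    rw [fz_top]
    exact xi_norm τ D μ hμ y f hf K b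
  · intro k b hk ih
    by_cases hm : ε ^ 2 ≤ dd τ D μ k b y f (fz τ D μ ε K y f (k + 1) (b / 2))
    · rw [fz_move τ D μ ε K y f k b hk hm]
      exact xi_norm τ D μ hμ y f hf k b
    · rw [fz_stay τ D μ ε K y f k b hk hm]
      exact ih

private theorem cst_nonneg (J : Finset ℕ) {ι : Type*} [Fintype ι] (W : ι → ℕ → ℝ) (μ : ℝ)
    (hμ : 0 < μ) (f : ℕ → ℝ) (ξ : ι → ℝ) : 0 ≤ cst J W μ f ξ := by
  unfold cst
  have h1 := ip_self_nonneg J (fun t => f t - comb W ξ t)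
  have h2 : 0 ≤ μ * ∑ x, ξ x ^ 2 := mul_nonneg hμ.le (sum_nonneg fun x _ => sq_nonneg _)
  linarith

private theorem sum_div_range (m : ℕ) (hm : 0 < m) (g : ℕ → ℝ) (a : ℕ) :
    ∑ c ∈ range (a * m), g (c / m) = m * ∑ b ∈ range a, g b := by
  induction a with
  | zero => simp
  | succ a ih =>
    rw [Nat.succ_mul, Finset.sum_range_add, ih, Finset.sum_range_succ, mul_add]
    congr 1
    have h : ∀ x ∈ range m, g ((a * m + x) / m) = g a := by
      intro x hx
      rw [mem_range] at hx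
      have e : (a * m + x) / m = a := by
        rw [Nat.add_comm, Nat.add_mul_div_right _ _ hm, Nat.div_eq_of_lt hx, zero_add]
      rw [e]
    rw [sum_congr rfl h, sum_const, card_range, nsmul_eq_mul]

private theorem sum_pair (g : ℕ → ℝ) (a : ℕ) :
    ∑ b ∈ range (2 * a), g b = ∑ b ∈ range a, (g (2 * b) + g (2 * b + 1)) := by
  induction a with
  | zero => simp
  | succ a ih =>
    rw [show 2 * (a + 1) = 2 * a + 1 + 1 by ring, Finset.sum_range_succ, Finset.sum_range_succ,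
      ih, Finset.sum_range_succ]
    ring

/-- mean over the children, summed over all times -/
private theorem sum_child (K k : ℕ) (hk : k < K) (g h : ℕ → ℝ)
    (hg : ∀ b, (g (2 * b) + g (2 * b + 1)) / 2 = h b) :
    ∑ c ∈ range (2 ^ K), g (c / 2 ^ k) = ∑ c ∈ range (2 ^ K), h (c / 2 ^ (k + 1)) := by
  have e1 : (2 : ℕ) ^ K = 2 ^ (K - k) * 2 ^ k := by
    rw [← pow_add]
    congr 1
    omega
  have e2 : (2 : ℕ) ^ K = 2 ^ (K - (k + 1)) * 2 ^ (k + 1) := by
    rw [← pow_add]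
    congr 1
    omega
  have e3 : (2 : ℕ) ^ (K - k) = 2 * 2 ^ (K - (k + 1)) := by
    rw [← pow_succ']
    congr 1
    omega
  have s1 : ∑ c ∈ range (2 ^ K), g (c / 2 ^ k) =
      ((2 ^ k : ℕ) : ℝ) * ∑ b ∈ range (2 ^ (K - k)), g b := by
    rw [← sum_div_range (2 ^ k) (by positivity) g, ← e1]
  have s2 : ∑ c ∈ range (2 ^ K), h (c / 2 ^ (k + 1)) =
      ((2 ^ (k + 1) : ℕ) : ℝ) * ∑ b ∈ range (2 ^ (K - (k + 1))), h b := by
    rw [← sum_div_range (2 ^ (k + 1)) (by positivity) h, ← e2]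
  rw [s1, s2, e3, sum_pair]
  have s3 : ∑ b ∈ range (2 ^ (K - (k + 1))), (g (2 * b) + g (2 * b + 1)) =
      2 * ∑ b ∈ range (2 ^ (K - (k + 1))), h b := by
    rw [mul_sum]
    refine sum_congr rfl fun b _ => ?_
    rw [← hg b]
    ring
  rw [s3]
  push_cast
  ring

theorem fz_count (τ : ℝ) (D : Dict M) (μ ε : ℝ) (hμ : 0 < μ) (K : ℕ) (y : ℕ → A M) (f : ℕ → ℝ)
    (hf : ∀ t, |f t| ≤ 1) :
    ε ^ 2 * ((∑ c ∈ range (2 ^ K), ∑ k ∈ range K, mvf τ D μ ε K y f k (c / 2 ^ k)) / 2 ^ K) ≤ 1 := by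
  set S : ℕ → ℝ := fun k => ∑ c ∈ range (2 ^ K),
    cst (blk k (c / 2 ^ k)) (col τ D k (c / 2 ^ k) y) μ f (fz τ D μ ε K y f k (c / 2 ^ k)) with hS
  have step : ∀ k, k < K → S k ≤ S (k + 1) -
      ε ^ 2 * ∑ c ∈ range (2 ^ K), mvf τ D μ ε K y f k (c / 2 ^ k) := by
    intro k hk
    have h1 : ∑ c ∈ range (2 ^ K), cst (blk k (c / 2 ^ k)) (col τ D k (c / 2 ^ k) y) μ f
        (fz τ D μ ε K y f (k + 1) ((c / 2 ^ k) / 2)) = S (k + 1) := by
      refine sum_child K k hk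
        (fun b => cst (blk k b) (col τ D k b y) μ f (fz τ D μ ε K y f (k + 1) (b / 2)))
        (fun b => cst (blk (k + 1) b) (col τ D (k + 1) b y) μ f (fz τ D μ ε K y f (k + 1) b)) ?_
      intro b
      have e1 : 2 * b / 2 = b := by omega
      have e2 : (2 * b + 1) / 2 = b := by omega
      simp only [e1, e2]
      refine cst_children τ D μ k b y f _ fun i hi => ?_
      exact fz_supp τ D μ ε hμ K y f (k + 1) b (by omega) i hi
    rw [← h1, mul_sum, ← sum_sub_distrib]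
    refine sum_le_sum fun c _ => ?_
    set b := c / 2 ^ k with hb
    by_cases hm : ε ^ 2 ≤ dd τ D μ k b y f (fz τ D μ ε K y f (k + 1) (b / 2))
    · have e : mvf τ D μ ε K y f k b = 1 := by
        unfold mvf
        rw [if_pos ⟨hk, hm⟩]
      rw [e, fz_move τ D μ ε K y f k b hk hm, mul_one]
      have h2 := cst_split (blk k b) (col τ D k b y) μ hμ f (fz τ D μ ε K y f (k + 1) (b / 2))
      have h3 : dd τ D μ k b y f (fz τ D μ ε K y f (k + 1) (b / 2)) =
        (ip (blk k b) (comb (col τ D k b y) (fun x => fz τ D μ ε K y f (k + 1) (b / 2) x -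
            rid (blk k b) (col τ D k b y) μ f x))
          (comb (col τ D k b y) (fun x => fz τ D μ ε K y f (k + 1) (b / 2) x -
            rid (blk k b) (col τ D k b y) μ f x))
        + μ * ∑ x, (fz τ D μ ε K y f (k + 1) (b / 2) x -
            rid (blk k b) (col τ D k b y) μ f x) ^ 2) := rfl
      rw [← h3] at h2
      have h4 : cst (blk k b) (col τ D k b y) μ f (xi τ D μ k b y f) =
        mcs (blk k b) (col τ D k b y) μ f := rfl
      rw [h4, h2]
      linarith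
    · have e : mvf τ D μ ε K y f k b = 0 := by
        unfold mvf
        rw [if_neg fun h => hm h.2]
      rw [e, fz_stay τ D μ ε K y f k b hk hm, mul_zero, sub_zero]
  have tel : ∀ n, n ≤ K → S 0 ≤ S n -
      ε ^ 2 * ∑ k ∈ range n, ∑ c ∈ range (2 ^ K), mvf τ D μ ε K y f k (c / 2 ^ k) := by
    intro n
    induction n with
    | zero => intro _; simp
    | succ n ih =>
      intro hn
      have h1 := ih (by omega)
      have h2 := step n (by omega)
      rw [Finset.sum_range_succ, mul_add]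
      linarith
  have h0 : 0 ≤ S 0 := sum_nonneg fun c _ => cst_nonneg _ _ μ hμ f _
  have hK : S K ≤ 2 ^ K := by
    have h1 : ∀ c ∈ range (2 ^ K), cst (blk K (c / 2 ^ K)) (col τ D K (c / 2 ^ K) y) μ f
        (fz τ D μ ε K y f K (c / 2 ^ K)) ≤ 1 := by
      intro c _
      rw [fz_top]
      exact (mcs_le (blk K (c / 2 ^ K)) (col τ D K (c / 2 ^ K) y) μ hμ f).trans (ip_le_one _ f hf)
    calc S K ≤ ∑ c ∈ range (2 ^ K), (1 : ℝ) := sum_le_sum h1
      _ = 2 ^ K := by simp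
  have ht := tel K le_rfl
  rw [sum_comm] at ht
  have hp : (0 : ℝ) < 2 ^ K := by positivity
  rw [← mul_div_assoc, div_le_one hp]
  linarith

end

end NP2
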