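import Pool.Agent.NP2.Defs

/-!
# NP2 / Geo : geometric sums and the single scale function `gN`

`gN N ξ = N^-2 ∑_{|d| < N} |∑_{c < N - |d|} e(c d ξ)|`.

* `norm_Dk_le` : `|D_L(η)| = |sin(π L η)/sin(π η)| ≤ 1/|sin π η| ≤ 1/(2 |η - round η|)`.
* `gN_le_one` : `∑_{|d|<N} (N-|d|) = N^2`.
* `gN_bound1`, `gN_bound2` : `ξ = p/q + η`, `(p,q) = 1`, `q ≤ 2N`, `|η| ≤ 1/(2qN)`.
  For `q ∤ d`, `|d| < N`: `‖d ξ‖ ≥ ‖d p/q‖ - |d η| ≥ ‖dp/q‖/2` (as `‖dp/q‖ ≥ 1/q`, `|dη| < 1/(2q)`),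
  so the term is at most `min(N, 1/‖dp/q‖) ≤ sqrt(N/‖dp/q‖)`; each nonzero residue `r = dp mod q`
  occurs at most `2N/q+1` times and `∑_{r=1}^{q-1} sqrt(N q/min(r,q-r)) ≤ 2.83 sqrt(N) q`; total
  at most `12 N^{3/2}`.  For `q | d`, `d = q e`: the term is at most `N` (there are at most
  `2N/q+1` such `d`: this gives bound1) and for `e ≠ 0`, `η ≠ 0` at most
  `min(N, 1/(2q|e||η|)) ≤ sqrt(N/(2q|e||η|))` because `|qeη| ≤ 1/2`; the sum over
  `1 ≤ |e| ≤ N/q` is at most `3 N/(q sqrt|η|)` and `e = 0` contributes `N` (bound2).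
-/

namespace NP2
open Finset

noncomputable section

/-- `e(x) = exp(2 π i x)` -/
def ec (x : ℝ) : ℂ := Complex.exp (2 * Real.pi * Complex.I * x)

/-- geometric sum `∑_{j < L} e(j η)` -/
def Dk (L : ℕ) (η : ℝ) : ℂ := ∑ j ∈ range L, ec (j * η)

/-- the single scale function -/
def gN (N : ℕ) (ξ : ℝ) : ℝ :=
  (∑ d ∈ Ioo (-(N : ℤ)) N, ‖Dk (N - d.natAbs) (d * ξ)‖) / (N : ℝ) ^ 2

theorem norm_ec (x : ℝ) : ‖ec x‖ = 1 := by
  unfold ec
  have h : (2 * Real.pi * Complex.I * x : ℂ) = ((2 * Real.pi * x : ℝ) : ℂ) * Complex.I := by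
    push_cast; ring
  rw [h, Complex.norm_exp_ofReal_mul_I]

theorem ec_add (x y : ℝ) : ec (x + y) = ec x * ec y := by
  unfold ec
  rw [← Complex.exp_add]
  congr 1
  push_cast; ring

theorem ec_int (n : ℤ) : ec n = 1 := by
  unfold ec
  have h := Complex.exp_int_mul_two_pi_mul_I n
  rw [← h]
  congr 1
  push_cast; ring

private theorem ec_nat_mul (j : ℕ) (η : ℝ) : ec (j * η) = ec η ^ j := by
  induction j with
  | zero => simp [ec]
  | succ n ih =>
    rw [pow_succ, ← ih, ← ec_add]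
    congr 1
    push_cast; ring

theorem norm_Dk_le_card (L : ℕ) (η : ℝ) : ‖Dk L η‖ ≤ L := by
  unfold Dk
  refine (norm_sum_le _ _).trans ?_
  simp [norm_ec]

theorem norm_Dk_le (L : ℕ) (η : ℝ) (h : η - round η ≠ 0) :
    ‖Dk L η‖ ≤ 1 / (2 * |η - round η|) := by
  set t := η - round η with ht
  have htb : |t| ≤ 1 / 2 := abs_sub_round η
  have hec : ec η = ec t := by
    have h1 : η = t + ((round η : ℤ) : ℝ) := by rw [ht]; ring
    conv_lhs => rw [h1]
    rw [ec_add, ec_int, mul_one]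
  have hnorm : 4 * |t| ≤ ‖ec η - 1‖ := by
    rw [hec]
    have e1 : ec t = Complex.exp (Complex.I * ((2 * Real.pi * t : ℝ) : ℂ)) := by
      unfold ec; congr 1; push_cast; ring
    rw [e1, Complex.norm_exp_I_mul_ofReal_sub_one]
    have e2 : (2 * Real.pi * t) / 2 = Real.pi * t := by ring
    rw [e2, norm_mul, Real.norm_eq_abs, Real.norm_eq_abs, abs_of_pos (by norm_num : (0:ℝ) < 2)]
    have hpi := Real.pi_pos
    have habs : |Real.pi * t| = Real.pi * |t| := by rw [abs_mul, abs_of_pos hpi]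
    have h3 := Real.mul_abs_le_abs_sin (x := Real.pi * t) (by
      rw [habs]; nlinarith)
    rw [habs] at h3
    have h4 : 2 / Real.pi * (Real.pi * |t|) = 2 * |t| := by field_simp
    rw [h4] at h3
    linarith
  have hD : ‖Dk L η‖ * ‖ec η - 1‖ ≤ 2 := by
    have e1 : Dk L η * (ec η - 1) = ec η ^ L - 1 := by
      unfold Dk
      simp_rw [ec_nat_mul]
      exact geom_sum_mul _ _
    rw [← norm_mul, e1]
    refine (norm_sub_le _ _).trans ?_
    rw [norm_pow, norm_ec]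
    norm_num
  have htp : 0 < |t| := abs_pos.mpr h
  rw [le_div_iff₀ (by positivity)]
  have h5 : ‖Dk L η‖ * (4 * |t|) ≤ 2 := le_trans (mul_le_mul_of_nonneg_left hnorm (norm_nonneg _)) hD
  linarith

theorem gN_nonneg (N : ℕ) (ξ : ℝ) : 0 ≤ gN N ξ := by
  unfold gN; positivity

/-- splitting a symmetric sum -/
theorem geo_sum_symm (N : ℕ) (f : ℤ → ℝ) :
    ∑ d ∈ Ioo (-((N + 1 : ℕ) : ℤ)) ((N + 1 : ℕ) : ℤ), f d
      = f 0 + ∑ d ∈ range N, (f ((d : ℤ) + 1) + f (-((d : ℤ) + 1))) := by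
  induction N with
  | zero =>
    have h : Ioo (-((0 + 1 : ℕ) : ℤ)) ((0 + 1 : ℕ) : ℤ) = {0} := by
      ext x; simp only [mem_Ioo, mem_singleton]; push_cast; omega
    rw [h]; simp
  | succ n ih =>
    have h : Ioo (-((n + 1 + 1 : ℕ) : ℤ)) ((n + 1 + 1 : ℕ) : ℤ)
        = insert ((n : ℤ) + 1) (insert (-((n : ℤ) + 1)) (Ioo (-((n + 1 : ℕ) : ℤ)) ((n + 1 : ℕ) : ℤ))) := by
      ext x; simp only [mem_Ioo, mem_insert]; push_cast; omega
    rw [h, sum_insert, sum_insert, ih, sum_range_succ]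
    · ring
    · simp only [mem_Ioo]; push_cast; omega
    · simp only [mem_insert, mem_Ioo]; push_cast; omega

theorem gN_le_one (N : ℕ) (ξ : ℝ) : gN N ξ ≤ 1 := by
  unfold gN
  rcases Nat.eq_zero_or_pos N with h0 | hpos
  · subst h0; simp
  · obtain ⟨n, rfl⟩ : ∃ n, N = n + 1 := ⟨N - 1, by omega⟩
    rw [div_le_one (by positivity)]
    have h1 : ∑ d ∈ Ioo (-((n + 1 : ℕ) : ℤ)) ((n + 1 : ℕ) : ℤ), ‖Dk (n + 1 - d.natAbs) (d * ξ)‖
        ≤ ∑ d ∈ Ioo (-((n + 1 : ℕ) : ℤ)) ((n + 1 : ℕ) : ℤ), ((n + 1 - d.natAbs : ℕ) : ℝ) :=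
      sum_le_sum fun d _ => norm_Dk_le_card _ _
    refine h1.trans ?_
    rw [geo_sum_symm n (fun d => ((n + 1 - d.natAbs : ℕ) : ℝ))]
    have h2 : ∀ d ∈ range n, (((n + 1 - ((d : ℤ) + 1).natAbs : ℕ) : ℝ)
        + ((n + 1 - (-((d : ℤ) + 1)).natAbs : ℕ) : ℝ)) = 2 * ((n : ℝ) - d) := by
      intro d hd
      rw [mem_range] at hd
      have e1 : n + 1 - ((d : ℤ) + 1).natAbs = n - d := by omega
      have e2 : n + 1 - (-((d : ℤ) + 1)).natAbs = n - d := by omega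
      rw [e1, e2, Nat.cast_sub hd.le]; ring
    rw [sum_congr rfl h2]
    have h3 : ∀ m : ℕ, ∑ d ∈ range m, 2 * ((n : ℝ) - d) = 2 * n * m - m * (m - 1) := by
      intro m
      induction m with
      | zero => simp
      | succ k ih => rw [sum_range_succ, ih]; push_cast; ring
    rw [h3]
    simp only [Int.natAbs_zero, Nat.sub_zero]
    push_cast
    nlinarith

/-- number of elements of a residue class in `(-N, N)` -/
theorem geo_card_class (N q : ℕ) (hq : 1 ≤ q) (v : ℤ) :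
    (((Ioo (-(N : ℤ)) N).filter (fun d => d ≡ v [ZMOD (q : ℤ)])).card : ℝ) ≤ 2 * N / q + 1 := by
  have hI : Ioo (-(N : ℤ)) N = Ico (-(N : ℤ) + 1) N := by
    ext x; simp only [mem_Ioo, mem_Ico]; omega
  rw [hI]
  have hqz : (0 : ℤ) < (q : ℤ) := by exact_mod_cast hq
  have h := Int.Ico_filter_modEq_card (a := -(N : ℤ) + 1) (b := (N : ℤ)) hqz v
  have hqQ : (0 : ℚ) < (q : ℚ) := by exact_mod_cast hq
  have hb : (((Ico (-(N : ℤ) + 1) N).filter (fun d => d ≡ v [ZMOD (q : ℤ)])).card : ℚ)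
      ≤ 2 * N / q + 1 := by
    have h' : ((((Ico (-(N : ℤ) + 1) N).filter (fun d => d ≡ v [ZMOD (q : ℤ)])).card : ℤ) : ℚ)
      = ((max (⌈(((N : ℤ) : ℚ) - v) / ((q : ℤ) : ℚ)⌉ - ⌈((((-(N : ℤ) + 1 : ℤ)) : ℚ) - v) / ((q : ℤ) : ℚ)⌉) 0 : ℤ) : ℚ) := by
      exact_mod_cast congrArg (fun z : ℤ => (z : ℚ)) h
    have h2 : ((((Ico (-(N : ℤ) + 1) N).filter (fun d => d ≡ v [ZMOD (q : ℤ)])).card : ℤ) : ℚ)
      = (((Ico (-(N : ℤ) + 1) N).filter (fun d => d ≡ v [ZMOD (q : ℤ)])).card : ℚ) := by push_cast; rfl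
    rw [← h2, h']
    push_cast
    apply max_le
    · have c1 := Int.ceil_lt_add_one (((N : ℚ) - v) / (q : ℚ))
      have c2 := Int.le_ceil (((-(N : ℚ) + 1) - v) / (q : ℚ))
      have c3 : ((N : ℚ) - v) / (q : ℚ) - ((-(N : ℚ) + 1) - v) / (q : ℚ) = (2 * N - 1) / q := by
        field_simp; ring
      have c4 : (2 * (N : ℚ) - 1) / q ≤ 2 * N / q := by
        apply div_le_div_of_nonneg_right _ hqQ.le; linarith
      linarith
    · positivity
  have hb' := (Rat.cast_le (K := ℝ)).mpr hb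
  push_cast at hb'
  exact hb'

/-- `∑_{1 ≤ r ≤ n} 1/sqrt r ≤ 2 sqrt n` -/
theorem geo_sum_inv_sqrt (n : ℕ) :
    ∑ r ∈ Ioc (0 : ℤ) n, 1 / Real.sqrt (r : ℝ) ≤ 2 * Real.sqrt n := by
  induction n with
  | zero => simp
  | succ n ih =>
    have h : Ioc (0 : ℤ) ((n + 1 : ℕ) : ℤ) = insert ((n : ℤ) + 1) (Ioc (0 : ℤ) n) := by
      ext x; simp only [mem_Ioc, mem_insert]; push_cast; omega
    rw [h, sum_insert (by simp only [mem_Ioc]; omega)]
    have hn : (0 : ℝ) ≤ n := Nat.cast_nonneg n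
    have a1 := Real.sqrt_nonneg (n : ℝ)
    have a2 : 0 < Real.sqrt ((n : ℝ) + 1) := Real.sqrt_pos.mpr (by linarith)
    have a3 := Real.sq_sqrt hn
    have a4 := Real.sq_sqrt (show (0 : ℝ) ≤ (n : ℝ) + 1 by linarith)
    have a5 : 1 / Real.sqrt ((n : ℝ) + 1) + 2 * Real.sqrt n ≤ 2 * Real.sqrt ((n : ℝ) + 1) := by
      have e : 1 / Real.sqrt ((n : ℝ) + 1) + 2 * Real.sqrt n
          = (1 + 2 * Real.sqrt n * Real.sqrt ((n : ℝ) + 1)) / Real.sqrt ((n : ℝ) + 1) := by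
        field_simp
      rw [e, div_le_iff₀ a2]
      nlinarith [sq_nonneg (Real.sqrt ((n : ℝ) + 1) - Real.sqrt n)]
    push_cast
    linarith

/-- distance of `d ξ` to the nearest integer when `q ∤ d` -/
theorem geo_dist (N q : ℕ) (hN : 1 ≤ N) (hq : 1 ≤ q) (p : ℤ) (ξ : ℝ)
    (hη : |ξ - (p : ℝ) / q| ≤ 1 / (2 * q * N)) (d : ℤ) (hd : d ∈ Ioo (-(N : ℤ)) N)
    (r : ℤ) (hr : r = (d * p) % q) (hr0 : r ≠ 0) :
    (min (r : ℝ) (q - r)) / (2 * q) ≤ |d * ξ - round (d * ξ)| := by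
  have hqz : (0 : ℤ) < (q : ℤ) := by exact_mod_cast hq
  have hqr : (0 : ℝ) < (q : ℝ) := by exact_mod_cast hq
  have hNr : (0 : ℝ) < (N : ℝ) := by exact_mod_cast hN
  have hr1 : 0 ≤ r := by rw [hr]; exact Int.emod_nonneg _ hqz.ne'
  have hr2 : r < q := by rw [hr]; exact Int.emod_lt_of_pos _ hqz
  obtain ⟨k, hk⟩ : ∃ k : ℤ, d * p = r + q * k := ⟨(d * p) / q, by
    rw [hr]; exact (Int.emod_add_mul_ediv _ _).symm⟩
  set m := round (d * ξ)
  -- lower bound for the rational point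
  have h1 : min (r : ℝ) (q - r) / q ≤ |(d : ℝ) * ((p : ℝ) / q) - m| := by
    have e : (d : ℝ) * ((p : ℝ) / q) - m = ((r + q * (k - m) : ℤ) : ℝ) / q := by
      have hk' : (d : ℝ) * p = r + q * k := by exact_mod_cast hk
      push_cast
      field_simp
      linarith
    rw [e, abs_div, abs_of_pos hqr]
    apply div_le_div_of_nonneg_right _ hqr.le
    have h2 : min r (q - r) ≤ |r + q * (k - m)| := by
      rcases lt_trichotomy (k - m) 0 with hneg | hz | hpos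
      · have h3 : r + q * (k - m) ≤ r - q := by nlinarith
        have h4 : -(r + q * (k - m)) ≤ |r + q * (k - m)| := neg_le_abs _
        exact (min_le_right _ _).trans (by linarith)
      · rw [hz]
        simp only [mul_zero, add_zero]
        exact (min_le_left _ _).trans (le_abs_self _)
      · have h3 : r ≤ r + q * (k - m) := by nlinarith
        exact (min_le_left _ _).trans (h3.trans (le_abs_self _))
    have h3 : ((min r (q - r) : ℤ) : ℝ) ≤ ((|r + q * (k - m)| : ℤ) : ℝ) := by exact_mod_cast h2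
    push_cast at h3
    push_cast
    exact h3
  have h5 : |(d : ℝ) * (ξ - (p : ℝ) / q)| ≤ 1 / (2 * q) := by
    rw [abs_mul]
    have hdN : |(d : ℝ)| ≤ N := by
      rw [mem_Ioo] at hd
      rw [abs_le]
      constructor
      · have : -(N : ℤ) ≤ d := hd.1.le
        exact_mod_cast this
      · have : d ≤ (N : ℤ) := hd.2.le
        exact_mod_cast this
    calc |(d : ℝ)| * |ξ - (p : ℝ) / q| ≤ N * (1 / (2 * q * N)) :=
          mul_le_mul hdN hη (abs_nonneg _) hNr.le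
      _ = 1 / (2 * q) := by field_simp
  have h6 : |(d : ℝ) * ((p : ℝ) / q) - m| ≤ |d * ξ - m| + |(d : ℝ) * (ξ - (p : ℝ) / q)| := by
    have e : (d : ℝ) * ((p : ℝ) / q) - m = (d * ξ - m) - (d : ℝ) * (ξ - (p : ℝ) / q) := by ring
    rw [e]
    exact abs_sub _ _
  have h7 : 1 / (2 * (q : ℝ)) ≤ min (r : ℝ) (q - r) / (2 * q) := by
    apply div_le_div_of_nonneg_right _ (by positivity)
    apply le_min
    · have : 1 ≤ r := by omega
      exact_mod_cast this
    · have : r + 1 ≤ (q : ℤ) := by omega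
      have h8 : (r : ℝ) + 1 ≤ q := by exact_mod_cast this
      linarith
  have h9 : min (r : ℝ) (q - r) / q = min (r : ℝ) (q - r) / (2 * q) + min (r : ℝ) (q - r) / (2 * q) := by
    field_simp; ring
  linarith

/-- the interpolated bound `min(N, 1/(2x)) ≤ sqrt(N/(2x))` -/
theorem geo_interp (N : ℕ) (d : ℤ) (ξ x : ℝ) (hx : 0 < x) (h : x ≤ |d * ξ - round (d * ξ)|) :
    ‖Dk (N - d.natAbs) (d * ξ)‖ ≤ Real.sqrt (N / (2 * x)) := by
  have h1 : ‖Dk (N - d.natAbs) (d * ξ)‖ ≤ N :=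
    (norm_Dk_le_card _ _).trans (by exact_mod_cast Nat.sub_le _ _)
  have h2 : ‖Dk (N - d.natAbs) (d * ξ)‖ ≤ 1 / (2 * x) := by
    refine (norm_Dk_le _ _ (abs_pos.mp (hx.trans_le h))).trans ?_
    apply one_div_le_one_div_of_le (by positivity)
    linarith
  apply Real.le_sqrt_of_sq_le
  have h3 := norm_nonneg (Dk (N - d.natAbs) (d * ξ))
  calc ‖Dk (N - d.natAbs) (d * ξ)‖ ^ 2
      = ‖Dk (N - d.natAbs) (d * ξ)‖ * ‖Dk (N - d.natAbs) (d * ξ)‖ := by ring
    _ ≤ N * (1 / (2 * x)) := mul_le_mul h1 h2 h3 (by positivity)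
    _ = N / (2 * x) := by ring

/-- the contribution of the `d` not divisible by `q` -/
theorem geo_main (N q : ℕ) (hN : 1 ≤ N) (hq : 1 ≤ q) (hqN : q ≤ 2 * N) (p : ℤ)
    (hc : IsCoprime p (q : ℤ)) (ξ : ℝ) (hη : |ξ - (p : ℝ) / q| ≤ 1 / (2 * q * N)) :
    ∑ d ∈ (Ioo (-(N : ℤ)) N).filter (fun d => ¬ (q : ℤ) ∣ d), ‖Dk (N - d.natAbs) (d * ξ)‖
      ≤ 16 * (N * Real.sqrt N) := by
  have hqz : (0 : ℤ) < (q : ℤ) := by exact_mod_cast hq
  have hqr : (0 : ℝ) < (q : ℝ) := by exact_mod_cast hq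
  have hNr : (0 : ℝ) < (N : ℝ) := by exact_mod_cast hN
  set S := (Ioo (-(N : ℤ)) N).filter (fun d => ¬ (q : ℤ) ∣ d) with hS
  set F : ℤ → ℝ := fun r => 1 / Real.sqrt (r : ℝ) + 1 / Real.sqrt ((q : ℝ) - r) with hF
  have hF0 : ∀ r, 0 ≤ F r := fun r => by simp only [hF]; positivity
  -- bound of every term
  have hterm : ∀ d ∈ S, ‖Dk (N - d.natAbs) (d * ξ)‖ ≤ Real.sqrt (N * q) * F ((d * p) % q) := by
    intro d hd
    rw [hS, mem_filter] at hd
    set r := (d * p) % q with hr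
    have hr0 : r ≠ 0 := by
      intro h0
      apply hd.2
      have h1 : (q : ℤ) ∣ d * p := Int.dvd_of_emod_eq_zero h0
      exact (hc.symm).dvd_of_dvd_mul_right h1
    have hr1 : 1 ≤ r := by
      have := Int.emod_nonneg (d * p) hqz.ne'
      omega
    have hr2 : r + 1 ≤ (q : ℤ) := by
      have := Int.emod_lt_of_pos (d * p) hqz
      omega
    have hr1' : (1 : ℝ) ≤ r := by exact_mod_cast hr1
    have hr2' : (r : ℝ) + 1 ≤ q := by exact_mod_cast hr2
    have hm : 0 < min (r : ℝ) (q - r) := lt_min (by linarith) (by linarith)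
    have h2 := geo_interp N d ξ (min (r : ℝ) (q - r) / (2 * q)) (by positivity)
      (geo_dist N q hN hq p ξ hη d hd.1 r hr hr0)
    refine h2.trans ?_
    have e1 : (N : ℝ) / (2 * (min (r : ℝ) (q - r) / (2 * q))) = (N * q) / min (r : ℝ) (q - r) := by
      field_simp
    rw [e1, Real.sqrt_div (by positivity)]
    rw [div_eq_mul_one_div]
    apply mul_le_mul_of_nonneg_left _ (Real.sqrt_nonneg _)
    simp only [hF]
    rcases min_choice (r : ℝ) (q - r) with h | h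
    · rw [h]
      have : 0 ≤ 1 / Real.sqrt ((q : ℝ) - r) := by positivity
      linarith
    · rw [h]
      have : 0 ≤ 1 / Real.sqrt (r : ℝ) := by positivity
      linarith
  refine (sum_le_sum hterm).trans ?_
  rw [← mul_sum]
  -- group by residues
  have hmaps : ∀ d ∈ S, (d * p) % q ∈ Ioo (0 : ℤ) q := by
    intro d hd
    rw [hS, mem_filter] at hd
    have h1 := Int.emod_nonneg (d * p) hqz.ne'
    have h2 := Int.emod_lt_of_pos (d * p) hqz
    have h3 : (d * p) % q ≠ 0 := by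
      intro h0
      apply hd.2
      exact (hc.symm).dvd_of_dvd_mul_right (Int.dvd_of_emod_eq_zero h0)
    rw [mem_Ioo]; omega
  have hgroup : ∑ d ∈ S, F ((d * p) % q) ≤ ∑ r ∈ Ioo (0 : ℤ) q, (2 * N / q + 1) * F r := by
    rw [← sum_fiberwise_of_maps_to hmaps]
    apply sum_le_sum
    intro r _
    have h1 : ∑ d ∈ S.filter (fun d => (d * p) % q = r), F ((d * p) % q)
        = ((S.filter (fun d => (d * p) % q = r)).card : ℝ) * F r := by
      rw [← nsmul_eq_mul, ← sum_const]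
      apply sum_congr rfl
      intro d hd
      rw [mem_filter] at hd
      rw [hd.2]
    rw [h1]
    apply mul_le_mul_of_nonneg_right _ (hF0 r)
    obtain ⟨a, b, hab⟩ := hc
    refine le_trans ?_ (geo_card_class N q hq (r * a))
    have hsub : S.filter (fun d => (d * p) % q = r)
        ⊆ (Ioo (-(N : ℤ)) N).filter (fun d => d ≡ r * a [ZMOD (q : ℤ)]) := by
      intro d hd
      rw [mem_filter, hS, mem_filter] at hd
      rw [mem_filter]
      refine ⟨hd.1.1, ?_⟩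
      have h2 : d * p ≡ r [ZMOD (q : ℤ)] := by
        rw [← hd.2]; exact (Int.mod_modEq _ _).symm
      have h3 : d * p * a ≡ r * a [ZMOD (q : ℤ)] := h2.mul_right a
      have h4 : d ≡ d * p * a [ZMOD (q : ℤ)] := by
        rw [Int.modEq_iff_dvd]
        refine ⟨-(d * b), ?_⟩
        have : a * p = 1 - b * q := by linarith
        calc d * p * a - d = d * (a * p) - d := by ring
          _ = (q : ℤ) * -(d * b) := by rw [this]; ring
      exact h4.trans h3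
    exact_mod_cast card_le_card hsub
  have hFsum : ∑ r ∈ Ioo (0 : ℤ) q, F r ≤ 4 * Real.sqrt q := by
    simp only [hF]
    rw [sum_add_distrib]
    have h1 : ∑ r ∈ Ioo (0 : ℤ) q, 1 / Real.sqrt (r : ℝ) ≤ 2 * Real.sqrt q := by
      refine le_trans ?_ (geo_sum_inv_sqrt q)
      apply sum_le_sum_of_subset_of_nonneg
      · intro x; simp only [mem_Ioo, mem_Ioc]; omega
      · intro x _ _; positivity
    have h2 : ∑ r ∈ Ioo (0 : ℤ) q, 1 / Real.sqrt ((q : ℝ) - r)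
        = ∑ r ∈ Ioo (0 : ℤ) q, 1 / Real.sqrt (r : ℝ) := by
      apply sum_nbij' (fun r => (q : ℤ) - r) (fun r => (q : ℤ) - r)
      · intro x; simp only [mem_Ioo]; omega
      · intro x; simp only [mem_Ioo]; omega
      · intro x _; ring
      · intro x _; ring
      · intro x _; push_cast; rfl
    rw [h2]
    linarith
  have hcoef : (2 * (N : ℝ) / q + 1) ≤ 4 * N / q := by
    have h1 : (1 : ℝ) ≤ 2 * N / q := by
      rw [le_div_iff₀ hqr, one_mul]
      exact_mod_cast hqN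
    have h2 : (4 : ℝ) * N / q = 2 * N / q + 2 * N / q := by ring
    linarith
  have hS2 : ∑ d ∈ S, F ((d * p) % q) ≤ 4 * N / q * (4 * Real.sqrt q) := by
    refine hgroup.trans ?_
    rw [← mul_sum]
    exact mul_le_mul hcoef hFsum (sum_nonneg fun r _ => hF0 r) (by positivity)
  calc Real.sqrt (N * q) * ∑ d ∈ S, F ((d * p) % q)
      ≤ Real.sqrt (N * q) * (4 * N / q * (4 * Real.sqrt q)) :=
        mul_le_mul_of_nonneg_left hS2 (Real.sqrt_nonneg _)
    _ = 16 * (N * Real.sqrt N) := by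
        rw [Real.sqrt_mul hNr.le]
        have h3 := Real.mul_self_sqrt hqr.le
        field_simp
        nlinarith [h3]

/-- positive multiples of `q` below `N` -/
theorem geo_div_pos (N q : ℕ) (hq : 1 ≤ q) :
    ∑ d ∈ (Ioo (-(N : ℤ)) N).filter (fun d => (q : ℤ) ∣ d ∧ 0 < d), 1 / Real.sqrt |(d : ℝ)|
      ≤ 2 * Real.sqrt N / q := by
  have hqz : (0 : ℤ) < (q : ℤ) := by exact_mod_cast hq
  have hqr : (0 : ℝ) < (q : ℝ) := by exact_mod_cast hq
  have hsub : (Ioo (-(N : ℤ)) N).filter (fun d => (q : ℤ) ∣ d ∧ 0 < d)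
      ⊆ (Ioc (0 : ℤ) ((N / q : ℕ) : ℤ)).image (fun e => (q : ℤ) * e) := by
    intro d hd
    rw [mem_filter, mem_Ioo] at hd
    obtain ⟨⟨_, h2⟩, ⟨e, he⟩, h4⟩ := hd
    rw [mem_image]
    refine ⟨e, ?_, he.symm⟩
    rw [mem_Ioc]
    subst he
    have he0 : 0 < e := (mul_pos_iff_of_pos_left hqz).mp h4
    refine ⟨he0, ?_⟩
    push_cast
    rw [Int.le_ediv_iff_mul_le hqz]
    linarith [mul_comm e (q : ℤ)]
  refine (sum_le_sum_of_subset_of_nonneg hsub (fun x _ _ => by positivity)).trans ?_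
  rw [sum_image (fun x _ y _ h => by
    exact mul_left_cancel₀ hqz.ne' h)]
  have h1 : ∀ e ∈ Ioc (0 : ℤ) ((N / q : ℕ) : ℤ), 1 / Real.sqrt |(((q : ℤ) * e : ℤ) : ℝ)|
      = 1 / Real.sqrt q * (1 / Real.sqrt (e : ℝ)) := by
    intro e he
    rw [mem_Ioc] at he
    have he' : (0 : ℝ) < e := by exact_mod_cast he.1
    push_cast
    rw [abs_of_pos (by positivity), Real.sqrt_mul hqr.le]
    rw [one_div_mul_one_div]
  rw [sum_congr rfl h1, ← mul_sum]
  have h2 := geo_sum_inv_sqrt (N / q)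
  have h3 : Real.sqrt ((N / q : ℕ) : ℝ) ≤ Real.sqrt N / Real.sqrt q := by
    rw [← Real.sqrt_div (Nat.cast_nonneg _)]
    apply Real.sqrt_le_sqrt
    exact Nat.cast_div_le
  calc 1 / Real.sqrt q * ∑ e ∈ Ioc (0 : ℤ) ((N / q : ℕ) : ℤ), 1 / Real.sqrt (e : ℝ)
      ≤ 1 / Real.sqrt q * (2 * (Real.sqrt N / Real.sqrt q)) := by
        apply mul_le_mul_of_nonneg_left _ (by positivity)
        linarith
    _ = 2 * Real.sqrt N / q := by
        have h4 := Real.mul_self_sqrt hqr.le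
        have h5 : 0 < Real.sqrt (q : ℝ) := Real.sqrt_pos.mpr hqr
        rw [eq_div_iff hqr.ne']
        calc 1 / Real.sqrt q * (2 * (Real.sqrt N / Real.sqrt q)) * q
            = 1 / Real.sqrt q * (2 * (Real.sqrt N / Real.sqrt q)) * (Real.sqrt q * Real.sqrt q) := by
              rw [h4]
          _ = 2 * Real.sqrt N := by field_simp

theorem geo_div (N q : ℕ) (hq : 1 ≤ q) :
    ∑ d ∈ (Ioo (-(N : ℤ)) N).filter (fun d => (q : ℤ) ∣ d ∧ d ≠ 0), 1 / Real.sqrt |(d : ℝ)|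
      ≤ 4 * Real.sqrt N / q := by
  have h1 : (Ioo (-(N : ℤ)) N).filter (fun d => (q : ℤ) ∣ d ∧ d ≠ 0)
      = (Ioo (-(N : ℤ)) N).filter (fun d => (q : ℤ) ∣ d ∧ 0 < d)
        ∪ (Ioo (-(N : ℤ)) N).filter (fun d => (q : ℤ) ∣ d ∧ d < 0) := by
    ext x
    simp only [mem_filter, mem_union]
    constructor
    · rintro ⟨a, b, c⟩
      rcases lt_or_gt_of_ne c with h | h
      · exact Or.inr ⟨a, b, h⟩
      · exact Or.inl ⟨a, b, h⟩
    · rintro (⟨a, b, c⟩ | ⟨a, b, c⟩)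
      · exact ⟨a, b, c.ne'⟩
      · exact ⟨a, b, c.ne⟩
  have hdisj : Disjoint ((Ioo (-(N : ℤ)) N).filter (fun d => (q : ℤ) ∣ d ∧ 0 < d))
      ((Ioo (-(N : ℤ)) N).filter (fun d => (q : ℤ) ∣ d ∧ d < 0)) := by
    rw [disjoint_left]
    intro x hx hy
    rw [mem_filter] at hx hy
    omega
  rw [h1, sum_union hdisj]
  have h2 : ∑ d ∈ (Ioo (-(N : ℤ)) N).filter (fun d => (q : ℤ) ∣ d ∧ d < 0), 1 / Real.sqrt |(d : ℝ)|
      = ∑ d ∈ (Ioo (-(N : ℤ)) N).filter (fun d => (q : ℤ) ∣ d ∧ 0 < d), 1 / Real.sqrt |(d : ℝ)| := by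
    apply sum_nbij' (fun r => -r) (fun r => -r)
    · intro x; simp only [mem_filter, mem_Ioo]
      rintro ⟨a, b, c⟩
      exact ⟨by omega, (dvd_neg).mpr b, by omega⟩
    · intro x; simp only [mem_filter, mem_Ioo]
      rintro ⟨a, b, c⟩
      exact ⟨by omega, (dvd_neg).mpr b, by omega⟩
    · intro x _; ring
    · intro x _; ring
    · intro x _; push_cast; rw [abs_neg]
  rw [h2]
  have h3 := geo_div_pos N q hq
  have h4 : 4 * Real.sqrt N / q = 2 * Real.sqrt N / q + 2 * Real.sqrt N / q := by ring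
  linarith

theorem gN_bound1 (N q : ℕ) (hN : 1 ≤ N) (hq : 1 ≤ q) (hqN : q ≤ 2 * N) (p : ℤ)
    (hc : IsCoprime p (q : ℤ)) (ξ : ℝ)
    (hη : |ξ - (p : ℝ) / q| ≤ 1 / (2 * q * N)) :
    gN N ξ ≤ 20 * (1 / q + 1 / Real.sqrt N) := by
  have hqr : (0 : ℝ) < (q : ℝ) := by exact_mod_cast hq
  have hNr : (0 : ℝ) < (N : ℝ) := by exact_mod_cast hN
  unfold gN
  rw [← sum_filter_add_sum_filter_not (Ioo (-(N : ℤ)) N) (fun d => (q : ℤ) ∣ d)]
  have h1 := geo_main N q hN hq hqN p hc ξ hη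
  have h2 : ∑ d ∈ (Ioo (-(N : ℤ)) N).filter (fun d => (q : ℤ) ∣ d), ‖Dk (N - d.natAbs) (d * ξ)‖
      ≤ 4 * N / q * N := by
    have h3 : ∀ d ∈ (Ioo (-(N : ℤ)) N).filter (fun d => (q : ℤ) ∣ d),
        ‖Dk (N - d.natAbs) (d * ξ)‖ ≤ N := fun d _ =>
      (norm_Dk_le_card _ _).trans (by exact_mod_cast Nat.sub_le _ _)
    refine (sum_le_card_nsmul _ _ _ h3).trans ?_
    rw [nsmul_eq_mul]
    apply mul_le_mul_of_nonneg_right _ hNr.le
    have h4 := geo_card_class N q hq 0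
    have h5 : (Ioo (-(N : ℤ)) N).filter (fun d => d ≡ 0 [ZMOD (q : ℤ)])
        = (Ioo (-(N : ℤ)) N).filter (fun d => (q : ℤ) ∣ d) := by
      apply filter_congr
      intro x _
      exact Int.modEq_zero_iff_dvd
    rw [h5] at h4
    have h6 : (1 : ℝ) ≤ 2 * N / q := by
      rw [le_div_iff₀ hqr, one_mul]
      exact_mod_cast hqN
    have h7 : (4 : ℝ) * N / q = 2 * N / q + 2 * N / q := by ring
    linarith
  rw [div_le_iff₀ (by positivity)]
  have hs : 0 < Real.sqrt (N : ℝ) := Real.sqrt_pos.mpr hNr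
  have e1 : 20 * (1 / (q : ℝ) + 1 / Real.sqrt N) * (N : ℝ) ^ 2
      = 20 * (N * N / q) + 20 * (N * Real.sqrt N) := by
    have h8 := Real.mul_self_sqrt hNr.le
    have h9 : (N : ℝ) ^ 2 / Real.sqrt N = N * Real.sqrt N := by
      rw [div_eq_iff hs.ne']
      calc (N : ℝ) ^ 2 = N * N := by ring
        _ = N * (Real.sqrt N * Real.sqrt N) := by rw [h8]
        _ = _ := by ring
    calc 20 * (1 / (q : ℝ) + 1 / Real.sqrt N) * (N : ℝ) ^ 2
        = 20 * (N * N / q) + 20 * ((N : ℝ) ^ 2 / Real.sqrt N) := by ring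
      _ = _ := by rw [h9]
  rw [e1]
  have h10 : 0 ≤ (N : ℝ) * N / q := by positivity
  have h11 : 0 ≤ (N : ℝ) * Real.sqrt N := by positivity
  have h12 : 4 * (N : ℝ) / q * N = 4 * (N * N / q) := by ring
  linarith

theorem gN_bound2 (N q : ℕ) (hN : 1 ≤ N) (hq : 1 ≤ q) (hqN : q ≤ 2 * N) (p : ℤ)
    (hc : IsCoprime p (q : ℤ)) (ξ : ℝ)
    (hη : |ξ - (p : ℝ) / q| ≤ 1 / (2 * q * N)) (hne : ξ - (p : ℝ) / q ≠ 0) :
    gN N ξ ≤ 20 * (1 / (q * Real.sqrt ((N : ℝ) ^ 2 * |ξ - (p : ℝ) / q|)) + 1 / Real.sqrt N) := by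
  have hqr : (0 : ℝ) < (q : ℝ) := by exact_mod_cast hq
  have hqr1 : (1 : ℝ) ≤ (q : ℝ) := by exact_mod_cast hq
  have hNr : (0 : ℝ) < (N : ℝ) := by exact_mod_cast hN
  have hNr1 : (1 : ℝ) ≤ (N : ℝ) := by exact_mod_cast hN
  set η := ξ - (p : ℝ) / q with hηdef
  have hηp : 0 < |η| := abs_pos.mpr hne
  unfold gN
  rw [← sum_filter_add_sum_filter_not (Ioo (-(N : ℤ)) N) (fun d => (q : ℤ) ∣ d)]
  have h1 := geo_main N q hN hq hqN p hc ξ hη
  -- the multiples of q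
  have hterm : ∀ d ∈ (Ioo (-(N : ℤ)) N).filter (fun d => (q : ℤ) ∣ d ∧ d ≠ 0),
      ‖Dk (N - d.natAbs) (d * ξ)‖ ≤ Real.sqrt (N / (2 * |η|)) * (1 / Real.sqrt |(d : ℝ)|) := by
    intro d hd
    rw [mem_filter] at hd
    obtain ⟨hI, ⟨e, he⟩, hd0⟩ := hd
    have hd0' : (d : ℝ) ≠ 0 := by exact_mod_cast hd0
    have hdp : 0 < |(d : ℝ)| := abs_pos.mpr hd0'
    have hdN : |(d : ℝ)| ≤ N := by
      rw [mem_Ioo] at hI
      rw [abs_le]
      constructor
      · have : -(N : ℤ) ≤ d := hI.1.le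
        exact_mod_cast this
      · have : d ≤ (N : ℤ) := hI.2.le
        exact_mod_cast this
    have h5 : |(d : ℝ) * η| ≤ 1 / (2 * q) := by
      rw [abs_mul]
      calc |(d : ℝ)| * |η| ≤ N * (1 / (2 * q * N)) :=
            mul_le_mul hdN hη (abs_nonneg _) hNr.le
        _ = 1 / (2 * q) := by field_simp
    have h6 : |(d : ℝ) * η| ≤ 1 / 2 := by
      refine h5.trans ?_
      apply one_div_le_one_div_of_le (by norm_num)
      linarith
    have h7 : (d : ℝ) * ξ = d * η + ((e * p : ℤ) : ℝ) := by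
      have h8 : (d : ℝ) = q * e := by exact_mod_cast he
      have h9 : ξ = η + (p : ℝ) / q := by rw [hηdef]; ring
      rw [h9]
      push_cast
      have h10 : (d : ℝ) * ((p : ℝ) / q) = e * p := by
        rw [h8]; field_simp
      rw [mul_add, h10]
    have h11 : |(d : ℝ) * η| ≤ |d * ξ - round ((d : ℝ) * ξ)| := by
      rw [h7, round_add_intCast]
      push_cast
      have e2 : (d : ℝ) * η + e * p - (round ((d : ℝ) * η) + e * p) = d * η - round ((d : ℝ) * η) := by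
        ring
      rw [e2]
      set m := round ((d : ℝ) * η)
      by_cases hm : m = 0
      · rw [hm]; simp
      · have h12 : (1 : ℝ) ≤ |(m : ℝ)| := by
          have := Int.one_le_abs hm
          exact_mod_cast this
        have h13 : |(m : ℝ)| ≤ |(m : ℝ) - d * η| + |(d : ℝ) * η| := by
          have := abs_add_le ((m : ℝ) - d * η) (d * η)
          rwa [sub_add_cancel] at this
        rw [abs_sub_comm] at h13
        linarith
    have h14 := geo_interp N d ξ |(d : ℝ) * η| (abs_pos.mpr (mul_ne_zero hd0' hne)) h11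
    refine h14.trans (le_of_eq ?_)
    rw [abs_mul]
    have e3 : (N : ℝ) / (2 * (|(d : ℝ)| * |η|)) = (N / (2 * |η|)) / |(d : ℝ)| := by
      field_simp
    rw [e3, Real.sqrt_div (by positivity), div_eq_mul_one_div]
  have h2 : ∑ d ∈ (Ioo (-(N : ℤ)) N).filter (fun d => (q : ℤ) ∣ d), ‖Dk (N - d.natAbs) (d * ξ)‖
      ≤ N + Real.sqrt (N / (2 * |η|)) * (4 * Real.sqrt N / q) := by
    have hsplit : (Ioo (-(N : ℤ)) N).filter (fun d => (q : ℤ) ∣ d)
        = insert 0 ((Ioo (-(N : ℤ)) N).filter (fun d => (q : ℤ) ∣ d ∧ d ≠ 0)) := by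
      ext x
      simp only [mem_filter, mem_insert, mem_Ioo]
      constructor
      · rintro ⟨a, b⟩
        by_cases hx : x = 0
        · exact Or.inl hx
        · exact Or.inr ⟨a, b, hx⟩
      · rintro (h | ⟨a, b, _⟩)
        · subst h
          exact ⟨by omega, dvd_zero _⟩
        · exact ⟨a, b⟩
    rw [hsplit, sum_insert (by simp)]
    apply add_le_add
    · exact (norm_Dk_le_card _ _).trans (by exact_mod_cast Nat.sub_le _ _)
    · refine (sum_le_sum hterm).trans ?_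
      rw [← mul_sum]
      exact mul_le_mul_of_nonneg_left (geo_div N q hq) (Real.sqrt_nonneg _)
  rw [div_le_iff₀ (by positivity)]
  have hs : 0 < Real.sqrt (N : ℝ) := Real.sqrt_pos.mpr hNr
  have hsη : 0 < Real.sqrt |η| := Real.sqrt_pos.mpr hηp
  have hss := Real.mul_self_sqrt hNr.le
  have e1 : 20 * (1 / ((q : ℝ) * Real.sqrt ((N : ℝ) ^ 2 * |η|)) + 1 / Real.sqrt N) * (N : ℝ) ^ 2
      = 20 * (N / (q * Real.sqrt |η|)) + 20 * (N * Real.sqrt N) := by
    rw [Real.sqrt_mul (by positivity), Real.sqrt_sq hNr.le]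
    have h9 : (N : ℝ) ^ 2 / Real.sqrt N = N * Real.sqrt N := by
      rw [div_eq_iff hs.ne']
      calc (N : ℝ) ^ 2 = N * N := by ring
        _ = N * (Real.sqrt N * Real.sqrt N) := by rw [hss]
        _ = _ := by ring
    calc 20 * (1 / ((q : ℝ) * (N * Real.sqrt |η|)) + 1 / Real.sqrt N) * (N : ℝ) ^ 2
        = 20 * ((N : ℝ) ^ 2 * (1 / ((q : ℝ) * (N * Real.sqrt |η|)))) + 20 * ((N : ℝ) ^ 2 / Real.sqrt N) := by
          ring
      _ = 20 * (N / (q * Real.sqrt |η|)) + 20 * (N * Real.sqrt N) := by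
          rw [h9]
          congr 1
          field_simp
  rw [e1]
  -- the middle term
  have h3 : Real.sqrt (N / (2 * |η|)) * (4 * Real.sqrt N / q) ≤ 4 * (N / (q * Real.sqrt |η|)) := by
    have h4 : Real.sqrt (N / (2 * |η|)) ≤ Real.sqrt N / Real.sqrt |η| := by
      rw [← Real.sqrt_div hNr.le]
      apply Real.sqrt_le_sqrt
      apply div_le_div_of_nonneg_left hNr.le hηp
      linarith
    calc Real.sqrt (N / (2 * |η|)) * (4 * Real.sqrt N / q)
        ≤ Real.sqrt N / Real.sqrt |η| * (4 * Real.sqrt N / q) :=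
          mul_le_mul_of_nonneg_right h4 (by positivity)
      _ = 4 * ((Real.sqrt N * Real.sqrt N) / (q * Real.sqrt |η|)) := by
          field_simp
      _ = _ := by rw [hss]
  have h4 : (N : ℝ) ≤ N * Real.sqrt N := by
    have h5 : 1 ≤ Real.sqrt (N : ℝ) := Real.one_le_sqrt.mpr hNr1
    nlinarith
  have h10 : 0 ≤ (N : ℝ) / (q * Real.sqrt |η|) := by positivity
  linarith

end

end NP2
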