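import Pool.Agent.NP2.Dic

/-!
# NP2 / Grd : the greedy dictionary

`IsSys`: the rule holds at every block and every cell for the residuals (parameter `lam`) of the
`T`-objects and of the `S`-objects, and the budget is at most `6/lam`.

Construction from the top level `K` down to `0`.  Claim for level `k`: given a dictionary `D` with
all elements at levels in `(k, K]` and the rule at the levels in `(k, K]`, there is `D'` obtained by
adding finitely many elements of level `k` such that the rule holds at the levels `[k, K]` and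
`(lam/3) 8^k N ≤ P_k(D) - P_k(D')`, `N` = number of added elements,
`P_k(D) = ∑_{b < 2^(K-k)} (∑_u mc(u) + ∑_v mc(v))` (parameter `lam`) `≥ 0`.
Proof: `N` is bounded by `3 P_k(D)/(lam 8^k)`; take an extension satisfying the inequality with
maximal `N`.  If the rule failed at `(k,b)`, cell `(i,j)`, `w` (say for `T`-objects; scale `ip w w = 1`),
add the element with `blk = b`, `loc = (i 2^k, j 4^k)`, `psi = w`: for every `u` of the cell the
column is `a w`, `a^2 = exp(-τ dist) ≥ exp(-2τ) ≥ 0.8`, so its minimal cost drops by at least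
`a^2 <res,w>^2/(a^2+lam) ≥ <res,w>^2/3` (`mcs_cons_drop`), the sum over the cell is
`≥ lam 8^k/3`; all other costs do not increase (`mcs_cons_le`).
Adding elements of level `k` does not change anything at the levels `> k` (`rid_cons_zero`).
Sum over the levels: `2^k P_k(D) ≤ 2^(k+1) P_(k+1)(D)` for a dictionary with levels `> k`
(`cst_children`, `mcs_le_cst`), and `2^K P_K(∅) ≤ 2^K · 2 M^2`; hence
`∑_x (lam/3) 8^lev 2^lev ≤ 2 · 2^K M^2`, i.e. `budget ≤ 6/lam`.
-/

namespace NP2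
open Finset

noncomputable section

variable {M : ℕ} [NeZero M]

open Classical in
/-- a system of parameter `lam` -/
structure IsSys (K : ℕ) (F G : A M → ℕ → ℝ) (lam τ : ℝ) (D : Dict M) : Prop where
  lev_le : ∀ i, (D.el i).lev ≤ K
  blk_lt : ∀ i, (D.el i).blk < 2 ^ (K - (D.el i).lev)
  unit : ∀ i, ip (blk (D.el i).lev (D.el i).blk) (D.el i).psi (D.el i).psi ≤ 1
  ruleT : ∀ k ≤ K, ∀ b < 2 ^ (K - k), ∀ (q : ℕ × ℕ) (w : ℕ → ℝ),
    ∑ u : A M, (if cell k (pT u (b * 2 ^ k)) = q then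
        ip (blk k b) (rsd τ D lam k b (pT u) (F u)) w ^ 2 else 0) ≤
      lam * 8 ^ k * ip (blk k b) w w
  ruleS : ∀ k ≤ K, ∀ b < 2 ^ (K - k), ∀ (q : ℕ × ℕ) (w : ℕ → ℝ),
    ∑ v : A M, (if cell k (pS v (b * 2 ^ k)) = q then
        ip (blk k b) (rsd τ D lam k b (pS v) (G v)) w ^ 2 else 0) ≤
      lam * 8 ^ k * ip (blk k b) w w
  budget_le : budget K D ≤ 6 / lam

/-! ### adding one element -/

/-- add the element `x` in front -/
private def addE (x : Elem M) (D : Dict M) : Dict M := ⟨D.n + 1, Fin.cons x D.el⟩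

private theorem col_addE (τ : ℝ) (x : Elem M) (D : Dict M) (k b : ℕ) (y : ℕ → A M) :
    col τ (addE x D) k b y =
      (Fin.cons (colE τ x k b y) (col τ D k b y) : Fin (D.n + 1) → ℕ → ℝ) := by
  funext i
  refine Fin.cases ?_ (fun j => ?_) i
  · rfl
  · rfl

private theorem mc_addE_le (τ : ℝ) (x : Elem M) (D : Dict M) (μ : ℝ) (hμ : 0 < μ) (k b : ℕ)
    (y : ℕ → A M) (f : ℕ → ℝ) : mc τ (addE x D) μ k b y f ≤ mc τ D μ k b y f := by
  have h := mcs_cons_le (blk k b) (col τ D k b y) (colE τ x k b y) μ hμ f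
  have e : mc τ (addE x D) μ k b y f =
      mcs (blk k b) (Fin.cons (colE τ x k b y) (col τ D k b y) : Fin (D.n + 1) → ℕ → ℝ) μ f := by
    unfold mc
    rw [col_addE]
    rfl
  rw [e]
  exact h

private theorem mc_addE_drop (τ : ℝ) (x : Elem M) (D : Dict M) (μ : ℝ) (hμ : 0 < μ) (k b : ℕ)
    (y : ℕ → A M) (f : ℕ → ℝ) : mc τ (addE x D) μ k b y f ≤ mc τ D μ k b y f -
      ip (blk k b) (colE τ x k b y) (rsd τ D μ k b y f) ^ 2 /
        (ip (blk k b) (colE τ x k b y) (colE τ x k b y) + μ) := by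
  have h := mcs_cons_drop (blk k b) (col τ D k b y) (colE τ x k b y) μ hμ f
  have e : mc τ (addE x D) μ k b y f =
      mcs (blk k b) (Fin.cons (colE τ x k b y) (col τ D k b y) : Fin (D.n + 1) → ℕ → ℝ) μ f := by
    unfold mc
    rw [col_addE]
    rfl
  rw [e]
  exact h

private theorem rsd_addE (τ : ℝ) (x : Elem M) (D : Dict M) (μ : ℝ) (hμ : 0 < μ) (k b : ℕ)
    (y : ℕ → A M) (f : ℕ → ℝ) (hx : x.lev < k) :
    rsd τ (addE x D) μ k b y f = rsd τ D μ k b y f := by
  have hz : ∀ t ∈ blk k b, colE τ x k b y t = 0 := by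
    intro t _
    unfold colE
    rw [if_neg]
    rintro ⟨h, _⟩
    omega
  have h := res_cons_zero (blk k b) (col τ D k b y) (colE τ x k b y) hz μ hμ f
  have e : rsd τ (addE x D) μ k b y f =
      res (blk k b) (Fin.cons (colE τ x k b y) (col τ D k b y) : Fin (D.n + 1) → ℕ → ℝ) μ f := by
    unfold rsd
    rw [col_addE]
    rfl
  rw [e]
  exact h

/-! ### rule and cost of one family -/

open Classical in
/-- the rule for one family at a block -/
private def Rl (τ lam : ℝ) (D : Dict M) (pos : A M → ℕ → A M) (H : A M → ℕ → ℝ)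
    (k b : ℕ) : Prop :=
  ∀ (q : ℕ × ℕ) (w : ℕ → ℝ),
    ∑ u : A M, (if cell k (pos u (b * 2 ^ k)) = q then
        ip (blk k b) (rsd τ D lam k b (pos u) (H u)) w ^ 2 else 0) ≤
      lam * 8 ^ k * ip (blk k b) w w

/-- the cost of one family at a block -/
private def Cs (τ lam : ℝ) (D : Dict M) (pos : A M → ℕ → A M) (H : A M → ℕ → ℝ)
    (k b : ℕ) : ℝ :=
  ∑ u : A M, mc τ D lam k b (pos u) (H u)

private theorem Cs_nonneg (τ lam : ℝ) (hl : 0 < lam) (D : Dict M) (pos : A M → ℕ → A M)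
    (H : A M → ℕ → ℝ) (k b : ℕ) : 0 ≤ Cs τ lam D pos H k b :=
  sum_nonneg fun u _ => mcs_nonneg _ _ _ hl _

private theorem Cs_addE_le (τ lam : ℝ) (hl : 0 < lam) (x : Elem M) (D : Dict M)
    (pos : A M → ℕ → A M) (H : A M → ℕ → ℝ) (k b : ℕ) :
    Cs τ lam (addE x D) pos H k b ≤ Cs τ lam D pos H k b :=
  sum_le_sum fun u _ => mc_addE_le τ x D lam hl k b _ _

private theorem dist_le_two (k b : ℕ) (y : ℕ → A M) (q : ℕ × ℕ)
    (hq : cell k (y (b * 2 ^ k)) = q) (w : ℕ → ℝ) :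
    0 ≤ (Elem.mk k b (((q.1 * 2 ^ k : ℕ) : ZMod M), ((q.2 * 4 ^ k : ℕ) : ZMod M)) w :
      Elem M).dist y ∧
    (Elem.mk k b (((q.1 * 2 ^ k : ℕ) : ZMod M), ((q.2 * 4 ^ k : ℕ) : ZMod M)) w :
      Elem M).dist y ≤ 2 := by
  set z : A M := y (b * 2 ^ k) with hz
  have h1 : z.1 - ((q.1 * 2 ^ k : ℕ) : ZMod M) = ((z.1.val % 2 ^ k : ℕ) : ZMod M) := by
    have e : z.1.val = q.1 * 2 ^ k + z.1.val % 2 ^ k := by
      rw [← hq]
      show z.1.val = z.1.val / 2 ^ k * 2 ^ k + z.1.val % 2 ^ k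
      rw [mul_comm]
      exact (Nat.div_add_mod _ _).symm
    have e2 : z.1 = ((z.1.val : ℕ) : ZMod M) := (ZMod.natCast_zmod_val z.1).symm
    have e3 : ((z.1.val : ℕ) : ZMod M) =
        ((q.1 * 2 ^ k : ℕ) : ZMod M) + ((z.1.val % 2 ^ k : ℕ) : ZMod M) := by
      rw [← Nat.cast_add, ← e]
    rw [sub_eq_iff_eq_add, add_comm]
    exact e2.trans e3
  have h2 : z.2 - ((q.2 * 4 ^ k : ℕ) : ZMod M) = ((z.2.val % 4 ^ k : ℕ) : ZMod M) := by
    have e : z.2.val = q.2 * 4 ^ k + z.2.val % 4 ^ k := by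
      rw [← hq]
      show z.2.val = z.2.val / 4 ^ k * 4 ^ k + z.2.val % 4 ^ k
      rw [mul_comm]
      exact (Nat.div_add_mod _ _).symm
    have e2 : z.2 = ((z.2.val : ℕ) : ZMod M) := (ZMod.natCast_zmod_val z.2).symm
    have e3 : ((z.2.val : ℕ) : ZMod M) =
        ((q.2 * 4 ^ k : ℕ) : ZMod M) + ((z.2.val % 4 ^ k : ℕ) : ZMod M) := by
      rw [← Nat.cast_add, ← e]
    rw [sub_eq_iff_eq_add, add_comm]
    exact e2.trans e3
  have e0 : (Elem.mk k b (((q.1 * 2 ^ k : ℕ) : ZMod M), ((q.2 * 4 ^ k : ℕ) : ZMod M)) w :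
      Elem M).dist y = az (((z.1.val % 2 ^ k : ℕ) : ZMod M)) / 2 ^ k
        + az (((z.2.val % 4 ^ k : ℕ) : ZMod M)) / 4 ^ k := by
    rw [← h1, ← h2]
    rfl
  rw [e0]
  have a1 : az (((z.1.val % 2 ^ k : ℕ) : ZMod M)) / 2 ^ k ≤ 1 := by
    rw [div_le_one (by positivity)]
    refine (az_nat_le _).trans ?_
    have := (Nat.mod_lt z.1.val (show 0 < 2 ^ k by positivity)).le
    exact_mod_cast this
  have a2 : az (((z.2.val % 4 ^ k : ℕ) : ZMod M)) / 4 ^ k ≤ 1 := by
    rw [div_le_one (by positivity)]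
    refine (az_nat_le _).trans ?_
    have := (Nat.mod_lt z.2.val (show 0 < 4 ^ k by positivity)).le
    exact_mod_cast this
  have b1 : 0 ≤ az (((z.1.val % 2 ^ k : ℕ) : ZMod M)) / 2 ^ k :=
    div_nonneg (az_nonneg _) (by positivity)
  have b2 : 0 ≤ az (((z.2.val % 4 ^ k : ℕ) : ZMod M)) / 4 ^ k :=
    div_nonneg (az_nonneg _) (by positivity)
  constructor <;> linarith

/-- if the rule fails, a new element lowers the cost -/
private theorem fail_step (τ lam : ℝ) (hl : 0 < lam) (hl1 : lam ≤ 1) (h0 : 0 < τ)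
    (h1 : τ ≤ 1 / 10) (D : Dict M) (pos : A M → ℕ → A M) (H : A M → ℕ → ℝ) (k b : ℕ)
    (hf : ¬ Rl τ lam D pos H k b) :
    ∃ x : Elem M, x.lev = k ∧ x.blk = b ∧ ip (blk k b) x.psi x.psi ≤ 1 ∧
      Cs τ lam (addE x D) pos H k b ≤ Cs τ lam D pos H k b - lam * 8 ^ k / 3 := by
  classical
  unfold Rl at hf
  push Not at hf
  obtain ⟨q, w, hqw⟩ := hf
  set J := blk k b with hJ
  have hw0 : 0 < ip J w w := by
    rcases (ip_self_nonneg J w).lt_or_eq with h | h
    · exact h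
    · exfalso
      have hs : ∑ u : A M, (if cell k (pos u (b * 2 ^ k)) = q then
          ip J (rsd τ D lam k b (pos u) (H u)) w ^ 2 else 0) ≤ 0 := by
        refine sum_nonpos fun u _ => ?_
        split_ifs
        · have h2 := ip_cs J (rsd τ D lam k b (pos u) (H u)) w
          rw [← h, mul_zero] at h2
          exact h2
        · exact le_rfl
      rw [← h, mul_zero] at hqw
      linarith
  set c : ℝ := 1 / Real.sqrt (ip J w w) with hc
  have hc2 : c ^ 2 * ip J w w = 1 := by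
    rw [hc, div_pow, one_pow, Real.sq_sqrt hw0.le]
    field_simp
  set w' : ℕ → ℝ := fun t => c * w t with hw'
  have hip : ∀ f : ℕ → ℝ, ip J w' f = c * ip J w f := fun f => ip_smul_left J c w f
  have hww : ip J w' w' = 1 := by
    rw [hip, ip_comm, hip, ← mul_assoc, ← sq]
    exact hc2
  set x : Elem M := ⟨k, b, (((q.1 * 2 ^ k : ℕ) : ZMod M), ((q.2 * 4 ^ k : ℕ) : ZMod M)), w'⟩
    with hx
  refine ⟨x, rfl, rfl, by rw [show x.psi = w' from rfl, hww], ?_⟩
  have hterm : ∀ u : A M, mc τ (addE x D) lam k b (pos u) (H u) ≤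
      mc τ D lam k b (pos u) (H u) - (if cell k (pos u (b * 2 ^ k)) = q then
        ip J (rsd τ D lam k b (pos u) (H u)) w ^ 2 else 0) * (c ^ 2 / 3) := by
    intro u
    by_cases hu : cell k (pos u (b * 2 ^ k)) = q
    · rw [if_pos hu]
      have hd := dist_le_two k b (pos u) q hu w'
      have hdr := mc_addE_drop τ x D lam hl k b (pos u) (H u)
      set a : ℝ := Real.exp (-(τ / 2) * x.dist (pos u)) with ha
      have hcol : colE τ x k b (pos u) = fun t => a * w' t := by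
        funext t
        unfold colE
        rw [if_pos]
        refine ⟨le_rfl, ?_⟩
        show b / 2 ^ (k - k) = b
        simp
      have hip2 : ∀ f : ℕ → ℝ, ip J (colE τ x k b (pos u)) f = a * (c * ip J w f) := by
        intro f
        rw [hcol, ← hip]
        exact ip_smul_left J a w' f
      have hself : ip J (colE τ x k b (pos u)) (colE τ x k b (pos u)) = a ^ 2 := by
        have e1 : ip J (fun t => a * w' t) (fun t => a * w' t) = a * (a * ip J w' w') := by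
          rw [ip_smul_left J a w' (fun t => a * w' t), ip_comm J w' (fun t => a * w' t),
            ip_smul_left J a w' w']
        rw [hcol, e1, hww]
        ring
      rw [← hJ, hip2, hself] at hdr
      have ha9 : 9 / 10 ≤ a := by
        have e1 : 1 + (-(τ / 2) * x.dist (pos u)) ≤ a := by
          have := Real.add_one_le_exp (-(τ / 2) * x.dist (pos u))
          rw [← ha] at this
          linarith
        have e2 : τ / 2 * x.dist (pos u) ≤ τ := by
          have := hd.2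
          have h3 : x.dist (pos u) ≤ 2 := this
          nlinarith
        have e3 : -(τ / 2) * x.dist (pos u) = - (τ / 2 * x.dist (pos u)) := by ring
        rw [e3] at e1
        linarith
      have hfr : 1 / 3 ≤ a ^ 2 / (a ^ 2 + lam) := by
        rw [div_le_div_iff₀ (by norm_num) (by positivity)]
        nlinarith
      have e4 : (a * (c * ip J w (rsd τ D lam k b (pos u) (H u)))) ^ 2 / (a ^ 2 + lam) =
          a ^ 2 / (a ^ 2 + lam) *
            (ip J (rsd τ D lam k b (pos u) (H u)) w ^ 2 * c ^ 2) := by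
        rw [ip_comm J w]
        ring
      rw [e4] at hdr
      have e5 : 0 ≤ ip J (rsd τ D lam k b (pos u) (H u)) w ^ 2 * c ^ 2 := by positivity
      have e6 := mul_le_mul_of_nonneg_right hfr e5
      calc mc τ (addE x D) lam k b (pos u) (H u) ≤ _ := hdr
        _ ≤ _ := by linarith
    · rw [if_neg hu, zero_mul, sub_zero]
      exact mc_addE_le τ x D lam hl k b _ _
  have hsum := sum_le_sum fun u (_ : u ∈ (univ : Finset (A M))) => hterm u
  rw [sum_sub_distrib, ← sum_mul] at hsum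
  have hcp : 0 < c ^ 2 / 3 := by
    have : 0 < c := by rw [hc]; positivity
    positivity
  have h7 := mul_lt_mul_of_pos_right hqw hcp
  have h8 : lam * 8 ^ k * ip J w w * (c ^ 2 / 3) = lam * 8 ^ k / 3 := by
    have : lam * 8 ^ k * ip J w w * (c ^ 2 / 3) = lam * 8 ^ k * (c ^ 2 * ip J w w) / 3 := by ring
    rw [this, hc2, mul_one]
  rw [h8] at h7
  unfold Cs
  linarith

/-- total cost at level `k` -/
private def Pk (K : ℕ) (F G : A M → ℕ → ℝ) (τ lam : ℝ) (D : Dict M) (k : ℕ) : ℝ :=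
  ∑ b ∈ range (2 ^ (K - k)), (Cs τ lam D pT F k b + Cs τ lam D pS G k b)

private theorem Pk_nonneg (K : ℕ) (F G : A M → ℕ → ℝ) (τ lam : ℝ) (hl : 0 < lam) (D : Dict M)
    (k : ℕ) : 0 ≤ Pk K F G τ lam D k :=
  sum_nonneg fun b _ => add_nonneg (Cs_nonneg τ lam hl D pT F k b)
    (Cs_nonneg τ lam hl D pS G k b)

private theorem Pk_addE (K : ℕ) (F G : A M → ℕ → ℝ) (τ lam : ℝ) (hl : 0 < lam)
    (x : Elem M) (D : Dict M) (k b : ℕ) (hb : b < 2 ^ (K - k)) (δ : ℝ)
    (h : Cs τ lam (addE x D) pT F k b ≤ Cs τ lam D pT F k b - δ ∨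
      Cs τ lam (addE x D) pS G k b ≤ Cs τ lam D pS G k b - δ) :
    Pk K F G τ lam (addE x D) k ≤ Pk K F G τ lam D k - δ := by
  have hb' : b ∈ range (2 ^ (K - k)) := mem_range.2 hb
  unfold Pk
  rw [← add_sum_erase _ _ hb', ← add_sum_erase (range (2 ^ (K - k)))
    (fun b => Cs τ lam D pT F k b + Cs τ lam D pS G k b) hb']
  have h1 : ∑ x_1 ∈ (range (2 ^ (K - k))).erase b,
      (Cs τ lam (addE x D) pT F k x_1 + Cs τ lam (addE x D) pS G k x_1) ≤
      ∑ x_1 ∈ (range (2 ^ (K - k))).erase b,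
      (Cs τ lam D pT F k x_1 + Cs τ lam D pS G k x_1) :=
    sum_le_sum fun b' _ => add_le_add (Cs_addE_le τ lam hl x D pT F k b')
      (Cs_addE_le τ lam hl x D pS G k b')
  have h2 := Cs_addE_le τ lam hl x D pT F k b
  have h3 := Cs_addE_le τ lam hl x D pS G k b
  rcases h with h | h <;> linarith

/-- weight of a dictionary -/
private def Wt (D : Dict M) : ℝ := ∑ i, (8 : ℝ) ^ (D.el i).lev * 2 ^ (D.el i).lev

private theorem Wt_addE (x : Elem M) (D : Dict M) :
    Wt (addE x D) = (8 : ℝ) ^ x.lev * 2 ^ x.lev + Wt D := by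
  unfold Wt
  show ∑ i : Fin (D.n + 1), (8 : ℝ) ^ ((Fin.cons x D.el : Fin (D.n + 1) → Elem M) i).lev *
    2 ^ ((Fin.cons x D.el : Fin (D.n + 1) → Elem M) i).lev = _
  rw [Fin.sum_univ_succ]
  simp only [Fin.cons_zero, Fin.cons_succ]

private theorem Wt_ge (D : Dict M) : (D.n : ℝ) ≤ Wt D := by
  unfold Wt
  have h : ∑ i : Fin D.n, (1 : ℝ) ≤ ∑ i, (8 : ℝ) ^ (D.el i).lev * 2 ^ (D.el i).lev := by
    refine sum_le_sum fun i _ => ?_
    have h1 : (1 : ℝ) ≤ 8 ^ (D.el i).lev := one_le_pow₀ (by norm_num)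
    have h2 : (1 : ℝ) ≤ 2 ^ (D.el i).lev := one_le_pow₀ (by norm_num)
    nlinarith
  simpa using h

/-- invariant: levels at least `lo`, rules at the levels in `[r, K]`, weight bound at level `k` -/
private structure Good (K : ℕ) (F G : A M → ℕ → ℝ) (τ lam : ℝ) (r k : ℕ) (D : Dict M) :
    Prop where
  lev_le : ∀ i, (D.el i).lev ≤ K
  blk_lt : ∀ i, (D.el i).blk < 2 ^ (K - (D.el i).lev)
  unit : ∀ i, ip (blk (D.el i).lev (D.el i).blk) (D.el i).psi (D.el i).psi ≤ 1
  ruleT : ∀ j, r ≤ j → j ≤ K → ∀ b < 2 ^ (K - j), Rl τ lam D pT F j b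
  ruleS : ∀ j, r ≤ j → j ≤ K → ∀ b < 2 ^ (K - j), Rl τ lam D pS G j b
  wt : lam / 3 * Wt D + 2 ^ k * Pk K F G τ lam D k ≤ 2 * 2 ^ K * (M : ℝ) ^ 2

/-- one more element -/
private theorem good_add (K : ℕ) (F G : A M → ℕ → ℝ) (τ lam : ℝ) (hl : 0 < lam) (hl1 : lam ≤ 1)
    (h0 : 0 < τ) (h1 : τ ≤ 1 / 10) (k : ℕ) (hk : k ≤ K) (D : Dict M)
    (hD : Good K F G τ lam (k + 1) k D) (hn : ¬ Good K F G τ lam k k D) :
    ∃ D' : Dict M, Good K F G τ lam (k + 1) k D' ∧ D'.n = D.n + 1 := by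
  have hfail : ∃ b < 2 ^ (K - k), ¬ Rl τ lam D pT F k b ∨ ¬ Rl τ lam D pS G k b := by
    by_contra hcon
    push Not at hcon
    apply hn
    refine ⟨hD.lev_le, hD.blk_lt, hD.unit, ?_, ?_, hD.wt⟩
    · intro j hj hjK b hb
      rcases hj.eq_or_lt with rfl | hj
      · exact (hcon b hb).1
      · exact hD.ruleT j hj hjK b hb
    · intro j hj hjK b hb
      rcases hj.eq_or_lt with rfl | hj
      · exact (hcon b hb).2
      · exact hD.ruleS j hj hjK b hb
  obtain ⟨b, hb, hor⟩ := hfail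
  have hx : ∃ x : Elem M, x.lev = k ∧ x.blk = b ∧ ip (blk k b) x.psi x.psi ≤ 1 ∧
      (Cs τ lam (addE x D) pT F k b ≤ Cs τ lam D pT F k b - lam * 8 ^ k / 3 ∨
      Cs τ lam (addE x D) pS G k b ≤ Cs τ lam D pS G k b - lam * 8 ^ k / 3) := by
    rcases hor with h | h
    · obtain ⟨x, e1, e2, e3, e4⟩ := fail_step τ lam hl hl1 h0 h1 D pT F k b h
      exact ⟨x, e1, e2, e3, Or.inl e4⟩
    · obtain ⟨x, e1, e2, e3, e4⟩ := fail_step τ lam hl hl1 h0 h1 D pS G k b h
      exact ⟨x, e1, e2, e3, Or.inr e4⟩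
  obtain ⟨x, e1, e2, e3, e4⟩ := hx
  have hP := Pk_addE K F G τ lam hl x D k b hb (lam * 8 ^ k / 3) e4
  have hrule : ∀ (pos : A M → ℕ → A M) (H : A M → ℕ → ℝ) (j b' : ℕ), k + 1 ≤ j →
      Rl τ lam D pos H j b' → Rl τ lam (addE x D) pos H j b' := by
    intro pos H j b' hj hR q w
    have h2 := hR q w
    have h3 : ∀ u : A M, rsd τ (addE x D) lam j b' (pos u) (H u) =
        rsd τ D lam j b' (pos u) (H u) := fun u =>
      rsd_addE τ x D lam hl j b' (pos u) (H u) (by omega)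
    simp only [h3]
    exact h2
  refine ⟨addE x D, ⟨?_, ?_, ?_, ?_, ?_, ?_⟩, rfl⟩
  · intro i
    refine Fin.cases ?_ (fun j => ?_) i
    · show x.lev ≤ K
      omega
    · exact hD.lev_le j
  · intro i
    refine Fin.cases ?_ (fun j => ?_) i
    · show x.blk < 2 ^ (K - x.lev)
      rw [e1, e2]
      exact hb
    · exact hD.blk_lt j
  · intro i
    refine Fin.cases ?_ (fun j => ?_) i
    · show ip (blk x.lev x.blk) x.psi x.psi ≤ 1
      rw [e1, e2]
      exact e3
    · exact hD.unit j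
  · intro j hj hjK b' hb'
    exact hrule pT F j b' hj (hD.ruleT j hj hjK b' hb')
  · intro j hj hjK b' hb'
    exact hrule pS G j b' hj (hD.ruleS j hj hjK b' hb')
  · rw [Wt_addE, e1]
    have h5 := hD.wt
    have h6 : (2 : ℝ) ^ k * Pk K F G τ lam (addE x D) k ≤
        2 ^ k * (Pk K F G τ lam D k - lam * 8 ^ k / 3) :=
      mul_le_mul_of_nonneg_left hP (by positivity)
    have h7 : (2 : ℝ) ^ k * (Pk K F G τ lam D k - lam * 8 ^ k / 3) =
        2 ^ k * Pk K F G τ lam D k - lam / 3 * (8 ^ k * 2 ^ k) := by ring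
    rw [h7] at h6
    linarith

/-- one level -/
private theorem good_level (K : ℕ) (F G : A M → ℕ → ℝ) (τ lam : ℝ) (hl : 0 < lam)
    (hl1 : lam ≤ 1) (h0 : 0 < τ) (h1 : τ ≤ 1 / 10) (k : ℕ) (hk : k ≤ K) (D : Dict M)
    (hD : Good K F G τ lam (k + 1) k D) : ∃ D' : Dict M, Good K F G τ lam k k D' := by
  by_contra hcon
  push Not at hcon
  have hall : ∀ n : ℕ, ∃ D' : Dict M, Good K F G τ lam (k + 1) k D' ∧ n ≤ D'.n := by
    intro n
    induction n with
    | zero => exact ⟨D, hD, Nat.zero_le _⟩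
    | succ n ih =>
      obtain ⟨D', h2, h3⟩ := ih
      obtain ⟨D2, h4, h5⟩ := good_add K F G τ lam hl hl1 h0 h1 k hk D' h2 (hcon D')
      exact ⟨D2, h4, by omega⟩
  obtain ⟨n, hn⟩ := exists_nat_gt (6 * 2 ^ K * (M : ℝ) ^ 2 / lam)
  obtain ⟨D', h2, h3⟩ := hall n
  have h4 := h2.wt
  have h5 := Wt_ge D'
  have h6 : (0 : ℝ) ≤ 2 ^ k * Pk K F G τ lam D' k :=
    mul_nonneg (by positivity) (Pk_nonneg K F G τ lam hl D' k)
  have h7 : (n : ℝ) ≤ D'.n := by exact_mod_cast h3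
  rw [div_lt_iff₀ hl] at hn
  have h8 : lam / 3 * (n : ℝ) ≤ lam / 3 * Wt D' :=
    mul_le_mul_of_nonneg_left (h7.trans h5) (by positivity)
  nlinarith

/-- the cost of the children -/
private theorem Pk_child (K : ℕ) (F G : A M → ℕ → ℝ) (τ lam : ℝ) (hl : 0 < lam) (D : Dict M)
    (k : ℕ) (hk : k + 1 ≤ K) : Pk K F G τ lam D k ≤ 2 * Pk K F G τ lam D (k + 1) := by
  have hmc : ∀ (y : ℕ → A M) (f : ℕ → ℝ) (b : ℕ),
      mc τ D lam k (2 * b) y f + mc τ D lam k (2 * b + 1) y f ≤ 2 * mc τ D lam (k + 1) b y f := by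
    intro y f b
    have h1 := cst_children τ D lam k b y f (xi τ D lam (k + 1) b y f)
      (fun i hi => xi_supp τ D lam hl (k + 1) b y f i hi)
    have h2 := mcs_le_cst (blk k (2 * b)) (col τ D k (2 * b) y) lam hl f
      (xi τ D lam (k + 1) b y f)
    have h3 := mcs_le_cst (blk k (2 * b + 1)) (col τ D k (2 * b + 1) y) lam hl f
      (xi τ D lam (k + 1) b y f)
    have h4 : mc τ D lam (k + 1) b y f =
        cst (blk (k + 1) b) (col τ D (k + 1) b y) lam f (xi τ D lam (k + 1) b y f) := rfl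
    rw [h4, ← h1]
    unfold mc
    linarith
  have hCs : ∀ (pos : A M → ℕ → A M) (H : A M → ℕ → ℝ) (b : ℕ),
      Cs τ lam D pos H k (2 * b) + Cs τ lam D pos H k (2 * b + 1) ≤
        2 * Cs τ lam D pos H (k + 1) b := by
    intro pos H b
    unfold Cs
    rw [← sum_add_distrib, mul_sum]
    exact sum_le_sum fun u _ => hmc (pos u) (H u) b
  have hr : ∀ (n : ℕ) (φ : ℕ → ℝ), ∑ b ∈ range (2 * n), φ b =
      ∑ b ∈ range n, (φ (2 * b) + φ (2 * b + 1)) := by
    intro n φ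
    induction n with
    | zero => simp
    | succ n ih =>
      rw [show 2 * (n + 1) = 2 * n + 1 + 1 by ring, sum_range_succ, sum_range_succ, ih,
        sum_range_succ]
      ring
  have hp : 2 ^ (K - k) = 2 * 2 ^ (K - (k + 1)) := by
    rw [← pow_succ']
    congr 1
    omega
  unfold Pk
  rw [hp, hr, mul_sum]
  refine sum_le_sum fun b _ => ?_
  have h1 := hCs pT F b
  have h2 := hCs pS G b
  linarith

private theorem good_exists (K : ℕ) (F G : A M → ℕ → ℝ) (hF : ∀ u t, |F u t| ≤ 1)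
    (hG : ∀ u t, |G u t| ≤ 1) (lam τ : ℝ) (hl : 0 < lam) (hl1 : lam ≤ 1) (h0 : 0 < τ)
    (h1 : τ ≤ 1 / 10) (j : ℕ) (hj : j ≤ K) :
    ∃ D : Dict M, Good K F G τ lam (K - j) (K - j) D := by
  induction j with
  | zero =>
    refine good_level K F G τ lam hl hl1 h0 h1 (K - 0) (by omega) ⟨0, Fin.elim0⟩
      ⟨fun i => i.elim0, fun i => i.elim0, fun i => i.elim0, ?_, ?_, ?_⟩
    · intro j hj hjK
      omega
    · intro j hj hjK
      omega
    · have hW : Wt (⟨0, Fin.elim0⟩ : Dict M) = 0 := by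
        unfold Wt
        exact Finset.sum_of_isEmpty _
      have hc : ∀ (pos : A M → ℕ → A M) (H : A M → ℕ → ℝ), (∀ u t, |H u t| ≤ 1) →
          Cs τ lam (⟨0, Fin.elim0⟩ : Dict M) pos H K 0 ≤ (M : ℝ) ^ 2 := by
        intro pos H hH
        unfold Cs
        calc ∑ u : A M, mc τ (⟨0, Fin.elim0⟩ : Dict M) lam K 0 (pos u) (H u)
            ≤ ∑ u : A M, (1 : ℝ) := by
              refine sum_le_sum fun u _ => ?_
              exact (mcs_le _ _ _ hl _).trans (ip_le_one _ _ (hH u))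
          _ = (M : ℝ) ^ 2 := by
              rw [sum_const, card_univ, Fintype.card_prod, ZMod.card]
              simp [sq]
      have hT := hc pT F hF
      have hS := hc pS G hG
      have hP : Pk K F G τ lam (⟨0, Fin.elim0⟩ : Dict M) (K - 0) ≤ 2 * (M : ℝ) ^ 2 := by
        unfold Pk
        rw [Nat.sub_zero, Nat.sub_self, pow_zero, sum_range_one]
        linarith
      rw [hW, mul_zero, zero_add]
      have h9 : (2 : ℝ) ^ (K - 0) * Pk K F G τ lam (⟨0, Fin.elim0⟩ : Dict M) (K - 0) ≤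
          2 ^ (K - 0) * (2 * (M : ℝ) ^ 2) := mul_le_mul_of_nonneg_left hP (by positivity)
      rw [Nat.sub_zero] at h9 ⊢
      linarith
  | succ j ih =>
    obtain ⟨D, hD⟩ := ih (by omega)
    have ek : K - j = K - (j + 1) + 1 := by omega
    rw [ek] at hD
    refine good_level K F G τ lam hl hl1 h0 h1 (K - (j + 1)) (by omega) D
      ⟨hD.lev_le, hD.blk_lt, hD.unit, hD.ruleT, hD.ruleS, ?_⟩
    have h2 := hD.wt
    have h3 := Pk_child K F G τ lam hl D (K - (j + 1)) (by omega)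
    have h4 : (2 : ℝ) ^ (K - (j + 1)) * Pk K F G τ lam D (K - (j + 1)) ≤
        2 ^ (K - (j + 1)) * (2 * Pk K F G τ lam D (K - (j + 1) + 1)) :=
      mul_le_mul_of_nonneg_left h3 (by positivity)
    have h5 : (2 : ℝ) ^ (K - (j + 1)) * (2 * Pk K F G τ lam D (K - (j + 1) + 1)) =
        2 ^ (K - (j + 1) + 1) * Pk K F G τ lam D (K - (j + 1) + 1) := by
      rw [pow_succ]
      ring
    rw [h5] at h4
    linarith

theorem sys_exists (K : ℕ) (F G : A M → ℕ → ℝ) (hF : ∀ u t, |F u t| ≤ 1)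
    (hG : ∀ u t, |G u t| ≤ 1) (lam τ : ℝ) (hl : 0 < lam) (hl1 : lam ≤ 1) (h0 : 0 < τ)
    (h1 : τ ≤ 1 / 10) : ∃ D : Dict M, IsSys K F G lam τ D := by
  obtain ⟨D, hD⟩ := good_exists K F G hF hG lam τ hl hl1 h0 h1 K le_rfl
  rw [Nat.sub_self] at hD
  refine ⟨D, hD.lev_le, hD.blk_lt, hD.unit, ?_, ?_, ?_⟩
  · intro k hk b hb
    exact hD.ruleT k (Nat.zero_le _) hk b hb
  · intro k hk b hb
    exact hD.ruleS k (Nat.zero_le _) hk b hb
  · have h2 := hD.wt
    have h3 : (0 : ℝ) ≤ 2 ^ 0 * Pk K F G τ lam D 0 :=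
      mul_nonneg (by positivity) (Pk_nonneg K F G τ lam hl D 0)
    have hM : (0 : ℝ) < (M : ℝ) ^ 2 * 2 ^ K := by
      have : (0 : ℝ) < M := by
        exact_mod_cast Nat.pos_of_ne_zero (NeZero.ne M)
      positivity
    have h4 : budget K D = Wt D / ((M : ℝ) ^ 2 * 2 ^ K) := by
      unfold budget Wt
      rw [sum_div]
    rw [h4, div_le_div_iff₀ hM hl]
    nlinarith

end

end NP2
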