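import Pool.Agent.NP2.EndFin
import Pool.Agent.PWZ.NilFinal

/-!
# NP2 / GrpE3 : functions on which a normal subgroup acts by an invariant character

`N` a normal subgroup of `G`.  `EigL G N h χ`, `EigN μ G N h`, `InN μ G N f`: as `EigG`, `EigFun`,
`InE` of `PWZ`, with `N` in place of the commutator subgroup.

Group part: in any group, with `z = ⁅T, S⁆⁻¹`, `T^c p_u = S^c p_(u + th c) κ` with
`κ ∈ low3 G = ⁅G, ⁅G, G⁆⁆` (`kappa_mem`), hence along linear sequences the product of two functions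
splits, as soon as the second one is an eigenfunction of `low3 G` (`split3_of_eig`).
-/

set_option autoImplicit false

namespace NP2
open Finset MeasureTheory Filter Topology Pool.PWZ
open scoped ENNReal commutatorElement

section grp
variable {G : Type} [Group G]

/-- `T^c p_u` and `S^c p_(u + th c)` agree modulo the third term of the lower central series -/
theorem kappa_mem (T S : G) (c : ℕ) (n m : ℤ) :
    (S ^ c * pe T S ⁅T, S⁆⁻¹ (n + c) (m + c.choose 2))⁻¹ * (T ^ c * pe T S ⁅T, S⁆⁻¹ n m) ∈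
      low3 G := by
  let π := QuotientGroup.mk' (low3 G)
  have hz : ∀ g : G ⧸ low3 G, Commute ⁅π T, π S⁆⁻¹ g := fun g =>
    (quot_central G _ (Subgroup.commutator_mem_commutator (Subgroup.mem_top _)
      (Subgroup.mem_top _)) g).inv_left
  have h := grp_key (comm_inv_eq (π T) (π S)) (hz _) (hz _) c n m
  have hpe : ∀ n m : ℤ, pe (π T) (π S) ⁅π T, π S⁆⁻¹ n m = π (pe T S ⁅T, S⁆⁻¹ n m) := by
    intro n m
    unfold pe
    rw [← map_commutatorElement]
    simp only [map_mul, map_zpow, map_inv]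
  rw [hpe, hpe, ← map_pow, ← map_pow, ← map_mul, ← map_mul] at h
  exact QuotientGroup.eq.1 h

end grp

variable {X : Type}

/-- pointwise version of the eigenfunction property -/
structure EigL (G : Subgroup (Equiv.Perm X)) (N : Subgroup G) (h : X → ℂ) (χ : G → ℂ) : Prop where
  norm : ∀ ν ∈ N, ‖χ ν‖ ≤ 1
  eig : ∀ (γ ν : G), ν ∈ N → ∀ y, h (((γ * ν : G) : Equiv.Perm X) y) =
    χ ν * h ((γ : Equiv.Perm X) y)

/-- eigenfunctions of the commutator subgroup are invariant under the third term -/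
lemma EigL.of_eigG {G : Subgroup (Equiv.Perm X)} {h : X → ℂ} {χ : G → ℂ} (H : EigG G h χ) :
    EigL G (low3 G) h fun _ => 1 :=
  ⟨fun _ _ => by simp, fun γ ν hν y => by rw [one_mul]; exact H.inv3 ν hν γ y⟩

/-- the coercion of `pe` -/
lemma coe_pe {G : Subgroup (Equiv.Perm X)} (T S z : G) (n m : ℤ) :
    ((pe T S z n m : G) : Equiv.Perm X) =
      pe (T : Equiv.Perm X) (S : Equiv.Perm X) (z : Equiv.Perm X) n m := by
  unfold pe
  push_cast
  rfl

/-- the splitting lemma -/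
theorem split3_of_eig {G : Subgroup (Equiv.Perm X)} {f₁ f₂ : X → ℂ} {χ : G → ℂ}
    (H : EigL G (low3 G) f₂ χ) (T S : G) {s₁ s₂ : ℤ → Equiv.Perm X}
    (h₁ : LinSeq s₁ f₁ (T : Equiv.Perm X)) (h₂ : LinSeq s₂ f₂ (S : Equiv.Perm X))
    (hf₁ : ∀ x, ‖f₁ x‖ ≤ 1) (hf₂ : ∀ x, ‖f₂ x‖ ≤ 1) (x : X) :
    ∃ (θ : ℤ → ℤ → ℕ → ℂ) (F K : ℤ → ℤ → ℤ → ℂ), (∀ n m c, ‖θ n m c‖ ≤ 1) ∧
      (∀ n m t, ‖F n m t‖ ≤ 1) ∧ (∀ n m t, ‖K n m t‖ ≤ 1) ∧ ∀ (n m : ℤ) (c : ℕ) (w : ℤ),
        f₁ (s₁ w (((T ^ c * pe T S ⁅T, S⁆⁻¹ n m : G) : Equiv.Perm X) x)) *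
          f₂ (s₂ w (((T ^ c * pe T S ⁅T, S⁆⁻¹ n m : G) : Equiv.Perm X) x)) =
        θ n m c * F n m (c + w) * K (n + c) (m + c.choose 2) (c + w) := by
  obtain ⟨A, B, C, hA, hB, hC, e₁⟩ := h₁
  obtain ⟨A', B', C', hA', hB', hC', e₂⟩ := h₂
  let p : ℤ → ℤ → G := fun n m => pe T S ⁅T, S⁆⁻¹ n m
  let κ : ℤ → ℤ → ℕ → G := fun n m c => (S ^ c * p (n + c) (m + c.choose 2))⁻¹ * (T ^ c * p n m)
  have hκ : ∀ n m c, κ n m c ∈ low3 G := fun n m c => kappa_mem T S c n m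
  refine ⟨fun n m c => C (-n) (n + c) * C' (-n) (n + c) * χ (κ n m c),
    fun n m t => A (-n) t * A' (-n) t * f₁ (((T ^ t * p n m : G) : Equiv.Perm X) x),
    fun n m t => B n t * B' n t * f₂ (((S ^ t * p n m : G) : Equiv.Perm X) x),
    ?_, ?_, ?_, ?_⟩
  · intro n m c
    rw [norm_mul, norm_mul]
    exact mul_le_one₀ (mul_le_one₀ (hC _ _) (norm_nonneg _) (hC' _ _)) (norm_nonneg _)
      (H.norm _ (hκ n m c))
  · intro n m t
    rw [norm_mul, norm_mul]
    exact mul_le_one₀ (mul_le_one₀ (hA _ _) (norm_nonneg _) (hA' _ _)) (norm_nonneg _) (hf₁ _)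
  · intro n m t
    rw [norm_mul, norm_mul]
    exact mul_le_one₀ (mul_le_one₀ (hB _ _) (norm_nonneg _) (hB' _ _)) (norm_nonneg _) (hf₂ _)
  · intro n m c w
    rw [e₁ (-n) (n + c) w, e₂ (-n) (n + c) w]
    have e0 : -n + (n + (c : ℤ)) + w = (c : ℤ) + w := by ring
    rw [e0]
    have g1 : ((T : Equiv.Perm X) ^ w) (((T ^ c * p n m : G) : Equiv.Perm X) x) =
        ((T ^ ((c : ℤ) + w) * p n m : G) : Equiv.Perm X) x := by
      rw [← Subgroup.coe_zpow, ← Equiv.Perm.mul_apply, ← Subgroup.coe_mul, ← mul_assoc,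
        ← zpow_natCast T c, ← zpow_add, add_comm w]
    have g2 : f₂ (((S : Equiv.Perm X) ^ w) (((T ^ c * p n m : G) : Equiv.Perm X) x)) =
        χ (κ n m c) *
          f₂ (((S ^ ((c : ℤ) + w) * p (n + c) (m + c.choose 2) : G) : Equiv.Perm X) x) := by
      rw [← H.eig _ _ (hκ n m c) x, ← Subgroup.coe_zpow, ← Equiv.Perm.mul_apply,
        ← Subgroup.coe_mul]
      congr 3
      show S ^ w * (T ^ c * p n m) = S ^ ((c : ℤ) + w) * p (n + c) (m + c.choose 2) *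
        ((S ^ c * p (n + c) (m + c.choose 2))⁻¹ * (T ^ c * p n m))
      rw [add_comm (c : ℤ) w, zpow_add, zpow_natCast S c]
      simp only [mul_assoc, mul_inv_rev, mul_inv_cancel_left]
    have g3 : A (-n) (c + w) * B (n + c) (c + w) * C (-n) (n + c) *
        f₁ (((T : Equiv.Perm X) ^ w) (((T ^ c * p n m : G) : Equiv.Perm X) x)) *
        (A' (-n) (c + w) * B' (n + c) (c + w) * C' (-n) (n + c) *
        f₂ (((S : Equiv.Perm X) ^ w) (((T ^ c * p n m : G) : Equiv.Perm X) x))) =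
        (C (-n) (n + c) * C' (-n) (n + c) * χ (κ n m c)) *
        (A (-n) (c + w) * A' (-n) (c + w) *
          f₁ (((T ^ ((c : ℤ) + w) * p n m : G) : Equiv.Perm X) x)) *
        (B (n + c) (c + w) * B' (n + c) (c + w) *
          f₂ (((S ^ ((c : ℤ) + w) * p (n + c) (m + c.choose 2) : G) : Equiv.Perm X) x)) := by
      rw [g1, g2]
      ring
    exact g3

end NP2
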