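import Pool.Agent.NP2.Defs

/-!
# NP2 / Ker : the slowly varying averages

`az x` is the distance of `x : ZMod M` to `0`; `nm k y = |y_1|/(Lam 2^k) + |y_2|/(Lam 2^k)^2`;
`av k l f u` is the average of `f (u + δ)` with the weights `exp (- nm k (co M l δ))`.
`co M l` is an additive bijection of `A M`.

* `az_add_le`, `az_neg`, `az_mul_le`: subadditivity (`ZMod.natAbs_valMinAbs_add_le` or direct).
* `sum_exp_le` : `∑_x exp(-|x|/a) ≤ 3 a` for `a ≥ 1` (each value of `|x|` is taken at most twice:
  `1 + 2/(e^{1/a} - 1) ≤ 1 + 2a`), and trivially `≤ M`.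
* `av_mass` : `#{x : |x| ≤ t} ≥ min(M, t)`; with `a = Lam 2^k` the product of the two
  coordinate ratios is at least `1/12^2`, times `e^{-1/2}`.
-/

namespace NP2
open Finset

noncomputable section

variable {M : ℕ} [NeZero M]

/-- the width constant -/
def Lam : ℝ := 131072

/-- the amplitude constant -/
def D0 : ℝ := 2000

/-- distance to zero in `ZMod M` -/
def az (x : ZMod M) : ℝ := (x.valMinAbs.natAbs : ℝ)

/-- norm of coordinates at level `k` -/
def nm (k : ℕ) (y : A M) : ℝ := az y.1 / (Lam * 2 ^ k) + az y.2 / (Lam * 2 ^ k) ^ 2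

/-- normalisation -/
def kz (M k : ℕ) [NeZero M] : ℝ := ∑ y : A M, Real.exp (-nm k y)

/-- weighted average at level `k`, left end `l` -/
def av (k l : ℕ) (f : A M → ℝ) (u : A M) : ℝ :=
  (∑ δ : A M, Real.exp (-nm k (co M l δ)) * f (u + δ)) / kz M k

theorem az_nonneg (x : ZMod M) : 0 ≤ az x := by
  unfold az; positivity

theorem az_zero : az (0 : ZMod M) = 0 := by
  simp [az]

theorem az_neg (x : ZMod M) : az (-x) = az x := by
  simp [az]

theorem az_add_le (x y : ZMod M) : az (x + y) ≤ az x + az y := by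
  unfold az
  have h1 := ZMod.natAbs_valMinAbs_add_le x y
  have h2 := Int.natAbs_add_le x.valMinAbs y.valMinAbs
  exact_mod_cast h1.trans h2

theorem az_nat_le (n : ℕ) : az ((n : ℕ) : ZMod M) ≤ n := by
  unfold az
  rw [ZMod.valMinAbs_natAbs_eq_min]
  have h1 : min ((n : ZMod M)).val (M - ((n : ZMod M)).val) ≤ n := by
    refine (min_le_left _ _).trans ?_
    rw [ZMod.val_natCast]
    exact Nat.mod_le _ _
  exact_mod_cast h1

theorem az_int_le (n : ℤ) : az ((n : ℤ) : ZMod M) ≤ |(n : ℝ)| := by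
  rcases Int.eq_nat_or_neg n with ⟨m, rfl | rfl⟩
  · simpa using az_nat_le (M := M) m
  · have := az_nat_le (M := M) m
    rw [Int.cast_neg, az_neg]
    simpa using this

theorem az_mul_le (n : ℕ) (x : ZMod M) : az ((n : ZMod M) * x) ≤ n * az x := by
  induction n with
  | zero => simp [az_zero]
  | succ n ih =>
    have h : (((n + 1 : ℕ) : ZMod M)) * x = (n : ZMod M) * x + x := by
      push_cast; ring
    rw [h]
    refine (az_add_le _ _).trans ?_
    push_cast
    nlinarith [ih]

theorem Lam_pos : (0 : ℝ) < Lam := by unfold Lam; norm_num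

theorem ker_w_pos (k : ℕ) : (0 : ℝ) < Lam * 2 ^ k := by
  have := Lam_pos
  positivity

theorem nm_nonneg (k : ℕ) (y : A M) : 0 ≤ nm k y := by
  unfold nm
  have h := ker_w_pos k
  have h1 := az_nonneg y.1
  have h2 := az_nonneg y.2
  positivity

theorem nm_neg (k : ℕ) (y : A M) : nm k (-y) = nm k y := by
  unfold nm
  rw [Prod.fst_neg, Prod.snd_neg, az_neg, az_neg]

theorem nm_add_le (k : ℕ) (x y : A M) : nm k (x + y) ≤ nm k x + nm k y := by
  unfold nm
  rw [Prod.fst_add, Prod.snd_add]
  have h := ker_w_pos k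
  have h1 : az (x.1 + y.1) / (Lam * 2 ^ k) ≤ az x.1 / (Lam * 2 ^ k) + az y.1 / (Lam * 2 ^ k) := by
    rw [← add_div]
    exact div_le_div_of_nonneg_right (az_add_le _ _) h.le
  have h2 : az (x.2 + y.2) / (Lam * 2 ^ k) ^ 2
      ≤ az x.2 / (Lam * 2 ^ k) ^ 2 + az y.2 / (Lam * 2 ^ k) ^ 2 := by
    rw [← add_div]
    exact div_le_div_of_nonneg_right (az_add_le _ _) (by positivity)
  linarith

theorem co_add (l : ℕ) (u v : A M) : co M l (u + v) = co M l u + co M l v := by
  unfold co
  ext
  · simp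
  · simp; ring

theorem co_neg (l : ℕ) (u : A M) : co M l (-u) = -co M l u := by
  unfold co
  ext
  · simp
  · simp; ring

/-- `co M l` as an equivalence -/
def ker_coE (M l : ℕ) : A M ≃ A M where
  toFun := co M l
  invFun := fun y => (y.1, y.2 + (l : ZMod M) * y.1)
  left_inv := fun y => by unfold co; ext <;> simp
  right_inv := fun y => by unfold co; ext <;> simp

theorem ker_coE_apply (l : ℕ) (u : A M) : ker_coE M l u = co M l u := rfl

theorem ker_choose (l c : ℕ) : (l + c).choose 2 = l.choose 2 + c.choose 2 + l * c := by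
  induction c with
  | zero => simp
  | succ c ih =>
    have h1 : (l + (c + 1)).choose 2 = (l + c).choose 1 + (l + c).choose 2 := by
      rw [← add_assoc]; exact Nat.choose_succ_succ' _ _
    have h2 : (c + 1).choose 2 = c.choose 1 + c.choose 2 := Nat.choose_succ_succ' _ _
    rw [h1, h2, ih, Nat.choose_one_right, Nat.choose_one_right]
    ring

/-- `th (l+c) - th l` has coordinates `th c` at `l` -/
theorem co_th (l c : ℕ) : co M l (th M (l + c) - th M l) = th M c := by
  unfold co th
  rw [ker_choose]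
  ext
  · simp
  · simp
    ring

theorem co_cs (l : ℕ) (z : ℤ) : co M l (cs M z) = cs M z := by
  unfold co cs
  ext <;> simp

theorem kz_pos (k : ℕ) : 0 < kz M k := by
  unfold kz
  exact Finset.sum_pos (fun y _ => Real.exp_pos _) ⟨0, mem_univ _⟩

/-- one dimensional sum -/
def ker_S (M : ℕ) [NeZero M] (a : ℝ) : ℝ := ∑ x : ZMod M, Real.exp (-(az x / a))

theorem ker_S_nonneg (a : ℝ) : 0 ≤ ker_S M a := by
  unfold ker_S
  exact Finset.sum_nonneg (fun _ _ => (Real.exp_pos _).le)

theorem ker_kz_eq (k : ℕ) : kz M k = ker_S M (Lam * 2 ^ k) * ker_S M ((Lam * 2 ^ k) ^ 2) := by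
  unfold kz ker_S nm
  rw [Finset.sum_mul_sum, Fintype.sum_prod_type]
  refine Finset.sum_congr rfl fun x _ => Finset.sum_congr rfl fun y _ => ?_
  rw [← Real.exp_add]
  congr 1
  ring

theorem ker_fib (n : ℕ) :
    ((univ : Finset (ZMod M)).filter (fun x => x.valMinAbs.natAbs = n)).card ≤ 2 := by
  classical
  rcases ((univ : Finset (ZMod M)).filter (fun x => x.valMinAbs.natAbs = n)).eq_empty_or_nonempty
    with h | ⟨x0, hx0⟩
  · rw [h]; simp
  · have hsub : (univ : Finset (ZMod M)).filter (fun x => x.valMinAbs.natAbs = n) ⊆ {x0, -x0} := by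
      intro x hx
      rw [mem_filter] at hx hx0
      have := hx.2.trans hx0.2.symm
      rw [ZMod.natAbs_valMinAbs_eq_natAbs_valMinAbs] at this
      simpa using this
    exact (card_le_card hsub).trans (card_le_two)

theorem ker_S_le_card (a : ℝ) (ha : 0 < a) : ker_S M a ≤ M := by
  unfold ker_S
  have h : ∀ x ∈ (univ : Finset (ZMod M)), Real.exp (-(az x / a)) ≤ 1 := by
    intro x _
    rw [Real.exp_le_one_iff]
    have := az_nonneg x
    have : 0 ≤ az x / a := by positivity
    linarith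
  refine (Finset.sum_le_card_nsmul _ _ _ h).trans ?_
  rw [card_univ, ZMod.card]
  simp

theorem ker_S_le (a : ℝ) (ha : 2 ≤ a) : ker_S M a ≤ 3 * a := by
  classical
  have ha0 : 0 < a := by linarith
  set r : ℝ := Real.exp (-(1 / a)) with hr
  have hr0 : 0 < r := Real.exp_pos _
  have hr1 : r < 1 := by
    rw [hr, Real.exp_lt_one_iff]
    have : 0 < 1 / a := by positivity
    linarith
  have hterm : ∀ x : ZMod M, Real.exp (-(az x / a)) = r ^ (x.valMinAbs.natAbs) := by
    intro x
    rw [hr, ← Real.exp_nat_mul]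
    congr 1
    unfold az
    ring
  have h1 : ker_S M a = ∑ n ∈ range (M + 1),
      ∑ x ∈ (univ : Finset (ZMod M)).filter (fun x => x.valMinAbs.natAbs = n), r ^ n := by
    unfold ker_S
    rw [Finset.sum_congr rfl (fun x _ => hterm x)]
    rw [← Finset.sum_fiberwise_of_maps_to (s := univ) (t := range (M + 1))
      (g := fun x : ZMod M => x.valMinAbs.natAbs)]
    · refine Finset.sum_congr rfl fun n _ => Finset.sum_congr rfl fun x hx => ?_
      rw [(mem_filter.1 hx).2]
    · intro x _
      rw [mem_range]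
      have := ZMod.natAbs_valMinAbs_le x
      omega
  have h2 : ker_S M a ≤ ∑ n ∈ range (M + 1), 2 * r ^ n := by
    rw [h1]
    refine Finset.sum_le_sum fun n _ => ?_
    rw [Finset.sum_const, nsmul_eq_mul]
    refine mul_le_mul_of_nonneg_right ?_ (by positivity)
    exact_mod_cast ker_fib n
  have h3 : ∑ n ∈ range (M + 1), 2 * r ^ n ≤ 2 * (1 + a) := by
    rw [← Finset.mul_sum]
    have hgeo : ∑ n ∈ range (M + 1), r ^ n ≤ (1 - r)⁻¹ := by
      have hs := Summable.sum_le_tsum (range (M + 1)) (fun n _ => (by positivity : 0 ≤ r ^ n))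
        (summable_geometric_of_lt_one hr0.le hr1)
      rwa [tsum_geometric_of_lt_one hr0.le hr1] at hs
    have hinv : (1 - r)⁻¹ ≤ 1 + a := by
      -- `r ≤ a / (1 + a)` since `exp (1/a) ≥ 1 + 1/a`
      have hexp : 1 + 1 / a ≤ Real.exp (1 / a) := by
        have := Real.add_one_le_exp (1 / a)
        linarith
      have hrr : r ≤ (1 + 1 / a)⁻¹ := by
        rw [hr, Real.exp_neg]
        exact inv_anti₀ (by positivity) hexp
      have hra : r ≤ a / (1 + a) := by
        refine hrr.trans (le_of_eq ?_)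
        field_simp
        ring
      have h1r : 1 / (1 + a) ≤ 1 - r := by
        have : 1 / (1 + a) = 1 - a / (1 + a) := by
          field_simp
          ring
        rw [this]; linarith
      have := one_div_le_one_div_of_le (by positivity : (0:ℝ) < 1 / (1 + a)) h1r
      rw [one_div_one_div] at this
      rw [← one_div]
      exact this
    nlinarith [hgeo.trans hinv]
  linarith

theorem ker_w_ge (k : ℕ) : (131072 : ℝ) ≤ Lam * 2 ^ k := by
  have h1 : (1 : ℝ) ≤ 2 ^ k := one_le_pow₀ (by norm_num)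
  unfold Lam
  nlinarith

theorem kz_le (k : ℕ) : kz M k ≤ 9 * Lam ^ 3 * 8 ^ k := by
  rw [ker_kz_eq]
  have hw := ker_w_ge k
  have hw2 : (2 : ℝ) ≤ (Lam * 2 ^ k) ^ 2 := by nlinarith
  have h1 := ker_S_le (M := M) (Lam * 2 ^ k) (by linarith)
  have h2 := ker_S_le (M := M) ((Lam * 2 ^ k) ^ 2) hw2
  have h3 := ker_S_nonneg (M := M) (Lam * 2 ^ k)
  have h4 := ker_S_nonneg (M := M) ((Lam * 2 ^ k) ^ 2)
  have h5 : ker_S M (Lam * 2 ^ k) * ker_S M ((Lam * 2 ^ k) ^ 2)
      ≤ (3 * (Lam * 2 ^ k)) * (3 * (Lam * 2 ^ k) ^ 2) :=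
    mul_le_mul h1 h2 h4 (by positivity)
  refine h5.trans (le_of_eq ?_)
  have : (8 : ℝ) ^ k = (2 ^ k) ^ 3 := by
    rw [← pow_mul, mul_comm k 3, pow_mul]; norm_num
  rw [this]
  ring

/-- the weights sum to the normalisation -/
theorem ker_sum_w (k l : ℕ) : ∑ δ : A M, Real.exp (-nm k (co M l δ)) = kz M k := by
  unfold kz
  exact Equiv.sum_comp (ker_coE M l) (fun y => Real.exp (-nm k y))

theorem av_const (k l : ℕ) (a : ℝ) (u : A M) : av k l (fun _ => a) u = a := by
  unfold av
  rw [← Finset.sum_mul, ker_sum_w]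
  have := (kz_pos (M := M) k).ne'
  field_simp

theorem av_mono (k l : ℕ) (f g : A M → ℝ) (h : ∀ u, f u ≤ g u) (u : A M) :
    av k l f u ≤ av k l g u := by
  unfold av
  refine div_le_div_of_nonneg_right ?_ (kz_pos k).le
  exact Finset.sum_le_sum fun δ _ => mul_le_mul_of_nonneg_left (h _) (Real.exp_pos _).le

theorem av_add (k l : ℕ) (f g : A M → ℝ) (u : A M) :
    av k l (fun u => f u + g u) u = av k l f u + av k l g u := by
  unfold av
  rw [← add_div, ← Finset.sum_add_distrib]
  congr 1
  exact Finset.sum_congr rfl fun δ _ => by ring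

theorem av_nonneg (k l : ℕ) (f : A M → ℝ) (h : ∀ u, 0 ≤ f u) (u : A M) : 0 ≤ av k l f u := by
  unfold av
  exact div_nonneg (Finset.sum_nonneg fun δ _ => mul_nonneg (Real.exp_pos _).le (h _))
    (kz_pos k).le

theorem av_symm (k l : ℕ) (f g : A M → ℝ) :
    ∑ u : A M, f u * av k l g u = ∑ u : A M, av k l f u * g u := by
  unfold av
  have h1 : ∀ u : A M, f u * ((∑ δ : A M, Real.exp (-nm k (co M l δ)) * g (u + δ)) / kz M k)
      = ∑ w : A M, (f u * Real.exp (-nm k (co M l (w - u))) * g w) / kz M k := by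
    intro u
    rw [← Equiv.sum_comp (Equiv.subRight u)
      (fun δ => Real.exp (-nm k (co M l δ)) * g (u + δ)), ← Finset.sum_div, mul_div_assoc',
      Finset.mul_sum]
    congr 1
    refine Finset.sum_congr rfl fun w _ => ?_
    simp only [Equiv.subRight_apply, add_sub_cancel]
    ring
  have h2 : ∀ w : A M, ((∑ δ : A M, Real.exp (-nm k (co M l δ)) * f (w + δ)) / kz M k) * g w
      = ∑ u : A M, (f u * Real.exp (-nm k (co M l (w - u))) * g w) / kz M k := by
    intro w
    rw [← Equiv.sum_comp (Equiv.subRight w)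
      (fun δ => Real.exp (-nm k (co M l δ)) * f (w + δ)), ← Finset.sum_div, div_mul_eq_mul_div,
      Finset.sum_mul]
    congr 1
    refine Finset.sum_congr rfl fun u _ => ?_
    simp only [Equiv.subRight_apply, add_sub_cancel]
    have : co M l (w - u) = - co M l (u - w) := by
      rw [← co_neg, neg_sub]
    rw [this, nm_neg]
    ring
  rw [Finset.sum_congr rfl (fun u _ => h1 u), Finset.sum_congr rfl (fun w _ => h2 w),
    Finset.sum_comm]

theorem av_sum (k l : ℕ) (f : A M → ℝ) : ∑ u : A M, av k l f u = ∑ u : A M, f u := by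
  have h := av_symm (M := M) k l f (fun _ => 1)
  simp only [av_const, mul_one] at h
  exact h.symm

/-- Harnack -/
theorem av_harnack (k l : ℕ) (f : A M → ℝ) (h : ∀ u, 0 ≤ f u) (u δ : A M) :
    av k l f (u + δ) ≤ Real.exp (nm k (co M l δ)) * av k l f u := by
  unfold av
  rw [mul_div_assoc']
  refine div_le_div_of_nonneg_right ?_ (kz_pos k).le
  rw [← Equiv.sum_comp (Equiv.subRight δ)
      (fun δ' => Real.exp (-nm k (co M l δ')) * f (u + δ + δ')), Finset.mul_sum]
  refine Finset.sum_le_sum fun w _ => ?_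
  simp only [Equiv.subRight_apply]
  have h1 : u + δ + (w - δ) = u + w := by abel
  rw [h1, ← mul_assoc, ← Real.exp_add]
  refine mul_le_mul_of_nonneg_right ?_ (h _)
  rw [Real.exp_le_exp]
  have h2 : co M l w = co M l (w - δ) + co M l δ := by
    rw [← co_add, sub_add_cancel]
  have h3 := nm_add_le k (co M l (w - δ)) (co M l δ)
  rw [← h2] at h3
  linarith

theorem av_lip (k l : ℕ) (f : A M → ℝ) (h0 : ∀ u, 0 ≤ f u) (h1 : ∀ u, f u ≤ 1) (u δ : A M) :
    |av k l f (u + δ) - av k l f u| ≤ Real.exp (nm k (co M l δ)) - 1 := by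
  have hle : ∀ v : A M, av k l f v ≤ 1 := fun v =>
    (av_mono k l f (fun _ => 1) h1 v).trans (le_of_eq (av_const k l 1 v))
  have hge : ∀ v : A M, 0 ≤ av k l f v := fun v => av_nonneg k l f h0 v
  have hE : 1 ≤ Real.exp (nm k (co M l δ)) := Real.one_le_exp (nm_nonneg _ _)
  have ha := av_harnack k l f h0 u δ
  have hb := av_harnack k l f h0 (u + δ) (-δ)
  rw [co_neg, nm_neg, add_neg_cancel_right] at hb
  rw [abs_le]
  constructor
  · nlinarith [hle (u + δ), hge (u + δ)]
  · nlinarith [hle u, hge u]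

/-- the number of points of norm at most `t` -/
theorem ker_card (t : ℝ) (ht : 0 ≤ t) :
    min (M : ℝ) t ≤ ((univ : Finset (ZMod M)).filter (fun x => az x ≤ t)).card := by
  classical
  have hinj : Set.InjOn (fun n : ℕ => (n : ZMod M)) (range (min M (⌊t⌋₊ + 1))) := by
    intro a ha b hb hab
    have ha' : a < M := by
      have := mem_range.1 (Finset.mem_coe.1 ha); omega
    have hb' : b < M := by
      have := mem_range.1 (Finset.mem_coe.1 hb); omega
    have := congrArg ZMod.val hab
    simp only [ZMod.val_natCast] at this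
    rwa [Nat.mod_eq_of_lt ha', Nat.mod_eq_of_lt hb'] at this
  have hsub : (range (min M (⌊t⌋₊ + 1))).image (fun n : ℕ => (n : ZMod M))
      ⊆ (univ : Finset (ZMod M)).filter (fun x => az x ≤ t) := by
    intro x hx
    obtain ⟨n, hn, rfl⟩ := mem_image.1 hx
    rw [mem_filter]
    refine ⟨mem_univ _, (az_nat_le n).trans ?_⟩
    have hn' : n ≤ ⌊t⌋₊ := by
      have := mem_range.1 hn; omega
    exact (Nat.le_floor_iff ht).1 hn'
  have hcard := card_le_card hsub
  rw [card_image_of_injOn hinj, card_range] at hcard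
  have h1 : ((min M (⌊t⌋₊ + 1) : ℕ) : ℝ)
      ≤ ((univ : Finset (ZMod M)).filter (fun x => az x ≤ t)).card := by
    exact_mod_cast hcard
  refine le_trans ?_ h1
  rw [Nat.cast_min]
  refine min_le_min le_rfl ?_
  push_cast
  exact (Nat.lt_floor_add_one t).le

theorem ker_ratio (a : ℝ) (ha : 2 ≤ a) :
    ker_S M a ≤ 12 * ((univ : Finset (ZMod M)).filter (fun x => az x ≤ a / 4)).card := by
  have h1 := ker_card (M := M) (a / 4) (by linarith)
  have h2 := ker_S_le (M := M) a ha
  have h3 := ker_S_le_card (M := M) a (by linarith)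
  rcases min_cases (M : ℝ) (a / 4) with ⟨h, _⟩ | ⟨h, _⟩
  · rw [h] at h1
    have : (0 : ℝ) ≤ M := by positivity
    linarith
  · rw [h] at h1
    linarith

theorem av_mass (k l : ℕ) (f : A M → ℝ) (h0 : ∀ u, 0 ≤ f u) (u : A M)
    (h1 : ∀ δ, nm k (co M l δ) ≤ 1 / 2 → 1 ≤ f (u + δ)) : 1 / 250 ≤ av k l f u := by
  classical
  have hw := ker_w_ge k
  have hwp := ker_w_pos k
  set a : ℝ := Lam * 2 ^ k with ha
  have hw2 : (2 : ℝ) ≤ a ^ 2 := by nlinarith
  set X1 := (univ : Finset (ZMod M)).filter (fun x => az x ≤ a / 4) with hX1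
  set X2 := (univ : Finset (ZMod M)).filter (fun x => az x ≤ a ^ 2 / 4) with hX2
  -- the set of shifts
  set G := (univ : Finset (A M)).filter (fun δ => nm k (co M l δ) ≤ 1 / 2) with hG
  have hGcard : (X1.card : ℝ) * X2.card ≤ G.card := by
    have hsub : (X1 ×ˢ X2).image (ker_coE M l).symm ⊆ G := by
      intro δ hδ
      obtain ⟨y, hy, rfl⟩ := mem_image.1 hδ
      rw [mem_product] at hy
      have hy1 := (mem_filter.1 hy.1).2
      have hy2 := (mem_filter.1 hy.2).2
      rw [hG, mem_filter]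
      refine ⟨mem_univ _, ?_⟩
      rw [← ker_coE_apply, Equiv.apply_symm_apply]
      unfold nm
      rw [← ha]
      have e1 : az y.1 / a ≤ 1 / 4 := by
        rw [div_le_iff₀ hwp]; linarith
      have e2 : az y.2 / a ^ 2 ≤ 1 / 4 := by
        rw [div_le_iff₀ (by positivity)]; linarith
      linarith
    have := card_le_card hsub
    rw [card_image_of_injective _ (ker_coE M l).symm.injective, card_product] at this
    exact_mod_cast this
  have hr1 := ker_ratio (M := M) a (by linarith)
  have hr2 := ker_ratio (M := M) (a ^ 2) hw2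
  rw [← hX1] at hr1
  rw [← hX2] at hr2
  have hkz : kz M k ≤ 144 * G.card := by
    rw [ker_kz_eq, ← ha]
    have hs2 := ker_S_nonneg (M := M) (a ^ 2)
    have : ker_S M a * ker_S M (a ^ 2) ≤ (12 * (X1.card : ℝ)) * (12 * (X2.card : ℝ)) :=
      mul_le_mul hr1 hr2 hs2 (by positivity)
    linarith
  have hexp : (0.6 : ℝ) ≤ Real.exp (-(1 / 2)) := by
    have h := Real.add_one_le_exp (1 / 2 : ℝ)
    -- `exp (-1/2) ≥ 0.6` since `exp (1/2) ≤ 1.6488`
    have hs : Real.exp (1 / 2) * Real.exp (1 / 2) = Real.exp 1 := by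
      rw [← Real.exp_add]; norm_num
    have he := Real.exp_one_lt_d9
    have hp := Real.exp_pos (1 / 2 : ℝ)
    have hup : Real.exp (1 / 2) ≤ 1.65 := by
      by_contra hc
      push Not at hc
      nlinarith
    have hmul : Real.exp (-(1 / 2)) * Real.exp (1 / 2) = 1 := by
      rw [← Real.exp_add]; simp
    have hp2 := Real.exp_pos (-(1 / 2) : ℝ)
    by_contra hc
    push Not at hc
    nlinarith
  have hsum : Real.exp (-(1 / 2)) * G.card
      ≤ ∑ δ : A M, Real.exp (-nm k (co M l δ)) * f (u + δ) := by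
    calc Real.exp (-(1 / 2)) * G.card = ∑ δ ∈ G, Real.exp (-(1 / 2)) := by
          rw [Finset.sum_const, nsmul_eq_mul, mul_comm]
      _ ≤ ∑ δ ∈ G, Real.exp (-nm k (co M l δ)) * f (u + δ) := by
          refine Finset.sum_le_sum fun δ hδ => ?_
          have hδ' := (mem_filter.1 hδ).2
          have e1 : Real.exp (-(1 / 2)) ≤ Real.exp (-nm k (co M l δ)) := by
            rw [Real.exp_le_exp]; linarith
          have e2 := h1 δ hδ'
          have e3 := Real.exp_pos (-(1 / 2) : ℝ)
          nlinarith [Real.exp_pos (-nm k (co M l δ))]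
      _ ≤ ∑ δ : A M, Real.exp (-nm k (co M l δ)) * f (u + δ) := by
          refine Finset.sum_le_sum_of_subset_of_nonneg (subset_univ _) fun δ _ _ => ?_
          exact mul_nonneg (Real.exp_pos _).le (h0 _)
  unfold av
  have hkp := kz_pos (M := M) k
  rw [le_div_iff₀ hkp]
  have hGp : (0 : ℝ) ≤ G.card := by positivity
  nlinarith

/-- a sum over a finite set of objects near `u` is controlled by the average -/
theorem sum_le_av (k l : ℕ) (f : A M → ℝ) (h0 : ∀ u, 0 ≤ f u) (u : A M) (s : Finset (A M))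
    (hs : ∀ w ∈ s, nm k (co M l (w - u)) ≤ 1) :
    ∑ w ∈ s, f w ≤ 25 * Lam ^ 3 * 8 ^ k * av k l f u := by
  have hkp := kz_pos (M := M) k
  have hL := Lam_pos
  have hkl := kz_le (M := M) k
  have havn := av_nonneg k l f h0 u
  have h1 : Real.exp (-1) * ∑ w ∈ s, f w ≤ kz M k * av k l f u := by
    unfold av
    rw [mul_div_cancel₀ _ hkp.ne',
      ← Equiv.sum_comp (Equiv.subRight u) (fun δ => Real.exp (-nm k (co M l δ)) * f (u + δ)),
      Finset.mul_sum]
    calc ∑ w ∈ s, Real.exp (-1) * f w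
        ≤ ∑ w ∈ s, Real.exp (-nm k (co M l (w - u))) * f (u + (w - u)) := by
          refine Finset.sum_le_sum fun w hw => ?_
          rw [add_sub_cancel]
          refine mul_le_mul_of_nonneg_right ?_ (h0 _)
          rw [Real.exp_le_exp]
          have := hs w hw
          linarith
      _ ≤ _ := by
          refine Finset.sum_le_sum_of_subset_of_nonneg (subset_univ _) fun δ _ _ => ?_
          exact mul_nonneg (Real.exp_pos _).le (h0 _)
  have h2 : ∑ w ∈ s, f w ≤ Real.exp 1 * (kz M k * av k l f u) := by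
    have e1 : Real.exp 1 * Real.exp (-1) = 1 := by
      rw [← Real.exp_add]; simp
    calc ∑ w ∈ s, f w = Real.exp 1 * (Real.exp (-1) * ∑ w ∈ s, f w) := by
          rw [← mul_assoc, e1, one_mul]
      _ ≤ _ := mul_le_mul_of_nonneg_left h1 (Real.exp_pos _).le
  have he := Real.exp_one_lt_d9
  have h3 : kz M k * av k l f u ≤ 9 * Lam ^ 3 * 8 ^ k * av k l f u :=
    mul_le_mul_of_nonneg_right hkl havn
  have hP : 0 ≤ Lam ^ 3 * 8 ^ k * av k l f u := by positivity
  have hQ : 0 ≤ kz M k * av k l f u := by positivity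
  have h4 : Real.exp 1 * (kz M k * av k l f u) ≤ 2.7182818286 * (kz M k * av k l f u) :=
    mul_le_mul_of_nonneg_right he.le hQ
  nlinarith

end

end NP2
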