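import Pool.Agent.NP2.KeyC
import Pool.Agent.NP2.Cel

/-!
# NP2 / KeyD : the smooth bounds of the key lemma
-/

namespace NP2
open Finset

noncomputable section

variable {M : ℕ} [NeZero M]

theorem keyD_pow (x1 x2 e1 y : ℝ) (n : ℕ) (hn : 1 ≤ n) (h1 : |x1| ≤ 1) (h2 : |x2| ≤ 1)
    (hy : |y| ≤ |x1| + |x2| + e1) :
    y ^ (2 * n) ≤ 4 ^ (2 * n) * (x1 ^ 2 + x2 ^ 2) + (2 * e1) ^ (2 * n) := by
  have hev : Even (2 * n) := even_two_mul n
  rw [← hev.pow_abs y]
  have ha1 := abs_nonneg x1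
  have ha2 := abs_nonneg x2
  have hay := abs_nonneg y
  rcases le_total e1 (|x1| + |x2|) with h | h
  · have hm0 : 0 ≤ max |x1| |x2| := le_max_of_le_left ha1
    have hm1 : max |x1| |x2| ≤ 1 := max_le h1 h2
    have h3 : |y| ≤ 4 * max |x1| |x2| := by
      have := le_max_left |x1| |x2|
      have := le_max_right |x1| |x2|
      linarith
    have h4 : (max |x1| |x2|) ^ (2 * n) ≤ (max |x1| |x2|) ^ 2 :=
      pow_le_pow_of_le_one hm0 hm1 (by omega)
    have h5 : (max |x1| |x2|) ^ 2 ≤ x1 ^ 2 + x2 ^ 2 := by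
      rcases max_choice |x1| |x2| with h6 | h6
      · rw [h6, sq_abs]
        nlinarith [sq_nonneg x2]
      · rw [h6, sq_abs]
        nlinarith [sq_nonneg x1]
    have h6 : (0 : ℝ) ≤ (2 * e1) ^ (2 * n) := hev.pow_nonneg _
    calc |y| ^ (2 * n) ≤ (4 * max |x1| |x2|) ^ (2 * n) := pow_le_pow_left₀ hay h3 _
      _ = 4 ^ (2 * n) * (max |x1| |x2|) ^ (2 * n) := mul_pow _ _ _
      _ ≤ 4 ^ (2 * n) * (x1 ^ 2 + x2 ^ 2) :=
          mul_le_mul_of_nonneg_left (h4.trans h5) (by positivity)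
      _ ≤ 4 ^ (2 * n) * (x1 ^ 2 + x2 ^ 2) + (2 * e1) ^ (2 * n) := by linarith
  · have h3 : |y| ≤ 2 * e1 := by linarith
    have h6 : 0 ≤ 4 ^ (2 * n) * (x1 ^ 2 + x2 ^ 2) := by positivity
    have h7 := pow_le_pow_left₀ hay h3 (2 * n)
    linarith

theorem keyD_comb (z1 z2 a1 a2 b x1 x2 c1 c2 d1 d2 : ℝ) (h1 : |z1 - a1| ≤ c1)
    (h2 : |z2 - a2| ≤ c2) (h3 : |a1 - b + x1| ≤ d1) (h4 : |a2 - b + x2| ≤ d2) :
    |z2 - z1| ≤ |x1| + |x2| + (c1 + c2 + d1 + d2) := by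
  rw [abs_le] at h1 h2 h3 h4 ⊢
  have := le_abs_self x1
  have := neg_abs_le x1
  have := le_abs_self x2
  have := neg_abs_le x2
  constructor <;> linarith

theorem keyD_err (e : ℕ) (he : 1 ≤ e) :
    (10 * tauE e * (mE e : ℕ) + 5 * tauE e + Real.sqrt (GamE e / (2 ^ (mE e) * lamE e))) +
    (10 * tauE (2 * e) * (mE (2 * e) : ℕ) + 5 * tauE (2 * e)
        + Real.sqrt (GamE (2 * e) / (2 ^ (mE (2 * e)) * lamE (2 * e)))) ≤
      (1 / 2 : ℝ) ^ (3000 * e) := keyB_e0 e he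

theorem keyD_abs_le (J : Finset ℕ) (f r : ℕ → ℝ) (hf : ip J f f ≤ 1) (hr : ip J r r ≤ 1) :
    |ip J f r| ≤ 1 := by
  have h1 := ip_cs J f r
  have h2 := ip_self_nonneg J f
  have h3 := ip_self_nonneg J r
  have h4 : ip J f r ^ 2 ≤ 1 := h1.trans (by nlinarith)
  exact (sq_le_one_iff_abs_le_one _).1 h4

section
variable (K e : ℕ) (he : 1 ≤ e) (ε : ℝ) (hε : 0 < ε) (D1 D2 : Dict M) (F G : A M → ℕ → ℝ)
  (hF : ∀ u t, |F u t| ≤ 1) (hG : ∀ u t, |G u t| ≤ 1)

include he hε hF hG in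
theorem keyD_xyT (k c : ℕ) (hk : k ≤ K) (u : A M) (z : ℤ) (hz : |z| ≤ 4 ^ k)
    (hv1 : tr (tauE e) D1 k (c / 2 ^ k) (pS (u + th M c + cs M z)) < GamE e)
    (hv2 : tr (tauE (2 * e)) D2 k (c / 2 ^ k) (pS (u + th M c + cs M z)) < GamE (2 * e)) :
    |∑ i, vF (-1) 1 e K ε D1 D2 pT F k (c / 2 ^ k) u i *
        vF 1 2 e K ε D1 D2 pS G k (c / 2 ^ k) (u + th M c + cs M z) i| ≤
      |ip (blk k (c / 2 ^ k)) (F u)
          (rsd (tauE e) D1 (lamE e) k (c / 2 ^ k) (pS (u + th M c + cs M z))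
            (G (u + th M c + cs M z)))| +
      |ip (blk k (c / 2 ^ k)) (F u)
          (rsd (tauE (2 * e)) D2 (lamE (2 * e)) k (c / 2 ^ k) (pS (u + th M c + cs M z))
            (G (u + th M c + cs M z)))| +
      ((1 / 2 : ℝ) ^ (3000 * e) + 2 * ε * (168000 * e)) := by
  rw [vF_inner]
  set v := u + th M c + cs M z with hv
  have c1 := Zfr_close (tauE e) D1 (lamE e) (keyC_lam_pos e) (mE e) ε hε K k (c / 2 ^ k) hk
    (pT u) (F u) (hF u) (pS v) (G v) (hG v)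
  have c2 := Zfr_close (tauE (2 * e)) D2 (lamE (2 * e)) (keyC_lam_pos (2 * e)) (mE (2 * e)) ε hε K
    k (c / 2 ^ k) hk (pT u) (F u) (hF u) (pS v) (G v) (hG v)
  have d1 := Ztr_T (tauE e) (keyC_tau_pos e).le (keyC_tau_le e he) D1 (lamE e) (keyC_lam_pos e)
    (mE e) k c u z hz (F u) (G v) (hF u) (hG v)
  have d2 := Ztr_T (tauE (2 * e)) (keyC_tau_pos (2 * e)).le (keyC_tau_le (2 * e) (by omega)) D2
    (lamE (2 * e)) (keyC_lam_pos (2 * e)) (mE (2 * e)) k c u z hz (F u) (G v) (hF u) (hG v)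
  rw [← hv] at d1 d2
  have s1 : Real.sqrt (tr (tauE e) D1 k (c / 2 ^ k) (pS v) / (2 ^ (mE e) * lamE e)) ≤
      Real.sqrt (GamE e / (2 ^ (mE e) * lamE e)) := by
    refine Real.sqrt_le_sqrt (div_le_div_of_nonneg_right hv1.le ?_)
    have := keyC_lam_pos e
    positivity
  have s2 : Real.sqrt (tr (tauE (2 * e)) D2 k (c / 2 ^ k) (pS v) /
      (2 ^ (mE (2 * e)) * lamE (2 * e))) ≤
      Real.sqrt (GamE (2 * e) / (2 ^ (mE (2 * e)) * lamE (2 * e))) := by
    refine Real.sqrt_le_sqrt (div_le_div_of_nonneg_right hv2.le ?_)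
    have := keyC_lam_pos (2 * e)
    positivity
  have h0 := keyD_err e he
  have t1 := keyC_tau_pos e
  have t2 := keyC_tau_pos (2 * e)
  have hm : 2 * ε * ((mE e : ℕ) : ℝ) + 2 * ε * ((mE (2 * e) : ℕ) : ℝ) = 2 * ε * (168000 * e) := by
    unfold mE
    push_cast
    ring
  refine (keyD_comb _ _ _ _ _ _ _ _ _ _ _ c1 c2 d1 d2).trans ?_
  linarith

include he hε hF hG in
theorem keyD_xyS (k c : ℕ) (hk : k ≤ K) (u : A M) (z : ℤ) (hz : |z| ≤ 4 ^ k)
    (hv1 : tr (tauE e) D1 k (c / 2 ^ k) (pS (u + th M c + cs M z)) < GamE e)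
    (hv2 : tr (tauE (2 * e)) D2 k (c / 2 ^ k) (pS (u + th M c + cs M z)) < GamE (2 * e)) :
    |∑ i, vF (-1) 1 e K ε D1 D2 pT F k (c / 2 ^ k) u i *
        vF 1 2 e K ε D1 D2 pS G k (c / 2 ^ k) (u + th M c + cs M z) i| ≤
      |ip (blk k (c / 2 ^ k)) (G (u + th M c + cs M z))
          (rsd (tauE e) D1 (lamE e) k (c / 2 ^ k) (pT u) (F u))| +
      |ip (blk k (c / 2 ^ k)) (G (u + th M c + cs M z))
          (rsd (tauE (2 * e)) D2 (lamE (2 * e)) k (c / 2 ^ k) (pT u) (F u))| +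
      ((1 / 2 : ℝ) ^ (3000 * e) + 2 * ε * (168000 * e)) := by
  rw [vF_inner]
  set v := u + th M c + cs M z with hv
  have c1 := Zfr_close (tauE e) D1 (lamE e) (keyC_lam_pos e) (mE e) ε hε K k (c / 2 ^ k) hk
    (pT u) (F u) (hF u) (pS v) (G v) (hG v)
  have c2 := Zfr_close (tauE (2 * e)) D2 (lamE (2 * e)) (keyC_lam_pos (2 * e)) (mE (2 * e)) ε hε K
    k (c / 2 ^ k) hk (pT u) (F u) (hF u) (pS v) (G v) (hG v)
  have d1 := Ztr_S (tauE e) (keyC_tau_pos e).le (keyC_tau_le e he) D1 (lamE e) (keyC_lam_pos e)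
    (mE e) k c u z hz (F u) (G v) (hF u) (hG v)
  have d2 := Ztr_S (tauE (2 * e)) (keyC_tau_pos (2 * e)).le (keyC_tau_le (2 * e) (by omega)) D2
    (lamE (2 * e)) (keyC_lam_pos (2 * e)) (mE (2 * e)) k c u z hz (F u) (G v) (hF u) (hG v)
  rw [← hv] at d1 d2
  have s1 : Real.sqrt (tr (tauE e) D1 k (c / 2 ^ k) (pS v) / (2 ^ (mE e) * lamE e)) ≤
      Real.sqrt (GamE e / (2 ^ (mE e) * lamE e)) := by
    refine Real.sqrt_le_sqrt (div_le_div_of_nonneg_right hv1.le ?_)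
    have := keyC_lam_pos e
    positivity
  have s2 : Real.sqrt (tr (tauE (2 * e)) D2 k (c / 2 ^ k) (pS v) /
      (2 ^ (mE (2 * e)) * lamE (2 * e))) ≤
      Real.sqrt (GamE (2 * e) / (2 ^ (mE (2 * e)) * lamE (2 * e))) := by
    refine Real.sqrt_le_sqrt (div_le_div_of_nonneg_right hv2.le ?_)
    have := keyC_lam_pos (2 * e)
    positivity
  have h0 := keyD_err e he
  have hm : 2 * ε * ((mE e : ℕ) : ℝ) + 2 * ε * ((mE (2 * e) : ℕ) : ℝ) = 2 * ε * (168000 * e) := by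
    unfold mE
    push_cast
    ring
  refine (keyD_comb _ _ _ _ _ _ _ _ _ _ _ c1 c2 d1 d2).trans ?_
  linarith

end

private theorem keyD_arith (k a n : ℕ) (hak : 8 * a ≤ k) (l : ℝ) :
    8 * ((4 : ℝ) ^ (2 * n) * (l * 8 ^ k)) / (2 ^ k * 4 ^ (k - 8 * a)) =
      4 ^ (2 * n) * (8 * 4 ^ (8 * a) * l) := by
  have h1 : (8 : ℝ) ^ k = 2 ^ k * 4 ^ k := by
    rw [← mul_pow]
    norm_num
  have h2 : (4 : ℝ) ^ k = 4 ^ (k - 8 * a) * 4 ^ (8 * a) := by
    rw [← pow_add]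
    congr 1
    omega
  rw [h1, h2]
  field_simp

private theorem keyD_lam (e : ℕ) : lamE (2 * e) ≤ lamE e := by
  unfold lamE
  exact pow_le_pow_of_le_one (by norm_num) (by norm_num) (by omega)

private theorem keyD_idx (k b c : ℕ) (hc : c < 2 ^ k) : (b * 2 ^ k + c) / 2 ^ k = b := by
  rw [mul_comm, Nat.mul_add_div (by positivity), Nat.div_eq_of_lt hc, add_zero]

private theorem keyD_z (k a : ℕ) (z : ℤ) (hz : |z| < 4 ^ (k - 8 * a)) : |z| ≤ 4 ^ k :=
  hz.le.trans (pow_le_pow_right₀ (by norm_num) (by omega))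

private theorem keyD_res1 (τ : ℝ) (D : Dict M) (lam : ℝ) (hl : 0 < lam) (k b : ℕ)
    (y : ℕ → A M) (f : ℕ → ℝ) (hf : ∀ t, |f t| ≤ 1) :
    ip (blk k b) (rsd τ D lam k b y f) (rsd τ D lam k b y f) ≤ 1 :=
  (res_sq_le (blk k b) (col τ D k b y) lam hl f).trans (ip_le_one (blk k b) f hf)

/-- the smooth bound seen from the `T`-objects -/
theorem keyD_smT (K e n : ℕ) (he : 1 ≤ e) (hn : 1 ≤ n) (hM : 4 ^ K ∣ M) (ε : ℝ) (hε : 0 < ε)
    (F G : A M → ℕ → ℝ) (hF : ∀ u t, |F u t| ≤ 1) (hG : ∀ u t, |G u t| ≤ 1) (D1 D2 : Dict M)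
    (hD1 : IsSys K F G (lamE e) (tauE e) D1) (hD2 : IsSys K F G (lamE (2 * e)) (tauE (2 * e)) D2)
    (R : ℝ) (k b : ℕ) (hk1 : 4000 * e ≤ k) (hk : k ≤ K) (hb : b < 2 ^ (K - k)) (u : A M) :
    locT k (k - 8 * (80 * e)) b (fun v => alF 2 e K ε D1 D2 pS G R k b v *
        (∑ i, vF (-1) 1 e K ε D1 D2 pT F k b u i * vF 1 2 e K ε D1 D2 pS G k b v i) ^ (2 * n)) u ≤
      4 ^ (2 * n) * (16 * 4 ^ (8 * (80 * e)) * (1 / 2 : ℝ) ^ (8000 * e)) +
        (2 * ((1 / 2 : ℝ) ^ (3000 * e) + 2 * ε * (168000 * e))) ^ (2 * n) := by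
  set x1 : A M → ℝ := fun v => ip (blk k b) (F u) (rsd (tauE e) D1 (lamE e) k b (pS v) (G v))
    with hx1
  set x2 : A M → ℝ := fun v => ip (blk k b) (F u)
    (rsd (tauE (2 * e)) D2 (lamE (2 * e)) k b (pS v) (G v)) with hx2
  set e1 : ℝ := (1 / 2 : ℝ) ^ (3000 * e) + 2 * ε * (168000 * e) with he1
  have hFu := ip_le_one (blk k b) (F u) (hF u)
  have hev : Even (2 * n) := even_two_mul n
  have hx1' : ∀ v, |x1 v| ≤ 1 := fun v => keyD_abs_le _ _ _ hFu
    (keyD_res1 (tauE e) D1 (lamE e) (keyC_lam_pos e) k b (pS v) (G v) (hG v))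
  have hx2' : ∀ v, |x2 v| ≤ 1 := fun v => keyD_abs_le _ _ _ hFu
    (keyD_res1 (tauE (2 * e)) D2 (lamE (2 * e)) (keyC_lam_pos (2 * e)) k b (pS v) (G v) (hG v))
  have hmono := locT_mono k (k - 8 * (80 * e)) b
    (fun v => alF 2 e K ε D1 D2 pS G R k b v *
        (∑ i, vF (-1) 1 e K ε D1 D2 pT F k b u i * vF 1 2 e K ε D1 D2 pS G k b v i) ^ (2 * n))
    (fun v => (fun v => (fun v => 4 ^ (2 * n) * x1 v ^ 2) v + (fun v => 4 ^ (2 * n) * x2 v ^ 2) v) v
      + (fun _ => (2 * e1) ^ (2 * n)) v) u ?_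
  · refine hmono.trans ?_
    rw [locT_add, locT_add, locT_const]
    have b1 := locT_le_cells K k (k - 8 * (80 * e)) b hM hk (by omega)
      (fun v => 4 ^ (2 * n) * x1 v ^ 2) (fun v => by positivity) (4 ^ (2 * n) * (lamE e * 8 ^ k))
      (fun q => by
        have hr := hD1.ruleS k hk b hb q (F u)
        have hr2 : lamE e * 8 ^ k * ip (blk k b) (F u) (F u) ≤ lamE e * 8 ^ k := by
          have := keyC_lam_pos e
          exact mul_le_of_le_one_right (by positivity) hFu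
        calc ∑ v : A M, (if cell k (pS v (b * 2 ^ k)) = q then 4 ^ (2 * n) * x1 v ^ 2 else 0)
            = 4 ^ (2 * n) * ∑ v : A M, (if cell k (pS v (b * 2 ^ k)) = q then
              ip (blk k b) (rsd (tauE e) D1 (lamE e) k b (pS v) (G v)) (F u) ^ 2 else 0) := by
              rw [mul_sum]
              refine sum_congr rfl fun v _ => ?_
              rw [hx1]
              simp only [ip_comm (blk k b) (F u)]
              split_ifs <;> ring
          _ ≤ 4 ^ (2 * n) * (lamE e * 8 ^ k) :=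
              mul_le_mul_of_nonneg_left (hr.trans hr2) (by positivity)) u
    have b2 := locT_le_cells K k (k - 8 * (80 * e)) b hM hk (by omega)
      (fun v => 4 ^ (2 * n) * x2 v ^ 2) (fun v => by positivity)
      (4 ^ (2 * n) * (lamE (2 * e) * 8 ^ k))
      (fun q => by
        have hr := hD2.ruleS k hk b hb q (F u)
        have hr2 : lamE (2 * e) * 8 ^ k * ip (blk k b) (F u) (F u) ≤ lamE (2 * e) * 8 ^ k := by
          have := keyC_lam_pos (2 * e)
          exact mul_le_of_le_one_right (by positivity) hFu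
        calc ∑ v : A M, (if cell k (pS v (b * 2 ^ k)) = q then 4 ^ (2 * n) * x2 v ^ 2 else 0)
            = 4 ^ (2 * n) * ∑ v : A M, (if cell k (pS v (b * 2 ^ k)) = q then
              ip (blk k b) (rsd (tauE (2 * e)) D2 (lamE (2 * e)) k b (pS v) (G v)) (F u) ^ 2
                else 0) := by
              rw [mul_sum]
              refine sum_congr rfl fun v _ => ?_
              rw [hx2]
              simp only [ip_comm (blk k b) (F u)]
              split_ifs <;> ring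
          _ ≤ 4 ^ (2 * n) * (lamE (2 * e) * 8 ^ k) :=
              mul_le_mul_of_nonneg_left (hr.trans hr2) (by positivity)) u
    rw [keyD_arith k (80 * e) n (by omega)] at b1 b2
    have hl := keyD_lam e
    have hl2 : 4 ^ (2 * n) * (8 * 4 ^ (8 * (80 * e)) * lamE (2 * e)) ≤
        4 ^ (2 * n) * (8 * 4 ^ (8 * (80 * e)) * lamE e) := by gcongr
    have hl3 : lamE e = (1 / 2 : ℝ) ^ (8000 * e) := rfl
    rw [← hl3]
    linarith
  · intro c hc z hz
    set v := u + th M (b * 2 ^ k + c) + cs M z with hv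
    have hrhs : 0 ≤ 4 ^ (2 * n) * x1 v ^ 2 + 4 ^ (2 * n) * x2 v ^ 2 + (2 * e1) ^ (2 * n) := by
      have := hev.pow_nonneg (2 * e1)
      positivity
    change alF 2 e K ε D1 D2 pS G R k b v *
        (∑ i, vF (-1) 1 e K ε D1 D2 pT F k b u i * vF 1 2 e K ε D1 D2 pS G k b v i) ^ (2 * n) ≤
      4 ^ (2 * n) * x1 v ^ 2 + 4 ^ (2 * n) * x2 v ^ 2 + (2 * e1) ^ (2 * n)
    rcases alF_01 2 e K ε D1 D2 pS G R k b v with ha | ha
    · rw [ha, zero_mul]
      exact hrhs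
    · rw [ha, one_mul]
      have htr := alF_tr 2 e K ε D1 D2 pS G R k b hk v ha
      have hi := keyD_idx k b c hc
      have h3 := keyD_xyT K e he ε hε D1 D2 F G hF hG k (b * 2 ^ k + c) hk u z
        (keyD_z k (80 * e) z hz)
      rw [hi, ← hv] at h3
      have h4 := keyD_pow (x1 v) (x2 v) e1 _ n hn (hx1' v) (hx2' v) (h3 htr.1 htr.2)
      rw [mul_add] at h4
      exact h4

/-- the smooth bound seen from the `S`-objects -/
theorem keyD_smS (K e n : ℕ) (he : 1 ≤ e) (hn : 1 ≤ n) (hM : 4 ^ K ∣ M) (ε : ℝ) (hε : 0 < ε)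
    (F G : A M → ℕ → ℝ) (hF : ∀ u t, |F u t| ≤ 1) (hG : ∀ u t, |G u t| ≤ 1) (D1 D2 : Dict M)
    (hD1 : IsSys K F G (lamE e) (tauE e) D1) (hD2 : IsSys K F G (lamE (2 * e)) (tauE (2 * e)) D2)
    (R : ℝ) (k b : ℕ) (hk1 : 4000 * e ≤ k) (hk : k ≤ K) (hb : b < 2 ^ (K - k)) (v : A M)
    (hav : alF 2 e K ε D1 D2 pS G R k b v = 1) :
    locS k (k - 8 * (80 * e)) b (fun u => alF 1 e K ε D1 D2 pT F R k b u *
        (∑ i, vF (-1) 1 e K ε D1 D2 pT F k b u i * vF 1 2 e K ε D1 D2 pS G k b v i) ^ (2 * n)) v ≤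
      4 ^ (2 * n) * (16 * 4 ^ (8 * (80 * e)) * (1 / 2 : ℝ) ^ (8000 * e)) +
        (2 * ((1 / 2 : ℝ) ^ (3000 * e) + 2 * ε * (168000 * e))) ^ (2 * n) := by
  set x1 : A M → ℝ := fun u => ip (blk k b) (G v) (rsd (tauE e) D1 (lamE e) k b (pT u) (F u))
    with hx1
  set x2 : A M → ℝ := fun u => ip (blk k b) (G v)
    (rsd (tauE (2 * e)) D2 (lamE (2 * e)) k b (pT u) (F u)) with hx2
  set e1 : ℝ := (1 / 2 : ℝ) ^ (3000 * e) + 2 * ε * (168000 * e) with he1
  have hGv := ip_le_one (blk k b) (G v) (hG v)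
  have hev : Even (2 * n) := even_two_mul n
  have hx1' : ∀ u, |x1 u| ≤ 1 := fun u => keyD_abs_le _ _ _ hGv
    (keyD_res1 (tauE e) D1 (lamE e) (keyC_lam_pos e) k b (pT u) (F u) (hF u))
  have hx2' : ∀ u, |x2 u| ≤ 1 := fun u => keyD_abs_le _ _ _ hGv
    (keyD_res1 (tauE (2 * e)) D2 (lamE (2 * e)) (keyC_lam_pos (2 * e)) k b (pT u) (F u) (hF u))
  have hmono := locS_mono k (k - 8 * (80 * e)) b
    (fun u => alF 1 e K ε D1 D2 pT F R k b u *
        (∑ i, vF (-1) 1 e K ε D1 D2 pT F k b u i * vF 1 2 e K ε D1 D2 pS G k b v i) ^ (2 * n))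
    (fun u => (fun u => (fun u => 4 ^ (2 * n) * x1 u ^ 2) u + (fun u => 4 ^ (2 * n) * x2 u ^ 2) u) u
      + (fun _ => (2 * e1) ^ (2 * n)) u) v ?_
  · refine hmono.trans ?_
    rw [locS_add, locS_add, locS_const]
    have b1 := locS_le_cells K k (k - 8 * (80 * e)) b hM hk (by omega)
      (fun u => 4 ^ (2 * n) * x1 u ^ 2) (fun u => by positivity) (4 ^ (2 * n) * (lamE e * 8 ^ k))
      (fun q => by
        have hr := hD1.ruleT k hk b hb q (G v)
        have hr2 : lamE e * 8 ^ k * ip (blk k b) (G v) (G v) ≤ lamE e * 8 ^ k := by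
          have := keyC_lam_pos e
          exact mul_le_of_le_one_right (by positivity) hGv
        calc ∑ u : A M, (if cell k (pT u (b * 2 ^ k)) = q then 4 ^ (2 * n) * x1 u ^ 2 else 0)
            = 4 ^ (2 * n) * ∑ u : A M, (if cell k (pT u (b * 2 ^ k)) = q then
              ip (blk k b) (rsd (tauE e) D1 (lamE e) k b (pT u) (F u)) (G v) ^ 2 else 0) := by
              rw [mul_sum]
              refine sum_congr rfl fun u _ => ?_
              rw [hx1]
              simp only [ip_comm (blk k b) (G v)]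
              split_ifs <;> ring
          _ ≤ 4 ^ (2 * n) * (lamE e * 8 ^ k) :=
              mul_le_mul_of_nonneg_left (hr.trans hr2) (by positivity)) v
    have b2 := locS_le_cells K k (k - 8 * (80 * e)) b hM hk (by omega)
      (fun u => 4 ^ (2 * n) * x2 u ^ 2) (fun u => by positivity)
      (4 ^ (2 * n) * (lamE (2 * e) * 8 ^ k))
      (fun q => by
        have hr := hD2.ruleT k hk b hb q (G v)
        have hr2 : lamE (2 * e) * 8 ^ k * ip (blk k b) (G v) (G v) ≤ lamE (2 * e) * 8 ^ k := by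
          have := keyC_lam_pos (2 * e)
          exact mul_le_of_le_one_right (by positivity) hGv
        calc ∑ u : A M, (if cell k (pT u (b * 2 ^ k)) = q then 4 ^ (2 * n) * x2 u ^ 2 else 0)
            = 4 ^ (2 * n) * ∑ u : A M, (if cell k (pT u (b * 2 ^ k)) = q then
              ip (blk k b) (rsd (tauE (2 * e)) D2 (lamE (2 * e)) k b (pT u) (F u)) (G v) ^ 2
                else 0) := by
              rw [mul_sum]
              refine sum_congr rfl fun u _ => ?_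
              rw [hx2]
              simp only [ip_comm (blk k b) (G v)]
              split_ifs <;> ring
          _ ≤ 4 ^ (2 * n) * (lamE (2 * e) * 8 ^ k) :=
              mul_le_mul_of_nonneg_left (hr.trans hr2) (by positivity)) v
    rw [keyD_arith k (80 * e) n (by omega)] at b1 b2
    have hl := keyD_lam e
    have hl2 : 4 ^ (2 * n) * (8 * 4 ^ (8 * (80 * e)) * lamE (2 * e)) ≤
        4 ^ (2 * n) * (8 * 4 ^ (8 * (80 * e)) * lamE e) := by gcongr
    have hl3 : lamE e = (1 / 2 : ℝ) ^ (8000 * e) := rfl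
    rw [← hl3]
    linarith
  · intro c hc z hz
    set u := v - th M (b * 2 ^ k + c) - cs M z with hu
    have huv : u + th M (b * 2 ^ k + c) + cs M z = v := by
      rw [hu]
      abel
    have hrhs : 0 ≤ 4 ^ (2 * n) * x1 u ^ 2 + 4 ^ (2 * n) * x2 u ^ 2 + (2 * e1) ^ (2 * n) := by
      have := hev.pow_nonneg (2 * e1)
      positivity
    change alF 1 e K ε D1 D2 pT F R k b u *
        (∑ i, vF (-1) 1 e K ε D1 D2 pT F k b u i * vF 1 2 e K ε D1 D2 pS G k b v i) ^ (2 * n) ≤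
      4 ^ (2 * n) * x1 u ^ 2 + 4 ^ (2 * n) * x2 u ^ 2 + (2 * e1) ^ (2 * n)
    rcases alF_01 1 e K ε D1 D2 pT F R k b u with ha | ha
    · rw [ha, zero_mul]
      exact hrhs
    · rw [ha, one_mul]
      have htr := alF_tr 2 e K ε D1 D2 pS G R k b hk v hav
      have hi := keyD_idx k b c hc
      have h3 := keyD_xyS K e he ε hε D1 D2 F G hF hG k (b * 2 ^ k + c) hk u z
        (keyD_z k (80 * e) z hz)
      rw [hi, huv] at h3
      have h4 := keyD_pow (x1 u) (x2 u) e1 _ n hn (hx1' u) (hx2' u) (h3 htr.1 htr.2)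
      rw [mul_add] at h4
      exact h4

end

end NP2
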