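import Pool.Agent.NP2.KeyA
import Pool.Agent.NP2.KeyD

/-!
# NP2 / Key : the key lemma

Two systems with parameters `e` and `2e`: `lam = 2^(-8000 e)`, `τ = 2^(-16000 e)`, `m = 56000 e`,
`Γ = 2^(40080 e)`.  Apply `key_abs` with `a = 80 e`, `k1 = 4000 e`, threshold `δ' = δ/2`,
`M0 = m1 + m2 = 168000 e`, `I = (Fin m1 × Fin D1.n) ⊕ (Fin m2 × Fin D2.n)`,
`X = Sum.elim (-vec 1 ..) (vec 1 ..)`, `Y = Sum.elim (vec 2 ..) (vec 2 ..)`, so
`∑ X Y = Zfr2 - Zfr1`; `ε = (δ'/(16 M0)) (δ'/M0)^40`; `R = 2^(5e)`; `n` with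
`2^(8e) ≤ (M0/δ')^(2n) ≤ 2^(10e)` (exists since `1 < M0/δ' ≤ 2^(e/100)`).
`mX` = max of the two `mvv`; `aT k b u = 1` iff at all ancestors (levels `k' ∈ [k,K]`, blocks
`b/2^(k'-k)`) `tr τi Di < Γi` and `acc K mX k b u ≤ R`.

* The proof is split over `KeyB` (arithmetic), `KeyC` (vectors, alive objects), `KeyD` (smooth bounds).
* dead objects: `tr_doob` (`budget ≤ 6/lam`: `54 · 2^(40000e)/Γ`), and Markov with `mvv_count`:
  `E #moves ≤ 2 + M0/ε^2`, `M0/ε^2 ≤ 256 (M0/δ')^83`.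
* `|Zfr - Ztr| ≤ 2 ε m`; `e0 := 10 τ1 m1 + 5 τ1 + 10 τ2 m2 + 5 τ2 + sqrt(Γ1/(2^m1 lam1)) + sqrt(Γ2/(2^m2 lam2))
  ≤ 2^(-3000e)`; `e1 = e0 + 2 ε M0 ≤ (δ'/4)(δ'/M0)^40`.
* `smT` : for `v = u + th c + cs z`, `|z| < 4^(k-8a)`, both alive: `Ztr_T` for both systems gives
  `|∑ XY| ≤ |x| + |x'| + e1`, `x = ip (F u) (rsd D1 (pS v) (G v))`, `x'` the same for `D2`; so
  `(∑XY)^(2n) ≤ (2(|x|+|x'|))^(2n) + (2e1)^(2n) ≤ 4^(2n) (x^2 + x'^2)/2 + (2 e1)^(2n)`; `locT_le_cells`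
  with `X = lam 8^k` (`ruleS`, `ip F F ≤ 1`): `locT(x^2) ≤ 8 · 4^(8a) lam`.
  Hence `s = 4^(2n) 8 · 4^(8a) lam + (2 e1)^(2n)`.  `smS` : the same with `Ztr_S`, `ruleT`.
* arithmetic: `4^(8a) = 2^(1280e)`; `(2^a)^2 R s/δ'^(2n)` is at most `2^(-e)`;
  the first term of `key_abs` is at most `10^23 2^(-19e)`.
* finally `|Ztr2 - Ztr1| ≥ δ` implies `|Zfr2 - Zfr1| ≥ δ - 2 ε M0 ≥ δ'`.
-/

namespace NP2
open Finset

noncomputable section

variable {M : ℕ} [NeZero M]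

open Classical in
/-- objects with a large trace are rare, `T`-objects -/
theorem dead_T (K e : ℕ) (he : 1 ≤ e) (F G : A M → ℕ → ℝ) (D : Dict M)
    (hD : IsSys K F G (lamE e) (tauE e) D) :
    ex K (fun c (u : A M) =>
        if ∃ k ≤ K, GamE e ≤ tr (tauE e) D k (c / 2 ^ k) (pT u) then (1 : ℝ) else 0) ≤
      54 * (1 / 2) ^ (80 * e) := keyC_dead K e he F G D hD pT pT_bij

open Classical in
theorem dead_S (K e : ℕ) (he : 1 ≤ e) (F G : A M → ℕ → ℝ) (D : Dict M)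
    (hD : IsSys K F G (lamE e) (tauE e) D) :
    ex K (fun c (v : A M) =>
        if ∃ k ≤ K, GamE e ≤ tr (tauE e) D k (c / 2 ^ k) (pS v) then (1 : ℝ) else 0) ≤
      54 * (1 / 2) ^ (80 * e) := keyC_dead K e he F G D hD pS pS_bij

private theorem key_tri (z1 z2 a1 a2 c1 c2 δ : ℝ) (h1 : |z1 - a1| ≤ c1)
    (h2 : |z2 - a2| ≤ c2) (h : c1 + c2 ≤ δ / 2) (hd : δ ≤ |a2 - a1|) : δ / 2 ≤ |z2 - z1| := by
  rcases le_abs.1 hd with h3 | h3
  · refine le_trans ?_ (le_abs_self _)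
    rw [abs_le] at h1 h2
    linarith [h1.1, h1.2, h2.1, h2.2]
  · refine le_trans ?_ (neg_le_abs _)
    rw [abs_le] at h1 h2
    linarith [h1.1, h1.2, h2.1, h2.2]

open Classical in
theorem key_main (K e : ℕ) (he : 1 ≤ e) (δ : ℝ) (hδ : 0 < δ) (hδ1 : δ ≤ 1)
    (hH : (10 ^ 6 * e / δ) ^ 100 ≤ (2 : ℝ) ^ e) (hK : 4000 * e ≤ K) (hM : 4 ^ K ∣ M)
    (F G : A M → ℕ → ℝ) (hF : ∀ u t, |F u t| ≤ 1) (hG : ∀ u t, |G u t| ≤ 1)
    (D1 D2 : Dict M) (hD1 : IsSys K F G (lamE e) (tauE e) D1)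
    (hD2 : IsSys K F G (lamE (2 * e)) (tauE (2 * e)) D2) :
    ex K (fun c (u : A M) => if ∃ k, 4000 * e ≤ k ∧ k ≤ K ∧
        δ ≤ |Ztr (tauE (2 * e)) D2 (lamE (2 * e)) (mE (2 * e)) k (c / 2 ^ k)
              (pT u) (F u) (pS (u + th M c)) (G (u + th M c))
            - Ztr (tauE e) D1 (lamE e) (mE e) k (c / 2 ^ k)
              (pT u) (F u) (pS (u + th M c)) (G (u + th M c))| then (1 : ℝ) else 0) ≤
      10 ^ 26 * (1 / 2) ^ e := by
  obtain ⟨hε, hεm, hdead, n, hn1, hkey⟩ := keyB_main e he δ hδ hδ1 hH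
  set ε : ℝ := epsK e δ with hεdef
  have he' : (1 : ℝ) ≤ e := by exact_mod_cast he
  have hMle : 4 ^ K ≤ M := Nat.le_of_dvd (NeZero.pos M) hM
  set R : ℝ := 2 ^ (5 * e) with hR
  have hR1 : 1 ≤ R := one_le_pow₀ (by norm_num)
  have hR0 : 0 < R := by linarith
  -- the key event
  have hk := key_abs K (4000 * e) (80 * e) n (by omega) (by omega) hK hMle
    (vF (-1) 1 e K ε D1 D2 pT F) (vF 1 2 e K ε D1 D2 pS G)
    (alF 1 e K ε D1 D2 pT F R) (alF 2 e K ε D1 D2 pS G R)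
    (mvF 1 e K ε D1 D2 pT F) (mvF 2 e K ε D1 D2 pS G)
    (168000 * e) R (δ / 2) (sK e n δ) (by linarith) hR1 (by linarith)
    (by
      unfold sK
      have := (even_two_mul n).pow_nonneg
        (2 * ((1 / 2 : ℝ) ^ (3000 * e) + 2 * epsK e δ * (168000 * e)))
      positivity)
    (alF_01 1 e K ε D1 D2 pT F R) (alF_01 2 e K ε D1 D2 pS G R)
    (mvF_01 1 e K ε D1 D2 pT F) (mvF_01 2 e K ε D1 D2 pS G)
    (alF_mono 1 e K ε D1 D2 pT F R) (alF_mono 2 e K ε D1 D2 pS G R)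
    (mvF_top 1 e K ε D1 D2 pT F) (mvF_top 2 e K ε D1 D2 pS G)
    (fun k _ hk b _ u h => vF_step 1 e K ε D1 D2 pT F (-1) k b hk u h)
    (fun k _ hk b _ u h => vF_step 2 e K ε D1 D2 pS G 1 k b hk u h)
    (fun k _ hk b _ u => vF_norm 1 e K ε D1 D2 pT F (-1) (by norm_num) (by norm_num) hF k b hk u)
    (fun k _ hk b _ u => vF_norm 2 e K ε D1 D2 pS G 1 (by norm_num) (by norm_num) hG k b hk u)
    (fun k _ hk b _ u => alF_acc_le 1 e K ε D1 D2 pT F R hR0.le (K + 1 - k) k (by omega) b u)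
    (fun k _ hk b _ u => alF_acc_le 2 e K ε D1 D2 pS G R hR0.le (K + 1 - k) k (by omega) b u)
    (fun k hk1 hk b hb u _ => keyD_smT K e n he hn1 hM ε hε F G hF hG D1 D2 hD1 hD2 R k b hk1 hk
      hb u)
    (fun k hk1 hk b hb v h => keyD_smS K e n he hn1 hM ε hε F G hF hG D1 D2 hD1 hD2 R k b hk1 hk
      hb v h)
  have hk2 := hk.trans hkey
  -- the dead objects
  have dT := alF_dead 1 e K ε D1 D2 pT F he hε le_rfl F G F G hD1 hD2 pT_bij hF R hR0 (4000 * e)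
    hK
  have dS := alF_dead 2 e K ε D1 D2 pS G he hε (by norm_num) F G F G hD1 hD2 pS_bij hG R hR0
    (4000 * e) hK
  have dS' : ex K (fun c (u : A M) => 1 - alF 2 e K ε D1 D2 pS G R (4000 * e)
        (c / 2 ^ (4000 * e)) (u + th M c)) ≤
      54 * (1 / 2) ^ (80 * e) + 54 * (1 / 2) ^ (80 * (2 * e)) +
        (2 + 168000 * e / ε ^ 2) / R := by
    rw [ex_shift K (fun c u => 1 - alF 2 e K ε D1 D2 pS G R (4000 * e)
        (c / 2 ^ (4000 * e)) u) (fun c => th M c)]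
    exact dS
  -- pointwise
  have hpt : ∀ c < 2 ^ K, ∀ u : A M, (if ∃ k, 4000 * e ≤ k ∧ k ≤ K ∧
        δ ≤ |Ztr (tauE (2 * e)) D2 (lamE (2 * e)) (mE (2 * e)) k (c / 2 ^ k)
              (pT u) (F u) (pS (u + th M c)) (G (u + th M c))
            - Ztr (tauE e) D1 (lamE e) (mE e) k (c / 2 ^ k)
              (pT u) (F u) (pS (u + th M c)) (G (u + th M c))| then (1 : ℝ) else 0) ≤
      ((if ∃ k, 4000 * e ≤ k ∧ k ≤ K ∧ alF 1 e K ε D1 D2 pT F R k (c / 2 ^ k) u = 1 ∧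
        alF 2 e K ε D1 D2 pS G R k (c / 2 ^ k) (u + th M c) = 1 ∧
        δ / 2 ≤ |∑ i, vF (-1) 1 e K ε D1 D2 pT F k (c / 2 ^ k) u i *
          vF 1 2 e K ε D1 D2 pS G k (c / 2 ^ k) (u + th M c) i| then (1 : ℝ) else 0) +
        (1 - alF 1 e K ε D1 D2 pT F R (4000 * e) (c / 2 ^ (4000 * e)) u)) +
        (1 - alF 2 e K ε D1 D2 pS G R (4000 * e) (c / 2 ^ (4000 * e)) (u + th M c)) := by
    intro c _ u
    have i0 : (0 : ℝ) ≤ (if ∃ k, 4000 * e ≤ k ∧ k ≤ K ∧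
        alF 1 e K ε D1 D2 pT F R k (c / 2 ^ k) u = 1 ∧
        alF 2 e K ε D1 D2 pS G R k (c / 2 ^ k) (u + th M c) = 1 ∧
        δ / 2 ≤ |∑ i, vF (-1) 1 e K ε D1 D2 pT F k (c / 2 ^ k) u i *
          vF 1 2 e K ε D1 D2 pS G k (c / 2 ^ k) (u + th M c) i| then (1 : ℝ) else 0) := by
      split_ifs <;> norm_num
    have aT := alF_01 1 e K ε D1 D2 pT F R (4000 * e) (c / 2 ^ (4000 * e)) u
    have aS := alF_01 2 e K ε D1 D2 pS G R (4000 * e) (c / 2 ^ (4000 * e)) (u + th M c)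
    by_cases hE : ∃ k, 4000 * e ≤ k ∧ k ≤ K ∧
        δ ≤ |Ztr (tauE (2 * e)) D2 (lamE (2 * e)) (mE (2 * e)) k (c / 2 ^ k)
              (pT u) (F u) (pS (u + th M c)) (G (u + th M c))
            - Ztr (tauE e) D1 (lamE e) (mE e) k (c / 2 ^ k)
              (pT u) (F u) (pS (u + th M c)) (G (u + th M c))|
    · rw [if_pos hE]
      rcases aT with aT | aT
      · rcases aS with aS | aS <;> rw [aT, aS] <;> linarith
      · rcases aS with aS | aS
        · rw [aT, aS]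
          linarith
        · rw [aT, aS, if_pos]
          · norm_num
          · obtain ⟨k, hk1, hkK, hkd⟩ := hE
            refine ⟨k, hk1, hkK, ?_, ?_, ?_⟩
            · have := alF_path 1 e K ε D1 D2 pT F R (4000 * e) c u (k - 4000 * e) (by omega) aT
              have h2 : 4000 * e + (k - 4000 * e) = k := by omega
              rw [h2] at this
              exact this
            · have := alF_path 2 e K ε D1 D2 pS G R (4000 * e) c (u + th M c) (k - 4000 * e)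
                (by omega) aS
              have h2 : 4000 * e + (k - 4000 * e) = k := by omega
              rw [h2] at this
              exact this
            · rw [vF_inner]
              have c1 := Zfr_close (tauE e) D1 (lamE e) (keyC_lam_pos e) (mE e) ε hε K k
                (c / 2 ^ k) hkK (pT u) (F u) (hF u) (pS (u + th M c)) (G (u + th M c))
                (hG (u + th M c))
              have c2 := Zfr_close (tauE (2 * e)) D2 (lamE (2 * e)) (keyC_lam_pos (2 * e))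
                (mE (2 * e)) ε hε K k (c / 2 ^ k) hkK (pT u) (F u) (hF u) (pS (u + th M c))
                (G (u + th M c)) (hG (u + th M c))
              have hm : 2 * ε * ((mE e : ℕ) : ℝ) + 2 * ε * ((mE (2 * e) : ℕ) : ℝ) =
                  2 * ε * (168000 * e) := by
                unfold mE
                push_cast
                ring
              exact key_tri _ _ _ _ _ _ δ c1 c2 (by linarith) hkd
    · rw [if_neg hE]
      rcases aT with aT | aT <;> rcases aS with aS | aS <;> rw [aT, aS] <;> linarith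
  refine (ex_mono K _ _ hpt).trans ?_
  rw [ex_add, ex_add]
  have hpow1 : ((1 : ℝ) / 2) ^ (80 * e) ≤ (1 / 2) ^ e :=
    pow_le_pow_of_le_one (by norm_num) (by norm_num) (by omega)
  have hpow2 : ((1 : ℝ) / 2) ^ (80 * (2 * e)) ≤ (1 / 2) ^ e :=
    pow_le_pow_of_le_one (by norm_num) (by norm_num) (by omega)
  have hpos : (0 : ℝ) < (1 / 2) ^ e := by positivity
  linarith

end

end NP2
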