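import Mathlib

/-!
# NP2 / Ten : tensor powers
-/

namespace NP2
open Finset

noncomputable section

variable {I : Type} [Fintype I]

/-- tensor power of a vector -/
def ten (n : ℕ) (x : I → ℝ) : EuclideanSpace ℝ (Fin n → I) :=
  WithLp.toLp 2 (fun s => ∏ j, x (s j))

theorem inner_ten (n : ℕ) (x y : I → ℝ) :
    inner ℝ (ten n x) (ten n y) = (∑ i, x i * y i) ^ n := by
  classical
  have h1 : (∑ i, x i * y i) ^ n = ∏ _j : Fin n, ∑ i, x i * y i := by
    rw [Finset.prod_const, Finset.card_univ, Fintype.card_fin]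
  rw [h1, Finset.prod_univ_sum, Fintype.piFinset_univ, PiLp.inner_apply]
  refine Finset.sum_congr rfl (fun s _ => ?_)
  simp only [ten, Finset.prod_mul_distrib, RCLike.inner_apply, conj_trivial]
  ring

theorem norm_ten_sq (n : ℕ) (x : I → ℝ) : ‖ten n x‖ ^ 2 = (∑ i, x i ^ 2) ^ n := by
  rw [← real_inner_self_eq_norm_sq, inner_ten]
  congr 1
  exact Finset.sum_congr rfl (fun i _ => (pow_two (x i)).symm)

end

end NP2
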