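import Pool.Agent.NP2.Mir
import Pool.Agent.NP2.Ten
import Pool.Agent.NP2.Cel

/-!
# NP2 / KeyA : abstract key lemma

`X` a `T`-process, `Y` an `S`-process with values in `I → ℝ`, changing only at moves `mX`, `mY`
(`= 1` at the top level); `aT, aS` alive indicators, once dead always dead; at most `R` moves
while alive.  `y_k = ∑ X Y`.

On the event: let `k` be the largest level in `[k1,K]` with `|y_k| ≥ δ`; both objects are alive at
`k` (monotonicity) and `k = K` or `y_k ≠ y_(k+1)`, so `mX k = 1` or `mY k = 1`.  Hence the probability is at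
most `∑_k E aT aS (mX + mY) (y_k/δ)^(2n)`.  `(y_k)^(2n) = inner (ten (2n) X) (ten (2n) Y)`.

`T`-part: `p = aT mX ten(2n) X`, `V = aS ten(2n) Y` (`0` at levels `> K`), `mT' = aT mX`,
`mS' k = max (aS mY) (aS (k+1) - aS k)` for `k < K`, `mS' K = aS mY`: at most `R + 1` on a path
(one death).  `‖ten (2n) X‖ ≤ M0^n`.  `flux_main`: `∑_k tp (p k) (ro (V k))` is small;
`∑_k tp (p k) (sm (V k)) ≤ Q^2 ∑_k E aT mX locT(..) ≤ Q^2 R s` (`CQ_abs_le`, the powers are even).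
`S`-part: the same with `flux_mirror` and `smS`.
-/

namespace NP2
open Finset

noncomputable section

variable {M : ℕ} [NeZero M]

section general
variable {E : Type*} [NormedAddCommGroup E] [InnerProductSpace ℝ E]

omit [NeZero M] in
private theorem inner_sm (Q i : ℕ) (x : E) (V : A M → E) (v : A M)
    (h0 : ∀ v, 0 ≤ inner ℝ x (V v)) :
    inner ℝ x (sm Q i V v) ≤ (Q : ℝ) ^ 2 * ((∑ j ∈ range (4 ^ i), ∑ j' ∈ range (4 ^ i),
      inner ℝ x (V (v + cs M ((j : ℤ) - j')))) / ((4 : ℝ) ^ i) ^ 2) := by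
  unfold sm
  rw [inner_smul_right, inner_sum]
  have h1 : ∑ j ∈ range (4 ^ i), inner ℝ x (∑ j' ∈ range (4 ^ i),
      CQ Q ((j : ℤ) - j') • V (v + cs M ((j : ℤ) - j'))) ≤
      (Q : ℝ) ^ 2 * ∑ j ∈ range (4 ^ i), ∑ j' ∈ range (4 ^ i),
        inner ℝ x (V (v + cs M ((j : ℤ) - j'))) := by
    rw [Finset.mul_sum]
    refine Finset.sum_le_sum (fun j _ => ?_)
    rw [inner_sum, Finset.mul_sum]
    refine Finset.sum_le_sum (fun j' _ => ?_)
    rw [inner_smul_right]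
    exact mul_le_mul_of_nonneg_right ((le_abs_self _).trans (CQ_abs_le Q _)) (h0 _)
  have h2 : (0 : ℝ) < ((4 : ℝ) ^ i) ^ 2 := by positivity
  calc (1 : ℝ) / ((4 : ℝ) ^ i) ^ 2 * ∑ j ∈ range (4 ^ i), inner ℝ x (∑ j' ∈ range (4 ^ i),
      CQ Q ((j : ℤ) - j') • V (v + cs M ((j : ℤ) - j'))) ≤
      (1 : ℝ) / ((4 : ℝ) ^ i) ^ 2 * ((Q : ℝ) ^ 2 * ∑ j ∈ range (4 ^ i), ∑ j' ∈ range (4 ^ i),
        inner ℝ x (V (v + cs M ((j : ℤ) - j')))) := mul_le_mul_of_nonneg_left h1 (by positivity)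
    _ = _ := by ring

private theorem sum_blocks (N m : ℕ) (f : ℕ → ℝ) :
    ∑ c ∈ range (N * m), f c = ∑ b ∈ range N, ∑ c ∈ range m, f (b * m + c) := by
  induction N with
  | zero => simp
  | succ N ih => rw [Nat.succ_mul, Finset.sum_range_add, Finset.sum_range_succ, ih]

private theorem sum_blocks2 (K k : ℕ) (hk : k ≤ K) (f : ℕ → ℕ → ℝ) :
    ∑ c ∈ range (2 ^ K), f (c / 2 ^ k) c =
      ∑ b ∈ range (2 ^ (K - k)), ∑ c ∈ range (2 ^ k), f b (b * 2 ^ k + c) := by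
  have h1 : 2 ^ K = 2 ^ (K - k) * 2 ^ k := by rw [← pow_add, Nat.sub_add_cancel hk]
  rw [h1, sum_blocks]
  refine Finset.sum_congr rfl (fun b _ => Finset.sum_congr rfl (fun c hc => ?_))
  have h2 : (b * 2 ^ k + c) / 2 ^ k = b := by
    rw [Finset.mem_range] at hc
    rw [Nat.add_comm, Nat.add_mul_div_right _ _ (by positivity), Nat.div_eq_of_lt hc, Nat.zero_add]
  rw [h2]

private theorem ex_block_le (K k : ℕ) (hk : k ≤ K) (F : ℕ → ℕ → A M → ℝ) (P : ℕ → A M → ℝ)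
    (h : ∀ b < 2 ^ (K - k), ∀ u, (∑ c ∈ range (2 ^ k), F b (b * 2 ^ k + c) u) / 2 ^ k ≤ P b u) :
    ex K (fun c u => F (c / 2 ^ k) c u) ≤ ex K (fun c u => P (c / 2 ^ k) u) := by
  unfold ex
  refine div_le_div_of_nonneg_right ?_ (by positivity)
  rw [sum_blocks2 K k hk (fun b c => ∑ u : A M, F b c u),
    sum_blocks2 K k hk (fun b _ => ∑ u : A M, P b u)]
  refine Finset.sum_le_sum (fun b hb => ?_)
  rw [Finset.sum_comm, Finset.sum_comm (s := range (2 ^ k))]
  refine Finset.sum_le_sum (fun u _ => ?_)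
  have h1 := h b (Finset.mem_range.1 hb) u
  rw [div_le_iff₀ (by positivity)] at h1
  rw [Finset.sum_const, Finset.card_range, nsmul_eq_mul]
  push_cast
  linarith

/-- the smooth part of a flux -/
private theorem smooth_part (K k i Q : ℕ) (hk : k ≤ K) (tie : ℕ → A M → A M)
    (p V : ℕ → A M → E) (P : ℕ → A M → ℝ) (s : ℝ)
    (h0 : ∀ b u v, 0 ≤ inner ℝ (p b u) (V b v))
    (h1 : ∀ b < 2 ^ (K - k), ∀ u, (∑ c ∈ range (2 ^ k), ∑ j ∈ range (4 ^ i),
      ∑ j' ∈ range (4 ^ i), inner ℝ (p b u) (V b (tie (b * 2 ^ k + c) u + cs M ((j : ℤ) - j')))) /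
        (2 ^ k * ((4 : ℝ) ^ i) ^ 2) ≤ P b u * s) :
    ex K (fun c u => inner ℝ (p (c / 2 ^ k) u) (sm Q i (V (c / 2 ^ k)) (tie c u))) ≤
      (Q : ℝ) ^ 2 * s * ex K (fun c u => P (c / 2 ^ k) u) := by
  have h2 : ex K (fun c u => inner ℝ (p (c / 2 ^ k) u) (sm Q i (V (c / 2 ^ k)) (tie c u))) ≤
      ex K (fun c u => (Q : ℝ) ^ 2 * s * P (c / 2 ^ k) u) := by
    refine ex_block_le K k hk (fun b c u => inner ℝ (p b u) (sm Q i (V b) (tie c u)))
      (fun b u => (Q : ℝ) ^ 2 * s * P b u) (fun b hb u => ?_)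
    have h3 := h1 b hb u
    have h4 : ∑ c ∈ range (2 ^ k), inner ℝ (p b u) (sm Q i (V b) (tie (b * 2 ^ k + c) u)) ≤
        (Q : ℝ) ^ 2 * ((∑ c ∈ range (2 ^ k), ∑ j ∈ range (4 ^ i), ∑ j' ∈ range (4 ^ i),
          inner ℝ (p b u) (V b (tie (b * 2 ^ k + c) u + cs M ((j : ℤ) - j')))) /
            ((4 : ℝ) ^ i) ^ 2) := by
      rw [Finset.sum_div, Finset.mul_sum]
      exact Finset.sum_le_sum (fun c _ => inner_sm Q i _ _ _ (h0 b u))
    calc (∑ c ∈ range (2 ^ k), inner ℝ (p b u) (sm Q i (V b) (tie (b * 2 ^ k + c) u))) / 2 ^ k ≤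
        ((Q : ℝ) ^ 2 * ((∑ c ∈ range (2 ^ k), ∑ j ∈ range (4 ^ i), ∑ j' ∈ range (4 ^ i),
          inner ℝ (p b u) (V b (tie (b * 2 ^ k + c) u + cs M ((j : ℤ) - j')))) /
            ((4 : ℝ) ^ i) ^ 2)) / 2 ^ k := div_le_div_of_nonneg_right h4 (by positivity)
      _ = (Q : ℝ) ^ 2 * ((∑ c ∈ range (2 ^ k), ∑ j ∈ range (4 ^ i), ∑ j' ∈ range (4 ^ i),
          inner ℝ (p b u) (V b (tie (b * 2 ^ k + c) u + cs M ((j : ℤ) - j')))) /
            (2 ^ k * ((4 : ℝ) ^ i) ^ 2)) := by field_simp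
      _ ≤ (Q : ℝ) ^ 2 * (P b u * s) := mul_le_mul_of_nonneg_left h3 (by positivity)
      _ = (Q : ℝ) ^ 2 * s * P b u := by ring
  exact h2.trans (le_of_eq (ex_smul K _ _))

end general


private theorem norm_ten_le {I : Type} [Fintype I] (n : ℕ) (x : I → ℝ) (M0 : ℝ) (h0 : 0 ≤ M0)
    (h : ∑ i, x i ^ 2 ≤ M0) : ‖ten (2 * n) x‖ ≤ M0 ^ n := by
  have h1 : ‖ten (2 * n) x‖ ^ 2 ≤ (M0 ^ n) ^ 2 := by
    rw [norm_ten_sq, ← pow_mul, Nat.mul_comm n 2]
    exact pow_le_pow_left₀ (Finset.sum_nonneg (fun i _ => sq_nonneg _)) h _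
  exact abs_le_of_sq_le_sq' h1 (by positivity) |>.2

/-- at most one death -/
private theorem acc_death (K k1 : ℕ) (aS mY : ℕ → ℕ → A M → ℝ) (mS : ℕ → ℕ → A M → ℝ)
    (aS01 : ∀ k b u, aS k b u = 0 ∨ aS k b u = 1)
    (h1 : ∀ b u, mS K b u ≤ aS K b u * mY K b u)
    (h2 : ∀ k < K, ∀ b u, mS k b u ≤ aS k b u * mY k b u + (aS (k + 1) (b / 2) u - aS k b u))
    (d : ℕ) : ∀ k, k1 ≤ k → k + d = K → ∀ b u,
      acc K mS k b u ≤ acc K (fun k b u => aS k b u * mY k b u) k b u + (1 - aS k b u) := by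
  induction d with
  | zero =>
    intro k _ hkd b u
    have hk : k = K := by omega
    subst hk
    rw [acc_step k k le_rfl, acc_step k k le_rfl, acc_top, acc_top]
    have := h1 b u
    have h3 : aS k b u ≤ 1 := by rcases aS01 k b u with h | h <;> rw [h] <;> norm_num
    linarith
  | succ d ih =>
    intro k hk hkd b u
    rw [acc_step K k (by omega), acc_step K k (by omega)]
    have h3 := ih (k + 1) (by omega) (by omega) (b / 2) u
    have h4 := h2 k (by omega) b u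
    linarith

open Classical in
private theorem part {I : Type} [Fintype I] (K k1 a n : ℕ) (hk1 : k1 ≤ K)
    (tie : ℕ → A M → A M)
    (flux : ∀ (mT mS : ℕ → ℕ → A M → ℝ)
      (p V : ℕ → ℕ → A M → EuclideanSpace ℝ (Fin (2 * n) → I)) (Bp BV R : ℝ),
      1 ≤ R → 0 ≤ Bp → 0 ≤ BV →
      (∀ k b u, 0 ≤ mT k b u) → (∀ k b u, 0 ≤ mS k b u) →
      (∀ k b u, mT k b u ≤ 1) → (∀ k b u, mS k b u ≤ 1) →
      (∀ k, k1 ≤ k → k ≤ K → ∀ b < 2 ^ (K - k), ∀ u, acc K mT k b u ≤ R) →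
      (∀ k, k1 ≤ k → k ≤ K → ∀ b < 2 ^ (K - k), ∀ u, acc K mS k b u ≤ R) →
      (∀ k, k1 ≤ k → k ≤ K → ∀ b < 2 ^ (K - k), ∀ u, ‖p k b u‖ ≤ Bp * mT k b u) →
      (∀ k, k1 ≤ k → k ≤ K → ∀ b < 2 ^ (K - k), ∀ u, ‖V k b u‖ ≤ BV) →
      (∀ b u, V (K + 1) b u = 0) →
      (∀ k, k1 ≤ k → k ≤ K → ∀ b < 2 ^ (K - k), ∀ u,
        ‖V k b u - V (k + 1) (b / 2) u‖ ≤ 2 * BV * mS k b u) →
      |∑ k ∈ Icc k1 K, ex K (fun c u => inner ℝ (p k (c / 2 ^ k) u)
        (ro (2 ^ a) (k - 8 * a) (V k) (c / 2 ^ k) (tie c u)))| ≤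
        10 ^ 20 * Bp * BV * R ^ 2 * (a + 1) / Real.sqrt (2 ^ a))
    (X Y : ℕ → ℕ → A M → I → ℝ)
    (aT aS mX mY : ℕ → ℕ → A M → ℝ) (M0 R s : ℝ)
    (hM0 : 1 ≤ M0) (hR : 1 ≤ R) (hs : 0 ≤ s)
    (aT01 : ∀ k b u, aT k b u = 0 ∨ aT k b u = 1) (aS01 : ∀ k b u, aS k b u = 0 ∨ aS k b u = 1)
    (mX01 : ∀ k b u, mX k b u = 0 ∨ mX k b u = 1) (mY01 : ∀ k b u, mY k b u = 0 ∨ mY k b u = 1)
    (aSm : ∀ k < K, ∀ b u, aS k b u ≤ aS (k + 1) (b / 2) u)
    (mYK : ∀ b u, mY K b u = 1)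
    (hY : ∀ k, k1 ≤ k → k < K → ∀ b < 2 ^ (K - k), ∀ u, mY k b u = 0 →
      Y k b u = Y (k + 1) (b / 2) u)
    (nX : ∀ k, k1 ≤ k → k ≤ K → ∀ b < 2 ^ (K - k), ∀ u, ∑ i, X k b u i ^ 2 ≤ M0)
    (nY : ∀ k, k1 ≤ k → k ≤ K → ∀ b < 2 ^ (K - k), ∀ u, ∑ i, Y k b u i ^ 2 ≤ M0)
    (cX : ∀ k, k1 ≤ k → k ≤ K → ∀ b < 2 ^ (K - k), ∀ u,
      acc K (fun k b u => aT k b u * mX k b u) k b u ≤ R)
    (cY : ∀ k, k1 ≤ k → k ≤ K → ∀ b < 2 ^ (K - k), ∀ u,
      acc K (fun k b u => aS k b u * mY k b u) k b u ≤ R)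
    (sm1 : ∀ k, k1 ≤ k → k ≤ K → ∀ b < 2 ^ (K - k), ∀ u, aT k b u = 1 →
      (∑ c ∈ range (2 ^ k), ∑ j ∈ range (4 ^ (k - 8 * a)), ∑ j' ∈ range (4 ^ (k - 8 * a)),
        aS k b (tie (b * 2 ^ k + c) u + cs M ((j : ℤ) - j')) *
          (∑ i, X k b u i * Y k b (tie (b * 2 ^ k + c) u + cs M ((j : ℤ) - j')) i) ^ (2 * n)) /
        (2 ^ k * ((4 : ℝ) ^ (k - 8 * a)) ^ 2) ≤ s) :
    ∑ k ∈ Icc k1 K, ex K (fun c u => aT k (c / 2 ^ k) u * mX k (c / 2 ^ k) u *
        aS k (c / 2 ^ k) (tie c u) *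
        (∑ i, X k (c / 2 ^ k) u i * Y k (c / 2 ^ k) (tie c u) i) ^ (2 * n)) ≤
      10 ^ 20 * M0 ^ (2 * n) * (R + 1) ^ 2 * (a + 1) / Real.sqrt (2 ^ a)
        + ((2 : ℝ) ^ a) ^ 2 * R * s := by
  set p : ℕ → ℕ → A M → EuclideanSpace ℝ (Fin (2 * n) → I) :=
    fun k b u => (aT k b u * mX k b u) • ten (2 * n) (X k b u) with hp
  set V : ℕ → ℕ → A M → EuclideanSpace ℝ (Fin (2 * n) → I) :=
    fun k b v => if k ≤ K then aS k b v • ten (2 * n) (Y k b v) else 0 with hV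
  have hM0' : (0 : ℝ) ≤ M0 := by linarith
  have aT0 : ∀ k b u, 0 ≤ aT k b u := fun k b u => by
    rcases aT01 k b u with h | h <;> rw [h] <;> norm_num
  have aS0 : ∀ k b u, 0 ≤ aS k b u := fun k b u => by
    rcases aS01 k b u with h | h <;> rw [h] <;> norm_num
  have mX0 : ∀ k b u, 0 ≤ mX k b u := fun k b u => by
    rcases mX01 k b u with h | h <;> rw [h] <;> norm_num
  have mY0 : ∀ k b u, 0 ≤ mY k b u := fun k b u => by
    rcases mY01 k b u with h | h <;> rw [h] <;> norm_num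
  have aT1 : ∀ k b u, aT k b u ≤ 1 := fun k b u => by
    rcases aT01 k b u with h | h <;> rw [h] <;> norm_num
  have aS1 : ∀ k b u, aS k b u ≤ 1 := fun k b u => by
    rcases aS01 k b u with h | h <;> rw [h] <;> norm_num
  have mX1 : ∀ k b u, mX k b u ≤ 1 := fun k b u => by
    rcases mX01 k b u with h | h <;> rw [h] <;> norm_num
  have mY1 : ∀ k b u, mY k b u ≤ 1 := fun k b u => by
    rcases mY01 k b u with h | h <;> rw [h] <;> norm_num
  have hin : ∀ k ≤ K, ∀ b u v, inner ℝ (p k b u) (V k b v) =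
      aT k b u * mX k b u * aS k b v * (∑ i, X k b u i * Y k b v i) ^ (2 * n) := by
    intro k hk b u v
    simp only [hp, hV, if_pos hk]
    rw [real_inner_smul_left, real_inner_smul_right, inner_ten]
    ring
  have hin0 : ∀ k ≤ K, ∀ b u v, 0 ≤ inner ℝ (p k b u) (V k b v) := by
    intro k hk b u v
    rw [hin k hk]
    exact mul_nonneg (mul_nonneg (mul_nonneg (aT0 _ _ _) (mX0 _ _ _)) (aS0 _ _ _))
      (Even.pow_nonneg (even_two_mul n) _)
  -- splitting
  have hsplit : ∀ k ∈ Icc k1 K, ex K (fun c u => aT k (c / 2 ^ k) u * mX k (c / 2 ^ k) u *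
        aS k (c / 2 ^ k) (tie c u) *
        (∑ i, X k (c / 2 ^ k) u i * Y k (c / 2 ^ k) (tie c u) i) ^ (2 * n)) =
      ex K (fun c u => inner ℝ (p k (c / 2 ^ k) u)
        (ro (2 ^ a) (k - 8 * a) (V k) (c / 2 ^ k) (tie c u))) +
      ex K (fun c u => inner ℝ (p k (c / 2 ^ k) u)
        (sm (2 ^ a) (k - 8 * a) (V k (c / 2 ^ k)) (tie c u))) := by
    intro k hk
    rw [← ex_add]
    congr 1
    funext c u
    rw [← inner_add_right]
    unfold ro
    rw [sub_add_cancel, hin k (Finset.mem_Icc.1 hk).2]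
  rw [Finset.sum_congr rfl hsplit, Finset.sum_add_distrib]
  -- the rough part
  have hrough : |∑ k ∈ Icc k1 K, ex K (fun c u => inner ℝ (p k (c / 2 ^ k) u)
        (ro (2 ^ a) (k - 8 * a) (V k) (c / 2 ^ k) (tie c u)))| ≤
        10 ^ 20 * M0 ^ n * M0 ^ n * (R + 1) ^ 2 * (a + 1) / Real.sqrt (2 ^ a) := by
    set mS : ℕ → ℕ → A M → ℝ := fun k b u =>
      if k < K then max (aS k b u * mY k b u) (aS (k + 1) (b / 2) u - aS k b u)
      else aS k b u * mY k b u with hmS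
    have haY0 : ∀ k b u, 0 ≤ aS k b u * mY k b u := fun k b u => mul_nonneg (aS0 _ _ _) (mY0 _ _ _)
    have haY1 : ∀ k b u, aS k b u * mY k b u ≤ 1 := fun k b u =>
      mul_le_one₀ (aS1 _ _ _) (mY0 _ _ _) (mY1 _ _ _)
    have hnp : ∀ k, k1 ≤ k → k ≤ K → ∀ b < 2 ^ (K - k), ∀ u,
        ‖p k b u‖ ≤ M0 ^ n * (aT k b u * mX k b u) := by
      intro k h1 h2 b hb u
      simp only [hp]
      rw [norm_smul, Real.norm_of_nonneg (mul_nonneg (aT0 _ _ _) (mX0 _ _ _)), mul_comm]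
      exact mul_le_mul_of_nonneg_right (norm_ten_le n _ M0 hM0' (nX k h1 h2 b hb u))
        (mul_nonneg (aT0 _ _ _) (mX0 _ _ _))
    have hnV' : ∀ k, k1 ≤ k → k ≤ K → ∀ b < 2 ^ (K - k), ∀ u,
        ‖V k b u‖ ≤ M0 ^ n * aS k b u := by
      intro k h1 h2 b hb u
      simp only [hV, if_pos h2]
      rw [norm_smul, Real.norm_of_nonneg (aS0 _ _ _), mul_comm]
      exact mul_le_mul_of_nonneg_right (norm_ten_le n _ M0 hM0' (nY k h1 h2 b hb u))
        (aS0 _ _ _)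
    have hMn : (0 : ℝ) ≤ M0 ^ n := by positivity
    have hnV : ∀ k, k1 ≤ k → k ≤ K → ∀ b < 2 ^ (K - k), ∀ u, ‖V k b u‖ ≤ M0 ^ n := by
      intro k h1 h2 b hb u
      refine (hnV' k h1 h2 b hb u).trans ?_
      calc M0 ^ n * aS k b u ≤ M0 ^ n * 1 := mul_le_mul_of_nonneg_left (aS1 _ _ _) hMn
        _ = M0 ^ n := mul_one _
    refine flux (fun k b u => aT k b u * mX k b u) mS p V (M0 ^ n) (M0 ^ n) (R + 1)
      (by linarith) hMn hMn (fun k b u => mul_nonneg (aT0 _ _ _) (mX0 _ _ _)) ?_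
      (fun k b u => mul_le_one₀ (aT1 _ _ _) (mX0 _ _ _) (mX1 _ _ _)) ?_
      (fun k h1 h2 b hb u => (cX k h1 h2 b hb u).trans (by linarith)) ?_ hnp hnV ?_ ?_
    · intro k b u
      simp only [hmS]
      split_ifs
      · exact le_max_of_le_left (haY0 _ _ _)
      · exact haY0 _ _ _
    · intro k b u
      simp only [hmS]
      split_ifs
      · refine max_le (haY1 _ _ _) ?_
        have h1 := aS1 (k + 1) (b / 2) u
        have h2 := aS0 k b u
        linarith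
      · exact haY1 _ _ _
    · intro k h1 h2 b hb u
      have h3 := acc_death K k1 aS mY mS aS01 (fun b u => by simp [hmS]) (fun k hk b u => by
        simp only [hmS, if_pos hk]
        refine max_le ?_ ?_
        · have := aSm k hk b u
          linarith
        · have := haY0 k b u
          linarith) (K - k) k h1 (by omega) b u
      have h4 := cY k h1 h2 b hb u
      have h5 := aS0 k b u
      linarith
    · intro b u
      simp only [hV]
      rw [if_neg (by omega)]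
    · intro k h1 h2 b hb u
      rcases Nat.lt_or_ge k K with hk | hk
      · have hmSk : mS k b u = max (aS k b u * mY k b u) (aS (k + 1) (b / 2) u - aS k b u) := by
          simp only [hmS, if_pos hk]
        have hb2 : b / 2 < 2 ^ (K - (k + 1)) := by
          have : 2 ^ (K - k) = 2 * 2 ^ (K - (k + 1)) := by
            rw [← pow_succ']
            congr 1
            omega
          omega
        have e1 : V k b u = aS k b u • ten (2 * n) (Y k b u) := by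
          simp only [hV, if_pos h2]
        have e2 : V (k + 1) (b / 2) u =
            aS (k + 1) (b / 2) u • ten (2 * n) (Y (k + 1) (b / 2) u) := by
          simp only [hV]
          rw [if_pos (by omega)]
        have n1 := hnV k h1 h2 b hb u
        have n2 := hnV (k + 1) (by omega) (by omega) (b / 2) hb2 u
        have n3 : ‖V k b u - V (k + 1) (b / 2) u‖ ≤ 2 * M0 ^ n :=
          (norm_sub_le _ _).trans (by linarith)
        have big : mS k b u = 1 → ‖V k b u - V (k + 1) (b / 2) u‖ ≤ 2 * M0 ^ n * mS k b u := by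
          intro h
          rw [h, mul_one]
          exact n3
        have hm0 : 0 ≤ mS k b u := by
          rw [hmSk]
          exact le_max_of_le_left (haY0 _ _ _)
        have hbd : V k b u = V (k + 1) (b / 2) u →
            ‖V k b u - V (k + 1) (b / 2) u‖ ≤ 2 * M0 ^ n * mS k b u := by
          intro h
          rw [h, sub_self, norm_zero]
          positivity
        rcases aS01 k b u with ha | ha
        · rcases aS01 (k + 1) (b / 2) u with ha' | ha'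
          · apply hbd
            rw [e1, e2, ha, ha', zero_smul, zero_smul]
          · apply big
            rw [hmSk, ha, ha']
            norm_num
        · have ha' : aS (k + 1) (b / 2) u = 1 := by
            have := aSm k hk b u
            rcases aS01 (k + 1) (b / 2) u with h | h
            · rw [ha, h] at this
              norm_num at this
            · exact h
          rcases mY01 k b u with hm | hm
          · apply hbd
            rw [e1, e2, ha, ha', hY k h1 hk b hb u hm]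
          · apply big
            rw [hmSk, ha, ha', hm]
            norm_num
      · have hkK : k = K := le_antisymm h2 hk
        subst hkK
        have e2 : V (k + 1) (b / 2) u = 0 := by
          simp only [hV]
          rw [if_neg (by omega)]
        rw [e2, sub_zero]
        have hmSk : mS k b u = aS k b u := by
          simp only [hmS, lt_irrefl, if_false, mYK, mul_one]
        rw [hmSk]
        have := hnV' k h1 le_rfl b hb u
        have h6 : 0 ≤ M0 ^ n * aS k b u := mul_nonneg hMn (aS0 _ _ _)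
        linarith
  -- the smooth part
  have hsmooth : ∀ k ∈ Icc k1 K, ex K (fun c u => inner ℝ (p k (c / 2 ^ k) u)
        (sm (2 ^ a) (k - 8 * a) (V k (c / 2 ^ k)) (tie c u))) ≤
      (((2 ^ a : ℕ) : ℝ)) ^ 2 * s * ex K (fun c u => aT k (c / 2 ^ k) u * mX k (c / 2 ^ k) u) := by
    intro k hk
    obtain ⟨h1, h2⟩ := Finset.mem_Icc.1 hk
    refine smooth_part K k (k - 8 * a) (2 ^ a) h2 tie (p k) (V k)
      (fun b u => aT k b u * mX k b u) s (hin0 k h2) (fun b hb u => ?_)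
    have h3 : (∑ c ∈ range (2 ^ k), ∑ j ∈ range (4 ^ (k - 8 * a)),
        ∑ j' ∈ range (4 ^ (k - 8 * a)),
        inner ℝ (p k b u) (V k b (tie (b * 2 ^ k + c) u + cs M ((j : ℤ) - j')))) =
        (aT k b u * mX k b u) *
        (∑ c ∈ range (2 ^ k), ∑ j ∈ range (4 ^ (k - 8 * a)), ∑ j' ∈ range (4 ^ (k - 8 * a)),
        aS k b (tie (b * 2 ^ k + c) u + cs M ((j : ℤ) - j')) *
          (∑ i, X k b u i * Y k b (tie (b * 2 ^ k + c) u + cs M ((j : ℤ) - j')) i) ^ (2 * n)) := by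
      simp only [Finset.mul_sum]
      refine Finset.sum_congr rfl (fun c _ => Finset.sum_congr rfl (fun j _ =>
        Finset.sum_congr rfl (fun j' _ => ?_)))
      rw [hin k h2]
      ring
    rw [h3, mul_div_assoc]
    rcases aT01 k b u with h | h
    · rw [h]
      simp
    · exact mul_le_mul_of_nonneg_left (sm1 k h1 h2 b hb u h)
        (mul_nonneg (aT0 _ _ _) (mX0 _ _ _))
  have hcount : ∑ k ∈ Icc k1 K, ex K (fun c u => aT k (c / 2 ^ k) u * mX k (c / 2 ^ k) u) ≤ R := by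
    rw [← ex_sum]
    have h1 : ex K (fun c u => ∑ k ∈ Icc k1 K, aT k (c / 2 ^ k) u * mX k (c / 2 ^ k) u) ≤
        ex K (fun _ (_ : A M) => R) := by
      refine ex_mono K _ _ (fun c hc u => ?_)
      have h2 := cX k1 le_rfl hk1 (c / 2 ^ k1) (by
        rw [Nat.div_lt_iff_lt_mul (by positivity), ← pow_add, Nat.sub_add_cancel hk1]
        exact hc) u
      rw [acc_path] at h2
      exact h2
    exact h1.trans (le_of_eq (ex_const K R))
  have hsm : ∑ k ∈ Icc k1 K, ex K (fun c u => inner ℝ (p k (c / 2 ^ k) u)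
        (sm (2 ^ a) (k - 8 * a) (V k (c / 2 ^ k)) (tie c u))) ≤ ((2 : ℝ) ^ a) ^ 2 * R * s := by
    calc _ ≤ ∑ k ∈ Icc k1 K, (((2 ^ a : ℕ) : ℝ)) ^ 2 * s *
          ex K (fun c u => aT k (c / 2 ^ k) u * mX k (c / 2 ^ k) u) :=
          Finset.sum_le_sum hsmooth
      _ = (((2 ^ a : ℕ) : ℝ)) ^ 2 * s *
          ∑ k ∈ Icc k1 K, ex K (fun c u => aT k (c / 2 ^ k) u * mX k (c / 2 ^ k) u) := by
          rw [Finset.mul_sum]
      _ ≤ (((2 ^ a : ℕ) : ℝ)) ^ 2 * s * R := mul_le_mul_of_nonneg_left hcount (by positivity)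
      _ = ((2 : ℝ) ^ a) ^ 2 * R * s := by
          push_cast
          ring
  have hr := (le_abs_self _).trans hrough
  have e : (10 : ℝ) ^ 20 * M0 ^ n * M0 ^ n * (R + 1) ^ 2 * (a + 1) / Real.sqrt (2 ^ a) =
      10 ^ 20 * M0 ^ (2 * n) * (R + 1) ^ 2 * (a + 1) / Real.sqrt (2 ^ a) := by
    rw [two_mul, pow_add]
    ring
  rw [e] at hr
  exact add_le_add hr hsm

open Classical in
theorem key_abs (K k1 a n : ℕ) (ha : 1 ≤ a) (hak : 50 * a ≤ k1) (hk1 : k1 ≤ K)
    (hM : 4 ^ K ≤ M) {I : Type} [Fintype I] (X Y : ℕ → ℕ → A M → I → ℝ)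
    (aT aS mX mY : ℕ → ℕ → A M → ℝ) (M0 R δ s : ℝ)
    (hM0 : 1 ≤ M0) (hR : 1 ≤ R) (hδ : 0 < δ) (hs : 0 ≤ s)
    (aT01 : ∀ k b u, aT k b u = 0 ∨ aT k b u = 1) (aS01 : ∀ k b u, aS k b u = 0 ∨ aS k b u = 1)
    (mX01 : ∀ k b u, mX k b u = 0 ∨ mX k b u = 1) (mY01 : ∀ k b u, mY k b u = 0 ∨ mY k b u = 1)
    (aTm : ∀ k < K, ∀ b u, aT k b u ≤ aT (k + 1) (b / 2) u)
    (aSm : ∀ k < K, ∀ b u, aS k b u ≤ aS (k + 1) (b / 2) u)
    (mXK : ∀ b u, mX K b u = 1) (mYK : ∀ b u, mY K b u = 1)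
    (hX : ∀ k, k1 ≤ k → k < K → ∀ b < 2 ^ (K - k), ∀ u, mX k b u = 0 →
      X k b u = X (k + 1) (b / 2) u)
    (hY : ∀ k, k1 ≤ k → k < K → ∀ b < 2 ^ (K - k), ∀ u, mY k b u = 0 →
      Y k b u = Y (k + 1) (b / 2) u)
    (nX : ∀ k, k1 ≤ k → k ≤ K → ∀ b < 2 ^ (K - k), ∀ u, ∑ i, X k b u i ^ 2 ≤ M0)
    (nY : ∀ k, k1 ≤ k → k ≤ K → ∀ b < 2 ^ (K - k), ∀ u, ∑ i, Y k b u i ^ 2 ≤ M0)
    (cX : ∀ k, k1 ≤ k → k ≤ K → ∀ b < 2 ^ (K - k), ∀ u,
      acc K (fun k b u => aT k b u * mX k b u) k b u ≤ R)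
    (cY : ∀ k, k1 ≤ k → k ≤ K → ∀ b < 2 ^ (K - k), ∀ u,
      acc K (fun k b u => aS k b u * mY k b u) k b u ≤ R)
    (smT : ∀ k, k1 ≤ k → k ≤ K → ∀ b < 2 ^ (K - k), ∀ u, aT k b u = 1 →
      locT k (k - 8 * a) b (fun v => aS k b v * (∑ i, X k b u i * Y k b v i) ^ (2 * n)) u ≤ s)
    (smS : ∀ k, k1 ≤ k → k ≤ K → ∀ b < 2 ^ (K - k), ∀ v, aS k b v = 1 →
      locS k (k - 8 * a) b (fun u => aT k b u * (∑ i, X k b u i * Y k b v i) ^ (2 * n)) v ≤ s) :
    ex K (fun c u => if ∃ k, k1 ≤ k ∧ k ≤ K ∧ aT k (c / 2 ^ k) u = 1 ∧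
        aS k (c / 2 ^ k) (u + th M c) = 1 ∧
        δ ≤ |∑ i, X k (c / 2 ^ k) u i * Y k (c / 2 ^ k) (u + th M c) i| then (1 : ℝ) else 0) ≤
      2 * (10 ^ 20 * M0 ^ (2 * n) * (R + 1) ^ 2 * (a + 1) / Real.sqrt (2 ^ a)
        + ((2 : ℝ) ^ a) ^ 2 * R * s) / δ ^ (2 * n) := by
  set z : ℕ → ℕ → A M → ℝ := fun k c u =>
    ∑ i, X k (c / 2 ^ k) u i * Y k (c / 2 ^ k) (u + th M c) i with hz
  have aT0 : ∀ k b u, 0 ≤ aT k b u := fun k b u => by
    rcases aT01 k b u with h | h <;> rw [h]; norm_num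
  have aS0 : ∀ k b u, 0 ≤ aS k b u := fun k b u => by
    rcases aS01 k b u with h | h <;> rw [h]; norm_num
  have mX0 : ∀ k b u, 0 ≤ mX k b u := fun k b u => by
    rcases mX01 k b u with h | h <;> rw [h]; norm_num
  have mY0 : ∀ k b u, 0 ≤ mY k b u := fun k b u => by
    rcases mY01 k b u with h | h <;> rw [h]; norm_num
  -- the pointwise bound
  have hpt : ∀ c < 2 ^ K, ∀ u : A M, (if ∃ k, k1 ≤ k ∧ k ≤ K ∧ aT k (c / 2 ^ k) u = 1 ∧
        aS k (c / 2 ^ k) (u + th M c) = 1 ∧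
        δ ≤ |∑ i, X k (c / 2 ^ k) u i * Y k (c / 2 ^ k) (u + th M c) i| then (1 : ℝ) else 0) ≤
      1 / δ ^ (2 * n) * ∑ k ∈ Icc k1 K,
        (aT k (c / 2 ^ k) u * mX k (c / 2 ^ k) u * aS k (c / 2 ^ k) (u + th M c) *
          z k c u ^ (2 * n) +
        aT k (c / 2 ^ k) u * mY k (c / 2 ^ k) (u + th M c) * aS k (c / 2 ^ k) (u + th M c) *
          z k c u ^ (2 * n)) := by
    intro c hc u
    have hterm : ∀ k, 0 ≤
        aT k (c / 2 ^ k) u * mX k (c / 2 ^ k) u * aS k (c / 2 ^ k) (u + th M c) *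
          z k c u ^ (2 * n) +
        aT k (c / 2 ^ k) u * mY k (c / 2 ^ k) (u + th M c) * aS k (c / 2 ^ k) (u + th M c) *
          z k c u ^ (2 * n) := fun k =>
      add_nonneg (mul_nonneg (mul_nonneg (mul_nonneg (aT0 _ _ _) (mX0 _ _ _)) (aS0 _ _ _))
        (Even.pow_nonneg (even_two_mul n) _))
        (mul_nonneg (mul_nonneg (mul_nonneg (aT0 _ _ _) (mY0 _ _ _)) (aS0 _ _ _))
        (Even.pow_nonneg (even_two_mul n) _))
    split_ifs with hex
    · obtain ⟨k0, hk0⟩ := hex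
      set F := (Icc k1 K).filter (fun k => aT k (c / 2 ^ k) u = 1 ∧
        aS k (c / 2 ^ k) (u + th M c) = 1 ∧ δ ≤ |z k c u|) with hF
      have hFn : F.Nonempty := ⟨k0, by
        rw [hF, Finset.mem_filter, Finset.mem_Icc]
        exact ⟨⟨hk0.1, hk0.2.1⟩, hk0.2.2⟩⟩
      obtain ⟨k, hk, hmax⟩ := F.exists_max_image id hFn
      rw [hF, Finset.mem_filter, Finset.mem_Icc] at hk
      obtain ⟨⟨h1, h2⟩, hT, hS, hd⟩ := hk
      have hbk : c / 2 ^ k < 2 ^ (K - k) := by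
        rw [Nat.div_lt_iff_lt_mul (by positivity), ← pow_add, Nat.sub_add_cancel h2]
        exact hc
      have hdiv : c / 2 ^ k / 2 = c / 2 ^ (k + 1) := by
        rw [Nat.div_div_eq_div_mul, pow_succ]
      have hmove : mX k (c / 2 ^ k) u = 1 ∨ mY k (c / 2 ^ k) (u + th M c) = 1 := by
        rcases Nat.lt_or_ge k K with hkK | hkK
        · by_contra hcon
          rw [not_or] at hcon
          have hx : mX k (c / 2 ^ k) u = 0 := (mX01 _ _ _).resolve_right hcon.1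
          have hy : mY k (c / 2 ^ k) (u + th M c) = 0 := (mY01 _ _ _).resolve_right hcon.2
          have ex1 := hX k h1 hkK _ hbk u hx
          have ey1 := hY k h1 hkK _ hbk (u + th M c) hy
          have ez : z k c u = z (k + 1) c u := by
            simp only [hz]
            rw [ex1, ey1, hdiv]
          have hT' : aT (k + 1) (c / 2 ^ (k + 1)) u = 1 := by
            have := aTm k hkK (c / 2 ^ k) u
            rw [hT, hdiv] at this
            rcases aT01 (k + 1) (c / 2 ^ (k + 1)) u with h | h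
            · rw [h] at this
              norm_num at this
            · exact h
          have hS' : aS (k + 1) (c / 2 ^ (k + 1)) (u + th M c) = 1 := by
            have := aSm k hkK (c / 2 ^ k) (u + th M c)
            rw [hS, hdiv] at this
            rcases aS01 (k + 1) (c / 2 ^ (k + 1)) (u + th M c) with h | h
            · rw [h] at this
              norm_num at this
            · exact h
          have hmem : k + 1 ∈ F := by
            rw [hF, Finset.mem_filter, Finset.mem_Icc]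
            exact ⟨⟨by omega, hkK⟩, hT', hS', by rw [← ez]; exact hd⟩
          have := hmax (k + 1) hmem
          simp only [id] at this
          omega
        · left
          have : k = K := le_antisymm h2 hkK
          rw [this]
          exact mXK _ _
      have hzk : δ ^ (2 * n) ≤ z k c u ^ (2 * n) := by
        rw [← Even.pow_abs (even_two_mul n) (z k c u)]
        exact pow_le_pow_left₀ hδ.le hd _
      have hz0 : 0 ≤ z k c u ^ (2 * n) := Even.pow_nonneg (even_two_mul n) _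
      have hkterm : δ ^ (2 * n) ≤
          aT k (c / 2 ^ k) u * mX k (c / 2 ^ k) u * aS k (c / 2 ^ k) (u + th M c) *
            z k c u ^ (2 * n) +
          aT k (c / 2 ^ k) u * mY k (c / 2 ^ k) (u + th M c) * aS k (c / 2 ^ k) (u + th M c) *
            z k c u ^ (2 * n) := by
        rw [hT, hS]
        rcases hmove with h | h
        · rw [h]
          have := mul_nonneg (mY0 k (c / 2 ^ k) (u + th M c)) hz0
          nlinarith
        · rw [h]
          have := mul_nonneg (mX0 k (c / 2 ^ k) u) hz0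
          nlinarith
      have hsum := Finset.single_le_sum (fun k _ => hterm k) (Finset.mem_Icc.2 ⟨h1, h2⟩)
      have hδn : 0 < δ ^ (2 * n) := by positivity
      rw [one_div_mul_eq_div, le_div_iff₀ hδn, one_mul]
      exact hkterm.trans hsum
    · exact mul_nonneg (by positivity) (Finset.sum_nonneg (fun k _ => hterm k))
  -- the two parts
  have hTpart : ∑ k ∈ Icc k1 K, ex K (fun c u => aT k (c / 2 ^ k) u * mX k (c / 2 ^ k) u *
        aS k (c / 2 ^ k) (u + th M c) *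
        (∑ i, X k (c / 2 ^ k) u i * Y k (c / 2 ^ k) (u + th M c) i) ^ (2 * n)) ≤
      10 ^ 20 * M0 ^ (2 * n) * (R + 1) ^ 2 * (a + 1) / Real.sqrt (2 ^ a)
        + ((2 : ℝ) ^ a) ^ 2 * R * s := by
    refine part K k1 a n hk1 (fun c u => u + th M c) ?_ X Y aT aS mX mY M0 R s hM0 hR hs
      aT01 aS01 mX01 mY01 aSm mYK hY nX nY cX cY ?_
    · intro mT mS p V Bp BV R h1 h2 h3 h4 h5 h6 h7 h8 h9 h10 h11 h12 h13
      exact flux_main K k1 a ha hak hk1 hM mT mS p V Bp BV R h1 h2 h3 h4 h5 h6 h7 h8 h9 h10 h11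
        h12 h13
    · intro k h1 h2 b hb u hu
      exact smT k h1 h2 b hb u hu
  have hSpart : ∑ k ∈ Icc k1 K, ex K (fun c v => aS k (c / 2 ^ k) v * mY k (c / 2 ^ k) v *
        aT k (c / 2 ^ k) (v - th M c) *
        (∑ i, Y k (c / 2 ^ k) v i * X k (c / 2 ^ k) (v - th M c) i) ^ (2 * n)) ≤
      10 ^ 20 * M0 ^ (2 * n) * (R + 1) ^ 2 * (a + 1) / Real.sqrt (2 ^ a)
        + ((2 : ℝ) ^ a) ^ 2 * R * s := by
    refine part K k1 a n hk1 (fun c v => v - th M c) ?_ Y X aS aT mY mX M0 R s hM0 hR hs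
      aS01 aT01 mY01 mX01 aTm mXK hX nY nX cY cX ?_
    · intro mT mS p V Bp BV R h1 h2 h3 h4 h5 h6 h7 h8 h9 h10 h11 h12 h13
      exact flux_mirror K k1 a ha hak hk1 hM mT mS p V Bp BV R h1 h2 h3 h4 h5 h6 h7 h8 h9 h10 h11
        h12 h13
    · intro k h1 h2 b hb v hv
      refine le_trans (le_of_eq ?_) (smS k h1 h2 b hb v hv)
      unfold locS
      congr 1
      refine Finset.sum_congr rfl (fun c _ => ?_)
      rw [Finset.sum_comm]
      refine Finset.sum_congr rfl (fun j _ => Finset.sum_congr rfl (fun j' _ => ?_))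
      have e : v - th M (b * 2 ^ k + c) + cs M ((j' : ℤ) - j) =
          v - th M (b * 2 ^ k + c) - cs M ((j : ℤ) - j') := by
        have : cs M ((j' : ℤ) - j) = - cs M ((j : ℤ) - j') := by
          unfold cs
          ext
          · simp
          · simp
        rw [this, sub_eq_add_neg (v - th M (b * 2 ^ k + c))]
      rw [e]
      congr 2
      exact Finset.sum_congr rfl (fun i _ => mul_comm _ _)
  have hshift : ∀ k, ex K (fun c u => aT k (c / 2 ^ k) u * mY k (c / 2 ^ k) (u + th M c) *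
        aS k (c / 2 ^ k) (u + th M c) * z k c u ^ (2 * n)) =
      ex K (fun c v => aS k (c / 2 ^ k) v * mY k (c / 2 ^ k) v *
        aT k (c / 2 ^ k) (v - th M c) *
        (∑ i, Y k (c / 2 ^ k) v i * X k (c / 2 ^ k) (v - th M c) i) ^ (2 * n)) := by
    intro k
    rw [← ex_shift K (fun c v => aS k (c / 2 ^ k) v * mY k (c / 2 ^ k) v *
        aT k (c / 2 ^ k) (v - th M c) *
        (∑ i, Y k (c / 2 ^ k) v i * X k (c / 2 ^ k) (v - th M c) i) ^ (2 * n)) (fun c => th M c)]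
    congr 1
    funext c u
    simp only [add_sub_cancel_right, hz]
    have : ∑ i, Y k (c / 2 ^ k) (u + th M c) i * X k (c / 2 ^ k) u i =
        ∑ i, X k (c / 2 ^ k) u i * Y k (c / 2 ^ k) (u + th M c) i :=
      Finset.sum_congr rfl (fun i _ => mul_comm _ _)
    rw [this]
    ring
  refine (ex_mono K _ _ hpt).trans ?_
  rw [ex_smul, ex_sum]
  have hsum : ∑ k ∈ Icc k1 K, ex K (fun c u =>
        (aT k (c / 2 ^ k) u * mX k (c / 2 ^ k) u * aS k (c / 2 ^ k) (u + th M c) *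
          z k c u ^ (2 * n) +
        aT k (c / 2 ^ k) u * mY k (c / 2 ^ k) (u + th M c) * aS k (c / 2 ^ k) (u + th M c) *
          z k c u ^ (2 * n))) ≤
      2 * (10 ^ 20 * M0 ^ (2 * n) * (R + 1) ^ 2 * (a + 1) / Real.sqrt (2 ^ a)
        + ((2 : ℝ) ^ a) ^ 2 * R * s) := by
    have e1 : ∀ k ∈ Icc k1 K, ex K (fun c u =>
        (aT k (c / 2 ^ k) u * mX k (c / 2 ^ k) u * aS k (c / 2 ^ k) (u + th M c) *
          z k c u ^ (2 * n) +
        aT k (c / 2 ^ k) u * mY k (c / 2 ^ k) (u + th M c) * aS k (c / 2 ^ k) (u + th M c) *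
          z k c u ^ (2 * n))) =
        ex K (fun c u => aT k (c / 2 ^ k) u * mX k (c / 2 ^ k) u *
          aS k (c / 2 ^ k) (u + th M c) *
          (∑ i, X k (c / 2 ^ k) u i * Y k (c / 2 ^ k) (u + th M c) i) ^ (2 * n)) +
        ex K (fun c v => aS k (c / 2 ^ k) v * mY k (c / 2 ^ k) v *
          aT k (c / 2 ^ k) (v - th M c) *
          (∑ i, Y k (c / 2 ^ k) v i * X k (c / 2 ^ k) (v - th M c) i) ^ (2 * n)) := by
      intro k _
      rw [ex_add, hshift k]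
    rw [Finset.sum_congr rfl e1, Finset.sum_add_distrib]
    linarith
  have hδn : 0 < δ ^ (2 * n) := by positivity
  rw [one_div_mul_eq_div]
  exact div_le_div_of_nonneg_right hsum hδn.le

end

end NP2
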