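import Mathlib

/-!
# NP2 / KeyB : arithmetic of the key lemma

`P = 2^e`, `B = M0/(δ/2)`, `M0 = 168000 e`; `B^100 ≤ P`; `n` with `P^8 ≤ B^(2n) ≤ P^9`;
`ε = B^(-41)/16`.
-/

namespace NP2

noncomputable section

/-- the parameter `ε` -/
def epsK (e : ℕ) (δ : ℝ) : ℝ := (δ / 2) / (16 * (168000 * e)) * ((δ / 2) / (168000 * e)) ^ 40

/-- the smooth bound -/
def sK (e n : ℕ) (δ : ℝ) : ℝ :=
  4 ^ (2 * n) * (16 * 4 ^ (8 * (80 * e)) * (1 / 2 : ℝ) ^ (8000 * e)) +
    (2 * ((1 / 2 : ℝ) ^ (3000 * e) + 2 * epsK e δ * (168000 * e))) ^ (2 * n)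

theorem keyB_n (B P : ℝ) (hB : 1 < B) (hBP : B ^ 2 ≤ P) (hP : 1 < P) :
    ∃ n : ℕ, 1 ≤ n ∧ P ^ 8 ≤ B ^ (2 * n) ∧ B ^ (2 * n) ≤ P ^ 9 := by
  have hB2 : 1 < B ^ 2 := by nlinarith
  have hex : ∃ n : ℕ, P ^ 8 ≤ (B ^ 2) ^ n := by
    obtain ⟨n, hn⟩ := pow_unbounded_of_one_lt (P ^ 8) hB2
    exact ⟨n, hn.le⟩
  classical
  have hspec := Nat.find_spec hex
  have hmin := fun m => @Nat.find_min _ _ hex m
  set n := Nat.find hex with hn
  have hn1 : 1 ≤ n := by
    rcases Nat.eq_zero_or_pos n with h | h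
    · exfalso
      rw [h, pow_zero] at hspec
      have : 1 < P ^ 8 := one_lt_pow₀ hP (by norm_num)
      linarith
    · exact h
  refine ⟨n, hn1, ?_, ?_⟩
  · rw [pow_mul]
    exact hspec
  · rw [pow_mul]
    have h1 := hmin (n - 1) (by omega)
    rw [not_le] at h1
    have h2 : (B ^ 2) ^ n = (B ^ 2) ^ (n - 1) * B ^ 2 := by
      rw [← pow_succ]
      congr 1
      omega
    rw [h2]
    calc (B ^ 2) ^ (n - 1) * B ^ 2 ≤ P ^ 8 * P := by
          apply mul_le_mul h1.le hBP (by positivity) (by positivity)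
      _ = P ^ 9 := by ring

theorem keyB_basic (e : ℕ) (he : 1 ≤ e) (δ : ℝ) (hδ : 0 < δ) (hδ1 : δ ≤ 1)
    (hH : (10 ^ 6 * e / δ) ^ 100 ≤ (2 : ℝ) ^ e) :
    336000 ≤ (168000 * (e : ℝ)) / (δ / 2) ∧ ((168000 * (e : ℝ)) / (δ / 2)) ^ 100 ≤ (2 : ℝ) ^ e ∧
      1 / (δ / 2) ≤ (168000 * (e : ℝ)) / (δ / 2) ∧
      (168000 * (e : ℝ)) ≤ (168000 * (e : ℝ)) / (δ / 2) := by
  have he' : (1 : ℝ) ≤ e := by exact_mod_cast he
  have hd : 0 < δ / 2 := by linarith
  refine ⟨?_, ?_, ?_, ?_⟩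
  · rw [le_div_iff₀ hd]
    nlinarith
  · refine le_trans (pow_le_pow_left₀ (by positivity) ?_ 100) hH
    rw [div_le_div_iff₀ hd hδ]
    nlinarith [mul_pos hδ (by linarith : (0 : ℝ) < e)]
  · rw [div_le_div_iff_of_pos_right hd]
    linarith
  · rw [le_div_iff₀ hd]
    nlinarith

theorem keyB_eps (e : ℕ) (he : 1 ≤ e) (δ : ℝ) (hδ : 0 < δ) :
    epsK e δ = 1 / (16 * ((168000 * (e : ℝ)) / (δ / 2)) ^ 41) := by
  have he' : (1 : ℝ) ≤ e := by exact_mod_cast he
  unfold epsK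
  rw [div_pow, div_pow]
  field_simp

theorem keyB_main (e : ℕ) (he : 1 ≤ e) (δ : ℝ) (hδ : 0 < δ) (hδ1 : δ ≤ 1)
    (hH : (10 ^ 6 * e / δ) ^ 100 ≤ (2 : ℝ) ^ e) :
    0 < epsK e δ ∧ 2 * epsK e δ * (168000 * e) ≤ δ / 2 ∧
      (2 + 168000 * e / epsK e δ ^ 2) / 2 ^ (5 * e) ≤ 2 * (1 / 2 : ℝ) ^ e ∧
      ∃ n : ℕ, 1 ≤ n ∧
        2 * (10 ^ 20 * (168000 * (e : ℝ)) ^ (2 * n) * (2 ^ (5 * e) + 1) ^ 2 *
            (((80 * e : ℕ) : ℝ) + 1) / Real.sqrt (2 ^ (80 * e))
          + ((2 : ℝ) ^ (80 * e)) ^ 2 * 2 ^ (5 * e) * sK e n δ) / (δ / 2) ^ (2 * n) ≤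
        10 ^ 24 * (1 / 2 : ℝ) ^ e := by
  obtain ⟨hB1, hB100, hdB, hMB⟩ := keyB_basic e he δ hδ hδ1 hH
  have heps := keyB_eps e he δ hδ
  have he' : (1 : ℝ) ≤ e := by exact_mod_cast he
  set B : ℝ := (168000 * (e : ℝ)) / (δ / 2) with hBdef
  set M0 : ℝ := 168000 * (e : ℝ) with hM0
  set d : ℝ := δ / 2 with hd
  set P : ℝ := (2 : ℝ) ^ e with hP
  have hd0 : 0 < d := by rw [hd]; linarith
  have hM0pos : 0 < M0 := by rw [hM0]; linarith
  have hM01 : 1 ≤ M0 := by rw [hM0]; linarith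
  have hBpos : 0 < B := by linarith
  have hB1' : 1 ≤ B := by linarith
  have hP2 : 2 ≤ P := by
    rw [hP]
    calc (2 : ℝ) = 2 ^ 1 := by norm_num
      _ ≤ 2 ^ e := pow_le_pow_right₀ (by norm_num) he
  have hPpos : 0 < P := by linarith
  have hP1 : 1 ≤ P := by linarith
  have hPe : (e : ℝ) ≤ P := by
    rw [hP]
    exact_mod_cast Nat.lt_two_pow_self.le
  have hBP : ∀ j ≤ 100, B ^ j ≤ P := fun j hj =>
    (pow_le_pow_right₀ hB1' hj).trans hB100
  have hhalf : (1 / 2 : ℝ) ^ e = 1 / P := by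
    rw [hP, div_pow, one_pow]
  have hpw : ∀ j : ℕ, (2 : ℝ) ^ (j * e) = P ^ j := by
    intro j
    rw [hP, ← pow_mul, mul_comm]
  have hhw : ∀ j : ℕ, (1 / 2 : ℝ) ^ (j * e) = 1 / P ^ j := by
    intro j
    rw [div_pow, one_pow, hpw]
  have hepos : 0 < epsK e δ := by
    rw [heps]
    positivity
  have hdM : M0 = B * d := by
    rw [hBdef]
    field_simp
  -- 2 eps M0
  have hem : 2 * epsK e δ * M0 = d / 8 * (1 / B ^ 40) := by
    rw [heps, hdM]
    field_simp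
    ring
  refine ⟨hepos, ?_, ?_, ?_⟩
  · rw [hem]
    have h1 : 1 / B ^ 40 ≤ 1 := by
      rw [div_le_one (by positivity)]
      exact one_le_pow₀ hB1'
    nlinarith
  · rw [hpw, hhalf, heps]
    have h1 : M0 / (1 / (16 * B ^ 41)) ^ 2 = 256 * M0 * B ^ 82 := by
      field_simp
      ring
    rw [h1]
    have h2 : 256 * M0 * B ^ 82 ≤ P := by
      calc 256 * M0 * B ^ 82 ≤ B * B * B ^ 82 := by
            refine mul_le_mul_of_nonneg_right ?_ (by positivity)
            refine mul_le_mul (by linarith) hMB hM0pos.le hBpos.le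
        _ = B ^ 84 := by ring
        _ ≤ P := hBP 84 (by norm_num)
    rw [div_le_iff₀ (by positivity)]
    have h3 : 2 * (1 / P) * P ^ 5 = 2 * P ^ 4 := by
      field_simp
    rw [h3]
    have h4 : P ≤ P ^ 4 := le_self_pow₀ hP1 (by norm_num)
    linarith
  · obtain ⟨n, hn1, hn8, hn9⟩ := keyB_n B P (by linarith) (hBP 2 (by norm_num)) (by linarith)
    refine ⟨n, hn1, ?_⟩
    have hBd : B ^ (2 * n) = M0 ^ (2 * n) / d ^ (2 * n) := by
      rw [hBdef, div_pow]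
    have hd2 : 1 / d ^ (2 * n) ≤ P ^ 9 := by
      refine le_trans ?_ hn9
      rw [hBd]
      exact div_le_div_of_nonneg_right (one_le_pow₀ hM01) (by positivity)
    have h4n : (4 : ℝ) ^ (2 * n) ≤ P ^ 9 :=
      le_trans (pow_le_pow_left₀ (by norm_num) (by linarith) _) hn9
    have hsq : Real.sqrt (2 ^ (80 * e)) = P ^ 40 := by
      rw [hpw]
      have : P ^ 80 = (P ^ 40) ^ 2 := by ring
      rw [this]
      exact Real.sqrt_sq (by positivity)
    -- the first term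
    have hA : 10 ^ 20 * M0 ^ (2 * n) * (2 ^ (5 * e) + 1) ^ 2 * (((80 * e : ℕ) : ℝ) + 1) /
        Real.sqrt (2 ^ (80 * e)) / d ^ (2 * n) ≤ 324 * 10 ^ 20 * (1 / P) := by
      rw [hsq, hpw]
      have e1 : 10 ^ 20 * M0 ^ (2 * n) * (P ^ 5 + 1) ^ 2 * (((80 * e : ℕ) : ℝ) + 1) / P ^ 40 /
          d ^ (2 * n) = 10 ^ 20 * B ^ (2 * n) * (P ^ 5 + 1) ^ 2 * (((80 * e : ℕ) : ℝ) + 1) /
            P ^ 40 := by
        rw [hBd]
        field_simp
      rw [e1]
      have e2 : (P ^ 5 + 1) ^ 2 ≤ (2 * P ^ 5) ^ 2 := by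
        refine pow_le_pow_left₀ (by positivity) ?_ 2
        have := one_le_pow₀ hP1 (n := 5)
        linarith
      have e3 : (((80 * e : ℕ) : ℝ) + 1) ≤ 81 * P := by
        push_cast
        linarith
      calc 10 ^ 20 * B ^ (2 * n) * (P ^ 5 + 1) ^ 2 * (((80 * e : ℕ) : ℝ) + 1) / P ^ 40
          ≤ 10 ^ 20 * P ^ 9 * (2 * P ^ 5) ^ 2 * (81 * P) / P ^ 40 := by
            refine div_le_div_of_nonneg_right ?_ (by positivity)
            refine mul_le_mul ?_ e3 (by positivity) (by positivity)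
            refine mul_le_mul ?_ e2 (by positivity) (by positivity)
            exact mul_le_mul_of_nonneg_left hn9 (by norm_num)
        _ = 324 * 10 ^ 20 * (1 / P ^ 20) := by
            field_simp
            ring
        _ ≤ 324 * 10 ^ 20 * (1 / P) := by
            refine mul_le_mul_of_nonneg_left ?_ (by norm_num)
            exact one_div_le_one_div_of_le hPpos (le_self_pow₀ hP1 (by norm_num))
    -- the second term
    have hS1 : (4 : ℝ) ^ (2 * n) * (16 * 4 ^ (8 * (80 * e)) * (1 / 2 : ℝ) ^ (8000 * e)) /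
        d ^ (2 * n) ≤ 16 * (1 / P ^ 6702) := by
      have e1 : (4 : ℝ) ^ (8 * (80 * e)) = P ^ 1280 := by
        have : (4 : ℝ) = 2 ^ 2 := by norm_num
        rw [this, ← pow_mul, ← hpw]
        congr 1
        ring
      rw [e1, hhw]
      calc (4 : ℝ) ^ (2 * n) * (16 * P ^ 1280 * (1 / P ^ 8000)) / d ^ (2 * n)
          = (4 : ℝ) ^ (2 * n) * (1 / d ^ (2 * n)) * (16 * P ^ 1280 * (1 / P ^ 8000)) := by ring
        _ ≤ P ^ 9 * P ^ 9 * (16 * P ^ 1280 * (1 / P ^ 8000)) := by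
            refine mul_le_mul_of_nonneg_right ?_ (by positivity)
            exact mul_le_mul h4n hd2 (by positivity) (by positivity)
        _ = 16 * (1 / P ^ 6702) := by
            have : P ^ 8000 = P ^ 1298 * P ^ 6702 := by rw [← pow_add]
            rw [this]
            field_simp
    have hS2 : (2 * ((1 / 2 : ℝ) ^ (3000 * e) + 2 * epsK e δ * M0)) ^ (2 * n) / d ^ (2 * n) ≤
        1 / P ^ 320 := by
      rw [hhw, hem, ← div_pow]
      have e1 : 1 / P ^ 3000 ≤ d / 8 * (1 / B ^ 40) := by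
        have f1 : 1 / d * (8 * B ^ 40) ≤ P := by
          calc 1 / d * (8 * B ^ 40) ≤ B * (B * B ^ 40) := by
                refine mul_le_mul hdB ?_ (by positivity) hBpos.le
                exact mul_le_mul_of_nonneg_right (by linarith) (by positivity)
            _ = B ^ 42 := by ring
            _ ≤ P := hBP 42 (by norm_num)
        have f2 : 1 / d * (8 * B ^ 40) ≤ P ^ 3000 :=
          f1.trans (le_self_pow₀ hP1 (by norm_num))
        have f3 : d / 8 * (1 / B ^ 40) = 1 / (1 / d * (8 * B ^ 40)) := by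
          field_simp
        rw [f3]
        exact one_div_le_one_div_of_le (by positivity) f2
      have e2 : 2 * (1 / P ^ 3000 + d / 8 * (1 / B ^ 40)) / d ≤ 1 / B ^ 40 := by
        rw [div_le_iff₀ hd0]
        have : 0 < 1 / B ^ 40 := by positivity
        nlinarith
      calc (2 * (1 / P ^ 3000 + d / 8 * (1 / B ^ 40)) / d) ^ (2 * n)
          ≤ (1 / B ^ 40) ^ (2 * n) := pow_le_pow_left₀ (by positivity) e2 _
        _ = 1 / (B ^ (2 * n)) ^ 40 := by
            rw [div_pow, one_pow, ← pow_mul, ← pow_mul]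
            congr 2
            ring
        _ ≤ 1 / (P ^ 8) ^ 40 := by
            refine one_div_le_one_div_of_le (by positivity) ?_
            exact pow_le_pow_left₀ (by positivity) hn8 _
        _ = 1 / P ^ 320 := by
            rw [← pow_mul]
    have hS : ((2 : ℝ) ^ (80 * e)) ^ 2 * 2 ^ (5 * e) * sK e n δ / d ^ (2 * n) ≤ 17 * (1 / P) := by
      unfold sK
      rw [hpw, hpw]
      calc (P ^ 80) ^ 2 * P ^ 5 * (4 ^ (2 * n) * (16 * 4 ^ (8 * (80 * e)) * (1 / 2 : ℝ) ^ (8000 * e)) +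
            (2 * ((1 / 2 : ℝ) ^ (3000 * e) + 2 * epsK e δ * M0)) ^ (2 * n)) / d ^ (2 * n)
          = P ^ 165 * (4 ^ (2 * n) * (16 * 4 ^ (8 * (80 * e)) * (1 / 2 : ℝ) ^ (8000 * e)) /
              d ^ (2 * n) +
            (2 * ((1 / 2 : ℝ) ^ (3000 * e) + 2 * epsK e δ * M0)) ^ (2 * n) / d ^ (2 * n)) := by
            ring
        _ ≤ P ^ 165 * (16 * (1 / P ^ 6702) + 1 / P ^ 320) := by
            refine mul_le_mul_of_nonneg_left (add_le_add hS1 hS2) (by positivity)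
        _ ≤ P ^ 165 * (16 * (1 / P ^ 166) + 1 / P ^ 166) := by
            refine mul_le_mul_of_nonneg_left (add_le_add ?_ ?_) (by positivity)
            · refine mul_le_mul_of_nonneg_left ?_ (by norm_num)
              exact one_div_le_one_div_of_le (by positivity) (pow_le_pow_right₀ hP1 (by norm_num))
            · exact one_div_le_one_div_of_le (by positivity) (pow_le_pow_right₀ hP1 (by norm_num))
        _ = 17 * (1 / P) := by
            have : P ^ 166 = P ^ 165 * P := by rw [← pow_succ]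
            rw [this]
            field_simp
            norm_num
    rw [hhalf]
    have hfin : 2 * (10 ^ 20 * M0 ^ (2 * n) * (2 ^ (5 * e) + 1) ^ 2 *
            (((80 * e : ℕ) : ℝ) + 1) / Real.sqrt (2 ^ (80 * e))
          + ((2 : ℝ) ^ (80 * e)) ^ 2 * 2 ^ (5 * e) * sK e n δ) / d ^ (2 * n) =
        2 * (10 ^ 20 * M0 ^ (2 * n) * (2 ^ (5 * e) + 1) ^ 2 *
            (((80 * e : ℕ) : ℝ) + 1) / Real.sqrt (2 ^ (80 * e)) / d ^ (2 * n)) +
        2 * (((2 : ℝ) ^ (80 * e)) ^ 2 * 2 ^ (5 * e) * sK e n δ / d ^ (2 * n)) := by ring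
    rw [hfin]
    have hpp : 0 < 1 / P := by positivity
    linarith

/-- the errors -/
theorem keyB_e0 (e : ℕ) (he : 1 ≤ e) :
    (10 * (1 / 2 : ℝ) ^ (16000 * e) * (56000 * e : ℕ) + 5 * (1 / 2 : ℝ) ^ (16000 * e)
        + Real.sqrt (2 ^ (40080 * e) / (2 ^ (56000 * e) * (1 / 2 : ℝ) ^ (8000 * e)))) +
    (10 * (1 / 2 : ℝ) ^ (16000 * (2 * e)) * (56000 * (2 * e) : ℕ)
        + 5 * (1 / 2 : ℝ) ^ (16000 * (2 * e))
        + Real.sqrt (2 ^ (40080 * (2 * e)) /
            (2 ^ (56000 * (2 * e)) * (1 / 2 : ℝ) ^ (8000 * (2 * e))))) ≤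
      (1 / 2 : ℝ) ^ (3000 * e) := by
  have he' : (1 : ℝ) ≤ e := by exact_mod_cast he
  set P : ℝ := (2 : ℝ) ^ e with hP
  have hP2 : 2 ≤ P := by
    rw [hP]
    calc (2 : ℝ) = 2 ^ 1 := by norm_num
      _ ≤ 2 ^ e := pow_le_pow_right₀ (by norm_num) he
  have hPpos : 0 < P := by linarith
  have hP1 : 1 ≤ P := by linarith
  have hPe : (e : ℝ) ≤ P := by
    rw [hP]
    exact_mod_cast Nat.lt_two_pow_self.le
  have hpw : ∀ j : ℕ, (2 : ℝ) ^ (j * e) = P ^ j := by
    intro j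
    rw [hP, ← pow_mul, mul_comm]
  have hhw : ∀ j : ℕ, (1 / 2 : ℝ) ^ (j * e) = 1 / P ^ j := by
    intro j
    rw [div_pow, one_pow, hpw]
  have a1 : 16000 * (2 * e) = 32000 * e := by ring
  have a2 : 56000 * (2 * e) = 112000 * e := by ring
  have a3 : 40080 * (2 * e) = 80160 * e := by ring
  have a4 : 8000 * (2 * e) = 16000 * e := by ring
  rw [a1, a2, a3, a4]
  simp only [hhw, hpw]
  have s1 : Real.sqrt (P ^ 40080 / (P ^ 56000 * (1 / P ^ 8000))) = 1 / P ^ 3960 := by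
    have : P ^ 40080 / (P ^ 56000 * (1 / P ^ 8000)) = (1 / P ^ 3960) ^ 2 := by
      have e1 : P ^ 56000 = P ^ 40080 * (P ^ 3960) ^ 2 * P ^ 8000 := by
        rw [← pow_mul P 3960 2, ← pow_add P, ← pow_add P]
      rw [e1]
      field_simp
    rw [this]
    exact Real.sqrt_sq (by positivity)
  have s2 : Real.sqrt (P ^ 80160 / (P ^ 112000 * (1 / P ^ 16000))) = 1 / P ^ 7920 := by
    have : P ^ 80160 / (P ^ 112000 * (1 / P ^ 16000)) = (1 / P ^ 7920) ^ 2 := by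
      have e1 : P ^ 112000 = P ^ 80160 * (P ^ 7920) ^ 2 * P ^ 16000 := by
        rw [← pow_mul P 7920 2, ← pow_add P, ← pow_add P]
      rw [e1]
      field_simp
    rw [this]
    exact Real.sqrt_sq (by positivity)
  rw [s1, s2]
  have hmono : ∀ i j : ℕ, i ≤ j → 1 / P ^ j ≤ 1 / P ^ i := fun i j hij =>
    one_div_le_one_div_of_le (by positivity) (pow_le_pow_right₀ hP1 hij)
  have hb : ∀ j : ℕ, 3901 ≤ j → 1 / P ^ j * P ≤ 1 / P ^ 3900 := by
    intro j hj
    calc 1 / P ^ j * P ≤ 1 / P ^ 3901 * P := by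
          refine mul_le_mul_of_nonneg_right (hmono _ _ hj) hPpos.le
      _ = 1 / P ^ 3900 := by
          have : P ^ 3901 = P ^ 3900 * P := by rw [← pow_succ]
          rw [this]
          field_simp
  have c1 : 10 * (1 / P ^ 16000) * ((56000 * e : ℕ) : ℝ) ≤ 560000 * (1 / P ^ 3900) := by
    push_cast
    have := hb 16000 (by norm_num)
    have h0 : 0 < 1 / P ^ 16000 := by positivity
    nlinarith [mul_le_mul_of_nonneg_left hPe h0.le]
  have c2 : 10 * (1 / P ^ 32000) * ((112000 * e : ℕ) : ℝ) ≤ 1120000 * (1 / P ^ 3900) := by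
    push_cast
    have := hb 32000 (by norm_num)
    have h0 : 0 < 1 / P ^ 32000 := by positivity
    nlinarith [mul_le_mul_of_nonneg_left hPe h0.le]
  have c3 := hmono 3900 16000 (by norm_num)
  have c4 := hmono 3900 32000 (by norm_num)
  have c5 := hmono 3900 3960 (by norm_num)
  have c6 := hmono 3900 7920 (by norm_num)
  have c7 : 2000000 * (1 / P ^ 3900) ≤ 1 / P ^ 3000 := by
    have e1 : (2000000 : ℝ) ≤ P ^ 900 := by
      calc (2000000 : ℝ) ≤ 2 ^ 21 := by norm_num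
        _ ≤ 2 ^ 900 := pow_le_pow_right₀ (by norm_num) (by norm_num)
        _ ≤ P ^ 900 := pow_le_pow_left₀ (by norm_num) hP2 _
    calc 2000000 * (1 / P ^ 3900) ≤ P ^ 900 * (1 / P ^ 3900) :=
          mul_le_mul_of_nonneg_right e1 (by positivity)
      _ = 1 / P ^ 3000 := by
          have : P ^ 3900 = P ^ 900 * P ^ 3000 := by rw [← pow_add]
          rw [this]
          field_simp
  have h0 : 0 < 1 / P ^ 3900 := by positivity
  linarith

end

end NP2
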