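import Pool.Agent.NP2.Vec
import Pool.Agent.NP2.KeyB
import Pool.Agent.NP2.Proc

/-!
# NP2 / KeyC : parameters, vectors, moves and alive objects of the key lemma

`vF` : the combined vector of two systems; `mvF` : its moves; `alF` : alive objects.
-/

namespace NP2
open Finset

noncomputable section

variable {M : ℕ} [NeZero M]

def lamE (e : ℕ) : ℝ := (1 / 2) ^ (8000 * e)
def tauE (e : ℕ) : ℝ := (1 / 2) ^ (16000 * e)
def mE (e : ℕ) : ℕ := 56000 * e
def GamE (e : ℕ) : ℝ := 2 ^ (40080 * e)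

theorem keyC_lam_pos (e : ℕ) : 0 < lamE e := by unfold lamE; positivity

theorem keyC_tau_pos (e : ℕ) : 0 < tauE e := by unfold tauE; positivity

theorem keyC_tau_le (e : ℕ) (he : 1 ≤ e) : tauE e ≤ 1 / 10 := by
  unfold tauE
  calc ((1 : ℝ) / 2) ^ (16000 * e) ≤ (1 / 2) ^ 4 :=
        pow_le_pow_of_le_one (by norm_num) (by norm_num) (by omega)
    _ ≤ 1 / 10 := by norm_num

open Classical in
/-- objects with a large trace are rare -/
theorem keyC_dead (K e : ℕ) (he : 1 ≤ e) (F G : A M → ℕ → ℝ) (D : Dict M)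
    (hD : IsSys K F G (lamE e) (tauE e) D) (y : A M → ℕ → A M)
    (hy : ∀ l, Function.Bijective (fun u => y u l)) :
    ex K (fun c (u : A M) =>
        if ∃ k ≤ K, GamE e ≤ tr (tauE e) D k (c / 2 ^ k) (y u) then (1 : ℝ) else 0) ≤
      54 * (1 / 2) ^ (80 * e) := by
  have hΓ : 0 < GamE e := by unfold GamE; positivity
  have h := tr_doob K (tauE e) (keyC_tau_pos e) ((keyC_tau_le e he).trans (by norm_num)) D
    hD.lev_le hD.blk_lt hD.unit y hy (GamE e) hΓ
  have h1 : ex K (fun c (u : A M) =>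
        if ∃ k ≤ K, GamE e ≤ tr (tauE e) D k (c / 2 ^ k) (y u) then (1 : ℝ) else 0) =
      (∑ c ∈ range (2 ^ K), ∑ u : A M,
        (if ∃ k ≤ K, GamE e ≤ tr (tauE e) D k (c / 2 ^ k) (y u) then (1 : ℝ) else 0)) /
      (2 ^ K * (M : ℝ) ^ 2) := rfl
  rw [h1]
  refine le_trans (le_of_eq ?_) (h.trans ?_)
  · congr 1
  · have hb := hD.budget_le
    have hP : (0 : ℝ) < 2 ^ e := by positivity
    have hpw : ∀ j : ℕ, (2 : ℝ) ^ (j * e) = (2 ^ e) ^ j := by
      intro j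
      rw [← pow_mul, mul_comm]
    calc 9 / tauE e ^ 2 * budget K D / GamE e ≤ 9 / tauE e ^ 2 * (6 / lamE e) / GamE e := by
          refine div_le_div_of_nonneg_right ?_ hΓ.le
          refine mul_le_mul_of_nonneg_left hb ?_
          have := keyC_tau_pos e
          positivity
      _ = 54 * (1 / 2) ^ (80 * e) := by
          unfold tauE lamE GamE
          simp only [one_div, inv_pow, hpw]
          have e1 : ((2 : ℝ) ^ e) ^ 40080 =
              (((2 : ℝ) ^ e) ^ 16000) ^ 2 * ((2 : ℝ) ^ e) ^ 8000 * ((2 : ℝ) ^ e) ^ 80 := by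
            generalize (2 : ℝ) ^ e = P
            rw [← pow_mul P 16000 2, ← pow_add P, ← pow_add P]
          rw [e1]
          field_simp
          norm_num

/-- moves of the two systems -/
def mvF (s : ℝ) (e K : ℕ) (ε : ℝ) (D1 D2 : Dict M) (y : A M → ℕ → A M) (f : A M → ℕ → ℝ) :
    ℕ → ℕ → A M → ℝ :=
  open Classical in
  fun k b u => if mvv s (tauE e) D1 (lamE e) (mE e) ε K (y u) (f u) k b = 1 ∨
     mvv s (tauE (2 * e)) D2 (lamE (2 * e)) (mE (2 * e)) ε K (y u) (f u) k b = 1 then 1 else 0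

/-- alive objects -/
def alF (s : ℝ) (e K : ℕ) (ε : ℝ) (D1 D2 : Dict M) (y : A M → ℕ → A M) (f : A M → ℕ → ℝ)
    (R : ℝ) : ℕ → ℕ → A M → ℝ :=
  open Classical in
  fun k b u => if (∀ k', k ≤ k' → k' ≤ K →
      tr (tauE e) D1 k' (b / 2 ^ (k' - k)) (y u) < GamE e ∧
      tr (tauE (2 * e)) D2 k' (b / 2 ^ (k' - k)) (y u) < GamE (2 * e)) ∧
      acc K (mvF s e K ε D1 D2 y f) k b u ≤ R then 1 else 0

/-- the combined vector -/
def vF (σ s : ℝ) (e K : ℕ) (ε : ℝ) (D1 D2 : Dict M) (y : A M → ℕ → A M) (f : A M → ℕ → ℝ) :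
    ℕ → ℕ → A M → ((Fin (mE e) × Fin D1.n) ⊕ (Fin (mE (2 * e)) × Fin D2.n)) → ℝ :=
  fun k b u => Sum.elim
    (fun p => σ * vec s (tauE e) D1 (lamE e) (mE e) ε K (y u) (f u) k b p)
    (vec s (tauE (2 * e)) D2 (lamE (2 * e)) (mE (2 * e)) ε K (y u) (f u) k b)

section
variable (s : ℝ) (e K : ℕ) (ε : ℝ) (D1 D2 : Dict M) (y : A M → ℕ → A M) (f : A M → ℕ → ℝ)

theorem keyC_mvv_01 (τ : ℝ) (D : Dict M) (lam : ℝ) (m : ℕ) (y : ℕ → A M) (f : ℕ → ℝ) (k b : ℕ) :
    mvv s τ D lam m ε K y f k b = 0 ∨ mvv s τ D lam m ε K y f k b = 1 := by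
  unfold mvv
  split_ifs
  · right; rfl
  · left; rfl

theorem mvF_01 (k b : ℕ) (u : A M) :
    mvF s e K ε D1 D2 y f k b u = 0 ∨ mvF s e K ε D1 D2 y f k b u = 1 := by
  unfold mvF
  split_ifs
  · right; rfl
  · left; rfl

theorem mvF_nonneg (k b : ℕ) (u : A M) : 0 ≤ mvF s e K ε D1 D2 y f k b u := by
  rcases mvF_01 s e K ε D1 D2 y f k b u with h | h
  · rw [h]
  · rw [h]
    norm_num

theorem mvF_top (b : ℕ) (u : A M) : mvF s e K ε D1 D2 y f K b u = 1 := by
  unfold mvF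
  have h : mvv s (tauE e) D1 (lamE e) (mE e) ε K (y u) (f u) K b = 1 := by
    unfold mvv
    rw [if_pos (Or.inl rfl)]
  rw [if_pos (Or.inl h)]

theorem mvF_le (k b : ℕ) (u : A M) : mvF s e K ε D1 D2 y f k b u ≤
    mvv s (tauE e) D1 (lamE e) (mE e) ε K (y u) (f u) k b +
      mvv s (tauE (2 * e)) D2 (lamE (2 * e)) (mE (2 * e)) ε K (y u) (f u) k b := by
  have h1 := keyC_mvv_01 s K ε (tauE e) D1 (lamE e) (mE e) (y u) (f u) k b
  have h2 := keyC_mvv_01 s K ε (tauE (2 * e)) D2 (lamE (2 * e)) (mE (2 * e)) (y u) (f u) k b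
  have n1 : 0 ≤ mvv s (tauE e) D1 (lamE e) (mE e) ε K (y u) (f u) k b := by
    rcases h1 with h1 | h1 <;> rw [h1]
    norm_num
  have n2 : 0 ≤ mvv s (tauE (2 * e)) D2 (lamE (2 * e)) (mE (2 * e)) ε K (y u) (f u) k b := by
    rcases h2 with h2 | h2 <;> rw [h2]
    norm_num
  unfold mvF
  split_ifs with h
  · rcases h with h | h
    · rw [h]
      linarith
    · rw [h]
      linarith
  · linarith

theorem alF_01 (R : ℝ) (k b : ℕ) (u : A M) :
    alF s e K ε D1 D2 y f R k b u = 0 ∨ alF s e K ε D1 D2 y f R k b u = 1 := by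
  unfold alF
  split_ifs
  · right; rfl
  · left; rfl

theorem alF_mono (R : ℝ) (k : ℕ) (hk : k < K) (b : ℕ) (u : A M) :
    alF s e K ε D1 D2 y f R k b u ≤ alF s e K ε D1 D2 y f R (k + 1) (b / 2) u := by
  by_cases h : (∀ k', k ≤ k' → k' ≤ K →
      tr (tauE e) D1 k' (b / 2 ^ (k' - k)) (y u) < GamE e ∧
      tr (tauE (2 * e)) D2 k' (b / 2 ^ (k' - k)) (y u) < GamE (2 * e)) ∧
      acc K (mvF s e K ε D1 D2 y f) k b u ≤ R
  · have h' : (∀ k', k + 1 ≤ k' → k' ≤ K →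
      tr (tauE e) D1 k' (b / 2 / 2 ^ (k' - (k + 1))) (y u) < GamE e ∧
      tr (tauE (2 * e)) D2 k' (b / 2 / 2 ^ (k' - (k + 1))) (y u) < GamE (2 * e)) ∧
      acc K (mvF s e K ε D1 D2 y f) (k + 1) (b / 2) u ≤ R := by
      refine ⟨fun k' h1 h2 => ?_, ?_⟩
      · have h3 := h.1 k' (by omega) h2
        have h4 : b / 2 / 2 ^ (k' - (k + 1)) = b / 2 ^ (k' - k) := by
          rw [Nat.div_div_eq_div_mul]
          congr 1
          have : k' - k = (k' - (k + 1)) + 1 := by omega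
          rw [this, pow_succ, mul_comm]
        rw [h4]
        exact h3
      · have h5 := acc_step K k hk.le (mvF s e K ε D1 D2 y f) b u
        have h6 := mvF_nonneg s e K ε D1 D2 y f k b u
        linarith [h.2]
    unfold alF
    rw [if_pos h, if_pos h']
  · have h0 : alF s e K ε D1 D2 y f R k b u = 0 := by
      unfold alF
      rw [if_neg h]
    rw [h0]
    rcases alF_01 s e K ε D1 D2 y f R (k + 1) (b / 2) u with h1 | h1 <;> rw [h1]
    norm_num

theorem alF_acc_le (R : ℝ) (hR : 0 ≤ R) (n : ℕ) : ∀ k, k + n = K + 1 → ∀ (b : ℕ) (u : A M),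
    acc K (fun k b u => alF s e K ε D1 D2 y f R k b u * mvF s e K ε D1 D2 y f k b u) k b u
      ≤ R := by
  induction n with
  | zero =>
    intro k hk b u
    have : k = K + 1 := by omega
    rw [this, acc_top]
    exact hR
  | succ n ih =>
    intro k hk b u
    rcases alF_01 s e K ε D1 D2 y f R k b u with h | h
    · rw [acc_step K k (by omega)]
      rw [h, zero_mul, zero_add]
      exact ih (k + 1) (by omega) (b / 2) u
    · have h1 : acc K (mvF s e K ε D1 D2 y f) k b u ≤ R := by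
        unfold alF at h
        split_ifs at h with hc
        · exact hc.2
        · norm_num at h
      refine le_trans ?_ h1
      unfold acc
      refine sum_le_sum fun w _ => ?_
      have h2 := mvF_nonneg s e K ε D1 D2 y f w (b / 2 ^ (w - k)) u
      change alF s e K ε D1 D2 y f R w (b / 2 ^ (w - k)) u *
        mvF s e K ε D1 D2 y f w (b / 2 ^ (w - k)) u ≤ _
      rcases alF_01 s e K ε D1 D2 y f R w (b / 2 ^ (w - k)) u with h3 | h3
      · rw [h3]
        linarith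
      · rw [h3]
        linarith

theorem alF_path (R : ℝ) (k : ℕ) (c : ℕ) (u : A M) (n : ℕ) (hn : k + n ≤ K)
    (h : alF s e K ε D1 D2 y f R k (c / 2 ^ k) u = 1) :
    alF s e K ε D1 D2 y f R (k + n) (c / 2 ^ (k + n)) u = 1 := by
  induction n with
  | zero => exact h
  | succ n ih =>
    have h1 := ih (by omega)
    have h2 := alF_mono s e K ε D1 D2 y f R (k + n) (by omega) (c / 2 ^ (k + n)) u
    rw [Nat.div_div_eq_div_mul, ← pow_succ, h1] at h2
    rcases alF_01 s e K ε D1 D2 y f R (k + n + 1) (c / 2 ^ (k + n + 1)) u with h3 | h3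
    · rw [h3] at h2
      norm_num at h2
    · exact h3

theorem alF_tr (R : ℝ) (k b : ℕ) (hk : k ≤ K) (u : A M)
    (h : alF s e K ε D1 D2 y f R k b u = 1) :
    tr (tauE e) D1 k b (y u) < GamE e ∧ tr (tauE (2 * e)) D2 k b (y u) < GamE (2 * e) := by
  unfold alF at h
  split_ifs at h with hc
  · have := hc.1 k le_rfl hk
    rw [Nat.sub_self, pow_zero, Nat.div_one] at this
    exact this
  · norm_num at h

theorem vF_step (σ : ℝ) (k b : ℕ) (hk : k < K) (u : A M)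
    (h : mvF s e K ε D1 D2 y f k b u = 0) :
    vF σ s e K ε D1 D2 y f k b u = vF σ s e K ε D1 D2 y f (k + 1) (b / 2) u := by
  have h1 := keyC_mvv_01 s K ε (tauE e) D1 (lamE e) (mE e) (y u) (f u) k b
  have h2 := keyC_mvv_01 s K ε (tauE (2 * e)) D2 (lamE (2 * e)) (mE (2 * e)) (y u) (f u) k b
  unfold mvF at h
  split_ifs at h with hc
  · norm_num at h
  · rw [not_or] at hc
    have h1' := h1.resolve_right hc.1
    have h2' := h2.resolve_right hc.2
    unfold vF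
    rw [vec_step s (tauE e) D1 (lamE e) (mE e) ε K (y u) (f u) k b hk h1',
      vec_step s (tauE (2 * e)) D2 (lamE (2 * e)) (mE (2 * e)) ε K (y u) (f u) k b hk h2']

theorem vF_norm (σ : ℝ) (hσ : σ ^ 2 = 1) (hs : 1 ≤ s) (hf : ∀ u t, |f u t| ≤ 1) (k b : ℕ)
    (hk : k ≤ K) (u : A M) :
    ∑ i, vF σ s e K ε D1 D2 y f k b u i ^ 2 ≤ 168000 * e := by
  rw [Fintype.sum_sum_type]
  unfold vF
  simp only [Sum.elim_inl, Sum.elim_inr, mul_pow, hσ, one_mul]
  have h1 := vec_norm s (tauE e) hs D1 (lamE e) (keyC_lam_pos e) (mE e) ε K (y u) (f u) (hf u) k b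
    hk
  have h2 := vec_norm s (tauE (2 * e)) hs D2 (lamE (2 * e)) (keyC_lam_pos (2 * e)) (mE (2 * e)) ε
    K (y u) (f u) (hf u) k b hk
  have h3 : ((mE e : ℕ) : ℝ) + ((mE (2 * e) : ℕ) : ℝ) = 168000 * e := by
    unfold mE
    push_cast
    ring
  linarith

theorem alF_dead (he : 1 ≤ e) (hε : 0 < ε) (hs : 1 ≤ s) (F1 G1 F2 G2 : A M → ℕ → ℝ)
    (hD1 : IsSys K F1 G1 (lamE e) (tauE e) D1)
    (hD2 : IsSys K F2 G2 (lamE (2 * e)) (tauE (2 * e)) D2)
    (hy : ∀ l, Function.Bijective (fun u => y u l)) (hf : ∀ u t, |f u t| ≤ 1)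
    (R : ℝ) (hR : 0 < R) (k1 : ℕ) (hk1 : k1 ≤ K) :
    ex K (fun c u => 1 - alF s e K ε D1 D2 y f R k1 (c / 2 ^ k1) u) ≤
      54 * (1 / 2) ^ (80 * e) + 54 * (1 / 2) ^ (80 * (2 * e)) +
        (2 + 168000 * e / ε ^ 2) / R := by
  classical
  have d1 := keyC_dead K e he F1 G1 D1 hD1 y hy
  have d2 := keyC_dead K (2 * e) (by omega) F2 G2 D2 hD2 y hy
  have hM : 0 < (M : ℝ) := by
    have := NeZero.pos M
    exact_mod_cast this
  have hpt : ∀ (c : ℕ) (u : A M), 1 - alF s e K ε D1 D2 y f R k1 (c / 2 ^ k1) u ≤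
      ((if ∃ k ≤ K, GamE e ≤ tr (tauE e) D1 k (c / 2 ^ k) (y u) then (1 : ℝ) else 0) +
      (if ∃ k ≤ K, GamE (2 * e) ≤ tr (tauE (2 * e)) D2 k (c / 2 ^ k) (y u) then (1 : ℝ) else 0)) +
      1 / R * ∑ w ∈ range (K + 1),
        (mvv s (tauE e) D1 (lamE e) (mE e) ε K (y u) (f u) w (c / 2 ^ w) +
        mvv s (tauE (2 * e)) D2 (lamE (2 * e)) (mE (2 * e)) ε K (y u) (f u) w (c / 2 ^ w)) := by
    intro c u
    have hacc : acc K (mvF s e K ε D1 D2 y f) k1 (c / 2 ^ k1) u ≤ ∑ w ∈ range (K + 1),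
        (mvv s (tauE e) D1 (lamE e) (mE e) ε K (y u) (f u) w (c / 2 ^ w) +
        mvv s (tauE (2 * e)) D2 (lamE (2 * e)) (mE (2 * e)) ε K (y u) (f u) w (c / 2 ^ w)) := by
      rw [acc_path]
      have hsub : Icc k1 K ⊆ range (K + 1) := by
        intro w hw
        rw [mem_Icc] at hw
        rw [mem_range]
        omega
      refine le_trans (sum_le_sum fun w _ => mvF_le s e K ε D1 D2 y f w (c / 2 ^ w) u) ?_
      refine sum_le_sum_of_subset_of_nonneg hsub fun w _ _ => ?_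
      have h1 := keyC_mvv_01 s K ε (tauE e) D1 (lamE e) (mE e) (y u) (f u) w (c / 2 ^ w)
      have h2 := keyC_mvv_01 s K ε (tauE (2 * e)) D2 (lamE (2 * e)) (mE (2 * e)) (y u) (f u) w
        (c / 2 ^ w)
      rcases h1 with h1 | h1 <;> rcases h2 with h2 | h2 <;> rw [h1, h2] <;> norm_num
    have hacc0 : 0 ≤ acc K (mvF s e K ε D1 D2 y f) k1 (c / 2 ^ k1) u := by
      unfold acc
      exact sum_nonneg fun w _ => mvF_nonneg s e K ε D1 D2 y f _ _ u
    set S := ∑ w ∈ range (K + 1),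
        (mvv s (tauE e) D1 (lamE e) (mE e) ε K (y u) (f u) w (c / 2 ^ w) +
        mvv s (tauE (2 * e)) D2 (lamE (2 * e)) (mE (2 * e)) ε K (y u) (f u) w (c / 2 ^ w)) with hS
    have hS0 : 0 ≤ 1 / R * S := by
      have : 0 ≤ S := hacc0.trans hacc
      positivity
    have i1 : (0 : ℝ) ≤ (if ∃ k ≤ K, GamE e ≤ tr (tauE e) D1 k (c / 2 ^ k) (y u) then (1 : ℝ)
        else 0) := by
      split_ifs <;> norm_num
    have i2 : (0 : ℝ) ≤ (if ∃ k ≤ K, GamE (2 * e) ≤ tr (tauE (2 * e)) D2 k (c / 2 ^ k) (y u)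
        then (1 : ℝ) else 0) := by
      split_ifs <;> norm_num
    rcases alF_01 s e K ε D1 D2 y f R k1 (c / 2 ^ k1) u with h | h
    swap
    · rw [h]
      linarith
    · rw [h]
      by_cases hA : ∃ k ≤ K, GamE e ≤ tr (tauE e) D1 k (c / 2 ^ k) (y u)
      · rw [if_pos hA]
        linarith
      by_cases hB : ∃ k ≤ K, GamE (2 * e) ≤ tr (tauE (2 * e)) D2 k (c / 2 ^ k) (y u)
      · rw [if_pos hB]
        linarith
      rw [if_neg hA, if_neg hB]
      push Not at hA hB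
      have hR1 : R < acc K (mvF s e K ε D1 D2 y f) k1 (c / 2 ^ k1) u := by
        by_contra hcon
        rw [not_lt] at hcon
        have : alF s e K ε D1 D2 y f R k1 (c / 2 ^ k1) u = 1 := by
          unfold alF
          rw [if_pos]
          refine ⟨fun k' h1 h2 => ?_, hcon⟩
          have h3 : c / 2 ^ k1 / 2 ^ (k' - k1) = c / 2 ^ k' := by
            rw [Nat.div_div_eq_div_mul, ← pow_add]
            congr 2
            omega
          rw [h3]
          exact ⟨hA k' h2, hB k' h2⟩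
        rw [this] at h
        norm_num at h
      have : 1 ≤ 1 / R * S := by
        rw [one_div, ← div_eq_inv_mul, le_div_iff₀ hR]
        linarith
      linarith
  have h1 := ex_mono K _ _ fun c (_ : c < 2 ^ K) u => hpt c u
  refine h1.trans ?_
  rw [ex_add, ex_add, ex_smul]
  have hcount : ex K (fun c u => ∑ w ∈ range (K + 1),
        (mvv s (tauE e) D1 (lamE e) (mE e) ε K (y u) (f u) w (c / 2 ^ w) +
        mvv s (tauE (2 * e)) D2 (lamE (2 * e)) (mE (2 * e)) ε K (y u) (f u) w (c / 2 ^ w))) ≤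
      2 + 168000 * e / ε ^ 2 := by
    unfold ex
    rw [sum_comm, div_le_iff₀ (by positivity)]
    have hu : ∀ u : A M, ∑ c ∈ range (2 ^ K), ∑ w ∈ range (K + 1),
        (mvv s (tauE e) D1 (lamE e) (mE e) ε K (y u) (f u) w (c / 2 ^ w) +
        mvv s (tauE (2 * e)) D2 (lamE (2 * e)) (mE (2 * e)) ε K (y u) (f u) w (c / 2 ^ w)) ≤
        (2 + 168000 * e / ε ^ 2) * 2 ^ K := by
      intro u
      have c1 := mvv_count s (tauE e) hs D1 (lamE e) (keyC_lam_pos e) (mE e) ε hε K (y u) (f u)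
        (hf u)
      have c2 := mvv_count s (tauE (2 * e)) hs D2 (lamE (2 * e)) (keyC_lam_pos (2 * e))
        (mE (2 * e)) ε hε K (y u) (f u) (hf u)
      rw [div_le_iff₀ (by positivity)] at c1 c2
      have e3 : ∑ c ∈ range (2 ^ K), ∑ w ∈ range (K + 1),
        (mvv s (tauE e) D1 (lamE e) (mE e) ε K (y u) (f u) w (c / 2 ^ w) +
        mvv s (tauE (2 * e)) D2 (lamE (2 * e)) (mE (2 * e)) ε K (y u) (f u) w (c / 2 ^ w)) =
        ∑ c ∈ range (2 ^ K), ∑ w ∈ range (K + 1),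
          mvv s (tauE e) D1 (lamE e) (mE e) ε K (y u) (f u) w (c / 2 ^ w) +
        ∑ c ∈ range (2 ^ K), ∑ w ∈ range (K + 1),
          mvv s (tauE (2 * e)) D2 (lamE (2 * e)) (mE (2 * e)) ε K (y u) (f u) w
            (c / 2 ^ w) := by
        simp only [sum_add_distrib]
      rw [e3]
      have e4 : (2 + 168000 * (e : ℝ) / ε ^ 2) * 2 ^ K =
          (1 + ((mE e : ℕ) : ℝ) / ε ^ 2) * 2 ^ K + (1 + ((mE (2 * e) : ℕ) : ℝ) / ε ^ 2) * 2 ^ K := by
        unfold mE
        push_cast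
        ring
      rw [e4]
      exact add_le_add c1 c2
    refine (sum_le_sum fun u _ => hu u).trans (le_of_eq ?_)
    rw [sum_const, card_univ, nsmul_eq_mul, Fintype.card_prod, ZMod.card]
    push_cast
    ring
  have h2 : 1 / R * ex K (fun c u => ∑ w ∈ range (K + 1),
        (mvv s (tauE e) D1 (lamE e) (mE e) ε K (y u) (f u) w (c / 2 ^ w) +
        mvv s (tauE (2 * e)) D2 (lamE (2 * e)) (mE (2 * e)) ε K (y u) (f u) w (c / 2 ^ w))) ≤
      (2 + 168000 * e / ε ^ 2) / R := by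
    rw [div_eq_inv_mul (2 + 168000 * (e : ℝ) / ε ^ 2) R, ← one_div]
    exact mul_le_mul_of_nonneg_left hcount (by positivity)
  exact add_le_add (add_le_add d1 d2) h2

end

theorem vF_inner (e K : ℕ) (ε : ℝ) (D1 D2 : Dict M) (F G : A M → ℕ → ℝ) (k b : ℕ) (u v : A M) :
    ∑ i, vF (-1) 1 e K ε D1 D2 pT F k b u i * vF 1 2 e K ε D1 D2 pS G k b v i =
      Zfr (tauE (2 * e)) D2 (lamE (2 * e)) (mE (2 * e)) ε K k b (pT u) (F u) (pS v) (G v) -
        Zfr (tauE e) D1 (lamE e) (mE e) ε K k b (pT u) (F u) (pS v) (G v) := by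
  rw [Fintype.sum_sum_type]
  unfold vF Zfr
  simp only [Sum.elim_inl, Sum.elim_inr, one_mul, neg_mul, sum_neg_distrib]
  ring

end

end NP2
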