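import Pool.Agent.NP2.Flux

/-!
# NP2 / Mir : the mirrored flux lemma

`p` is now an `S`-process, `V` a `T`-process.  Apply `flux_main` to the reflected processes
`p' k b u = p k b (-u)`, `V' k b v = V k b (-v)`: for `v = u + th c` the object `-v` is the `T`-object
tied to the `S`-object `-u` (`-v = -u - th c`), and `sm` commutes with the reflection because
`CQ` is even.
-/

namespace NP2
open Finset

noncomputable section

variable {M : ℕ} [NeZero M] {E : Type*} [NormedAddCommGroup E] [InnerProductSpace ℝ E]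

/-- pairing seen from the `S`-objects -/
def tpm (K k : ℕ) (f g : ℕ → A M → E) : ℝ :=
  ex K (fun c v => inner ℝ (f (c / 2 ^ k) v) (g (c / 2 ^ k) (v - th M c)))

omit [NeZero M] in
private theorem mir_CQ_even (Q : ℕ) (z : ℤ) : CQ Q (-z) = CQ Q z := by
  unfold CQ
  refine Finset.sum_congr rfl fun q _ => Finset.sum_congr rfl fun p _ => ?_
  rw [← Real.cos_neg]
  congr 1
  push_cast
  ring

omit [NeZero M] in
private theorem mir_cs_neg (z : ℤ) : cs M (-z) = -cs M z := by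
  unfold cs
  ext <;> simp

omit [NeZero M] in
private theorem mir_sm (Q i : ℕ) (V : A M → E) (v : A M) :
    sm Q i (fun w => V (-w)) v = sm Q i V (-v) := by
  unfold sm
  congr 1
  rw [Finset.sum_comm]
  refine Finset.sum_congr rfl fun j _ => Finset.sum_congr rfl fun j' _ => ?_
  have h1 : ((j' : ℤ) - j) = -((j : ℤ) - j') := by ring
  rw [h1, mir_CQ_even, mir_cs_neg]
  have h2 : -(v + -cs M ((j : ℤ) - j')) = -v + cs M ((j : ℤ) - j') := by abel
  show CQ Q ((j : ℤ) - j') • V (-(v + -cs M ((j : ℤ) - j'))) = _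
  rw [h2]

private theorem mir_ex (K : ℕ) (f : ℕ → A M → ℝ) :
    ex K (fun c u => f c (-u)) = ex K f := by
  unfold ex
  congr 1
  refine Finset.sum_congr rfl fun c _ => ?_
  exact Equiv.sum_comp (Equiv.neg (A M)) (fun u => f c u)

private theorem mir_tp (K k : ℕ) (f g : ℕ → A M → E) :
    tp K k (fun b u => f b (-u)) (fun b v => g b (-v)) = tpm K k f g := by
  unfold tp tpm
  rw [← mir_ex]
  congr 1
  funext c u
  have h2 : -(-u + th M c) = u - th M c := by abel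
  show inner ℝ (f (c / 2 ^ k) (- -u)) (g (c / 2 ^ k) (-(-u + th M c))) = _
  rw [h2, neg_neg]

omit [NeZero M] in
private theorem mir_ro (Q i : ℕ) (g : ℕ → A M → E) :
    ro Q i (fun b v => g b (-v)) = fun b v => ro Q i g b (-v) := by
  funext b v
  unfold ro
  show g b (-v) - sm Q i (fun w => g b (-w)) v = g b (-v) - sm Q i (g b) (-v)
  rw [mir_sm]

theorem flux_mirror (K k1 a : ℕ) (ha : 1 ≤ a) (hak : 50 * a ≤ k1) (hk1 : k1 ≤ K)
    (hM : 4 ^ K ≤ M) (mS mT : ℕ → ℕ → A M → ℝ) (p V : ℕ → ℕ → A M → E) (Bp BV R : ℝ)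
    (hR : 1 ≤ R) (hBp : 0 ≤ Bp) (hBV : 0 ≤ BV)
    (mS0 : ∀ k b u, 0 ≤ mS k b u) (mT0 : ∀ k b u, 0 ≤ mT k b u)
    (mS1 : ∀ k b u, mS k b u ≤ 1) (mT1 : ∀ k b u, mT k b u ≤ 1)
    (accS : ∀ k, k1 ≤ k → k ≤ K → ∀ b < 2 ^ (K - k), ∀ u, acc K mS k b u ≤ R)
    (accT : ∀ k, k1 ≤ k → k ≤ K → ∀ b < 2 ^ (K - k), ∀ u, acc K mT k b u ≤ R)
    (hp : ∀ k, k1 ≤ k → k ≤ K → ∀ b < 2 ^ (K - k), ∀ u, ‖p k b u‖ ≤ Bp * mS k b u)
    (hV : ∀ k, k1 ≤ k → k ≤ K → ∀ b < 2 ^ (K - k), ∀ u, ‖V k b u‖ ≤ BV)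
    (hVt : ∀ b u, V (K + 1) b u = 0)
    (hq : ∀ k, k1 ≤ k → k ≤ K → ∀ b < 2 ^ (K - k), ∀ u,
      ‖V k b u - V (k + 1) (b / 2) u‖ ≤ 2 * BV * mT k b u) :
    |∑ k ∈ Icc k1 K, tpm K k (p k) (ro (2 ^ a) (k - 8 * a) (V k))| ≤
      10 ^ 20 * Bp * BV * R ^ 2 * (a + 1) / Real.sqrt (2 ^ a) := by
  have h := flux_main (E := E) K k1 a ha hak hk1 hM (fun k b u => mS k b (-u))
    (fun k b u => mT k b (-u)) (fun k b u => p k b (-u)) (fun k b u => V k b (-u)) Bp BV R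
    hR hBp hBV (fun k b u => mS0 k b (-u)) (fun k b u => mT0 k b (-u))
    (fun k b u => mS1 k b (-u)) (fun k b u => mT1 k b (-u))
    (fun k h1 h2 b hb u => accS k h1 h2 b hb (-u))
    (fun k h1 h2 b hb u => accT k h1 h2 b hb (-u))
    (fun k h1 h2 b hb u => hp k h1 h2 b hb (-u))
    (fun k h1 h2 b hb u => hV k h1 h2 b hb (-u))
    (fun b u => hVt b (-u))
    (fun k h1 h2 b hb u => hq k h1 h2 b hb (-u))
  have e : FT K k1 (2 ^ a) (8 * a) (fun k b u => p k b (-u)) (fun k b u => V k b (-u)) =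
      ∑ k ∈ Icc k1 K, tpm K k (p k) (ro (2 ^ a) (k - 8 * a) (V k)) := by
    unfold FT
    refine Finset.sum_congr rfl fun k _ => ?_
    rw [mir_ro, mir_tp]
  rw [← e]
  exact h

end

end NP2
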