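import Pool.Agent.NP2.SQ

/-!
# NP2 / TI : the total identity

`p` a `T`-process, `q` an `S`-process, `S = acc K p`, `V = acc K q`.

`FT p V + FS S q = ∑_k [<S_k - S_(k+1), (1-sm_(k-j0)) V_k> + <S_(k+1), (1-sm_(k-j0)) (V_k - V_(k+1))>]
= ∑_k [<S_k, (1-sm_(k-j0)) V_k> - <S_(k+1), (1-sm_(k-j0)) V_(k+1)>]
= <S_k1, (1-sm_(k1-j0)) V_k1> + ∑_{k1 ≤ k < K} <S_(k+1), (sm_(k-j0) - sm_(k+1-j0)) V_(k+1)>`
(pairing of lifted functions: `tp_up`).  First term: `sing_end`, `E|S|^2 ≤ BS E|S| ≤ BS tot`.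
Second: `sing_band` at level `k+1` with `j = j0+1`, Cauchy-Schwarz over `k`, `sq_main`.

`ti_sim` : simultaneous increments, directly from `sing_end` and Cauchy-Schwarz over `k`.
-/

namespace NP2
open Finset

noncomputable section

variable {M : ℕ} [NeZero M] {E : Type*} [NormedAddCommGroup E] [InnerProductSpace ℝ E]

/-- the gain -/
def gn (Q j0 : ℕ) : ℝ := 1 / Real.sqrt Q + (Q : ℝ) ^ 2 * (3 / 4 : ℝ) ^ j0

private theorem cs_sqrt2 {ι : Type*} (s : Finset ι) (F G : ι → ℝ) (hF : ∀ t ∈ s, 0 ≤ F t)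
    (hG : ∀ t ∈ s, 0 ≤ G t) :
    ∑ t ∈ s, Real.sqrt (F t) * Real.sqrt (G t) ≤
      Real.sqrt (∑ t ∈ s, F t) * Real.sqrt (∑ t ∈ s, G t) := by
  have h := Finset.sum_mul_sq_le_sq_mul_sq s (fun t => Real.sqrt (F t)) (fun t => Real.sqrt (G t))
  have e1 : ∑ t ∈ s, Real.sqrt (F t) ^ 2 = ∑ t ∈ s, F t :=
    Finset.sum_congr rfl fun t ht => Real.sq_sqrt (hF t ht)
  have e2 : ∑ t ∈ s, Real.sqrt (G t) ^ 2 = ∑ t ∈ s, G t :=
    Finset.sum_congr rfl fun t ht => Real.sq_sqrt (hG t ht)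
  rw [e1, e2] at h
  rw [← Real.sqrt_mul (Finset.sum_nonneg hF)]
  exact Real.le_sqrt_of_sq_le h

private theorem ti_blk_lt (K k c : ℕ) (hk : k ≤ K) (hc : c < 2 ^ K) :
    c / 2 ^ k < 2 ^ (K - k) := by
  rw [Nat.div_lt_iff_lt_mul (by positivity), ← pow_add, Nat.sub_add_cancel hk]
  exact hc

private theorem ti_sq (K k : ℕ) (hk : k ≤ K) (V : ℕ → ℕ → A M → E) (B : ℝ)
    (hB : ∀ b < 2 ^ (K - k), ∀ u, ‖V k b u‖ ≤ B) :
    ex K (fun c u => ‖V k (c / 2 ^ k) u‖ ^ 2) ≤ B * nv K k V := by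
  unfold nv
  rw [← ex_smul]
  refine ex_mono K _ _ fun c hc u => ?_
  have h := hB (c / 2 ^ k) (ti_blk_lt K k c hk hc) u
  have h0 := norm_nonneg (V k (c / 2 ^ k) u)
  nlinarith

private theorem nv_nonneg (K k : ℕ) (V : ℕ → ℕ → A M → E) : 0 ≤ nv K k V :=
  ex_nonneg K _ fun _ _ => norm_nonneg _

private theorem ro_up (Q i : ℕ) (g : ℕ → A M → E) : ro Q i (up g) = up (ro Q i g) := rfl

/-- one step of the total identity -/
private theorem ti_step (K k Q i : ℕ) (hk : k ≤ K) (p q : ℕ → ℕ → A M → E) :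
    tp K k (p k) (ro Q i (acc K q k)) + tp K k (up (acc K p (k + 1))) (ro Q i (q k)) =
      tp K k (acc K p k) (ro Q i (acc K q k)) -
        tp K (k + 1) (acc K p (k + 1)) (ro Q i (acc K q (k + 1))) := by
  have e1 : acc K p k = fun b u => p k b u + up (acc K p (k + 1)) b u := by
    funext b u
    exact acc_step K k hk p b u
  have e2 : ro Q i (acc K q k) = fun b u => ro Q i (q k) b u + up (ro Q i (acc K q (k + 1))) b u := by
    funext b u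
    have e3 : acc K q k b = fun u => q k b u + acc K q (k + 1) (b / 2) u := by
      funext u
      exact acc_step K k hk q b u
    unfold ro up
    rw [e3, sm_add]
    simp only
    abel
  have e4 : tp K k (acc K p k) (ro Q i (acc K q k)) =
      tp K k (p k) (ro Q i (acc K q k)) + tp K k (up (acc K p (k + 1))) (ro Q i (acc K q k)) := by
    conv_lhs => rw [e1]
    exact tp_add_left K k (p k) (up (acc K p (k + 1))) _
  have e5 : tp K k (up (acc K p (k + 1))) (ro Q i (acc K q k)) =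
      tp K k (up (acc K p (k + 1))) (ro Q i (q k)) +
        tp K (k + 1) (acc K p (k + 1)) (ro Q i (acc K q (k + 1))) := by
    rw [e2, ← tp_up]
    exact tp_add_right K k _ (ro Q i (q k)) (up (ro Q i (acc K q (k + 1))))
  rw [e4, e5]
  ring

private theorem ti_tele (g : ℕ → ℕ → ℝ) (k1 K : ℕ) (h : k1 ≤ K) :
    ∑ k ∈ Icc k1 K, (g k k - g (k + 1) k) =
      g k1 k1 - g (K + 1) K + ∑ k ∈ Ico k1 K, (g (k + 1) (k + 1) - g (k + 1) k) := by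
  induction K, h using Nat.le_induction with
  | base => simp
  | succ K hK ih =>
    rw [Finset.sum_Icc_succ_top (by omega), ih, Finset.sum_Ico_succ_top hK]
    ring

private theorem tp_zero_left (K k : ℕ) (f g : ℕ → A M → E) (h : ∀ b u, f b u = 0) :
    tp K k f g = 0 := by
  unfold tp ex
  simp [h]

private theorem ti_j (Q j0 k1 : ℕ) (hQ : 1 ≤ Q) (hk : 16 * Q ^ 4 * 16 ^ (j0 + 1) ≤ 2 ^ k1) :
    j0 + 1 ≤ k1 := by
  have h1 : 2 ^ (j0 + 1) ≤ 2 ^ k1 := by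
    calc 2 ^ (j0 + 1) ≤ 16 ^ (j0 + 1) := Nat.pow_le_pow_left (by norm_num) _
      _ ≤ 16 * Q ^ 4 * 16 ^ (j0 + 1) := by
          refine Nat.le_mul_of_pos_left _ ?_
          positivity
      _ ≤ 2 ^ k1 := hk
  exact (Nat.pow_le_pow_iff_right (by norm_num)).1 h1

private theorem ti_end (K k1 k Q j0 : ℕ) (h1 : k1 ≤ k) (hkK : k ≤ K) (hQ : 1 ≤ Q)
    (hk : 16 * Q ^ 4 * 16 ^ (j0 + 1) ≤ 2 ^ k1) (f g : ℕ → A M → E) :
    |tp K k f (ro Q (k - j0) g)| ≤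
      1000 * (1 / Real.sqrt Q + (3 / 4 : ℝ) ^ j0) *
        (Real.sqrt (ex K (fun c u => ‖f (c / 2 ^ k) u‖ ^ 2)) *
          Real.sqrt (ex K (fun c u => ‖g (c / 2 ^ k) u‖ ^ 2))) := by
  refine sing_end K k Q j0 hkK hQ ?_ ?_ f g
  · have := ti_j Q j0 k1 hQ hk
    omega
  · calc 16 * Q ^ 4 * 16 ^ j0 ≤ 16 * Q ^ 4 * 16 ^ (j0 + 1) := by
          refine Nat.mul_le_mul_left _ ?_
          exact Nat.pow_le_pow_right (by norm_num) (by omega)
      _ ≤ 2 ^ k1 := hk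
      _ ≤ 2 ^ k := Nat.pow_le_pow_right (by norm_num) h1

private theorem gn_ge (Q j0 : ℕ) (hQ : 1 ≤ Q) :
    1 / Real.sqrt Q + (3 / 4 : ℝ) ^ j0 ≤ gn Q j0 := by
  unfold gn
  have h1 : (1 : ℝ) ≤ (Q : ℝ) ^ 2 := by
    have : (1 : ℝ) ≤ (Q : ℝ) := by exact_mod_cast hQ
    nlinarith
  have h2 : (0 : ℝ) ≤ (3 / 4 : ℝ) ^ j0 := by positivity
  nlinarith

theorem ti_main (K k1 Q j0 : ℕ) (hk1 : k1 ≤ K) (hQ : 1 ≤ Q)
    (hk : 16 * Q ^ 4 * 16 ^ (j0 + 1) ≤ 2 ^ k1) (p q : ℕ → ℕ → A M → E) (BS BV : ℝ)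
    (hBS : ∀ k, k1 ≤ k → k ≤ K → ∀ b < 2 ^ (K - k), ∀ u, ‖acc K p k b u‖ ≤ BS)
    (hBV : ∀ k, k1 ≤ k → k ≤ K → ∀ b < 2 ^ (K - k), ∀ u, ‖acc K q k b u‖ ≤ BV) :
    |FT K k1 Q j0 p (acc K q) + FS K k1 Q j0 (acc K p) q| ≤
      2000000 * gn Q j0 *
        (Real.sqrt (BS * tot K k1 p) * Real.sqrt (BV * tot K k1 q)) := by
  have hBS0 : 0 ≤ BS := (norm_nonneg _).trans (hBS k1 le_rfl hk1 0 (by positivity) 0)
  have hBV0 : 0 ≤ BV := (norm_nonneg _).trans (hBV k1 le_rfl hk1 0 (by positivity) 0)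
  have hj := ti_j Q j0 k1 hQ hk
  have htp : 0 ≤ tot K k1 p := Finset.sum_nonneg fun k _ => nv_nonneg K k p
  have htq : 0 ≤ tot K k1 q := Finset.sum_nonneg fun k _ => nv_nonneg K k q
  obtain ⟨g, hg⟩ : ∃ g : ℕ → ℕ → ℝ, ∀ m k, g m k =
      tp K m (acc K p m) (ro Q (k - j0) (acc K q m)) := ⟨_, fun _ _ => rfl⟩
  have e1 : FT K k1 Q j0 p (acc K q) + FS K k1 Q j0 (acc K p) q =
      ∑ k ∈ Icc k1 K, (g k k - g (k + 1) k) := by
    unfold FT FS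
    rw [← Finset.sum_add_distrib]
    refine Finset.sum_congr rfl fun k hk => ?_
    rw [Finset.mem_Icc] at hk
    rw [hg, hg]
    exact ti_step K k Q (k - j0) hk.2 p q
  have e2 : g (K + 1) K = 0 := by
    rw [hg]
    exact tp_zero_left K (K + 1) _ _ fun b u => acc_top K p b u
  -- the first term
  have hS2 : ex K (fun c u => ‖acc K p k1 (c / 2 ^ k1) u‖ ^ 2) ≤ BS * tot K k1 p :=
    (ti_sq K k1 hk1 (acc K p) BS (hBS k1 le_rfl hk1)).trans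
      (mul_le_mul_of_nonneg_left (nv_acc_le K k1 k1 le_rfl p) hBS0)
  have hV2 : ex K (fun c u => ‖acc K q k1 (c / 2 ^ k1) u‖ ^ 2) ≤ BV * tot K k1 q :=
    (ti_sq K k1 hk1 (acc K q) BV (hBV k1 le_rfl hk1)).trans
      (mul_le_mul_of_nonneg_left (nv_acc_le K k1 k1 le_rfl q) hBV0)
  set X : ℝ := Real.sqrt (BS * tot K k1 p) with hX
  set Y : ℝ := Real.sqrt (BV * tot K k1 q) with hY
  have hX0 : 0 ≤ X := Real.sqrt_nonneg _
  have hY0 : 0 ≤ Y := Real.sqrt_nonneg _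
  have hQ0 : (0 : ℝ) ≤ 1 / Real.sqrt Q := by positivity
  have h34 : (0 : ℝ) ≤ (3 / 4 : ℝ) ^ j0 := by positivity
  have t1 : |g k1 k1| ≤ 1000 * (1 / Real.sqrt Q + (3 / 4 : ℝ) ^ j0) * (X * Y) := by
    rw [hg]
    refine (ti_end K k1 k1 Q j0 le_rfl hk1 hQ hk _ _).trans ?_
    refine mul_le_mul_of_nonneg_left ?_ (by positivity)
    exact mul_le_mul (Real.sqrt_le_sqrt hS2) (Real.sqrt_le_sqrt hV2) (Real.sqrt_nonneg _) hX0
  -- the bands
  have t2 : ∀ k ∈ Ico k1 K, |g (k + 1) (k + 1) - g (k + 1) k| ≤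
      100000 * (3 / 4 : ℝ) ^ (j0 + 1) *
        (Real.sqrt (ebf K (k + 1) Q K (k + 1 - (j0 + 1)) (acc K p)) *
          Real.sqrt (ebf K (k + 1) Q K (k + 1 - (j0 + 1)) (acc K q))) := by
    intro k hk'
    rw [Finset.mem_Ico] at hk'
    have e3 : g (k + 1) (k + 1) - g (k + 1) k = tp K (k + 1) (acc K p (k + 1))
        (fun b v => sm Q (k + 1 - (j0 + 1)) (acc K q (k + 1) b) v -
          sm Q (k + 1 - (j0 + 1) + 1) (acc K q (k + 1) b) v) := by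
      rw [hg, hg, ← tp_sub_right]
      congr 1
      funext b v
      have a1 : k + 1 - (j0 + 1) = k - j0 := by omega
      have a2 : k - j0 + 1 = k + 1 - j0 := by omega
      rw [a1, a2]
      unfold ro
      abel
    rw [e3]
    refine (sing_band K (k + 1) Q (j0 + 1) K hk'.2 hQ (by omega) ?_ hk'.2 _ _).trans
      (le_of_eq rfl)
    exact hk.trans (Nat.pow_le_pow_right (by norm_num) (by omega))
  have sqp := sq_main K k1 Q (j0 + 1) hk1 hj hQ p BS hBS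
  have sqq := sq_main K k1 Q (j0 + 1) hk1 hj hQ q BV hBV
  have shift : ∀ r : ℕ → ℕ → A M → E, ∑ k ∈ Ico k1 K,
      ebf K (k + 1) Q K (k + 1 - (j0 + 1)) (acc K r) ≤
      ∑ k ∈ Icc k1 K, ebf K k Q K (k - (j0 + 1)) (acc K r) := by
    intro r
    have e4 : ∑ k ∈ Ico k1 K, ebf K (k + 1) Q K (k + 1 - (j0 + 1)) (acc K r) =
        ∑ k ∈ Ico (k1 + 1) (K + 1), ebf K k Q K (k - (j0 + 1)) (acc K r) := by
      rw [Finset.sum_Ico_add' (fun k => ebf K k Q K (k - (j0 + 1)) (acc K r)) k1 K 1]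
    rw [e4]
    refine Finset.sum_le_sum_of_subset_of_nonneg ?_ fun k _ _ => ebf_nonneg _ _ _ _ _ _
    intro k hk'
    rw [Finset.mem_Ico] at hk'
    rw [Finset.mem_Icc]
    omega
  have t3 : |∑ k ∈ Ico k1 K, (g (k + 1) (k + 1) - g (k + 1) k)| ≤
      100000 * (3 / 4 : ℝ) ^ (j0 + 1) * (10 * (Q : ℝ) ^ 2) * (X * Y) := by
    refine (Finset.abs_sum_le_sum_abs _ _).trans ((Finset.sum_le_sum t2).trans ?_)
    rw [← Finset.mul_sum, mul_assoc (100000 * (3 / 4 : ℝ) ^ (j0 + 1))]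
    refine mul_le_mul_of_nonneg_left ?_ (by positivity)
    refine (cs_sqrt2 _ _ _ (fun k _ => ebf_nonneg _ _ _ _ _ _)
      (fun k _ => ebf_nonneg _ _ _ _ _ _)).trans ?_
    have a1 : Real.sqrt (∑ k ∈ Ico k1 K, ebf K (k + 1) Q K (k + 1 - (j0 + 1)) (acc K p)) ≤
        Real.sqrt (10 * (Q : ℝ) ^ 2) * X := by
      rw [hX, ← Real.sqrt_mul (by positivity)]
      refine Real.sqrt_le_sqrt (((shift p).trans sqp).trans (le_of_eq (by ring)))
    have a2 : Real.sqrt (∑ k ∈ Ico k1 K, ebf K (k + 1) Q K (k + 1 - (j0 + 1)) (acc K q)) ≤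
        Real.sqrt (10 * (Q : ℝ) ^ 2) * Y := by
      rw [hY, ← Real.sqrt_mul (by positivity)]
      refine Real.sqrt_le_sqrt (((shift q).trans sqq).trans (le_of_eq (by ring)))
    refine (mul_le_mul a1 a2 (Real.sqrt_nonneg _) (by positivity)).trans (le_of_eq ?_)
    have a3 : Real.sqrt (10 * (Q : ℝ) ^ 2) * Real.sqrt (10 * (Q : ℝ) ^ 2) = 10 * (Q : ℝ) ^ 2 :=
      Real.mul_self_sqrt (by positivity)
    calc Real.sqrt (10 * (Q : ℝ) ^ 2) * X * (Real.sqrt (10 * (Q : ℝ) ^ 2) * Y)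
        = (Real.sqrt (10 * (Q : ℝ) ^ 2) * Real.sqrt (10 * (Q : ℝ) ^ 2)) * (X * Y) := by ring
      _ = 10 * (Q : ℝ) ^ 2 * (X * Y) := by rw [a3]
  rw [e1, ti_tele g k1 K hk1, e2, sub_zero]
  refine (abs_add_le _ _).trans ((add_le_add t1 t3).trans ?_)
  have hXY : 0 ≤ X * Y := mul_nonneg hX0 hY0
  have hQ2 : (1 : ℝ) ≤ (Q : ℝ) ^ 2 := by
    have : (1 : ℝ) ≤ (Q : ℝ) := by exact_mod_cast hQ
    nlinarith
  have hfin : 1000 * (1 / Real.sqrt Q + (3 / 4 : ℝ) ^ j0) +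
      100000 * (3 / 4 : ℝ) ^ (j0 + 1) * (10 * (Q : ℝ) ^ 2) ≤ 2000000 * gn Q j0 := by
    unfold gn
    rw [pow_succ]
    have : (3 / 4 : ℝ) ^ j0 ≤ (Q : ℝ) ^ 2 * (3 / 4 : ℝ) ^ j0 := by nlinarith
    nlinarith
  calc 1000 * (1 / Real.sqrt Q + (3 / 4 : ℝ) ^ j0) * (X * Y) +
        100000 * (3 / 4 : ℝ) ^ (j0 + 1) * (10 * (Q : ℝ) ^ 2) * (X * Y)
      = (1000 * (1 / Real.sqrt Q + (3 / 4 : ℝ) ^ j0) +
        100000 * (3 / 4 : ℝ) ^ (j0 + 1) * (10 * (Q : ℝ) ^ 2)) * (X * Y) := by ring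
    _ ≤ 2000000 * gn Q j0 * (X * Y) := mul_le_mul_of_nonneg_right hfin hXY

/-- simultaneous increments -/
theorem ti_sim (K k1 Q j0 : ℕ) (hQ : 1 ≤ Q)
    (hk : 16 * Q ^ 4 * 16 ^ (j0 + 1) ≤ 2 ^ k1) (p q : ℕ → ℕ → A M → E) (Bp Bq : ℝ)
    (hBp : ∀ k, k1 ≤ k → k ≤ K → ∀ b < 2 ^ (K - k), ∀ u, ‖p k b u‖ ≤ Bp)
    (hBq : ∀ k, k1 ≤ k → k ≤ K → ∀ b < 2 ^ (K - k), ∀ u, ‖q k b u‖ ≤ Bq) :
    |FT K k1 Q j0 p q| ≤
      2000000 * gn Q j0 *
        (Real.sqrt (Bp * tot K k1 p) * Real.sqrt (Bq * tot K k1 q)) := by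
  have hgn0 : 0 ≤ gn Q j0 := by
    unfold gn
    positivity
  rcases Nat.lt_or_ge K k1 with hlt | hk1
  · have e : FT K k1 Q j0 p q = 0 := by
      unfold FT
      rw [Finset.Icc_eq_empty (by omega), Finset.sum_empty]
    rw [e, abs_zero]
    positivity
  have hBp0 : 0 ≤ Bp := (norm_nonneg _).trans (hBp k1 le_rfl hk1 0 (by positivity) 0)
  have hBq0 : 0 ≤ Bq := (norm_nonneg _).trans (hBq k1 le_rfl hk1 0 (by positivity) 0)
  have h1 : ∀ k ∈ Icc k1 K, |tp K k (p k) (ro Q (k - j0) (q k))| ≤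
      1000 * gn Q j0 * (Real.sqrt (Bp * nv K k p) * Real.sqrt (Bq * nv K k q)) := by
    intro k hk'
    rw [Finset.mem_Icc] at hk'
    refine (ti_end K k1 k Q j0 hk'.1 hk'.2 hQ hk _ _).trans ?_
    refine mul_le_mul ?_ ?_ (by positivity) (by positivity)
    · exact mul_le_mul_of_nonneg_left (gn_ge Q j0 hQ) (by norm_num)
    · exact mul_le_mul (Real.sqrt_le_sqrt (ti_sq K k hk'.2 p Bp (hBp k hk'.1 hk'.2)))
        (Real.sqrt_le_sqrt (ti_sq K k hk'.2 q Bq (hBq k hk'.1 hk'.2))) (Real.sqrt_nonneg _)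
        (Real.sqrt_nonneg _)
  have h2 : |FT K k1 Q j0 p q| ≤ 1000 * gn Q j0 *
      (Real.sqrt (Bp * tot K k1 p) * Real.sqrt (Bq * tot K k1 q)) := by
    unfold FT
    refine (Finset.abs_sum_le_sum_abs _ _).trans ((Finset.sum_le_sum h1).trans ?_)
    rw [← Finset.mul_sum]
    refine mul_le_mul_of_nonneg_left ?_ (by positivity)
    unfold tot
    rw [Finset.mul_sum, Finset.mul_sum]
    exact cs_sqrt2 _ _ _ (fun k _ => mul_nonneg hBp0 (nv_nonneg K k p))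
      (fun k _ => mul_nonneg hBq0 (nv_nonneg K k q))
  refine h2.trans (mul_le_mul_of_nonneg_right ?_ (by positivity))
  nlinarith

end

end NP2
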