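import Pool.Agent.NP2.Win
import Pool.Agent.NP2.TI

/-!
# NP2 / Near : near diagonal windows

Let `pm = rs wT {m} p`, `qm = rs wS {m'} q`, `|m - m'| ≤ 1`, and `p̄, q̄` the same for `mT, mS`.

`FT pm (acc qm) = FT pm qm + ∑_k tp (pm k) (ro (up (acc qm (k+1))))`: the first (simultaneous) by
`ti_sim`; the second is at most `Bp Bq (F^T + Q^2 H^T)` with
`F^T = ∑_k ex (p̄ k u * acc q̄ (k+1) (u + th c))`,
`H^T = ∑_k ex (p̄ k u * sp (k-j0) (acc q̄ (k+1)) (u + th c)) ≤ 200 Lam^3 4^j0 κ tot p̄` (`nearT`, group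
the times by blocks).  In the same way `|FS (acc pm) qm| ≤ Bp Bq (F^S + Q^2 H^S)`,
`H^S ≤ 200 Lam^3 4^j0 κ tot q̄` (`nearS`, change of variable `ex_shift`).
Finally (`ti_main`, `ti_sim` for the real valued `p̄, q̄`)
`F^T + F^S = FT p̄ (acc q̄) + FS (acc p̄) q̄ - FT p̄ q̄ + smooth terms ≤ |..| + |..| + Q^2 (H^T + H^S)`.
-/

namespace NP2
open Finset

noncomputable section

variable {M : ℕ} [NeZero M] {E : Type*} [NormedAddCommGroup E] [InnerProductSpace ℝ E]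

/-- positive central average -/
def sp (i : ℕ) (f : A M → ℝ) (v : A M) : ℝ :=
  (∑ j ∈ range (4 ^ i), ∑ j' ∈ range (4 ^ i), f (v + cs M ((j : ℤ) - j'))) / ((4 : ℝ) ^ i) ^ 2

theorem norm_sm_le_sp (Q i : ℕ) (V : A M → E) (v : A M) :
    ‖sm Q i V v‖ ≤ (Q : ℝ) ^ 2 * sp i (fun v => ‖V v‖) v := by
  have h4 : (0 : ℝ) < ((4 : ℝ) ^ i) ^ 2 := by positivity
  unfold sm sp
  rw [norm_smul, Real.norm_of_nonneg (by positivity)]
  have h1 : ‖∑ j ∈ range (4 ^ i), ∑ j' ∈ range (4 ^ i),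
      CQ Q ((j : ℤ) - j') • V (v + cs M ((j : ℤ) - j'))‖ ≤
      (Q : ℝ) ^ 2 * ∑ j ∈ range (4 ^ i), ∑ j' ∈ range (4 ^ i),
        ‖V (v + cs M ((j : ℤ) - j'))‖ := by
    rw [Finset.mul_sum]
    refine (norm_sum_le _ _).trans (Finset.sum_le_sum fun j _ => ?_)
    rw [Finset.mul_sum]
    refine (norm_sum_le _ _).trans (Finset.sum_le_sum fun j' _ => ?_)
    rw [norm_smul]
    exact mul_le_mul_of_nonneg_right (CQ_abs_le Q _) (norm_nonneg _)
  calc (1 : ℝ) / ((4 : ℝ) ^ i) ^ 2 * _ ≤ 1 / ((4 : ℝ) ^ i) ^ 2 * _ :=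
        mul_le_mul_of_nonneg_left h1 (by positivity)
    _ = _ := by field_simp

/-- the near diagonal bound -/
def NB (Q j0 : ℕ) (R κ x y : ℝ) : ℝ :=
  10000000 * gn Q j0 * R * (Real.sqrt x * Real.sqrt y)
    + 4 * (Q : ℝ) ^ 2 * (200 * Lam ^ 3 * 4 ^ j0 * κ) * (x + y)

/-- the standing hypotheses -/
structure FluxHyp (M K k1 Q j0 : ℕ) [NeZero M] (E : Type*) [NormedAddCommGroup E]
    [InnerProductSpace ℝ E] (mT mS : ℕ → ℕ → A M → ℝ) (p q : ℕ → ℕ → A M → E)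
    (Bp Bq R : ℝ) : Prop where
  k1K : k1 ≤ K
  Qpos : 1 ≤ Q
  j0pos : 1 ≤ j0
  big : 16 * Q ^ 4 * 16 ^ (j0 + 1) ≤ 2 ^ k1
  Rpos : 1 ≤ R
  Bp0 : 0 ≤ Bp
  Bq0 : 0 ≤ Bq
  mT0 : ∀ k b u, 0 ≤ mT k b u
  mS0 : ∀ k b u, 0 ≤ mS k b u
  mT1 : ∀ k b u, mT k b u ≤ 1
  mS1 : ∀ k b u, mS k b u ≤ 1
  accT : ∀ k, k1 ≤ k → k ≤ K → ∀ b < 2 ^ (K - k), ∀ u, acc K mT k b u ≤ R
  accS : ∀ k, k1 ≤ k → k ≤ K → ∀ b < 2 ^ (K - k), ∀ u, acc K mS k b u ≤ R
  hp : ∀ k, k1 ≤ k → k ≤ K → ∀ b < 2 ^ (K - k), ∀ u, ‖p k b u‖ ≤ Bp * mT k b u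
  hq : ∀ k, k1 ≤ k → k ≤ K → ∀ b < 2 ^ (K - k), ∀ u, ‖q k b u‖ ≤ Bq * mS k b u

/-! ### elementary facts on the positive average -/

omit [NeZero M] in
private theorem near_sp_mono (i : ℕ) (f g : A M → ℝ) (h : ∀ v, f v ≤ g v) (v : A M) :
    sp i f v ≤ sp i g v := by
  unfold sp
  refine div_le_div_of_nonneg_right ?_ (by positivity)
  exact Finset.sum_le_sum fun j _ => Finset.sum_le_sum fun j' _ => h _

omit [NeZero M] in
private theorem near_sp_nonneg (i : ℕ) (f : A M → ℝ) (h : ∀ v, 0 ≤ f v) (v : A M) :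
    0 ≤ sp i f v := by
  unfold sp
  exact div_nonneg (Finset.sum_nonneg fun j _ => Finset.sum_nonneg fun j' _ => h _) (by positivity)

private theorem near_idx (K k c : ℕ) (hk : k ≤ K) (hc : c < 2 ^ K) : c / 2 ^ k < 2 ^ (K - k) := by
  rw [Nat.div_lt_iff_lt_mul (by positivity), ← pow_add]
  have e : K - k + k = K := by omega
  rwa [e]

/-! ### one term -/

private theorem near_abs (K k i Q : ℕ) (hk : k ≤ K) (f g : ℕ → A M → E) (f' g' : ℕ → A M → ℝ)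
    (hf : ∀ b < 2 ^ (K - k), ∀ u, ‖f b u‖ ≤ f' b u)
    (hg : ∀ b < 2 ^ (K - k), ∀ u, ‖g b u‖ ≤ g' b u) :
    |tp K k f (ro Q i g)| ≤
      ex K (fun c u => f' (c / 2 ^ k) u * g' (c / 2 ^ k) (u + th M c)) +
      (Q : ℝ) ^ 2 * ex K (fun c u => f' (c / 2 ^ k) u * sp i (g' (c / 2 ^ k)) (u + th M c)) := by
  have key : ∀ c < 2 ^ K, ∀ u : A M,
      |inner ℝ (f (c / 2 ^ k) u) (ro Q i g (c / 2 ^ k) (u + th M c))| ≤
        f' (c / 2 ^ k) u * g' (c / 2 ^ k) (u + th M c) +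
        (Q : ℝ) ^ 2 * (f' (c / 2 ^ k) u * sp i (g' (c / 2 ^ k)) (u + th M c)) := by
    intro c hc u
    have hb := near_idx K k c hk hc
    have h1 := hf _ hb u
    have h0 : 0 ≤ f' (c / 2 ^ k) u := (norm_nonneg _).trans h1
    have h2 : ‖ro Q i g (c / 2 ^ k) (u + th M c)‖ ≤
        g' (c / 2 ^ k) (u + th M c) + (Q : ℝ) ^ 2 * sp i (g' (c / 2 ^ k)) (u + th M c) := by
      unfold ro
      refine (norm_sub_le _ _).trans (add_le_add (hg _ hb _) ?_)
      refine (norm_sm_le_sp Q i _ _).trans (mul_le_mul_of_nonneg_left ?_ (by positivity))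
      exact near_sp_mono i _ _ (fun v => hg _ hb v) _
    calc |inner ℝ (f (c / 2 ^ k) u) (ro Q i g (c / 2 ^ k) (u + th M c))|
        ≤ ‖f (c / 2 ^ k) u‖ * ‖ro Q i g (c / 2 ^ k) (u + th M c)‖ := abs_real_inner_le_norm _ _
      _ ≤ f' (c / 2 ^ k) u * (g' (c / 2 ^ k) (u + th M c) +
            (Q : ℝ) ^ 2 * sp i (g' (c / 2 ^ k)) (u + th M c)) :=
          mul_le_mul h1 h2 (norm_nonneg _) h0
      _ = _ := by ring
  have hR : ex K (fun c u => f' (c / 2 ^ k) u * g' (c / 2 ^ k) (u + th M c)) +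
      (Q : ℝ) ^ 2 * ex K (fun c u => f' (c / 2 ^ k) u * sp i (g' (c / 2 ^ k)) (u + th M c)) =
      ex K (fun c u => f' (c / 2 ^ k) u * g' (c / 2 ^ k) (u + th M c) +
        (Q : ℝ) ^ 2 * (f' (c / 2 ^ k) u * sp i (g' (c / 2 ^ k)) (u + th M c))) := by
    rw [ex_add K (fun c u => f' (c / 2 ^ k) u * g' (c / 2 ^ k) (u + th M c))
      (fun c u => (Q : ℝ) ^ 2 * (f' (c / 2 ^ k) u * sp i (g' (c / 2 ^ k)) (u + th M c))),
      ex_smul K ((Q : ℝ) ^ 2) (fun c u => f' (c / 2 ^ k) u * sp i (g' (c / 2 ^ k)) (u + th M c))]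
  rw [hR]
  unfold tp
  rw [abs_le]
  constructor
  · have h3 := ex_mono K (fun c u => (-1 : ℝ) * (f' (c / 2 ^ k) u * g' (c / 2 ^ k) (u + th M c) +
        (Q : ℝ) ^ 2 * (f' (c / 2 ^ k) u * sp i (g' (c / 2 ^ k)) (u + th M c))))
      (fun c u => inner ℝ (f (c / 2 ^ k) u) (ro Q i g (c / 2 ^ k) (u + th M c)))
      (fun c hc u => by
        have := (abs_le.1 (key c hc u)).1
        linarith)
    rw [ex_smul K (-1 : ℝ) (fun c u => f' (c / 2 ^ k) u * g' (c / 2 ^ k) (u + th M c) +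
        (Q : ℝ) ^ 2 * (f' (c / 2 ^ k) u * sp i (g' (c / 2 ^ k)) (u + th M c)))] at h3
    linarith
  · exact ex_mono K _ _ (fun c hc u => (abs_le.1 (key c hc u)).2)

private theorem near_real (K k i Q : ℕ) (hk : k ≤ K) (f g : ℕ → A M → ℝ)
    (hf : ∀ b u, 0 ≤ f b u) (hg : ∀ b u, 0 ≤ g b u) :
    ex K (fun c u => f (c / 2 ^ k) u * g (c / 2 ^ k) (u + th M c)) ≤
      tp K k f (ro Q i g) +
      (Q : ℝ) ^ 2 * ex K (fun c u => f (c / 2 ^ k) u * sp i (g (c / 2 ^ k)) (u + th M c)) := by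
  have hR : tp K k f (ro Q i g) +
      (Q : ℝ) ^ 2 * ex K (fun c u => f (c / 2 ^ k) u * sp i (g (c / 2 ^ k)) (u + th M c)) =
      ex K (fun c u => inner ℝ (f (c / 2 ^ k) u) (ro Q i g (c / 2 ^ k) (u + th M c)) +
        (Q : ℝ) ^ 2 * (f (c / 2 ^ k) u * sp i (g (c / 2 ^ k)) (u + th M c))) := by
    unfold tp
    rw [ex_add K (fun c u => inner ℝ (f (c / 2 ^ k) u) (ro Q i g (c / 2 ^ k) (u + th M c)))
      (fun c u => (Q : ℝ) ^ 2 * (f (c / 2 ^ k) u * sp i (g (c / 2 ^ k)) (u + th M c))),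
      ex_smul K ((Q : ℝ) ^ 2) (fun c u => f (c / 2 ^ k) u * sp i (g (c / 2 ^ k)) (u + th M c))]
  rw [hR]
  refine ex_mono K _ _ (fun c hc u => ?_)
  have h1 : inner ℝ (f (c / 2 ^ k) u) (ro Q i g (c / 2 ^ k) (u + th M c)) =
      f (c / 2 ^ k) u * (g (c / 2 ^ k) (u + th M c) -
        sm Q i (g (c / 2 ^ k)) (u + th M c)) := by
    unfold ro
    rw [RCLike.inner_apply, conj_trivial, mul_comm]
  have h2 : sm Q i (g (c / 2 ^ k)) (u + th M c) ≤
      (Q : ℝ) ^ 2 * sp i (g (c / 2 ^ k)) (u + th M c) := by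
    have h3 := norm_sm_le_sp Q i (g (c / 2 ^ k)) (u + th M c)
    have h4 : (fun v => ‖g (c / 2 ^ k) v‖) = g (c / 2 ^ k) := by
      funext v
      exact Real.norm_of_nonneg (hg _ _)
    rw [h4] at h3
    exact (le_abs_self _).trans h3
  have h5 := mul_le_mul_of_nonneg_left h2 (hf (c / 2 ^ k) u)
  rw [h1]
  nlinarith [h5]

/-! ### splitting off the simultaneous increments -/

private theorem near_split (K k1 Q j0 : ℕ) (p q : ℕ → ℕ → A M → E) :
    FT K k1 Q j0 p (acc K q) = FT K k1 Q j0 p q +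
      ∑ k ∈ Icc k1 K, tp K k (p k) (ro Q (k - j0) (up (acc K q (k + 1)))) := by
  unfold FT
  rw [← Finset.sum_add_distrib]
  refine Finset.sum_congr rfl fun k hk => ?_
  have hkK := (Finset.mem_Icc.1 hk).2
  have h : ro Q (k - j0) (acc K q k) =
      fun b v => ro Q (k - j0) (q k) b v + ro Q (k - j0) (up (acc K q (k + 1))) b v := by
    funext b v
    unfold ro
    have h1 : acc K q k b = fun v => q k b v + up (acc K q (k + 1)) b v := by
      funext v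
      exact acc_step K k hkK q b v
    have h2 : sm Q (k - j0) (acc K q k b) v =
        sm Q (k - j0) (q k b) v + sm Q (k - j0) (up (acc K q (k + 1)) b) v := by
      rw [h1]
      exact sm_add Q (k - j0) (q k b) (up (acc K q (k + 1)) b) v
    rw [h2]
    have h3 : acc K q k b v = q k b v + up (acc K q (k + 1)) b v := by rw [h1]
    rw [h3]
    abel
  rw [h]
  exact tp_add_right K k (p k) _ _

/-! ### block sums -/

private theorem near_range_mul (m n : ℕ) (F : ℕ → ℝ) :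
    ∑ c ∈ range (n * m), F c = ∑ b ∈ range n, ∑ c ∈ range m, F (b * m + c) := by
  induction n with
  | zero => simp
  | succ n ih => rw [Nat.succ_mul, Finset.sum_range_add, ih, Finset.sum_range_succ]

private theorem near_blocks (K k : ℕ) (hkK : k ≤ K) (F : ℕ → ℕ → ℝ) :
    ∑ c ∈ range (2 ^ K), F (c / 2 ^ k) c
      = ∑ b ∈ range (2 ^ (K - k)), ∑ c ∈ range (2 ^ k), F b (b * 2 ^ k + c) := by
  have e : 2 ^ K = 2 ^ (K - k) * 2 ^ k := by rw [← pow_add]; congr 1; omega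
  rw [e, near_range_mul]
  refine Finset.sum_congr rfl fun b _ => Finset.sum_congr rfl fun c hc => ?_
  rw [Finset.mem_range] at hc
  have h2 : 0 < 2 ^ k := by positivity
  have e2 : (b * 2 ^ k + c) / 2 ^ k = b := by
    rw [add_comm, Nat.add_mul_div_right _ _ h2, Nat.div_eq_of_lt hc, zero_add]
  rw [e2]

private theorem near_ex_blocks (K k : ℕ) (hk : k ≤ K) (P : ℕ → A M → ℝ)
    (F : ℕ → ℕ → A M → ℝ) (x : ℝ) (hP : ∀ b u, 0 ≤ P b u)
    (hF : ∀ b u, P b u ≠ 0 → ∑ c ∈ range (2 ^ k), F b (b * 2 ^ k + c) u ≤ 2 ^ k * x) :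
    ex K (fun c u => P (c / 2 ^ k) u * F (c / 2 ^ k) c u) ≤
      x * ex K (fun c u => P (c / 2 ^ k) u) := by
  have hM : (0 : ℝ) < (M : ℝ) := by exact_mod_cast Nat.pos_of_ne_zero (NeZero.ne M)
  rw [← ex_smul]
  unfold ex
  refine div_le_div_of_nonneg_right ?_ (by positivity)
  rw [near_blocks K k hk (fun b c => ∑ u : A M, P b u * F b c u),
    near_blocks K k hk (fun b _ => ∑ u : A M, x * P b u)]
  refine Finset.sum_le_sum fun b _ => ?_
  rw [Finset.sum_comm, Finset.sum_comm (s := range (2 ^ k))]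
  refine Finset.sum_le_sum fun u _ => ?_
  rw [← Finset.mul_sum, Finset.sum_const, Finset.card_range, nsmul_eq_mul]
  by_cases h0 : P b u = 0
  · rw [h0]; simp
  · have h1 := mul_le_mul_of_nonneg_left (hF b u h0) (hP b u)
    refine h1.trans (le_of_eq ?_)
    push_cast
    ring

/-! ### the smooth terms -/

private theorem near_locT (k i b : ℕ) (f : A M → ℝ) (u : A M) :
    ∑ c ∈ range (2 ^ k), sp i f (u + th M (b * 2 ^ k + c)) = 2 ^ k * locT k i b f u := by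
  unfold locT sp
  rw [← Finset.sum_div]
  field_simp

private theorem near_locS (k i b : ℕ) (f : A M → ℝ) (v : A M) :
    ∑ c ∈ range (2 ^ k), (∑ j ∈ range (4 ^ i), ∑ j' ∈ range (4 ^ i),
      f (v - th M (b * 2 ^ k + c) - cs M ((j : ℤ) - j'))) / ((4 : ℝ) ^ i) ^ 2
      = 2 ^ k * locS k i b f v := by
  unfold locS
  rw [← Finset.sum_div]
  field_simp

private theorem near_HT (K k i : ℕ) (hk : k ≤ K) (P G : ℕ → A M → ℝ) (x : ℝ)
    (hP : ∀ b u, 0 ≤ P b u)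
    (hG : ∀ b u, P b u ≠ 0 → locT k i b (G b) u ≤ x) :
    ex K (fun c u => P (c / 2 ^ k) u * sp i (G (c / 2 ^ k)) (u + th M c)) ≤
      x * ex K (fun c u => P (c / 2 ^ k) u) := by
  refine near_ex_blocks K k hk P (fun b c u => sp i (G b) (u + th M c)) x hP ?_
  intro b u h0
  rw [near_locT]
  exact mul_le_mul_of_nonneg_left (hG b u h0) (by positivity)

private theorem near_shift (i c : ℕ) (P G : A M → ℝ) :
    ∑ u : A M, G u * sp i P (u + th M c) =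
      ∑ v : A M, P v * ((∑ j ∈ range (4 ^ i), ∑ j' ∈ range (4 ^ i),
        G (v - th M c - cs M ((j : ℤ) - j'))) / ((4 : ℝ) ^ i) ^ 2) := by
  have h1 : ∑ u : A M, G u * sp i P (u + th M c) =
      (∑ j ∈ range (4 ^ i), ∑ j' ∈ range (4 ^ i), ∑ u : A M,
        G u * P (u + th M c + cs M ((j : ℤ) - j'))) / ((4 : ℝ) ^ i) ^ 2 := by
    unfold sp
    rw [Finset.sum_congr rfl fun j _ => Finset.sum_comm, Finset.sum_comm, Finset.sum_div]
    refine Finset.sum_congr rfl fun u _ => ?_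
    rw [← mul_div_assoc, Finset.mul_sum]
    congr 1
    refine Finset.sum_congr rfl fun j _ => ?_
    rw [Finset.mul_sum]
  have h2 : ∑ v : A M, P v * ((∑ j ∈ range (4 ^ i), ∑ j' ∈ range (4 ^ i),
        G (v - th M c - cs M ((j : ℤ) - j'))) / ((4 : ℝ) ^ i) ^ 2) =
      (∑ j ∈ range (4 ^ i), ∑ j' ∈ range (4 ^ i), ∑ v : A M,
        P v * G (v - th M c - cs M ((j : ℤ) - j'))) / ((4 : ℝ) ^ i) ^ 2 := by
    rw [Finset.sum_congr rfl fun j _ => Finset.sum_comm, Finset.sum_comm, Finset.sum_div]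
    refine Finset.sum_congr rfl fun u _ => ?_
    rw [← mul_div_assoc, Finset.mul_sum]
    congr 1
    refine Finset.sum_congr rfl fun j _ => ?_
    rw [Finset.mul_sum]
  rw [h1, h2]
  congr 1
  refine Finset.sum_congr rfl fun j _ => Finset.sum_congr rfl fun j' _ => ?_
  rw [← Equiv.sum_comp (Equiv.addRight (th M c + cs M ((j : ℤ) - j')))
    (fun v : A M => P v * G (v - th M c - cs M ((j : ℤ) - j')))]
  refine Finset.sum_congr rfl fun u _ => ?_
  simp only [Equiv.coe_addRight]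
  have e1 : u + (th M c + cs M ((j : ℤ) - j')) - th M c - cs M ((j : ℤ) - j') = u := by abel
  have e2 : u + (th M c + cs M ((j : ℤ) - j')) = u + th M c + cs M ((j : ℤ) - j') := by abel
  rw [e1, e2, mul_comm]

private theorem near_HS (K k i : ℕ) (hk : k ≤ K) (P G : ℕ → A M → ℝ) (x : ℝ)
    (hP : ∀ b u, 0 ≤ P b u)
    (hG : ∀ b u, P b u ≠ 0 → locS k i b (G b) u ≤ x) :
    ex K (fun c u => G (c / 2 ^ k) u * sp i (P (c / 2 ^ k)) (u + th M c)) ≤
      x * ex K (fun c u => P (c / 2 ^ k) u) := by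
  have h1 : ex K (fun c u => G (c / 2 ^ k) u * sp i (P (c / 2 ^ k)) (u + th M c)) =
      ex K (fun c v => P (c / 2 ^ k) v * ((∑ j ∈ range (4 ^ i), ∑ j' ∈ range (4 ^ i),
        G (c / 2 ^ k) (v - th M c - cs M ((j : ℤ) - j'))) / ((4 : ℝ) ^ i) ^ 2)) := by
    unfold ex
    congr 1
    exact Finset.sum_congr rfl fun c _ => near_shift i c _ _
  rw [h1]
  refine near_ex_blocks K k hk P (fun b c v => (∑ j ∈ range (4 ^ i), ∑ j' ∈ range (4 ^ i),
        G b (v - th M c - cs M ((j : ℤ) - j'))) / ((4 : ℝ) ^ i) ^ 2) x hP ?_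
  intro b u h0
  rw [near_locS]
  exact mul_le_mul_of_nonneg_left (hG b u h0) (by positivity)

/-! ### restricted processes -/

omit [NeZero M] in
private theorem near_rs0 (w : ℕ → ℕ → A M → ℕ) (I : Finset ℕ) (m : ℕ → ℕ → A M → ℝ)
    (h : ∀ k b u, 0 ≤ m k b u) (k b : ℕ) (u : A M) : 0 ≤ rs w I m k b u := by
  unfold rs
  split
  · exact h k b u
  · exact le_rfl

omit [NeZero M] in
private theorem near_rs_le (w : ℕ → ℕ → A M → ℕ) (I : Finset ℕ) (m : ℕ → ℕ → A M → ℝ)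
    (h : ∀ k b u, 0 ≤ m k b u) (k b : ℕ) (u : A M) : rs w I m k b u ≤ m k b u := by
  unfold rs
  split
  · exact le_rfl
  · exact h k b u

omit [NeZero M] in
private theorem near_rs_norm (w : ℕ → ℕ → A M → ℕ) (I : Finset ℕ) (m : ℕ → ℕ → A M → ℝ)
    (p : ℕ → ℕ → A M → E) (B : ℝ) (k b : ℕ) (u : A M) (h : ‖p k b u‖ ≤ B * m k b u) :
    ‖rs w I p k b u‖ ≤ B * rs w I m k b u := by
  unfold rs
  split
  · exact h
  · simp

omit [NeZero M] in
private theorem near_rs_mem (w : ℕ → ℕ → A M → ℕ) (m0 : ℕ) (m : ℕ → ℕ → A M → ℝ)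
    (k b : ℕ) (u : A M) (h : rs w {m0} m k b u ≠ 0) : w k b u = m0 := by
  by_contra hne
  apply h
  unfold rs
  rw [if_neg]
  simpa using hne

omit [NeZero M] in
private theorem near_acc0 (K : ℕ) (m : ℕ → ℕ → A M → ℝ) (h : ∀ k b u, 0 ≤ m k b u)
    (k b : ℕ) (u : A M) : 0 ≤ acc K m k b u := by
  unfold acc
  exact Finset.sum_nonneg fun w _ => h _ _ _

omit [NeZero M] in
private theorem near_acc_le (K : ℕ) (m m' : ℕ → ℕ → A M → ℝ) (h : ∀ k b u, m k b u ≤ m' k b u)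
    (k b : ℕ) (u : A M) : acc K m k b u ≤ acc K m' k b u := by
  unfold acc
  exact Finset.sum_le_sum fun w _ => h _ _ _

omit [NeZero M] in
private theorem near_acc_norm (K k1 : ℕ) (m : ℕ → ℕ → A M → ℝ) (p : ℕ → ℕ → A M → E) (B : ℝ)
    (h : ∀ k, k1 ≤ k → k ≤ K → ∀ b < 2 ^ (K - k), ∀ u, ‖p k b u‖ ≤ B * m k b u)
    (k : ℕ) (hk : k1 ≤ k) (hkK : k ≤ K) (b : ℕ) (hb : b < 2 ^ (K - k)) (u : A M) :
    ‖up (acc K p (k + 1)) b u‖ ≤ B * up (acc K m (k + 1)) b u := by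
  unfold up acc
  rw [Finset.mul_sum]
  refine (norm_sum_le _ _).trans (Finset.sum_le_sum fun w hw => ?_)
  rw [Finset.mem_Icc] at hw
  refine h w (by omega) hw.2 _ ?_ u
  rw [Nat.div_div_eq_div_mul, Nat.div_lt_iff_lt_mul (by positivity), ← pow_succ', ← pow_add]
  have e : K - w + (w - (k + 1) + 1) = K - k := by omega
  rwa [e]

private theorem near_tot (K k1 : ℕ) (m : ℕ → ℕ → A M → ℝ) (p : ℕ → ℕ → A M → E) (B : ℝ)
    (h : ∀ k, k1 ≤ k → k ≤ K → ∀ b < 2 ^ (K - k), ∀ u, ‖p k b u‖ ≤ B * m k b u) :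
    tot K k1 p ≤ B * totr K k1 m := by
  unfold tot totr
  rw [Finset.mul_sum]
  refine Finset.sum_le_sum fun k hk => ?_
  rw [Finset.mem_Icc] at hk
  unfold nv
  rw [← ex_smul]
  exact ex_mono K _ _ fun c hc u => h k hk.1 hk.2 _ (near_idx K k c hk.2 hc) u

private theorem near_j0 {Q j0 k1 : ℕ} (hQ : 1 ≤ Q) (h : 16 * Q ^ 4 * 16 ^ (j0 + 1) ≤ 2 ^ k1) :
    j0 ≤ k1 := by
  have h1 : 2 ^ j0 ≤ 2 ^ k1 := by
    calc 2 ^ j0 ≤ 16 ^ j0 := Nat.pow_le_pow_left (by norm_num) _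
      _ ≤ 16 ^ (j0 + 1) := Nat.pow_le_pow_right (by norm_num) (by omega)
      _ = 1 * 16 ^ (j0 + 1) := by ring
      _ ≤ 16 * Q ^ 4 * 16 ^ (j0 + 1) := by
          refine Nat.mul_le_mul_right _ ?_
          have : 1 ≤ Q ^ 4 := Nat.one_le_pow _ _ hQ
          omega
      _ ≤ 2 ^ k1 := h
  exact (Nat.pow_le_pow_iff_right (by norm_num)).1 h1

private theorem near_gn0 (Q j0 : ℕ) : 0 ≤ gn Q j0 := by
  unfold gn
  positivity

/-! ### the scalar fluxes -/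

/-- the true scalar fluxes -/
private def near_F (K k1 : ℕ) (a b : ℕ → ℕ → A M → ℝ) : ℝ :=
  ∑ k ∈ Icc k1 K, ex K (fun c u => a k (c / 2 ^ k) u * up (acc K b (k + 1)) (c / 2 ^ k) (u + th M c))

private def near_G (K k1 : ℕ) (a b : ℕ → ℕ → A M → ℝ) : ℝ :=
  ∑ k ∈ Icc k1 K, ex K (fun c u => up (acc K a (k + 1)) (c / 2 ^ k) u * b k (c / 2 ^ k) (u + th M c))

/-- the smooth scalar fluxes -/
private def near_FH (K k1 j0 : ℕ) (a b : ℕ → ℕ → A M → ℝ) : ℝ :=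
  ∑ k ∈ Icc k1 K, ex K (fun c u => a k (c / 2 ^ k) u *
    sp (k - j0) (up (acc K b (k + 1)) (c / 2 ^ k)) (u + th M c))

private def near_GH (K k1 j0 : ℕ) (a b : ℕ → ℕ → A M → ℝ) : ℝ :=
  ∑ k ∈ Icc k1 K, ex K (fun c u => up (acc K a (k + 1)) (c / 2 ^ k) u *
    sp (k - j0) (b k (c / 2 ^ k)) (u + th M c))

private theorem near_scale (K : ℕ) (x y : ℝ) (f : ℕ → A M → ℝ) (g : ℕ → A M → ℝ) :
    ex K (fun c u => (x * f c u) * (y * g c u)) = x * y * ex K (fun c u => f c u * g c u) := by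
  rw [← ex_smul]
  congr 1
  funext c u
  ring

omit [NeZero M] in
private theorem near_sp_smul (i : ℕ) (y : ℝ) (g : A M → ℝ) (v : A M) :
    sp i (fun v => y * g v) v = y * sp i g v := by
  unfold sp
  rw [← mul_div_assoc]
  congr 1
  rw [Finset.mul_sum]
  refine Finset.sum_congr rfl fun j _ => ?_
  rw [Finset.mul_sum]

private theorem near_vecT (K k1 Q j0 : ℕ) (a b : ℕ → ℕ → A M → ℝ) (p q : ℕ → ℕ → A M → E)
    (x y : ℝ) 
    (hp : ∀ k, k1 ≤ k → k ≤ K → ∀ b < 2 ^ (K - k), ∀ u, ‖p k b u‖ ≤ x * a k b u)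
    (hq : ∀ k, k1 ≤ k → k ≤ K → ∀ b' < 2 ^ (K - k), ∀ u, ‖q k b' u‖ ≤ y * b k b' u) :
    |∑ k ∈ Icc k1 K, tp K k (p k) (ro Q (k - j0) (up (acc K q (k + 1))))| ≤
      x * y * (near_F K k1 a b + (Q : ℝ) ^ 2 * near_FH K k1 j0 a b) := by
  unfold near_F near_FH
  rw [Finset.mul_sum, ← Finset.sum_add_distrib, Finset.mul_sum]
  refine (Finset.abs_sum_le_sum_abs _ _).trans (Finset.sum_le_sum fun k hk => ?_)
  rw [Finset.mem_Icc] at hk
  have h := near_abs K k (k - j0) Q hk.2 (p k) (up (acc K q (k + 1)))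
    (fun b' u => x * a k b' u) (fun b' u => y * up (acc K b (k + 1)) b' u)
    (hp k hk.1 hk.2) (fun b' hb u => near_acc_norm K k1 b q y hq k hk.1 hk.2 b' hb u)
  refine h.trans (le_of_eq ?_)
  rw [near_scale K x y (fun c u => a k (c / 2 ^ k) u)
    (fun c u => up (acc K b (k + 1)) (c / 2 ^ k) (u + th M c))]
  have e : ex K (fun c u => x * a k (c / 2 ^ k) u *
      sp (k - j0) (fun u => y * up (acc K b (k + 1)) (c / 2 ^ k) u) (u + th M c)) =
      x * y * ex K (fun c u => a k (c / 2 ^ k) u *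
        sp (k - j0) (up (acc K b (k + 1)) (c / 2 ^ k)) (u + th M c)) := by
    rw [← near_scale]
    congr 1
    funext c u
    rw [near_sp_smul]
  rw [e]
  ring

private theorem near_vecS (K k1 Q j0 : ℕ) (a b : ℕ → ℕ → A M → ℝ) (p q : ℕ → ℕ → A M → E)
    (x y : ℝ) 
    (hp : ∀ k, k1 ≤ k → k ≤ K → ∀ b < 2 ^ (K - k), ∀ u, ‖p k b u‖ ≤ x * a k b u)
    (hq : ∀ k, k1 ≤ k → k ≤ K → ∀ b' < 2 ^ (K - k), ∀ u, ‖q k b' u‖ ≤ y * b k b' u) :
    |FS K k1 Q j0 (acc K p) q| ≤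
      x * y * (near_G K k1 a b + (Q : ℝ) ^ 2 * near_GH K k1 j0 a b) := by
  unfold near_G near_GH FS
  rw [Finset.mul_sum, ← Finset.sum_add_distrib, Finset.mul_sum]
  refine (Finset.abs_sum_le_sum_abs _ _).trans (Finset.sum_le_sum fun k hk => ?_)
  rw [Finset.mem_Icc] at hk
  have h := near_abs K k (k - j0) Q hk.2 (up (acc K p (k + 1))) (q k)
    (fun b' u => x * up (acc K a (k + 1)) b' u) (fun b' u => y * b k b' u)
    (fun b' hb u => near_acc_norm K k1 a p x hp k hk.1 hk.2 b' hb u) (hq k hk.1 hk.2)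
  refine h.trans (le_of_eq ?_)
  rw [near_scale K x y (fun c u => up (acc K a (k + 1)) (c / 2 ^ k) u)
    (fun c u => b k (c / 2 ^ k) (u + th M c))]
  have e : ex K (fun c u => x * up (acc K a (k + 1)) (c / 2 ^ k) u *
      sp (k - j0) (fun u => y * b k (c / 2 ^ k) u) (u + th M c)) =
      x * y * ex K (fun c u => up (acc K a (k + 1)) (c / 2 ^ k) u *
        sp (k - j0) (b k (c / 2 ^ k)) (u + th M c)) := by
    rw [← near_scale]
    congr 1
    funext c u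
    rw [near_sp_smul]
  rw [e]
  ring

/-- the common part of `near_FT` and `near_FS` -/
private theorem near_core {K k1 Q j0 : ℕ} {mT mS : ℕ → ℕ → A M → ℝ} {p q : ℕ → ℕ → A M → E}
    {Bp Bq R κ : ℝ} (h : FluxHyp M K k1 Q j0 E mT mS p q Bp Bq R)
    {wT wS : ℕ → ℕ → A M → ℕ} (hw : Windows M K k1 κ mT mS wT wS) (hκ : 0 < κ)
    (m m' : ℕ) (h1 : m' ≤ m + 1) (h2 : m ≤ m' + 1) :
    0 ≤ near_F K k1 (rs wT {m} mT) (rs wS {m'} mS) ∧
    0 ≤ near_G K k1 (rs wT {m} mT) (rs wS {m'} mS) ∧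
    near_FH K k1 j0 (rs wT {m} mT) (rs wS {m'} mS) ≤
      200 * Lam ^ 3 * 4 ^ j0 * κ * totr K k1 (rs wT {m} mT) ∧
    near_GH K k1 j0 (rs wT {m} mT) (rs wS {m'} mS) ≤
      200 * Lam ^ 3 * 4 ^ j0 * κ * totr K k1 (rs wS {m'} mS) ∧
    near_F K k1 (rs wT {m} mT) (rs wS {m'} mS) + near_G K k1 (rs wT {m} mT) (rs wS {m'} mS) ≤
      4000000 * gn Q j0 * R * (Real.sqrt (totr K k1 (rs wT {m} mT)) *
        Real.sqrt (totr K k1 (rs wS {m'} mS))) +
      (Q : ℝ) ^ 2 * (200 * Lam ^ 3 * 4 ^ j0 * κ) *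
        (totr K k1 (rs wT {m} mT) + totr K k1 (rs wS {m'} mS)) := by
  have hj0 : j0 ≤ k1 := near_j0 h.Qpos h.big
  set a := rs wT {m} mT with ha
  set b := rs wS {m'} mS with hb
  have a0 : ∀ k b' u, 0 ≤ a k b' u := fun k b' u => near_rs0 wT {m} mT h.mT0 k b' u
  have b0 : ∀ k b' u, 0 ≤ b k b' u := fun k b' u => near_rs0 wS {m'} mS h.mS0 k b' u
  have ua0 : ∀ k b' u, 0 ≤ up (acc K a (k + 1)) b' u := fun k b' u =>
    near_acc0 K a a0 (k + 1) (b' / 2) u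
  have ub0 : ∀ k b' u, 0 ≤ up (acc K b (k + 1)) b' u := fun k b' u =>
    near_acc0 K b b0 (k + 1) (b' / 2) u
  have hF0 : 0 ≤ near_F K k1 a b := by
    unfold near_F
    exact Finset.sum_nonneg fun k _ => ex_nonneg K _ fun c u => mul_nonneg (a0 _ _ _) (ub0 _ _ _)
  have hG0 : 0 ≤ near_G K k1 a b := by
    unfold near_G
    exact Finset.sum_nonneg fun k _ => ex_nonneg K _ fun c u => mul_nonneg (ua0 _ _ _) (b0 _ _ _)
  have hFH : near_FH K k1 j0 a b ≤ 200 * Lam ^ 3 * 4 ^ j0 * κ * totr K k1 a := by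
    unfold near_FH totr
    rw [Finset.mul_sum]
    refine Finset.sum_le_sum fun k hk => ?_
    rw [Finset.mem_Icc] at hk
    refine near_HT K k (k - j0) hk.2 (a k) (up (acc K b (k + 1))) _ (a0 k) ?_
    intro b' u hne
    have hm : wT k b' u = m := near_rs_mem wT m mT k b' u hne
    exact hw.nearT k hk.2 j0 h.j0pos (hj0.trans hk.1) b' u m' (by omega) (by omega)
  have hGH : near_GH K k1 j0 a b ≤ 200 * Lam ^ 3 * 4 ^ j0 * κ * totr K k1 b := by
    unfold near_GH totr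
    rw [Finset.mul_sum]
    refine Finset.sum_le_sum fun k hk => ?_
    rw [Finset.mem_Icc] at hk
    refine near_HS K k (k - j0) hk.2 (b k) (up (acc K a (k + 1))) _ (b0 k) ?_
    intro b' u hne
    have hm : wS k b' u = m' := near_rs_mem wS m' mS k b' u hne
    exact hw.nearS k hk.2 j0 h.j0pos (hj0.trans hk.1) b' u m (by omega) (by omega)
  refine ⟨hF0, hG0, hFH, hGH, ?_⟩
  -- the total identity for the scalar processes
  have hna : ∀ k, k1 ≤ k → k ≤ K → ∀ b' < 2 ^ (K - k), ∀ u, ‖a k b' u‖ ≤ 1 * a k b' u :=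
    fun k _ _ b' _ u => by rw [Real.norm_of_nonneg (a0 k b' u), one_mul]
  have hnb : ∀ k, k1 ≤ k → k ≤ K → ∀ b' < 2 ^ (K - k), ∀ u, ‖b k b' u‖ ≤ 1 * b k b' u :=
    fun k _ _ b' _ u => by rw [Real.norm_of_nonneg (b0 k b' u), one_mul]
  have ta : tot K k1 a ≤ totr K k1 a := by
    have := near_tot K k1 a a 1 hna
    rwa [one_mul] at this
  have tb : tot K k1 b ≤ totr K k1 b := by
    have := near_tot K k1 b b 1 hnb
    rwa [one_mul] at this
  have hR0 : 0 ≤ R := zero_le_one.trans h.Rpos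
  have hg := near_gn0 Q j0
  have hti := ti_main K k1 Q j0 h.k1K h.Qpos h.big a b R R
    (fun k hk hkK b' hb' u => by
      rw [Real.norm_of_nonneg (near_acc0 K a a0 k b' u)]
      exact (near_acc_le K a mT (near_rs_le wT {m} mT h.mT0) k b' u).trans
        (h.accT k hk hkK b' hb' u))
    (fun k hk hkK b' hb' u => by
      rw [Real.norm_of_nonneg (near_acc0 K b b0 k b' u)]
      exact (near_acc_le K b mS (near_rs_le wS {m'} mS h.mS0) k b' u).trans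
        (h.accS k hk hkK b' hb' u))
  have hsi := ti_sim K k1 Q j0 h.Qpos h.big a b 1 1
    (fun k _ _ b' _ u => by
      rw [Real.norm_of_nonneg (a0 k b' u)]
      exact (near_rs_le wT {m} mT h.mT0 k b' u).trans (h.mT1 k b' u))
    (fun k _ _ b' _ u => by
      rw [Real.norm_of_nonneg (b0 k b' u)]
      exact (near_rs_le wS {m'} mS h.mS0 k b' u).trans (h.mS1 k b' u))
  have hs := near_split K k1 Q j0 a b
  set X := totr K k1 a with hX
  set Y := totr K k1 b with hY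
  have hti2 : |FT K k1 Q j0 a (acc K b) + FS K k1 Q j0 (acc K a) b| ≤
      2000000 * gn Q j0 * R * (Real.sqrt X * Real.sqrt Y) := by
    refine hti.trans ?_
    have e1 : Real.sqrt (R * tot K k1 a) ≤ Real.sqrt R * Real.sqrt X := by
      rw [← Real.sqrt_mul hR0]
      exact Real.sqrt_le_sqrt (mul_le_mul_of_nonneg_left ta hR0)
    have e2 : Real.sqrt (R * tot K k1 b) ≤ Real.sqrt R * Real.sqrt Y := by
      rw [← Real.sqrt_mul hR0]
      exact Real.sqrt_le_sqrt (mul_le_mul_of_nonneg_left tb hR0)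
    have e3 : Real.sqrt (R * tot K k1 a) * Real.sqrt (R * tot K k1 b) ≤
        R * (Real.sqrt X * Real.sqrt Y) := by
      calc Real.sqrt (R * tot K k1 a) * Real.sqrt (R * tot K k1 b)
          ≤ (Real.sqrt R * Real.sqrt X) * (Real.sqrt R * Real.sqrt Y) :=
            mul_le_mul e1 e2 (Real.sqrt_nonneg _) (by positivity)
        _ = (Real.sqrt R * Real.sqrt R) * (Real.sqrt X * Real.sqrt Y) := by ring
        _ = R * (Real.sqrt X * Real.sqrt Y) := by rw [Real.mul_self_sqrt hR0]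
    calc 2000000 * gn Q j0 * (Real.sqrt (R * tot K k1 a) * Real.sqrt (R * tot K k1 b))
        ≤ 2000000 * gn Q j0 * (R * (Real.sqrt X * Real.sqrt Y)) :=
          mul_le_mul_of_nonneg_left e3 (by positivity)
      _ = _ := by ring
  have hsi2 : |FT K k1 Q j0 a b| ≤ 2000000 * gn Q j0 * R * (Real.sqrt X * Real.sqrt Y) := by
    refine hsi.trans ?_
    rw [one_mul, one_mul]
    have e1 : Real.sqrt (tot K k1 a) * Real.sqrt (tot K k1 b) ≤
        R * (Real.sqrt X * Real.sqrt Y) := by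
      calc Real.sqrt (tot K k1 a) * Real.sqrt (tot K k1 b)
          ≤ Real.sqrt X * Real.sqrt Y :=
            mul_le_mul (Real.sqrt_le_sqrt ta) (Real.sqrt_le_sqrt tb) (Real.sqrt_nonneg _)
              (Real.sqrt_nonneg _)
        _ = 1 * (Real.sqrt X * Real.sqrt Y) := by ring
        _ ≤ R * (Real.sqrt X * Real.sqrt Y) := by
            refine mul_le_mul_of_nonneg_right h.Rpos (by positivity)
    calc 2000000 * gn Q j0 * (Real.sqrt (tot K k1 a) * Real.sqrt (tot K k1 b))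
        ≤ 2000000 * gn Q j0 * (R * (Real.sqrt X * Real.sqrt Y)) :=
          mul_le_mul_of_nonneg_left e1 (by positivity)
      _ = _ := by ring
  have hFle : near_F K k1 a b ≤
      (∑ k ∈ Icc k1 K, tp K k (a k) (ro Q (k - j0) (up (acc K b (k + 1))))) +
        (Q : ℝ) ^ 2 * near_FH K k1 j0 a b := by
    unfold near_F near_FH
    rw [Finset.mul_sum, ← Finset.sum_add_distrib]
    refine Finset.sum_le_sum fun k hk => ?_
    rw [Finset.mem_Icc] at hk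
    exact near_real K k (k - j0) Q hk.2 (a k) (up (acc K b (k + 1))) (a0 k) (ub0 k)
  have hGle : near_G K k1 a b ≤ FS K k1 Q j0 (acc K a) b +
        (Q : ℝ) ^ 2 * near_GH K k1 j0 a b := by
    unfold near_G near_GH FS
    rw [Finset.mul_sum, ← Finset.sum_add_distrib]
    refine Finset.sum_le_sum fun k hk => ?_
    rw [Finset.mem_Icc] at hk
    exact near_real K k (k - j0) Q hk.2 (up (acc K a (k + 1))) (b k) (ua0 k) (b0 k)
  have hQ2 : (0 : ℝ) ≤ (Q : ℝ) ^ 2 := by positivity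
  have f1 := mul_le_mul_of_nonneg_left hFH hQ2
  have f2 := mul_le_mul_of_nonneg_left hGH hQ2
  have g1 := (abs_le.1 hti2).2
  have g2 := (abs_le.1 hsi2).1
  nlinarith [f1, f2, g1, g2, hFle, hGle, hs]

theorem near_FT {K k1 Q j0 : ℕ} {mT mS : ℕ → ℕ → A M → ℝ} {p q : ℕ → ℕ → A M → E}
    {Bp Bq R κ : ℝ} (h : FluxHyp M K k1 Q j0 E mT mS p q Bp Bq R)
    {wT wS : ℕ → ℕ → A M → ℕ} (hw : Windows M K k1 κ mT mS wT wS) (hκ : 0 < κ)
    (m m' : ℕ) (h1 : m' ≤ m + 1) (h2 : m ≤ m' + 1) :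
    |FT K k1 Q j0 (rs wT {m} p) (acc K (rs wS {m'} q))| ≤
      Bp * Bq * NB Q j0 R κ (totr K k1 (rs wT {m} mT)) (totr K k1 (rs wS {m'} mS)) := by
  obtain ⟨hF0, hG0, hFH, hGH, hsum⟩ := near_core h hw hκ m m' h1 h2
  have hp : ∀ k, k1 ≤ k → k ≤ K → ∀ b < 2 ^ (K - k), ∀ u,
      ‖rs wT {m} p k b u‖ ≤ Bp * rs wT {m} mT k b u := fun k hk hkK b hb u =>
    near_rs_norm wT {m} mT p Bp k b u (h.hp k hk hkK b hb u)
  have hq : ∀ k, k1 ≤ k → k ≤ K → ∀ b < 2 ^ (K - k), ∀ u,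
      ‖rs wS {m'} q k b u‖ ≤ Bq * rs wS {m'} mS k b u := fun k hk hkK b hb u =>
    near_rs_norm wS {m'} mS q Bq k b u (h.hq k hk hkK b hb u)
  have a0 : ∀ k b' u, 0 ≤ rs wT {m} mT k b' u := fun k b' u => near_rs0 wT {m} mT h.mT0 k b' u
  have b0 : ∀ k b' u, 0 ≤ rs wS {m'} mS k b' u := fun k b' u => near_rs0 wS {m'} mS h.mS0 k b' u
  have hX0 : 0 ≤ totr K k1 (rs wT {m} mT) :=
    Finset.sum_nonneg fun k _ => ex_nonneg K _ fun c u => a0 _ _ _
  have hY0 : 0 ≤ totr K k1 (rs wS {m'} mS) :=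
    Finset.sum_nonneg fun k _ => ex_nonneg K _ fun c u => b0 _ _ _
  have hB := mul_nonneg h.Bp0 h.Bq0
  have hv := near_vecT K k1 Q j0 (rs wT {m} mT) (rs wS {m'} mS) (rs wT {m} p) (rs wS {m'} q)
    Bp Bq hp hq
  have hsi := ti_sim K k1 Q j0 h.Qpos h.big (rs wT {m} p) (rs wS {m'} q) Bp Bq
    (fun k hk hkK b hb u => (hp k hk hkK b hb u).trans (by
      have : rs wT {m} mT k b u ≤ 1 := (near_rs_le wT {m} mT h.mT0 k b u).trans (h.mT1 k b u)
      nlinarith [h.Bp0]))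
    (fun k hk hkK b hb u => (hq k hk hkK b hb u).trans (by
      have : rs wS {m'} mS k b u ≤ 1 := (near_rs_le wS {m'} mS h.mS0 k b u).trans (h.mS1 k b u)
      nlinarith [h.Bq0]))
  have tp := near_tot K k1 (rs wT {m} mT) (rs wT {m} p) Bp hp
  have tq := near_tot K k1 (rs wS {m'} mS) (rs wS {m'} q) Bq hq
  have hs := near_split K k1 Q j0 (rs wT {m} p) (rs wS {m'} q)
  have hg := near_gn0 Q j0
  set X := totr K k1 (rs wT {m} mT) with hX
  set Y := totr K k1 (rs wS {m'} mS) with hY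
  have e1 : Real.sqrt (Bp * tot K k1 (rs wT {m} p)) ≤ Bp * Real.sqrt X := by
    rw [Real.sqrt_le_left (by have := h.Bp0; positivity), mul_pow, Real.sq_sqrt hX0]
    nlinarith [h.Bp0, mul_le_mul_of_nonneg_left tp h.Bp0]
  have e2 : Real.sqrt (Bq * tot K k1 (rs wS {m'} q)) ≤ Bq * Real.sqrt Y := by
    rw [Real.sqrt_le_left (by have := h.Bq0; positivity), mul_pow, Real.sq_sqrt hY0]
    nlinarith [h.Bq0, mul_le_mul_of_nonneg_left tq h.Bq0]
  have hs2 : |FT K k1 Q j0 (rs wT {m} p) (rs wS {m'} q)| ≤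
      Bp * Bq * (2000000 * gn Q j0 * R * (Real.sqrt X * Real.sqrt Y)) := by
    refine hsi.trans ?_
    calc 2000000 * gn Q j0 * (Real.sqrt (Bp * tot K k1 (rs wT {m} p)) *
          Real.sqrt (Bq * tot K k1 (rs wS {m'} q)))
        ≤ 2000000 * gn Q j0 * ((Bp * Real.sqrt X) * (Bq * Real.sqrt Y)) := by
          refine mul_le_mul_of_nonneg_left ?_ (by positivity)
          exact mul_le_mul e1 e2 (Real.sqrt_nonneg _) (by have := h.Bp0; positivity)
      _ = Bp * Bq * (2000000 * gn Q j0 * 1 * (Real.sqrt X * Real.sqrt Y)) := by ring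
      _ ≤ Bp * Bq * (2000000 * gn Q j0 * R * (Real.sqrt X * Real.sqrt Y)) := by
          refine mul_le_mul_of_nonneg_left ?_ hB
          refine mul_le_mul_of_nonneg_right ?_ (by positivity)
          exact mul_le_mul_of_nonneg_left h.Rpos (by positivity)
  rw [hs]
  refine (abs_add_le _ _).trans ((add_le_add hs2 hv).trans ?_)
  rw [← mul_add]
  refine mul_le_mul_of_nonneg_left ?_ hB
  unfold NB
  have hQ2 : (0 : ℝ) ≤ (Q : ℝ) ^ 2 := by positivity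
  have f1 := mul_le_mul_of_nonneg_left hFH hQ2
  have hR0 : 0 ≤ R := zero_le_one.trans h.Rpos
  have hz : 0 ≤ gn Q j0 * R * (Real.sqrt X * Real.sqrt Y) := by positivity
  have hl : (0 : ℝ) ≤ 200 * Lam ^ 3 * 4 ^ j0 * κ := by
    have : (0 : ℝ) ≤ Lam := by unfold Lam; norm_num
    positivity
  have hzX := mul_nonneg (mul_nonneg hQ2 hl) hX0
  have hzY := mul_nonneg (mul_nonneg hQ2 hl) hY0
  nlinarith [f1, hz, hzX, hzY, hsum, hG0]

theorem near_FS {K k1 Q j0 : ℕ} {mT mS : ℕ → ℕ → A M → ℝ} {p q : ℕ → ℕ → A M → E}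
    {Bp Bq R κ : ℝ} (h : FluxHyp M K k1 Q j0 E mT mS p q Bp Bq R)
    {wT wS : ℕ → ℕ → A M → ℕ} (hw : Windows M K k1 κ mT mS wT wS) (hκ : 0 < κ)
    (m m' : ℕ) (h1 : m' ≤ m + 1) (h2 : m ≤ m' + 1) :
    |FS K k1 Q j0 (acc K (rs wT {m} p)) (rs wS {m'} q)| ≤
      Bp * Bq * NB Q j0 R κ (totr K k1 (rs wT {m} mT)) (totr K k1 (rs wS {m'} mS)) := by
  obtain ⟨hF0, hG0, hFH, hGH, hsum⟩ := near_core h hw hκ m m' h1 h2
  have hp : ∀ k, k1 ≤ k → k ≤ K → ∀ b < 2 ^ (K - k), ∀ u,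
      ‖rs wT {m} p k b u‖ ≤ Bp * rs wT {m} mT k b u := fun k hk hkK b hb u =>
    near_rs_norm wT {m} mT p Bp k b u (h.hp k hk hkK b hb u)
  have hq : ∀ k, k1 ≤ k → k ≤ K → ∀ b < 2 ^ (K - k), ∀ u,
      ‖rs wS {m'} q k b u‖ ≤ Bq * rs wS {m'} mS k b u := fun k hk hkK b hb u =>
    near_rs_norm wS {m'} mS q Bq k b u (h.hq k hk hkK b hb u)
  have a0 : ∀ k b' u, 0 ≤ rs wT {m} mT k b' u := fun k b' u => near_rs0 wT {m} mT h.mT0 k b' u
  have b0 : ∀ k b' u, 0 ≤ rs wS {m'} mS k b' u := fun k b' u => near_rs0 wS {m'} mS h.mS0 k b' u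
  have hX0 : 0 ≤ totr K k1 (rs wT {m} mT) :=
    Finset.sum_nonneg fun k _ => ex_nonneg K _ fun c u => a0 _ _ _
  have hY0 : 0 ≤ totr K k1 (rs wS {m'} mS) :=
    Finset.sum_nonneg fun k _ => ex_nonneg K _ fun c u => b0 _ _ _
  have hB := mul_nonneg h.Bp0 h.Bq0
  have hv := near_vecS K k1 Q j0 (rs wT {m} mT) (rs wS {m'} mS) (rs wT {m} p) (rs wS {m'} q)
    Bp Bq hp hq
  have hg := near_gn0 Q j0
  set X := totr K k1 (rs wT {m} mT) with hX
  set Y := totr K k1 (rs wS {m'} mS) with hY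
  refine hv.trans (mul_le_mul_of_nonneg_left ?_ hB)
  unfold NB
  have hQ2 : (0 : ℝ) ≤ (Q : ℝ) ^ 2 := by positivity
  have f1 := mul_le_mul_of_nonneg_left hGH hQ2
  have hR0 : 0 ≤ R := zero_le_one.trans h.Rpos
  have hz : 0 ≤ gn Q j0 * R * (Real.sqrt X * Real.sqrt Y) := by positivity
  have hl : (0 : ℝ) ≤ 200 * Lam ^ 3 * 4 ^ j0 * κ := by
    have : (0 : ℝ) ≤ Lam := by unfold Lam; norm_num
    positivity
  have hzX := mul_nonneg (mul_nonneg hQ2 hl) hX0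
  have hzY := mul_nonneg (mul_nonneg hQ2 hl) hY0
  nlinarith [f1, hz, hzX, hzY, hsum, hF0]

end

end NP2
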