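import Pool.Agent.NP2.Rid

/-!
# NP2 / Rcmp : the telescoping identity with two nearly equal column families

`b_x = ρ_x a_x` with `|ρ_x - 1| ≤ 2τ`, `τ ≤ 1/10`.  Put `ξ = rid a μ f`, `η = rid b μ' g`,
`r = res a μ f`, `s = res b μ' g`.  Then `ip (comb b η) r = μ ∑ ρ ξ η` and
`ip (comb a ξ) s = μ' ∑ ρ^-1 ξ η`, hence `ip g r = μ ∑ ρ ξ η + ip s r`,
`ip f s = μ' ∑ ρ^-1 ξ η + ip s r`.

* `cmp_same` : `μ' = μ`: the difference is `μ ∑ (ρ^-1 - ρ) ξ η`, at most `5 τ` since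
  `μ |ξ|^2 ≤ 1`, `μ |η|^2 ≤ 1`.
* `cmp_double` : `μ' = 2 μ`: `ip f s - ip g r = μ ∑ ξ η + μ ∑ (2(ρ^-1-1) - (ρ-1)) ξ η`.
* `cmp_tele` : sum of `cmp_double` over `μ = 2^j lam`, replace `ip g r^(μ_j)` by `ip f s^(μ_j)`
  (`cmp_same`), telescope: `∑ = ip f s^(μ_m) - ip f s^lam`, and
  `ip f s^(μ_m) = ip f g - ip f (comb b η)`, `|comb b η|^2 ≤ (∑ |b_x|^2) |η|^2`.
-/

namespace NP2
open Finset

noncomputable section

variable {ι : Type*} [Fintype ι]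

private theorem cmp_sub_left (J : Finset ℕ) (f f' g : ℕ → ℝ) :
    ip J (fun t => f t - f' t) g = ip J f g - ip J f' g := by
  have h := ip_add_left J (fun t => f t - f' t) f' g
  have e : (fun t => (fun t => f t - f' t) t + f' t) = f := by
    funext t; simp
  rw [e] at h
  linarith

private theorem cmp_mul_left (J : Finset ℕ) (a b : ι → ℕ → ℝ) (ρ : ι → ℝ)
    (hb : ∀ x t, b x t = ρ x * a x t) (x : ι) (g : ℕ → ℝ) :
    ip J (b x) g = ρ x * ip J (a x) g := by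
  have e : b x = fun t => ρ x * a x t := by
    funext t; exact hb x t
  rw [e, ip_smul_left]

/-- the basic identity -/
private theorem cmp_basic (J : Finset ℕ) (a b : ι → ℕ → ℝ) (ρ : ι → ℝ) (hρ : ∀ x, ρ x ≠ 0)
    (hb : ∀ x t, b x t = ρ x * a x t) (f g : ℕ → ℝ) (μ μ' : ℝ) (hμ : 0 < μ) (hμ' : 0 < μ') :
    ip J f (res J b μ' g) - ip J g (res J a μ f)
      = ∑ x, (μ' * (ρ x)⁻¹ - μ * ρ x) * (rid J a μ f x * rid J b μ' g x) := by
  set r := res J a μ f with hr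
  set s := res J b μ' g with hs
  have h1 : ip J f s = ip J r s + ∑ x, rid J a μ f x * ip J (a x) s := by
    have h := cmp_sub_left J f (comb a (rid J a μ f)) s
    have e : (fun t => f t - comb a (rid J a μ f) t) = r := rfl
    rw [e, ip_comb_left] at h
    linarith
  have h2 : ip J g r = ip J s r + ∑ x, rid J b μ' g x * ip J (b x) r := by
    have h := cmp_sub_left J g (comb b (rid J b μ' g)) r
    have e : (fun t => g t - comb b (rid J b μ' g) t) = s := rfl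
    rw [e, ip_comb_left] at h
    linarith
  rw [h1, h2, ip_comm J r s]
  have h3 : ∀ x, ip J (a x) s = μ' * (ρ x)⁻¹ * rid J b μ' g x := by
    intro x
    have h := rid_normal J b μ' hμ' g x
    rw [cmp_mul_left J a b ρ hb] at h
    have h' : ip J (a x) s = (ρ x)⁻¹ * (ρ x * ip J (a x) s) := by
      rw [← mul_assoc, inv_mul_cancel₀ (hρ x), one_mul]
    rw [h', hs, ← h]
    ring
  have h4 : ∀ x, ip J (b x) r = ρ x * (μ * rid J a μ f x) := by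
    intro x
    rw [cmp_mul_left J a b ρ hb, rid_normal J a μ hμ f x]
  have h5 : ∑ x, rid J a μ f x * ip J (a x) s - ∑ x, rid J b μ' g x * ip J (b x) r
      = ∑ x, (μ' * (ρ x)⁻¹ - μ * ρ x) * (rid J a μ f x * rid J b μ' g x) := by
    rw [← sum_sub_distrib]
    refine sum_congr rfl fun x _ => ?_
    rw [h3 x, h4 x]
    ring
  rw [← h5]
  ring

/-- weighted Cauchy-Schwarz (arithmetic-geometric) -/
private theorem cmp_amgm (c ξ η : ι → ℝ) (C t : ℝ) (hC : 0 ≤ C) (ht : 0 < t)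
    (hc : ∀ x, |c x| ≤ C) :
    |∑ x, c x * (ξ x * η x)| ≤ C / 2 * (t * ∑ x, ξ x ^ 2 + t⁻¹ * ∑ x, η x ^ 2) := by
  have h1 : ∀ x, |c x * (ξ x * η x)| ≤ C / 2 * (t * ξ x ^ 2 + t⁻¹ * η x ^ 2) := by
    intro x
    rw [abs_mul, abs_mul]
    have h2 : |ξ x| * |η x| ≤ 1 / 2 * (t * ξ x ^ 2 + t⁻¹ * η x ^ 2) := by
      have h3 : 0 ≤ t⁻¹ * (t * |ξ x| - |η x|) ^ 2 :=
        mul_nonneg (inv_nonneg.2 ht.le) (sq_nonneg _)
      have h4 : t⁻¹ * (t * |ξ x| - |η x|) ^ 2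
          = t * ξ x ^ 2 - 2 * (|ξ x| * |η x|) + t⁻¹ * η x ^ 2 := by
        rw [← sq_abs (ξ x), ← sq_abs (η x)]
        field_simp
        ring
      rw [h4] at h3
      linarith
    calc |c x| * (|ξ x| * |η x|) ≤ C * (1 / 2 * (t * ξ x ^ 2 + t⁻¹ * η x ^ 2)) :=
          mul_le_mul (hc x) h2 (mul_nonneg (abs_nonneg _) (abs_nonneg _)) hC
      _ = _ := by ring
  calc |∑ x, c x * (ξ x * η x)| ≤ ∑ x, |c x * (ξ x * η x)| := abs_sum_le_sum_abs _ _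
    _ ≤ ∑ x, C / 2 * (t * ξ x ^ 2 + t⁻¹ * η x ^ 2) := sum_le_sum fun x _ => h1 x
    _ = _ := by rw [← mul_sum, sum_add_distrib, ← mul_sum, ← mul_sum]

private theorem cmp_rho (ρ τ : ℝ) (h1 : τ ≤ 1 / 10) (hρ : |ρ - 1| ≤ 2 * τ) :
    0 < ρ ∧ 4 / 5 ≤ ρ ∧ ρ⁻¹ ≤ 5 / 4 := by
  have h := abs_le.1 hρ
  have h2 : 4 / 5 ≤ ρ := by linarith [h.1]
  have h3 : 0 < ρ := by linarith
  refine ⟨h3, h2, ?_⟩
  rw [inv_le_comm₀ h3 (by norm_num)]
  linarith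

theorem cmp_same (J : Finset ℕ) (a b : ι → ℕ → ℝ) (ρ : ι → ℝ) (τ : ℝ) (h0 : 0 ≤ τ)
    (h1 : τ ≤ 1 / 10) (hρ : ∀ x, |ρ x - 1| ≤ 2 * τ) (hb : ∀ x t, b x t = ρ x * a x t)
    (f g : ℕ → ℝ) (hf : ip J f f ≤ 1) (hg : ip J g g ≤ 1) (μ : ℝ) (hμ : 0 < μ) :
    |ip J f (res J b μ g) - ip J g (res J a μ f)| ≤ 5 * τ := by
  have hb0 := cmp_basic J a b ρ (fun x => (cmp_rho (ρ x) τ h1 (hρ x)).1.ne') hb f g μ μ hμ hμ
  rw [hb0]
  have hc : ∀ x, |μ * (ρ x)⁻¹ - μ * ρ x| ≤ 5 * τ * μ := by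
    intro x
    obtain ⟨h2, h3, h4⟩ := cmp_rho (ρ x) τ h1 (hρ x)
    have e : μ * (ρ x)⁻¹ - μ * ρ x = (μ * ((ρ x)⁻¹ + 1)) * (1 - ρ x) := by
      field_simp
      ring
    rw [e, abs_mul, abs_of_nonneg (by positivity), abs_sub_comm]
    have h5 : μ * ((ρ x)⁻¹ + 1) ≤ μ * (5 / 2) := by
      refine mul_le_mul_of_nonneg_left (by linarith) hμ.le
    calc μ * ((ρ x)⁻¹ + 1) * |ρ x - 1| ≤ μ * (5 / 2) * (2 * τ) :=
          mul_le_mul h5 (hρ x) (abs_nonneg _) (by positivity)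
      _ = 5 * τ * μ := by ring
  have h2 := cmp_amgm (fun x => μ * (ρ x)⁻¹ - μ * ρ x) (rid J a μ f) (rid J b μ g) (5 * τ * μ) 1
    (by positivity) one_pos hc
  have h3 := (rid_sq_le J a μ hμ f).trans hf
  have h4 := (rid_sq_le J b μ hμ g).trans hg
  refine h2.trans ?_
  have e : 5 * τ * μ / 2 * (1 * ∑ x, rid J a μ f x ^ 2 + 1⁻¹ * ∑ x, rid J b μ g x ^ 2)
      = 5 * τ / 2 * (μ * ∑ x, rid J a μ f x ^ 2 + μ * ∑ x, rid J b μ g x ^ 2) := by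
    rw [inv_one]; ring
  rw [e]
  have h5 : 0 ≤ 5 * τ / 2 := by positivity
  have h6 := mul_le_mul_of_nonneg_left (add_le_add h3 h4) h5
  linarith

theorem cmp_double (J : Finset ℕ) (a b : ι → ℕ → ℝ) (ρ : ι → ℝ) (τ : ℝ) (h0 : 0 ≤ τ)
    (h1 : τ ≤ 1 / 10) (hρ : ∀ x, |ρ x - 1| ≤ 2 * τ) (hb : ∀ x t, b x t = ρ x * a x t)
    (f g : ℕ → ℝ) (hf : ip J f f ≤ 1) (hg : ip J g g ≤ 1) (μ : ℝ) (hμ : 0 < μ) :
    |ip J f (res J b (2 * μ) g) - ip J g (res J a μ f)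
      - μ * ∑ x, rid J a μ f x * rid J b (2 * μ) g x| ≤ 5 * τ := by
  have hμ2 : 0 < 2 * μ := by positivity
  have hb0 := cmp_basic J a b ρ (fun x => (cmp_rho (ρ x) τ h1 (hρ x)).1.ne') hb f g μ (2 * μ)
    hμ hμ2
  rw [hb0]
  have e0 : ∑ x, (2 * μ * (ρ x)⁻¹ - μ * ρ x) * (rid J a μ f x * rid J b (2 * μ) g x)
      - μ * ∑ x, rid J a μ f x * rid J b (2 * μ) g x
      = ∑ x, (μ * (2 * (ρ x)⁻¹ - ρ x - 1)) * (rid J a μ f x * rid J b (2 * μ) g x) := by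
    rw [mul_sum, ← sum_sub_distrib]
    exact sum_congr rfl fun x _ => by ring
  rw [e0]
  have hc : ∀ x, |μ * (2 * (ρ x)⁻¹ - ρ x - 1)| ≤ 7 * τ * μ := by
    intro x
    obtain ⟨h2, h3, h4⟩ := cmp_rho (ρ x) τ h1 (hρ x)
    have e : μ * (2 * (ρ x)⁻¹ - ρ x - 1) = (μ * (2 * (ρ x)⁻¹ + 1)) * (1 - ρ x) := by
      field_simp
      ring
    rw [e, abs_mul, abs_of_nonneg (by positivity), abs_sub_comm]
    have h5 : μ * (2 * (ρ x)⁻¹ + 1) ≤ μ * (7 / 2) := by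
      refine mul_le_mul_of_nonneg_left (by linarith) hμ.le
    calc μ * (2 * (ρ x)⁻¹ + 1) * |ρ x - 1| ≤ μ * (7 / 2) * (2 * τ) :=
          mul_le_mul h5 (hρ x) (abs_nonneg _) (by positivity)
      _ = 7 * τ * μ := by ring
  have h2 := cmp_amgm (fun x => μ * (2 * (ρ x)⁻¹ - ρ x - 1)) (rid J a μ f) (rid J b (2 * μ) g)
    (7 * τ * μ) (7 / 10) (by positivity) (by norm_num) hc
  have h3 := (rid_sq_le J a μ hμ f).trans hf
  have h4 := (rid_sq_le J b (2 * μ) hμ2 g).trans hg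
  refine h2.trans ?_
  have e : 7 * τ * μ / 2 * (7 / 10 * ∑ x, rid J a μ f x ^ 2
        + (7 / 10)⁻¹ * ∑ x, rid J b (2 * μ) g x ^ 2)
      = 7 * τ / 2 * (7 / 10 * (μ * ∑ x, rid J a μ f x ^ 2)
        + 5 / 7 * (2 * μ * ∑ x, rid J b (2 * μ) g x ^ 2)) := by
    rw [show ((7 : ℝ) / 10)⁻¹ = 10 / 7 by norm_num]; ring
  rw [e]
  have h5 : 0 ≤ 7 * τ / 2 := by positivity
  have h6 : 7 / 10 * (μ * ∑ x, rid J a μ f x ^ 2)
        + 5 / 7 * (2 * μ * ∑ x, rid J b (2 * μ) g x ^ 2) ≤ 7 / 10 + 5 / 7 := by linarith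
  have h7 := mul_le_mul_of_nonneg_left h6 h5
  linarith

private theorem cmp_end (J : Finset ℕ) (b : ι → ℕ → ℝ) (f g : ℕ → ℝ) (hf : ip J f f ≤ 1)
    (hg : ip J g g ≤ 1) (μ : ℝ) (hμ : 0 < μ) :
    |ip J f (res J b μ g) - ip J f g| ≤ Real.sqrt ((∑ x, ip J (b x) (b x)) / μ) := by
  have h1 : ip J f (res J b μ g) - ip J f g = -∑ x, rid J b μ g x * ip J (b x) f := by
    have h := cmp_sub_left J g (comb b (rid J b μ g)) f
    have e : (fun t => g t - comb b (rid J b μ g) t) = res J b μ g := rfl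
    rw [e, ip_comb_left] at h
    rw [ip_comm J f, ip_comm J f g, h]
    ring
  rw [h1, abs_neg]
  apply Real.abs_le_sqrt
  have h2 := sum_mul_sq_le_sq_mul_sq univ (rid J b μ g) (fun x => ip J (b x) f)
  have h3 : ∑ x, (ip J (b x) f) ^ 2 ≤ ∑ x, ip J (b x) (b x) := by
    refine sum_le_sum fun x _ => ?_
    have h4 := ip_cs J (b x) f
    have h5 := ip_self_nonneg J (b x)
    nlinarith
  have h4 := (rid_sq_le J b μ hμ g).trans hg
  have h5 : 0 ≤ ∑ x, ip J (b x) (b x) := sum_nonneg fun x _ => ip_self_nonneg J _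
  have h6 : 0 ≤ ∑ x, rid J b μ g x ^ 2 := sum_nonneg fun x _ => sq_nonneg _
  have h7 : ∑ x, rid J b μ g x ^ 2 ≤ 1 / μ := by
    rw [le_div_iff₀ hμ]; linarith
  calc (∑ x, rid J b μ g x * ip J (b x) f) ^ 2
      ≤ (∑ x, rid J b μ g x ^ 2) * ∑ x, (ip J (b x) f) ^ 2 := h2
    _ ≤ (1 / μ) * ∑ x, ip J (b x) (b x) :=
        mul_le_mul h7 h3 (sum_nonneg fun x _ => sq_nonneg _) (by positivity)
    _ = _ := by ring

theorem cmp_tele (J : Finset ℕ) (a b : ι → ℕ → ℝ) (ρ : ι → ℝ) (τ : ℝ) (h0 : 0 ≤ τ)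
    (h1 : τ ≤ 1 / 10) (hρ : ∀ x, |ρ x - 1| ≤ 2 * τ) (hb : ∀ x t, b x t = ρ x * a x t)
    (f g : ℕ → ℝ) (hf : ip J f f ≤ 1) (hg : ip J g g ≤ 1) (lam : ℝ) (hl : 0 < lam) (m : ℕ) :
    |∑ j ∈ range m, (2 ^ j * lam) *
          ∑ x, rid J a (2 ^ j * lam) f x * rid J b (2 * (2 ^ j * lam)) g x
        - ip J f g + ip J f (res J b lam g)| ≤
      10 * τ * m + Real.sqrt ((∑ x, ip J (b x) (b x)) / (2 ^ m * lam)) := by
  have hm : |∑ j ∈ range m, (2 ^ j * lam) *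
          ∑ x, rid J a (2 ^ j * lam) f x * rid J b (2 * (2 ^ j * lam)) g x
        - (ip J f (res J b (2 ^ m * lam) g) - ip J f (res J b lam g))| ≤ 10 * τ * m := by
    induction m with
    | zero => simp
    | succ m ih =>
      have hμ : 0 < 2 ^ m * lam := by positivity
      have h2 := cmp_same J a b ρ τ h0 h1 hρ hb f g hf hg _ hμ
      have h3 := cmp_double J a b ρ τ h0 h1 hρ hb f g hf hg _ hμ
      rw [sum_range_succ]
      have e : (2 : ℝ) ^ (m + 1) * lam = 2 * (2 ^ m * lam) := by ring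
      rw [e]
      rw [abs_le] at *
      push_cast
      constructor
      · linarith [ih.1, h2.1, h2.2, h3.1, h3.2]
      · linarith [ih.2, h2.1, h2.2, h3.1, h3.2]
  have h2 := cmp_end J b f g hf hg (2 ^ m * lam) (by positivity)
  rw [abs_le] at *
  constructor
  · linarith [hm.1, h2.1, h2.2, hm.2]
  · linarith [hm.1, h2.1, h2.2, hm.2]

end

end NP2
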