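import Pool.Agent.NP2.Sing

/-!
# NP2 / SingE : the single scale inequality for vector valued functions, over all blocks

Reduction to real functions: the finitely many values of `f`, `g` span a finite dimensional
subspace; take an orthonormal basis (`stdOrthonormalBasis`), apply the real case to the
coordinates (`sm`, `qf`, `bf` are compatible: `qf` is the sum of the `qf` of the coordinates) and
Cauchy-Schwarz over the coordinates.  Then sum over the blocks `b = c / 2^k`,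
`c = b 2^k + c'`, with Cauchy-Schwarz.
-/

namespace NP2
open Finset

noncomputable section

variable {M : ℕ} [NeZero M] {E : Type*} [NormedAddCommGroup E] [InnerProductSpace ℝ E]

omit [NeZero M] in
private theorem cs_neg' (z : ℤ) : cs M (-z) = -cs M z := by
  unfold cs; ext <;> simp

private theorem CQ_neg' (Q : ℕ) (z : ℤ) : CQ Q (-z) = CQ Q z := by
  unfold CQ
  refine Finset.sum_congr rfl fun q _ => Finset.sum_congr rfl fun p _ => ?_
  rw [← Real.cos_neg]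
  congr 1
  push_cast
  ring

omit [NeZero M] in
private theorem sm_add0 (Q i : ℕ) (V W : A M → E) (v : A M) :
    sm Q i (fun v => V v + W v) v = sm Q i V v + sm Q i W v := by
  unfold sm
  rw [← smul_add, ← Finset.sum_add_distrib]
  congr 1
  refine Finset.sum_congr rfl fun j _ => ?_
  rw [← Finset.sum_add_distrib]
  refine Finset.sum_congr rfl fun j' _ => ?_
  rw [smul_add]

omit [NeZero M] in
private theorem sm_sub0 (Q i : ℕ) (V W : A M → E) (v : A M) :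
    sm Q i (fun v => V v - W v) v = sm Q i V v - sm Q i W v := by
  unfold sm
  rw [← smul_sub, ← Finset.sum_sub_distrib]
  congr 1
  refine Finset.sum_congr rfl fun j _ => ?_
  rw [← Finset.sum_sub_distrib]
  refine Finset.sum_congr rfl fun j' _ => ?_
  rw [smul_sub]

theorem sm_add (Q i : ℕ) (V W : A M → E) (v : A M) :
    sm Q i (fun v => V v + W v) v = sm Q i V v + sm Q i W v := sm_add0 Q i V W v

theorem sm_sub (Q i : ℕ) (V W : A M → E) (v : A M) :
    sm Q i (fun v => V v - W v) v = sm Q i V v - sm Q i W v := sm_sub0 Q i V W v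

omit [NeZero M] in
private theorem inner_sm (Q i : ℕ) (x : E) (V : A M → E) (v : A M) :
    inner ℝ x (sm Q i V v) = (1 : ℝ) / ((4 : ℝ) ^ i) ^ 2 * ∑ j ∈ range (4 ^ i),
      ∑ j' ∈ range (4 ^ i), CQ Q ((j : ℤ) - j') * inner ℝ x (V (v + cs M ((j : ℤ) - j'))) := by
  unfold sm
  rw [real_inner_smul_right, inner_sum]
  congr 1
  refine Finset.sum_congr rfl fun j _ => ?_
  rw [inner_sum]
  refine Finset.sum_congr rfl fun j' _ => ?_
  rw [real_inner_smul_right]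

omit [NeZero M] in
private theorem inner_sm_eq (Q i : ℕ) (x : E) (V : A M → E) (v : A M) :
    inner ℝ x (sm Q i V v) = sm Q i (fun u => inner ℝ x (V u)) v := by
  rw [inner_sm]
  unfold sm
  simp only [smul_eq_mul]

omit [NeZero M] in
private theorem sm_mem (Q i : ℕ) (W : Submodule ℝ E) (V : A M → E) (hV : ∀ u, V u ∈ W) (v : A M) :
    sm Q i V v ∈ W := by
  unfold sm
  exact W.smul_mem _ (W.sum_mem fun j _ => W.sum_mem fun j' _ => W.smul_mem _ (hV _))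

/-- `sm` is self-adjoint -/
theorem sm_symm (Q i : ℕ) (V W : A M → E) :
    ∑ v : A M, inner ℝ (V v) (sm Q i W v) = ∑ v : A M, inner ℝ (sm Q i V v) (W v) := by
  have h1 : ∀ v : A M, inner ℝ (sm Q i V v) (W v) = (1 : ℝ) / ((4 : ℝ) ^ i) ^ 2 *
      ∑ j ∈ range (4 ^ i), ∑ j' ∈ range (4 ^ i),
        CQ Q ((j : ℤ) - j') * inner ℝ (W v) (V (v + cs M ((j : ℤ) - j'))) := by
    intro v
    rw [real_inner_comm, inner_sm]
  rw [Finset.sum_congr rfl fun v _ => inner_sm Q i (V v) W v,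
    Finset.sum_congr rfl fun v _ => h1 v, ← Finset.mul_sum, ← Finset.mul_sum]
  congr 1
  rw [Finset.sum_comm]
  conv_rhs => rw [Finset.sum_comm]
  rw [Finset.sum_congr rfl fun j _ => Finset.sum_comm]
  conv_rhs => rw [Finset.sum_congr rfl fun j _ => Finset.sum_comm]
  conv_rhs => rw [Finset.sum_comm]
  refine Finset.sum_congr rfl fun j _ => Finset.sum_congr rfl fun j' _ => ?_
  have h2 : ∑ v : A M, CQ Q ((j' : ℤ) - j) * inner ℝ (W v) (V (v + cs M ((j' : ℤ) - j)))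
      = ∑ v : A M, CQ Q ((j : ℤ) - j') * inner ℝ (V v) (W (v + cs M ((j : ℤ) - j'))) := by
    rw [← Equiv.sum_comp (Equiv.addRight (cs M ((j : ℤ) - j')))]
    refine Finset.sum_congr rfl fun v _ => ?_
    have e1 : (j' : ℤ) - j = -((j : ℤ) - j') := by ring
    rw [e1, CQ_neg', cs_neg']
    simp only [Equiv.coe_addRight, add_neg_cancel_right]
    rw [real_inner_comm]
  exact h2.symm

/-! ### coordinates -/

/-- coordinates on a subspace -/
private def Crd {n : ℕ} (φ : Fin n → E) (W : Submodule ℝ E) : Prop :=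
  ∀ x ∈ W, ∀ y ∈ W, inner ℝ x y = ∑ t, inner ℝ (φ t) x * inner ℝ (φ t) y

private theorem exists_Crd (W : Submodule ℝ E) [FiniteDimensional ℝ W] :
    ∃ (n : ℕ) (φ : Fin n → E), Crd φ W := by
  refine ⟨Module.finrank ℝ W, fun t => ((stdOrthonormalBasis ℝ W) t : E), ?_⟩
  intro x hx y hy
  have h := (stdOrthonormalBasis ℝ W).sum_inner_mul_inner ⟨x, hx⟩ ⟨y, hy⟩
  rw [Submodule.coe_inner] at h
  rw [← h]
  refine Finset.sum_congr rfl fun t _ => ?_
  rw [Submodule.coe_inner, Submodule.coe_inner, real_inner_comm]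

private theorem exists_Crd2 (f g : A M → E) :
    ∃ (n : ℕ) (φ : Fin n → E) (W : Submodule ℝ E), Crd φ W ∧ (∀ u, f u ∈ W) ∧ ∀ u, g u ∈ W := by
  have hfin : (Set.range f ∪ Set.range g).Finite := (Set.finite_range f).union (Set.finite_range g)
  haveI : FiniteDimensional ℝ (Submodule.span ℝ (Set.range f ∪ Set.range g)) :=
    FiniteDimensional.span_of_finite ℝ hfin
  obtain ⟨n, φ, h⟩ := exists_Crd (Submodule.span ℝ (Set.range f ∪ Set.range g))
  exact ⟨n, φ, _, h, fun u => Submodule.subset_span (Or.inl ⟨u, rfl⟩),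
    fun u => Submodule.subset_span (Or.inr ⟨u, rfl⟩)⟩

private theorem qf_Crd (Q i : ℕ) {n : ℕ} {φ : Fin n → E} {W : Submodule ℝ E} (h : Crd φ W)
    (V : A M → E) (hV : ∀ u, V u ∈ W) :
    qf Q i V = ∑ t, qf Q i (fun u => inner ℝ (φ t) (V u)) := by
  unfold qf
  rw [Finset.sum_comm]
  refine Finset.sum_congr rfl fun v _ => ?_
  rw [h _ (hV v) _ (sm_mem Q i W V hV v)]
  refine Finset.sum_congr rfl fun t _ => ?_
  rw [inner_sm_eq]
  simp [mul_comm]

private theorem bf_Crd (Q H i : ℕ) {n : ℕ} {φ : Fin n → E} {W : Submodule ℝ E} (h : Crd φ W)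
    (V : A M → E) (hV : ∀ u, V u ∈ W) :
    bf Q H i V = ∑ t, bf Q H i (fun u => inner ℝ (φ t) (V u)) := by
  unfold bf
  rw [Finset.sum_add_distrib, ← Finset.mul_sum, ← qf_Crd Q (H + 1) h V hV, Finset.sum_comm]
  congr 1
  refine Finset.sum_congr rfl fun i' _ => ?_
  rw [← Finset.mul_sum, Finset.sum_sub_distrib, ← qf_Crd Q i' h V hV, ← qf_Crd Q (i' + 1) h V hV]

theorem qf_nonneg (Q i : ℕ) (V : A M → E) : 0 ≤ qf Q i V := by
  obtain ⟨n, φ, W, h, hV, _⟩ := exists_Crd2 V V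
  rw [qf_Crd Q i h V hV]
  exact Finset.sum_nonneg fun t _ => qf_nonneg_real Q i _

theorem qf_mono (Q i : ℕ) (V : A M → E) : qf Q (i + 1) V ≤ qf Q i V := by
  obtain ⟨n, φ, W, h, hV, _⟩ := exists_Crd2 V V
  rw [qf_Crd Q i h V hV, qf_Crd Q (i + 1) h V hV]
  exact Finset.sum_le_sum fun t _ => qf_mono_real Q i _

theorem bf_nonneg (Q H i : ℕ) (V : A M → E) : 0 ≤ bf Q H i V := by
  unfold bf
  refine add_nonneg (Finset.sum_nonneg fun i' _ => ?_) ?_
  · exact mul_nonneg (by positivity) (sub_nonneg.2 (qf_mono Q i' V))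
  · exact mul_nonneg (by positivity) (qf_nonneg Q (H + 1) V)

/-- pointwise bound: `|C_Q| ≤ Q^2` -/
theorem CQ_abs_le (Q : ℕ) (z : ℤ) : |CQ Q z| ≤ (Q : ℝ) ^ 2 := by
  unfold CQ
  refine (Finset.abs_sum_le_sum_abs _ _).trans ?_
  have h1 : ∀ q ∈ Icc 1 Q, |∑ p ∈ (range q).filter (fun p => Nat.Coprime p q),
      Real.cos (2 * Real.pi * p * z / q)| ≤ (Q : ℝ) := by
    intro q hq
    rw [Finset.mem_Icc] at hq
    refine (Finset.abs_sum_le_sum_abs _ _).trans ?_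
    refine (Finset.sum_le_sum fun p _ => Real.abs_cos_le_one _).trans ?_
    rw [Finset.sum_const, nsmul_eq_mul, mul_one]
    have h2 : ((range q).filter (fun p => Nat.Coprime p q)).card ≤ q :=
      (Finset.card_filter_le _ _).trans (Finset.card_range q).le
    exact_mod_cast h2.trans hq.2
  refine (Finset.sum_le_sum h1).trans ?_
  rw [Finset.sum_const, nsmul_eq_mul, Nat.card_Icc, Nat.add_sub_cancel]
  exact le_of_eq (by ring)

/-- `|sm V| ≤ Q^2 B` if `|V| ≤ B` -/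
theorem norm_sm_le (Q i : ℕ) (V : A M → E) (B : ℝ) (hB : ∀ v, ‖V v‖ ≤ B) (v : A M) :
    ‖sm Q i V v‖ ≤ (Q : ℝ) ^ 2 * B := by
  have hB0 : 0 ≤ B := (norm_nonneg _).trans (hB v)
  have h4 : (0 : ℝ) < ((4 : ℝ) ^ i) ^ 2 := by positivity
  unfold sm
  rw [norm_smul]
  have h1 : ‖∑ j ∈ range (4 ^ i), ∑ j' ∈ range (4 ^ i),
      CQ Q ((j : ℤ) - j') • V (v + cs M ((j : ℤ) - j'))‖ ≤
      ((4 : ℝ) ^ i) ^ 2 * ((Q : ℝ) ^ 2 * B) := by
    have h2 : ∀ j ∈ range (4 ^ i), ‖∑ j' ∈ range (4 ^ i),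
        CQ Q ((j : ℤ) - j') • V (v + cs M ((j : ℤ) - j'))‖ ≤ (4 : ℝ) ^ i * ((Q : ℝ) ^ 2 * B) := by
      intro j _
      refine (norm_sum_le _ _).trans ?_
      have h3 : ∀ j' ∈ range (4 ^ i), ‖CQ Q ((j : ℤ) - j') • V (v + cs M ((j : ℤ) - j'))‖ ≤
          (Q : ℝ) ^ 2 * B := by
        intro j' _
        rw [norm_smul]
        exact mul_le_mul (CQ_abs_le Q _) (hB _) (norm_nonneg _) (by positivity)
      refine (Finset.sum_le_sum h3).trans ?_
      rw [Finset.sum_const, nsmul_eq_mul, Finset.card_range]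
      push_cast
      exact le_rfl
    refine (norm_sum_le _ _).trans ((Finset.sum_le_sum h2).trans ?_)
    rw [Finset.sum_const, nsmul_eq_mul, Finset.card_range]
    push_cast
    exact le_of_eq (by ring)
  rw [Real.norm_of_nonneg (by positivity)]
  calc (1 : ℝ) / ((4 : ℝ) ^ i) ^ 2 * _ ≤ 1 / ((4 : ℝ) ^ i) ^ 2 *
      (((4 : ℝ) ^ i) ^ 2 * ((Q : ℝ) ^ 2 * B)) := mul_le_mul_of_nonneg_left h1 (by positivity)
    _ = (Q : ℝ) ^ 2 * B := by field_simp

/-! ### summation over the blocks -/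

private theorem sum_range_mul' (m n : ℕ) (F : ℕ → ℝ) :
    ∑ c ∈ range (n * m), F c = ∑ b ∈ range n, ∑ c ∈ range m, F (b * m + c) := by
  induction n with
  | zero => simp
  | succ n ih => rw [Nat.succ_mul, Finset.sum_range_add, ih, Finset.sum_range_succ]

private theorem sum_blocks (K k : ℕ) (hkK : k ≤ K) (F : ℕ → ℕ → ℝ) :
    ∑ c ∈ range (2 ^ K), F (c / 2 ^ k) c
      = ∑ b ∈ range (2 ^ (K - k)), ∑ c ∈ range (2 ^ k), F b (b * 2 ^ k + c) := by
  have e : 2 ^ K = 2 ^ (K - k) * 2 ^ k := by rw [← pow_add]; congr 1; omega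
  rw [e, sum_range_mul']
  refine Finset.sum_congr rfl fun b _ => Finset.sum_congr rfl fun c hc => ?_
  rw [Finset.mem_range] at hc
  have h2 : 0 < 2 ^ k := by positivity
  have e2 : (b * 2 ^ k + c) / 2 ^ k = b := by
    rw [add_comm, Nat.add_mul_div_right _ _ h2, Nat.div_eq_of_lt hc, zero_add]
  rw [e2]

private theorem cs_sqrt {ι : Type*} (s : Finset ι) (F G : ι → ℝ) (hF : ∀ t ∈ s, 0 ≤ F t)
    (hG : ∀ t ∈ s, 0 ≤ G t) :
    ∑ t ∈ s, Real.sqrt (F t) * Real.sqrt (G t) ≤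
      Real.sqrt (∑ t ∈ s, F t) * Real.sqrt (∑ t ∈ s, G t) := by
  have h := Finset.sum_mul_sq_le_sq_mul_sq s (fun t => Real.sqrt (F t)) (fun t => Real.sqrt (G t))
  have e1 : ∑ t ∈ s, Real.sqrt (F t) ^ 2 = ∑ t ∈ s, F t :=
    Finset.sum_congr rfl fun t ht => Real.sq_sqrt (hF t ht)
  have e2 : ∑ t ∈ s, Real.sqrt (G t) ^ 2 = ∑ t ∈ s, G t :=
    Finset.sum_congr rfl fun t ht => Real.sq_sqrt (hG t ht)
  rw [e1, e2] at h
  rw [← Real.sqrt_mul (Finset.sum_nonneg hF)]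
  exact Real.le_sqrt_of_sq_le h

/-- the common argument -/
private theorem sing_gen (K k : ℕ) (hkK : k ≤ K) (C : ℝ) (hC : 0 ≤ C)
    (LE : (A M → E) → A M → E) (Lr : (A M → ℝ) → A M → ℝ) (PE : (A M → E) → ℝ)
    (Pr : (A M → ℝ) → ℝ)
    (h1 : ∀ (x : E) (V : A M → E) (v : A M), inner ℝ x (LE V v) = Lr (fun u => inner ℝ x (V u)) v)
    (h2 : ∀ (W : Submodule ℝ E) (V : A M → E), (∀ u, V u ∈ W) → ∀ v, LE V v ∈ W)
    (h3 : ∀ (n : ℕ) (φ : Fin n → E) (W : Submodule ℝ E) (V : A M → E), Crd φ W →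
      (∀ u, V u ∈ W) → PE V = ∑ t, Pr (fun u => inner ℝ (φ t) (V u)))
    (h4 : ∀ V, 0 ≤ Pr V)
    (h5 : ∀ (b : ℕ) (S V : A M → ℝ),
      |∑ c ∈ range (2 ^ k), ∑ u : A M, S u * Lr V (u + th M (b * 2 ^ k + c))| ≤
        2 ^ k * C * (Real.sqrt (Pr S) * Real.sqrt (Pr V)))
    (f g : ℕ → A M → E) :
    |tp K k f (fun b v => LE (g b) v)| ≤
      C * (Real.sqrt ((∑ c ∈ range (2 ^ K), PE (f (c / 2 ^ k))) / (2 ^ K * (M : ℝ) ^ 2)) *
          Real.sqrt ((∑ c ∈ range (2 ^ K), PE (g (c / 2 ^ k))) / (2 ^ K * (M : ℝ) ^ 2))) := by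
  have hM : (0 : ℝ) < (M : ℝ) := by exact_mod_cast Nat.pos_of_ne_zero (NeZero.ne M)
  have hD : (0 : ℝ) < 2 ^ K * (M : ℝ) ^ 2 := by positivity
  have hPE : ∀ V : A M → E, 0 ≤ PE V := by
    intro V
    obtain ⟨n, φ, W, h, hV, _⟩ := exists_Crd2 V V
    rw [h3 n φ W V h hV]
    exact Finset.sum_nonneg fun t _ => h4 _
  -- one block
  have hb : ∀ b : ℕ, |∑ c ∈ range (2 ^ k), ∑ u : A M,
      inner ℝ (f b u) (LE (g b) (u + th M (b * 2 ^ k + c)))| ≤
      2 ^ k * C * (Real.sqrt (PE (f b)) * Real.sqrt (PE (g b))) := by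
    intro b
    obtain ⟨n, φ, W, h, hf, hg⟩ := exists_Crd2 (f b) (g b)
    have e1 : ∑ c ∈ range (2 ^ k), ∑ u : A M,
        inner ℝ (f b u) (LE (g b) (u + th M (b * 2 ^ k + c)))
        = ∑ t, ∑ c ∈ range (2 ^ k), ∑ u : A M, inner ℝ (φ t) (f b u) *
          Lr (fun u => inner ℝ (φ t) (g b u)) (u + th M (b * 2 ^ k + c)) := by
      conv_rhs => rw [Finset.sum_comm]
      refine Finset.sum_congr rfl fun c _ => ?_
      conv_rhs => rw [Finset.sum_comm]
      refine Finset.sum_congr rfl fun u _ => ?_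
      rw [h _ (hf u) _ (h2 W (g b) hg _)]
      refine Finset.sum_congr rfl fun t _ => ?_
      rw [h1]
    rw [e1, h3 n φ W (f b) h hf, h3 n φ W (g b) h hg]
    refine (Finset.abs_sum_le_sum_abs _ _).trans ?_
    refine (Finset.sum_le_sum fun t _ => h5 b (fun u => inner ℝ (φ t) (f b u))
      (fun u => inner ℝ (φ t) (g b u))).trans ?_
    rw [← Finset.mul_sum]
    refine mul_le_mul_of_nonneg_left ?_ (by positivity)
    exact cs_sqrt _ _ _ (fun t _ => h4 _) (fun t _ => h4 _)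
  have e2 : tp K k f (fun b v => LE (g b) v) = (∑ b ∈ range (2 ^ (K - k)),
      ∑ c ∈ range (2 ^ k), ∑ u : A M,
        inner ℝ (f b u) (LE (g b) (u + th M (b * 2 ^ k + c)))) / (2 ^ K * (M : ℝ) ^ 2) := by
    unfold tp ex
    rw [sum_blocks K k hkK (fun b c => ∑ u : A M,
      inner ℝ (f b u) (LE (g b) (u + th M c)))]
  have e3 : ∀ G : ℕ → A M → E, ∑ c ∈ range (2 ^ K), PE (G (c / 2 ^ k))
      = 2 ^ k * ∑ b ∈ range (2 ^ (K - k)), PE (G b) := by
    intro G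
    rw [sum_blocks K k hkK (fun b _ => PE (G b)), Finset.mul_sum]
    refine Finset.sum_congr rfl fun b _ => ?_
    rw [Finset.sum_const, Finset.card_range, nsmul_eq_mul]
    push_cast
    ring
  rw [e2, abs_div, abs_of_pos hD, e3, e3, div_le_iff₀ hD]
  set X : ℝ := ∑ b ∈ range (2 ^ (K - k)), PE (f b) with hX
  set Y : ℝ := ∑ b ∈ range (2 ^ (K - k)), PE (g b) with hY
  have hX0 : 0 ≤ X := Finset.sum_nonneg fun b _ => hPE _
  have hY0 : 0 ≤ Y := Finset.sum_nonneg fun b _ => hPE _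
  have h6 : |∑ b ∈ range (2 ^ (K - k)), ∑ c ∈ range (2 ^ k), ∑ u : A M,
      inner ℝ (f b u) (LE (g b) (u + th M (b * 2 ^ k + c)))| ≤
      2 ^ k * C * (Real.sqrt X * Real.sqrt Y) := by
    refine (Finset.abs_sum_le_sum_abs _ _).trans ((Finset.sum_le_sum fun b _ => hb b).trans ?_)
    rw [← Finset.mul_sum]
    refine mul_le_mul_of_nonneg_left ?_ (by positivity)
    exact cs_sqrt _ _ _ (fun b _ => hPE _) (fun b _ => hPE _)
  refine h6.trans (le_of_eq ?_)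
  have f1 : ∀ Z : ℝ, 0 ≤ Z → Real.sqrt (2 ^ k * Z / (2 ^ K * (M : ℝ) ^ 2))
      = Real.sqrt ((2 : ℝ) ^ k) * Real.sqrt Z / Real.sqrt (2 ^ K * (M : ℝ) ^ 2) := by
    intro Z hZ
    rw [Real.sqrt_div (by positivity), Real.sqrt_mul (by positivity)]
  rw [f1 X hX0, f1 Y hY0]
  have e4 : Real.sqrt ((2 : ℝ) ^ k) * Real.sqrt ((2 : ℝ) ^ k) = 2 ^ k :=
    Real.mul_self_sqrt (by positivity)
  have e5 : Real.sqrt (2 ^ K * (M : ℝ) ^ 2) * Real.sqrt (2 ^ K * (M : ℝ) ^ 2)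
      = 2 ^ K * (M : ℝ) ^ 2 := Real.mul_self_sqrt (by positivity)
  have e6 : Real.sqrt (2 ^ K * (M : ℝ) ^ 2) ≠ 0 := (Real.sqrt_pos.2 hD).ne'
  set s := Real.sqrt (2 ^ K * (M : ℝ) ^ 2) with hs
  set r := Real.sqrt ((2 : ℝ) ^ k) with hr
  rw [← e5, ← e4]
  field_simp

theorem sing_end (K k Q j : ℕ) (hkK : k ≤ K) (hQ : 1 ≤ Q) (hj : j ≤ k)
    (hk : 16 * Q ^ 4 * 16 ^ j ≤ 2 ^ k) (f g : ℕ → A M → E) :
    |tp K k f (fun b v => g b v - sm Q (k - j) (g b) v)| ≤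
      1000 * (1 / Real.sqrt Q + (3 / 4 : ℝ) ^ j) *
        (Real.sqrt (ex K (fun c u => ‖f (c / 2 ^ k) u‖ ^ 2)) *
          Real.sqrt (ex K (fun c u => ‖g (c / 2 ^ k) u‖ ^ 2))) := by
  have h := sing_gen (M := M) K k hkK (1000 * (1 / Real.sqrt Q + (3 / 4 : ℝ) ^ j)) (by positivity)
    (fun (V : A M → E) v => V v - sm Q (k - j) V v) (fun (V : A M → ℝ) v => V v - sm Q (k - j) V v)
    (fun V => ∑ u : A M, ‖V u‖ ^ 2) (fun V => ∑ u : A M, V u ^ 2)
    (fun x V v => by rw [inner_sub_right, inner_sm_eq])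
    (fun W V hV v => W.sub_mem (hV v) (sm_mem _ _ W V hV v))
    (fun n φ W V hc hV => by
      rw [Finset.sum_comm]
      refine Finset.sum_congr rfl fun u _ => ?_
      rw [← real_inner_self_eq_norm_sq, hc _ (hV u) _ (hV u)]
      refine Finset.sum_congr rfl fun t _ => ?_
      ring)
    (fun V => Finset.sum_nonneg fun u _ => sq_nonneg _)
    (fun b S V => sing_end_real Q k j b hQ hj hk S V) f g
  exact h

theorem sing_band (K k Q j H : ℕ) (hkK : k ≤ K) (hQ : 1 ≤ Q) (hj : j ≤ k)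
    (hk : 16 * Q ^ 4 * 16 ^ j ≤ 2 ^ k) (hH : k ≤ H) (f g : ℕ → A M → E) :
    |tp K k f (fun b v => sm Q (k - j) (g b) v - sm Q (k - j + 1) (g b) v)| ≤
      100000 * (3 / 4 : ℝ) ^ j *
        (Real.sqrt ((∑ c ∈ range (2 ^ K), bf Q H (k - j) (f (c / 2 ^ k)))
            / (2 ^ K * (M : ℝ) ^ 2)) *
          Real.sqrt ((∑ c ∈ range (2 ^ K), bf Q H (k - j) (g (c / 2 ^ k)))
            / (2 ^ K * (M : ℝ) ^ 2))) := by
  have h := sing_gen (M := M) K k hkK (100000 * (3 / 4 : ℝ) ^ j) (by positivity)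
    (fun (V : A M → E) v => sm Q (k - j) V v - sm Q (k - j + 1) V v)
    (fun (V : A M → ℝ) v => sm Q (k - j) V v - sm Q (k - j + 1) V v)
    (fun V => bf Q H (k - j) V) (fun V => bf Q H (k - j) V)
    (fun x V v => by rw [inner_sub_right, inner_sm_eq, inner_sm_eq])
    (fun W V hV v => W.sub_mem (sm_mem _ _ W V hV v) (sm_mem _ _ W V hV v))
    (fun n φ W V hc hV => bf_Crd Q H (k - j) hc V hV)
    (fun V => bf_nonneg Q H (k - j) V)
    (fun b S V => sing_band_real Q k j b H hQ hj hk hH S V) f g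
  exact h

end

end NP2
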