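import Pool.Agent.NP2.Grd
import Pool.Agent.NP2.Cel
import Pool.Agent.NP2.SingE

/-!
# NP2 / Rem : the remainder at one scale

`E (tied) <F_u, r_v>^2` is a pairing `tp K k f g` with values in
`EuclideanSpace ℝ (Fin (2^k) × Fin (2^k))`:
`f b u (s,s') = F_u(b2^k+s) F_u(b2^k+s') / 2^k`, `g b v (s,s') = r_v(..) r_v(..) / 2^k`;
`inner = <F_u,r_v>^2`, norms at most `1`.  `tp f g = tp f (g - sm g) + tp f (sm g)`; the first by
`sing_end` with `Q = 2^a`, `j = 8a` (`(3/4)^8 ≤ 1/8`); the second is at most `Q^2` times the average of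
`locT` of `v ↦ <F_u,r_v>^2`, at most `8 lam 8^k/(2^k 4^(k-8a)) = 8 4^(8a) lam` by the rule for
`S`-objects and `locT_le_cells`.
-/

namespace NP2
open Finset

noncomputable section

variable {M : ℕ} [NeZero M]

/-- the square of a function on a block, as a vector -/
private def rem_v (k : ℕ) (x : ℕ → ℝ) : EuclideanSpace ℝ (Fin (2 ^ k) × Fin (2 ^ k)) :=
  WithLp.toLp 2 (fun p => x p.1 * x p.2 / 2 ^ k)

private theorem rem_inner (k : ℕ) (x y : ℕ → ℝ) :
    inner ℝ (rem_v k x) (rem_v k y) = ((∑ s ∈ range (2 ^ k), x s * y s) / 2 ^ k) ^ 2 := by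
  unfold rem_v
  rw [PiLp.inner_apply, Fintype.sum_prod_type]
  have e : ∀ (i j : Fin (2 ^ k)), inner ℝ (x i * x j / 2 ^ k) (y i * y j / 2 ^ k) =
      (x i * y i / 2 ^ k) * (x j * y j / 2 ^ k) := by
    intro i j
    rw [real_inner_eq_re_inner, RCLike.inner_apply]
    simp
    ring
  have e2 : (∑ s ∈ range (2 ^ k), x s * y s) / 2 ^ k = ∑ i : Fin (2 ^ k), x i * y i / 2 ^ k := by
    rw [Finset.sum_div, ← Fin.sum_univ_eq_sum_range (fun s => x s * y s / 2 ^ k)]
  rw [e2, sq, Finset.sum_mul_sum]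
  refine Finset.sum_congr rfl fun i _ => Finset.sum_congr rfl fun j _ => ?_
  exact e i j

private theorem rem_ip (k b : ℕ) (f g : ℕ → ℝ) :
    ip (blk k b) f g =
      (∑ s ∈ range (2 ^ k), f (b * 2 ^ k + s) * g (b * 2 ^ k + s)) / 2 ^ k := by
  unfold ip
  rw [card_blk]
  unfold blk
  rw [Finset.sum_Ico_eq_sum_range]
  have e : (b + 1) * 2 ^ k - b * 2 ^ k = 2 ^ k := by
    rw [← Nat.sub_mul]
    simp
  rw [e]
  push_cast
  rfl

private theorem rem_sum_range_mul (m n : ℕ) (F : ℕ → ℝ) :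
    ∑ c ∈ range (n * m), F c = ∑ b ∈ range n, ∑ c ∈ range m, F (b * m + c) := by
  induction n with
  | zero => simp
  | succ n ih => rw [Nat.succ_mul, Finset.sum_range_add, ih, Finset.sum_range_succ]

private theorem rem_sum_blocks (K k : ℕ) (hkK : k ≤ K) (F : ℕ → ℕ → ℝ) :
    ∑ c ∈ range (2 ^ K), F (c / 2 ^ k) c
      = ∑ b ∈ range (2 ^ (K - k)), ∑ c ∈ range (2 ^ k), F b (b * 2 ^ k + c) := by
  have e : 2 ^ K = 2 ^ (K - k) * 2 ^ k := by rw [← pow_add]; congr 1; omega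
  rw [e, rem_sum_range_mul]
  refine Finset.sum_congr rfl fun b _ => Finset.sum_congr rfl fun c hc => ?_
  rw [Finset.mem_range] at hc
  have h2 : 0 < 2 ^ k := by positivity
  have e2 : (b * 2 ^ k + c) / 2 ^ k = b := by
    rw [add_comm, Nat.add_mul_div_right _ _ h2, Nat.div_eq_of_lt hc, zero_add]
  rw [e2]

private theorem rem_ex_le (K : ℕ) (f : ℕ → A M → ℝ) (B : ℝ)
    (h : ∀ c < 2 ^ K, ∀ u, f c u ≤ B) : ex K f ≤ B := by
  have hM : (0 : ℝ) < (M : ℝ) := by exact_mod_cast Nat.pos_of_ne_zero (NeZero.ne M)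
  have hcard : (Fintype.card (A M) : ℝ) = (M : ℝ) ^ 2 := by
    rw [Fintype.card_prod, ZMod.card]
    push_cast
    ring
  unfold ex
  rw [div_le_iff₀ (by positivity)]
  calc ∑ c ∈ range (2 ^ K), ∑ u : A M, f c u ≤ ∑ c ∈ range (2 ^ K), ∑ _u : A M, B :=
        Finset.sum_le_sum fun c hc => Finset.sum_le_sum fun u _ => h c (Finset.mem_range.mp hc) u
    _ = B * (2 ^ K * (M : ℝ) ^ 2) := by
        simp only [Finset.sum_const, nsmul_eq_mul, Finset.card_range, Finset.card_univ, hcard]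
        push_cast
        ring

omit [NeZero M] in
private theorem rem_inner_sm {E : Type*} [NormedAddCommGroup E] [InnerProductSpace ℝ E]
    (Q i : ℕ) (x : E) (V : A M → E) (v : A M) :
    inner ℝ x (sm Q i V v) = (1 : ℝ) / ((4 : ℝ) ^ i) ^ 2 * ∑ j ∈ range (4 ^ i),
      ∑ j' ∈ range (4 ^ i), CQ Q ((j : ℤ) - j') * inner ℝ x (V (v + cs M ((j : ℤ) - j'))) := by
  unfold sm
  rw [real_inner_smul_right, inner_sum]
  congr 1
  refine Finset.sum_congr rfl fun j _ => ?_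
  rw [inner_sum]
  refine Finset.sum_congr rfl fun j' _ => ?_
  rw [real_inner_smul_right]

theorem rem_single (K k a : ℕ) (ha : 1 ≤ a) (hak : 50 * a ≤ k) (hk : k ≤ K) (hM : 4 ^ K ∣ M)
    (F G : A M → ℕ → ℝ) (hF : ∀ u t, |F u t| ≤ 1) (hG : ∀ u t, |G u t| ≤ 1)
    (lam τ : ℝ) (hl : 0 < lam) (hl1 : lam ≤ (1 / 2) ^ (100 * a)) (D : Dict M)
    (hD : IsSys K F G lam τ D) :
    ex K (fun c u => ip (blk k (c / 2 ^ k)) (F u)
        (rsd τ D lam k (c / 2 ^ k) (pS (u + th M c)) (G (u + th M c))) ^ 2) ≤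
      3000 / Real.sqrt (2 ^ a) := by
  classical
  have hMp : (0 : ℝ) < (M : ℝ) := by exact_mod_cast Nat.pos_of_ne_zero (NeZero.ne M)
  set f : ℕ → A M → EuclideanSpace ℝ (Fin (2 ^ k) × Fin (2 ^ k)) :=
    fun b u => rem_v k (fun s => F u (b * 2 ^ k + s)) with hf
  set g : ℕ → A M → EuclideanSpace ℝ (Fin (2 ^ k) × Fin (2 ^ k)) :=
    fun b v => rem_v k (fun s => rsd τ D lam k b (pS v) (G v) (b * 2 ^ k + s)) with hg
  have hin : ∀ b u v, inner ℝ (f b u) (g b v) =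
      ip (blk k b) (F u) (rsd τ D lam k b (pS v) (G v)) ^ 2 := by
    intro b u v
    rw [rem_ip, hf, hg]
    exact rem_inner k _ _
  have hnf : ∀ b u, ‖f b u‖ ^ 2 ≤ 1 := by
    intro b u
    rw [← real_inner_self_eq_norm_sq]
    have e : inner ℝ (f b u) (f b u) = ip (blk k b) (F u) (F u) ^ 2 := by
      rw [rem_ip, hf]
      exact rem_inner k _ _
    rw [e]
    have h1 := ip_le_one (blk k b) (F u) (hF u)
    have h2 := ip_self_nonneg (blk k b) (F u)
    exact pow_le_one₀ h2 h1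
  have hng : ∀ b v, ‖g b v‖ ^ 2 ≤ 1 := by
    intro b v
    rw [← real_inner_self_eq_norm_sq]
    have e : inner ℝ (g b v) (g b v) = ip (blk k b) (rsd τ D lam k b (pS v) (G v))
        (rsd τ D lam k b (pS v) (G v)) ^ 2 := by
      rw [rem_ip, hg]
      exact rem_inner k _ _
    rw [e]
    have h1 : ip (blk k b) (rsd τ D lam k b (pS v) (G v)) (rsd τ D lam k b (pS v) (G v)) ≤ 1 :=
      (res_sq_le (blk k b) (col τ D k b (pS v)) lam hl (G v)).trans
        (ip_le_one (blk k b) (G v) (hG v))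
    have h2 := ip_self_nonneg (blk k b) (rsd τ D lam k b (pS v) (G v))
    exact pow_le_one₀ h2 h1
  have hs1 : ex K (fun c u => ip (blk k (c / 2 ^ k)) (F u)
        (rsd τ D lam k (c / 2 ^ k) (pS (u + th M c)) (G (u + th M c))) ^ 2) = tp K k f g := by
    unfold tp
    congr 1
    funext c u
    rw [hin]
  have hs2 : tp K k f g = tp K k f (fun b v => g b v - sm (2 ^ a) (k - 8 * a) (g b) v) +
      tp K k f (fun b v => sm (2 ^ a) (k - 8 * a) (g b) v) := by
    unfold tp ex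
    rw [← add_div, ← Finset.sum_add_distrib]
    congr 1
    refine Finset.sum_congr rfl fun c _ => ?_
    rw [← Finset.sum_add_distrib]
    refine Finset.sum_congr rfl fun u _ => ?_
    rw [← inner_add_right, sub_add_cancel]
  have hsq : (0 : ℝ) < Real.sqrt (2 ^ a) := Real.sqrt_pos.2 (by positivity)
  -- the first part
  have hp1 : tp K k f (fun b v => g b v - sm (2 ^ a) (k - 8 * a) (g b) v) ≤
      2000 / Real.sqrt (2 ^ a) := by
    have hcond : 16 * (2 ^ a) ^ 4 * 16 ^ (8 * a) ≤ 2 ^ k := by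
      have e : 16 * (2 ^ a) ^ 4 * 16 ^ (8 * a) = 2 ^ (4 + a * 4 + 4 * (8 * a)) := by
        rw [pow_add, pow_add, pow_mul 2 a 4, pow_mul 2 4 (8 * a)]
        rfl
      rw [e]
      exact Nat.pow_le_pow_right (by norm_num) (by omega)
    have h := sing_end (M := M) K k (2 ^ a) (8 * a) hk Nat.one_le_two_pow (by omega) hcond f g
    have hx : Real.sqrt (ex K (fun c u => ‖f (c / 2 ^ k) u‖ ^ 2)) ≤ 1 := by
      refine Real.sqrt_le_one.mpr ?_
      exact rem_ex_le K _ 1 fun c _ u => hnf _ u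
    have hy : Real.sqrt (ex K (fun c u => ‖g (c / 2 ^ k) u‖ ^ 2)) ≤ 1 := by
      refine Real.sqrt_le_one.mpr ?_
      exact rem_ex_le K _ 1 fun c _ u => hng _ u
    have hxy : Real.sqrt (ex K (fun c u => ‖f (c / 2 ^ k) u‖ ^ 2)) *
        Real.sqrt (ex K (fun c u => ‖g (c / 2 ^ k) u‖ ^ 2)) ≤ 1 :=
      mul_le_one₀ hx (Real.sqrt_nonneg _) hy
    have h34 : (3 / 4 : ℝ) ^ (8 * a) ≤ 1 / Real.sqrt (2 ^ a) := by
      rw [le_div_iff₀ hsq]
      have h1 : Real.sqrt (2 ^ a) ≤ 2 ^ a := by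
        rw [Real.sqrt_le_left (by positivity)]
        have : (1 : ℝ) ≤ 2 ^ a := one_le_pow₀ (by norm_num)
        nlinarith
      have h2 : (3 / 4 : ℝ) ^ (8 * a) ≤ (1 / 2) ^ a := by
        rw [pow_mul]
        exact pow_le_pow_left₀ (by positivity) (by norm_num) a
      calc (3 / 4 : ℝ) ^ (8 * a) * Real.sqrt (2 ^ a) ≤ (1 / 2) ^ a * 2 ^ a :=
            mul_le_mul h2 h1 (Real.sqrt_nonneg _) (by positivity)
        _ = 1 := by rw [← mul_pow]; norm_num
    have h3 := (le_abs_self _).trans h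
    have hc : (((2 ^ a : ℕ) : ℝ)) = 2 ^ a := by push_cast; rfl
    rw [hc] at h3
    refine h3.trans ?_
    have h4 : 1000 * (1 / Real.sqrt (2 ^ a) + (3 / 4 : ℝ) ^ (8 * a)) ≤
        2000 / Real.sqrt (2 ^ a) := by
      have e : (2000 : ℝ) / Real.sqrt (2 ^ a) = 1000 * (1 / Real.sqrt (2 ^ a) + 1 /
        Real.sqrt (2 ^ a)) := by ring
      rw [e]
      exact mul_le_mul_of_nonneg_left (by linarith) (by norm_num)
    calc _ ≤ 2000 / Real.sqrt (2 ^ a) * 1 := mul_le_mul h4 hxy (by positivity) (by positivity)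
      _ = 2000 / Real.sqrt (2 ^ a) := mul_one _
  -- the second part
  set i : ℕ := k - 8 * a with hi
  have hik : i < k := by omega
  set B : ℝ := ((2 : ℝ) ^ a) ^ 2 * (8 * (lam * 8 ^ k) / (2 ^ k * 4 ^ i)) with hB
  have hblock : ∀ b < 2 ^ (K - k), ∀ u : A M, ∑ c ∈ range (2 ^ k),
      inner ℝ (f b u) (sm (2 ^ a) i (g b) (u + th M (b * 2 ^ k + c))) ≤ 2 ^ k * B := by
    intro b hb u
    set h : A M → ℝ := fun v => ip (blk k b) (rsd τ D lam k b (pS v) (G v)) (F u) ^ 2 with hh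
    have h0 : ∀ v, 0 ≤ h v := fun v => sq_nonneg _
    have hinh : ∀ v, inner ℝ (f b u) (g b v) = h v := by
      intro v
      rw [hin, ip_comm]
    have hX : ∀ q : ℕ × ℕ, ∑ v : A M, (if cell k (pS v (b * 2 ^ k)) = q then h v else 0) ≤
        lam * 8 ^ k := by
      intro q
      have h1 := hD.ruleS k hk b hb q (F u)
      have h2 := ip_le_one (blk k b) (F u) (hF u)
      have h3 : lam * 8 ^ k * ip (blk k b) (F u) (F u) ≤ lam * 8 ^ k * 1 :=
        mul_le_mul_of_nonneg_left h2 (by positivity)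
      rw [mul_one] at h3
      refine le_trans (le_of_eq ?_) (h1.trans h3)
      refine Finset.sum_congr rfl fun v _ => ?_
      split_ifs <;> rfl
    have hloc := locT_le_cells K k i b hM hk hik h h0 (lam * 8 ^ k) hX u
    have hterm : ∀ v : A M, inner ℝ (f b u) (sm (2 ^ a) i (g b) v) ≤
        ((2 : ℝ) ^ a) ^ 2 * ((∑ j ∈ range (4 ^ i), ∑ j' ∈ range (4 ^ i),
          h (v + cs M ((j : ℤ) - j'))) / ((4 : ℝ) ^ i) ^ 2) := by
      intro v
      rw [rem_inner_sm, ← mul_div_assoc, one_div, inv_mul_eq_div]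
      refine div_le_div_of_nonneg_right ?_ (by positivity)
      rw [Finset.mul_sum]
      refine Finset.sum_le_sum fun j _ => ?_
      rw [Finset.mul_sum]
      refine Finset.sum_le_sum fun j' _ => ?_
      rw [hinh]
      refine mul_le_mul_of_nonneg_right ?_ (h0 _)
      have := (le_abs_self _).trans (CQ_abs_le (2 ^ a) ((j : ℤ) - j'))
      push_cast at this
      exact this
    refine (Finset.sum_le_sum fun c _ => hterm _).trans ?_
    rw [← Finset.mul_sum, ← Finset.sum_div]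
    unfold locT at hloc
    rw [hB]
    have e : ∀ S : ℝ, S / (2 ^ k * ((4 : ℝ) ^ i) ^ 2) = S / ((4 : ℝ) ^ i) ^ 2 / 2 ^ k := by
      intro S
      rw [mul_comm, div_div]
    rw [e, div_le_iff₀ (by positivity)] at hloc
    have h5 := mul_le_mul_of_nonneg_left hloc (by positivity : (0 : ℝ) ≤ ((2 : ℝ) ^ a) ^ 2)
    refine h5.trans (le_of_eq ?_)
    ring
  have hcard : (Fintype.card (A M) : ℝ) = (M : ℝ) ^ 2 := by
    rw [Fintype.card_prod, ZMod.card]
    push_cast
    ring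
  have hp2 : tp K k f (fun b v => sm (2 ^ a) i (g b) v) ≤ B := by
    unfold tp ex
    rw [div_le_iff₀ (by positivity), rem_sum_blocks K k hk (fun b c => ∑ u : A M,
      inner ℝ (f b u) (sm (2 ^ a) i (g b) (u + th M c)))]
    have h1 : ∀ b ∈ range (2 ^ (K - k)), ∑ c ∈ range (2 ^ k), ∑ u : A M,
        inner ℝ (f b u) (sm (2 ^ a) i (g b) (u + th M (b * 2 ^ k + c))) ≤
        (M : ℝ) ^ 2 * (2 ^ k * B) := by
      intro b hb
      rw [Finset.sum_comm]
      refine (Finset.sum_le_sum fun u _ => hblock b (Finset.mem_range.mp hb) u).trans ?_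
      rw [Finset.sum_const, nsmul_eq_mul, Finset.card_univ, hcard]
    refine (Finset.sum_le_sum h1).trans (le_of_eq ?_)
    rw [Finset.sum_const, nsmul_eq_mul, Finset.card_range]
    have e : (2 : ℝ) ^ K = 2 ^ (K - k) * 2 ^ k := by
      rw [← pow_add]
      congr 1
      omega
    rw [e]
    push_cast
    ring
  have hBle : B ≤ 1000 / Real.sqrt (2 ^ a) := by
    have e8 : (8 : ℝ) ^ k = 2 ^ k * (4 ^ i * 4 ^ (8 * a)) := by
      rw [← pow_add]
      have : i + 8 * a = k := by omega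
      rw [this, ← mul_pow]
      norm_num
    have hBe : B = 2 ^ (2 * a) * 8 * 2 ^ (16 * a) * lam := by
      rw [hB, e8]
      have e4 : (4 : ℝ) ^ (8 * a) = 2 ^ (16 * a) := by
        rw [show (4 : ℝ) = 2 ^ 2 by norm_num, ← pow_mul]
        congr 1
        ring
      rw [e4, ← pow_mul, mul_comm a 2]
      field_simp
    have h1 : B ≤ 2 ^ (2 * a) * 8 * 2 ^ (16 * a) * (1 / 2) ^ (100 * a) := by
      rw [hBe]
      exact mul_le_mul_of_nonneg_left hl1 (by positivity)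
    have h2 : (2 : ℝ) ^ (2 * a) * 8 * 2 ^ (16 * a) * (1 / 2) ^ (100 * a) ≤
        8 * (1 / 2) ^ a := by
      have e : (2 : ℝ) ^ (2 * a) * 8 * 2 ^ (16 * a) * (1 / 2) ^ (100 * a) =
          8 * (1 / 2) ^ (82 * a) := by
        have e1 : (1 / 2 : ℝ) ^ (100 * a) = (1 / 2) ^ (2 * a) * (1 / 2) ^ (16 * a) *
            (1 / 2) ^ (82 * a) := by
          rw [← pow_add, ← pow_add]
          congr 1
          ring
        rw [e1]
        have e2 : (2 : ℝ) ^ (2 * a) * (1 / 2) ^ (2 * a) = 1 := by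
          rw [← mul_pow]; norm_num
        have e3 : (2 : ℝ) ^ (16 * a) * (1 / 2) ^ (16 * a) = 1 := by
          rw [← mul_pow]; norm_num
        calc (2 : ℝ) ^ (2 * a) * 8 * 2 ^ (16 * a) * ((1 / 2) ^ (2 * a) * (1 / 2) ^ (16 * a) *
            (1 / 2) ^ (82 * a)) = (2 ^ (2 * a) * (1 / 2) ^ (2 * a)) *
              (2 ^ (16 * a) * (1 / 2) ^ (16 * a)) * (8 * (1 / 2) ^ (82 * a)) := by ring
          _ = 8 * (1 / 2) ^ (82 * a) := by rw [e2, e3]; ring
      rw [e]
      have h3 : (1 / 2 : ℝ) ^ (82 * a) ≤ (1 / 2) ^ a :=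
        pow_le_pow_of_le_one (by norm_num) (by norm_num) (by omega)
      linarith
    have h3 : (1 / 2 : ℝ) ^ a ≤ 1 / Real.sqrt (2 ^ a) := by
      rw [le_div_iff₀ hsq]
      have h1 : Real.sqrt (2 ^ a) ≤ 2 ^ a := by
        rw [Real.sqrt_le_left (by positivity)]
        have : (1 : ℝ) ≤ 2 ^ a := one_le_pow₀ (by norm_num)
        nlinarith
      calc (1 / 2 : ℝ) ^ a * Real.sqrt (2 ^ a) ≤ (1 / 2) ^ a * 2 ^ a :=
            mul_le_mul_of_nonneg_left h1 (by positivity)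
        _ = 1 := by rw [← mul_pow]; norm_num
    have h4 : (1000 : ℝ) / Real.sqrt (2 ^ a) = 1000 * (1 / Real.sqrt (2 ^ a)) := by ring
    rw [h4]
    have h5 : (0 : ℝ) ≤ 1 / Real.sqrt (2 ^ a) := by positivity
    linarith
  rw [hs1, hs2]
  have e : (3000 : ℝ) / Real.sqrt (2 ^ a) = 2000 / Real.sqrt (2 ^ a) +
      1000 / Real.sqrt (2 ^ a) := by ring
  rw [e]
  exact add_le_add hp1 (hp2.trans hBle)

end

end NP2
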