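import Pool.Agent.NP2.SingE
import Pool.Agent.NP2.Proc

/-!
# NP2 / SQ : the square function estimate for moving processes

`p` any process, `V = acc K p`, `‖V‖ ≤ B` on the levels `[k1, K]`.  Then
`∑_{k1 ≤ k ≤ K} E bf Q K (k-j) V_k ≤ 10 Q^2 B tot`.

Proof.  Put `q_i(V_k) = E qf Q i (V_k)` (normalised as in `ebf`).  `|q_n(V) - q_n(W)| =
|E <V-W, sm_n (V+W)>| ≤ 2 B Q^2 E|V-W|` (`sm_symm`, `norm_sm_le`), `q_n(V_k) ≤ Q^2 B E|V_k| ≤
Q^2 B tot`.  Reindex the double sum over `k` and `i' ≤ K` by `s = i' - (k-j)` (an integer); for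
fixed `s` the levels `k` with `0 ≤ k-j+s ≤ K`, `k1 ≤ k ≤ K` form an interval `[a,b]` and
`∑_{k=a}^b (q_{k-j+s}(V_k) - q_{k-j+s+1}(V_k)) ≤ q_{a-j+s}(V_a) +
∑_{k=a}^{b-1} |q_{k-j+s+1}(V_{k+1}) - q_{k-j+s+1}(V_k)| ≤ 3 Q^2 B tot`.  The weights `(1/2)^|s|` sum
to 3.  Top terms: `∑_k (1/2)^(K+1-k+j) Q^2 B tot ≤ Q^2 B tot`.
-/

namespace NP2
open Finset

noncomputable section

variable {M : ℕ} [NeZero M] {E : Type*} [NormedAddCommGroup E] [InnerProductSpace ℝ E]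

/-- average of the band form at level `k` -/
def ebf (K k Q H i : ℕ) (V : ℕ → ℕ → A M → E) : ℝ :=
  (∑ c ∈ range (2 ^ K), bf Q H i (V k (c / 2 ^ k))) / (2 ^ K * (M : ℝ) ^ 2)

private theorem nrm_pos (K : ℕ) : (0 : ℝ) < 2 ^ K * (M : ℝ) ^ 2 := by
  have hM : (0 : ℝ) < (M : ℝ) := by
    exact_mod_cast Nat.pos_of_ne_zero (NeZero.ne M)
  positivity

theorem ebf_nonneg (K k Q H i : ℕ) (V : ℕ → ℕ → A M → E) : 0 ≤ ebf K k Q H i V := by
  unfold ebf
  exact div_nonneg (Finset.sum_nonneg fun c _ => bf_nonneg Q H i _) (nrm_pos (M := M) K).le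

/-- average of the quadratic form at level `k` -/
private def sqq (K Q n k : ℕ) (V : ℕ → ℕ → A M → E) : ℝ :=
  (∑ c ∈ range (2 ^ K), qf Q n (V k (c / 2 ^ k))) / (2 ^ K * (M : ℝ) ^ 2)

private theorem sqq_nonneg (K Q n k : ℕ) (V : ℕ → ℕ → A M → E) : 0 ≤ sqq K Q n k V := by
  unfold sqq
  exact div_nonneg (Finset.sum_nonneg fun c _ => qf_nonneg Q n _) (nrm_pos (M := M) K).le

private theorem sqq_mono (K Q n k : ℕ) (V : ℕ → ℕ → A M → E) :
    sqq K Q (n + 1) k V ≤ sqq K Q n k V := by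
  unfold sqq
  exact div_le_div_of_nonneg_right (Finset.sum_le_sum fun c _ => qf_mono Q n _)
    (nrm_pos (M := M) K).le

private theorem ebf_eq (K k Q H i : ℕ) (V : ℕ → ℕ → A M → E) :
    ebf K k Q H i V =
      ∑ i' ∈ range (H + 1), (1 / 2 : ℝ) ^ (((i' : ℤ) - i).natAbs) *
        (sqq K Q i' k V - sqq K Q (i' + 1) k V)
      + (1 / 2 : ℝ) ^ (H + 1 - i) * sqq K Q (H + 1) k V := by
  unfold ebf bf sqq
  rw [Finset.sum_add_distrib, add_div, Finset.sum_comm, Finset.sum_div, ← Finset.mul_sum,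
    mul_div_assoc]
  congr 1
  refine Finset.sum_congr rfl fun i' _ => ?_
  rw [← Finset.mul_sum, Finset.sum_sub_distrib, mul_div_assoc, sub_div]

private theorem qf_le (Q n : ℕ) (V : A M → E) (B : ℝ) (hB : ∀ v, ‖V v‖ ≤ B) :
    qf Q n V ≤ ((Q : ℝ) ^ 2 * B) * ∑ v : A M, ‖V v‖ := by
  unfold qf
  rw [Finset.mul_sum]
  refine Finset.sum_le_sum fun v _ => ?_
  calc inner ℝ (V v) (sm Q n V v) ≤ ‖V v‖ * ‖sm Q n V v‖ := real_inner_le_norm _ _
    _ ≤ ‖V v‖ * ((Q : ℝ) ^ 2 * B) :=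
        mul_le_mul_of_nonneg_left (norm_sm_le Q n V B hB v) (norm_nonneg _)
    _ = (Q : ℝ) ^ 2 * B * ‖V v‖ := by ring

private theorem qf_diff (Q n : ℕ) (V W : A M → E) (B : ℝ) (hV : ∀ v, ‖V v‖ ≤ B)
    (hW : ∀ v, ‖W v‖ ≤ B) :
    |qf Q n V - qf Q n W| ≤ (2 * (Q : ℝ) ^ 2 * B) * ∑ v : A M, ‖V v - W v‖ := by
  have h1 : qf Q n V - qf Q n W =
      ∑ v : A M, (inner ℝ (V v - W v) (sm Q n V v) + inner ℝ (V v - W v) (sm Q n W v)) := by
    have hs : ∑ v : A M, inner ℝ (V v) (sm Q n W v) = ∑ v : A M, inner ℝ (W v) (sm Q n V v) := by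
      rw [sm_symm]
      exact Finset.sum_congr rfl fun v _ => real_inner_comm _ _
    have e : ∀ v : A M, inner ℝ (V v - W v) (sm Q n V v) + inner ℝ (V v - W v) (sm Q n W v) =
        (inner ℝ (V v) (sm Q n V v) - inner ℝ (W v) (sm Q n V v)) +
          (inner ℝ (V v) (sm Q n W v) - inner ℝ (W v) (sm Q n W v)) := by
      intro v
      rw [inner_sub_left, inner_sub_left]
    rw [Finset.sum_congr rfl fun v _ => e v, Finset.sum_add_distrib, Finset.sum_sub_distrib,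
      Finset.sum_sub_distrib, hs]
    unfold qf
    ring
  rw [h1, Finset.mul_sum]
  refine (Finset.abs_sum_le_sum_abs _ _).trans (Finset.sum_le_sum fun v _ => ?_)
  have a1 := abs_real_inner_le_norm (V v - W v) (sm Q n V v)
  have a2 := abs_real_inner_le_norm (V v - W v) (sm Q n W v)
  have b1 := mul_le_mul_of_nonneg_left (norm_sm_le Q n V B hV v) (norm_nonneg (V v - W v))
  have b2 := mul_le_mul_of_nonneg_left (norm_sm_le Q n W B hW v) (norm_nonneg (V v - W v))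
  calc |inner ℝ (V v - W v) (sm Q n V v) + inner ℝ (V v - W v) (sm Q n W v)|
      ≤ |inner ℝ (V v - W v) (sm Q n V v)| + |inner ℝ (V v - W v) (sm Q n W v)| :=
        abs_add_le _ _
    _ ≤ ‖V v - W v‖ * ((Q : ℝ) ^ 2 * B) + ‖V v - W v‖ * ((Q : ℝ) ^ 2 * B) := by linarith
    _ = 2 * (Q : ℝ) ^ 2 * B * ‖V v - W v‖ := by ring

private theorem blk_lt (K k c : ℕ) (hk : k ≤ K) (hc : c < 2 ^ K) : c / 2 ^ k < 2 ^ (K - k) := by
  rw [Nat.div_lt_iff_lt_mul (by positivity), ← pow_add, Nat.sub_add_cancel hk]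
  exact hc

private theorem sqq_le (K k1 Q n k : ℕ) (h1 : k1 ≤ k) (h2 : k ≤ K)
    (p : ℕ → ℕ → A M → E) (B : ℝ) (hB0 : 0 ≤ B)
    (hB : ∀ b < 2 ^ (K - k), ∀ u, ‖acc K p k b u‖ ≤ B) :
    sqq K Q n k (acc K p) ≤ (Q : ℝ) ^ 2 * B * tot K k1 p := by
  have e1 : sqq K Q n k (acc K p) ≤ (Q : ℝ) ^ 2 * B * nv K k (acc K p) := by
    unfold sqq nv ex
    rw [← mul_div_assoc]
    refine div_le_div_of_nonneg_right ?_ (nrm_pos (M := M) K).le
    rw [Finset.mul_sum]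
    refine Finset.sum_le_sum fun c hc => ?_
    exact qf_le Q n _ B fun v => hB _ (blk_lt K k c h2 (Finset.mem_range.1 hc)) v
  refine e1.trans ?_
  exact mul_le_mul_of_nonneg_left (nv_acc_le K k k1 h1 p) (by positivity)

private theorem sqq_step (K Q n k : ℕ) (h2 : k < K)
    (p : ℕ → ℕ → A M → E) (B : ℝ)
    (hB : ∀ b < 2 ^ (K - k), ∀ u, ‖acc K p k b u‖ ≤ B)
    (hB' : ∀ b < 2 ^ (K - (k + 1)), ∀ u, ‖acc K p (k + 1) b u‖ ≤ B) :
    |sqq K Q n k (acc K p) - sqq K Q n (k + 1) (acc K p)| ≤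
      2 * (Q : ℝ) ^ 2 * B * nv K k p := by
  unfold sqq nv ex
  rw [← sub_div, abs_div, abs_of_pos (nrm_pos (M := M) K), ← mul_div_assoc]
  refine div_le_div_of_nonneg_right ?_ (nrm_pos (M := M) K).le
  rw [← Finset.sum_sub_distrib, Finset.mul_sum]
  refine (Finset.abs_sum_le_sum_abs _ _).trans (Finset.sum_le_sum fun c hc => ?_)
  have hc' := Finset.mem_range.1 hc
  have hd : c / 2 ^ k / 2 = c / 2 ^ (k + 1) := by
    rw [Nat.div_div_eq_div_mul, pow_succ]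
  have := qf_diff Q n (acc K p k (c / 2 ^ k)) (acc K p (k + 1) (c / 2 ^ (k + 1))) B
    (fun v => hB _ (blk_lt K k c h2.le hc') v)
    (fun v => hB' _ (blk_lt K (k + 1) c h2 hc') v)
  refine this.trans (le_of_eq ?_)
  congr 1
  refine Finset.sum_congr rfl fun v _ => ?_
  rw [acc_step K k h2.le p, hd, add_sub_cancel_right]

private theorem tele (g : ℕ → ℕ → ℝ) (k1 K : ℕ) (h : k1 ≤ K) :
    ∑ k ∈ Icc k1 K, (g k k - g (k + 1) k) =
      g k1 k1 - g (K + 1) K + ∑ k ∈ Ico k1 K, (g (k + 1) (k + 1) - g (k + 1) k) := by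
  induction K, h using Nat.le_induction with
  | base => simp
  | succ K hK ih =>
    rw [Finset.sum_Icc_succ_top (by omega), ih, Finset.sum_Ico_succ_top hK]
    ring

private theorem half_sum (K : ℕ) :
    ∑ s ∈ Icc (-(K : ℤ)) K, (1 / 2 : ℝ) ^ s.natAbs = 3 - 2 * (1 / 2 : ℝ) ^ K := by
  induction K with
  | zero => norm_num
  | succ K ih =>
    have e : Icc (-((K + 1 : ℕ) : ℤ)) ((K + 1 : ℕ) : ℤ) =
        insert ((K + 1 : ℕ) : ℤ) (insert (-((K + 1 : ℕ) : ℤ)) (Icc (-(K : ℤ)) K)) := by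
      ext x
      simp only [Finset.mem_Icc, Finset.mem_insert]
      push_cast
      omega
    rw [e, Finset.sum_insert, Finset.sum_insert, ih]
    · have a1 : (((K + 1 : ℕ) : ℤ)).natAbs = K + 1 := by omega
      have a2 : (-((K + 1 : ℕ) : ℤ)).natAbs = K + 1 := by omega
      rw [a1, a2, pow_succ]
      ring
    · simp only [Finset.mem_Icc]
      push_cast
      omega
    · simp only [Finset.mem_insert, Finset.mem_Icc]
      push_cast
      omega

private theorem top_sum (K k1 j : ℕ) :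
    ∑ k ∈ Icc k1 K, (1 / 2 : ℝ) ^ (K + 1 - (k - j)) ≤ 1 := by
  have h1 : ∑ k ∈ Icc k1 K, (1 / 2 : ℝ) ^ (K + 1 - (k - j)) ≤
      ∑ k ∈ range (K + 1), (1 / 2 : ℝ) ^ (K + 1 - k) := by
    calc ∑ k ∈ Icc k1 K, (1 / 2 : ℝ) ^ (K + 1 - (k - j))
        ≤ ∑ k ∈ Icc k1 K, (1 / 2 : ℝ) ^ (K + 1 - k) := by
          refine Finset.sum_le_sum fun k _ => ?_
          exact pow_le_pow_of_le_one (by norm_num) (by norm_num) (by omega)
      _ ≤ _ := by
          refine Finset.sum_le_sum_of_subset_of_nonneg ?_ fun k _ _ => by positivity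
          intro k hk
          rw [Finset.mem_Icc] at hk
          rw [Finset.mem_range]
          omega
  refine h1.trans ?_
  have h2 : ∀ n : ℕ, ∑ k ∈ range n, (1 / 2 : ℝ) ^ (n - k) = 1 - (1 / 2 : ℝ) ^ n := by
    intro n
    induction n with
    | zero => simp
    | succ n ih =>
      rw [Finset.sum_range_succ]
      have e : ∑ k ∈ range n, (1 / 2 : ℝ) ^ (n + 1 - k) =
          (1 / 2) * ∑ k ∈ range n, (1 / 2 : ℝ) ^ (n - k) := by
        rw [Finset.mul_sum]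
        refine Finset.sum_congr rfl fun k hk => ?_
        have hk' := Finset.mem_range.1 hk
        have : n + 1 - k = (n - k) + 1 := by omega
        rw [this, pow_succ]
        ring
      rw [e, ih]
      have : n + 1 - n = 1 := by omega
      rw [this, pow_succ]
      ring
  rw [h2]
  have : (0 : ℝ) ≤ (1 / 2 : ℝ) ^ (K + 1) := by positivity
  linarith

/-- extension of the index of the quadratic form to all integers -/
private def qz (K Q : ℕ) (n : ℤ) (k : ℕ) (V : ℕ → ℕ → A M → E) : ℝ :=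
  sqq K Q (min n.toNat (K + 1)) k V

private theorem qz_mono (K Q : ℕ) (n : ℤ) (k : ℕ) (V : ℕ → ℕ → A M → E) :
    qz K Q (n + 1) k V ≤ qz K Q n k V := by
  unfold qz
  by_cases h0 : n < 0
  · have a : (n + 1).toNat = n.toNat := by omega
    rw [a]
  · by_cases h1 : n ≤ K
    · have a : min (n + 1).toNat (K + 1) = min n.toNat (K + 1) + 1 := by omega
      rw [a]
      exact sqq_mono K Q _ k V
    · have a : min (n + 1).toNat (K + 1) = min n.toNat (K + 1) := by omega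
      rw [a]

private theorem inner_sum_le (K Q k i : ℕ) (hi : i ≤ K) (V : ℕ → ℕ → A M → E) :
    ∑ i' ∈ range (K + 1), (1 / 2 : ℝ) ^ (((i' : ℤ) - i).natAbs) *
        (sqq K Q i' k V - sqq K Q (i' + 1) k V) ≤
      ∑ s ∈ Icc (-(K : ℤ)) K, (1 / 2 : ℝ) ^ s.natAbs *
        (qz K Q ((i : ℤ) + s) k V - qz K Q ((i : ℤ) + s + 1) k V) := by
  have e1 : ∑ i' ∈ range (K + 1), (1 / 2 : ℝ) ^ (((i' : ℤ) - i).natAbs) *
        (sqq K Q i' k V - sqq K Q (i' + 1) k V) =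
      ∑ s ∈ (range (K + 1)).image (fun i' : ℕ => (i' : ℤ) - i), (1 / 2 : ℝ) ^ s.natAbs *
        (qz K Q ((i : ℤ) + s) k V - qz K Q ((i : ℤ) + s + 1) k V) := by
    rw [Finset.sum_image]
    · refine Finset.sum_congr rfl fun i' hi' => ?_
      have hi'' := Finset.mem_range.1 hi'
      unfold qz
      have a1 : min ((i : ℤ) + ((i' : ℤ) - i)).toNat (K + 1) = i' := by omega
      have a2 : min ((i : ℤ) + ((i' : ℤ) - i) + 1).toNat (K + 1) = i' + 1 := by omega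
      rw [a1, a2]
    · intro x _ y _ hxy
      simp only at hxy
      omega
  rw [e1]
  refine Finset.sum_le_sum_of_subset_of_nonneg ?_ ?_
  · intro s hs
    rw [Finset.mem_image] at hs
    obtain ⟨i', hi', rfl⟩ := hs
    have hi'' := Finset.mem_range.1 hi'
    rw [Finset.mem_Icc]
    omega
  · intro s _ _
    have := qz_mono K Q ((i : ℤ) + s) k V
    exact mul_nonneg (by positivity) (by linarith)

theorem sq_main (K k1 Q j : ℕ) (hk1 : k1 ≤ K) (hj : j ≤ k1) (hQ : 1 ≤ Q)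
    (p : ℕ → ℕ → A M → E) (B : ℝ)
    (hB : ∀ k, k1 ≤ k → k ≤ K → ∀ b < 2 ^ (K - k), ∀ u, ‖acc K p k b u‖ ≤ B) :
    ∑ k ∈ Icc k1 K, ebf K k Q K (k - j) (acc K p) ≤ 10 * (Q : ℝ) ^ 2 * B * tot K k1 p := by
  have hB0 : 0 ≤ B := (norm_nonneg _).trans (hB k1 le_rfl hk1 0 (by positivity) 0)
  have hnv : ∀ k, 0 ≤ nv K k p := fun k => ex_nonneg K _ fun c u => norm_nonneg _
  have htot : 0 ≤ tot K k1 p := Finset.sum_nonneg fun k _ => hnv k
  set C : ℝ := (Q : ℝ) ^ 2 * B * tot K k1 p with hC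
  have hC0 : 0 ≤ C := by positivity
  have hle : ∀ n k, k1 ≤ k → k ≤ K → sqq K Q n k (acc K p) ≤ C := fun n k h1 h2 =>
    sqq_le K k1 Q n k h1 h2 p B hB0 (hB k h1 h2)
  -- one diagonal
  have hdiag : ∀ s : ℤ, ∑ k ∈ Icc k1 K,
      (qz K Q (((k - j : ℕ) : ℤ) + s) k (acc K p) -
        qz K Q (((k - j : ℕ) : ℤ) + s + 1) k (acc K p)) ≤ 3 * C := by
    intro s
    obtain ⟨g, hg⟩ : ∃ g : ℕ → ℕ → ℝ, ∀ m k, g m k = qz K Q ((m : ℤ) - j + s) k (acc K p) :=
      ⟨fun m k => qz K Q ((m : ℤ) - j + s) k (acc K p), fun _ _ => rfl⟩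
    have e : ∑ k ∈ Icc k1 K,
        (qz K Q (((k - j : ℕ) : ℤ) + s) k (acc K p) -
          qz K Q (((k - j : ℕ) : ℤ) + s + 1) k (acc K p)) =
        ∑ k ∈ Icc k1 K, (g k k - g (k + 1) k) := by
      refine Finset.sum_congr rfl fun k hk => ?_
      rw [Finset.mem_Icc] at hk
      have a1 : ((k - j : ℕ) : ℤ) + s = (k : ℤ) - j + s := by omega
      have a2 : ((k - j : ℕ) : ℤ) + s + 1 = ((k + 1 : ℕ) : ℤ) - j + s := by
        push_cast
        omega
      rw [hg, hg, a2, a1]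
    rw [e, tele g k1 K hk1]
    simp only [hg]
    have b1 : qz K Q ((k1 : ℤ) - j + s) k1 (acc K p) ≤ C := hle _ k1 le_rfl hk1
    have b2 : 0 ≤ qz K Q (((K + 1 : ℕ) : ℤ) - j + s) K (acc K p) := sqq_nonneg _ _ _ _ _
    have b3 : ∑ k ∈ Ico k1 K, (qz K Q (((k + 1 : ℕ) : ℤ) - j + s) (k + 1) (acc K p) -
        qz K Q (((k + 1 : ℕ) : ℤ) - j + s) k (acc K p)) ≤ 2 * C := by
      calc ∑ k ∈ Ico k1 K, (qz K Q (((k + 1 : ℕ) : ℤ) - j + s) (k + 1) (acc K p) -
            qz K Q (((k + 1 : ℕ) : ℤ) - j + s) k (acc K p))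
          ≤ ∑ k ∈ Ico k1 K, 2 * (Q : ℝ) ^ 2 * B * nv K k p := by
            refine Finset.sum_le_sum fun k hk => ?_
            rw [Finset.mem_Ico] at hk
            have := sqq_step K Q (min (((k + 1 : ℕ) : ℤ) - j + s).toNat (K + 1)) k hk.2 p B
              (hB k hk.1 hk.2.le) (hB (k + 1) (by omega) hk.2)
            rw [abs_sub_comm] at this
            exact (le_abs_self _).trans this
        _ = 2 * (Q : ℝ) ^ 2 * B * ∑ k ∈ Ico k1 K, nv K k p := by rw [Finset.mul_sum]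
        _ ≤ 2 * (Q : ℝ) ^ 2 * B * tot K k1 p := by
            refine mul_le_mul_of_nonneg_left ?_ (by positivity)
            unfold tot
            refine Finset.sum_le_sum_of_subset_of_nonneg ?_ fun k _ _ => hnv k
            intro k hk
            rw [Finset.mem_Ico] at hk
            rw [Finset.mem_Icc]
            omega
        _ = 2 * C := by rw [hC]; ring
    linarith
  -- the band terms
  have hband : ∑ k ∈ Icc k1 K, ∑ i' ∈ range (K + 1),
      (1 / 2 : ℝ) ^ (((i' : ℤ) - ((k - j : ℕ) : ℤ)).natAbs) *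
        (sqq K Q i' k (acc K p) - sqq K Q (i' + 1) k (acc K p)) ≤ 9 * C := by
    calc ∑ k ∈ Icc k1 K, ∑ i' ∈ range (K + 1),
          (1 / 2 : ℝ) ^ (((i' : ℤ) - ((k - j : ℕ) : ℤ)).natAbs) *
            (sqq K Q i' k (acc K p) - sqq K Q (i' + 1) k (acc K p))
        ≤ ∑ k ∈ Icc k1 K, ∑ s ∈ Icc (-(K : ℤ)) K, (1 / 2 : ℝ) ^ s.natAbs *
            (qz K Q (((k - j : ℕ) : ℤ) + s) k (acc K p) -
              qz K Q (((k - j : ℕ) : ℤ) + s + 1) k (acc K p)) := by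
          refine Finset.sum_le_sum fun k hk => ?_
          rw [Finset.mem_Icc] at hk
          exact inner_sum_le K Q k (k - j) (by omega) (acc K p)
      _ = ∑ s ∈ Icc (-(K : ℤ)) K, (1 / 2 : ℝ) ^ s.natAbs * ∑ k ∈ Icc k1 K,
            (qz K Q (((k - j : ℕ) : ℤ) + s) k (acc K p) -
              qz K Q (((k - j : ℕ) : ℤ) + s + 1) k (acc K p)) := by
          rw [Finset.sum_comm]
          exact Finset.sum_congr rfl fun s _ => (Finset.mul_sum _ _ _).symm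
      _ ≤ ∑ s ∈ Icc (-(K : ℤ)) K, (1 / 2 : ℝ) ^ s.natAbs * (3 * C) := by
          refine Finset.sum_le_sum fun s _ => ?_
          exact mul_le_mul_of_nonneg_left (hdiag s) (by positivity)
      _ = (3 - 2 * (1 / 2 : ℝ) ^ K) * (3 * C) := by rw [← Finset.sum_mul, half_sum]
      _ ≤ 9 * C := by
          have : (0 : ℝ) ≤ (1 / 2 : ℝ) ^ K := by positivity
          nlinarith
  -- the top terms
  have htop : ∑ k ∈ Icc k1 K, (1 / 2 : ℝ) ^ (K + 1 - (k - j)) *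
      sqq K Q (K + 1) k (acc K p) ≤ C := by
    calc ∑ k ∈ Icc k1 K, (1 / 2 : ℝ) ^ (K + 1 - (k - j)) * sqq K Q (K + 1) k (acc K p)
        ≤ ∑ k ∈ Icc k1 K, (1 / 2 : ℝ) ^ (K + 1 - (k - j)) * C := by
          refine Finset.sum_le_sum fun k hk => ?_
          rw [Finset.mem_Icc] at hk
          exact mul_le_mul_of_nonneg_left (hle _ k hk.1 hk.2) (by positivity)
      _ = (∑ k ∈ Icc k1 K, (1 / 2 : ℝ) ^ (K + 1 - (k - j))) * C := by rw [Finset.sum_mul]
      _ ≤ 1 * C := mul_le_mul_of_nonneg_right (top_sum K k1 j) hC0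
      _ = C := one_mul C
  have hfin : ∑ k ∈ Icc k1 K, ebf K k Q K (k - j) (acc K p) =
      ∑ k ∈ Icc k1 K, ∑ i' ∈ range (K + 1),
        (1 / 2 : ℝ) ^ (((i' : ℤ) - ((k - j : ℕ) : ℤ)).natAbs) *
          (sqq K Q i' k (acc K p) - sqq K Q (i' + 1) k (acc K p)) +
      ∑ k ∈ Icc k1 K, (1 / 2 : ℝ) ^ (K + 1 - (k - j)) * sqq K Q (K + 1) k (acc K p) := by
    rw [← Finset.sum_add_distrib]
    exact Finset.sum_congr rfl fun k _ => ebf_eq K k Q K (k - j) (acc K p)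
  rw [hfin]
  have : 10 * (Q : ℝ) ^ 2 * B * tot K k1 p = 10 * C := by rw [hC]; ring
  rw [this]
  linarith

end

end NP2
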