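import Pool.Agent.NP2.Arc

/-!
# NP2 / Sing : the single scale inequality (real valued functions, one block)

Fourier transform in the centre: for `S : A M → ℝ`, `h : ZMod M`,
`S^(n,h) = ∑_m S(n,m) e(-hm/M)`.  Parseval; `sm Q i` multiplies by `mm Q i (h/M)`
(`(1/L^2) ∑_{j,j'<L} e(pz/q) e(h z/M)`, `z = j-j'`, is `Ph L (h/M + p/q)`; the set of fractions is
symmetric under `p → q-p`, and `Ph` is even and periodic).

For fixed `h`: `∑_{c in J} ∑_n conj S^(n,h) V^(n+c,h) e(h C(c,2)/M)`, `J = [b 2^k, (b+1) 2^k)`;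
by Cauchy-Schwarz in `n` and expansion of the square, with `c' = c + d`:
`∑_n |∑_c V^(n+c,h) e(h C(c,2)/M)|^2 = ∑_d ∑_c ∑_x V^(x) conj V^(x+d) e(-(h/M)(cd + C(d,2)))`
(`C(c,2) - C(c+d,2) = -cd - C(d,2)`), and the sum over `c` in an interval of length `N - |d|`
has absolute value `‖Dk (N-|d|) (d h/M)‖`.  Hence the bilinear form at `h` has norm at most
`N (gN N (h/M))^(1/2)`.  Then sum over `h` with the multiplier and use `arc_end`, `arc_band`
and Cauchy-Schwarz over `h`.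
-/

namespace NP2
open Finset

noncomputable section

variable {M : ℕ} [NeZero M]

/-! ### the exponential and the geometric sum -/

private theorem Sing_ec_neg (x : ℝ) : ec (-x) = (starRingEnd ℂ) (ec x) := by
  unfold ec
  rw [← Complex.exp_conj]
  congr 1
  rw [map_mul, map_mul, map_mul, Complex.conj_I, Complex.conj_ofReal, Complex.conj_ofReal,
    Complex.conj_ofNat]
  push_cast
  ring

private theorem Sing_Dk_neg (L : ℕ) (η : ℝ) : Dk L (-η) = (starRingEnd ℂ) (Dk L η) := by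
  unfold Dk
  rw [map_sum]
  refine Finset.sum_congr rfl fun j _ => ?_
  rw [← Sing_ec_neg, mul_neg]

private theorem Sing_DD (L : ℕ) (η : ℝ) :
    ∑ j ∈ range L, ∑ j' ∈ range L, ec ((((j : ℤ) - j' : ℤ) : ℝ) * η) = ((‖Dk L η‖ ^ 2 : ℝ) : ℂ) := by
  have h1 : ((‖Dk L η‖ ^ 2 : ℝ) : ℂ) = Dk L η * (starRingEnd ℂ) (Dk L η) := by
    rw [Complex.mul_conj, Complex.normSq_eq_norm_sq]
  rw [h1, ← Sing_Dk_neg]
  unfold Dk
  rw [Finset.sum_mul_sum]
  refine Finset.sum_congr rfl fun j _ => Finset.sum_congr rfl fun j' _ => ?_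
  rw [← ec_add]
  congr 1
  push_cast
  ring

private theorem Sing_cos (x : ℝ) : ((Real.cos (2 * Real.pi * x) : ℝ) : ℂ) = (ec x + ec (-x)) / 2 := by
  unfold ec
  rw [Complex.ofReal_cos, Complex.cos]
  push_cast
  congr 2
  · congr 1
    ring
  · congr 1
    ring

/-- the set of fractions is symmetric -/
private theorem Sing_sym (L q : ℕ) (hq : 1 ≤ q) (ξ : ℝ) :
    ∑ p ∈ (range q).filter (fun p => Nat.Coprime p q), Ph L (ξ + (p : ℝ) / q) =
      ∑ p ∈ (range q).filter (fun p => Nat.Coprime p q), Ph L (ξ - (p : ℝ) / q) := by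
  have hq0 : (q : ℝ) ≠ 0 := by positivity
  have key : ∀ p ∈ (range q).filter (fun p => Nat.Coprime p q),
      (q - p) % q ∈ (range q).filter (fun p => Nat.Coprime p q) ∧ (q - (q - p) % q) % q = p ∧
      ∃ n : ℤ, (p : ℝ) / q = -(((q - p) % q : ℕ) : ℝ) / q + n := by
    intro p hp
    rw [Finset.mem_filter, Finset.mem_range] at hp
    obtain ⟨hp1, hp2⟩ := hp
    rcases Nat.eq_zero_or_pos p with h0 | h0
    · subst h0
      have hq1 : q = 1 := by simpa using hp2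
      subst hq1
      refine ⟨by simp, by simp, 0, by simp⟩
    · have h1 : (q - p) % q = q - p := Nat.mod_eq_of_lt (by omega)
      rw [h1]
      refine ⟨?_, ?_, 1, ?_⟩
      · rw [Finset.mem_filter, Finset.mem_range]
        refine ⟨by omega, ?_⟩
        exact (Nat.coprime_self_sub_left hp1.le).2 hp2
      · have h2 : q - (q - p) = p := by omega
        rw [h2]
        exact Nat.mod_eq_of_lt hp1
      · rw [Nat.cast_sub hp1.le]
        field_simp
        push_cast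
        ring
  refine Finset.sum_nbij' (fun p => (q - p) % q) (fun p => (q - p) % q)
    (fun p hp => (key p hp).1) (fun p hp => (key p hp).1) (fun p hp => (key p hp).2.1)
    (fun p hp => (key p hp).2.1) (fun p hp => ?_)
  obtain ⟨n, hn⟩ := (key p hp).2.2
  rw [hn]
  have e : ξ + (-(((q - p) % q : ℕ) : ℝ) / q + n) = (ξ - (((q - p) % q : ℕ) : ℝ) / q) + n := by
    ring
  rw [e, Ph_period]

/-- the multiplier of the smoothing -/
private theorem Sing_mult (Q i : ℕ) (ξ : ℝ) :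
    (((1 : ℝ) / ((4 : ℝ) ^ i) ^ 2 : ℝ) : ℂ) * ∑ j ∈ range (4 ^ i), ∑ j' ∈ range (4 ^ i),
      ((CQ Q ((j : ℤ) - j') : ℝ) : ℂ) * ec ((((j : ℤ) - j' : ℤ) : ℝ) * ξ) = ((mm Q i ξ : ℝ) : ℂ) := by
  have hL : ((4 : ℝ) ^ i) ≠ 0 := by positivity
  have h1 : ∀ j j' : ℕ, ((CQ Q ((j : ℤ) - j') : ℝ) : ℂ) * ec ((((j : ℤ) - j' : ℤ) : ℝ) * ξ) =
      ∑ q ∈ Icc 1 Q, ∑ p ∈ (range q).filter (fun p => Nat.Coprime p q),
        (ec ((((j : ℤ) - j' : ℤ) : ℝ) * (ξ + (p : ℝ) / q)) +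
          ec ((((j : ℤ) - j' : ℤ) : ℝ) * (ξ - (p : ℝ) / q))) / 2 := by
    intro j j'
    unfold CQ
    rw [Complex.ofReal_sum, Finset.sum_mul]
    refine Finset.sum_congr rfl fun q _ => ?_
    rw [Complex.ofReal_sum, Finset.sum_mul]
    refine Finset.sum_congr rfl fun p _ => ?_
    have e1 : (2 * Real.pi * p * (((j : ℤ) - j' : ℤ) : ℝ) / q : ℝ) =
        2 * Real.pi * ((((j : ℤ) - j' : ℤ) : ℝ) * ((p : ℝ) / q)) := by ring
    rw [e1, Sing_cos, div_mul_eq_mul_div, add_mul, ← ec_add, ← ec_add]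
    congr 3
    · ring
    · ring
  have h2 : ∑ j ∈ range (4 ^ i), ∑ j' ∈ range (4 ^ i),
      ((CQ Q ((j : ℤ) - j') : ℝ) : ℂ) * ec ((((j : ℤ) - j' : ℤ) : ℝ) * ξ) =
      ∑ q ∈ Icc 1 Q, ∑ p ∈ (range q).filter (fun p => Nat.Coprime p q),
        ((((‖Dk (4 ^ i) (ξ + (p : ℝ) / q)‖ ^ 2 + ‖Dk (4 ^ i) (ξ - (p : ℝ) / q)‖ ^ 2) / 2 : ℝ)) : ℂ) := by
    simp only [h1]
    have s1 : ∀ j : ℕ, ∑ j' ∈ range (4 ^ i), ∑ q ∈ Icc 1 Q,
        ∑ p ∈ (range q).filter (fun p => Nat.Coprime p q),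
        (ec ((((j : ℤ) - j' : ℤ) : ℝ) * (ξ + (p : ℝ) / q)) +
          ec ((((j : ℤ) - j' : ℤ) : ℝ) * (ξ - (p : ℝ) / q))) / 2 =
        ∑ q ∈ Icc 1 Q, ∑ p ∈ (range q).filter (fun p => Nat.Coprime p q),
        ∑ j' ∈ range (4 ^ i),
        (ec ((((j : ℤ) - j' : ℤ) : ℝ) * (ξ + (p : ℝ) / q)) +
          ec ((((j : ℤ) - j' : ℤ) : ℝ) * (ξ - (p : ℝ) / q))) / 2 := by
      intro j
      rw [Finset.sum_comm]
      refine Finset.sum_congr rfl fun q _ => ?_
      rw [Finset.sum_comm]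
    simp only [s1]
    rw [Finset.sum_comm]
    refine Finset.sum_congr rfl fun q _ => ?_
    rw [Finset.sum_comm]
    refine Finset.sum_congr rfl fun p _ => ?_
    push_cast
    have := Sing_DD (4 ^ i) (ξ + (p : ℝ) / q)
    have h' := Sing_DD (4 ^ i) (ξ - (p : ℝ) / q)
    push_cast at this h'
    rw [← this, ← h']
    simp only [← Finset.sum_div, ← Finset.sum_add_distrib]
  rw [h2]
  simp only [← Complex.ofReal_sum]
  rw [← Complex.ofReal_mul]
  congr 1
  unfold mm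
  rw [Finset.mul_sum]
  refine Finset.sum_congr rfl fun q hq => ?_
  have h3 := Sing_sym (4 ^ i) q (Finset.mem_Icc.1 hq).1 ξ
  have h4 : ∀ η : ℝ, ‖Dk (4 ^ i) η‖ ^ 2 = ((4 : ℝ) ^ i) ^ 2 * Ph (4 ^ i) η := by
    intro η
    unfold Ph
    push_cast
    field_simp
  simp only [h4]
  rw [← Finset.sum_div, Finset.sum_add_distrib, ← Finset.mul_sum, ← Finset.mul_sum, h3]
  field_simp
  ring

/-! ### the Fourier transform in the centre -/

/-- the point `h/M` -/
private def Sing_xi (h : ZMod M) : ℝ := (h.val : ℝ) / M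

private theorem Sing_char (h : ZMod M) (z : ℤ) :
    ZMod.stdAddChar (h * (z : ZMod M)) = ec ((z : ℝ) * Sing_xi h) := by
  have h1 : h * (z : ZMod M) = (((h.val : ℤ) * z : ℤ) : ZMod M) := by
    push_cast
    rw [ZMod.natCast_zmod_val]
  rw [h1, ZMod.stdAddChar_coe]
  unfold ec Sing_xi
  congr 1
  push_cast
  ring

/-- the Fourier transform in the centre -/
private def Sing_F (V : A M → ℝ) (n h : ZMod M) : ℂ :=
  ∑ m : ZMod M, (V (n, m) : ℂ) * ZMod.stdAddChar (-(h * m))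

/-- the energy at the frequency `h` -/
private def Sing_nF (V : A M → ℝ) (h : ZMod M) : ℝ := ∑ n : ZMod M, ‖Sing_F V n h‖ ^ 2

private theorem Sing_nF_nonneg (V : A M → ℝ) (h : ZMod M) : 0 ≤ Sing_nF V h :=
  Finset.sum_nonneg fun _ _ => by positivity

/-- Parseval -/
private theorem Sing_pars (a b : ZMod M → ℝ) :
    ∑ h : ZMod M, (starRingEnd ℂ) (∑ m : ZMod M, (a m : ℂ) * ZMod.stdAddChar (-(h * m))) *
      (∑ m : ZMod M, (b m : ℂ) * ZMod.stdAddChar (-(h * m))) =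
      (M : ℂ) * ∑ m : ZMod M, (a m : ℂ) * (b m : ℂ) := by
  have h1 : ∀ h : ZMod M, (starRingEnd ℂ) (∑ m : ZMod M, (a m : ℂ) * ZMod.stdAddChar (-(h * m))) *
      (∑ m : ZMod M, (b m : ℂ) * ZMod.stdAddChar (-(h * m))) =
      ∑ m : ZMod M, ∑ m' : ZMod M, (a m : ℂ) * (b m' : ℂ) *
        ZMod.stdAddChar (h * (m - m')) := by
    intro h
    rw [map_sum, Finset.sum_mul_sum]
    refine Finset.sum_congr rfl fun m _ => Finset.sum_congr rfl fun m' _ => ?_
    rw [map_mul, Complex.conj_ofReal, ← AddChar.map_neg_eq_conj, neg_neg]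
    have e : h * (m - m') = h * m + -(h * m') := by ring
    rw [e, AddChar.map_add_eq_mul]
    ring
  simp only [h1]
  rw [Finset.sum_comm]
  rw [Finset.mul_sum]
  refine Finset.sum_congr rfl fun m _ => ?_
  rw [Finset.sum_comm]
  rw [Finset.sum_eq_single m]
  · rw [← Finset.mul_sum, AddChar.sum_mulShift _ (ZMod.isPrimitive_stdAddChar M)]
    rw [sub_self, if_pos rfl, ZMod.card]
    ring
  · intro m' _ hne
    rw [← Finset.mul_sum, AddChar.sum_mulShift _ (ZMod.isPrimitive_stdAddChar M)]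
    rw [if_neg (sub_ne_zero.2 (Ne.symm hne))]
    simp
  · intro h
    exact absurd (Finset.mem_univ _) h

/-- the transform of a shifted function -/
private theorem Sing_shift (V : A M → ℝ) (n h t : ZMod M) :
    ∑ m : ZMod M, (V (n, m + t) : ℂ) * ZMod.stdAddChar (-(h * m)) =
      ZMod.stdAddChar (h * t) * Sing_F V n h := by
  unfold Sing_F
  rw [Finset.mul_sum]
  refine Fintype.sum_equiv (Equiv.addRight t) _ _ fun m => ?_
  rw [Equiv.coe_addRight]
  have e : -(h * m) = h * t + -(h * (m + t)) := by ring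
  rw [e, AddChar.map_add_eq_mul]
  ring

/-- smoothing is multiplication -/
private theorem Sing_smF (Q i : ℕ) (V : A M → ℝ) (n h : ZMod M) :
    Sing_F (sm Q i V) n h = ((mm Q i (Sing_xi h) : ℝ) : ℂ) * Sing_F V n h := by
  have h1 : Sing_F (sm Q i V) n h = (((1 : ℝ) / ((4 : ℝ) ^ i) ^ 2 : ℝ) : ℂ) *
      ∑ j ∈ range (4 ^ i), ∑ j' ∈ range (4 ^ i), ((CQ Q ((j : ℤ) - j') : ℝ) : ℂ) *
        ∑ m : ZMod M, (V (n, m + (((j : ℤ) - j' : ℤ) : ZMod M)) : ℂ) *
          ZMod.stdAddChar (-(h * m)) := by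
    unfold Sing_F sm cs
    simp only [smul_eq_mul, Prod.mk_add_mk, add_zero, Complex.ofReal_mul, Complex.ofReal_sum]
    simp only [mul_assoc, ← Finset.mul_sum]
    congr 1
    simp only [Finset.sum_mul]
    rw [Finset.sum_comm]
    refine Finset.sum_congr rfl fun j _ => ?_
    rw [Finset.sum_comm]
    refine Finset.sum_congr rfl fun j' _ => ?_
    rw [Finset.mul_sum]
    refine Finset.sum_congr rfl fun m _ => ?_
    ring
  rw [h1, ← Sing_mult Q i (Sing_xi h), mul_assoc, Finset.sum_mul]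
  congr 1
  refine Finset.sum_congr rfl fun j _ => ?_
  rw [Finset.sum_mul]
  refine Finset.sum_congr rfl fun j' _ => ?_
  rw [Sing_shift, Sing_char, mul_assoc]

/-- the quadratic form -/
private theorem Sing_qf (Q i : ℕ) (V : A M → ℝ) :
    (M : ℝ) * qf Q i V = ∑ h : ZMod M, mm Q i (Sing_xi h) * Sing_nF V h := by
  have h1 : (((M : ℝ) * qf Q i V : ℝ) : ℂ) =
      ((∑ h : ZMod M, mm Q i (Sing_xi h) * Sing_nF V h : ℝ) : ℂ) := by
    unfold qf
    rw [Fintype.sum_prod_type, Complex.ofReal_mul, Complex.ofReal_sum, Finset.mul_sum]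
    have h2 : ∀ n : ZMod M, ((M : ℝ) : ℂ) * ((∑ m : ZMod M, inner ℝ (V (n, m)) (sm Q i V (n, m)) : ℝ) : ℂ)
        = ∑ h : ZMod M, ((mm Q i (Sing_xi h) * ‖Sing_F V n h‖ ^ 2 : ℝ) : ℂ) := by
      intro n
      have h3 := Sing_pars (fun m => V (n, m)) (fun m => sm Q i V (n, m))
      have h4 : ∀ h : ZMod M, (starRingEnd ℂ) (∑ m : ZMod M, (V (n, m) : ℂ) * ZMod.stdAddChar (-(h * m))) *
          (∑ m : ZMod M, ((sm Q i V (n, m) : ℝ) : ℂ) * ZMod.stdAddChar (-(h * m))) =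
          ((mm Q i (Sing_xi h) * ‖Sing_F V n h‖ ^ 2 : ℝ) : ℂ) := by
        intro h
        have h5 := Sing_smF Q i V n h
        have h6 : ((mm Q i (Sing_xi h) * ‖Sing_F V n h‖ ^ 2 : ℝ) : ℂ) =
            ((mm Q i (Sing_xi h) : ℝ) : ℂ) * (Sing_F V n h * (starRingEnd ℂ) (Sing_F V n h)) := by
          rw [Complex.mul_conj, Complex.normSq_eq_norm_sq]
          push_cast
          ring
        have h7 : (∑ m : ZMod M, ((sm Q i V (n, m) : ℝ) : ℂ) * ZMod.stdAddChar (-(h * m))) =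
            ((mm Q i (Sing_xi h) : ℝ) : ℂ) * Sing_F V n h := h5
        rw [h7, h6]
        show (starRingEnd ℂ) (Sing_F V n h) * _ = _
        ring
      simp only [h4] at h3
      rw [h3]
      push_cast
      congr 1
      refine Finset.sum_congr rfl fun m _ => ?_
      simp [mul_comm]
    simp only [h2]
    rw [Finset.sum_comm, Complex.ofReal_sum]
    refine Finset.sum_congr rfl fun h _ => ?_
    unfold Sing_nF
    rw [← Complex.ofReal_sum, Finset.mul_sum]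
  exact_mod_cast h1

private theorem Sing_M_pos : (0 : ℝ) < (M : ℝ) := by
  have := NeZero.pos M
  exact_mod_cast this

theorem qf_nonneg_real (Q i : ℕ) (V : A M → ℝ) : 0 ≤ qf Q i V := by
  have h := Sing_qf Q i V
  have h1 : 0 ≤ (M : ℝ) * qf Q i V := by
    rw [h]
    exact Finset.sum_nonneg fun x _ => mul_nonneg (mm_nonneg _ _ _) (Sing_nF_nonneg _ _)
  exact nonneg_of_mul_nonneg_right h1 Sing_M_pos

theorem qf_mono_real (Q i : ℕ) (V : A M → ℝ) : qf Q (i + 1) V ≤ qf Q i V := by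
  have h1 : (M : ℝ) * qf Q (i + 1) V ≤ (M : ℝ) * qf Q i V := by
    rw [Sing_qf, Sing_qf]
    exact Finset.sum_le_sum fun x _ => mul_le_mul_of_nonneg_right (mm_mono _ _ _) (Sing_nF_nonneg _ _)
  exact le_of_mul_le_mul_left h1 Sing_M_pos

/-- the sum of squares -/
private theorem Sing_sq (V : A M → ℝ) :
    (M : ℝ) * ∑ u : A M, V u ^ 2 = ∑ h : ZMod M, Sing_nF V h := by
  have h1 : (((M : ℝ) * ∑ u : A M, V u ^ 2 : ℝ) : ℂ) = ((∑ h : ZMod M, Sing_nF V h : ℝ) : ℂ) := by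
    rw [Fintype.sum_prod_type, Complex.ofReal_mul, Complex.ofReal_sum, Finset.mul_sum]
    have h2 : ∀ n : ZMod M, ((M : ℝ) : ℂ) * ((∑ m : ZMod M, V (n, m) ^ 2 : ℝ) : ℂ)
        = ∑ h : ZMod M, ((‖Sing_F V n h‖ ^ 2 : ℝ) : ℂ) := by
      intro n
      have h3 := Sing_pars (fun m => V (n, m)) (fun m => V (n, m))
      have h4 : ∀ h : ZMod M, (starRingEnd ℂ) (∑ m : ZMod M, (V (n, m) : ℂ) * ZMod.stdAddChar (-(h * m))) *
          (∑ m : ZMod M, (V (n, m) : ℂ) * ZMod.stdAddChar (-(h * m))) =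
          ((‖Sing_F V n h‖ ^ 2 : ℝ) : ℂ) := by
        intro h
        rw [← Complex.normSq_eq_norm_sq, Complex.normSq_eq_conj_mul_self]
        rfl
      simp only [h4] at h3
      rw [h3]
      push_cast
      congr 1
      refine Finset.sum_congr rfl fun m _ => ?_
      ring
    simp only [h2]
    rw [Finset.sum_comm, Complex.ofReal_sum]
    refine Finset.sum_congr rfl fun h _ => ?_
    unfold Sing_nF
    rw [← Complex.ofReal_sum]
  exact_mod_cast h1

/-! ### the sum over one block -/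

/-- triangular numbers of integers -/
private def Sing_T (d : ℤ) : ℤ := d * (d - 1) / 2

private theorem Sing_T2 (d : ℤ) : 2 * Sing_T d = d * (d - 1) := by
  unfold Sing_T
  have h : (2 : ℤ) ∣ d * (d - 1) := (Int.even_mul_pred_self d).two_dvd
  exact Int.mul_ediv_cancel' h

private theorem Sing_choose (a b : ℕ) :
    ((a.choose 2 : ℕ) : ℤ) - ((b.choose 2 : ℕ) : ℤ) =
      -((a : ℤ) * ((b : ℤ) - a) + Sing_T ((b : ℤ) - a)) := by
  have h1 : ∀ n : ℕ, 2 * ((n.choose 2 : ℕ) : ℤ) = n * ((n : ℤ) - 1) := by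
    intro n
    have h : (2 * ((n.choose 2 : ℕ) : ℚ)) = n * ((n : ℚ) - 1) := by
      rw [Nat.cast_choose_two]
      ring
    exact_mod_cast h
  have h2 := h1 a
  have h3 := h1 b
  have h4 := Sing_T2 ((b : ℤ) - a)
  have h5 : 2 * (((a.choose 2 : ℕ) : ℤ) - ((b.choose 2 : ℕ) : ℤ)) =
      2 * (-((a : ℤ) * ((b : ℤ) - a) + Sing_T ((b : ℤ) - a))) := by
    linear_combination h2 - h3 + h4
  omega

/-- the sum over the pairs with a given difference -/
private theorem Sing_diag (N l : ℕ) (d : ℤ) (ξ : ℝ) :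
    ‖∑ p ∈ ((range N) ×ˢ (range N)).filter (fun p => (p.2 : ℤ) - p.1 = d),
      ec (((-(((l + p.1 : ℕ) : ℤ) * d) : ℤ) : ℝ) * ξ)‖ = ‖Dk (N - d.natAbs) (d * ξ)‖ := by
  rcases le_or_gt 0 d with hd | hd
  · obtain ⟨e, rfl⟩ := Int.eq_ofNat_of_zero_le hd
    have h1 : ∑ p ∈ ((range N) ×ˢ (range N)).filter (fun p => (p.2 : ℤ) - p.1 = (e : ℤ)),
        ec (((-(((l + p.1 : ℕ) : ℤ) * (e : ℤ)) : ℤ) : ℝ) * ξ) =
        ec (-((l : ℝ) * e * ξ)) * Dk (N - e) (-(e * ξ)) := by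
      unfold Dk
      rw [Finset.mul_sum]
      refine Finset.sum_nbij' (fun p => p.1) (fun j => (j, j + e)) ?_ ?_ ?_ ?_ ?_
      · intro p hp
        rw [Finset.mem_filter, Finset.mem_product, Finset.mem_range, Finset.mem_range] at hp
        rw [Finset.mem_range]
        omega
      · intro j hj
        rw [Finset.mem_range] at hj
        rw [Finset.mem_filter, Finset.mem_product, Finset.mem_range, Finset.mem_range]
        refine ⟨⟨?_, ?_⟩, ?_⟩
        · show j < N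
          omega
        · show j + e < N
          omega
        · show ((j + e : ℕ) : ℤ) - (j : ℤ) = e
          push_cast
          ring
      · intro p hp
        rw [Finset.mem_filter, Finset.mem_product, Finset.mem_range, Finset.mem_range] at hp
        apply Prod.ext
        · rfl
        · show p.1 + e = p.2
          omega
      · intro j _
        rfl
      · intro p _
        rw [← ec_add]
        congr 1
        push_cast
        ring
    rw [h1, norm_mul, norm_ec, one_mul, Sing_Dk_neg, RCLike.norm_conj, Int.natAbs_natCast]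
    push_cast
    rfl
  · obtain ⟨e, he⟩ := Int.eq_ofNat_of_zero_le (by omega : 0 ≤ -d)
    have hde : d = -(e : ℤ) := by omega
    subst hde
    have h1 : ∑ p ∈ ((range N) ×ˢ (range N)).filter (fun p => (p.2 : ℤ) - p.1 = -(e : ℤ)),
        ec (((-(((l + p.1 : ℕ) : ℤ) * (-(e : ℤ))) : ℤ) : ℝ) * ξ) =
        ec (((l : ℝ) + e) * e * ξ) * Dk (N - e) (e * ξ) := by
      unfold Dk
      rw [Finset.mul_sum]
      refine Finset.sum_nbij' (fun p => p.2) (fun j => (j + e, j)) ?_ ?_ ?_ ?_ ?_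
      · intro p hp
        rw [Finset.mem_filter, Finset.mem_product, Finset.mem_range, Finset.mem_range] at hp
        rw [Finset.mem_range]
        omega
      · intro j hj
        rw [Finset.mem_range] at hj
        rw [Finset.mem_filter, Finset.mem_product, Finset.mem_range, Finset.mem_range]
        refine ⟨⟨?_, ?_⟩, ?_⟩
        · show j + e < N
          omega
        · show j < N
          omega
        · show (j : ℤ) - ((j + e : ℕ) : ℤ) = -e
          push_cast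
          ring
      · intro p hp
        rw [Finset.mem_filter, Finset.mem_product, Finset.mem_range, Finset.mem_range] at hp
        apply Prod.ext
        · show p.2 + e = p.1
          omega
        · rfl
      · intro j _
        rfl
      · intro p hp
        rw [Finset.mem_filter, Finset.mem_product, Finset.mem_range, Finset.mem_range] at hp
        have hp1 : p.1 = p.2 + e := by omega
        rw [← ec_add, hp1]
        congr 1
        push_cast
        ring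
    rw [h1, norm_mul, norm_ec, one_mul, Int.natAbs_neg, Int.natAbs_natCast]
    push_cast
    rw [neg_mul, Sing_Dk_neg, RCLike.norm_conj]

/-- correlations -/
private def Sing_R (w : ZMod M → ℂ) (d : ℤ) : ℂ :=
  ∑ x : ZMod M, w x * (starRingEnd ℂ) (w (x + (d : ZMod M)))

private theorem Sing_R_le (w : ZMod M → ℂ) (d : ℤ) : ‖Sing_R w d‖ ≤ ∑ x : ZMod M, ‖w x‖ ^ 2 := by
  unfold Sing_R
  refine (norm_sum_le _ _).trans ?_
  have h1 : ∑ x : ZMod M, ‖w (x + (d : ZMod M))‖ ^ 2 = ∑ x : ZMod M, ‖w x‖ ^ 2 :=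
    Fintype.sum_equiv (Equiv.addRight (d : ZMod M)) _ _ fun x => rfl
  have h2 : ∑ x : ZMod M, ‖w x * (starRingEnd ℂ) (w (x + (d : ZMod M)))‖ ≤
      ∑ x : ZMod M, (‖w x‖ ^ 2 + ‖w (x + (d : ZMod M))‖ ^ 2) / 2 := by
    refine Finset.sum_le_sum fun x _ => ?_
    rw [norm_mul, RCLike.norm_conj]
    nlinarith [sq_nonneg (‖w x‖ - ‖w (x + (d : ZMod M))‖)]
  refine h2.trans (le_of_eq ?_)
  rw [← Finset.sum_div, Finset.sum_add_distrib, h1]
  ring

private theorem Sing_G (w : ZMod M → ℂ) (h : ZMod M) (l N : ℕ) (hN : 1 ≤ N) :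
    ∑ n : ZMod M, ‖∑ c ∈ range N, w (n + ((l + c : ℕ) : ZMod M)) *
      ZMod.stdAddChar (h * (((l + c).choose 2 : ℕ) : ZMod M))‖ ^ 2 ≤
      (N : ℝ) ^ 2 * gN N (Sing_xi h) * ∑ x : ZMod M, ‖w x‖ ^ 2 := by
  have e1 : ((∑ n : ZMod M, ‖∑ c ∈ range N, w (n + ((l + c : ℕ) : ZMod M)) *
      ZMod.stdAddChar (h * (((l + c).choose 2 : ℕ) : ZMod M))‖ ^ 2 : ℝ) : ℂ) =
      ∑ p ∈ (range N) ×ˢ (range N), Sing_R w ((p.2 : ℤ) - p.1) *
        ec (((-(((l + p.1 : ℕ) : ℤ) * ((p.2 : ℤ) - p.1)) : ℤ) : ℝ) * Sing_xi h) *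
        ec (((-Sing_T ((p.2 : ℤ) - p.1) : ℤ) : ℝ) * Sing_xi h) := by
    rw [Finset.sum_product, Complex.ofReal_sum]
    have e2 : ∀ n : ZMod M, ((‖∑ c ∈ range N, w (n + ((l + c : ℕ) : ZMod M)) *
        ZMod.stdAddChar (h * (((l + c).choose 2 : ℕ) : ZMod M))‖ ^ 2 : ℝ) : ℂ) =
        ∑ c ∈ range N, ∑ c' ∈ range N, w (n + ((l + c : ℕ) : ZMod M)) *
          (starRingEnd ℂ) (w (n + ((l + c' : ℕ) : ZMod M))) *
          (ZMod.stdAddChar (h * (((l + c).choose 2 : ℕ) : ZMod M)) *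
          ZMod.stdAddChar (-(h * (((l + c').choose 2 : ℕ) : ZMod M)))) := by
      intro n
      rw [← Complex.normSq_eq_norm_sq, ← Complex.mul_conj, map_sum, Finset.sum_mul_sum]
      refine Finset.sum_congr rfl fun c _ => Finset.sum_congr rfl fun c' _ => ?_
      rw [map_mul (starRingEnd ℂ), AddChar.map_neg_eq_conj]
      ring
    simp only [e2]
    rw [Finset.sum_comm]
    refine Finset.sum_congr rfl fun c _ => ?_
    rw [Finset.sum_comm]
    refine Finset.sum_congr rfl fun c' _ => ?_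
    rw [← Finset.sum_mul]
    have e3 : ∑ n : ZMod M, w (n + ((l + c : ℕ) : ZMod M)) *
        (starRingEnd ℂ) (w (n + ((l + c' : ℕ) : ZMod M))) = Sing_R w ((c' : ℤ) - c) := by
      unfold Sing_R
      refine Fintype.sum_equiv (Equiv.addRight ((l + c : ℕ) : ZMod M)) _ _ fun n => ?_
      rw [Equiv.coe_addRight]
      have e4 : n + ((l + c : ℕ) : ZMod M) + (((c' : ℤ) - c : ℤ) : ZMod M) =
          n + ((l + c' : ℕ) : ZMod M) := by
        push_cast
        ring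
      rw [e4]
    rw [e3, mul_assoc]
    congr 1
    rw [← AddChar.map_add_eq_mul, ← ec_add, ← add_mul]
    have e5 := Sing_choose (l + c) (l + c')
    have e6 : h * (((l + c).choose 2 : ℕ) : ZMod M) + -(h * (((l + c').choose 2 : ℕ) : ZMod M)) =
        h * (((((l + c).choose 2 : ℕ) : ℤ) - (((l + c').choose 2 : ℕ) : ℤ) : ℤ) : ZMod M) := by
      push_cast
      ring
    rw [e6, Sing_char, e5]
    congr 2
    have e7 : (((l + c' : ℕ) : ℤ) - ((l + c : ℕ) : ℤ)) = (c' : ℤ) - c := by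
      push_cast
      ring
    rw [e7]
    push_cast
    ring
  have hmaps : ∀ p ∈ (range N) ×ˢ (range N), ((p.2 : ℤ) - p.1) ∈ Ioo (-(N : ℤ)) N := by
    intro p hp
    rw [Finset.mem_product, Finset.mem_range, Finset.mem_range] at hp
    rw [Finset.mem_Ioo]
    omega
  rw [← Finset.sum_fiberwise_of_maps_to hmaps] at e1
  have e8 : ∀ d ∈ Ioo (-(N : ℤ)) N, ∑ p ∈ ((range N) ×ˢ (range N)).filter
      (fun p => (p.2 : ℤ) - p.1 = d), Sing_R w ((p.2 : ℤ) - p.1) *
        ec (((-(((l + p.1 : ℕ) : ℤ) * ((p.2 : ℤ) - p.1)) : ℤ) : ℝ) * Sing_xi h) *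
        ec (((-Sing_T ((p.2 : ℤ) - p.1) : ℤ) : ℝ) * Sing_xi h) =
      Sing_R w d * (∑ p ∈ ((range N) ×ˢ (range N)).filter
      (fun p => (p.2 : ℤ) - p.1 = d),
        ec (((-(((l + p.1 : ℕ) : ℤ) * d) : ℤ) : ℝ) * Sing_xi h)) *
        ec (((-Sing_T d : ℤ) : ℝ) * Sing_xi h) := by
    intro d _
    rw [Finset.mul_sum, Finset.sum_mul]
    refine Finset.sum_congr rfl fun p hp => ?_
    rw [(Finset.mem_filter.1 hp).2]
  rw [Finset.sum_congr rfl e8] at e1
  set X := ∑ n : ZMod M, ‖∑ c ∈ range N, w (n + ((l + c : ℕ) : ZMod M)) *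
      ZMod.stdAddChar (h * (((l + c).choose 2 : ℕ) : ZMod M))‖ ^ 2 with hX
  have hX0 : 0 ≤ X := Finset.sum_nonneg fun _ _ => by positivity
  have e9 : X = ‖((X : ℝ) : ℂ)‖ := by rw [Complex.norm_real, Real.norm_of_nonneg hX0]
  rw [e9, e1]
  refine (norm_sum_le _ _).trans ?_
  have e10 : (N : ℝ) ^ 2 * gN N (Sing_xi h) * ∑ x : ZMod M, ‖w x‖ ^ 2 =
      ∑ d ∈ Ioo (-(N : ℤ)) N, (∑ x : ZMod M, ‖w x‖ ^ 2) *
        ‖Dk (N - d.natAbs) (d * Sing_xi h)‖ := by
    have hN0 : (N : ℝ) ≠ 0 := by positivity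
    have e11 : ∀ y : ℝ, (N : ℝ) ^ 2 * (y / (N : ℝ) ^ 2) = y := fun y => by field_simp
    rw [← Finset.mul_sum]
    unfold gN
    rw [e11]
    ring
  rw [e10]
  refine Finset.sum_le_sum fun d _ => ?_
  rw [norm_mul, norm_mul, norm_ec, mul_one, Sing_diag]
  exact mul_le_mul_of_nonneg_right (Sing_R_le w d) (norm_nonneg _)

/-- the bilinear form in terms of the transforms -/
private theorem Sing_bil (S W : A M → ℝ) (l N : ℕ) :
    (((M : ℝ) * ∑ c ∈ range N, ∑ u : A M, S u * W (u + th M (l + c)) : ℝ) : ℂ) =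
      ∑ h : ZMod M, ∑ n : ZMod M, (starRingEnd ℂ) (Sing_F S n h) *
        ∑ c ∈ range N, Sing_F W (n + ((l + c : ℕ) : ZMod M)) h *
          ZMod.stdAddChar (h * (((l + c).choose 2 : ℕ) : ZMod M)) := by
  have h1 : ∀ c n, (M : ℂ) * ∑ m : ZMod M, (S (n, m) : ℂ) *
      (W (n + ((l + c : ℕ) : ZMod M), m + (((l + c).choose 2 : ℕ) : ZMod M)) : ℂ) =
      ∑ h : ZMod M, (starRingEnd ℂ) (Sing_F S n h) *
        (Sing_F W (n + ((l + c : ℕ) : ZMod M)) h *
          ZMod.stdAddChar (h * (((l + c).choose 2 : ℕ) : ZMod M))) := by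
    intro c n
    have h2 := Sing_pars (fun m => S (n, m))
      (fun m => W (n + ((l + c : ℕ) : ZMod M), m + (((l + c).choose 2 : ℕ) : ZMod M)))
    rw [← h2]
    refine Finset.sum_congr rfl fun h _ => ?_
    rw [Sing_shift]
    show (starRingEnd ℂ) (Sing_F S n h) * _ = _
    ring
  push_cast
  rw [Finset.mul_sum]
  have h3 : ∀ c ∈ range N, (M : ℂ) * ∑ u : A M, (S u : ℂ) * (W (u + th M (l + c)) : ℂ) =
      ∑ h : ZMod M, ∑ n : ZMod M, (starRingEnd ℂ) (Sing_F S n h) *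
        (Sing_F W (n + ((l + c : ℕ) : ZMod M)) h *
          ZMod.stdAddChar (h * (((l + c).choose 2 : ℕ) : ZMod M))) := by
    intro c _
    rw [Fintype.sum_prod_type, Finset.mul_sum, Finset.sum_comm]
    refine Finset.sum_congr rfl fun n _ => ?_
    rw [← h1]
    rfl
  rw [Finset.sum_congr rfl h3, Finset.sum_comm]
  refine Finset.sum_congr rfl fun h _ => ?_
  rw [Finset.sum_comm]
  refine Finset.sum_congr rfl fun n _ => ?_
  rw [Finset.mul_sum]
  push_cast
  rfl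

private theorem Sing_cs {ι : Type*} (s : Finset ι) (f g : ι → ℂ) :
    ‖∑ i ∈ s, (starRingEnd ℂ) (f i) * g i‖ ≤
      Real.sqrt (∑ i ∈ s, ‖f i‖ ^ 2) * Real.sqrt (∑ i ∈ s, ‖g i‖ ^ 2) := by
  refine (norm_sum_le _ _).trans ?_
  have h1 : ∀ i, ‖(starRingEnd ℂ) (f i) * g i‖ = Real.sqrt (‖f i‖ ^ 2) * Real.sqrt (‖g i‖ ^ 2) := by
    intro i
    rw [norm_mul, RCLike.norm_conj, Real.sqrt_sq (norm_nonneg _), Real.sqrt_sq (norm_nonneg _)]
  simp only [h1]
  exact Real.sum_sqrt_mul_sqrt_le s (fun i => sq_nonneg _) (fun i => sq_nonneg _)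

private theorem Sing_main (S V W : A M → ℝ) (l N : ℕ) (hN : 1 ≤ N) (μ B : ZMod M → ℝ) (C : ℝ)
    (hC : 0 ≤ C) (hB : ∀ h, 0 ≤ B h) (hF : ∀ n h, Sing_F W n h = ((μ h : ℝ) : ℂ) * Sing_F V n h)
    (hμ : ∀ h, |μ h| * Real.sqrt (gN N (Sing_xi h)) ≤ C * B h) :
    |∑ c ∈ range N, ∑ u : A M, S u * W (u + th M (l + c))| ≤
      N * C * (Real.sqrt ((∑ h : ZMod M, B h * Sing_nF S h) / M) *
        Real.sqrt ((∑ h : ZMod M, B h * Sing_nF V h) / M)) := by
  have hM := Sing_M_pos (M := M)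
  have hW : ∀ h, Sing_nF W h = μ h ^ 2 * Sing_nF V h := by
    intro h
    unfold Sing_nF
    rw [Finset.mul_sum]
    refine Finset.sum_congr rfl fun n _ => ?_
    rw [hF, norm_mul, mul_pow, Complex.norm_real, Real.norm_eq_abs, sq_abs]
  have h1 : (M : ℝ) * |∑ c ∈ range N, ∑ u : A M, S u * W (u + th M (l + c))| ≤
      ∑ h : ZMod M, Real.sqrt (Sing_nF S h) *
        Real.sqrt ((N : ℝ) ^ 2 * gN N (Sing_xi h) * Sing_nF W h) := by
    have h2 : (M : ℝ) * |∑ c ∈ range N, ∑ u : A M, S u * W (u + th M (l + c))| =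
        ‖(((M : ℝ) * ∑ c ∈ range N, ∑ u : A M, S u * W (u + th M (l + c)) : ℝ) : ℂ)‖ := by
      rw [Complex.norm_real, Real.norm_eq_abs, abs_mul, abs_of_pos hM]
    rw [h2, Sing_bil]
    refine (norm_sum_le _ _).trans (Finset.sum_le_sum fun h _ => ?_)
    refine (Sing_cs _ _ _).trans ?_
    refine mul_le_mul_of_nonneg_left (Real.sqrt_le_sqrt ?_) (Real.sqrt_nonneg _)
    exact Sing_G (fun x => Sing_F W x h) h l N hN
  have h3 : ∀ h : ZMod M, Real.sqrt (Sing_nF S h) *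
        Real.sqrt ((N : ℝ) ^ 2 * gN N (Sing_xi h) * Sing_nF W h) ≤
      N * C * (Real.sqrt (B h * Sing_nF S h) * Real.sqrt (B h * Sing_nF V h)) := by
    intro h
    have e1 : (N : ℝ) ^ 2 * gN N (Sing_xi h) * Sing_nF W h =
        ((N : ℝ) * (|μ h| * Real.sqrt (gN N (Sing_xi h)))) ^ 2 * Sing_nF V h := by
      rw [hW, mul_pow, mul_pow, sq_abs, Real.sq_sqrt (gN_nonneg _ _)]
      ring
    have e2 : 0 ≤ (N : ℝ) * (|μ h| * Real.sqrt (gN N (Sing_xi h))) := by positivity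
    rw [e1, Real.sqrt_mul (sq_nonneg _), Real.sqrt_sq e2, Real.sqrt_mul (hB h), Real.sqrt_mul (hB h)]
    have e3 : N * C * (Real.sqrt (B h) * Real.sqrt (Sing_nF S h) *
        (Real.sqrt (B h) * Real.sqrt (Sing_nF V h))) =
        Real.sqrt (Sing_nF S h) * (N * (C * B h) * Real.sqrt (Sing_nF V h)) := by
      have := Real.mul_self_sqrt (hB h)
      linear_combination (N * C * Real.sqrt (Sing_nF S h) * Real.sqrt (Sing_nF V h)) * this
    rw [e3]
    refine mul_le_mul_of_nonneg_left ?_ (Real.sqrt_nonneg _)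
    refine mul_le_mul_of_nonneg_right ?_ (Real.sqrt_nonneg _)
    exact mul_le_mul_of_nonneg_left (hμ h) (Nat.cast_nonneg _)
  have h4 : (M : ℝ) * |∑ c ∈ range N, ∑ u : A M, S u * W (u + th M (l + c))| ≤
      N * C * (Real.sqrt (∑ h : ZMod M, B h * Sing_nF S h) *
        Real.sqrt (∑ h : ZMod M, B h * Sing_nF V h)) := by
    refine h1.trans ((Finset.sum_le_sum fun h _ => h3 h).trans ?_)
    rw [← Finset.mul_sum]
    refine mul_le_mul_of_nonneg_left ?_ (by positivity)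
    exact Real.sum_sqrt_mul_sqrt_le _ (fun h => mul_nonneg (hB h) (Sing_nF_nonneg _ _))
      (fun h => mul_nonneg (hB h) (Sing_nF_nonneg _ _))
  rw [Real.sqrt_div' _ hM.le, Real.sqrt_div' _ hM.le]
  have h5 : N * C * (Real.sqrt (∑ h : ZMod M, B h * Sing_nF S h) / Real.sqrt M *
      (Real.sqrt (∑ h : ZMod M, B h * Sing_nF V h) / Real.sqrt M)) =
      N * C * (Real.sqrt (∑ h : ZMod M, B h * Sing_nF S h) *
        Real.sqrt (∑ h : ZMod M, B h * Sing_nF V h)) / M := by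
    rw [div_mul_div_comm, Real.mul_self_sqrt hM.le]
    ring
  rw [h5, le_div_iff₀ hM, mul_comm]
  exact h4

private theorem Sing_F_sub (V W : A M → ℝ) (n h : ZMod M) :
    Sing_F (fun u => V u - W u) n h = Sing_F V n h - Sing_F W n h := by
  unfold Sing_F
  rw [← Finset.sum_sub_distrib]
  refine Finset.sum_congr rfl fun m _ => ?_
  push_cast
  ring

theorem sing_end_real (Q k j b : ℕ) (hQ : 1 ≤ Q) (hj : j ≤ k)
    (hk : 16 * Q ^ 4 * 16 ^ j ≤ 2 ^ k) (S V : A M → ℝ) :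
    |∑ c ∈ range (2 ^ k), ∑ u : A M,
        S u * (V (u + th M (b * 2 ^ k + c)) - sm Q (k - j) V (u + th M (b * 2 ^ k + c)))| ≤
      2 ^ k * (1000 * (1 / Real.sqrt Q + (3 / 4 : ℝ) ^ j)) *
        (Real.sqrt (∑ u : A M, S u ^ 2) * Real.sqrt (∑ u : A M, V u ^ 2)) := by
  have hM := Sing_M_pos (M := M)
  have h := Sing_main S V (fun u => V u - sm Q (k - j) V u) (b * 2 ^ k) (2 ^ k) Nat.one_le_two_pow
    (fun h => 1 - mm Q (k - j) (Sing_xi h)) (fun _ => 1)
    (1000 * (1 / Real.sqrt Q + (3 / 4 : ℝ) ^ j)) (by positivity) (fun _ => zero_le_one)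
    (fun n h => by
      rw [Sing_F_sub, Sing_smF]
      push_cast
      ring)
    (fun h => by
      rw [mul_one]
      exact arc_end Q k j hQ hj hk _)
  simp only [one_mul] at h
  rw [← Sing_sq, ← Sing_sq, mul_div_cancel_left₀ _ hM.ne', mul_div_cancel_left₀ _ hM.ne'] at h
  push_cast at h
  exact h

private theorem Sing_bf (Q H i : ℕ) (V : A M → ℝ) :
    bf Q H i V = (∑ h : ZMod M, (∑ i' ∈ range (H + 1), (1 / 2 : ℝ) ^ (((i' : ℤ) - i).natAbs) *
      (mm Q i' (Sing_xi h) - mm Q (i' + 1) (Sing_xi h))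
      + (1 / 2 : ℝ) ^ (H + 1 - i) * mm Q (H + 1) (Sing_xi h)) * Sing_nF V h) / M := by
  have hM := Sing_M_pos (M := M)
  rw [eq_div_iff hM.ne', mul_comm]
  unfold bf
  have h1 : ∀ h : ZMod M, (∑ i' ∈ range (H + 1), (1 / 2 : ℝ) ^ (((i' : ℤ) - i).natAbs) *
      (mm Q i' (Sing_xi h) - mm Q (i' + 1) (Sing_xi h))
      + (1 / 2 : ℝ) ^ (H + 1 - i) * mm Q (H + 1) (Sing_xi h)) * Sing_nF V h =
      ∑ i' ∈ range (H + 1), (1 / 2 : ℝ) ^ (((i' : ℤ) - i).natAbs) *
      (mm Q i' (Sing_xi h) * Sing_nF V h - mm Q (i' + 1) (Sing_xi h) * Sing_nF V h)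
      + (1 / 2 : ℝ) ^ (H + 1 - i) * (mm Q (H + 1) (Sing_xi h) * Sing_nF V h) := by
    intro h
    rw [add_mul, Finset.sum_mul]
    congr 1
    · refine Finset.sum_congr rfl fun i' _ => ?_
      ring
    · ring
  simp only [h1]
  rw [Finset.sum_add_distrib, Finset.sum_comm, ← Finset.mul_sum, ← Sing_qf, mul_add, Finset.mul_sum]
  congr 1
  · refine Finset.sum_congr rfl fun i' _ => ?_
    rw [← Finset.mul_sum, Finset.sum_sub_distrib, ← Sing_qf, ← Sing_qf]
    ring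
  · ring

theorem sing_band_real (Q k j b H : ℕ) (hQ : 1 ≤ Q) (hj : j ≤ k)
    (hk : 16 * Q ^ 4 * 16 ^ j ≤ 2 ^ k) (hH : k ≤ H) (S V : A M → ℝ) :
    |∑ c ∈ range (2 ^ k), ∑ u : A M,
        S u * (sm Q (k - j) V (u + th M (b * 2 ^ k + c))
          - sm Q (k - j + 1) V (u + th M (b * 2 ^ k + c)))| ≤
      2 ^ k * (100000 * (3 / 4 : ℝ) ^ j) *
        (Real.sqrt (bf Q H (k - j) S) * Real.sqrt (bf Q H (k - j) V)) := by
  have h := Sing_main S V (fun u => sm Q (k - j) V u - sm Q (k - j + 1) V u) (b * 2 ^ k) (2 ^ k)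
    Nat.one_le_two_pow
    (fun h => mm Q (k - j) (Sing_xi h) - mm Q (k - j + 1) (Sing_xi h))
    (fun h => ∑ i' ∈ range (H + 1), (1 / 2 : ℝ) ^ (((i' : ℤ) - ((k - j : ℕ) : ℤ)).natAbs) *
      (mm Q i' (Sing_xi h) - mm Q (i' + 1) (Sing_xi h))
      + (1 / 2 : ℝ) ^ (H + 1 - (k - j)) * mm Q (H + 1) (Sing_xi h))
    (100000 * (3 / 4 : ℝ) ^ j) (by positivity)
    (fun h => by
      refine add_nonneg (Finset.sum_nonneg fun i' _ => mul_nonneg (by positivity) ?_)
        (mul_nonneg (by positivity) (mm_nonneg _ _ _))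
      exact sub_nonneg.2 (mm_mono _ _ _))
    (fun n h => by
      rw [Sing_F_sub, Sing_smF, Sing_smF]
      push_cast
      ring)
    (fun h => by
      rw [abs_of_nonneg (sub_nonneg.2 (mm_mono _ _ _))]
      exact arc_band Q k j H hQ hj hk hH _)
  rw [← Sing_bf, ← Sing_bf] at h
  push_cast at h
  exact h

end

end NP2
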