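import Pool.Agent.NP2.Key
import Pool.Agent.NP2.Rem
import Pool.Agent.NP2.EndDef

/-!
# NP2 / ThA : theorem A (statement `ThmA` of EndDef)

`Xk F G k c u = ip (blk k (c/2^k)) (F u) (G (u + th c)) = XX F G k c u`.  `NJ δ x R K`: `R` successive
jumps `≥ δ` in `[0,K]`.

Proof.  WLOG `δ ≤ 1` (`NJ` is monotone in `δ`).  Take `e0` large (depending on `δ, η`), `e_i = 2^i e0`,
`δ_i = δ 2^(-i-5)`; then `(10^6 e_i/δ_i)^100 ≤ 2^(e_i)` for all `i` (for `i = 0` by the choice of `e0`; the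
left side grows by the factor `4^100` when `i` increases by one, the right side by
`2^(e_i) ≥ 2^200`).  Fix `K, M, F, G`.
Systems `D_i` of parameters `lamE e_i, tauE e_i` (`sys_exists`).  If `4000 e0 > K` there are at most
`K < R` jumps.  `Z_i k` = `Ztr` of the system `i`, at tied pairs.  Bad events:
(1) `key_main` for the pairs `(i, i+1)`, `4000 e_(i+1) ≤ K`, threshold `δ_i`: `10^26 2^(-e_i)`;
(2) for `k ∈ [4000 e0, K]` let `i(k)` be maximal with `4000 e_i ≤ k`, so `e_i ≥ k/8000`;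
    `|ip (F u) (rsd of the system i(k))| ≥ δ/32`: probability `≤ (1024/δ^2) 3000/sqrt(2^(80 e_i))`
    (`rem_single` with `a = 80 e_i`, Markov), summable over `k`, small for `e0` large;
(3) `tr ≥ Γ_i` for the `S`-object, some level: `54 · 2^(-80 e_i)` (`dead_S`);
(4) more than `R0` moves (`mvv`, `s = 1` for `u`, `s = 2` for `v`, system `0`, `ε0 = δ/(64 m0)`):
    probability `≤ 2 (1 + m0/ε0^2)/R0` (`mvv_count`).
Outside: for `k ≥ 4000 e0`, by `Ztr_T` (`z = 0`), `|Xk - Z_(i(k))| ≤ δ/32 + small`, and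
`|Z_(i+1) k - Z_i k| < δ_i` for `i < i(k)`, so `|Xk - Z_0| ≤ δ/8`, `|Z_0 - Zfr_0| ≤ 2 ε0 m0 = δ/32`;
`Zfr_0` changes only at moves.  `jumps_count` with `z = Zfr_0`.
-/

namespace NP2
open Finset

noncomputable section

variable {M : ℕ}

/-- the averages of the model -/
def Xk (F G : A M → ℕ → ℝ) (k c : ℕ) (u : A M) : ℝ :=
  ip (blk k (c / 2 ^ k)) (F u) (G (u + th M c))

private theorem change_of_ne (z : ℕ → ℝ) (a : ℕ) : ∀ n, z (a + n) ≠ z a →
    ∃ k, a ≤ k ∧ k < a + n ∧ z k ≠ z (k + 1) := by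
  intro n
  induction n with
  | zero => intro h; exact absurd rfl h
  | succ n ih =>
    intro h
    by_cases h1 : z (a + n) = z a
    · refine ⟨a + n, by omega, by omega, ?_⟩
      rw [h1]
      exact fun e => h e.symm
    · obtain ⟨k, hk1, hk2, hk3⟩ := ih h1
      exact ⟨k, hk1, by omega, hk3⟩

private theorem NJ_le (δ : ℝ) (x : ℕ → ℝ) : ∀ R K : ℕ, NJ δ x R K → R ≤ K := by
  intro R
  induction R with
  | zero => intro K _; exact Nat.zero_le _
  | succ R ih =>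
    rintro K ⟨k, l, h1, h2, -, h4⟩
    have := ih k h4
    omega

private theorem NJ_mono (δ δ' : ℝ) (h : δ' ≤ δ) (x : ℕ → ℝ) :
    ∀ R K : ℕ, NJ δ x R K → NJ δ' x R K := by
  intro R
  induction R with
  | zero => intro K _; trivial
  | succ R ih =>
    rintro K ⟨k, l, h1, h2, h3, h4⟩
    exact ⟨k, l, h1, h2, h.trans h3, ih k h4⟩

private theorem NJ_count (x z : ℕ → ℝ) (k0 : ℕ) (δ : ℝ) (hδ : 0 < δ) :
    ∀ R K : ℕ, (∀ k, k0 ≤ k → k ≤ K → |x k - z k| ≤ δ / 4) → NJ δ x R K →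
      R ≤ k0 + ((range K).filter (fun k => z k ≠ z (k + 1))).card := by
  intro R
  induction R with
  | zero => intro K _ _; exact Nat.zero_le _
  | succ R ih =>
    rintro K hxz ⟨k, l, h1, h2, h3, h4⟩
    rcases Nat.lt_or_ge k k0 with hk | hk
    · have := NJ_le δ x R k h4
      omega
    · have hih := ih k (fun j hj1 hj2 => hxz j hj1 (by omega)) h4
      have hne : z l ≠ z k := by
        intro e
        have a1 := hxz l (by omega) h2
        have a2 := hxz k hk (by omega)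
        rw [e] at a1
        rw [abs_le] at a1 a2
        have : |x l - x k| ≤ δ / 2 := by
          rw [abs_le]
          constructor <;> linarith [a1.1, a1.2, a2.1, a2.2]
        linarith
      obtain ⟨j, hj1, hj2, hj3⟩ := change_of_ne z k (l - k)
        (by rw [Nat.add_sub_cancel' h1.le]; exact hne)
      have hsub : insert j ((range k).filter (fun k => z k ≠ z (k + 1)))
          ⊆ (range K).filter (fun k => z k ≠ z (k + 1)) := by
        intro i hi
        rw [mem_insert] at hi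
        rw [mem_filter, mem_range]
        rcases hi with rfl | hi
        · exact ⟨by omega, hj3⟩
        · rw [mem_filter, mem_range] at hi
          exact ⟨by omega, hi.2⟩
      have hcard := card_le_card hsub
      rw [card_insert_of_notMem (by
        rw [mem_filter, mem_range]
        omega)] at hcard
      omega

/-- deterministic counting: `x` is `δ/4`-close to `z` on `[k0, K]`, `z` changes at most `r` times -/
theorem jumps_count (x z : ℕ → ℝ) (K k0 r : ℕ) (δ : ℝ) (hδ : 0 < δ)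
    (hxz : ∀ k, k0 ≤ k → k ≤ K → |x k - z k| ≤ δ / 4)
    (hz : ((range K).filter (fun k => z k ≠ z (k + 1))).card ≤ r) (R : ℕ) (hR : k0 + r + 2 ≤ R) :
    ¬ NJ δ x R K := by
  intro h
  have := NJ_count x z k0 δ hδ R K hxz h
  omega

theorem Xk_eq (F G : A M → ℕ → ℝ) (k c : ℕ) (u : A M) : Xk F G k c u = XX F G k c u := by
  unfold Xk XX ip
  rw [card_blk]
  unfold blk
  rw [sum_Ico_eq_sum_range]
  have h1 : (c / 2 ^ k + 1) * 2 ^ k - c / 2 ^ k * 2 ^ k = 2 ^ k := by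
    rw [add_mul, one_mul, Nat.add_sub_cancel_left]
  rw [h1]
  push_cast
  rfl

/-- choice of the first parameter -/
private theorem par_exists (δ η : ℝ) (hη : 0 < η) :
    ∃ e0 : ℕ, 200 ≤ e0 ∧ (10 ^ 6 * (e0 : ℝ) / (δ / 2 ^ 5)) ^ 100 ≤ 2 ^ e0 ∧
      10 ^ 30 * (1 / 2 : ℝ) ^ e0 ≤ η := by
  have h1 : Filter.Tendsto (fun n : ℕ => (10 ^ 6 / (δ / 2 ^ 5)) ^ 100 * ((n : ℝ) ^ 100 / 2 ^ n))
      Filter.atTop (nhds ((10 ^ 6 / (δ / 2 ^ 5)) ^ 100 * 0)) :=
    (tendsto_pow_const_div_const_pow_of_one_lt 100 (by norm_num)).const_mul _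
  rw [mul_zero] at h1
  have h2 : Filter.Tendsto (fun n : ℕ => 10 ^ 30 * (1 / 2 : ℝ) ^ n) Filter.atTop
      (nhds (10 ^ 30 * 0)) :=
    (tendsto_pow_atTop_nhds_zero_of_lt_one (by norm_num) (by norm_num)).const_mul _
  rw [mul_zero] at h2
  have e1 := h1.eventually (gt_mem_nhds (show (0 : ℝ) < 1 by norm_num))
  have e2 := h2.eventually (gt_mem_nhds hη)
  obtain ⟨n, hn1, hn2, hn3⟩ := (e1.and (e2.and (Filter.eventually_ge_atTop 200))).exists
  refine ⟨n, hn3, ?_, hn2.le⟩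
  have hp : (0 : ℝ) < 2 ^ n := by positivity
  have e3 : (10 ^ 6 * (n : ℝ) / (δ / 2 ^ 5)) ^ 100
      = ((10 ^ 6 / (δ / 2 ^ 5)) ^ 100 * ((n : ℝ) ^ 100 / 2 ^ n)) * 2 ^ n := by
    have : (10 ^ 6 * (n : ℝ) / (δ / 2 ^ 5)) = (10 ^ 6 / (δ / 2 ^ 5)) * n := by ring
    rw [this, mul_pow, mul_assoc, div_mul_cancel₀ _ hp.ne']
  rw [e3]
  calc _ ≤ 1 * (2 : ℝ) ^ n := mul_le_mul_of_nonneg_right hn1.le hp.le
    _ = 2 ^ n := one_mul _

/-- all the parameters -/
private theorem par_all (δ : ℝ) (e0 : ℕ) (he0 : 200 ≤ e0)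
    (h : (10 ^ 6 * (e0 : ℝ) / (δ / 2 ^ 5)) ^ 100 ≤ 2 ^ e0) (i : ℕ) :
    (10 ^ 6 * ((2 ^ i * e0 : ℕ) : ℝ) / (δ / 2 ^ (i + 5))) ^ 100 ≤ 2 ^ (2 ^ i * e0) := by
  induction i with
  | zero => simpa using h
  | succ i ih =>
    have e1 : 10 ^ 6 * ((2 ^ (i + 1) * e0 : ℕ) : ℝ) / (δ / 2 ^ (i + 1 + 5))
        = 4 * (10 ^ 6 * ((2 ^ i * e0 : ℕ) : ℝ) / (δ / 2 ^ (i + 5))) := by
      push_cast
      rw [show i + 1 + 5 = (i + 5) + 1 by ring,
        pow_succ (2 : ℝ) (i + 5), pow_succ (2 : ℝ) i]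
      rw [div_div_eq_mul_div, div_div_eq_mul_div]
      ring
    rw [e1, mul_pow]
    have h200 : 200 ≤ 2 ^ i * e0 := le_trans he0 (Nat.le_mul_of_pos_left _ (by positivity))
    have h4 : (4 : ℝ) ^ 100 = 2 ^ 200 := by
      rw [show (4 : ℝ) = 2 ^ 2 by norm_num, ← pow_mul]
    rw [h4]
    calc (2 : ℝ) ^ 200 * (10 ^ 6 * ((2 ^ i * e0 : ℕ) : ℝ) / (δ / 2 ^ (i + 5))) ^ 100
        ≤ 2 ^ 200 * 2 ^ (2 ^ i * e0) := mul_le_mul_of_nonneg_left ih (by positivity)
      _ = 2 ^ (200 + 2 ^ i * e0) := (pow_add (2 : ℝ) 200 (2 ^ i * e0)).symm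
      _ ≤ 2 ^ (2 ^ (i + 1) * e0) := by
          apply pow_le_pow_right₀ (by norm_num)
          rw [pow_succ]
          nlinarith [h200]

/-- consequences for one system -/
private theorem par_cons (δ : ℝ) (hδ : 0 < δ) (hδ1 : δ ≤ 1) (e i : ℕ) (he : 1 ≤ e)
    (h : (10 ^ 6 * (e : ℝ) / (δ / 2 ^ (i + 5))) ^ 100 ≤ 2 ^ e) :
    (1 / δ) ^ 2 ≤ 2 ^ e ∧ 10 ^ 6 * (e : ℝ) * (1 / 2) ^ e ≤ δ / 32 := by
  have he' : (1 : ℝ) ≤ e := by exact_mod_cast he
  set x := 10 ^ 6 * (e : ℝ) / (δ / 2 ^ (i + 5)) with hx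
  have hp : (32 : ℝ) ≤ 2 ^ (i + 5) := by
    calc (32 : ℝ) = 2 ^ 5 := by norm_num
      _ ≤ 2 ^ (i + 5) := pow_le_pow_right₀ (by norm_num) (by omega)
  have hx2 : 10 ^ 6 * (e : ℝ) * 32 / δ ≤ x := by
    rw [hx, div_div_eq_mul_div]
    apply div_le_div_of_nonneg_right _ hδ.le
    apply mul_le_mul_of_nonneg_left hp (by positivity)
  have hd1 : 1 ≤ 1 / δ := by
    rw [le_div_iff₀ hδ]
    linarith
  have hx3 : 1 / δ ≤ x := by
    refine le_trans ?_ hx2
    rw [div_le_div_iff_of_pos_right hδ]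
    nlinarith
  have hx1 : 1 ≤ x := le_trans hd1 hx3
  constructor
  · calc (1 / δ) ^ 2 ≤ x ^ 2 := pow_le_pow_left₀ (by linarith) hx3 2
      _ ≤ x ^ 100 := pow_le_pow_right₀ hx1 (by norm_num)
      _ ≤ 2 ^ e := h
  · have h3 : x ≤ 2 ^ e := le_trans (by
      calc x = x ^ 1 := (pow_one x).symm
        _ ≤ x ^ 100 := pow_le_pow_right₀ hx1 (by norm_num)) h
    have h4 : 10 ^ 6 * (e : ℝ) * 32 / δ ≤ 2 ^ e := le_trans hx2 h3
    rw [div_le_iff₀ hδ] at h4
    have h5 : (0 : ℝ) < 2 ^ e := by positivity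
    rw [one_div, inv_pow, ← div_eq_mul_inv, div_le_iff₀ h5]
    nlinarith

private theorem half_le (e m n : ℕ) (h : m ≤ n) : ((1 : ℝ) / 2) ^ (n * e) ≤ (1 / 2) ^ (m * e) :=
  pow_le_pow_of_le_one (by norm_num) (by norm_num) (Nat.mul_le_mul_right _ h)

private theorem ztr_err (δ : ℝ) (hδ : 0 < δ) (e : ℕ) (he : 1 ≤ e)
    (h : 10 ^ 6 * (e : ℝ) * (1 / 2) ^ e ≤ δ / 32) (t : ℝ) (ht : t < GamE e) :
    10 * tauE e * mE e + Real.sqrt (t / (2 ^ mE e * lamE e)) ≤ δ / 64 := by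
  have he' : (1 : ℝ) ≤ e := by exact_mod_cast he
  have hh : (0 : ℝ) < (1 / 2) ^ e := by positivity
  have hh2 : ((1 : ℝ) / 2) ^ e ≤ 1 / 2 := by
    calc ((1 : ℝ) / 2) ^ e ≤ (1 / 2) ^ 1 := pow_le_pow_of_le_one (by norm_num) (by norm_num) he
      _ = 1 / 2 := by norm_num
  have h1 : tauE e ≤ (1 / 2) ^ e * (1 / 2) := by
    unfold tauE
    calc ((1 : ℝ) / 2) ^ (16000 * e) ≤ (1 / 2) ^ (2 * e) := half_le e 2 16000 (by norm_num)
      _ = (1 / 2) ^ e * (1 / 2) ^ e := by rw [two_mul, pow_add]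
      _ ≤ _ := mul_le_mul_of_nonneg_left hh2 hh.le
  have h2 : 10 * tauE e * mE e ≤ δ / 100 := by
    unfold mE
    push_cast
    have : 10 * tauE e * (56000 * (e : ℝ)) ≤ 10 * ((1 / 2) ^ e * (1 / 2)) * (56000 * (e : ℝ)) := by
      apply mul_le_mul_of_nonneg_right _ (by positivity)
      linarith
    nlinarith
  have h3 : Real.sqrt (t / (2 ^ mE e * lamE e)) ≤ (1 / 2) ^ e := by
    apply Real.sqrt_le_iff.mpr
    refine ⟨hh.le, ?_⟩
    have hpos : (0 : ℝ) < 2 ^ mE e * lamE e := by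
      unfold lamE
      positivity
    rw [div_le_iff₀ hpos]
    have e1 : ((2 : ℝ) ^ mE e * lamE e) = 2 ^ (48000 * e) := by
      unfold mE lamE
      rw [show 56000 * e = 48000 * e + 8000 * e by ring, pow_add, mul_assoc, one_div, inv_pow,
        mul_inv_cancel₀ (by positivity), mul_one]
    rw [e1]
    have e2 : (((1 : ℝ) / 2) ^ e) ^ 2 * 2 ^ (48000 * e) = 2 ^ (47998 * e) := by
      rw [← pow_mul, show 48000 * e = e * 2 + 47998 * e by ring, pow_add, ← mul_assoc, one_div,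
        inv_pow, inv_mul_cancel₀ (by positivity), one_mul]
    rw [e2]
    unfold GamE at ht
    refine le_trans ht.le ?_
    exact pow_le_pow_right₀ (by norm_num) (Nat.mul_le_mul_right _ (by norm_num))
  nlinarith

private theorem lamE_pos (e : ℕ) : 0 < lamE e := by unfold lamE; positivity
private theorem lamE_le (e : ℕ) : lamE e ≤ 1 := by
  unfold lamE
  exact pow_le_one₀ (by norm_num) (by norm_num)
private theorem tauE_pos (e : ℕ) : 0 < tauE e := by unfold tauE; positivity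
private theorem tauE_le (e : ℕ) (he : 1 ≤ e) : tauE e ≤ 1 / 10 := by
  unfold tauE
  calc ((1 : ℝ) / 2) ^ (16000 * e) ≤ (1 / 2) ^ 4 :=
        pow_le_pow_of_le_one (by norm_num) (by norm_num) (by omega)
    _ ≤ 1 / 10 := by norm_num

section
variable [NeZero M]

open Classical in
/-- Markov at one scale -/
private theorem bad_single (K k e : ℕ) (he : 1 ≤ e) (hek : 4000 * e ≤ k) (hk : k ≤ K)
    (hM : 4 ^ K ∣ M) (F G : A M → ℕ → ℝ) (hF : ∀ u t, |F u t| ≤ 1) (hG : ∀ u t, |G u t| ≤ 1)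
    (D : Dict M) (hD : IsSys K F G (lamE e) (tauE e) D) (δ : ℝ) (hδ : 0 < δ)
    (hd : (1 / δ) ^ 2 ≤ 2 ^ e) :
    ex K (fun c (u : A M) => if δ / 32 < |ip (blk k (c / 2 ^ k)) (F u)
        (rsd (tauE e) D (lamE e) k (c / 2 ^ k) (pS (u + th M c)) (G (u + th M c)))|
        then (1 : ℝ) else 0) ≤ 1024 * 3000 * (1 / 2) ^ (39 * e) := by
  have h1 := rem_single K k (80 * e) (by omega) (by omega) hk hM F G hF hG (lamE e) (tauE e)
    (lamE_pos e) (by unfold lamE; rw [show 100 * (80 * e) = 8000 * e by ring]) D hD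
  have h2 : ex K (fun c (u : A M) => if δ / 32 < |ip (blk k (c / 2 ^ k)) (F u)
        (rsd (tauE e) D (lamE e) k (c / 2 ^ k) (pS (u + th M c)) (G (u + th M c)))|
        then (1 : ℝ) else 0) ≤ ex K (fun c (u : A M) => (1024 * (1 / δ) ^ 2) *
        ip (blk k (c / 2 ^ k)) (F u)
        (rsd (tauE e) D (lamE e) k (c / 2 ^ k) (pS (u + th M c)) (G (u + th M c))) ^ 2) := by
    apply ex_mono
    intro c _ u
    split_ifs with hc
    · have a1 : (δ / 32) ^ 2 ≤ |ip (blk k (c / 2 ^ k)) (F u)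
        (rsd (tauE e) D (lamE e) k (c / 2 ^ k) (pS (u + th M c)) (G (u + th M c)))| ^ 2 :=
        pow_le_pow_left₀ (by positivity) hc.le 2
      rw [sq_abs] at a1
      calc (1 : ℝ) = (1024 * (1 / δ) ^ 2) * (δ / 32) ^ 2 := by
            field_simp
            norm_num
        _ ≤ _ := mul_le_mul_of_nonneg_left a1 (by positivity)
    · positivity
  rw [ex_smul] at h2
  refine le_trans h2 ?_
  have h3 : Real.sqrt (2 ^ (80 * e)) = 2 ^ (40 * e) := by
    rw [show (2 : ℝ) ^ (80 * e) = (2 ^ (40 * e)) ^ 2 by rw [← pow_mul]; ring_nf]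
    exact Real.sqrt_sq (by positivity)
  rw [h3] at h1
  have h4 : 3000 / (2 : ℝ) ^ (40 * e) = 3000 * (1 / 2) ^ (40 * e) := by
    rw [one_div, inv_pow, div_eq_mul_inv]
  rw [h4] at h1
  have h5 : (2 : ℝ) ^ e * (1 / 2) ^ (40 * e) = (1 / 2) ^ (39 * e) := by
    rw [show 40 * e = e + 39 * e by ring, pow_add, ← mul_assoc, one_div, inv_pow,
      mul_inv_cancel₀ (by positivity), one_mul]
  have h6 : 0 ≤ 1024 * (1 / δ) ^ 2 := by positivity
  calc _ ≤ (1024 * (1 / δ) ^ 2) * (3000 * (1 / 2) ^ (40 * e)) := mul_le_mul_of_nonneg_left h1 h6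
    _ ≤ (1024 * 2 ^ e) * (3000 * (1 / 2) ^ (40 * e)) := by
        apply mul_le_mul_of_nonneg_right _ (by positivity)
        linarith
    _ = 1024 * 3000 * (2 ^ e * (1 / 2) ^ (40 * e)) := by ring
    _ = _ := by rw [h5]

open Classical in
/-- probability that the system is bad -/
private theorem bad_sys (K e : ℕ) (he : 1 ≤ e)
    (hM : 4 ^ K ∣ M) (F G : A M → ℕ → ℝ) (hF : ∀ u t, |F u t| ≤ 1) (hG : ∀ u t, |G u t| ≤ 1)
    (D : Dict M) (hD : IsSys K F G (lamE e) (tauE e) D) (δ : ℝ) (hδ : 0 < δ)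
    (hd : (1 / δ) ^ 2 ≤ 2 ^ e) :
    ex K (fun c (u : A M) => ∑ k ∈ (Icc (4000 * e) (8000 * e)).filter (fun k => k ≤ K),
        if δ / 32 < |ip (blk k (c / 2 ^ k)) (F u)
        (rsd (tauE e) D (lamE e) k (c / 2 ^ k) (pS (u + th M c)) (G (u + th M c)))|
        then (1 : ℝ) else 0) ≤ 10 ^ 15 * (1 / 2) ^ e := by
  rw [ex_sum]
  calc _ ≤ ∑ k ∈ (Icc (4000 * e) (8000 * e)).filter (fun k => k ≤ K),
        (1024 * 3000 * (1 / 2 : ℝ) ^ (39 * e)) := by
        apply sum_le_sum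
        intro k hk
        rw [mem_filter, mem_Icc] at hk
        exact bad_single K k e he hk.1.1 hk.2 hM F G hF hG D hD δ hδ hd
    _ ≤ ∑ k ∈ (Icc (4000 * e) (8000 * e)), (1024 * 3000 * (1 / 2 : ℝ) ^ (39 * e)) := by
        apply sum_le_sum_of_subset_of_nonneg (filter_subset _ _)
        intro k _ _
        positivity
    _ = ((8000 * e + 1 - 4000 * e : ℕ) : ℝ) * (1024 * 3000 * (1 / 2 : ℝ) ^ (39 * e)) := by
        rw [sum_const, Nat.card_Icc, nsmul_eq_mul]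
    _ ≤ (5000 * 2 ^ e) * (1024 * 3000 * (1 / 2 : ℝ) ^ (39 * e)) := by
        apply mul_le_mul_of_nonneg_right _ (by positivity)
        have h1 : 8000 * e + 1 - 4000 * e ≤ 5000 * 2 ^ e := by
          have : e < 2 ^ e := Nat.lt_two_pow_self
          omega
        exact_mod_cast h1
    _ = (5000 * 1024 * 3000) * (2 ^ e * (1 / 2 : ℝ) ^ (39 * e)) := by ring
    _ = (5000 * 1024 * 3000) * (1 / 2 : ℝ) ^ (38 * e) := by
        congr 1
        rw [show 39 * e = e + 38 * e by ring, pow_add, ← mul_assoc, one_div, inv_pow,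
          mul_inv_cancel₀ (by positivity), one_mul]
    _ ≤ 10 ^ 15 * (1 / 2) ^ e := by
        have := half_le e 1 38 (by norm_num)
        rw [one_mul] at this
        apply mul_le_mul (by norm_num) this (by positivity) (by norm_num)

end


section
variable [NeZero M]

omit [NeZero M] in
/-- moves of the frozen inner product -/
private theorem zfr_step (τ : ℝ) (D : Dict M) (lam : ℝ) (m : ℕ) (ε : ℝ) (K : ℕ) (y : ℕ → A M)
    (f : ℕ → ℝ) (y' : ℕ → A M) (g : ℕ → ℝ) (k c : ℕ) (hk : k < K)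
    (h1 : mvv 1 τ D lam m ε K y f k (c / 2 ^ k) = 0)
    (h2 : mvv 2 τ D lam m ε K y' g k (c / 2 ^ k) = 0) :
    Zfr τ D lam m ε K k (c / 2 ^ k) y f y' g
      = Zfr τ D lam m ε K (k + 1) (c / 2 ^ (k + 1)) y f y' g := by
  have e : c / 2 ^ (k + 1) = c / 2 ^ k / 2 := by
    rw [Nat.div_div_eq_div_mul, pow_succ]
  unfold Zfr
  rw [vec_step 1 τ D lam m ε K y f k (c / 2 ^ k) hk h1,
    vec_step 2 τ D lam m ε K y' g k (c / 2 ^ k) hk h2, e]

omit [NeZero M] in
open Classical in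
private theorem mvv01 (s τ : ℝ) (D : Dict M) (lam : ℝ) (m : ℕ) (ε : ℝ) (K : ℕ) (y : ℕ → A M)
    (f : ℕ → ℝ) (k b : ℕ) :
    mvv s τ D lam m ε K y f k b = 0 ∨ mvv s τ D lam m ε K y f k b = 1 := by
  unfold mvv
  split_ifs
  · right; rfl
  · left; rfl

omit [NeZero M] in
private theorem card_changes (τ : ℝ) (D : Dict M) (lam : ℝ) (m : ℕ) (ε : ℝ) (K : ℕ)
    (y : ℕ → A M) (f : ℕ → ℝ) (y' : ℕ → A M) (g : ℕ → ℝ) (c R0 : ℕ)
    (h1 : ∑ k ∈ range (K + 1), mvv 1 τ D lam m ε K y f k (c / 2 ^ k) ≤ R0)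
    (h2 : ∑ k ∈ range (K + 1), mvv 2 τ D lam m ε K y' g k (c / 2 ^ k) ≤ R0) :
    ((range K).filter (fun k => Zfr τ D lam m ε K k (c / 2 ^ k) y f y' g
      ≠ Zfr τ D lam m ε K (k + 1) (c / 2 ^ (k + 1)) y f y' g)).card ≤ 2 * R0 := by
  have h3 : (((range K).filter (fun k => Zfr τ D lam m ε K k (c / 2 ^ k) y f y' g
      ≠ Zfr τ D lam m ε K (k + 1) (c / 2 ^ (k + 1)) y f y' g)).card : ℝ)
      ≤ ∑ k ∈ range (K + 1), (mvv 1 τ D lam m ε K y f k (c / 2 ^ k)
        + mvv 2 τ D lam m ε K y' g k (c / 2 ^ k)) := by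
    rw [card_eq_sum_ones, Nat.cast_sum]
    have hsub : (range K).filter (fun k => Zfr τ D lam m ε K k (c / 2 ^ k) y f y' g
      ≠ Zfr τ D lam m ε K (k + 1) (c / 2 ^ (k + 1)) y f y' g) ⊆ range (K + 1) := by
      intro k hk
      rw [mem_filter, mem_range] at hk
      rw [mem_range]
      omega
    refine le_trans (sum_le_sum ?_) (sum_le_sum_of_subset_of_nonneg hsub ?_)
    · intro k hk
      rw [mem_filter, mem_range] at hk
      rcases mvv01 1 τ D lam m ε K y f k (c / 2 ^ k) with a | a <;>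
        rcases mvv01 2 τ D lam m ε K y' g k (c / 2 ^ k) with b | b
      · exact absurd (zfr_step τ D lam m ε K y f y' g k c hk.1 a b) hk.2
      all_goals rw [a, b]; norm_num
    · intro k _ _
      rcases mvv01 1 τ D lam m ε K y f k (c / 2 ^ k) with a | a <;>
        rcases mvv01 2 τ D lam m ε K y' g k (c / 2 ^ k) with b | b <;> rw [a, b] <;> norm_num
  rw [sum_add_distrib] at h3
  have h4 : (((range K).filter (fun k => Zfr τ D lam m ε K k (c / 2 ^ k) y f y' g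
      ≠ Zfr τ D lam m ε K (k + 1) (c / 2 ^ (k + 1)) y f y' g)).card : ℝ) ≤ ((2 * R0 : ℕ) : ℝ) := by
    push_cast
    linarith
  exact_mod_cast h4

/-- position of a scale among the systems -/
private theorem sys_index (e0 k : ℕ) (he0 : 1 ≤ e0) (hk : 4000 * e0 ≤ k) :
    ∃ i, 4000 * (2 ^ i * e0) ≤ k ∧ k < 4000 * (2 ^ (i + 1) * e0) := by
  have hpos : 0 < 4000 * e0 := by omega
  have hne : k / (4000 * e0) ≠ 0 := (Nat.div_pos hk hpos).ne'
  refine ⟨Nat.log 2 (k / (4000 * e0)), ?_, ?_⟩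
  · have h1 := Nat.pow_log_le_self 2 hne
    have h2 := (Nat.le_div_iff_mul_le hpos).mp h1
    calc _ = 2 ^ Nat.log 2 (k / (4000 * e0)) * (4000 * e0) := by ring
      _ ≤ k := h2
  · have h1 := Nat.lt_pow_succ_log_self (by norm_num : 1 < 2) (k / (4000 * e0))
    have h2 := (Nat.div_lt_iff_lt_mul hpos).mp h1
    calc k < 2 ^ (Nat.log 2 (k / (4000 * e0))).succ * (4000 * e0) := h2
      _ = _ := by rw [Nat.succ_eq_add_one]; ring

/-- the deterministic part -/
private theorem det (δ : ℝ) (hδ : 0 < δ) (e0 : ℕ) (he0 : 1 ≤ e0)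
    (hpar : ∀ i : ℕ, 10 ^ 6 * ((2 ^ i * e0 : ℕ) : ℝ) * (1 / 2) ^ (2 ^ i * e0) ≤ δ / 32)
    (K : ℕ) (F G : A M → ℕ → ℝ) (hF : ∀ u t, |F u t| ≤ 1) (hG : ∀ u t, |G u t| ≤ 1)
    (D : ℕ → Dict M) (c R0 : ℕ) (u : A M)
    (g1 : ∀ i k, 4000 * (2 ^ i * e0) ≤ k → k ≤ K →
        |Ztr (tauE (2 * (2 ^ i * e0))) (D (i + 1)) (lamE (2 * (2 ^ i * e0)))
              (mE (2 * (2 ^ i * e0))) k (c / 2 ^ k)
              (pT u) (F u) (pS (u + th M c)) (G (u + th M c))
            - Ztr (tauE (2 ^ i * e0)) (D i) (lamE (2 ^ i * e0)) (mE (2 ^ i * e0)) k (c / 2 ^ k)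
              (pT u) (F u) (pS (u + th M c)) (G (u + th M c))| ≤ δ / 2 ^ (i + 5))
    (g2 : ∀ i k, 4000 * (2 ^ i * e0) ≤ k → k ≤ 8000 * (2 ^ i * e0) → k ≤ K →
        |ip (blk k (c / 2 ^ k)) (F u)
          (rsd (tauE (2 ^ i * e0)) (D i) (lamE (2 ^ i * e0)) k (c / 2 ^ k) (pS (u + th M c))
            (G (u + th M c)))| ≤ δ / 32)
    (g3 : ∀ i k, 4000 * (2 ^ i * e0) ≤ k → k ≤ K →
        tr (tauE (2 ^ i * e0)) (D i) k (c / 2 ^ k) (pS (u + th M c)) < GamE (2 ^ i * e0))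
    (ε : ℝ) (hε : ε = δ / (64 * mE e0))
    (g4 : ∑ k ∈ range (K + 1), mvv 1 (tauE e0) (D 0) (lamE e0) (mE e0) ε K (pT u) (F u) k
        (c / 2 ^ k) ≤ R0)
    (g5 : ∑ k ∈ range (K + 1), mvv 2 (tauE e0) (D 0) (lamE e0) (mE e0) ε K (pS (u + th M c))
        (G (u + th M c)) k (c / 2 ^ k) ≤ R0) :
    ¬ NJ δ (fun k => Xk F G k c u) (4000 * e0 + 2 * R0 + 2) K := by
  have hm0 : (0 : ℝ) < mE e0 := by
    unfold mE
    have : (1 : ℝ) ≤ e0 := by exact_mod_cast he0
    push_cast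
    positivity
  have hεp : 0 < ε := by rw [hε]; positivity
  refine jumps_count (fun k => Xk F G k c u)
    (fun k => Zfr (tauE e0) (D 0) (lamE e0) (mE e0) ε K k (c / 2 ^ k) (pT u) (F u)
      (pS (u + th M c)) (G (u + th M c))) K (4000 * e0) (2 * R0) δ hδ ?_
    (card_changes (tauE e0) (D 0) (lamE e0) (mE e0) ε K (pT u) (F u) (pS (u + th M c))
      (G (u + th M c)) c R0 g4 g5) _ le_rfl
  intro k hk0 hkK
  show |Xk F G k c u - _| ≤ _
  obtain ⟨i, hi1, hi2⟩ := sys_index e0 k he0 hk0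
  have hei : 1 ≤ 2 ^ i * e0 := Nat.mul_pos (by positivity) he0
  have hmon : ∀ j ≤ i, 4000 * (2 ^ j * e0) ≤ k := by
    intro j hj
    refine le_trans ?_ hi1
    exact Nat.mul_le_mul_left _ (Nat.mul_le_mul_right _ (Nat.pow_le_pow_right (by norm_num) hj))
  -- comparison of the systems
  have hA : ∀ j ≤ i, |Ztr (tauE (2 ^ j * e0)) (D j) (lamE (2 ^ j * e0)) (mE (2 ^ j * e0)) k
        (c / 2 ^ k) (pT u) (F u) (pS (u + th M c)) (G (u + th M c))
      - Ztr (tauE e0) (D 0) (lamE e0) (mE e0) k (c / 2 ^ k) (pT u) (F u) (pS (u + th M c))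
        (G (u + th M c))| ≤ δ / 16 - δ / 2 ^ (j + 4) := by
    intro j
    induction j with
    | zero =>
      intro _
      simp only [pow_zero, one_mul, sub_self, abs_zero]
      norm_num
    | succ j ih =>
      intro hj
      have b1 := ih (by omega)
      have b2 := g1 j k (hmon j (by omega)) hkK
      have e1 : 2 * (2 ^ j * e0) = 2 ^ (j + 1) * e0 := by ring
      rw [e1] at b2
      have e2 : δ / 2 ^ (j + 4) - δ / 2 ^ (j + 5) = δ / 2 ^ (j + 1 + 4) := by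
        have h5 : δ / 2 ^ (j + 4) = 2 * (δ / 2 ^ (j + 5)) := by
          rw [show j + 5 = (j + 4) + 1 by ring, pow_succ (2 : ℝ) (j + 4)]
          field_simp
        rw [h5, show j + 1 + 4 = j + 5 by ring]
        ring
      have b3 := abs_sub_le (Ztr (tauE (2 ^ (j + 1) * e0)) (D (j + 1)) (lamE (2 ^ (j + 1) * e0))
        (mE (2 ^ (j + 1) * e0)) k (c / 2 ^ k) (pT u) (F u) (pS (u + th M c)) (G (u + th M c)))
        (Ztr (tauE (2 ^ j * e0)) (D j) (lamE (2 ^ j * e0)) (mE (2 ^ j * e0)) k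
        (c / 2 ^ k) (pT u) (F u) (pS (u + th M c)) (G (u + th M c)))
        (Ztr (tauE e0) (D 0) (lamE e0) (mE e0) k (c / 2 ^ k) (pT u) (F u) (pS (u + th M c))
        (G (u + th M c)))
      linarith
  have hA' := hA i le_rfl
  have hpi : 0 < δ / 2 ^ (i + 4) := by positivity
  -- comparison with the average
  have hB := Ztr_T (tauE (2 ^ i * e0)) (tauE_pos _).le (tauE_le _ hei) (D i) (lamE (2 ^ i * e0))
    (lamE_pos _) (mE (2 ^ i * e0)) k c u 0 (by simp) (F u) (G (u + th M c)) (hF u)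
    (hG (u + th M c))
  have hcs : u + th M c + cs M 0 = u + th M c := by
    have : cs M 0 = 0 := by
      unfold cs
      simp
    rw [this, add_zero]
  rw [hcs] at hB
  have hC := ztr_err δ hδ (2 ^ i * e0) hei (hpar i) _ (g3 i k hi1 hkK)
  have hi3 : 4000 * (2 ^ (i + 1) * e0) = 8000 * (2 ^ i * e0) := by ring
  have hD := g2 i k hi1 (by rw [hi3] at hi2; exact hi2.le) hkK
  have hE := Zfr_close (tauE e0) (D 0) (lamE e0) (lamE_pos _) (mE e0) ε hεp K k (c / 2 ^ k) hkK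
    (pT u) (F u) (hF u) (pS (u + th M c)) (G (u + th M c)) (hG (u + th M c))
  have hE2 : 2 * ε * mE e0 = δ / 32 := by
    rw [hε]
    field_simp
    norm_num
  rw [hE2] at hE
  have hB' := le_trans hB hC
  unfold Xk
  rw [abs_le] at hA' hB' hD hE ⊢
  constructor <;> linarith [hA'.1, hA'.2, hB'.1, hB'.2, hD.1, hD.2, hE.1, hE.2]

end


/-- average of the number of moves -/
private theorem ex_count [NeZero M] (K : ℕ) (B : ℝ) (h : ℕ → A M → ℝ)
    (hB : ∀ u, (∑ c ∈ range (2 ^ K), h c u) / 2 ^ K ≤ B) : ex K h ≤ B := by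
  unfold ex
  rw [sum_comm]
  have hM : (0 : ℝ) < (M : ℝ) ^ 2 := by
    have : (M : ℝ) ≠ 0 := by exact_mod_cast NeZero.ne M
    positivity
  have hK : (0 : ℝ) < 2 ^ K := by positivity
  rw [div_le_iff₀ (by positivity)]
  have h1 : ∑ u : A M, ∑ c ∈ range (2 ^ K), h c u ≤ ∑ _u : A M, B * 2 ^ K := by
    apply sum_le_sum
    intro u _
    have := hB u
    rwa [div_le_iff₀ hK] at this
  refine le_trans h1 (le_of_eq ?_)
  rw [sum_const, nsmul_eq_mul, card_univ, Fintype.card_prod, ZMod.card]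
  push_cast
  ring

open Classical in
private theorem thm_A_aux (δ η : ℝ) (hδ : 0 < δ) (hδ1 : δ ≤ 1) (hη : 0 < η) :
    ∃ R : ℕ, ∀ (K M : ℕ) [NeZero M], 4 ^ K ∣ M → ∀ F G : A M → ℕ → ℝ,
      (∀ u t, |F u t| ≤ 1) → (∀ u t, |G u t| ≤ 1) →
      ex K (fun c (u : A M) =>
        if NJ δ (fun k => Xk F G k c u) R K then (1 : ℝ) else 0) ≤ η := by
  obtain ⟨e0, h200, hp0, hη0⟩ := par_exists δ (η / 2) (by positivity)
  have hpa := par_all δ e0 h200 hp0
  have hei : ∀ i, 1 ≤ 2 ^ i * e0 := fun i => Nat.mul_pos (by positivity) (by omega)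
  have hpc := fun i => par_cons δ hδ hδ1 (2 ^ i * e0) i (hei i) (hpa i)
  obtain ⟨ε, hε⟩ : ∃ ε : ℝ, ε = δ / (64 * mE e0) := ⟨_, rfl⟩
  have hm0 : (0 : ℝ) < mE e0 := by
    unfold mE
    have : (1 : ℝ) ≤ e0 := by exact_mod_cast (by omega : 1 ≤ e0)
    push_cast
    positivity
  have hεp : 0 < ε := by rw [hε]; positivity
  obtain ⟨B, hBdef⟩ : ∃ B : ℝ, B = 1 + (mE e0 : ℝ) / ε ^ 2 := ⟨_, rfl⟩
  have hB0 : 0 < B := by rw [hBdef]; positivity
  obtain ⟨R0, hR0⟩ := exists_nat_gt (4 * B / η)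
  have hR0p : (0 : ℝ) < R0 := lt_of_le_of_lt (by positivity) hR0
  refine ⟨4000 * e0 + 2 * R0 + 2, ?_⟩
  intro K M _ hM F G hF hG
  have hsys : ∀ i, ∃ D : Dict M, IsSys K F G (lamE (2 ^ i * e0)) (tauE (2 ^ i * e0)) D :=
    fun i => sys_exists K F G hF hG _ _ (lamE_pos _) (lamE_le _) (tauE_pos _) (tauE_le _ (hei i))
  choose D hD using hsys
  -- the bad events
  let B1 : ℕ → ℕ → A M → ℝ := fun i c u =>
    if ∃ k, 4000 * (2 ^ i * e0) ≤ k ∧ k ≤ K ∧
        δ / 2 ^ (i + 5) ≤ |Ztr (tauE (2 * (2 ^ i * e0))) (D (i + 1)) (lamE (2 * (2 ^ i * e0)))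
              (mE (2 * (2 ^ i * e0))) k (c / 2 ^ k)
              (pT u) (F u) (pS (u + th M c)) (G (u + th M c))
            - Ztr (tauE (2 ^ i * e0)) (D i) (lamE (2 ^ i * e0)) (mE (2 ^ i * e0)) k (c / 2 ^ k)
              (pT u) (F u) (pS (u + th M c)) (G (u + th M c))| then (1 : ℝ) else 0
  let B2 : ℕ → ℕ → A M → ℝ := fun i c u =>
    ∑ k ∈ (Icc (4000 * (2 ^ i * e0)) (8000 * (2 ^ i * e0))).filter (fun k => k ≤ K),
        if δ / 32 < |ip (blk k (c / 2 ^ k)) (F u)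
        (rsd (tauE (2 ^ i * e0)) (D i) (lamE (2 ^ i * e0)) k (c / 2 ^ k) (pS (u + th M c))
          (G (u + th M c)))| then (1 : ℝ) else 0
  let B3' : ℕ → ℕ → A M → ℝ := fun i c v =>
    if ∃ k ≤ K, GamE (2 ^ i * e0) ≤ tr (tauE (2 ^ i * e0)) (D i) k (c / 2 ^ k) (pS v)
      then (1 : ℝ) else 0
  let B3 : ℕ → ℕ → A M → ℝ := fun i c u => B3' i c (u + th M c)
  let C4 : ℕ → A M → ℝ := fun c u =>
    ∑ k ∈ range (K + 1), mvv 1 (tauE e0) (D 0) (lamE e0) (mE e0) ε K (pT u) (F u) k (c / 2 ^ k)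
  let C5' : ℕ → A M → ℝ := fun c v =>
    ∑ k ∈ range (K + 1), mvv 2 (tauE e0) (D 0) (lamE e0) (mE e0) ε K (pS v) (G v) k (c / 2 ^ k)
  let C5 : ℕ → A M → ℝ := fun c u => C5' c (u + th M c)
  let S : Finset ℕ := (range (K + 1)).filter (fun i => 4000 * (2 ^ i * e0) ≤ K)
  have n1 : ∀ i c u, 0 ≤ B1 i c u := by
    intro i c u
    show (0 : ℝ) ≤ if _ then (1 : ℝ) else 0
    split_ifs <;> norm_num
  have n2 : ∀ i c u, 0 ≤ B2 i c u := by
    intro i c u
    apply sum_nonneg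
    intro k _
    split_ifs <;> norm_num
  have n3 : ∀ i c u, 0 ≤ B3 i c u := by
    intro i c u
    show (0 : ℝ) ≤ if _ then (1 : ℝ) else 0
    split_ifs <;> norm_num
  have n4 : ∀ c u, 0 ≤ C4 c u := by
    intro c u
    apply sum_nonneg
    intro k _
    rcases mvv01 1 (tauE e0) (D 0) (lamE e0) (mE e0) ε K (pT u) (F u) k (c / 2 ^ k) with a | a <;>
      rw [a] <;> norm_num
  have n5 : ∀ c u, 0 ≤ C5 c u := by
    intro c u
    apply sum_nonneg
    intro k _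
    rcases mvv01 2 (tauE e0) (D 0) (lamE e0) (mE e0) ε K (pS (u + th M c)) (G (u + th M c)) k
      (c / 2 ^ k) with a | a <;> rw [a] <;> norm_num
  have hpt : ∀ c < 2 ^ K, ∀ u : A M,
      (if NJ δ (fun k => Xk F G k c u) (4000 * e0 + 2 * R0 + 2) K then (1 : ℝ) else 0) ≤
      (∑ i ∈ S, (B1 i c u + B2 i c u + B3 i c u)) + (1 / R0 * C4 c u + 1 / R0 * C5 c u) := by
    intro c _ u
    have ns : ∀ i, 0 ≤ B1 i c u + B2 i c u + B3 i c u := fun i => by
      linarith [n1 i c u, n2 i c u, n3 i c u]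
    have nS : 0 ≤ ∑ i ∈ S, (B1 i c u + B2 i c u + B3 i c u) := sum_nonneg fun i _ => ns i
    have nR : (0 : ℝ) ≤ 1 / R0 := by positivity
    have n4' := mul_nonneg nR (n4 c u)
    have n5' := mul_nonneg nR (n5 c u)
    by_cases hbig : 1 ≤ (∑ i ∈ S, (B1 i c u + B2 i c u + B3 i c u))
        + (1 / R0 * C4 c u + 1 / R0 * C5 c u)
    · refine le_trans ?_ hbig
      split_ifs <;> norm_num
    · push Not at hbig
      have hS : ∀ i, 4000 * (2 ^ i * e0) ≤ K → B1 i c u + B2 i c u + B3 i c u < 1 := by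
        intro i hi
        have hiS : i ∈ S := by
          rw [mem_filter, mem_range]
          refine ⟨?_, hi⟩
          have h1 : i < 2 ^ i := Nat.lt_two_pow_self
          nlinarith [hei i]
        have h2 := single_le_sum (f := fun i => B1 i c u + B2 i c u + B3 i c u)
          (fun i _ => ns i) hiS
        linarith
      have hno : ¬ NJ δ (fun k => Xk F G k c u) (4000 * e0 + 2 * R0 + 2) K := by
        refine det δ hδ e0 (by omega) (fun i => (hpc i).2) K F G hF hG D c R0 u ?_ ?_ ?_ ε hε ?_ ?_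
        · intro i k hk hkK
          by_contra hcon
          push Not at hcon
          have h1 := hS i (le_trans hk hkK)
          have h2 : B1 i c u = 1 := if_pos ⟨k, hk, hkK, hcon.le⟩
          linarith [n2 i c u, n3 i c u]
        · intro i k hk hk8 hkK
          by_contra hcon
          push Not at hcon
          have h1 := hS i (le_trans hk hkK)
          have h2 : 1 ≤ B2 i c u := by
            have hmem : k ∈ (Icc (4000 * (2 ^ i * e0)) (8000 * (2 ^ i * e0))).filter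
                (fun k => k ≤ K) := by
              rw [mem_filter, mem_Icc]
              exact ⟨⟨hk, hk8⟩, hkK⟩
            have h3 := single_le_sum (f := fun k => if δ / 32 < |ip (blk k (c / 2 ^ k)) (F u)
              (rsd (tauE (2 ^ i * e0)) (D i) (lamE (2 ^ i * e0)) k (c / 2 ^ k) (pS (u + th M c))
              (G (u + th M c)))| then (1 : ℝ) else 0)
              (fun k _ => by split_ifs <;> norm_num) hmem
            simp only [if_pos hcon] at h3
            exact h3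
          linarith [n1 i c u, n3 i c u]
        · intro i k hk hkK
          by_contra hcon
          push Not at hcon
          have h1 := hS i (le_trans hk hkK)
          have h2 : B3 i c u = 1 := if_pos ⟨k, hkK, hcon⟩
          linarith [n1 i c u, n2 i c u]
        · have h1 : 1 / R0 * C4 c u < 1 := by linarith
          rw [div_mul_eq_mul_div, one_mul, div_lt_one hR0p] at h1
          exact h1.le
        · have h1 : 1 / R0 * C5 c u < 1 := by linarith
          rw [div_mul_eq_mul_div, one_mul, div_lt_one hR0p] at h1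
          exact h1.le
      rw [if_neg hno]
      linarith
  refine le_trans (ex_mono K _ _ hpt) ?_
  rw [ex_add K (fun c u => ∑ i ∈ S, (B1 i c u + B2 i c u + B3 i c u))
    (fun c u => 1 / R0 * C4 c u + 1 / R0 * C5 c u),
    ex_add K (fun c u => 1 / R0 * C4 c u) (fun c u => 1 / R0 * C5 c u),
    ex_smul K (1 / R0) C4, ex_smul K (1 / R0) C5,
    ex_sum S K (fun i c u => B1 i c u + B2 i c u + B3 i c u)]
  -- moves
  have m4 : ex K C4 ≤ B := by
    apply ex_count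
    intro u
    rw [hBdef]
    exact mvv_count 1 (tauE e0) le_rfl (D 0) (lamE e0) (lamE_pos _) (mE e0) ε hεp K (pT u) (F u)
      (hF u)
  have m5 : ex K C5 ≤ B := by
    have h1 : ex K C5 = ex K C5' := ex_shift K C5' (fun c => th M c)
    rw [h1]
    apply ex_count
    intro u
    rw [hBdef]
    exact mvv_count 2 (tauE e0) (by norm_num) (D 0) (lamE e0) (lamE_pos _) (mE e0) ε hεp K (pS u)
      (G u) (hG u)
  have m45 : 1 / R0 * ex K C4 + 1 / R0 * ex K C5 ≤ η / 2 := by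
    have h1 : 1 / (R0 : ℝ) * B ≤ η / 4 := by
      rw [div_lt_iff₀ hη] at hR0
      rw [div_mul_eq_mul_div, one_mul, div_le_iff₀ hR0p]
      linarith
    have h2 : (0 : ℝ) ≤ 1 / R0 := by positivity
    have h3 := mul_le_mul_of_nonneg_left m4 h2
    have h4 := mul_le_mul_of_nonneg_left m5 h2
    linarith
  -- one system
  have hone : ∀ i ∈ S, ex K (fun c u => B1 i c u + B2 i c u + B3 i c u)
      ≤ 10 ^ 29 * ((1 / 2) ^ e0 * (1 / 2) ^ i) := by
    intro i hi
    rw [mem_filter, mem_range] at hi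
    rw [ex_add K (fun c u => B1 i c u + B2 i c u) (fun c u => B3 i c u),
      ex_add K (fun c u => B1 i c u) (fun c u => B2 i c u)]
    have hdi : 0 < δ / 2 ^ (i + 5) := by positivity
    have hdi1 : δ / 2 ^ (i + 5) ≤ 1 := by
      rw [div_le_one (by positivity)]
      exact le_trans hδ1 (one_le_pow₀ (by norm_num))
    have e1 : 2 ^ (i + 1) * e0 = 2 * (2 ^ i * e0) := by ring
    have k1 : ex K (B1 i) ≤ 10 ^ 26 * (1 / 2) ^ (2 ^ i * e0) :=
      key_main K (2 ^ i * e0) (hei i) (δ / 2 ^ (i + 5)) hdi hdi1 (hpa i) hi.2 hM F G hF hG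
        (D i) (D (i + 1)) (hD i) (by rw [← e1]; exact hD (i + 1))
    have k2 : ex K (B2 i) ≤ 10 ^ 15 * (1 / 2) ^ (2 ^ i * e0) :=
      bad_sys K (2 ^ i * e0) (hei i) hM F G hF hG (D i) (hD i) δ hδ (hpc i).1
    have k3 : ex K (B3 i) ≤ 54 * (1 / 2) ^ (80 * (2 ^ i * e0)) := by
      have h1 : ex K (B3 i) = ex K (B3' i) := ex_shift K (B3' i) (fun c => th M c)
      rw [h1]
      exact dead_S K (2 ^ i * e0) (hei i) F G (D i) (hD i)
    have k4 : ((1 : ℝ) / 2) ^ (80 * (2 ^ i * e0)) ≤ (1 / 2) ^ (2 ^ i * e0) := by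
      have := half_le (2 ^ i * e0) 1 80 (by norm_num)
      rwa [one_mul] at this
    have k5 : ((1 : ℝ) / 2) ^ (2 ^ i * e0) ≤ (1 / 2) ^ e0 * (1 / 2) ^ i := by
      rw [← pow_add]
      apply pow_le_pow_of_le_one (by norm_num) (by norm_num)
      have h1 : i + 1 ≤ 2 ^ i := Nat.lt_two_pow_self
      nlinarith
    have k6 : (0 : ℝ) < (1 / 2) ^ (2 ^ i * e0) := by positivity
    calc ex K (fun c u => B1 i c u) + ex K (fun c u => B2 i c u) + ex K (fun c u => B3 i c u)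
        ≤ 10 ^ 26 * (1 / 2) ^ (2 ^ i * e0) + 10 ^ 15 * (1 / 2) ^ (2 ^ i * e0)
          + 54 * (1 / 2) ^ (2 ^ i * e0) := by
          have := mul_le_mul_of_nonneg_left k4 (by norm_num : (0 : ℝ) ≤ 54)
          exact add_le_add (add_le_add k1 k2) (le_trans k3 this)
      _ ≤ 10 ^ 29 * (1 / 2) ^ (2 ^ i * e0) := by nlinarith
      _ ≤ _ := mul_le_mul_of_nonneg_left k5 (by norm_num)
  have hsum : ∑ i ∈ S, ex K (fun c u => B1 i c u + B2 i c u + B3 i c u) ≤ η / 2 := by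
    calc _ ≤ ∑ i ∈ S, 10 ^ 29 * ((1 / 2 : ℝ) ^ e0 * (1 / 2) ^ i) := sum_le_sum hone
      _ ≤ ∑ i ∈ range (K + 1), 10 ^ 29 * ((1 / 2 : ℝ) ^ e0 * (1 / 2) ^ i) := by
          apply sum_le_sum_of_subset_of_nonneg (filter_subset _ _)
          intro i _ _
          positivity
      _ = 10 ^ 29 * ((1 / 2 : ℝ) ^ e0 * ∑ i ∈ range (K + 1), (1 / 2) ^ i) := by
          rw [← mul_sum, ← mul_sum]
      _ ≤ 10 ^ 29 * ((1 / 2 : ℝ) ^ e0 * 2) := by
          apply mul_le_mul_of_nonneg_left _ (by norm_num)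
          exact mul_le_mul_of_nonneg_left (sum_geometric_two_le _) (by positivity)
      _ ≤ 10 ^ 30 * (1 / 2) ^ e0 := by
          have : (0 : ℝ) < (1 / 2) ^ e0 := by positivity
          nlinarith
      _ ≤ η / 2 := hη0
  linarith

theorem thm_A : ThmA := by
  intro δ hδ η hη
  obtain ⟨R, hR⟩ := thm_A_aux (min δ 1) η (lt_min hδ one_pos) (min_le_right _ _) hη
  refine ⟨R, ?_⟩
  intro K M _ hM F G hF hG
  refine le_trans ?_ (hR K M hM F G hF hG)
  apply ex_mono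
  intro c _ u
  have h1 : NJ δ (fun k => XX F G k c u) R K → NJ (min δ 1) (fun k => Xk F G k c u) R K := by
    intro h
    have h2 : (fun k => Xk F G k c u) = (fun k => XX F G k c u) := by
      funext k
      exact Xk_eq F G k c u
    rw [h2]
    exact NJ_mono _ _ (min_le_left _ _) _ _ _ h
  by_cases h : NJ δ (fun k => XX F G k c u) R K
  · rw [if_pos h, if_pos (h1 h)]
  · rw [if_neg h]
    split_ifs <;> norm_num

end

end NP2
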