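import Pool.Agent.NP2.EndFin
import Pool.Agent.PWZ.NilFinal

/-!
# NP2 / Two : the statement for the hand-in, conditional on Theorem A

Two functions, `g_j(n) = T_1^(P_1j n) ⋯ T_d^(P_dj n)`.  Almost everywhere convergence if

* `g_j(n) = V_j ^ n` for all `n` and the commutator of `V_1`, `V_2` commutes with `V_1` and `V_2`
  (in particular: if the `T_i` commute and the `P_ij` are linear), or
* the `T_i` generate a nilpotent group, the `P_ij` are linear, one of the functions lies in the
  closed span of the functions on which the commutator subgroup acts by an invariant character,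
  and the other function has this property or its sequence is `V ^ n`.
-/

namespace NP2
open MeasureTheory
open scoped ENNReal commutatorElement

theorem two (hA : ThmA) (X : Type) [MeasurableSpace X] (μ : Measure X) [IsProbabilityMeasure μ]
    (d : ℕ) (T : Fin d → Equiv.Perm X)
    (hs : ∀ i, Measurable ⇑(T i).symm)
    (hT : ∀ i, MeasurePreserving (⇑(T i)) μ μ)
    (P : Fin d → Fin 2 → Polynomial ℤ) (hP0 : ∀ i j, (P i j).eval 0 = 0)
    (f : Fin 2 → X → ℂ) (hf : ∀ j, MemLp (f j) ∞ μ)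
    (h : (∃ V : Fin 2 → Equiv.Perm X,
          (∀ j, ∀ n : ℤ, (List.ofFn fun i : Fin d => T i ^ (P i j).eval n).prod = V j ^ n) ∧
          ∀ j, Commute ⁅V 0, V 1⁆ (V j)) ∨
        ((∀ i i', Commute (T i) (T i')) ∧ ∀ i j, (P i j).natDegree ≤ 1) ∨
        (Group.IsNilpotent (Subgroup.closure (Set.range T)) ∧
          (∀ i j, (P i j).natDegree ≤ 1) ∧
          ∃ j : Fin 2, Pool.PWZ.InE μ (Subgroup.closure (Set.range T)) (f j) ∧
            ∀ i, i ≠ j → Pool.PWZ.InE μ (Subgroup.closure (Set.range T)) (f i) ∨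
              ∃ V : Equiv.Perm X, ∀ n : ℤ,
                (List.ofFn fun l : Fin d => T l ^ (P l i).eval n).prod = V ^ n)) :
    ∀ᵐ x ∂μ, ∃ L : ℂ, Filter.Tendsto
      (fun N : ℕ => ((2 * N + 1 : ℕ) : ℂ)⁻¹ *
        ∑ n ∈ Finset.Icc (-(N : ℤ)) (N : ℤ),
          ∏ j : Fin 2, f j ((List.ofFn fun i : Fin d => T i ^ (P i j).eval n).prod x))
      Filter.atTop (nhds L) := by
  rcases h with ⟨V, hV, hVc⟩ | ⟨hc, hP1⟩ | ⟨hnil, hP1, j, hj, hi⟩
  · exact fin_nil2 hA μ d T hs hT P V hV hVc f hf
  · exact fin_comm hA μ d T hs hT hc P hP0 hP1 f hf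
  · exact Pool.PWZ.nil_final X μ d T hs hT hnil P hP0 hP1 f hf j hj hi

end NP2
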