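import Pool.Agent.NP2.Frz
import Pool.Agent.NP2.Rcmp
import Pool.Agent.NP2.Grd

/-!
# NP2 / Vec : the vectors of one system

`vec s` (`s = 1` for `T`-objects, `s = 2` for `S`-objects): coordinates
`sqrt(2^j lam) fz^(s 2^j lam)_i`, `j < m`, `i < D.n`.

* `vec_norm` : `2^j lam ∑ fz^2 ≤ 1/s ≤ 1` for each `j` (`fz_norm`).
* `Zfr` : inner product of the two vectors; `Ztr` : the same with the true ridge coefficients.
* `Zfr_close` : for each `j`, `μ = 2^j lam`: `μ |<ξ,η> - <ξ',η'>| ≤ μ (|ξ-ξ'| |η| + |ξ'| |η-η'|) ≤ 2 ε`.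
* `Ztr_T`, `Ztr_S` : `cmp_tele`, `cmp_same` with `col_ratio`.
* `mvv` : a move of one of the `m` coefficient vectors, or `k = K`.
-/

namespace NP2
open Finset

noncomputable section

variable {M : ℕ}

/-- vector of one system -/
def vec (s τ : ℝ) (D : Dict M) (lam : ℝ) (m : ℕ) (ε : ℝ) (K : ℕ) (y : ℕ → A M) (f : ℕ → ℝ)
    (k b : ℕ) : Fin m × Fin D.n → ℝ :=
  fun p => Real.sqrt (2 ^ (p.1 : ℕ) * lam) * fz τ D (s * (2 ^ (p.1 : ℕ) * lam)) ε K y f k b p.2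

open Classical in
/-- move indicator of the vector -/
def mvv (s τ : ℝ) (D : Dict M) (lam : ℝ) (m : ℕ) (ε : ℝ) (K : ℕ) (y : ℕ → A M) (f : ℕ → ℝ)
    (k b : ℕ) : ℝ :=
  if k = K ∨ ∃ j < m, mvf τ D (s * (2 ^ j * lam)) ε K y f k b = 1 then 1 else 0

/-- true inner product -/
def Ztr (τ : ℝ) (D : Dict M) (lam : ℝ) (m : ℕ) (k b : ℕ) (y : ℕ → A M) (f : ℕ → ℝ)
    (y' : ℕ → A M) (g : ℕ → ℝ) : ℝ :=
  ∑ j ∈ range m, (2 ^ j * lam) *
    ∑ i, xi τ D (2 ^ j * lam) k b y f i * xi τ D (2 * (2 ^ j * lam)) k b y' g i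

/-- frozen inner product -/
def Zfr (τ : ℝ) (D : Dict M) (lam : ℝ) (m : ℕ) (ε : ℝ) (K k b : ℕ) (y : ℕ → A M) (f : ℕ → ℝ)
    (y' : ℕ → A M) (g : ℕ → ℝ) : ℝ :=
  ∑ p, vec 1 τ D lam m ε K y f k b p * vec 2 τ D lam m ε K y' g k b p

private theorem vec_cs {ι : Type*} [Fintype ι] (μ A B : ℝ) (hμ : 0 ≤ μ) (hA : 0 ≤ A) (hB : 0 ≤ B)
    (a b : ι → ℝ) (ha : μ * ∑ i, a i ^ 2 ≤ A ^ 2) (hb : μ * ∑ i, b i ^ 2 ≤ B ^ 2) :
    |μ * ∑ i, a i * b i| ≤ A * B := by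
  refine abs_le_of_sq_le_sq ?_ (mul_nonneg hA hB)
  have h1 := sum_mul_sq_le_sq_mul_sq univ a b
  have h2 : 0 ≤ μ * ∑ i, b i ^ 2 := mul_nonneg hμ (sum_nonneg fun i _ => sq_nonneg _)
  calc (μ * ∑ i, a i * b i) ^ 2 = μ ^ 2 * (∑ i, a i * b i) ^ 2 := by ring
    _ ≤ μ ^ 2 * ((∑ i, a i ^ 2) * ∑ i, b i ^ 2) := mul_le_mul_of_nonneg_left h1 (sq_nonneg _)
    _ = (μ * ∑ i, a i ^ 2) * (μ * ∑ i, b i ^ 2) := by ring
    _ ≤ A ^ 2 * B ^ 2 := mul_le_mul ha hb h2 (sq_nonneg _)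
    _ = (A * B) ^ 2 := by ring

private theorem vec_mvf_cases (τ : ℝ) (D : Dict M) (μ ε : ℝ) (K : ℕ) (y : ℕ → A M) (f : ℕ → ℝ)
    (k b : ℕ) : mvf τ D μ ε K y f k b = 0 ∨ mvf τ D μ ε K y f k b = 1 := by
  unfold mvf
  split_ifs
  · exact Or.inr rfl
  · exact Or.inl rfl

private theorem vec_mvf_nonneg (τ : ℝ) (D : Dict M) (μ ε : ℝ) (K : ℕ) (y : ℕ → A M) (f : ℕ → ℝ)
    (k b : ℕ) : 0 ≤ mvf τ D μ ε K y f k b := by
  rcases vec_mvf_cases τ D μ ε K y f k b with h | h <;> rw [h]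
  norm_num

theorem vec_norm (s τ : ℝ) (hs : 1 ≤ s) (D : Dict M) (lam : ℝ) (hl : 0 < lam) (m : ℕ) (ε : ℝ)
    (K : ℕ) (y : ℕ → A M) (f : ℕ → ℝ) (hf : ∀ t, |f t| ≤ 1) (k b : ℕ) (hk : k ≤ K) :
    ∑ p, vec s τ D lam m ε K y f k b p ^ 2 ≤ m := by
  rw [Fintype.sum_prod_type]
  have h1 : ∀ j : Fin m, ∑ i : Fin D.n, vec s τ D lam m ε K y f k b (j, i) ^ 2 ≤ 1 := by
    intro j
    have hμ : 0 < 2 ^ (j : ℕ) * lam := by positivity
    have hsμ : 0 < s * (2 ^ (j : ℕ) * lam) := by positivity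
    have h2 := fz_norm τ D (s * (2 ^ (j : ℕ) * lam)) ε hsμ K y f hf k b hk
    have e : ∑ i : Fin D.n, vec s τ D lam m ε K y f k b (j, i) ^ 2
        = (2 ^ (j : ℕ) * lam) * ∑ i, fz τ D (s * (2 ^ (j : ℕ) * lam)) ε K y f k b i ^ 2 := by
      rw [mul_sum]
      refine sum_congr rfl fun i _ => ?_
      unfold vec
      rw [mul_pow, Real.sq_sqrt hμ.le]
    rw [e]
    have h3 : 0 ≤ (2 ^ (j : ℕ) * lam) * ∑ i, fz τ D (s * (2 ^ (j : ℕ) * lam)) ε K y f k b i ^ 2 :=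
      mul_nonneg hμ.le (sum_nonneg fun i _ => sq_nonneg _)
    nlinarith
  calc ∑ j : Fin m, ∑ i : Fin D.n, vec s τ D lam m ε K y f k b (j, i) ^ 2
      ≤ ∑ _j : Fin m, (1 : ℝ) := sum_le_sum fun j _ => h1 j
    _ = m := by simp

theorem vec_step (s τ : ℝ) (D : Dict M) (lam : ℝ) (m : ℕ) (ε : ℝ) (K : ℕ) (y : ℕ → A M)
    (f : ℕ → ℝ) (k b : ℕ) (hk : k < K) (h : mvv s τ D lam m ε K y f k b = 0) :
    vec s τ D lam m ε K y f k b = vec s τ D lam m ε K y f (k + 1) (b / 2) := by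
  have h1 : ¬ (k = K ∨ ∃ j < m, mvf τ D (s * (2 ^ j * lam)) ε K y f k b = 1) := by
    intro h2
    unfold mvv at h
    rw [if_pos h2] at h
    norm_num at h
  funext p
  obtain ⟨j, i⟩ := p
  unfold vec
  have h2 : mvf τ D (s * (2 ^ (j : ℕ) * lam)) ε K y f k b = 0 := by
    rcases vec_mvf_cases τ D (s * (2 ^ (j : ℕ) * lam)) ε K y f k b with h3 | h3
    · exact h3
    · exact absurd (Or.inr ⟨(j : ℕ), j.2, h3⟩) h1
  have h3 := fz_step τ D (s * (2 ^ (j : ℕ) * lam)) ε K y f k b hk h2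
  simp only [h3]

theorem mvv_count (s τ : ℝ) (hs : 1 ≤ s) (D : Dict M) (lam : ℝ) (hl : 0 < lam) (m : ℕ) (ε : ℝ)
    (hε : 0 < ε) (K : ℕ) (y : ℕ → A M) (f : ℕ → ℝ) (hf : ∀ t, |f t| ≤ 1) :
    (∑ c ∈ range (2 ^ K), ∑ k ∈ range (K + 1), mvv s τ D lam m ε K y f k (c / 2 ^ k)) / 2 ^ K ≤
      1 + m / ε ^ 2 := by
  have h2K : (0 : ℝ) < 2 ^ K := by positivity
  have hmv1 : ∀ k b, mvv s τ D lam m ε K y f k b ≤ 1 := by
    intro k b
    unfold mvv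
    split_ifs <;> norm_num
  have hmv2 : ∀ k b, k < K → mvv s τ D lam m ε K y f k b
      ≤ ∑ j ∈ range m, mvf τ D (s * (2 ^ j * lam)) ε K y f k b := by
    intro k b hk
    have h0 : ∀ j ∈ range m, 0 ≤ mvf τ D (s * (2 ^ j * lam)) ε K y f k b :=
      fun j _ => vec_mvf_nonneg _ _ _ _ _ _ _ _ _
    unfold mvv
    split_ifs with h
    · rcases h with h | ⟨j, hj, h⟩
      · omega
      · rw [← h]
        exact single_le_sum h0 (mem_range.2 hj)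
    · exact sum_nonneg h0
  have h1 : ∑ c ∈ range (2 ^ K), ∑ k ∈ range (K + 1), mvv s τ D lam m ε K y f k (c / 2 ^ k)
      ≤ ∑ c ∈ range (2 ^ K), ((∑ j ∈ range m, ∑ k ∈ range K,
          mvf τ D (s * (2 ^ j * lam)) ε K y f k (c / 2 ^ k)) + 1) := by
    refine sum_le_sum fun c _ => ?_
    rw [sum_range_succ]
    refine add_le_add ?_ (hmv1 _ _)
    rw [sum_comm]
    exact sum_le_sum fun k hk => hmv2 k _ (mem_range.1 hk)
  have h2 : ∑ c ∈ range (2 ^ K), ((∑ j ∈ range m, ∑ k ∈ range K,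
          mvf τ D (s * (2 ^ j * lam)) ε K y f k (c / 2 ^ k)) + 1)
      = (∑ j ∈ range m, ∑ c ∈ range (2 ^ K), ∑ k ∈ range K,
          mvf τ D (s * (2 ^ j * lam)) ε K y f k (c / 2 ^ k)) + 2 ^ K := by
    rw [sum_add_distrib, sum_comm]
    simp
  have h3 : ∀ j ∈ range m, (∑ c ∈ range (2 ^ K), ∑ k ∈ range K,
          mvf τ D (s * (2 ^ j * lam)) ε K y f k (c / 2 ^ k)) / 2 ^ K ≤ 1 / ε ^ 2 := by
    intro j _
    have hsμ : 0 < s * (2 ^ j * lam) := by positivity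
    have h4 := fz_count τ D (s * (2 ^ j * lam)) ε hsμ K y f hf
    rw [le_div_iff₀ (by positivity)]
    linarith
  have h4 : (∑ j ∈ range m, ∑ c ∈ range (2 ^ K), ∑ k ∈ range K,
          mvf τ D (s * (2 ^ j * lam)) ε K y f k (c / 2 ^ k)) / 2 ^ K ≤ m / ε ^ 2 := by
    rw [sum_div]
    refine (sum_le_sum h3).trans (le_of_eq ?_)
    rw [sum_const, card_range, nsmul_eq_mul]
    ring
  calc (∑ c ∈ range (2 ^ K), ∑ k ∈ range (K + 1), mvv s τ D lam m ε K y f k (c / 2 ^ k)) / 2 ^ K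
      ≤ ((∑ j ∈ range m, ∑ c ∈ range (2 ^ K), ∑ k ∈ range K,
          mvf τ D (s * (2 ^ j * lam)) ε K y f k (c / 2 ^ k)) + 2 ^ K) / 2 ^ K := by
        refine div_le_div_of_nonneg_right ?_ h2K.le
        rw [← h2]
        exact h1
    _ = (∑ j ∈ range m, ∑ c ∈ range (2 ^ K), ∑ k ∈ range K,
          mvf τ D (s * (2 ^ j * lam)) ε K y f k (c / 2 ^ k)) / 2 ^ K + 1 := by
        rw [add_div, div_self h2K.ne']
    _ ≤ 1 + m / ε ^ 2 := by linarith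

theorem Zfr_close (τ : ℝ) (D : Dict M) (lam : ℝ) (hl : 0 < lam) (m : ℕ) (ε : ℝ) (hε : 0 < ε)
    (K k b : ℕ) (hk : k ≤ K) (y : ℕ → A M) (f : ℕ → ℝ) (hf : ∀ t, |f t| ≤ 1)
    (y' : ℕ → A M) (g : ℕ → ℝ) (hg : ∀ t, |g t| ≤ 1) :
    |Zfr τ D lam m ε K k b y f y' g - Ztr τ D lam m k b y f y' g| ≤ 2 * ε * m := by
  have h1 : Zfr τ D lam m ε K k b y f y' g = ∑ j ∈ range m, (2 ^ j * lam) *
      ∑ i, fz τ D (2 ^ j * lam) ε K y f k b i * fz τ D (2 * (2 ^ j * lam)) ε K y' g k b i := by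
    unfold Zfr
    rw [Fintype.sum_prod_type, ← Fin.sum_univ_eq_sum_range (fun j => (2 ^ j * lam) *
      ∑ i, fz τ D (2 ^ j * lam) ε K y f k b i * fz τ D (2 * (2 ^ j * lam)) ε K y' g k b i) m]
    refine sum_congr rfl fun j _ => ?_
    rw [mul_sum]
    refine sum_congr rfl fun i _ => ?_
    have hμ : 0 < 2 ^ (j : ℕ) * lam := by positivity
    unfold vec
    rw [one_mul]
    calc Real.sqrt (2 ^ (j : ℕ) * lam) * fz τ D (2 ^ (j : ℕ) * lam) ε K y f k b i *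
          (Real.sqrt (2 ^ (j : ℕ) * lam) * fz τ D (2 * (2 ^ (j : ℕ) * lam)) ε K y' g k b i)
        = (Real.sqrt (2 ^ (j : ℕ) * lam) * Real.sqrt (2 ^ (j : ℕ) * lam)) *
          (fz τ D (2 ^ (j : ℕ) * lam) ε K y f k b i *
            fz τ D (2 * (2 ^ (j : ℕ) * lam)) ε K y' g k b i) := by ring
      _ = _ := by rw [Real.mul_self_sqrt hμ.le]
  rw [h1]
  unfold Ztr
  rw [← sum_sub_distrib]
  have h2 : ∀ j ∈ range m, |(2 ^ j * lam) *
      ∑ i, fz τ D (2 ^ j * lam) ε K y f k b i * fz τ D (2 * (2 ^ j * lam)) ε K y' g k b i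
      - (2 ^ j * lam) * ∑ i, xi τ D (2 ^ j * lam) k b y f i * xi τ D (2 * (2 ^ j * lam)) k b y' g i|
      ≤ 2 * ε := by
    intro j _
    have hμ : 0 < 2 ^ j * lam := by positivity
    have hμ2 : 0 < 2 * (2 ^ j * lam) := by positivity
    have a1 := fz_close τ D (2 ^ j * lam) ε hμ K y f k b hk
    have a2 := fz_close τ D (2 * (2 ^ j * lam)) ε hμ2 K y' g k b hk
    have a3 := fz_norm τ D (2 * (2 ^ j * lam)) ε hμ2 K y' g hg k b hk
    have a4 : (2 ^ j * lam) * ∑ i, xi τ D (2 ^ j * lam) k b y f i ^ 2 ≤ 1 :=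
      (rid_sq_le (blk k b) (col τ D k b y) (2 ^ j * lam) hμ f).trans (ip_le_one _ f hf)
    have p2 : 0 ≤ (2 ^ j * lam) *
        ∑ i, (fz τ D (2 * (2 ^ j * lam)) ε K y' g k b i - xi τ D (2 * (2 ^ j * lam)) k b y' g i) ^ 2 :=
      mul_nonneg hμ.le (sum_nonneg fun i _ => sq_nonneg _)
    have p3 : 0 ≤ (2 ^ j * lam) * ∑ i, fz τ D (2 * (2 ^ j * lam)) ε K y' g k b i ^ 2 :=
      mul_nonneg hμ.le (sum_nonneg fun i _ => sq_nonneg _)
    have b1 := vec_cs (2 ^ j * lam) ε 1 hμ.le hε.le zero_le_one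
      (fun i => fz τ D (2 ^ j * lam) ε K y f k b i - xi τ D (2 ^ j * lam) k b y f i)
      (fun i => fz τ D (2 * (2 ^ j * lam)) ε K y' g k b i) a1 (by linarith)
    have b2 := vec_cs (2 ^ j * lam) 1 ε hμ.le zero_le_one hε.le
      (fun i => xi τ D (2 ^ j * lam) k b y f i)
      (fun i => fz τ D (2 * (2 ^ j * lam)) ε K y' g k b i - xi τ D (2 * (2 ^ j * lam)) k b y' g i)
      (by linarith) (by linarith)
    have e : (2 ^ j * lam) *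
      ∑ i, fz τ D (2 ^ j * lam) ε K y f k b i * fz τ D (2 * (2 ^ j * lam)) ε K y' g k b i
      - (2 ^ j * lam) * ∑ i, xi τ D (2 ^ j * lam) k b y f i * xi τ D (2 * (2 ^ j * lam)) k b y' g i
      = (2 ^ j * lam) * ∑ i, (fz τ D (2 ^ j * lam) ε K y f k b i
            - xi τ D (2 ^ j * lam) k b y f i) * fz τ D (2 * (2 ^ j * lam)) ε K y' g k b i
        + (2 ^ j * lam) * ∑ i, xi τ D (2 ^ j * lam) k b y f i *
            (fz τ D (2 * (2 ^ j * lam)) ε K y' g k b i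
              - xi τ D (2 * (2 ^ j * lam)) k b y' g i) := by
      rw [← mul_sub, ← mul_add, ← sum_sub_distrib, ← sum_add_distrib]
      congr 1
      exact sum_congr rfl fun i _ => by ring
    rw [e]
    refine (abs_add_le _ _).trans ?_
    linarith
  calc |∑ j ∈ range m, ((2 ^ j * lam) *
      ∑ i, fz τ D (2 ^ j * lam) ε K y f k b i * fz τ D (2 * (2 ^ j * lam)) ε K y' g k b i
      - (2 ^ j * lam) * ∑ i, xi τ D (2 ^ j * lam) k b y f i * xi τ D (2 * (2 ^ j * lam)) k b y' g i)|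
      ≤ ∑ j ∈ range m, 2 * ε := (abs_sum_le_sum_abs _ _).trans (sum_le_sum h2)
    _ = 2 * ε * m := by
      rw [sum_const, card_range, nsmul_eq_mul]
      ring

section
variable [NeZero M]

/-- comparison for tied objects and central shifts, residual of the `S`-object -/
theorem Ztr_T (τ : ℝ) (h0 : 0 ≤ τ) (h1 : τ ≤ 1 / 10) (D : Dict M) (lam : ℝ) (hl : 0 < lam)
    (m : ℕ) (k c : ℕ) (u : A M) (z : ℤ) (hz : |z| ≤ 4 ^ k) (f g : ℕ → ℝ) (hf : ∀ t, |f t| ≤ 1)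
    (hg : ∀ t, |g t| ≤ 1) :
    |Ztr τ D lam m k (c / 2 ^ k) (pT u) f (pS (u + th M c + cs M z)) g
        - ip (blk k (c / 2 ^ k)) f g
        + ip (blk k (c / 2 ^ k)) f (rsd τ D lam k (c / 2 ^ k) (pS (u + th M c + cs M z)) g)| ≤
      10 * τ * m
        + Real.sqrt (tr τ D k (c / 2 ^ k) (pS (u + th M c + cs M z)) / (2 ^ m * lam)) := by
  obtain ⟨ρ, hρ, hb⟩ := col_ratio τ h0 h1 D k c u z hz
  exact cmp_tele (blk k (c / 2 ^ k)) (col τ D k (c / 2 ^ k) (pT u))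
    (col τ D k (c / 2 ^ k) (pS (u + th M c + cs M z))) ρ τ h0 h1 hρ hb f g
    (ip_le_one _ f hf) (ip_le_one _ g hg) lam hl m

/-- the same with the residual of the `T`-object -/
theorem Ztr_S (τ : ℝ) (h0 : 0 ≤ τ) (h1 : τ ≤ 1 / 10) (D : Dict M) (lam : ℝ) (hl : 0 < lam)
    (m : ℕ) (k c : ℕ) (u : A M) (z : ℤ) (hz : |z| ≤ 4 ^ k) (f g : ℕ → ℝ) (hf : ∀ t, |f t| ≤ 1)
    (hg : ∀ t, |g t| ≤ 1) :
    |Ztr τ D lam m k (c / 2 ^ k) (pT u) f (pS (u + th M c + cs M z)) g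
        - ip (blk k (c / 2 ^ k)) f g
        + ip (blk k (c / 2 ^ k)) g (rsd τ D lam k (c / 2 ^ k) (pT u) f)| ≤
      10 * τ * m + 5 * τ
        + Real.sqrt (tr τ D k (c / 2 ^ k) (pS (u + th M c + cs M z)) / (2 ^ m * lam)) := by
  have h2 := Ztr_T τ h0 h1 D lam hl m k c u z hz f g hf hg
  obtain ⟨ρ, hρ, hb⟩ := col_ratio τ h0 h1 D k c u z hz
  have h3 := cmp_same (blk k (c / 2 ^ k)) (col τ D k (c / 2 ^ k) (pT u))
    (col τ D k (c / 2 ^ k) (pS (u + th M c + cs M z))) ρ τ h0 h1 hρ hb f g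
    (ip_le_one _ f hf) (ip_le_one _ g hg) lam hl
  have h4 : |ip (blk k (c / 2 ^ k)) f
        (rsd τ D lam k (c / 2 ^ k) (pS (u + th M c + cs M z)) g)
      - ip (blk k (c / 2 ^ k)) g (rsd τ D lam k (c / 2 ^ k) (pT u) f)| ≤ 5 * τ := h3
  rw [abs_le] at *
  constructor
  · linarith [h2.1, h4.1, h4.2]
  · linarith [h2.2, h4.1, h4.2]

end

end

end NP2
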