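import Pool.Agent.NP2.Cnt

/-!
# NP2 / Win : the windows

`wT k b u = ⌊D k b u⌋₊`, `wS k b v = ⌊DS D k b v⌋₊` for the clock `D`.

* `ordT`, `ordS` : from `clk_tied`, `clk_mono`.
* `nearT` : let `m = wT k b u`, `|m - m'| ≤ 1`.  For `v` in the region (`v = u + th(l+c) + cs z`,
  `l = b 2^k`, `c < 2^k`, `|z| < 4^(k-j0)`) every `S`-move counted in
  `acc K (rs wS {m'} mS) (k+1) (b/2) v` has stamp `≥ m'`, while
  `DS_{k+1}(v) ≤ D_{k+1}(u) + 1/4 ≤ D_k(u) + 1/4 < m + 5/4 ≤ m' + 9/4`; hence it is recent and the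
  accumulation is at most `rS K mS D k b v`.  If `4 κ ≤ LL k b u` then `D_{k+1}(u) ≤ D_k(u) - 8` and
  the accumulation is zero (a stamp in window `m'` is `≤ D_{k+1}(u) + 1/4 < m - 6`).  Otherwise
  `LL k b u < 4 κ`; the map `(c,z) ↦ v` is injective (`4^K ≤ M`, `1 ≤ j0`), for every
  `c' < 2^k` the object `u' = v - th(l+c')` satisfies `nm k (co (u'-u)) ≤ 1`, so (`sum_le_av`)
  `∑_v rS v = 2^-k ∑_{c'} ∑_{u' in s_{c'}} rS (u' + th(l+c')) ≤ 25 Lam^3 8^k av(bb) u`
  (apply it to the function `u' ↦ rS(u'+th(l+c'))/2^k` for each `c'` and add), and each `v` has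
  weight at most `1/(2^k 4^(k-j0))` in the average.
* `nearS` : let `m' = wS k b v`, `|m - m'| ≤ 1`, region `u = v - th(l+c) - cs z`.  If the accumulation
  is nonzero at some `u0` of the region then `D_k(u0) < m' + 5/4 ≤ m + 9/4` and `m ≤ D_{k+1}(u0)`,
  so `LL k b u0 < 4 κ` by `clk_busy`, hence `LL k b (v - th l) ≤ 8 κ` (Harnack), all the moves
  counted are recent, and `sum_le_av` at `v - th l` applies to `rT`.
* `count` : Markov and `clk_count`.
-/

namespace NP2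
open Finset

noncomputable section

variable {M : ℕ} [NeZero M]

/-- restriction of a process to the moves with window in `I` -/
def rs {F : Type*} [Zero F] (w : ℕ → ℕ → A M → ℕ) (I : Finset ℕ) (p : ℕ → ℕ → A M → F) :
    ℕ → ℕ → A M → F := fun k b u => if w k b u ∈ I then p k b u else 0

/-- average over the tied objects of a block, with central smoothing -/
def locT (k i b : ℕ) (f : A M → ℝ) (u : A M) : ℝ :=
  (∑ c ∈ range (2 ^ k), ∑ j ∈ range (4 ^ i), ∑ j' ∈ range (4 ^ i),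
    f (u + th M (b * 2 ^ k + c) + cs M ((j : ℤ) - j'))) / (2 ^ k * ((4 : ℝ) ^ i) ^ 2)

/-- the same, seen from an `S`-object -/
def locS (k i b : ℕ) (f : A M → ℝ) (v : A M) : ℝ :=
  (∑ c ∈ range (2 ^ k), ∑ j ∈ range (4 ^ i), ∑ j' ∈ range (4 ^ i),
    f (v - th M (b * 2 ^ k + c) - cs M ((j : ℤ) - j'))) / (2 ^ k * ((4 : ℝ) ^ i) ^ 2)

/-- the properties of the windows -/
structure Windows (M K k1 : ℕ) [NeZero M] (κ : ℝ) (mT mS : ℕ → ℕ → A M → ℝ)
    (wT wS : ℕ → ℕ → A M → ℕ) : Prop where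
  ordT : ∀ k w, k ≤ w → w ≤ K → ∀ c < 2 ^ K, ∀ (u : A M) (z : ℤ), |z| ≤ 4 ^ k →
    wS w (c / 2 ^ w) (u + th M c + cs M z) ≤ wT k (c / 2 ^ k) u + 1
  ordS : ∀ k w, k ≤ w → w ≤ K → ∀ c < 2 ^ K, ∀ (u : A M) (z : ℤ), |z| ≤ 4 ^ k →
    wT w (c / 2 ^ w) u ≤ wS k (c / 2 ^ k) (u + th M c + cs M z) + 1
  mono : ∀ k w, k ≤ w → w ≤ K → ∀ c (u : A M), wT w (c / 2 ^ w) u ≤ wT k (c / 2 ^ k) u
  nearT : ∀ k ≤ K, ∀ j0, 1 ≤ j0 → j0 ≤ k → ∀ b (u : A M) (m' : ℕ),
    m' ≤ wT k b u + 1 → wT k b u ≤ m' + 1 →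
    locT k (k - j0) b (fun v => acc K (rs wS {m'} mS) (k + 1) (b / 2) v) u ≤
      200 * Lam ^ 3 * 4 ^ j0 * κ
  nearS : ∀ k ≤ K, ∀ j0, 1 ≤ j0 → j0 ≤ k → ∀ b (v : A M) (m : ℕ),
    m ≤ wS k b v + 1 → wS k b v ≤ m + 1 →
    locS k (k - j0) b (fun u => acc K (rs wT {m} mT) (k + 1) (b / 2) u) v ≤
      200 * Lam ^ 3 * 4 ^ j0 * κ
  count : ∀ N : ℕ, 1 ≤ N →
    ex K (fun c (u : A M) => if N ≤ wT k1 (c / 2 ^ k1) u then (1 : ℝ) else 0) ≤
      5000 * (totr K k1 mT + totr K k1 mS) / (κ * N)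

private theorem win_floor {x y : ℝ} (h : x ≤ y + 1 / 4) : ⌊x⌋₊ ≤ ⌊y⌋₊ + 1 := by
  have h1 : y < ⌊y⌋₊ + 1 := Nat.lt_floor_add_one y
  have h2 : ⌊x⌋₊ < ⌊y⌋₊ + 2 := by
    rw [Nat.floor_lt' (by omega)]
    push_cast
    linarith
  omega

private theorem win_idx (k w b : ℕ) (h : k + 1 ≤ w) :
    b / 2 / 2 ^ (w - (k + 1)) = b / 2 ^ (w - k) := by
  rw [Nat.div_div_eq_div_mul]
  congr 1
  rw [← pow_succ']
  congr 1
  omega

private theorem win_path (k w b c : ℕ) (hc : c < 2 ^ k) (h : k ≤ w) :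
    (b * 2 ^ k + c) / 2 ^ w = b / 2 ^ (w - k) := by
  have h1 : 2 ^ w = 2 ^ k * 2 ^ (w - k) := by rw [← pow_add]; congr 1; omega
  rw [h1, ← Nat.div_div_eq_div_mul]
  congr 1
  rw [Nat.add_comm, Nat.add_mul_div_right _ _ (by positivity), Nat.div_eq_of_lt hc, zero_add]

private theorem win_acc (K k b : ℕ) (p : ℕ → ℕ → A M → ℝ) (u : A M) :
    acc K p (k + 1) (b / 2) u = ∑ w ∈ Icc (k + 1) K, p w (b / 2 ^ (w - k)) u := by
  unfold acc
  refine Finset.sum_congr rfl fun w hw => ?_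
  rw [win_idx k w b (Finset.mem_Icc.1 hw).1]

private theorem win_tied {K : ℕ} {κ : ℝ} {mT mS D : ℕ → ℕ → A M → ℝ} (h : IsClock K κ mT mS D)
    (k w : ℕ) (hkw : k ≤ w) (hw : w ≤ K + 1) (b c : ℕ) (hc : c < 2 ^ k) (u : A M) (z : ℤ)
    (hz : |z| ≤ 4 ^ k) :
    |DS D w (b / 2 ^ (w - k)) (u + th M (b * 2 ^ k + c) + cs M z) - D w (b / 2 ^ (w - k)) u|
      ≤ 1 / 4 := by
  have h1 := clk_tied h w hw (b * 2 ^ k + c) u z
    (hz.trans (pow_le_pow_right₀ (by norm_num) hkw))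
  rwa [win_path k w b c hc hkw] at h1

private theorem win_mono {K : ℕ} {κ : ℝ} {mT mS D : ℕ → ℕ → A M → ℝ} (h : IsClock K κ mT mS D)
    (k w : ℕ) (hkw : k + 1 ≤ w) (hw : w ≤ K) (b : ℕ) (u : A M) :
    D w (b / 2 ^ (w - k)) u ≤ D (k + 1) (b / 2) u := by
  have h1 := clk_mono h (k + 1) w hkw (by omega) (b * 2 ^ k) u
  have h2 := win_path k w b 0 (by positivity) (by omega)
  have h3 := win_path k (k + 1) b 0 (by positivity) (by omega)
  rw [Nat.add_zero] at h2 h3
  rw [h2, h3] at h1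
  have h4 : k + 1 - k = 1 := by omega
  rw [h4, pow_one] at h1
  exact h1

private theorem win_jj (n : ℕ) (g : ℤ → ℝ) (hg : ∀ z, 0 ≤ g z) :
    ∑ j ∈ range n, ∑ j' ∈ range n, g ((j : ℤ) - j') ≤ n * ∑ z ∈ Ioo (-(n : ℤ)) n, g z := by
  rw [Finset.sum_comm]
  have h1 : ∀ j' ∈ range n, ∑ j ∈ range n, g ((j : ℤ) - j') ≤ ∑ z ∈ Ioo (-(n : ℤ)) n, g z := by
    intro j' hj'
    have hinj : Set.InjOn (fun j : ℕ => (j : ℤ) - j') (range n : Set ℕ) := by
      intro a _ b _ hab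
      simp only at hab
      omega
    rw [← Finset.sum_image (f := g) (s := range n) (g := fun j : ℕ => (j : ℤ) - j') hinj]
    refine Finset.sum_le_sum_of_subset_of_nonneg ?_ fun z _ _ => hg z
    intro z hz
    rw [Finset.mem_image] at hz
    obtain ⟨j, hj, rfl⟩ := hz
    rw [Finset.mem_range] at hj hj'
    rw [Finset.mem_Ioo]
    omega
  calc ∑ j' ∈ range n, ∑ j ∈ range n, g ((j : ℤ) - j')
      ≤ ∑ j' ∈ range n, ∑ z ∈ Ioo (-(n : ℤ)) n, g z := Finset.sum_le_sum h1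
    _ = n * ∑ z ∈ Ioo (-(n : ℤ)) n, g z := by rw [Finset.sum_const, card_range, nsmul_eq_mul]

private theorem win_inj (K k i l : ℕ) (hk : k ≤ K) (hi : i + 1 ≤ K) (hM : 4 ^ K ≤ M)
    (c1 c2 : ℕ) (z1 z2 : ℤ) (h1 : c1 < 2 ^ k) (h2 : c2 < 2 ^ k)
    (hz1 : z1 ∈ Ioo (-((4 ^ i : ℕ) : ℤ)) ((4 ^ i : ℕ) : ℤ))
    (hz2 : z2 ∈ Ioo (-((4 ^ i : ℕ) : ℤ)) ((4 ^ i : ℕ) : ℤ))
    (h : th M (l + c1) + cs M z1 = th M (l + c2) + cs M z2) : c1 = c2 ∧ z1 = z2 := by
  have hpow : 2 ^ k ≤ M := by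
    calc 2 ^ k ≤ 4 ^ k := Nat.pow_le_pow_left (by norm_num) k
      _ ≤ 4 ^ K := Nat.pow_le_pow_right (by norm_num) hk
      _ ≤ M := hM
  have hf := congrArg Prod.fst h
  have hs := congrArg Prod.snd h
  simp only [th, cs, Prod.fst_add, Prod.snd_add, add_zero] at hf hs
  have hc : c1 = c2 := by
    have h3 := (ZMod.natCast_eq_natCast_iff _ _ _).1 hf
    have h4 : c1 ≡ c2 [MOD M] := Nat.ModEq.add_left_cancel' l h3
    exact Nat.ModEq.eq_of_lt_of_lt h4 (by omega) (by omega)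
  subst hc
  refine ⟨rfl, ?_⟩
  have h5 : ((z1 : ℤ) : ZMod M) = ((z2 : ℤ) : ZMod M) := add_left_cancel hs
  have h6 := (ZMod.intCast_eq_intCast_iff _ _ _).1 h5
  have h7 : (M : ℤ) ∣ z2 - z1 := h6.dvd
  have h8 : 4 * 4 ^ i ≤ M := by
    calc 4 * 4 ^ i = 4 ^ (i + 1) := by rw [pow_succ']
      _ ≤ 4 ^ K := Nat.pow_le_pow_right (by norm_num) hi
      _ ≤ M := hM
  rw [Finset.mem_Ioo] at hz1 hz2
  have h9 : 0 < 4 ^ i := by positivity
  have h10 : z2 - z1 = 0 := by
    refine Int.eq_zero_of_abs_lt_dvd h7 ?_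
    rw [abs_lt]
    constructor <;> omega
  omega

private theorem win_nm_th (k c : ℕ) (hc : c < 2 ^ k) :
    nm k (th M c) ≤ 1 / 100000 + 1 / 100000 := by
  have hp : (0 : ℝ) < 2 ^ k := by positivity
  have hc' : (c : ℝ) ≤ 2 ^ k := by exact_mod_cast hc.le
  have h1 : az ((c : ℕ) : ZMod M) ≤ 2 ^ k := (az_nat_le c).trans hc'
  have h2 : az (((c.choose 2 : ℕ)) : ZMod M) ≤ (2 ^ k) ^ 2 := by
    refine (az_nat_le _).trans ?_
    have h3 : c.choose 2 ≤ c ^ 2 := Nat.choose_le_pow c 2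
    calc ((c.choose 2 : ℕ) : ℝ) ≤ ((c ^ 2 : ℕ) : ℝ) := by exact_mod_cast h3
      _ = (c : ℝ) ^ 2 := by push_cast; ring
      _ ≤ (2 ^ k) ^ 2 := by gcongr
  unfold nm th
  simp only [Lam]
  refine add_le_add ?_ ?_
  · rw [div_le_iff₀ (by positivity)]
    nlinarith
  · rw [div_le_iff₀ (by positivity)]
    nlinarith [sq_nonneg ((2 : ℝ) ^ k), pow_pos hp 2]

private theorem win_nm_cs (k : ℕ) (z : ℤ) (hz : |z| ≤ 4 ^ k) :
    nm k (cs M z) ≤ 1 / 100000 := by
  have h1 : az ((z : ℤ) : ZMod M) ≤ 4 ^ k := by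
    refine (az_int_le z).trans ?_
    have : |(z : ℝ)| = ((|z| : ℤ) : ℝ) := by push_cast; rfl
    rw [this]
    exact_mod_cast hz
  have h4 : (4 : ℝ) ^ k = (2 ^ k) ^ 2 := by
    rw [← pow_mul, mul_comm, pow_mul]; norm_num
  have hp : (0 : ℝ) < 2 ^ k := by positivity
  unfold nm cs
  simp only [Lam, az_zero, zero_div, zero_add]
  rw [div_le_iff₀ (by positivity)]
  rw [h4] at h1
  nlinarith [pow_pos hp 2]

private theorem win_sum (k i l : ℕ) (f : A M → ℝ) (hf : ∀ u, 0 ≤ f u) (u : A M)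
    (φ : ℕ × ℤ → A M)
    (hinj : Set.InjOn φ
      (range (2 ^ k) ×ˢ Ioo (-((4 ^ i : ℕ) : ℤ)) ((4 ^ i : ℕ) : ℤ) : Finset (ℕ × ℤ)))
    (hφ : ∀ p ∈ range (2 ^ k) ×ˢ Ioo (-((4 ^ i : ℕ) : ℤ)) ((4 ^ i : ℕ) : ℤ),
      nm k (co M l (φ p - u)) ≤ 1) :
    ∑ p ∈ range (2 ^ k) ×ˢ Ioo (-((4 ^ i : ℕ) : ℤ)) ((4 ^ i : ℕ) : ℤ), f (φ p) ≤
      25 * Lam ^ 3 * 8 ^ k * av k l f u := by
  rw [← Finset.sum_image (f := f) hinj]
  refine sum_le_av k l f hf u _ fun w hw => ?_
  rw [Finset.mem_image] at hw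
  obtain ⟨p, hp, rfl⟩ := hw
  exact hφ p hp

private theorem win_avsum (k l : ℕ) (s : Finset ℕ) (f : ℕ → A M → ℝ) (n : ℝ) (u : A M) :
    (∑ c ∈ s, av k l (f c) u) / n = av k l (fun u => (∑ c ∈ s, f c u) / n) u := by
  unfold av
  rw [← Finset.sum_div, Finset.sum_comm]
  rw [div_div, mul_comm (kz M k) n, ← div_div]
  congr 1
  rw [Finset.sum_div]
  refine Finset.sum_congr rfl fun δ _ => ?_
  rw [← Finset.mul_sum, mul_div_assoc]

private theorem win_loc (k i : ℕ) (F : ℕ → ℤ → ℝ) (hF : ∀ c z, 0 ≤ F c z) :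
    (∑ c ∈ range (2 ^ k), ∑ j ∈ range (4 ^ i), ∑ j' ∈ range (4 ^ i), F c ((j : ℤ) - j')) /
        (2 ^ k * ((4 : ℝ) ^ i) ^ 2) ≤
      (∑ p ∈ range (2 ^ k) ×ˢ Ioo (-((4 ^ i : ℕ) : ℤ)) ((4 ^ i : ℕ) : ℤ), F p.1 p.2) /
        (2 ^ k * (4 : ℝ) ^ i) := by
  have h1 : ∑ c ∈ range (2 ^ k), ∑ j ∈ range (4 ^ i), ∑ j' ∈ range (4 ^ i), F c ((j : ℤ) - j') ≤
      (4 : ℝ) ^ i *
        ∑ p ∈ range (2 ^ k) ×ˢ Ioo (-((4 ^ i : ℕ) : ℤ)) ((4 ^ i : ℕ) : ℤ), F p.1 p.2 := by
    rw [Finset.sum_product, Finset.mul_sum]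
    refine Finset.sum_le_sum fun c _ => ?_
    refine (win_jj (4 ^ i) (F c) (hF c)).trans (le_of_eq ?_)
    push_cast
    rfl
  have h4 : (0 : ℝ) < 4 ^ i := by positivity
  have h2 : (0 : ℝ) < 2 ^ k := by positivity
  rw [div_le_div_iff₀ (by positivity) (by positivity)]
  nlinarith [mul_le_mul_of_nonneg_right h1 (mul_pos h2 h4).le]

private theorem win_pow (k j0 : ℕ) (h : j0 ≤ k) (x : ℝ) :
    25 * Lam ^ 3 * 8 ^ k * x / (2 ^ k * (4 : ℝ) ^ (k - j0)) = 25 * Lam ^ 3 * 4 ^ j0 * x := by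
  have h1 : (8 : ℝ) ^ k = 2 ^ k * 4 ^ (k - j0) * 4 ^ j0 := by
    rw [mul_assoc, ← pow_add, Nat.sub_add_cancel h, ← mul_pow]; norm_num
  have h2 : (0 : ℝ) < 2 ^ k * (4 : ℝ) ^ (k - j0) := by positivity
  rw [h1, div_eq_iff h2.ne']
  ring

private theorem win_lam : (0 : ℝ) ≤ Lam := by unfold Lam; norm_num

private theorem win_rT0 {K : ℕ} {mT D : ℕ → ℕ → A M → ℝ} (hT : ∀ k b u, 0 ≤ mT k b u)
    (k b : ℕ) (u : A M) : 0 ≤ rT K mT D k b u := by
  unfold rT
  refine add_nonneg (hT _ _ _) (Finset.sum_nonneg fun w _ => ?_)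
  split_ifs
  · exact hT _ _ _
  · exact le_rfl

private theorem win_rS0 {K : ℕ} {mS D : ℕ → ℕ → A M → ℝ} (hS : ∀ k b u, 0 ≤ mS k b u)
    (k b : ℕ) (u : A M) : 0 ≤ rS K mS D k b u := by
  unfold rS
  refine add_nonneg (hS _ _ _) (Finset.sum_nonneg fun w _ => ?_)
  split_ifs
  · exact hS _ _ _
  · exact le_rfl

private theorem win_nearT {K : ℕ} {κ : ℝ} {mT mS D : ℕ → ℕ → A M → ℝ} (h : IsClock K κ mT mS D)
    (hκ : 0 < κ) (hT : ∀ k b u, 0 ≤ mT k b u) (hS : ∀ k b u, 0 ≤ mS k b u) (hM : 4 ^ K ≤ M)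
    (k : ℕ) (hk : k ≤ K) (j0 : ℕ) (h1 : 1 ≤ j0) (h2 : j0 ≤ k) (b : ℕ) (u : A M) (m' : ℕ)
    (hm1 : m' ≤ ⌊D k b u⌋₊ + 1) (hm2 : ⌊D k b u⌋₊ ≤ m' + 1) :
    locT k (k - j0) b
      (fun v => acc K (rs (fun k b v => ⌊DS D k b v⌋₊) {m'} mS) (k + 1) (b / 2) v) u ≤
      200 * Lam ^ 3 * 4 ^ j0 * κ := by
  set g : A M → ℝ :=
    fun v => acc K (rs (fun k b v => ⌊DS D k b v⌋₊) {m'} mS) (k + 1) (b / 2) v with hg
  have hgdef : ∀ v, g v = ∑ w ∈ Icc (k + 1) K,
      (if ⌊DS D w (b / 2 ^ (w - k)) v⌋₊ = m' then mS w (b / 2 ^ (w - k)) v else 0) := by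
    intro v
    rw [hg]
    simp only
    rw [win_acc]
    refine Finset.sum_congr rfl fun w _ => ?_
    unfold rs
    simp only [Finset.mem_singleton]
  have hD1 : D k b u < ⌊D k b u⌋₊ + 1 := Nat.lt_floor_add_one _
  have hm1' : (m' : ℝ) ≤ (⌊D k b u⌋₊ : ℝ) + 1 := by exact_mod_cast hm1
  have hm2' : (⌊D k b u⌋₊ : ℝ) ≤ (m' : ℝ) + 1 := by exact_mod_cast hm2
  have hk1 : D (k + 1) (b / 2) u ≤ D k b u := (clk_step_le h k hk b u).1
  have hi : k - j0 + 1 ≤ K := by omega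
  have hzz : ∀ z : ℤ, z ∈ Ioo (-((4 ^ (k - j0) : ℕ) : ℤ)) ((4 ^ (k - j0) : ℕ) : ℤ) →
      |z| ≤ 4 ^ k := by
    intro z hz
    rw [Finset.mem_Ioo] at hz
    have h3 : (4 : ℤ) ^ (k - j0) ≤ 4 ^ k := pow_le_pow_right₀ (by norm_num) (by omega)
    push_cast at hz
    rw [abs_le]
    constructor <;> linarith [hz.1, hz.2]
  -- stamps
  have hst : ∀ c < 2 ^ k, ∀ z : ℤ, |z| ≤ 4 ^ k → ∀ w ∈ Icc (k + 1) K,
      ⌊DS D w (b / 2 ^ (w - k)) (u + th M (b * 2 ^ k + c) + cs M z)⌋₊ = m' →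
      (m' : ℝ) ≤ DS D w (b / 2 ^ (w - k)) (u + th M (b * 2 ^ k + c) + cs M z) := by
    intro c hc z hz w hw he
    rw [← he]
    exact Nat.floor_le (clk_nonneg h w (by have := (Finset.mem_Icc.1 hw).2; omega) _ _)
  have hloc : ∀ f : A M → ℝ, locT k (k - j0) b f u =
      (∑ c ∈ range (2 ^ k), ∑ j ∈ range (4 ^ (k - j0)), ∑ j' ∈ range (4 ^ (k - j0)),
        (fun (c : ℕ) (z : ℤ) => f (u + th M (b * 2 ^ k + c) + cs M z)) c ((j : ℤ) - j')) /
        (2 ^ k * ((4 : ℝ) ^ (k - j0)) ^ 2) := fun f => rfl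
  have hjz : ∀ j ∈ range (4 ^ (k - j0)), ∀ j' ∈ range (4 ^ (k - j0)),
      |(j : ℤ) - j'| ≤ 4 ^ k := by
    intro j hj j' hj'
    rw [Finset.mem_range] at hj hj'
    refine hzz _ ?_
    rw [Finset.mem_Ioo]
    omega
  by_cases hL : 4 * κ ≤ LL K mT mS D k b u
  · -- busy: everything vanishes
    have hb := clk_busy h hκ hT hS k hk b u hL
    have hz0 : locT k (k - j0) b g u = 0 := by
      unfold locT
      rw [Finset.sum_eq_zero, zero_div]
      intro c hc
      refine Finset.sum_eq_zero fun j hj => Finset.sum_eq_zero fun j' hj' => ?_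
      rw [hgdef]
      refine Finset.sum_eq_zero fun w hw => ?_
      rw [if_neg]
      intro he
      have hc' := Finset.mem_range.1 hc
      have h3 := hst c hc' _ (hjz j hj j' hj') w hw he
      have h4 := (abs_le.1 (win_tied h k w (by have := (Finset.mem_Icc.1 hw).1; omega)
        (by have := (Finset.mem_Icc.1 hw).2; omega) b c hc' u _ (hjz j hj j' hj'))).2
      have h5 := win_mono h k w (Finset.mem_Icc.1 hw).1 (Finset.mem_Icc.1 hw).2 b u
      linarith
    rw [hz0]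
    have := win_lam
    positivity
  · rw [not_le] at hL
    have hgle : ∀ c < 2 ^ k, ∀ z : ℤ, |z| ≤ 4 ^ k →
        g (u + th M (b * 2 ^ k + c) + cs M z) ≤
          rS K mS D k b (u + th M (b * 2 ^ k + c) + cs M z) := by
      intro c hc z hz
      rw [hgdef]
      unfold rS
      refine le_trans (Finset.sum_le_sum fun w hw => ?_) (le_add_of_nonneg_left (hS _ _ _))
      split_ifs with he hr hr
      · exact le_rfl
      · exfalso
        refine hr ?_
        have h3 := hst c hc z hz w hw he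
        have h4 := (abs_le.1 (win_tied h k (k + 1) (by omega) (by omega) b c hc u z hz)).2
        have h6 : k + 1 - k = 1 := by omega
        rw [h6, pow_one] at h4
        linarith
      · exact hS _ _ _
      · exact le_rfl
    calc locT k (k - j0) b g u
        ≤ locT k (k - j0) b (rS K mS D k b) u := by
          unfold locT
          refine div_le_div_of_nonneg_right ?_ (by positivity)
          refine Finset.sum_le_sum fun c hc => Finset.sum_le_sum fun j hj =>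
            Finset.sum_le_sum fun j' hj' => ?_
          exact hgle c (Finset.mem_range.1 hc) _ (hjz j hj j' hj')
      _ ≤ (∑ p ∈ range (2 ^ k) ×ˢ Ioo (-((4 ^ (k - j0) : ℕ) : ℤ)) ((4 ^ (k - j0) : ℕ) : ℤ),
            rS K mS D k b (u + th M (b * 2 ^ k + p.1) + cs M p.2)) /
            (2 ^ k * (4 : ℝ) ^ (k - j0)) := by
          rw [hloc]
          exact win_loc k (k - j0)
            (fun c z => rS K mS D k b (u + th M (b * 2 ^ k + c) + cs M z))
            (fun c z => win_rS0 hS k b _)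
      _ ≤ (25 * Lam ^ 3 * 8 ^ k * (4 * κ)) / (2 ^ k * (4 : ℝ) ^ (k - j0)) := by
          refine div_le_div_of_nonneg_right ?_ (by positivity)
          have key : ∀ c'' ∈ range (2 ^ k),
              (∑ p ∈ range (2 ^ k) ×ˢ Ioo (-((4 ^ (k - j0) : ℕ) : ℤ)) ((4 ^ (k - j0) : ℕ) : ℤ),
                rS K mS D k b (u + th M (b * 2 ^ k + p.1) + cs M p.2)) ≤
              25 * Lam ^ 3 * 8 ^ k *
                av k (b * 2 ^ k) (fun w => rS K mS D k b (w + th M (b * 2 ^ k + c''))) u := by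
            intro c'' hc''
            have hc3 := Finset.mem_range.1 hc''
            have h3 := win_sum k (k - j0) (b * 2 ^ k)
              (fun w => rS K mS D k b (w + th M (b * 2 ^ k + c''))) (fun w => win_rS0 hS k b _) u
              (fun p => u + th M (b * 2 ^ k + p.1) + cs M p.2 - th M (b * 2 ^ k + c'')) ?_ ?_
            · simpa only [sub_add_cancel] using h3
            · intro p hp q hq hpq
              simp only [Finset.coe_product, Set.mem_prod, Finset.mem_coe,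
                Finset.mem_range] at hp hq
              simp only at hpq
              have h4 : th M (b * 2 ^ k + p.1) + cs M p.2 = th M (b * 2 ^ k + q.1) + cs M q.2 := by
                have := sub_left_injective hpq
                simp only [add_assoc] at this
                exact add_left_cancel this
              have h5 := win_inj K k (k - j0) (b * 2 ^ k) hk hi hM p.1 q.1 p.2 q.2 hp.1 hq.1 hp.2
                hq.2 h4
              exact Prod.ext h5.1 h5.2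
            · intro p hp
              rw [Finset.mem_product, Finset.mem_range] at hp
              have h4 : u + th M (b * 2 ^ k + p.1) + cs M p.2 - th M (b * 2 ^ k + c'') - u =
                  (th M (b * 2 ^ k + p.1) - th M (b * 2 ^ k)) +
                    (-(th M (b * 2 ^ k + c'') - th M (b * 2 ^ k)) + cs M p.2) := by abel
              rw [h4, co_add, co_add, co_th, co_neg, co_th, co_cs]
              refine (nm_add_le _ _ _).trans ?_
              have h5 := nm_add_le k (-th M c'') (cs M p.2)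
              rw [nm_neg] at h5
              have h6 := win_nm_th (M := M) k p.1 hp.1
              have h7 := win_nm_th (M := M) k c'' hc3
              have h8 := win_nm_cs (M := M) k p.2 (hzz _ hp.2)
              linarith
          have hsum := Finset.sum_le_sum key
          rw [Finset.sum_const, card_range, nsmul_eq_mul, ← Finset.mul_sum] at hsum
          have h2k : (0 : ℝ) < 2 ^ k := by positivity
          have hav := win_avsum k (b * 2 ^ k) (range (2 ^ k))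
            (fun c'' w => rS K mS D k b (w + th M (b * 2 ^ k + c''))) (2 ^ k) u
          have hav2 : av k (b * 2 ^ k) (fun w =>
              (∑ c'' ∈ range (2 ^ k), rS K mS D k b (w + th M (b * 2 ^ k + c''))) / 2 ^ k) u ≤
              LL K mT mS D k b u := by
            unfold LL
            refine av_mono _ _ _ _ (fun w => ?_) u
            unfold bb
            exact le_add_of_nonneg_left (win_rT0 hT k b w)
          rw [← hav] at hav2
          push_cast at hsum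
          have hC : (0 : ℝ) ≤ 25 * Lam ^ 3 * 8 ^ k := by have := win_lam; positivity
          rw [div_le_iff₀ h2k] at hav2
          have h9 : 25 * Lam ^ 3 * 8 ^ k *
              (∑ c'' ∈ range (2 ^ k), av k (b * 2 ^ k)
                (fun w => rS K mS D k b (w + th M (b * 2 ^ k + c''))) u) ≤
              25 * Lam ^ 3 * 8 ^ k * (4 * κ * 2 ^ k) := by
            refine mul_le_mul_of_nonneg_left (hav2.trans ?_) hC
            exact mul_le_mul_of_nonneg_right hL.le h2k.le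
          have h10 := hsum.trans h9
          refine le_of_mul_le_mul_left (h10.trans (le_of_eq ?_)) h2k
          ring
      _ = 25 * Lam ^ 3 * 4 ^ j0 * (4 * κ) := win_pow k j0 h2 _
      _ ≤ 200 * Lam ^ 3 * 4 ^ j0 * κ := by
          have hx : 0 ≤ Lam ^ 3 * 4 ^ j0 * κ := by have := win_lam; positivity
          linarith

private theorem win_nearS {K : ℕ} {κ : ℝ} {mT mS D : ℕ → ℕ → A M → ℝ} (h : IsClock K κ mT mS D)
    (hκ : 0 < κ) (hT : ∀ k b u, 0 ≤ mT k b u) (hS : ∀ k b u, 0 ≤ mS k b u) (hM : 4 ^ K ≤ M)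
    (k : ℕ) (hk : k ≤ K) (j0 : ℕ) (h1 : 1 ≤ j0) (h2 : j0 ≤ k) (b : ℕ) (v : A M) (m : ℕ)
    (hm1 : m ≤ ⌊DS D k b v⌋₊ + 1) (hm2 : ⌊DS D k b v⌋₊ ≤ m + 1) :
    locS k (k - j0) b
      (fun u => acc K (rs (fun k b u => ⌊D k b u⌋₊) {m} mT) (k + 1) (b / 2) u) v ≤
      200 * Lam ^ 3 * 4 ^ j0 * κ := by
  set g : A M → ℝ :=
    fun u => acc K (rs (fun k b u => ⌊D k b u⌋₊) {m} mT) (k + 1) (b / 2) u with hg
  have hgdef : ∀ u, g u = ∑ w ∈ Icc (k + 1) K,
      (if ⌊D w (b / 2 ^ (w - k)) u⌋₊ = m then mT w (b / 2 ^ (w - k)) u else 0) := by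
    intro u
    rw [hg]
    simp only
    rw [win_acc]
    refine Finset.sum_congr rfl fun w _ => ?_
    unfold rs
    simp only [Finset.mem_singleton]
  have hD1 : DS D k b v < ⌊DS D k b v⌋₊ + 1 := Nat.lt_floor_add_one _
  have hm1' : (m : ℝ) ≤ (⌊DS D k b v⌋₊ : ℝ) + 1 := by exact_mod_cast hm1
  have hm2' : (⌊DS D k b v⌋₊ : ℝ) ≤ (m : ℝ) + 1 := by exact_mod_cast hm2
  have hi : k - j0 + 1 ≤ K := by omega
  have hzz : ∀ z : ℤ, z ∈ Ioo (-((4 ^ (k - j0) : ℕ) : ℤ)) ((4 ^ (k - j0) : ℕ) : ℤ) →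
      |z| ≤ 4 ^ k := by
    intro z hz
    rw [Finset.mem_Ioo] at hz
    have h3 : (4 : ℤ) ^ (k - j0) ≤ 4 ^ k := pow_le_pow_right₀ (by norm_num) (by omega)
    push_cast at hz
    rw [abs_le]
    constructor <;> linarith [hz.1, hz.2]
  have hjz : ∀ j ∈ range (4 ^ (k - j0)), ∀ j' ∈ range (4 ^ (k - j0)),
      |(j : ℤ) - j'| ≤ 4 ^ k := by
    intro j hj j' hj'
    rw [Finset.mem_range] at hj hj'
    refine hzz _ ?_
    rw [Finset.mem_Ioo]
    omega
  -- stamps
  have hst : ∀ u : A M, ∀ w ∈ Icc (k + 1) K, ⌊D w (b / 2 ^ (w - k)) u⌋₊ = m →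
      (m : ℝ) ≤ D w (b / 2 ^ (w - k)) u := by
    intro u w hw he
    rw [← he]
    exact Nat.floor_le (clk_nonneg h w (by have := (Finset.mem_Icc.1 hw).2; omega) _ _)
  -- tied at level k
  have htied : ∀ c < 2 ^ k, ∀ z : ℤ, |z| ≤ 4 ^ k →
      D k b (v - th M (b * 2 ^ k + c) - cs M z) ≤ DS D k b v + 1 / 4 := by
    intro c hc z hz
    have h3 := (abs_le.1 (win_tied h k k le_rfl (by omega) b c hc
      (v - th M (b * 2 ^ k + c) - cs M z) z hz)).1
    have h4 : v - th M (b * 2 ^ k + c) - cs M z + th M (b * 2 ^ k + c) + cs M z = v := by abel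
    rw [h4, Nat.sub_self, pow_zero, Nat.div_one] at h3
    linarith
  by_cases hz0 : ∀ c ∈ range (2 ^ k), ∀ j ∈ range (4 ^ (k - j0)), ∀ j' ∈ range (4 ^ (k - j0)),
      g (v - th M (b * 2 ^ k + c) - cs M ((j : ℤ) - j')) = 0
  · have hz1 : locS k (k - j0) b g v = 0 := by
      unfold locS
      rw [Finset.sum_eq_zero, zero_div]
      intro c hc
      exact Finset.sum_eq_zero fun j hj => Finset.sum_eq_zero fun j' hj' => hz0 c hc j hj j' hj'
    rw [hz1]
    have := win_lam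
    positivity
  · push_neg at hz0
    obtain ⟨c0, hc0, j1, hj1, j2, hj2, hne⟩ := hz0
    rw [Finset.mem_range] at hc0
    set z0 : ℤ := (j1 : ℤ) - j2 with hz0def
    have hz0' : |z0| ≤ 4 ^ k := hjz j1 hj1 j2 hj2
    set u0 : A M := v - th M (b * 2 ^ k + c0) - cs M z0 with hu0
    have hL0 : LL K mT mS D k b u0 < 4 * κ := by
      by_contra hcon
      rw [not_lt] at hcon
      have hb := clk_busy h hκ hT hS k hk b u0 hcon
      apply hne
      rw [hgdef]
      refine Finset.sum_eq_zero fun w hw => ?_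
      rw [if_neg]
      intro he
      have h3 := hst u0 w hw he
      have h5 := win_mono h k w (Finset.mem_Icc.1 hw).1 (Finset.mem_Icc.1 hw).2 b u0
      have h6 := htied c0 hc0 z0 hz0'
      linarith
    have hL : LL K mT mS D k b (v - th M (b * 2 ^ k)) ≤ 8 * κ := by
      have h3 : v - th M (b * 2 ^ k) = u0 +
          ((th M (b * 2 ^ k + c0) - th M (b * 2 ^ k)) + cs M z0) := by
        rw [hu0]; abel
      have hbb : ∀ u, 0 ≤ bb K mT mS D k b u := by
        intro u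
        unfold bb
        refine add_nonneg (win_rT0 hT k b u) ?_
        exact div_nonneg (Finset.sum_nonneg fun c _ => win_rS0 hS k b _) (by positivity)
      have h4 := av_harnack k (b * 2 ^ k) (bb K mT mS D k b) hbb u0
        ((th M (b * 2 ^ k + c0) - th M (b * 2 ^ k)) + cs M z0)
      rw [← h3, co_add, co_th, co_cs] at h4
      have h6 := win_nm_th (M := M) k c0 hc0
      have h8 := win_nm_cs (M := M) k z0 hz0'
      have h5 := nm_add_le k (th M c0) (cs M z0)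
      have h9 : nm k (th M c0 + cs M z0) ≤ 1 / 2 := by linarith
      have h10 : Real.exp (nm k (th M c0 + cs M z0)) ≤ 2 := by
        calc Real.exp (nm k (th M c0 + cs M z0)) ≤ Real.exp (1 / 2) := Real.exp_le_exp.2 h9
          _ ≤ 2 := by
            have h11 : Real.exp (1 / 2) ^ 2 = Real.exp 1 := by
              rw [← Real.exp_nat_mul]; norm_num
            have h12 := Real.exp_one_lt_d9
            nlinarith [Real.exp_pos (1 / 2)]
      have h13 : 0 ≤ LL K mT mS D k b u0 := av_nonneg _ _ _ hbb u0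
      change LL K mT mS D k b (v - th M (b * 2 ^ k)) ≤ _ at h4
      calc LL K mT mS D k b (v - th M (b * 2 ^ k))
          ≤ Real.exp (nm k (th M c0 + cs M z0)) * LL K mT mS D k b u0 := h4
        _ ≤ 2 * (4 * κ) := mul_le_mul h10 hL0.le h13 (by norm_num)
        _ = 8 * κ := by ring
    have hgle : ∀ c < 2 ^ k, ∀ z : ℤ, |z| ≤ 4 ^ k →
        g (v - th M (b * 2 ^ k + c) - cs M z) ≤
          rT K mT D k b (v - th M (b * 2 ^ k + c) - cs M z) := by
      intro c hc z hz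
      rw [hgdef]
      unfold rT
      refine le_trans (Finset.sum_le_sum fun w hw => ?_) (le_add_of_nonneg_left (hT _ _ _))
      split_ifs with he hr hr
      · exact le_rfl
      · exfalso
        refine hr ?_
        have h3 := hst _ w hw he
        have h4 := (clk_step_le h k hk b (v - th M (b * 2 ^ k + c) - cs M z)).1
        have h6 := htied c hc z hz
        linarith
      · exact hT _ _ _
      · exact le_rfl
    calc locS k (k - j0) b g v
        ≤ locS k (k - j0) b (rT K mT D k b) v := by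
          unfold locS
          refine div_le_div_of_nonneg_right ?_ (by positivity)
          refine Finset.sum_le_sum fun c hc => Finset.sum_le_sum fun j hj =>
            Finset.sum_le_sum fun j' hj' => ?_
          exact hgle c (Finset.mem_range.1 hc) _ (hjz j hj j' hj')
      _ ≤ (∑ p ∈ range (2 ^ k) ×ˢ Ioo (-((4 ^ (k - j0) : ℕ) : ℤ)) ((4 ^ (k - j0) : ℕ) : ℤ),
            rT K mT D k b (v - th M (b * 2 ^ k + p.1) - cs M p.2)) /
            (2 ^ k * (4 : ℝ) ^ (k - j0)) :=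
          win_loc k (k - j0)
            (fun c z => rT K mT D k b (v - th M (b * 2 ^ k + c) - cs M z))
            (fun c z => win_rT0 hT k b _)
      _ ≤ (25 * Lam ^ 3 * 8 ^ k * (8 * κ)) / (2 ^ k * (4 : ℝ) ^ (k - j0)) := by
          refine div_le_div_of_nonneg_right ?_ (by positivity)
          have h3 := win_sum k (k - j0) (b * 2 ^ k) (rT K mT D k b) (fun w => win_rT0 hT k b _)
            (v - th M (b * 2 ^ k))
            (fun p => v - th M (b * 2 ^ k + p.1) - cs M p.2) ?_ ?_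
          · refine h3.trans ?_
            refine mul_le_mul_of_nonneg_left ?_ (by have := win_lam; positivity)
            refine le_trans ?_ hL
            unfold LL
            refine av_mono _ _ _ _ (fun w => ?_) _
            unfold bb
            refine le_add_of_nonneg_right ?_
            exact div_nonneg (Finset.sum_nonneg fun c _ => win_rS0 hS k b _) (by positivity)
          · intro p hp q hq hpq
            simp only [Finset.coe_product, Set.mem_prod, Finset.mem_coe,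
              Finset.mem_range] at hp hq
            simp only at hpq
            have h4 : th M (b * 2 ^ k + p.1) + cs M p.2 = th M (b * 2 ^ k + q.1) + cs M q.2 := by
              rw [sub_sub, sub_sub] at hpq
              exact sub_right_injective hpq
            have h5 := win_inj K k (k - j0) (b * 2 ^ k) hk hi hM p.1 q.1 p.2 q.2 hp.1 hq.1 hp.2
              hq.2 h4
            exact Prod.ext h5.1 h5.2
          · intro p hp
            rw [Finset.mem_product, Finset.mem_range] at hp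
            have h4 : v - th M (b * 2 ^ k + p.1) - cs M p.2 - (v - th M (b * 2 ^ k)) =
                -((th M (b * 2 ^ k + p.1) - th M (b * 2 ^ k)) + cs M p.2) := by abel
            rw [h4, co_neg, co_add, co_th, co_cs, nm_neg]
            refine (nm_add_le _ _ _).trans ?_
            have h6 := win_nm_th (M := M) k p.1 hp.1
            have h8 := win_nm_cs (M := M) k p.2 (hzz _ hp.2)
            linarith
      _ = 25 * Lam ^ 3 * 4 ^ j0 * (8 * κ) := win_pow k j0 h2 _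
      _ = 200 * Lam ^ 3 * 4 ^ j0 * κ := by ring

theorem windows_exist (K k1 : ℕ) (hk1 : k1 ≤ K) (hM : 4 ^ K ≤ M) (κ : ℝ) (hκ : 0 < κ)
    (mT mS : ℕ → ℕ → A M → ℝ) (hT : ∀ k b u, 0 ≤ mT k b u) (hS : ∀ k b u, 0 ≤ mS k b u) :
    ∃ wT wS, Windows M K k1 κ mT mS wT wS := by
  obtain ⟨D, h⟩ := clock_exists (M := M) K κ mT mS
  refine ⟨fun k b u => ⌊D k b u⌋₊, fun k b v => ⌊DS D k b v⌋₊, ?_, ?_, ?_, ?_, ?_, ?_⟩
  · intro k w hkw hw c _ u z hz
    have h1 := (abs_le.1 (clk_tied h w (by omega) c u z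
      (hz.trans (pow_le_pow_right₀ (by norm_num) hkw)))).2
    have h2 := clk_mono h k w hkw (by omega) c u
    exact win_floor (by linarith)
  · intro k w hkw hw c _ u z hz
    have h1 := (abs_le.1 (clk_tied h k (by omega) c u z hz)).1
    have h2 := clk_mono h k w hkw (by omega) c u
    exact win_floor (by linarith)
  · intro k w hkw hw c u
    exact Nat.floor_le_floor (clk_mono h k w hkw (by omega) c u)
  · intro k hk j0 h1 h2 b u m' hm1 hm2
    exact win_nearT h hκ hT hS hM k hk j0 h1 h2 b u m' hm1 hm2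
  · intro k hk j0 h1 h2 b v m hm1 hm2
    exact win_nearS h hκ hT hS hM k hk j0 h1 h2 b v m hm1 hm2
  · intro N hN
    have hN0 : (0 : ℝ) < N := by exact_mod_cast hN
    have hc := clk_count h hκ hT hS k1 hk1
    have h1 : ex K (fun c (u : A M) => if N ≤ ⌊D k1 (c / 2 ^ k1) u⌋₊ then (1 : ℝ) else 0) ≤
        ex K (fun c (u : A M) => (1 / (N : ℝ)) * D k1 (c / 2 ^ k1) u) := by
      refine ex_mono K _ _ fun c _ u => ?_
      have h0 := clk_nonneg h k1 (by omega) (c / 2 ^ k1) u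
      split_ifs with hif
      · rw [one_div, inv_mul_eq_div, le_div_iff₀ hN0, one_mul]
        exact le_trans (by exact_mod_cast hif) (Nat.floor_le h0)
      · positivity
    rw [ex_smul] at h1
    refine h1.trans ?_
    rw [le_div_iff₀ (by positivity)]
    calc 1 / (N : ℝ) * ex K (fun c (u : A M) => D k1 (c / 2 ^ k1) u) * (κ * N)
        = κ * ex K (fun c (u : A M) => D k1 (c / 2 ^ k1) u) := by
          field_simp
      _ ≤ _ := hc


end

end NP2
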